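import Mathlib

/-!
# MP_394d50_gt: definitions

A flag simplicial complex `L` with vertex set `V` is given by a simple graph `G` on `V` (its
1-skeleton): the simplices of `L` are the cliques of `G`.
-/

namespace SingerRA

/-! ## Operations on flag complexes -/

/-- The suspension (join with two points) of a flag complex, on `V ⊕ Bool`: the two new vertices
are not adjacent to each other and adjacent to every vertex of `V`. -/
def suspG {V : Type} (G : SimpleGraph V) : SimpleGraph (V ⊕ Bool) where
  Adj x y := match x, y with
    | .inl u, .inl v => G.Adj u v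
    | .inl _, .inr _ => True
    | .inr _, .inl _ => True
    | .inr _, .inr _ => False
  symm := ⟨by
    rintro (u | a) (v | b) h
    · exact G.adj_symm h
    · trivial
    · trivial
    · exact h⟩
  loopless := ⟨by
    rintro (u | a) h
    · exact G.loopless.irrefl u h
    · exact h⟩

/-- The edge subdivision of a flag complex at the edge `{s, t}`, on `Option V`: the new vertex
`none` (the midpoint of the edge) is adjacent to `s`, `t` and the common neighbours of `s` and
`t`; the edge `{s, t}` is removed; all other edges are kept. -/
def subdivG {V : Type} (G : SimpleGraph V) (s t : V) : SimpleGraph (Option V) where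
  Adj x y := match x, y with
    | some u, some v => G.Adj u v ∧ ¬ (u = s ∧ v = t) ∧ ¬ (u = t ∧ v = s)
    | some u, none => u = s ∨ u = t ∨ (G.Adj s u ∧ G.Adj t u)
    | none, some u => u = s ∨ u = t ∨ (G.Adj s u ∧ G.Adj t u)
    | none, none => False
  symm := ⟨by
    rintro (_ | u) (_ | v) h
    · exact h
    · exact h
    · exact h
    · exact ⟨G.adj_symm h.1, fun h' => h.2.2 ⟨h'.2, h'.1⟩, fun h' => h.2.1 ⟨h'.2, h'.1⟩⟩⟩
  loopless := ⟨by
    rintro (_ | u) h
    · exact h
    · exact G.loopless.irrefl u h.1⟩

/-- The link of the edge `{s, t}` in a flag complex: the full subcomplex on the common neighbours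
of `s` and `t`. -/
def linkG {V : Type} (G : SimpleGraph V) (s t : V) :
    SimpleGraph {v : V // G.Adj s v ∧ G.Adj t v} :=
  G.comap Subtype.val

/-- The link of a vertex in a flag complex: the full subcomplex on its neighbours. -/
def nbrG {V : Type} (G : SimpleGraph V) (v : V) : SimpleGraph {u : V // G.Adj v u} :=
  G.comap Subtype.val

/-- The smallest class of flag complexes containing the empty complex and closed under
suspension and under edge subdivisions (and isomorphism); `CrossSub n G`: the flag complex of `G`
is a triangulation of the `(n-1)`-sphere in the class. Equivalently, this is the class of the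
complexes obtained from the boundaries of the `n`-dimensional cross-polytopes by finitely many
edge subdivisions. -/
inductive CrossSub : ℕ → ∀ {V : Type}, SimpleGraph V → Prop
  | empty {V : Type} (hV : IsEmpty V) (G : SimpleGraph V) : CrossSub 0 G
  | susp {n : ℕ} {V : Type} {G : SimpleGraph V} (h : CrossSub n G) : CrossSub (n + 1) (suspG G)
  | subdiv {n : ℕ} {V : Type} {G : SimpleGraph V} (h : CrossSub n G) {s t : V}
      (hst : G.Adj s t) : CrossSub n (subdivG G s t)
  | iso {n : ℕ} {V V' : Type} {G : SimpleGraph V} {G' : SimpleGraph V'} (h : CrossSub n G)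
      (e : G ≃g G') : CrossSub n G'

/-- The larger class for which the vanishing theorem holds: it contains the empty complex
(`n = 0`), the suspension of every finite flag complex (every `n`), and it is closed under the
subdivision of edges whose link is in the class (and under isomorphism). -/
inductive Good : ℕ → ∀ {V : Type}, SimpleGraph V → Prop
  | empty {V : Type} (hV : IsEmpty V) (G : SimpleGraph V) : Good 0 G
  | susp (n : ℕ) {V : Type} (hV : Finite V) (G : SimpleGraph V) : Good n (suspG G)
  | subdiv {n : ℕ} {V : Type} {G : SimpleGraph V} (h : Good (n + 2) G) {s t : V}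
      (hst : G.Adj s t) (hl : Good n (linkG G s t)) : Good (n + 2) (subdivG G s t)
  | iso {n : ℕ} {V V' : Type} {G : SimpleGraph V} {G' : SimpleGraph V'} (h : Good n G)
      (e : G ≃g G') : Good n G'

/-! ## The right-angled Coxeter group -/

open scoped Classical in
/-- The Coxeter matrix of the right-angled Coxeter group of `G`: `m(u,v) = 2` when `u`, `v` are
adjacent and `m(u,v) = ∞` (written `0` in Mathlib) when they are distinct and not adjacent. -/
noncomputable def cox {V : Type} (G : SimpleGraph V) : CoxeterMatrix V where
  M := fun u v => if u = v then 1 else if G.Adj u v then 2 else 0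
  isSymm := by
    ext u v
    simp only [Matrix.transpose_apply]
    by_cases h : u = v
    · subst h; rfl
    · rw [if_neg h, if_neg (Ne.symm h)]
      simp only [G.adj_comm]
  diagonal := fun i => by simp
  off_diagonal := fun i j h => by
    simp only [if_neg h]
    split_ifs <;> simp

/-- The right-angled Coxeter group of the flag complex of `G`. -/
abbrev W {V : Type} (G : SimpleGraph V) : Type := (cox G).Group

/-- The Coxeter system of `W G`. -/
noncomputable abbrev cs {V : Type} (G : SimpleGraph V) : CoxeterSystem (cox G) (W G) :=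
  (cox G).toCoxeterSystem

/-- The Coxeter generator of `v`. -/
noncomputable abbrev gen {V : Type} (G : SimpleGraph V) (v : V) : W G := (cs G).simple v

open scoped Classical in
theorem lab_liftable {V : Type} (G : SimpleGraph V) : (cox G).IsLiftable
    (fun v => (Multiplicative.ofAdd (Pi.single v 1 : V → ZMod 2))) := by
  intro i j
  have h2 : ∀ x : Multiplicative (V → ZMod 2), x * x = 1 := by
    intro x
    have : x.toAdd + x.toAdd = 0 := by
      funext v
      exact CharTwo.add_self_eq_zero _
    exact this
  by_cases h : i = j
  · subst h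
    show (_ * _) ^ (if i = i then 1 else _) = 1
    rw [if_pos rfl, pow_one]
    exact h2 _
  · show (_ * _) ^ (if i = j then 1 else if G.Adj i j then 2 else 0) = 1
    rw [if_neg h]
    split_ifs
    · rw [pow_two]; exact h2 _
    · rw [pow_zero]

open scoped Classical in
/-- The homomorphism `W → (ℤ/2)^V` which sends the generator of `v` to the `v`-th basis vector.
Its kernel is the fundamental group of the real moment-angle manifold below. -/
noncomputable def lab {V : Type} (G : SimpleGraph V) : W G →* Multiplicative (V → ZMod 2) :=
  (cs G).lift ⟨fun v => Multiplicative.ofAdd (Pi.single v 1 : V → ZMod 2), lab_liftable G⟩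

/-- The group `Γ = ker (W → (ℤ/2)^V)`. -/
noncomputable def Gam {V : Type} (G : SimpleGraph V) : Subgroup (W G) := (lab G).ker

/-! ## The Davis complex and the real moment-angle manifold as topological spaces -/

instance instTopW {V : Type} (G : SimpleGraph V) : TopologicalSpace (W G) := ⊥

instance instDiscW {V : Type} (G : SimpleGraph V) : DiscreteTopology (W G) := ⟨rfl⟩

/-- The chamber: the cubical cone over the barycentric subdivision of `L`, in coordinates. -/
def Chamber {V : Type} (G : SimpleGraph V) : Set (V → ℝ) :=
  {y | (∀ v, 0 ≤ y v ∧ y v ≤ 1) ∧ G.IsClique {v | y v ≠ 0}}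

/-- The open cone over the flag complex of `G`, in coordinates: the points `y` with non-negative
coordinates whose support is a simplex. It is homeomorphic to `ℝⁿ` when the flag complex is a
triangulation of the `(n-1)`-sphere. -/
def Cone {V : Type} (G : SimpleGraph V) : Set (V → ℝ) :=
  {y | (∀ v, 0 ≤ y v) ∧ G.IsClique {v | y v ≠ 0}}

/-- The equivalence relation on `W × Chamber`: `(w, y) ∼ (w', y')` when `y = y'` and `w⁻¹ w'` is in
the subgroup generated by the mirrors `y v = 1` containing `y`. -/
def davisSetoid {V : Type} (G : SimpleGraph V) : Setoid (W G × Chamber G) where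
  r p q := p.2 = q.2 ∧ p.1⁻¹ * q.1 ∈ Subgroup.closure {g | ∃ v, p.2.1 v = 1 ∧ g = gen G v}
  iseqv := by
    refine ⟨fun p => ⟨rfl, by simp⟩, ?_, ?_⟩
    · rintro ⟨w, y⟩ ⟨w', y'⟩ ⟨h1, h2⟩
      dsimp at h1 h2
      subst h1
      refine ⟨rfl, ?_⟩
      have := Subgroup.inv_mem _ h2
      simpa [mul_inv_rev] using this
    · rintro ⟨w, y⟩ ⟨w', y'⟩ ⟨w'', y''⟩ ⟨h1, h2⟩ ⟨h3, h4⟩
      dsimp at h1 h2 h3 h4
      subst h1
      subst h3
      refine ⟨rfl, ?_⟩
      have := Subgroup.mul_mem _ h2 h4
      dsimp
      have e : w⁻¹ * w'' = w⁻¹ * w' * (w'⁻¹ * w'') := by group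
      rw [e]
      exact this

/-- The Davis complex `Σ` of `W` (Davis' basic construction `(W × Chamber)/∼`), with the quotient
topology. -/
def Davis {V : Type} (G : SimpleGraph V) : Type := Quotient (davisSetoid G)

instance instTopDavis {V : Type} (G : SimpleGraph V) : TopologicalSpace (Davis G) :=
  inferInstanceAs (TopologicalSpace (Quotient (davisSetoid G)))

/-- The point `[w, y]` of the Davis complex. -/
def dmk {V : Type} (G : SimpleGraph V) (w : W G) (y : Chamber G) : Davis G :=
  Quotient.mk (davisSetoid G) (w, y)

/-- The real moment-angle complex `Z` of the flag complex of `G`: the subcomplex of the cube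
`[-1,1]^V` of the points `x` such that `{v : |x v| < 1}` is a simplex. -/
def ZG {V : Type} (G : SimpleGraph V) : Set (V → ℝ) :=
  {x | (∀ v, |x v| ≤ 1) ∧ G.IsClique {v | |x v| < 1}}

/-- The sign `+1` or `-1` attached to an element of `ZMod 2`. -/
def sg (a : ZMod 2) : ℝ := if a = 0 then 1 else -1

/-- The coordinates of the projection `Σ → Z`. -/
noncomputable def projFun {V : Type} (G : SimpleGraph V) (p : W G × Chamber G) : V → ℝ :=
  fun v => sg ((lab G p.1).toAdd v) * (1 - p.2.1 v)

theorem sg_mem (a : ZMod 2) : sg a = 1 ∨ sg a = -1 := by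
  unfold sg; split_ifs
  · exact Or.inl rfl
  · exact Or.inr rfl

theorem abs_projFun {V : Type} (G : SimpleGraph V) (p : W G × Chamber G) (v : V) :
    |projFun G p v| = 1 - p.2.1 v := by
  have h := (p.2.2.1 v).2
  have h0 : |(1 : ℝ) - p.2.1 v| = 1 - p.2.1 v := abs_of_nonneg (by linarith)
  unfold projFun
  rw [abs_mul, h0]
  rcases sg_mem ((lab G p.1).toAdd v) with h | h <;> rw [h] <;> simp

theorem projFun_mem {V : Type} (G : SimpleGraph V) (p : W G × Chamber G) :
    projFun G p ∈ ZG G := by
  refine ⟨fun v => ?_, ?_⟩
  · rw [abs_projFun]; linarith [(p.2.2.1 v).1]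
  · have : {v | |projFun G p v| < 1} = {v | p.2.1 v ≠ 0} := by
      ext v
      simp only [Set.mem_setOf_eq, abs_projFun]
      have := (p.2.2.1 v).1
      constructor
      · intro h h'
        rw [h'] at h
        linarith
      · intro h
        have : 0 < p.2.1 v := lt_of_le_of_ne this (Ne.symm h)
        linarith
    rw [this]
    exact p.2.2.2

theorem lab_gen {V : Type} [DecidableEq V] (G : SimpleGraph V) (v : V) :
    lab G (gen G v) = Multiplicative.ofAdd (Pi.single v 1 : V → ZMod 2) := by
  unfold lab gen
  rw [CoxeterSystem.lift_apply_simple]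
  congr 1
  funext u
  simp [Pi.single_apply]

theorem lab_closure {V : Type} (G : SimpleGraph V) (S : Set V) (g : W G)
    (hg : g ∈ Subgroup.closure {g | ∃ v ∈ S, g = gen G v}) (u : V) (hu : u ∉ S) :
    (lab G g).toAdd u = 0 := by
  classical
  induction hg using Subgroup.closure_induction with
  | mem x hx =>
    obtain ⟨v, hv, rfl⟩ := hx
    rw [lab_gen]
    have : u ≠ v := fun h => hu (h ▸ hv)
    simp [this]
  | one => simp
  | mul x y _ _ hx hy => rw [map_mul, toAdd_mul, Pi.add_apply, hx, hy, add_zero]
  | inv x _ hx => rw [map_inv, toAdd_inv, Pi.neg_apply, hx, neg_zero]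

/-- The projection `Σ → Z`, `[w, y] ↦ (± (1 - y v))_v`, the sign being given by `lab w`. -/
noncomputable def proj {V : Type} (G : SimpleGraph V) : Davis G → ZG G :=
  Quotient.lift (s := davisSetoid G) (fun p => (⟨projFun G p, projFun_mem G p⟩ : ZG G)) (by
    rintro ⟨w, y⟩ ⟨w', y'⟩ ⟨h1, h2⟩
    dsimp at h1 h2
    subst h1
    apply Subtype.ext
    funext v
    show sg ((lab G w).toAdd v) * (1 - y.1 v) = sg ((lab G w').toAdd v) * (1 - y.1 v)
    by_cases hv : y.1 v = 1
    · rw [hv]; simp
    · have h3 := lab_closure G {v | y.1 v = 1} (w⁻¹ * w') (by simpa using h2) v hv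
      rw [map_mul, map_inv, toAdd_mul, toAdd_inv, Pi.add_apply, Pi.neg_apply] at h3
      have h4 : (lab G w').toAdd v = (lab G w).toAdd v := by
        have := neg_add_eq_zero.mp h3
        exact this.symm
      rw [h4])

/-- The action of `g : W` on the Davis complex, `g [w, y] = [g w, y]`. -/
noncomputable def dact {V : Type} (G : SimpleGraph V) (g : W G) : Davis G → Davis G :=
  Quotient.map' (s₁ := davisSetoid G) (s₂ := davisSetoid G) (fun p => (g * p.1, p.2)) (by
    rintro ⟨w, y⟩ ⟨w', y'⟩ ⟨h1, h2⟩
    refine ⟨h1, ?_⟩
    dsimp at h1 h2 ⊢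
    have e : (g * w)⁻¹ * (g * w') = w⁻¹ * w' := by group
    rw [e]
    exact h2)

/-! ## Marked groups and cubes -/

/-- A marking of a group `A` by the flag complex `G`: involutions `a v`, commuting for adjacent
vertices, and a homomorphism to `(ℤ/2)^V` sending `a v` to the `v`-th basis vector. -/
structure Mk {V : Type} [DecidableEq V] (G : SimpleGraph V) (A : Type) [Group A] where
  /-- the generators -/
  a : V → A
  /-- the labels -/
  lab : A →* Multiplicative (V → ZMod 2)
  sq : ∀ v, a v * a v = 1
  comm : ∀ u v, G.Adj u v → a u * a v = a v * a u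
  lab_a : ∀ v, lab (a v) = Multiplicative.ofAdd (Pi.single v 1 : V → ZMod 2)

/-- A pair `(σ, x)` (with `σ` a clique and `x` in the marked group) is a cube when the labels of
`x` vanish on `σ`: it is the unique representative of this kind of the cube `(σ, x W_σ)`. -/
def Mk.IsCube {V : Type} [DecidableEq V] {G : SimpleGraph V} {A : Type} [Group A] (M : Mk G A)
    (p : Finset V × A) : Prop :=
  G.IsClique (p.1 : Set V) ∧ ∀ v ∈ p.1, (M.lab p.2).toAdd v = 0

/-- The cubes `(σ, x W_σ)` of a marked group, `σ` a clique. -/
def Mk.Cubes {V : Type} [DecidableEq V] {G : SimpleGraph V} {A : Type} [Group A] (M : Mk G A) :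
    Type :=
  {p : Finset V × A // M.IsCube p}

/-- The dimension of a cube. -/
def Mk.dim {V : Type} [DecidableEq V] {G : SimpleGraph V} {A : Type} [Group A] (M : Mk G A)
    (p : M.Cubes) : ℕ := p.1.1.card

/-- The sign `(-1)^{position of v in σ}`. -/
def orn {V : Type} [LinearOrder V] (σ : Finset V) (v : V) : ℤ :=
  (-1) ^ (σ.filter (· < v)).card

open scoped Classical in
/-- The incidence number `[q : p]` of the cubes `p`, `q`: the boundary of the cube
`q = (σ, x)` is `∑_{v ∈ σ} ± ((σ ∖ v, x) - (σ ∖ v, x a_v))`. -/
noncomputable def Mk.inc {V : Type} [LinearOrder V] {G : SimpleGraph V} {A : Type} [Group A]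
    (M : Mk G A) (p q : M.Cubes) : ℤ :=
  ∑ v ∈ q.1.1, orn q.1.1 v * ((if p.1 = (q.1.1.erase v, q.1.2) then 1 else 0) -
    (if p.1 = (q.1.1.erase v, q.1.2 * M.a v) then 1 else 0))

open scoped Classical in
theorem comm_of_adj {V : Type} (G : SimpleGraph V) (u v : V) (h : G.Adj u v) :
    gen G u * gen G v = gen G v * gen G u := by
  have h1 := (cs G).simple_mul_simple_pow u v
  have h2 : (cox G) u v = 2 := by
    show (if u = v then 1 else if G.Adj u v then 2 else 0) = 2
    rw [if_neg (G.ne_of_adj h), if_pos h]
  rw [h2] at h1
  have hu := (cs G).simple_mul_simple_self u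
  have hv := (cs G).simple_mul_simple_self v
  have h3 : (cs G).simple u * (cs G).simple v * ((cs G).simple u * (cs G).simple v) = 1 := by
    rw [← pow_two]; exact h1
  have h4 := mul_eq_one_iff_eq_inv.mp h3
  rw [h4, mul_inv_rev, (cs G).inv_simple, (cs G).inv_simple]

/-- The marking of `W` itself: the cubes of `davis G` are the cubes of the Davis complex. -/
noncomputable def davis {V : Type} [DecidableEq V] (G : SimpleGraph V) : Mk G (W G) where
  a := gen G
  lab := lab G
  sq := fun v => (cs G).simple_mul_simple_self v
  comm := fun u v h => comm_of_adj G u v h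
  lab_a := fun v => lab_gen G v

/-! ## `ℓ²`-homology -/

/-- The Hilbert space of the square-summable real chains (of all dimensions) of the Davis
complex. -/
abbrev L2 {V : Type} [DecidableEq V] (G : SimpleGraph V) : Type :=
  lp (fun _ : (davis G).Cubes => ℝ) 2

/-- `z` is the boundary of a cube: its coefficient at `p` is the incidence number `[q : p]`. -/
def IsBd {V : Type} [LinearOrder V] (G : SimpleGraph V) (z : L2 G) : Prop :=
  ∃ q : (davis G).Cubes, ∀ p, z p = ((davis G).inc p q : ℝ)

/-- `z` is the coboundary of a cube: its coefficient at `q` is the incidence number `[q : p]`. -/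
def IsCobd {V : Type} [LinearOrder V] (G : SimpleGraph V) (z : L2 G) : Prop :=
  ∃ p : (davis G).Cubes, ∀ q, z q = ((davis G).inc p q : ℝ)

/-- The space of the harmonic square-summable chains: the chains orthogonal to the boundaries of
all cubes and to the coboundaries of all cubes, that is the `c` with `∂ c = 0` and `∂* c = 0`. It
is isomorphic to the reduced `ℓ²`-homology. -/
noncomputable def harm {V : Type} [LinearOrder V] (G : SimpleGraph V) : Submodule ℝ (L2 G) :=
  (Submodule.span ℝ {z | IsBd G z ∨ IsCobd G z})ᗮ

instance instProjHarm {V : Type} [LinearOrder V] (G : SimpleGraph V) :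
    (harm G).HasOrthogonalProjection := by
  unfold harm
  infer_instance

/-- The deck group `Γ` acts on the cubes of the Davis complex. -/
noncomputable instance instActCubes {V : Type} [DecidableEq V] (G : SimpleGraph V) :
    MulAction (Gam G) (davis G).Cubes where
  smul g p := ⟨(p.1.1, (g : W G) * p.1.2), p.2.1, fun v hv => by
    have h1 : lab G (g : W G) = 1 := g.2
    have h2 := p.2.2 v hv
    show ((lab G) ((g : W G) * p.1.2)).toAdd v = 0
    rw [map_mul, h1, one_mul]
    exact h2⟩
  one_smul p := by
    apply Subtype.ext
    show (p.1.1, ((1 : Gam G) : W G) * p.1.2) = p.1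
    simp
  mul_smul g h p := by
    apply Subtype.ext
    show (p.1.1, ((g * h : Gam G) : W G) * p.1.2) = (p.1.1, (g : W G) * ((h : W G) * p.1.2))
    simp [mul_assoc]

open scoped Classical in
/-- The unit chain `δ_c` of a cube `c` of the Davis complex. -/
noncomputable def delta {V : Type} [LinearOrder V] (G : SimpleGraph V) (c : (davis G).Cubes) :
    L2 G := lp.single 2 c (1 : ℝ)

/-- The local dimension `⟨P δ_c, δ_c⟩` at the cube `c`, where `P` is the orthogonal projection on
the space of the harmonic chains. -/
noncomputable def locDim {V : Type} [LinearOrder V] (G : SimpleGraph V) (c : (davis G).Cubes) :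
    ℝ := inner ℝ ((harm G).starProjection (delta G c)) (delta G c)

open scoped Classical in
/-- The `ℓ²`-Betti number `b_k^{(2)}` of `Z` (with universal covering `Σ` and deck group `Γ`): the
von Neumann dimension over `Γ` of the harmonic `k`-chains, that is the sum over the `Γ`-orbits of
`k`-dimensional cubes `c` of `Σ` of `⟨P δ_c, δ_c⟩`, where `P` is the orthogonal projection on the
harmonic chains. -/
noncomputable def l2Betti {V : Type} [LinearOrder V] (G : SimpleGraph V) (k : ℕ) : ℝ :=
  ∑ᶠ o : MulAction.orbitRel.Quotient (Gam G) (davis G).Cubes,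
    if (davis G).dim (Quotient.out o) = k then locDim G (Quotient.out o) else 0

open scoped Classical in
/-- The Euler characteristic of `Z`: the alternating sum of the numbers of cubes of `Z`, which has
`2^{|V| - |σ|}` cubes (of dimension `|σ|`) for every simplex `σ`. -/
noncomputable def chi {V : Type} [Fintype V] (G : SimpleGraph V) : ℤ :=
  ∑ σ : Finset V, if G.IsClique (σ : Set V) then
    (-1) ^ σ.card * 2 ^ (Fintype.card V - σ.card) else 0

end SingerRA
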