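import Mathlib
import Pool.Agent.Lib_MP_394d50_gt.Defs

/-!
# MP_394d50_gt: working definitions (not used in the statement of the result)
-/

namespace SingerRA

/-! ## Part A: homology with coefficients in `ZMod 2` of finite marked groups -/

/-- Chains of degree `k` with coefficients in `F₂`, for the family `T` of finite sets of vertices:
families `c σ : A → F₂` (`σ ∈ T`, `|σ| = k`) with `c σ (x a_v) = c σ x` for `v ∈ σ`. -/
def IC {V : Type} {A : Type} [Group A] (a : V → A) (T : Set (Finset V)) (k : ℕ) :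
    Submodule (ZMod 2) (Finset V → A → ZMod 2) where
  carrier := {c | (∀ σ, ¬ (σ ∈ T ∧ σ.card = k) → c σ = 0) ∧
    ∀ σ, ∀ v ∈ σ, ∀ x, c σ (x * a v) = c σ x}
  add_mem' := by
    rintro c d ⟨hc, hc'⟩ ⟨hd, hd'⟩
    refine ⟨fun σ h => ?_, fun σ v hv x => ?_⟩
    · rw [Pi.add_apply, hc σ h, hd σ h, add_zero]
    · rw [Pi.add_apply, Pi.add_apply, Pi.add_apply, hc' σ v hv, hd' σ v hv]
  zero_mem' := ⟨fun _ _ => rfl, fun _ _ _ _ => rfl⟩
  smul_mem' := by
    rintro r c ⟨hc, hc'⟩
    refine ⟨fun σ h => ?_, fun σ v hv x => ?_⟩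
    · rw [Pi.smul_apply, hc σ h, smul_zero]
    · rw [Pi.smul_apply, Pi.smul_apply, Pi.smul_apply, hc' σ v hv]

open scoped Classical in
/-- The boundary operator of the family `T`: `(d c) τ = ∑_{v ∉ τ} c (τ ∪ {v})` for `τ ∈ T`. -/
noncomputable def dT {V : Type} [Fintype V] [DecidableEq V] (A : Type) (T : Set (Finset V)) :
    (Finset V → A → ZMod 2) →ₗ[ZMod 2] (Finset V → A → ZMod 2) where
  toFun c := fun τ => if τ ∈ T then ∑ v ∈ Finset.univ \ τ, c (insert v τ) else 0
  map_add' c d := by
    funext τ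
    simp only [Pi.add_apply]
    split_ifs
    · rw [← Finset.sum_add_distrib]
    · simp
  map_smul' r c := by
    funext τ
    simp only [Pi.smul_apply, RingHom.id_apply]
    split_ifs
    · rw [Finset.smul_sum]
    · simp

/-- The dimension of the `k`-chains. -/
noncomputable def cdim {V : Type} {A : Type} [Group A] (a : V → A) (T : Set (Finset V)) (k : ℕ) :
    ℤ := Module.finrank (ZMod 2) (IC a T k)

/-- The rank of the boundary operator on the `k`-chains. -/
noncomputable def rk {V : Type} [Fintype V] [DecidableEq V] {A : Type} [Group A] (a : V → A)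
    (T : Set (Finset V)) (k : ℕ) : ℤ :=
  Module.finrank (ZMod 2) ((IC a T k).map (dT A T))

/-- The `k`-th Betti number over `F₂` (in degree `0` the rank `rk a T 0` vanishes). -/
noncomputable def bettiF {V : Type} [Fintype V] [DecidableEq V] {A : Type} [Group A] (a : V → A)
    (T : Set (Finset V)) (k : ℕ) : ℤ :=
  cdim a T k - rk a T k - rk a T (k + 1)

/-- The family of the cliques of a graph. -/
def cliq {V : Type} (G : SimpleGraph V) : Set (Finset V) := {σ | G.IsClique (σ : Set V)}

/-- A family is convex when it contains every set between two of its members. -/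
def Conv {V : Type} (T : Set (Finset V)) : Prop :=
  ∀ σ ∈ T, ∀ τ ∈ T, ∀ ρ, σ ⊆ ρ → ρ ⊆ τ → ρ ∈ T

/-- The family `T` is convex, the generators `a v` are involutions, commute inside the members of
`T`, and are seen by a labelling homomorphism. -/
structure OK {V : Type} [DecidableEq V] {A : Type} [Group A] (a : V → A)
    (T : Set (Finset V)) : Prop where
  conv : Conv T
  sq : ∀ v, a v * a v = 1
  comm : ∀ σ ∈ T, ∀ u ∈ σ, ∀ v ∈ σ, a u * a v = a v * a u
  lab : ∃ f : A →* Multiplicative (V → ZMod 2), ∀ σ ∈ T, ∀ v ∈ σ, ∀ u,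
    (f (a v)).toAdd u = if u = v then 1 else 0

/-- The standard marking `v ↦ (q v, e_v)` of `Q × (ℤ/2)^V`. -/
def stdA {V : Type} [DecidableEq V] {Q : Type} (q : V → Q) :
    V → Q × Multiplicative (V → ZMod 2) :=
  fun v => (q v, Multiplicative.ofAdd (Pi.single v 1 : V → ZMod 2))

/-- `G` has small `F₂`-homology gradient in degree `k`: for every `ε > 0` there is a finite
`2`-group `Q` with involutions `q v`, commuting for adjacent vertices, such that
`b_k (Q × (ℤ/2)^V) ≤ ε |Q|`. -/
def SmallGrad {V : Type} (k : ℕ) (G : SimpleGraph V) : Prop :=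
  ∀ (_ : Fintype V) (_ : DecidableEq V) (ε : ℝ), 0 < ε →
    ∃ (Q : Type) (_ : Group Q) (_ : Finite Q) (q : V → Q), IsPGroup 2 Q ∧
      (∀ v, q v * q v = 1) ∧ (∀ u v, G.Adj u v → q u * q v = q v * q u) ∧
      (bettiF (stdA q) (cliq G) k : ℝ) ≤ ε * Nat.card Q

/-- Cliques not containing the edge `{s, t}`. -/
def delF {V : Type} (G : SimpleGraph V) (s t : V) : Set (Finset V) :=
  {σ | σ ∈ cliq G ∧ ¬ (s ∈ σ ∧ t ∈ σ)}

/-- Cliques in the link of the edge `{s, t}`. -/
def lkF {V : Type} (G : SimpleGraph V) (s t : V) : Set (Finset V) :=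
  {σ | σ ∈ cliq G ∧ ∀ v ∈ σ, G.Adj s v ∧ G.Adj t v}

/-- The suspension of the link: cliques, not containing both `s` and `t`, whose vertices are `s`,
`t` or common neighbours of `s` and `t`. -/
def slF {V : Type} (G : SimpleGraph V) (s t : V) : Set (Finset V) :=
  {σ | σ ∈ delF G s t ∧ ∀ v ∈ σ, v = s ∨ v = t ∨ (G.Adj s v ∧ G.Adj t v)}

/-! ## Part B: real chains of marked groups -/

open scoped Classical in
/-- The basis vector of `p` when `p` is a cube, and `0` otherwise. -/
noncomputable def sgl {V : Type} [DecidableEq V] {G : SimpleGraph V} {A : Type} [Group A]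
    (M : Mk G A) (p : Finset V × A) : M.Cubes →₀ ℝ :=
  if h : M.IsCube p then Finsupp.single (⟨p, h⟩ : M.Cubes) 1 else 0

/-- The boundary operator on the finitely supported chains. -/
noncomputable def bdF {V : Type} [LinearOrder V] {G : SimpleGraph V} {A : Type} [Group A]
    (M : Mk G A) : (M.Cubes →₀ ℝ) →ₗ[ℝ] (M.Cubes →₀ ℝ) :=
  Finsupp.linearCombination ℝ (fun q : M.Cubes => ∑ v ∈ q.1.1, (orn q.1.1 v : ℝ) •
    (sgl M (q.1.1.erase v, q.1.2) - sgl M (q.1.1.erase v, q.1.2 * M.a v)))

/-- The coboundary operator on the finitely supported chains. -/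
noncomputable def cbF {V : Type} [Fintype V] [LinearOrder V] {G : SimpleGraph V} {A : Type}
    [Group A] (M : Mk G A) : (M.Cubes →₀ ℝ) →ₗ[ℝ] (M.Cubes →₀ ℝ) :=
  Finsupp.linearCombination ℝ (fun p : M.Cubes => ∑ v ∈ Finset.univ \ p.1.1,
    (orn (insert v p.1.1) v : ℝ) • (if (M.lab p.1.2).toAdd v = 0 then
      sgl M (insert v p.1.1, p.1.2) else - sgl M (insert v p.1.1, p.1.2 * M.a v)))

/-- The normalisation constant. -/
noncomputable def Lam (V : Type) : ℝ := 4 * (Nat.card V : ℝ) ^ 2 + 1

/-- The operator `1 - Λ⁻¹ Δ` on the finitely supported chains. -/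
noncomputable def TF {V : Type} [Fintype V] [LinearOrder V] {G : SimpleGraph V} {A : Type}
    [Group A] (M : Mk G A) : Module.End ℝ (M.Cubes →₀ ℝ) :=
  1 - (Lam V)⁻¹ • ((bdF M) ∘ₗ (cbF M) + (cbF M) ∘ₗ (bdF M))

/-- The diagonal coefficient of `(1 - Λ⁻¹ Δ)^j` at the cube `c`. -/
noncomputable def kap {V : Type} [Fintype V] [LinearOrder V] {G : SimpleGraph V} {A : Type}
    [Group A] (M : Mk G A) (j : ℕ) (c : M.Cubes) : ℝ :=
  ((TF M ^ j) (Finsupp.single c 1)) c

open scoped Classical in
/-- The sum over the `Γ`-orbits of `k`-cubes of the Davis complex of the diagonal coefficients of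
`(1 - Λ⁻¹ Δ)^j`. -/
noncomputable def trW {V : Type} [Fintype V] [LinearOrder V] (G : SimpleGraph V) (k j : ℕ) : ℝ :=
  ∑ᶠ o : MulAction.orbitRel.Quotient (Gam G) (davis G).Cubes,
    if (davis G).dim (Quotient.out o) = k then kap (davis G) j (Quotient.out o) else 0

/-- The cubes of dimension `k`. -/
def KC {V : Type} [DecidableEq V] {G : SimpleGraph V} {A : Type} [Group A] (M : Mk G A)
    (k : ℕ) : Type := {c : M.Cubes // M.dim c = k}

instance instFinCubes {V : Type} [Finite V] [DecidableEq V] {G : SimpleGraph V} {A : Type}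
    [Group A] [Finite A] (M : Mk G A) : Finite M.Cubes := by
  unfold Mk.Cubes
  infer_instance

instance instFinKC {V : Type} [Finite V] [DecidableEq V] {G : SimpleGraph V} {A : Type}
    [Group A] [Finite A] (M : Mk G A) (k : ℕ) : Finite (KC M k) := by
  unfold KC
  infer_instance

/-- The boundary matrix from the `k+1`-cubes to the `k`-cubes (integer entries). -/
noncomputable def Dmat {V : Type} [LinearOrder V] {G : SimpleGraph V} {A : Type} [Group A]
    (M : Mk G A) (j k : ℕ) : Matrix (KC M j) (KC M k) ℤ :=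
  fun p q => M.inc p.1 q.1

/-! ## Part C: the model of the charts -/

/-- The length function of `W G`. -/
noncomputable abbrev len {V : Type} (G : SimpleGraph V) (w : W G) : ℕ := (cs G).length w

/-- The subgroup generated by the generators in `S`. -/
noncomputable def par {V : Type} (G : SimpleGraph V) (S : Set V) : Subgroup (W G) :=
  Subgroup.closure {g | ∃ v ∈ S, g = gen G v}

end SingerRA
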