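import Mathlib
import Pool.Agent.Lib_MP_394d50_gt.Defs2

/-! Piece AINV: invariant functions: dimension and surjectivity of the norm. -/

namespace SingerRA

variable {V : Type} [DecidableEq V] {A : Type} [Group A]

/-- The functions invariant under the right multiplications by `a v`, `v ∈ σ`. -/
def InvF (a : V → A) (σ : Finset V) : Submodule (ZMod 2) (A → ZMod 2) where
  carrier := {f | ∀ v ∈ σ, ∀ x, f (x * a v) = f x}
  add_mem' := by
    intro f g hf hg v hv x
    rw [Pi.add_apply, Pi.add_apply, hf v hv, hg v hv]
  zero_mem' := fun _ _ _ => rfl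
  smul_mem' := by
    intro r f hf v hv x
    rw [Pi.smul_apply, Pi.smul_apply, hf v hv]

namespace AInvAux

theorem zmod2_ne_zero {y : ZMod 2} (h : y ≠ 0) : y = 1 := by
  revert h; revert y; decide

/-- label after multiplication by `a v` -/
theorem lab_mul (f : A →* Multiplicative (V → ZMod 2)) (a : V → A) (v u : V) (x : A)
    (hf : (f (a v)).toAdd u = if u = v then 1 else 0) :
    (f (x * a v)).toAdd u = (f x).toAdd u + if u = v then 1 else 0 := by
  rw [map_mul, toAdd_mul, Pi.add_apply, hf]

/-- the splitting -/
noncomputable def split (f : A →* Multiplicative (V → ZMod 2)) (a : V → A) (ρ : Finset V) (v : V)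
    (hv : v ∉ ρ) (hsq : ∀ v, a v * a v = 1)
    (hcomm : ∀ u ∈ ρ, a u * a v = a v * a u)
    (hlab : ∀ w ∈ insert v ρ, ∀ u, (f (a w)).toAdd u = if u = w then 1 else 0) :
    InvF a ρ ≃ₗ[ZMod 2] InvF a (insert v ρ) × InvF a (insert v ρ) := by
  have hself : ∀ x, (f (x * a v)).toAdd v = (f x).toAdd v + 1 := by
    intro x
    have := lab_mul f a v v x (hlab v (Finset.mem_insert_self _ _) v)
    simpa using this
  have hoth : ∀ w ∈ ρ, ∀ x, (f (x * a w)).toAdd v = (f x).toAdd v := by
    intro w hw x
    have := lab_mul f a w v x (hlab w (Finset.mem_insert_of_mem hw) v)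
    have hne : v ≠ w := fun h => hv (h ▸ hw)
    simpa [hne] using this
  have h11 : (1 : ZMod 2) + 1 = 0 := by decide
  have h10 : (1 : ZMod 2) ≠ 0 := by decide
  have hsq2 : ∀ x, x * a v * a v = x := by
    intro x; rw [mul_assoc, hsq, mul_one]
  have hc2 : ∀ w ∈ ρ, ∀ x, x * a w * a v = x * a v * a w := by
    intro w hw x
    rw [mul_assoc, hcomm w hw, ← mul_assoc]
  refine
    { toFun := fun g => (⟨fun x => if (f x).toAdd v = 0 then g.1 x else g.1 (x * a v), ?_⟩,
        ⟨fun x => if (f x).toAdd v = 0 then g.1 (x * a v) else g.1 x, ?_⟩)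
      invFun := fun p => ⟨fun x => if (f x).toAdd v = 0 then p.1.1 x else p.2.1 x, ?_⟩
      map_add' := ?_
      map_smul' := ?_
      left_inv := ?_
      right_inv := ?_ }
  · intro w hw x
    rcases Finset.mem_insert.1 hw with rfl | hw
    · by_cases h : (f x).toAdd w = 0
      · simp only [hself, h, if_true, zero_add, h10, if_false, hsq2]
      · have h1 := zmod2_ne_zero h
        simp only [hself, h1, h11, if_true, h10, if_false]
    · simp only [hoth w hw]
      rw [hc2 w hw, g.2 w hw, g.2 w hw]
  · intro w hw x
    rcases Finset.mem_insert.1 hw with rfl | hw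
    · by_cases h : (f x).toAdd w = 0
      · simp only [hself, h, if_true, zero_add, h10, if_false]
      · have h1 := zmod2_ne_zero h
        simp only [hself, h1, h11, if_true, h10, if_false, hsq2]
    · simp only [hoth w hw]
      rw [hc2 w hw, g.2 w hw, g.2 w hw]
  · intro g g'
    apply Prod.ext
    · apply Subtype.ext
      funext x
      show (if (f x).toAdd v = 0 then (g + g').1 x else (g + g').1 (x * a v)) =
        (if (f x).toAdd v = 0 then g.1 x else g.1 (x * a v)) +
        (if (f x).toAdd v = 0 then g'.1 x else g'.1 (x * a v))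
      split_ifs <;> rfl
    · apply Subtype.ext
      funext x
      show (if (f x).toAdd v = 0 then (g + g').1 (x * a v) else (g + g').1 x) =
        (if (f x).toAdd v = 0 then g.1 (x * a v) else g.1 x) +
        (if (f x).toAdd v = 0 then g'.1 (x * a v) else g'.1 x)
      split_ifs <;> rfl
  · intro r g
    apply Prod.ext
    · apply Subtype.ext
      funext x
      show (if (f x).toAdd v = 0 then (r • g).1 x else (r • g).1 (x * a v)) =
        r * (if (f x).toAdd v = 0 then g.1 x else g.1 (x * a v))
      split_ifs <;> rfl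
    · apply Subtype.ext
      funext x
      show (if (f x).toAdd v = 0 then (r • g).1 (x * a v) else (r • g).1 x) =
        r * (if (f x).toAdd v = 0 then g.1 (x * a v) else g.1 x)
      split_ifs <;> rfl
  · intro w hw x
    simp only [hoth w hw]
    rw [p.1.2 w (Finset.mem_insert_of_mem hw), p.2.2 w (Finset.mem_insert_of_mem hw)]
  · intro g
    apply Subtype.ext
    funext x
    by_cases h : (f x).toAdd v = 0
    · simp only [h, if_true]
    · simp only [h, if_false]
  · rintro ⟨g₀, g₁⟩
    apply Prod.ext
    · apply Subtype.ext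
      funext x
      by_cases h : (f x).toAdd v = 0
      · simp only [h, if_true]
      · have h1 := zmod2_ne_zero h
        simp only [hself, h1, h11, if_true, h10, if_false]
        exact g₀.2 v (Finset.mem_insert_self _ _) x
    · apply Subtype.ext
      funext x
      by_cases h : (f x).toAdd v = 0
      · simp only [hself, h, if_true, zero_add, h10, if_false]
        exact g₁.2 v (Finset.mem_insert_self _ _) x
      · have h1 := zmod2_ne_zero h
        simp only [h1, h10, if_false]

theorem finrank_step [Finite A] (f : A →* Multiplicative (V → ZMod 2)) (a : V → A)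
    (ρ : Finset V) (v : V)
    (hv : v ∉ ρ) (hsq : ∀ v, a v * a v = 1)
    (hcomm : ∀ u ∈ ρ, a u * a v = a v * a u)
    (hlab : ∀ w ∈ insert v ρ, ∀ u, (f (a w)).toAdd u = if u = w then 1 else 0) :
    Module.finrank (ZMod 2) (InvF a ρ) = 2 * Module.finrank (ZMod 2) (InvF a (insert v ρ)) := by
  rw [(split f a ρ v hv hsq hcomm hlab).finrank_eq, Module.finrank_prod]
  ring

end AInvAux

theorem finrank_InvF [Finite A] (a : V → A) (T : Set (Finset V)) (h : OK a T) (σ : Finset V)
    (hσ : σ ∈ T) : Module.finrank (ZMod 2) (InvF a σ) * 2 ^ σ.card = Nat.card A := by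
  classical
  obtain ⟨f, hf⟩ := h.lab
  have key : ∀ ρ : Finset V, ρ ⊆ σ →
      Module.finrank (ZMod 2) (InvF a ρ) * 2 ^ ρ.card = Nat.card A := by
    intro ρ
    induction ρ using Finset.induction_on with
    | empty =>
      intro _
      let _ : Fintype A := Fintype.ofFinite A
      have htop : InvF a (∅ : Finset V) = ⊤ := by
        rw [eq_top_iff]
        intro g _ v hv
        exact absurd hv (Finset.notMem_empty v)
      rw [htop, finrank_top, Module.finrank_fintype_fun_eq_card, Finset.card_empty, pow_zero,
        mul_one, Nat.card_eq_fintype_card]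
    | insert v ρ hv ih =>
      intro hsub
      have h1 := ih (fun x hx => hsub (Finset.mem_insert_of_mem hx))
      have h2 := AInvAux.finrank_step f a ρ v hv h.sq
        (fun u hu => h.comm σ hσ u (hsub (Finset.mem_insert_of_mem hu)) v
          (hsub (Finset.mem_insert_self _ _)))
        (fun w hw u => hf σ hσ w (hsub hw) u)
      rw [Finset.card_insert_of_notMem hv, ← h1, h2, pow_succ]
      ring
  exact key σ subset_rfl

theorem norm_surj {B : Type} [Group B] (π : A →* B) (hπ : Function.Surjective π)
    (z : A) (hz : ∀ x, π x = 1 ↔ x = 1 ∨ x = z) (hz1 : z ≠ 1) (a : V → A)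
    (T : Set (Finset V)) (h : OK (fun v => π (a v)) T) (hsq : ∀ v, a v * a v = 1)
    (σ : Finset V) (hσ : σ ∈ T) (hcomm : ∀ u ∈ σ, ∀ v ∈ σ, a u * a v = a v * a u)
    (f : B → ZMod 2) (hf : ∀ v ∈ σ, ∀ x, f (x * π (a v)) = f x) :
    ∃ g : A → ZMod 2, (∀ v ∈ σ, ∀ x, g (x * a v) = g x) ∧ ∀ x, g x + g (z * x) = f (π x) := by
  classical
  obtain ⟨l, hl⟩ := h.lab
  have hπz : π z = 1 := (hz z).2 (Or.inr rfl)
  have hzz : z * z = 1 := by
    have h1 : π (z * z) = 1 := by rw [map_mul, hπz, one_mul]
    rcases (hz _).1 h1 with h2 | h2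
    · exact h2
    · exact absurd (mul_eq_left.1 h2) hz1
  have hcen : ∀ x, x * z = z * x := by
    intro x
    have h1 : π (x * z * x⁻¹) = 1 := by rw [map_mul, map_mul, hπz, mul_one, map_inv,
      mul_inv_cancel]
    rcases (hz _).1 h1 with h2 | h2
    · exfalso
      apply hz1
      have h3 : x * z = x := by
        have := mul_inv_eq_one.1 h2
        exact this
      exact mul_eq_left.1 h3
    · have := mul_inv_eq_iff_eq_mul.1 h2
      exact this
  have key : ∀ ρ : Finset V, ρ ⊆ σ → ∃ g : A → ZMod 2,
      (∀ v ∈ ρ, ∀ x, g (x * a v) = g x) ∧ ∀ x, g x + g (z * x) = f (π x) := by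
    intro ρ
    induction ρ using Finset.induction_on with
    | empty =>
      intro _
      choose s hs using hπ
      refine ⟨fun x => if x = s (π x) then f (π x) else 0, fun v hv => absurd hv
        (Finset.notMem_empty v), fun x => ?_⟩
      have e1 : π (z * x) = π x := by rw [map_mul, hπz, one_mul]
      simp only [e1]
      have e2 : π (x⁻¹ * s (π x)) = 1 := by rw [map_mul, map_inv, hs, inv_mul_cancel]
      have hne : z * x ≠ x := by
        intro h
        exact hz1 (mul_eq_right.1 h)
      rcases (hz _).1 e2 with h2 | h2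
      · have h3 : s (π x) = x := by
          have := inv_mul_eq_one.1 h2
          exact this.symm
        rw [h3, if_pos rfl, if_neg hne, add_zero]
      · have h3 : s (π x) = z * x := by
          have := inv_mul_eq_iff_eq_mul.1 h2
          rw [this, hcen]
        rw [h3, if_neg (Ne.symm hne), if_pos rfl, zero_add]
    | insert v ρ hv ih =>
      intro hsub
      have hvσ : v ∈ σ := hsub (Finset.mem_insert_self _ _)
      obtain ⟨g', hg1, hg2⟩ := ih (fun x hx => hsub (Finset.mem_insert_of_mem hx))
      have hself : ∀ x, (l (π (x * a v))).toAdd v = (l (π x)).toAdd v + 1 := by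
        intro x
        have h1 := hl σ hσ v hvσ v
        rw [map_mul, map_mul, toAdd_mul, Pi.add_apply]
        rw [h1, if_pos rfl]
      have hoth : ∀ w ∈ ρ, ∀ x, (l (π (x * a w))).toAdd v = (l (π x)).toAdd v := by
        intro w hw x
        have h1 := hl σ hσ w (hsub (Finset.mem_insert_of_mem hw)) v
        have hne : v ≠ w := fun h => hv (h ▸ hw)
        rw [map_mul, map_mul, toAdd_mul, Pi.add_apply]
        rw [h1, if_neg hne, add_zero]
      have h11 : (1 : ZMod 2) + 1 = 0 := by decide
      have h10 : (1 : ZMod 2) ≠ 0 := by decide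
      have hsq2 : ∀ x, x * a v * a v = x := by
        intro x; rw [mul_assoc, hsq, mul_one]
      refine ⟨fun x => if (l (π x)).toAdd v = 0 then g' x else g' (x * a v), ?_, ?_⟩
      · intro w hw x
        rcases Finset.mem_insert.1 hw with rfl | hw
        · by_cases h : (l (π x)).toAdd w = 0
          · simp only [hself, h, if_true, zero_add, h10, if_false, hsq2]
          · have h1 := AInvAux.zmod2_ne_zero h
            simp only [hself, h1, h11, if_true, h10, if_false]
        · simp only [hoth w hw]
          have hc2 : x * a w * a v = x * a v * a w := by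
            rw [mul_assoc, hcomm w (hsub (Finset.mem_insert_of_mem hw)) v hvσ, ← mul_assoc]
          rw [hc2, hg1 w hw, hg1 w hw]
      · intro x
        have e1 : π (z * x) = π x := by rw [map_mul, hπz, one_mul]
        simp only [e1]
        by_cases h : (l (π x)).toAdd v = 0
        · simp only [h, if_true]
          exact hg2 x
        · simp only [h, if_false]
          rw [mul_assoc z x (a v), hg2, map_mul]
          exact hf v hvσ (π x)
  exact key σ subset_rfl

end SingerRA
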