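import Mathlib
import Pool.Agent.Lib_MP_394d50_gt.Defs2

/-! Piece DLINK: the class `CrossSub` is closed under links; it is contained in `Good`. -/

namespace SingerRA

theorem nbrG_adj {V : Type} (G : SimpleGraph V) (v : V) (x y : {u : V // G.Adj v u}) :
    (nbrG G v).Adj x y ↔ G.Adj x.1 y.1 := Iff.rfl

theorem CrossSub.no_vertex {V : Type} {G : SimpleGraph V} (h : CrossSub 0 G) : IsEmpty V := by
  generalize hm : 0 = m at h
  induction h with
  | empty hV G => exact hV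
  | susp h ih => exact absurd hm (by omega)
  | subdiv h hst ih =>
    have := ih hm
    exact (this.false ‹_›).elim
  | iso h e ih =>
    have := ih hm
    exact e.symm.toEquiv.isEmpty

/-- Links of isomorphic graphs are isomorphic. -/
theorem nbrG_iso {V V' : Type} {G : SimpleGraph V} {G' : SimpleGraph V'} (e : G ≃g G') (v : V') :
    Nonempty (nbrG G (e.symm v) ≃g nbrG G' v) := by
  refine ⟨⟨⟨fun u => ⟨e u.1, ?_⟩, fun u => ⟨e.symm u.1, ?_⟩, ?_, ?_⟩, ?_⟩⟩
  · have := e.map_adj_iff.mpr u.2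
    simpa using this
  · exact e.symm.map_adj_iff.mpr u.2
  · intro u; apply Subtype.ext; simp
  · intro u; apply Subtype.ext; simp
  · intro a b
    show G'.Adj (e a.1) (e b.1) ↔ G.Adj a.1 b.1
    exact e.map_adj_iff

/-- The link of a suspension point. -/
theorem nbrG_susp_inr {V : Type} (G : SimpleGraph V) (b : Bool) :
    Nonempty (G ≃g nbrG (suspG G) (Sum.inr b)) := by
  refine ⟨⟨⟨fun u => ⟨Sum.inl u, trivial⟩, fun u => match u with
    | ⟨Sum.inl u, _⟩ => u
    | ⟨Sum.inr c, h⟩ => absurd h (fun h => h), ?_, ?_⟩, ?_⟩⟩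
  · intro u; rfl
  · rintro ⟨u | c, h⟩
    · rfl
    · exact absurd h (fun h => h)
  · intro a b
    exact Iff.rfl

/-- The link of another vertex in the suspension. -/
theorem nbrG_susp_inl {V : Type} (G : SimpleGraph V) (a : V) :
    Nonempty (suspG (nbrG G a) ≃g nbrG (suspG G) (Sum.inl a)) := by
  refine ⟨⟨⟨fun u => match u with
    | Sum.inl u => ⟨Sum.inl u.1, u.2⟩
    | Sum.inr c => ⟨Sum.inr c, trivial⟩, fun u => match u with
    | ⟨Sum.inl u, h⟩ => Sum.inl ⟨u, h⟩
    | ⟨Sum.inr c, _⟩ => Sum.inr c, ?_, ?_⟩, ?_⟩⟩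
  · rintro (u | c) <;> rfl
  · rintro ⟨u | c, h⟩ <;> rfl
  · rintro (u | c) (v | d) <;> exact Iff.rfl

/-- The link of the new vertex. -/
theorem nbrG_subdiv_none {V : Type} (G : SimpleGraph V) (s t : V) (hst : G.Adj s t) :
    Nonempty (suspG (linkG G s t) ≃g nbrG (subdivG G s t) none) := by
  classical
  have hne : s ≠ t := G.ne_of_adj hst
  refine ⟨⟨⟨fun u => match u with
    | Sum.inl u => ⟨some u.1, Or.inr (Or.inr u.2)⟩
    | Sum.inr true => ⟨some s, Or.inl rfl⟩
    | Sum.inr false => ⟨some t, Or.inr (Or.inl rfl)⟩, fun u => match u with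
    | ⟨none, h⟩ => absurd h (fun h => h)
    | ⟨some u, h⟩ => if h1 : u = s then Sum.inr true else if h2 : u = t then Sum.inr false else
        Sum.inl ⟨u, (h.resolve_left h1).resolve_left h2⟩, ?_, ?_⟩, ?_⟩⟩
  · rintro (⟨u, hu⟩ | (c | c))
    · have h1 : u ≠ s := fun h => G.ne_of_adj hu.1 h.symm
      have h2 : u ≠ t := fun h => G.ne_of_adj hu.2 h.symm
      simp [h1, h2]
    · simp [hne.symm]
    · simp
  · rintro ⟨_ | u, h⟩
    · exact absurd h (fun h => h)
    · by_cases h1 : u = s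
      · subst h1; simp
      · by_cases h2 : u = t
        · subst h2; simp [h1]
        · simp [h1, h2]
  · rintro (⟨u, hu⟩ | (c | c)) (⟨v, hv⟩ | (d | d))
    · show (G.Adj u v ∧ ¬ (u = s ∧ v = t) ∧ ¬ (u = t ∧ v = s)) ↔ G.Adj u v
      have h1 : u ≠ s := fun h => G.ne_of_adj hu.1 h.symm
      have h2 : u ≠ t := fun h => G.ne_of_adj hu.2 h.symm
      simp [h1, h2]
    · show (G.Adj u t ∧ ¬ (u = s ∧ t = t) ∧ ¬ (u = t ∧ t = s)) ↔ True
      have h1 : u ≠ s := fun h => G.ne_of_adj hu.1 h.symm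
      have h2 : u ≠ t := fun h => G.ne_of_adj hu.2 h.symm
      simp [h1, h2, G.adj_symm hu.2]
    · show (G.Adj u s ∧ ¬ (u = s ∧ s = t) ∧ ¬ (u = t ∧ s = s)) ↔ True
      have h1 : u ≠ s := fun h => G.ne_of_adj hu.1 h.symm
      have h2 : u ≠ t := fun h => G.ne_of_adj hu.2 h.symm
      simp [h1, h2, G.adj_symm hu.1]
    · show (G.Adj t v ∧ ¬ (t = s ∧ v = t) ∧ ¬ (t = t ∧ v = s)) ↔ True
      have h1 : v ≠ s := fun h => G.ne_of_adj hv.1 h.symm
      simp [h1, hne.symm, hv.2]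
    · show (G.Adj t t ∧ ¬ (t = s ∧ t = t) ∧ ¬ (t = t ∧ t = s)) ↔ False
      simp
    · show (G.Adj t s ∧ ¬ (t = s ∧ s = t) ∧ ¬ (t = t ∧ s = s)) ↔ False
      simp
    · show (G.Adj s v ∧ ¬ (s = s ∧ v = t) ∧ ¬ (s = t ∧ v = s)) ↔ True
      have h2 : v ≠ t := fun h => G.ne_of_adj hv.2 h.symm
      simp [h2, hne, hv.1]
    · show (G.Adj s t ∧ ¬ (s = s ∧ t = t) ∧ ¬ (s = t ∧ t = s)) ↔ False
      simp
    · show (G.Adj s s ∧ ¬ (s = s ∧ s = t) ∧ ¬ (s = t ∧ s = s)) ↔ False
      simp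

/-- The link of an end of the subdivided edge. -/
theorem nbrG_subdiv_left {V : Type} (G : SimpleGraph V) (s t : V) (hst : G.Adj s t) :
    Nonempty (nbrG G s ≃g nbrG (subdivG G s t) (some s)) := by
  classical
  have hne : s ≠ t := G.ne_of_adj hst
  refine ⟨⟨⟨fun u => if h : u.1 = t then ⟨none, Or.inl rfl⟩ else
      ⟨some u.1, u.2, fun h' => h h'.2, fun h' => hne h'.1⟩, fun u => match u with
    | ⟨none, _⟩ => ⟨t, hst⟩
    | ⟨some u, h⟩ => ⟨u, h.1⟩, ?_, ?_⟩, ?_⟩⟩
  · rintro ⟨u, hu⟩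
    by_cases h : u = t
    · subst h; simp
    · simp [h]
  · rintro ⟨_ | u, h⟩
    · simp
    · have h1 : u ≠ t := fun h' => h.2.1 ⟨rfl, h'⟩
      simp [h1]
  · rintro ⟨u, hu⟩ ⟨v, hv⟩
    have hus : u ≠ s := fun h => G.ne_of_adj hu h.symm
    have hvs : v ≠ s := fun h => G.ne_of_adj hv h.symm
    rw [nbrG_adj, nbrG_adj]
    by_cases h1 : u = t
    · subst h1
      by_cases h2 : v = u
      · subst h2
        simp [subdivG]
      · simp only [Equiv.coe_fn_mk, dif_pos, dif_neg h2]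
        show (v = s ∨ v = u ∨ (G.Adj s v ∧ G.Adj u v)) ↔ G.Adj u v
        constructor
        · rintro (h | h | h)
          · exact absurd h hvs
          · exact absurd h h2
          · exact h.2
        · intro h; exact Or.inr (Or.inr ⟨hv, h⟩)
    · by_cases h2 : v = t
      · subst h2
        simp only [Equiv.coe_fn_mk, dif_pos, dif_neg h1]
        show (u = s ∨ u = v ∨ (G.Adj s u ∧ G.Adj v u)) ↔ G.Adj u v
        constructor
        · rintro (h | h | h)
          · exact absurd h hus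
          · exact absurd h h1
          · exact h.2.symm
        · intro h; exact Or.inr (Or.inr ⟨hu, h.symm⟩)
      · simp only [Equiv.coe_fn_mk, dif_neg h1, dif_neg h2]
        show (G.Adj u v ∧ ¬ (u = s ∧ v = t) ∧ ¬ (u = t ∧ v = s)) ↔ G.Adj u v
        simp [h1, h2]

/-- Subdivision is symmetric in the ends of the edge. -/
theorem subdivG_comm {V : Type} (G : SimpleGraph V) (s t : V) :
    subdivG G s t = subdivG G t s := by
  ext x y
  rcases x with _ | u <;> rcases y with _ | v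
  · exact Iff.rfl
  · show (v = s ∨ v = t ∨ (G.Adj s v ∧ G.Adj t v)) ↔ (v = t ∨ v = s ∨ (G.Adj t v ∧ G.Adj s v))
    tauto
  · show (u = s ∨ u = t ∨ (G.Adj s u ∧ G.Adj t u)) ↔ (u = t ∨ u = s ∨ (G.Adj t u ∧ G.Adj s u))
    tauto
  · show (G.Adj u v ∧ ¬ (u = s ∧ v = t) ∧ ¬ (u = t ∧ v = s)) ↔
      (G.Adj u v ∧ ¬ (u = t ∧ v = s) ∧ ¬ (u = s ∧ v = t))
    tauto

/-- The link of a common neighbour of the ends of the subdivided edge. -/
theorem nbrG_subdiv_common {V : Type} (G : SimpleGraph V) (s t a : V) (hs : G.Adj a s)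
    (ht : G.Adj a t) :
    Nonempty (subdivG (nbrG G a) ⟨s, hs⟩ ⟨t, ht⟩ ≃g nbrG (subdivG G s t) (some a)) := by
  have has : a ≠ s := G.ne_of_adj hs
  have hat : a ≠ t := G.ne_of_adj ht
  refine ⟨⟨⟨fun u => match u with
    | none => ⟨none, Or.inr (Or.inr ⟨hs.symm, ht.symm⟩)⟩
    | some u => ⟨some u.1, u.2, fun h => has h.1, fun h => hat h.1⟩, fun u => match u with
    | ⟨none, _⟩ => none
    | ⟨some u, h⟩ => some ⟨u, h.1⟩, ?_, ?_⟩, ?_⟩⟩
  · rintro (_ | u) <;> rfl
  · rintro ⟨_ | u, h⟩ <;> rfl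
  · rintro (_ | ⟨u, hu⟩) (_ | ⟨v, hv⟩)
    · exact Iff.rfl
    · show (v = s ∨ v = t ∨ (G.Adj s v ∧ G.Adj t v)) ↔
        ((⟨v, hv⟩ : {u : V // G.Adj a u}) = ⟨s, hs⟩ ∨ (⟨v, hv⟩ : {u : V // G.Adj a u}) = ⟨t, ht⟩ ∨
          (G.Adj s v ∧ G.Adj t v))
      simp
    · show (u = s ∨ u = t ∨ (G.Adj s u ∧ G.Adj t u)) ↔
        ((⟨u, hu⟩ : {u : V // G.Adj a u}) = ⟨s, hs⟩ ∨ (⟨u, hu⟩ : {u : V // G.Adj a u}) = ⟨t, ht⟩ ∨
          (G.Adj s u ∧ G.Adj t u))
      simp
    · show (G.Adj u v ∧ ¬ (u = s ∧ v = t) ∧ ¬ (u = t ∧ v = s)) ↔ (G.Adj u v ∧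
        ¬ ((⟨u, hu⟩ : {u : V // G.Adj a u}) = ⟨s, hs⟩ ∧ (⟨v, hv⟩ : {u : V // G.Adj a u}) = ⟨t, ht⟩) ∧
        ¬ ((⟨u, hu⟩ : {u : V // G.Adj a u}) = ⟨t, ht⟩ ∧ (⟨v, hv⟩ : {u : V // G.Adj a u}) = ⟨s, hs⟩))
      simp

/-- The link of another vertex. -/
theorem nbrG_subdiv_other {V : Type} (G : SimpleGraph V) (s t a : V) (has : a ≠ s) (hat : a ≠ t)
    (h : ¬ (G.Adj s a ∧ G.Adj t a)) :
    Nonempty (nbrG G a ≃g nbrG (subdivG G s t) (some a)) := by
  have hno : ¬ (subdivG G s t).Adj (some a) none := by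
    rintro (h1 | h1 | h1)
    · exact has h1
    · exact hat h1
    · exact h h1
  refine ⟨⟨⟨fun u => ⟨some u.1, u.2, fun h => has h.1, fun h => hat h.1⟩, fun u => match u with
    | ⟨none, h1⟩ => absurd h1 hno
    | ⟨some u, h⟩ => ⟨u, h.1⟩, ?_, ?_⟩, ?_⟩⟩
  · intro u; rfl
  · rintro ⟨_ | u, h1⟩
    · exact absurd h1 hno
    · rfl
  · rintro ⟨u, hu⟩ ⟨v, hv⟩
    show (G.Adj u v ∧ ¬ (u = s ∧ v = t) ∧ ¬ (u = t ∧ v = s)) ↔ G.Adj u v
    constructor
    · exact fun h => h.1
    · intro h1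
      refine ⟨h1, ?_, ?_⟩
      · rintro ⟨rfl, rfl⟩
        exact h ⟨hu.symm, hv.symm⟩
      · rintro ⟨rfl, rfl⟩
        exact h ⟨hv.symm, hu.symm⟩

theorem linkG_iso {V : Type} (G : SimpleGraph V) (s t : V) (hst : G.Adj s t) :
    Nonempty (linkG G s t ≃g nbrG (nbrG G s) ⟨t, hst⟩) := by
  refine ⟨⟨⟨fun u => ⟨⟨u.1, u.2.1⟩, u.2.2⟩, fun u => ⟨u.1.1, u.1.2, u.2⟩, ?_, ?_⟩, ?_⟩⟩
  · intro u; rfl
  · intro u; rfl
  · intro a b; exact Iff.rfl

theorem CrossSub.link {n : ℕ} {V : Type} {G : SimpleGraph V} (h : CrossSub (n + 1) G) (v : V) :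
    CrossSub n (nbrG G v) := by
  induction n generalizing V with
  | zero =>
    generalize hm : 0 + 1 = m at h
    induction h with
    | empty hV G => exact absurd hm (by omega)
    | @susp n' V G h ih =>
      obtain rfl : n' = 0 := by omega
      rcases v with a | b
      · exact (h.no_vertex.false a).elim
      · obtain ⟨e⟩ := nbrG_susp_inr G b
        exact CrossSub.iso h e
    | @subdiv n' V G h s t hst ih =>
      exact ((ih s hm).no_vertex.false ⟨t, hst⟩).elim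
    | iso h e ih =>
      obtain ⟨e'⟩ := nbrG_iso e v
      exact CrossSub.iso (ih (e.symm v) hm) e'
  | succ n ihn =>
    generalize hm : n + 1 + 1 = m at h
    induction h with
    | empty hV G => exact absurd hm (by omega)
    | @susp n' V G h ih =>
      obtain rfl : n' = n + 1 := by omega
      rcases v with a | b
      · obtain ⟨e⟩ := nbrG_susp_inl G a
        exact CrossSub.iso (CrossSub.susp (ihn h a)) e
      · obtain ⟨e⟩ := nbrG_susp_inr G b
        exact CrossSub.iso h e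
    | @subdiv n' V G h s t hst ih =>
      rcases v with _ | a
      · obtain ⟨e⟩ := nbrG_subdiv_none G s t hst
        obtain ⟨e'⟩ := linkG_iso G s t hst
        have h1 := ihn (ih s hm) ⟨t, hst⟩
        exact CrossSub.iso (CrossSub.susp (CrossSub.iso h1 e'.symm)) e
      · by_cases h1 : a = s
        · subst h1
          obtain ⟨e⟩ := nbrG_subdiv_left G a t hst
          exact CrossSub.iso (ih a hm) e
        · by_cases h2 : a = t
          · subst h2
            rw [subdivG_comm]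
            obtain ⟨e⟩ := nbrG_subdiv_left G a s hst.symm
            exact CrossSub.iso (ih a hm) e
          · by_cases h3 : G.Adj s a ∧ G.Adj t a
            · obtain ⟨e⟩ := nbrG_subdiv_common G s t a h3.1.symm h3.2.symm
              exact CrossSub.iso (CrossSub.subdiv (s := ⟨s, h3.1.symm⟩) (t := ⟨t, h3.2.symm⟩)
                (ih a hm) hst) e
            · obtain ⟨e⟩ := nbrG_subdiv_other G s t a h1 h2 h3
              exact CrossSub.iso (ih a hm) e
    | iso h e ih =>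
      obtain ⟨e'⟩ := nbrG_iso e v
      exact CrossSub.iso (ih (e.symm v) hm) e'

theorem CrossSub.no_adj {V : Type} {G : SimpleGraph V} (h : CrossSub 1 G) (u v : V) :
    ¬ G.Adj u v := fun huv => (h.link u).no_vertex.false ⟨v, huv⟩

theorem CrossSub.finite_aux {n : ℕ} {V : Type} {G : SimpleGraph V} (h : CrossSub n G) :
    Finite V := by
  induction h with
  | empty hV G => exact Finite.of_subsingleton
  | susp h ih => exact Finite.instSum
  | subdiv h hst ih => exact inferInstance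
  | iso h e ih => exact Finite.of_equiv _ e.toEquiv

theorem CrossSub.good {n : ℕ} {V : Type} {G : SimpleGraph V} (h : CrossSub n G) : Good n G := by
  induction n using Nat.strong_induction_on generalizing V with
  | _ n ihn =>
    induction h with
    | empty hV G => exact Good.empty hV G
    | susp h ih => exact Good.susp _ h.finite_aux _
    | @subdiv n' V G h s t hst ih =>
      rcases n' with _ | _ | n'
      · exact (h.no_vertex.false s).elim
      · exact absurd hst (h.no_adj s t)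
      · obtain ⟨e⟩ := linkG_iso G s t hst
        have h1 := (h.link s).link ⟨t, hst⟩
        exact Good.subdiv (ih ihn) hst (ihn n' (by omega) (CrossSub.iso h1 e.symm))
    | iso h e ih => exact Good.iso (ih ihn) e

end SingerRA
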