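import Mathlib
import Pool.Agent.Lib_MP_394d50_gt.Defs

/-!
# MP_394d50_gt: the class `Tame` and homology spheres
-/

namespace SingerRA

/-- The class `Tame n` of flag complexes: it contains the empty complex (`n = 0`), it is closed
under suspension, edge subdivision and isomorphism, and, for even dimensions `n + 1`, it contains
every finite flag complex all of whose vertex links are in `Tame n`. -/
inductive Tame : ℕ → ∀ {V : Type}, SimpleGraph V → Prop
  | empty {V : Type} (hV : IsEmpty V) (G : SimpleGraph V) : Tame 0 G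
  | susp {n : ℕ} {V : Type} {G : SimpleGraph V} (h : Tame n G) : Tame (n + 1) (suspG G)
  | subdiv {n : ℕ} {V : Type} {G : SimpleGraph V} (h : Tame n G) {s t : V}
      (hst : G.Adj s t) : Tame n (subdivG G s t)
  | even {n : ℕ} (hn : Odd n) {V : Type} (hV : Finite V) (G : SimpleGraph V)
      (h : ∀ v, Tame n (nbrG G v)) : Tame (n + 1) G
  | iso {n : ℕ} {V V' : Type} {G : SimpleGraph V} {G' : SimpleGraph V'} (h : Tame n G)
      (e : G ≃g G') : Tame n G'

/-- The simplicial boundary with coefficients in `F₂`: the value at `τ` of the boundary of `z`. -/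
def bs {V : Type} [Fintype V] [DecidableEq V] (z : Finset V → ZMod 2) (τ : Finset V) : ZMod 2 :=
  ∑ v ∈ Finset.univ \ τ, z (insert v τ)

/-- The flag complex `L` of `G` is an `(n-1)`-dimensional homology sphere over `F₂`, together with
all its links: for every simplex `σ` (including the empty one) the reduced homology over `F₂` of
the link of `σ` vanishes below the top dimension `n - 1 - |σ|`, its top homology consists of the
multiples of the sum of all facets, and every simplex with `n - 1` vertices is in exactly two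
simplices with `n` vertices. The simplices of the link of `σ` are described by the simplices
`τ ⊇ σ` of `L`. -/
structure HomSphere {V : Type} [Fintype V] [DecidableEq V] (n : ℕ) (G : SimpleGraph V) :
    Prop where
  dim : ∀ σ : Finset V, G.IsClique (σ : Set V) → σ.card ≤ n
  acyclic : ∀ σ : Finset V, G.IsClique (σ : Set V) → ∀ m, σ.card ≤ m → m < n →
    ∀ z : Finset V → ZMod 2, (∀ τ : Finset V, ¬ G.IsClique (τ : Set V) → z τ = 0) →
    (∀ τ : Finset V, G.IsClique (τ : Set V) → σ ⊆ τ → τ.card + 1 = m → bs z τ = 0) →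
    ∃ w : Finset V → ZMod 2, (∀ τ : Finset V, ¬ G.IsClique (τ : Set V) → w τ = 0) ∧
      ∀ τ : Finset V, G.IsClique (τ : Set V) → σ ⊆ τ → τ.card = m → z τ = bs w τ
  top : ∀ σ : Finset V, G.IsClique (σ : Set V) →
    ∀ z : Finset V → ZMod 2, (∀ τ : Finset V, ¬ G.IsClique (τ : Set V) → z τ = 0) →
    (∀ τ : Finset V, G.IsClique (τ : Set V) → σ ⊆ τ → τ.card + 1 = n → bs z τ = 0) →
    ∀ τ τ' : Finset V, G.IsClique (τ : Set V) → G.IsClique (τ' : Set V) → σ ⊆ τ → σ ⊆ τ' →
      τ.card = n → τ'.card = n → z τ = z τ'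
  ridge : ∀ τ : Finset V, G.IsClique (τ : Set V) → τ.card + 1 = n →
    {v | v ∉ τ ∧ G.IsClique ((insert v τ : Finset V) : Set V)}.ncard = 2

/-- The Davis complex is a cube complex whose cubes are the cubes `(σ, x)` of `davis G` (that is
the cosets `x W_σ`, `σ` a simplex) with the boundary used in `Mk.inc`: there are characteristic
maps `Φ c : [-1,1]^σ → Σ` of the cubes `c = (σ, x)` (the points of the cube are the functions
`t : V → ℝ` with values in `[-1,1]`, of which only the restriction to `σ` matters), continuous,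
such that the open cubes form a partition of `Σ`, `Φ c` is injective on the open cube, the
restriction of `Φ (σ, x)` to the face `t v = 1` (resp. `t v = -1`) is the characteristic map of the
cube `(σ ∖ v, x)` (resp. `(σ ∖ v, x s_v)`), and the action of `Γ` permutes the characteristic
maps. -/
def IsCubed {V : Type} [DecidableEq V] (G : SimpleGraph V) : Prop :=
  ∃ Φ : (davis G).Cubes → {t : V → ℝ | ∀ v, |t v| ≤ 1} → Davis G,
    (∀ c, Continuous (Φ c)) ∧
    (∀ c t t', (∀ v ∈ c.1.1, t.1 v = t'.1 v) → Φ c t = Φ c t') ∧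
    (∀ s : Davis G, ∃! c : (davis G).Cubes, ∃ t, (∀ v ∈ c.1.1, |t.1 v| < 1) ∧ Φ c t = s) ∧
    (∀ c t t', Φ c t = Φ c t' → (∀ v ∈ c.1.1, |t.1 v| < 1) → (∀ v ∈ c.1.1, |t'.1 v| < 1) →
      ∀ v ∈ c.1.1, t.1 v = t'.1 v) ∧
    (∀ (c c' : (davis G).Cubes) (v : V) (t), v ∈ c.1.1 → t.1 v = 1 →
      c'.1 = (c.1.1.erase v, c.1.2) → Φ c t = Φ c' t) ∧
    (∀ (c c' : (davis G).Cubes) (v : V) (t), v ∈ c.1.1 → t.1 v = -1 →
      c'.1 = (c.1.1.erase v, c.1.2 * gen G v) → Φ c t = Φ c' t) ∧
    (∀ (g : Gam G) (c : (davis G).Cubes) (t), Φ (g • c) t = dact G (g : W G) (Φ c t))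

/-- `Z` is a closed (compact, Hausdorff, without boundary) connected `n`-manifold. -/
def IsClosedManifold {V : Type} (n : ℕ) (G : SimpleGraph V) : Prop :=
  CompactSpace (ZG G) ∧ T2Space (ZG G) ∧ ConnectedSpace (ZG G) ∧
    ∀ x : ZG G, ∃ U : Set (ZG G), IsOpen U ∧ x ∈ U ∧ Nonempty (U ≃ₜ (Fin n → ℝ))

/-- The projection `Σ → Z` is a covering with contractible total space (so `Z` is aspherical) whose
group of deck transformations is `Γ`: `Γ` acts freely by homeomorphisms and its orbits are the
fibres. -/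
def IsUniversalCover {V : Type} (G : SimpleGraph V) : Prop :=
  ContractibleSpace (Davis G) ∧ IsCoveringMap (proj G) ∧ Function.Surjective (proj G) ∧
    (∀ g, Continuous (dact G g)) ∧
    (∀ s s' : Davis G, proj G s = proj G s' ↔ ∃ g ∈ Gam G, dact G g s = s') ∧
    ∀ g ∈ Gam G, ∀ s : Davis G, dact G g s = s → g = 1

end SingerRA
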