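import Mathlib
import Pool.Agent.Lib_MP_394d50_gt.Defs
import Pool.Agent.Lib_MP_394d50_gt.DefsS
import Pool.Agent.Lib_MP_394d50_gt.Defs2
import Pool.Agent.Lib_MP_394d50_gt.AInv
import Pool.Agent.Lib_MP_394d50_gt.DLink

/-!
# MP_394d50_gt: the class `Tame` and homology spheres
-/

namespace SingerRA

/-! ## Working definitions for the duality -/

/-- `f ↦ f + f(· a_v)`. -/
def eps {V : Type} {A : Type} [Group A] (a : V → A) (v : V) (f : A → ZMod 2) : A → ZMod 2 :=
  fun x => f x + f (x * a v)

/-- Chains of degree `m` of the fine subdivision: families `e σ τ ∈ Inv σ`, `σ ⊆ τ ∈ cliq G`,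
`|τ| = |σ| + m`. -/
def IsE {V : Type} [DecidableEq V] (G : SimpleGraph V) {A : Type} [Group A] (a : V → A) (m : ℕ)
    (e : Finset V → Finset V → A → ZMod 2) : Prop :=
  (∀ σ τ, ¬ (σ ⊆ τ ∧ τ ∈ cliq G ∧ τ.card = σ.card + m) → e σ τ = 0) ∧
    ∀ σ τ, e σ τ ∈ InvF a σ

open scoped Classical in
/-- The differential of the fine subdivision. -/
noncomputable def DE {V : Type} [Fintype V] [DecidableEq V] (G : SimpleGraph V) {A : Type}
    [Group A] (a : V → A) (e : Finset V → Finset V → A → ZMod 2) (σ τ : Finset V) :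
    A → ZMod 2 :=
  if σ ⊆ τ ∧ τ ∈ cliq G then
    ∑ v ∈ σ, eps a v (e (σ.erase v) τ) + ∑ v ∈ Finset.univ \ τ, e σ (insert v τ) else 0

open scoped Classical in
/-- The coboundary operator. -/
noncomputable def cobT {V : Type} [DecidableEq V] (G : SimpleGraph V) {A : Type} [Group A]
    (a : V → A) : (Finset V → A → ZMod 2) →ₗ[ZMod 2] (Finset V → A → ZMod 2) where
  toFun g := fun σ => if σ ∈ cliq G then ∑ v ∈ σ, eps a v (g (σ.erase v)) else 0
  map_add' f g := by
    funext σ x
    by_cases h : σ ∈ cliq G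
    · simp only [if_pos h, Pi.add_apply, Finset.sum_apply, eps]
      rw [← Finset.sum_add_distrib]
      exact Finset.sum_congr rfl fun v _ => by ring
    · simp only [if_neg h, Pi.add_apply, Pi.zero_apply, add_zero]
  map_smul' r f := by
    funext σ x
    by_cases h : σ ∈ cliq G
    · simp only [if_pos h, Pi.smul_apply, Finset.sum_apply, eps, RingHom.id_apply, smul_eq_mul]
      rw [Finset.mul_sum]
      exact Finset.sum_congr rfl fun v _ => by ring
    · simp only [if_neg h, Pi.smul_apply, Pi.zero_apply, smul_zero]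

/-- The graph without the vertex `v`. -/
def delG {V : Type} (G : SimpleGraph V) (v : V) : SimpleGraph {u : V // u ≠ v} :=
  G.comap Subtype.val

/-- All full subcomplexes have small gradient in degree `p`. -/
def Her {V : Type} (p : ℕ) (G : SimpleGraph V) : Prop :=
  ∀ (U : Type) (f : U ↪ V), SmallGrad p (G.comap f)

end SingerRA
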