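import Mathlib
import Pool.Agent.Lib_MP_394d50_gt.Defs2

/-! Piece BBASIC: boundary and coboundary operators. -/

namespace SingerRA

variable {V : Type} [Fintype V] [LinearOrder V] {G : SimpleGraph V} {A : Type} [Group A]

theorem bb_lab_mul (M : Mk G A) (x : A) (v u : V) :
    (M.lab (x * M.a v)).toAdd u = (M.lab x).toAdd u + if u = v then 1 else 0 := by
  rw [map_mul, M.lab_a, toAdd_mul, Pi.add_apply, toAdd_ofAdd, Pi.single_apply]

open scoped Classical in
theorem bb_sgl_apply (M : Mk G A) (x : Finset V × A) (p : M.Cubes) :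
    sgl M x p = if p.1 = x then 1 else 0 := by
  unfold sgl
  split_ifs with h1 h2 h2
  · subst h2
    exact Finsupp.single_eq_same
  · rw [Finsupp.single_apply, if_neg]
    intro h
    exact h2 (by rw [← h])
  · subst h2
    exact absurd p.2 h1
  · rfl

open scoped Classical in
theorem bb_term (M : Mk G A) (c : ℝ) (x y : Finset V × A) (p : M.Cubes) :
    (c • (sgl M x - sgl M y)) p
      = c * ((if p.1 = x then 1 else 0) - (if p.1 = y then 1 else 0)) := by
  rw [Finsupp.smul_apply, Finsupp.sub_apply, bb_sgl_apply, bb_sgl_apply, smul_eq_mul]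

open scoped Classical in
theorem bb_term2 (M : Mk G A) (c : ℝ) (P : Prop) [Decidable P] (x y : Finset V × A)
    (p : M.Cubes) :
    (c • (if P then sgl M x else - sgl M y)) p
      = c * (if P then (if p.1 = x then 1 else 0) else - (if p.1 = y then 1 else 0)) := by
  rw [Finsupp.smul_apply, smul_eq_mul]
  split_ifs with h h1 h1
  · rw [bb_sgl_apply, if_pos h1]
  · rw [bb_sgl_apply, if_neg h1]
  · rw [Finsupp.neg_apply, bb_sgl_apply, if_pos h1]
  · rw [Finsupp.neg_apply, bb_sgl_apply, if_neg h1]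

theorem bb_bdF_single (M : Mk G A) (q : M.Cubes) :
    bdF M (Finsupp.single q 1) = ∑ v ∈ q.1.1, (orn q.1.1 v : ℝ) •
      (sgl M (q.1.1.erase v, q.1.2) - sgl M (q.1.1.erase v, q.1.2 * M.a v)) := by
  unfold bdF
  rw [Finsupp.linearCombination_single, one_smul]

theorem bb_cbF_single (M : Mk G A) (p : M.Cubes) :
    cbF M (Finsupp.single p 1) = ∑ v ∈ Finset.univ \ p.1.1,
    (orn (insert v p.1.1) v : ℝ) • (if (M.lab p.1.2).toAdd v = 0 then
      sgl M (insert v p.1.1, p.1.2) else - sgl M (insert v p.1.1, p.1.2 * M.a v)) := by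
  unfold cbF
  rw [Finsupp.linearCombination_single, one_smul]

theorem bdF_apply (M : Mk G A) (q p : M.Cubes) :
    bdF M (Finsupp.single q 1) p = (M.inc p q : ℝ) := by
  classical
  rw [bb_bdF_single, Finsupp.finsetSum_apply]
  unfold Mk.inc
  push_cast
  refine Finset.sum_congr rfl (fun v _ => ?_)
  exact bb_term M _ _ _ p

open scoped Classical in
theorem bb_inc_of (M : Mk G A) (p q : M.Cubes) (v : V) (hv : v ∉ p.1.1)
    (hq : q.1.1 = insert v p.1.1) :
    M.inc p q = orn q.1.1 v * ((if p.1.2 = q.1.2 then 1 else 0) -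
      (if p.1.2 = q.1.2 * M.a v then 1 else 0)) := by
  unfold Mk.inc
  have hp : p.1.1 = q.1.1.erase v := by rw [hq, Finset.erase_insert hv]
  rw [Finset.sum_eq_single v]
  · congr 2
    · simp only [Prod.ext_iff, hp, true_and]
    · simp only [Prod.ext_iff, hp, true_and]
  · intro u hu huv
    have h1 : p.1.1 ≠ q.1.1.erase u := by
      intro h
      apply huv
      by_contra huv'
      have h2 : v ∈ q.1.1.erase u := by
        rw [Finset.mem_erase]
        exact ⟨fun h => huv' h.symm, by rw [hq]; exact Finset.mem_insert_self _ _⟩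
      rw [← h] at h2
      exact hv h2
    rw [if_neg (fun h => h1 (congrArg Prod.fst h)), if_neg (fun h => h1 (congrArg Prod.fst h))]
    ring
  · intro h
    exact absurd (by rw [hq]; exact Finset.mem_insert_self _ _) h

theorem bb_inc_zero (M : Mk G A) (p q : M.Cubes)
    (h : ∀ v, v ∉ p.1.1 → q.1.1 ≠ insert v p.1.1) : M.inc p q = 0 := by
  classical
  unfold Mk.inc
  refine Finset.sum_eq_zero (fun v hv => ?_)
  have h1 : p.1.1 ≠ q.1.1.erase v := by
    intro h2
    refine h v ?_ ?_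
    · rw [h2]; exact Finset.notMem_erase v _
    · rw [h2, Finset.insert_erase hv]
  rw [if_neg (fun h => h1 (congrArg Prod.fst h)), if_neg (fun h => h1 (congrArg Prod.fst h))]
  ring

theorem bb_zmod (a : ZMod 2) (h : a ≠ 0) : a = 1 := by
  revert a
  decide

theorem bb_inc_ne (M : Mk G A) (p q : M.Cubes) (h : M.inc p q ≠ 0) :
    ∃ v, v ∉ p.1.1 ∧ q.1.1 = insert v p.1.1 ∧
      ((p.1.2 = q.1.2 ∧ (M.lab p.1.2).toAdd v = 0) ∨
        (p.1.2 = q.1.2 * M.a v ∧ (M.lab p.1.2).toAdd v = 1)) := by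
  classical
  by_contra hcon
  push Not at hcon
  apply h
  by_cases hex : ∃ v, v ∉ p.1.1 ∧ q.1.1 = insert v p.1.1
  · obtain ⟨v, hv, hq⟩ := hex
    have hc := hcon v hv hq
    have hlab : (M.lab q.1.2).toAdd v = 0 := q.2.2 v (by rw [hq]; exact Finset.mem_insert_self _ _)
    rw [bb_inc_of M p q v hv hq]
    rw [if_neg, if_neg]
    · ring
    · intro h1
      apply hc.2 h1
      rw [h1, bb_lab_mul, hlab]
      simp
    · intro h1
      apply hc.1 h1
      rw [h1, hlab]
  · push Not at hex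
    exact bb_inc_zero M p q hex

theorem cbF_apply (M : Mk G A) (p q : M.Cubes) :
    cbF M (Finsupp.single p 1) q = (M.inc p q : ℝ) := by
  classical
  rw [bb_cbF_single, Finsupp.finsetSum_apply]
  have hterm : ∀ v ∈ Finset.univ \ p.1.1, ((orn (insert v p.1.1) v : ℝ) •
      (if (M.lab p.1.2).toAdd v = 0 then
      sgl M (insert v p.1.1, p.1.2) else - sgl M (insert v p.1.1, p.1.2 * M.a v))) q
      = (orn (insert v p.1.1) v : ℝ) * (if (M.lab p.1.2).toAdd v = 0 then
        (if q.1 = (insert v p.1.1, p.1.2) then 1 else 0) else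
        - (if q.1 = (insert v p.1.1, p.1.2 * M.a v) then 1 else 0)) :=
    fun v _ => bb_term2 M _ _ _ _ q
  rw [Finset.sum_congr rfl hterm]
  by_cases hex : ∃ v, v ∉ p.1.1 ∧ q.1.1 = insert v p.1.1
  · obtain ⟨v, hv, hq⟩ := hex
    have hlab : (M.lab q.1.2).toAdd v = 0 := q.2.2 v (by rw [hq]; exact Finset.mem_insert_self _ _)
    rw [bb_inc_of M p q v hv hq, Finset.sum_eq_single v]
    · rw [← hq]
      push_cast
      congr 1
      have e1 : (q.1 = (q.1.1, p.1.2)) ↔ p.1.2 = q.1.2 := by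
        rw [Prod.ext_iff]
        exact ⟨fun h => h.2.symm, fun h => ⟨rfl, h.symm⟩⟩
      have hsq : M.a v * M.a v = 1 := M.sq v
      have e2 : (q.1 = (q.1.1, p.1.2 * M.a v)) ↔ p.1.2 = q.1.2 * M.a v := by
        rw [Prod.ext_iff]
        constructor
        · intro h
          have h2 : q.1.2 = p.1.2 * M.a v := h.2
          rw [h2, mul_assoc, hsq, mul_one]
        · intro h
          refine ⟨rfl, ?_⟩
          show q.1.2 = p.1.2 * M.a v
          rw [h, mul_assoc, hsq, mul_one]
      simp only [e1, e2]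
      by_cases h0 : (M.lab p.1.2).toAdd v = 0
      · rw [if_pos h0]
        have h3 : ¬ p.1.2 = q.1.2 * M.a v := by
          intro h
          rw [h, bb_lab_mul, hlab] at h0
          simp at h0
        rw [if_neg h3, sub_zero]
      · rw [if_neg h0]
        have h3 : ¬ p.1.2 = q.1.2 := by
          intro h
          rw [h] at h0
          exact h0 hlab
        rw [if_neg h3, zero_sub]
    · intro u hu huv
      have h1 : q.1.1 ≠ insert u p.1.1 := by
        intro h
        have h2 : v ∈ insert u p.1.1 := by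
          rw [← h, hq]; exact Finset.mem_insert_self _ _
        rcases Finset.mem_insert.1 h2 with h3 | h3
        · exact huv h3.symm
        · exact hv h3
      rw [if_neg (fun h => h1 (congrArg Prod.fst h)), if_neg (fun h => h1 (congrArg Prod.fst h))]
      simp
    · intro h
      exact absurd (by simpa using hv) h
  · push Not at hex
    rw [bb_inc_zero M p q hex]
    rw [Finset.sum_eq_zero]
    · simp
    · intro v hv
      have h1 : q.1.1 ≠ insert v p.1.1 := hex v (by simpa using hv)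
      rw [if_neg (fun h => h1 (congrArg Prod.fst h)), if_neg (fun h => h1 (congrArg Prod.fst h))]
      simp

theorem bb_isCube_erase (M : Mk G A) (q : M.Cubes) (v : V) :
    M.IsCube (q.1.1.erase v, q.1.2) :=
  ⟨q.2.1.subset (by
    intro u hu
    exact Finset.mem_of_mem_erase hu), fun u hu => q.2.2 u (Finset.mem_of_mem_erase hu)⟩

theorem bb_isCube_erase_mul (M : Mk G A) (q : M.Cubes) (v : V) :
    M.IsCube (q.1.1.erase v, q.1.2 * M.a v) :=
  ⟨q.2.1.subset (by
    intro u hu
    exact Finset.mem_of_mem_erase hu), fun u hu => by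
      have hu' : u ∈ q.1.1.erase v := hu
      rw [Finset.mem_erase] at hu'
      show (M.lab (q.1.2 * M.a v)).toAdd u = 0
      rw [bb_lab_mul, q.2.2 u hu'.2, if_neg hu'.1, add_zero]⟩

/-- the boundary formula for an arbitrary pair -/
noncomputable def bbB (M : Mk G A) (σ : Finset V) (x : A) : M.Cubes →₀ ℝ :=
  ∑ v ∈ σ, (orn σ v : ℝ) • (sgl M (σ.erase v, x) - sgl M (σ.erase v, x * M.a v))

theorem bb_sgl_cube (M : Mk G A) (c : M.Cubes) : sgl M c.1 = Finsupp.single c 1 := by
  unfold sgl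
  rw [dif_pos c.2]
  rfl

theorem bb_bdF_sgl (M : Mk G A) (σ : Finset V) (x : A) (h : M.IsCube (σ, x)) :
    bdF M (sgl M (σ, x)) = bbB M σ x := by
  obtain ⟨c, hc⟩ : ∃ c : M.Cubes, c.1 = (σ, x) := ⟨⟨(σ, x), h⟩, rfl⟩
  rw [← hc, bb_sgl_cube, bb_bdF_single]
  have h1 : c.1.1 = σ := congrArg Prod.fst hc
  have h2 : c.1.2 = x := congrArg Prod.snd hc
  rw [h1, h2]
  rfl

theorem bb_orn (σ : Finset V) (u v : V) (huv : u ≠ v) (hu : u ∈ σ) (hv : v ∈ σ) :
    orn σ v * orn (σ.erase v) u = - (orn σ u * orn (σ.erase u) v) := by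
  have key : ∀ a b : V, a < b → a ∈ σ → orn (σ.erase a) b = - orn σ b ∧
      orn (σ.erase b) a = orn σ a := by
    intro a b hab ha
    constructor
    · unfold orn
      have h1 : (σ.filter (· < b)) = insert a ((σ.erase a).filter (· < b)) := by
        ext x
        simp only [Finset.mem_filter, Finset.mem_insert, Finset.mem_erase]
        constructor
        · rintro ⟨h1, h2⟩
          by_cases hx : x = a
          · exact Or.inl hx
          · exact Or.inr ⟨⟨hx, h1⟩, h2⟩
        · rintro (rfl | ⟨⟨_, h1⟩, h2⟩)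
          · exact ⟨ha, hab⟩
          · exact ⟨h1, h2⟩
      rw [h1, Finset.card_insert_of_notMem (by simp), pow_succ]
      ring
    · unfold orn
      have h1 : (σ.erase b).filter (· < a) = σ.filter (· < a) := by
        ext x
        simp only [Finset.mem_filter, Finset.mem_erase]
        constructor
        · rintro ⟨⟨_, h1⟩, h2⟩
          exact ⟨h1, h2⟩
        · rintro ⟨h1, h2⟩
          refine ⟨⟨?_, h1⟩, h2⟩
          rintro rfl
          exact lt_asymm hab h2
      rw [h1]
  rcases lt_or_gt_of_ne huv with h | h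
  · obtain ⟨h1, h2⟩ := key u v h hu
    rw [h1, h2]
    ring
  · obtain ⟨h1, h2⟩ := key v u h hv
    rw [h1, h2]
    ring

theorem bdF_bdF (M : Mk G A) : (bdF M) ∘ₗ (bdF M) = 0 := by
  apply Finsupp.lhom_ext'
  intro q
  apply LinearMap.ext_ring
  show bdF M (bdF M (Finsupp.single q 1)) = 0
  rw [bb_bdF_single, map_sum]
  have h1 : ∀ v ∈ q.1.1, bdF M ((orn q.1.1 v : ℝ) •
      (sgl M (q.1.1.erase v, q.1.2) - sgl M (q.1.1.erase v, q.1.2 * M.a v)))
      = ∑ u ∈ q.1.1.erase v, ((orn q.1.1 v * orn (q.1.1.erase v) u : ℤ) : ℝ) •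
        ((sgl M ((q.1.1.erase v).erase u, q.1.2) -
          sgl M ((q.1.1.erase v).erase u, q.1.2 * M.a u)) -
        (sgl M ((q.1.1.erase v).erase u, q.1.2 * M.a v) -
          sgl M ((q.1.1.erase v).erase u, q.1.2 * M.a v * M.a u))) := by
    intro v _
    rw [map_smul, map_sub, bb_bdF_sgl M _ _ (bb_isCube_erase M q v),
      bb_bdF_sgl M _ _ (bb_isCube_erase_mul M q v)]
    unfold bbB
    rw [← Finset.sum_sub_distrib, Finset.smul_sum]
    refine Finset.sum_congr rfl (fun u _ => ?_)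
    rw [← smul_sub, smul_smul]
    push_cast
    rfl
  rw [Finset.sum_congr rfl h1]
  -- pairs
  rw [Finset.sum_sigma']
  refine Finset.sum_involution (fun x _ => ⟨x.2, x.1⟩) ?_ ?_ ?_ ?_
  · rintro ⟨v, u⟩ hx
    rw [Finset.mem_sigma, Finset.mem_erase] at hx
    obtain ⟨hv, huv, hu⟩ := hx
    simp only at hv huv hu ⊢
    have hcomm : M.a u * M.a v = M.a v * M.a u := M.comm u v (q.2.1 hu hv huv)
    rw [Finset.erase_right_comm (a := u) (b := v) (s := q.1.1)]
    have e1 : q.1.2 * M.a u * M.a v = q.1.2 * M.a v * M.a u := by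
      rw [mul_assoc, hcomm, mul_assoc]
    rw [e1, bb_orn q.1.1 u v huv hu hv]
    push_cast
    rw [neg_smul]
    abel_nf
  · rintro ⟨v, u⟩ hx _ h
    rw [Finset.mem_sigma, Finset.mem_erase] at hx
    simp only [Sigma.mk.injEq] at h
    exact hx.2.1 h.1
  · rintro ⟨v, u⟩ hx
    rw [Finset.mem_sigma, Finset.mem_erase] at hx ⊢
    obtain ⟨hv, huv, hu⟩ := hx
    exact ⟨hu, fun h => huv h.symm, hv⟩
  · rintro ⟨v, u⟩ hx
    rfl

theorem bb_cb_apply (M : Mk G A) (z : M.Cubes →₀ ℝ) (q : M.Cubes) :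
    cbF M z q = z.sum (fun r c => c * (M.inc r q : ℝ)) := by
  classical
  conv_lhs => rw [← Finsupp.sum_single z]
  rw [Finsupp.sum, map_sum, Finsupp.finsetSum_apply, Finsupp.sum]
  refine Finset.sum_congr rfl (fun r _ => ?_)
  have h : Finsupp.single r (z r) = (z r) • Finsupp.single r (1 : ℝ) := by
    rw [Finsupp.smul_single, smul_eq_mul, mul_one]
  rw [h, map_smul, ← cbF_apply]
  rfl

theorem bb_bd_apply (M : Mk G A) (z : M.Cubes →₀ ℝ) (p : M.Cubes) :
    bdF M z p = z.sum (fun r c => c * (M.inc p r : ℝ)) := by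
  classical
  conv_lhs => rw [← Finsupp.sum_single z]
  rw [Finsupp.sum, map_sum, Finsupp.finsetSum_apply, Finsupp.sum]
  refine Finset.sum_congr rfl (fun r _ => ?_)
  have h : Finsupp.single r (z r) = (z r) • Finsupp.single r (1 : ℝ) := by
    rw [Finsupp.smul_single, smul_eq_mul, mul_one]
  rw [h, map_smul, ← bdF_apply]
  rfl

theorem cbF_cbF (M : Mk G A) : (cbF M) ∘ₗ (cbF M) = 0 := by
  apply Finsupp.lhom_ext'
  intro p
  apply LinearMap.ext_ring
  ext q
  show cbF M (cbF M (Finsupp.single p 1)) q = 0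
  have h := congrArg (fun f : (M.Cubes →₀ ℝ) →ₗ[ℝ] (M.Cubes →₀ ℝ) => f (Finsupp.single q 1) p)
    (bdF_bdF M)
  have h0 : bdF M (bdF M (Finsupp.single q 1)) p = 0 := h
  rw [← h0, bb_cb_apply, bb_bd_apply, Finsupp.sum, Finsupp.sum]
  classical
  set S1 := (cbF M (Finsupp.single p 1)).support with hS1
  set S2 := (bdF M (Finsupp.single q 1)).support with hS2
  have e1 : ∑ r ∈ S1, cbF M (Finsupp.single p 1) r * (M.inc r q : ℝ)
      = ∑ r ∈ S1 ∪ S2, (M.inc p r : ℝ) * (M.inc r q : ℝ) := by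
    rw [← Finset.sum_subset (Finset.subset_union_left : S1 ⊆ S1 ∪ S2)]
    · exact Finset.sum_congr rfl (fun r _ => by rw [cbF_apply])
    · intro r _ hr
      have h1 := Finsupp.notMem_support_iff.1 hr
      rw [cbF_apply] at h1
      rw [h1, zero_mul]
  have e2 : ∑ r ∈ S2, bdF M (Finsupp.single q 1) r * (M.inc p r : ℝ)
      = ∑ r ∈ S1 ∪ S2, (M.inc p r : ℝ) * (M.inc r q : ℝ) := by
    rw [← Finset.sum_subset (Finset.subset_union_right : S2 ⊆ S1 ∪ S2)]
    · exact Finset.sum_congr rfl (fun r _ => by rw [bdF_apply, mul_comm])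
    · intro r _ hr
      have h1 := Finsupp.notMem_support_iff.1 hr
      rw [bdF_apply] at h1
      rw [h1, mul_zero]
  rw [e1, e2]

theorem abs_inc_le (M : Mk G A) (p q : M.Cubes) : |M.inc p q| ≤ 1 := by
  classical
  by_cases hex : ∃ v, v ∉ p.1.1 ∧ q.1.1 = insert v p.1.1
  · obtain ⟨v, hv, hq⟩ := hex
    rw [bb_inc_of M p q v hv hq, abs_mul]
    have h1 : |orn q.1.1 v| = 1 := by
      unfold orn
      rw [abs_pow, abs_neg, abs_one, one_pow]
    rw [h1, one_mul]
    split_ifs <;> simp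
  · push Not at hex
    rw [bb_inc_zero M p q hex]
    simp

theorem inc_dim (M : Mk G A) (p q : M.Cubes) (h : M.inc p q ≠ 0) : M.dim q = M.dim p + 1 := by
  obtain ⟨v, hv, hq, _⟩ := bb_inc_ne M p q h
  unfold Mk.dim
  rw [hq, Finset.card_insert_of_notMem hv]

theorem card_faces (M : Mk G A) (q : M.Cubes) :
    {p : M.Cubes | M.inc p q ≠ 0}.Finite ∧ {p : M.Cubes | M.inc p q ≠ 0}.ncard ≤ 2 * Nat.card V := by
  classical
  let f : V × Bool → Finset V × A := fun z =>
    (q.1.1.erase z.1, if z.2 then q.1.2 else q.1.2 * M.a z.1)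
  have hsub : (fun p : M.Cubes => p.1) '' {p : M.Cubes | M.inc p q ≠ 0} ⊆ f '' Set.univ := by
    rintro _ ⟨p, hp, rfl⟩
    obtain ⟨v, hv, hq, h⟩ := bb_inc_ne M p q hp
    have h1 : p.1.1 = q.1.1.erase v := by rw [hq, Finset.erase_insert hv]
    rcases h with h | h
    · exact ⟨(v, true), trivial, Prod.ext h1.symm (by simpa [f] using h.1.symm)⟩
    · exact ⟨(v, false), trivial, Prod.ext h1.symm (by simpa [f] using h.1.symm)⟩
  have hinj : Function.Injective (fun p : M.Cubes => p.1) := Subtype.val_injective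
  have hfin : (f '' Set.univ).Finite := Set.finite_univ.image f
  have hfin2 := hfin.subset hsub
  refine ⟨Set.Finite.of_finite_image hfin2 hinj.injOn, ?_⟩
  rw [← Set.ncard_image_of_injective _ hinj]
  refine (Set.ncard_le_ncard hsub hfin).trans ((Set.ncard_image_le Set.finite_univ).trans ?_)
  rw [Set.ncard_univ, Nat.card_prod]
  simp
  omega

theorem card_cofaces (M : Mk G A) (p : M.Cubes) :
    {q : M.Cubes | M.inc p q ≠ 0}.Finite ∧ {q : M.Cubes | M.inc p q ≠ 0}.ncard ≤ Nat.card V := by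
  classical
  let f : V → Finset V × A := fun v =>
    (insert v p.1.1, if (M.lab p.1.2).toAdd v = 0 then p.1.2 else p.1.2 * M.a v)
  have hsub : (fun q : M.Cubes => q.1) '' {q : M.Cubes | M.inc p q ≠ 0} ⊆ f '' Set.univ := by
    rintro _ ⟨q, hp, rfl⟩
    obtain ⟨v, hv, hq, h⟩ := bb_inc_ne M p q hp
    refine ⟨v, trivial, Prod.ext hq.symm ?_⟩
    rcases h with h | h
    · show (if (M.lab p.1.2).toAdd v = 0 then p.1.2 else p.1.2 * M.a v) = q.1.2
      rw [if_pos h.2, h.1]
    · show (if (M.lab p.1.2).toAdd v = 0 then p.1.2 else p.1.2 * M.a v) = q.1.2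
      have hsq : M.a v * M.a v = 1 := M.sq v
      rw [if_neg (by rw [h.2]; decide), h.1, mul_assoc, hsq, mul_one]
  have hinj : Function.Injective (fun q : M.Cubes => q.1) := Subtype.val_injective
  have hfin : (f '' Set.univ).Finite := Set.finite_univ.image f
  have hfin2 := hfin.subset hsub
  refine ⟨Set.Finite.of_finite_image hfin2 hinj.injOn, ?_⟩
  rw [← Set.ncard_image_of_injective _ hinj]
  refine (Set.ncard_le_ncard hsub hfin).trans ((Set.ncard_image_le Set.finite_univ).trans ?_)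
  rw [Set.ncard_univ]

end SingerRA
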