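import Mathlib
import Pool.Agent.Lib_MP_394d50_gt.Defs2
import Pool.Agent.Lib_MP_394d50_gt.BBasic

/-! Piece BBETTI: the `F₂`-Betti numbers of a marked group and the boundary matrices of its
cubes. -/

namespace SingerRA

open Matrix

variable {V : Type} [Fintype V] [LinearOrder V] {G : SimpleGraph V}

namespace BB

variable {A : Type} [Group A]

omit [Fintype V] in
theorem lab_mul_a (M : Mk G A) (x : A) (v u : V) :
    (M.lab (x * M.a v)).toAdd u = (M.lab x).toAdd u + if u = v then 1 else 0 := by
  rw [map_mul, toAdd_mul, Pi.add_apply, M.lab_a]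
  simp [Pi.single_apply]

/-- The subgroup generated by the generators in `σ`. -/
def cl (M : Mk G A) (σ : Finset V) : Subgroup A := Subgroup.closure {g | ∃ v ∈ σ, g = M.a v}

omit [Fintype V] in
theorem a_mem_cl (M : Mk G A) (σ : Finset V) (v : V) (hv : v ∈ σ) : M.a v ∈ cl M σ :=
  Subgroup.subset_closure ⟨v, hv, rfl⟩

omit [Fintype V] in
theorem cl_mono (M : Mk G A) (σ τ : Finset V) (h : σ ⊆ τ) : cl M σ ≤ cl M τ := by
  apply Subgroup.closure_mono
  rintro g ⟨v, hv, rfl⟩
  exact ⟨v, h hv, rfl⟩

omit [Fintype V] in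
theorem lab_cl (M : Mk G A) (σ : Finset V) (g : A) (hg : g ∈ cl M σ) (u : V) (hu : u ∉ σ) :
    (M.lab g).toAdd u = 0 := by
  induction hg using Subgroup.closure_induction with
  | mem x hx =>
    obtain ⟨v, hv, rfl⟩ := hx
    rw [M.lab_a]
    have : u ≠ v := fun h => hu (h ▸ hv)
    simp [this]
  | one => simp
  | mul x y _ _ hx hy => rw [map_mul, toAdd_mul, Pi.add_apply, hx, hy, add_zero]
  | inv x _ hx => rw [map_inv, toAdd_inv, Pi.neg_apply, hx, neg_zero]

omit [Fintype V] in
theorem exists_nf (M : Mk G A) (σ : Finset V) : ∀ x : A, ∃ g ∈ cl M σ,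
    ∀ v ∈ σ, (M.lab (x * g)).toAdd v = 0 := by
  induction σ using Finset.induction_on with
  | empty => exact fun x => ⟨1, Subgroup.one_mem _, fun v hv => absurd hv (Finset.notMem_empty v)⟩
  | insert v σ hv ih =>
    intro x
    obtain ⟨g, hg, h⟩ := ih x
    have hg' := cl_mono M σ (insert v σ) (Finset.subset_insert v σ) hg
    by_cases h0 : (M.lab (x * g)).toAdd v = 0
    · refine ⟨g, hg', fun u hu => ?_⟩
      rcases Finset.mem_insert.mp hu with rfl | hu
      · exact h0
      · exact h u hu
    · have h1 : (M.lab (x * g)).toAdd v = 1 := by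
        generalize (M.lab (x * g)).toAdd v = e at h0
        revert h0; revert e; decide
      refine ⟨g * M.a v, Subgroup.mul_mem _ hg' (a_mem_cl M _ v (Finset.mem_insert_self v σ)),
        fun u hu => ?_⟩
      rw [← mul_assoc, lab_mul_a]
      rcases Finset.mem_insert.mp hu with rfl | hu'
      · rw [h1, if_pos rfl]; decide
      · have hne : u ≠ v := by rintro rfl; exact hv hu'
        rw [h u hu', if_neg hne, add_zero]

omit [Fintype V] in
theorem comm_cl (M : Mk G A) (σ : Finset V) (v : V) (h : ∀ u ∈ σ, M.a u * M.a v = M.a v * M.a u)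
    (g : A) (hg : g ∈ cl M σ) : g * M.a v = M.a v * g := by
  induction hg using Subgroup.closure_induction with
  | mem x hx =>
    obtain ⟨u, hu, rfl⟩ := hx
    exact h u hu
  | one => simp
  | mul x y _ _ hx hy => rw [mul_assoc, hy, ← mul_assoc, hx, mul_assoc]
  | inv x _ hx =>
    rw [inv_mul_eq_iff_eq_mul, ← mul_assoc, hx, mul_assoc, mul_inv_cancel, mul_one]

omit [Fintype V] in
theorem cl_insert (M : Mk G A) (σ : Finset V) (v : V)
    (h : ∀ u ∈ σ, M.a u * M.a v = M.a v * M.a u)
    (g : A) (hg : g ∈ cl M (insert v σ)) : g ∈ cl M σ ∨ ∃ g' ∈ cl M σ, g = g' * M.a v := by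
  have hc := comm_cl M σ v h
  induction hg using Subgroup.closure_induction with
  | mem x hx =>
    obtain ⟨u, hu, rfl⟩ := hx
    rcases Finset.mem_insert.mp hu with rfl | hu
    · exact Or.inr ⟨1, Subgroup.one_mem _, (one_mul _).symm⟩
    · exact Or.inl (a_mem_cl M _ u hu)
  | one => exact Or.inl (Subgroup.one_mem _)
  | mul x y _ _ hx hy =>
    rcases hx with hx | ⟨x', hx, rfl⟩ <;> rcases hy with hy | ⟨y', hy, rfl⟩
    · exact Or.inl (Subgroup.mul_mem _ hx hy)
    · exact Or.inr ⟨x * y', Subgroup.mul_mem _ hx hy, (mul_assoc _ _ _).symm⟩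
    · refine Or.inr ⟨x' * y, Subgroup.mul_mem _ hx hy, ?_⟩
      rw [mul_assoc, ← hc y hy, mul_assoc]
    · refine Or.inl ?_
      have : x' * M.a v * (y' * M.a v) = x' * y' := by
        rw [hc y' hy, mul_assoc, ← mul_assoc (M.a v), M.sq, one_mul]
      rw [this]
      exact Subgroup.mul_mem _ hx hy
  | inv x _ hx =>
    rcases hx with hx | ⟨x', hx, rfl⟩
    · exact Or.inl (Subgroup.inv_mem _ hx)
    · refine Or.inr ⟨x'⁻¹, Subgroup.inv_mem _ hx, ?_⟩
      rw [hc x' hx, _root_.mul_inv_rev]
      congr 1
      exact inv_eq_of_mul_eq_one_left (M.sq v)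

omit [Fintype V] in
theorem unique_nf (M : Mk G A) (σ : Finset V) : G.IsClique (σ : Set V) → ∀ g ∈ cl M σ,
    (∀ v ∈ σ, (M.lab g).toAdd v = 0) → g = 1 := by
  induction σ using Finset.induction_on with
  | empty =>
    intro _ g hg _
    have : cl M (∅ : Finset V) = ⊥ := by
      unfold cl
      rw [Subgroup.closure_eq_bot_iff]
      rintro g ⟨v, hv, _⟩
      exact absurd hv (Finset.notMem_empty v)
    rw [this] at hg
    exact Subgroup.mem_bot.mp hg
  | insert v σ hv ih =>
    intro hσ g hg h
    have hσ' : G.IsClique (σ : Set V) :=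
      hσ.subset (by exact_mod_cast Finset.subset_insert v σ)
    have hadj : ∀ u ∈ σ, M.a u * M.a v = M.a v * M.a u := by
      intro u hu
      apply M.comm
      apply hσ
      · simp [hu]
      · simp
      · exact fun h' => hv (h' ▸ hu)
    rcases cl_insert M σ v hadj g hg with hg | ⟨g', hg', rfl⟩
    · exact ih hσ' g hg (fun u hu => h u (Finset.mem_insert_of_mem hu))
    · exfalso
      have h1 := h v (Finset.mem_insert_self v σ)
      rw [lab_mul_a, lab_cl M σ g' hg' v hv] at h1
      simp at h1

/-- The representative of `x W_σ` whose labels vanish on `σ`. -/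
noncomputable def nf (M : Mk G A) (σ : Finset V) (x : A) : A :=
  x * Classical.choose (exists_nf M σ x)

omit [Fintype V] in
theorem nf_lab (M : Mk G A) (σ : Finset V) (x : A) (v : V) (hv : v ∈ σ) :
    (M.lab (nf M σ x)).toAdd v = 0 :=
  (Classical.choose_spec (exists_nf M σ x)).2 v hv

omit [Fintype V] in
theorem nf_mem (M : Mk G A) (σ : Finset V) (x : A) : ∃ g ∈ cl M σ, nf M σ x = x * g :=
  ⟨_, (Classical.choose_spec (exists_nf M σ x)).1, rfl⟩

omit [Fintype V] in
theorem nf_unique (M : Mk G A) (σ : Finset V) (hσ : G.IsClique (σ : Set V)) (x y : A)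
    (h : ∃ g ∈ cl M σ, y = x * g) (hy : ∀ v ∈ σ, (M.lab y).toAdd v = 0) : nf M σ x = y := by
  obtain ⟨g, hg, rfl⟩ := h
  obtain ⟨g', hg', h'⟩ := nf_mem M σ x
  have h1 : g'⁻¹ * g = 1 := by
    apply unique_nf M σ hσ _ (Subgroup.mul_mem _ (Subgroup.inv_mem _ hg') hg)
    intro v hv
    have e : g'⁻¹ * g = (nf M σ x)⁻¹ * (x * g) := by rw [h']; group
    rw [e, map_mul, map_inv, toAdd_mul, toAdd_inv, Pi.add_apply, Pi.neg_apply,
      nf_lab M σ x v hv, hy v hv]
    simp
  rw [h', show g' = g from inv_mul_eq_one.mp h1]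

omit [Fintype V] in
theorem nf_self (M : Mk G A) (σ : Finset V) (hσ : G.IsClique (σ : Set V)) (x : A)
    (hx : ∀ v ∈ σ, (M.lab x).toAdd v = 0) : nf M σ x = x :=
  nf_unique M σ hσ x x ⟨1, Subgroup.one_mem _, (mul_one x).symm⟩ hx

omit [Fintype V] in
theorem nf_mul (M : Mk G A) (σ : Finset V) (hσ : G.IsClique (σ : Set V)) (x : A) (v : V)
    (hv : v ∈ σ) : nf M σ (x * M.a v) = nf M σ x := by
  obtain ⟨g, hg, h⟩ := nf_mem M σ x
  apply nf_unique M σ hσ _ _ _ (nf_lab M σ x)
  refine ⟨(M.a v)⁻¹ * g, Subgroup.mul_mem _ (Subgroup.inv_mem _ (a_mem_cl M σ v hv)) hg, ?_⟩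
  rw [h]; group

omit [Fintype V] in
theorem IC_mul (M : Mk G A) (k : ℕ) (c : Finset V → A → ZMod 2)
    (hc : c ∈ IC M.a (cliq G) k) (σ : Finset V) (g : A) (hg : g ∈ cl M σ) :
    ∀ x, c σ (x * g) = c σ x := by
  induction hg using Subgroup.closure_induction with
  | mem y hy =>
    obtain ⟨v, hv, rfl⟩ := hy
    exact hc.2 σ v hv
  | one => intro x; rw [mul_one]
  | mul y z _ _ hy hz => intro x; rw [← mul_assoc, hz, hy]
  | inv y _ hy => intro x; rw [← hy (x * y⁻¹), inv_mul_cancel_right]

/-- Restriction to the cubes. -/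
def ev (M : Mk G A) (k : ℕ) : (Finset V → A → ZMod 2) →ₗ[ZMod 2] (KC M k → ZMod 2) where
  toFun c := fun p => c p.1.1.1 p.1.1.2
  map_add' _ _ := rfl
  map_smul' _ _ := rfl

omit [Fintype V] in
theorem ev_inj (M : Mk G A) (k : ℕ) (c : Finset V → A → ZMod 2)
    (hc : c ∈ IC M.a (cliq G) k) (h : ev M k c = 0) : c = 0 := by
  funext σ x
  by_cases hσ : σ ∈ cliq G ∧ σ.card = k
  · obtain ⟨g, hg, h'⟩ := nf_mem M σ x
    rw [← IC_mul M k c hc σ g hg x, ← h']
    exact congrFun h ⟨⟨(σ, nf M σ x), hσ.1, fun v hv => nf_lab M σ x v hv⟩, hσ.2⟩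
  · rw [hc.1 σ hσ]; rfl

omit [Fintype V] in
theorem isCube_nf (M : Mk G A) (σ : Finset V) (x : A) (h : σ ∈ cliq G) :
    M.IsCube (σ, nf M σ x) := ⟨h, fun v hv => nf_lab M σ x v hv⟩

open scoped Classical in
/-- Extension of a function on the cubes to a chain. -/
noncomputable def ex (M : Mk G A) (k : ℕ) (f : KC M k → ZMod 2) (σ : Finset V) (x : A) : ZMod 2 :=
  if h : σ ∈ cliq G ∧ σ.card = k then f ⟨⟨(σ, nf M σ x), isCube_nf M σ x h.1⟩, h.2⟩ else 0

omit [Fintype V] in
theorem ex_neg (M : Mk G A) (k : ℕ) (f : KC M k → ZMod 2) (σ : Finset V) (x : A)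
    (h : ¬ (σ ∈ cliq G ∧ σ.card = k)) : ex M k f σ x = 0 := by
  unfold ex
  rw [dif_neg h]

omit [Fintype V] in
theorem ex_congr (M : Mk G A) (k : ℕ) (f : KC M k → ZMod 2) (σ : Finset V) (x y : A)
    (h : nf M σ x = nf M σ y) : ex M k f σ x = ex M k f σ y := by
  unfold ex
  by_cases h' : σ ∈ cliq G ∧ σ.card = k
  · rw [dif_pos h', dif_pos h']
    congr 1
    apply Subtype.ext
    apply Subtype.ext
    show (σ, nf M σ x) = (σ, nf M σ y)
    rw [h]
  · rw [dif_neg h', dif_neg h']

omit [Fintype V] in
theorem ex_cube (M : Mk G A) (k : ℕ) (f : KC M k → ZMod 2) (p : KC M k) :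
    ex M k f p.1.1.1 p.1.1.2 = f p := by
  obtain ⟨⟨⟨σ, x⟩, h1, h2⟩, h3⟩ := p
  show ex M k f σ x = _
  unfold ex
  rw [dif_pos ⟨h1, h3⟩]
  congr 1
  apply Subtype.ext
  apply Subtype.ext
  show (σ, nf M σ x) = (σ, x)
  rw [nf_self M σ h1 x h2]

omit [Fintype V] in
theorem ev_surj (M : Mk G A) (k : ℕ) (f : KC M k → ZMod 2) :
    ∃ c ∈ IC M.a (cliq G) k, ev M k c = f := by
  refine ⟨ex M k f, ⟨?_, ?_⟩, ?_⟩
  · intro σ hσ
    funext x
    exact ex_neg M k f σ x hσ
  · intro σ v hv x
    by_cases h : σ ∈ cliq G ∧ σ.card = k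
    · exact ex_congr M k f σ _ _ (nf_mul M σ h.1 x v hv)
    · rw [ex_neg M k f σ _ h, ex_neg M k f σ _ h]
  · funext p
    exact ex_cube M k f p

/-- The linear equivalence between chains and functions on the cubes. -/
noncomputable def evE (M : Mk G A) (k : ℕ) :
    (IC M.a (cliq G) k) ≃ₗ[ZMod 2] (KC M k → ZMod 2) :=
  LinearEquiv.ofBijective ((ev M k).domRestrict (IC M.a (cliq G) k)) ⟨by
    rw [← LinearMap.ker_eq_bot, LinearMap.ker_eq_bot']
    rintro ⟨c, hc⟩ h
    exact Subtype.ext (ev_inj M k c hc h), by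
    intro f
    obtain ⟨c, hc, h⟩ := ev_surj M k f
    exact ⟨⟨c, hc⟩, h⟩⟩

theorem dT_mem' (M : Mk G A) (k : ℕ) (c : Finset V → A → ZMod 2)
    (hc : c ∈ IC M.a (cliq G) (k + 1)) : dT A (cliq G) c ∈ IC M.a (cliq G) k := by
  classical
  constructor
  · intro σ hσ
    show (if σ ∈ cliq G then ∑ v ∈ Finset.univ \ σ, c (insert v σ) else 0) = 0
    split_ifs with h
    · apply Finset.sum_eq_zero
      intro v hv
      apply hc.1
      rintro ⟨_, h2⟩
      rw [Finset.card_insert_of_notMem (by simpa using hv)] at h2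
      exact hσ ⟨h, by omega⟩
    · rfl
  · intro σ v hv x
    show (if σ ∈ cliq G then ∑ v ∈ Finset.univ \ σ, c (insert v σ) else 0) (x * M.a v) =
      (if σ ∈ cliq G then ∑ v ∈ Finset.univ \ σ, c (insert v σ) else 0) x
    split_ifs with h
    · rw [Finset.sum_apply, Finset.sum_apply]
      apply Finset.sum_congr rfl
      intro u _
      exact hc.2 _ v (Finset.mem_insert_of_mem hv) x
    · rfl

open scoped Classical in
/-- The coefficient of the vertex `v` in the incidence number. -/
noncomputable def term (M : Mk G A) (p q : Finset V × A) (v : V) : ZMod 2 :=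
  if v ∈ q.1 then (if p = (q.1.erase v, q.2) then 1 else 0) +
    (if p = (q.1.erase v, q.2 * M.a v) then 1 else 0) else 0

theorem inc_cast (M : Mk G A) (p q : M.Cubes) :
    ((M.inc p q : ℤ) : ZMod 2) = ∑ v, term M p.1 q.1 v := by
  classical
  unfold Mk.inc
  rw [Int.cast_sum, ← Finset.sum_filter_add_sum_filter_not Finset.univ (fun v => v ∈ q.1.1),
    Finset.sum_eq_zero (s := Finset.univ.filter (fun v => ¬ v ∈ q.1.1)), add_zero,
    Finset.filter_mem_eq_inter, Finset.univ_inter]
  · apply Finset.sum_congr rfl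
    intro v hv
    unfold term
    rw [if_pos hv]
    have h1 : ((orn q.1.1 v : ℤ) : ZMod 2) = 1 := by
      unfold orn
      push_cast
      have : (-1 : ZMod 2) = 1 := by decide
      rw [this, one_pow]
    rw [Int.cast_mul, h1, one_mul, Int.cast_sub]
    have h2 : ∀ a b : ZMod 2, a - b = a + b := by decide
    rw [h2]
    congr 1
    · split_ifs <;> simp
    · split_ifs <;> simp
  · intro v hv
    unfold term
    rw [if_neg (by simpa using hv)]

theorem sum_term (M : Mk G A) (k : ℕ) [Fintype (KC M (k + 1))] (p : KC M k)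
    (c : Finset V → A → ZMod 2) (hc : c ∈ IC M.a (cliq G) (k + 1)) (v : V) :
    ∑ q : KC M (k + 1), term M p.1.1 q.1.1 v * c q.1.1.1 q.1.1.2 =
      if v ∉ p.1.1.1 then c (insert v p.1.1.1) p.1.1.2 else 0 := by
  classical
  obtain ⟨⟨⟨τ, x⟩, h1, h2⟩, h3⟩ := p
  change G.IsClique (τ : Set V) at h1
  change ∀ v ∈ τ, (M.lab x).toAdd v = 0 at h2
  change τ.card = k at h3
  show ∑ q : KC M (k + 1), term M (τ, x) q.1.1 v * c q.1.1.1 q.1.1.2 =
      if v ∉ τ then c (insert v τ) x else 0
  by_cases hv : v ∈ τ
  · rw [if_neg (not_not.mpr hv)]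
    apply Finset.sum_eq_zero
    intro q _
    have : term M (τ, x) q.1.1 v = 0 := by
      unfold term
      have e1 : ¬ ((τ, x) = (q.1.1.1.erase v, q.1.1.2)) := by
        intro h
        have := congrArg Prod.fst h
        dsimp at this
        rw [this] at hv
        simp at hv
      have e2 : ¬ ((τ, x) = (q.1.1.1.erase v, q.1.1.2 * M.a v)) := by
        intro h
        have := congrArg Prod.fst h
        dsimp at this
        rw [this] at hv
        simp at hv
      rw [if_neg e1, if_neg e2]
      simp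
    rw [this, zero_mul]
  · rw [if_pos hv]
    by_cases hcl : G.IsClique ((insert v τ : Finset V) : Set V)
    · -- the unique coface
      have hcard : (insert v τ).card = k + 1 := by
        rw [Finset.card_insert_of_notMem hv, h3]
      set y : A := if (M.lab x).toAdd v = 0 then x else x * M.a v with hy
      have hylab : ∀ u ∈ insert v τ, (M.lab y).toAdd u = 0 := by
        intro u hu
        rw [hy]
        split_ifs with h0
        · rcases Finset.mem_insert.mp hu with rfl | hu
          · exact h0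
          · exact h2 u hu
        · rw [lab_mul_a]
          rcases Finset.mem_insert.mp hu with rfl | hu'
          · rw [if_pos rfl]
            generalize (M.lab x).toAdd u = e at h0
            revert h0; revert e; decide
          · have hne : u ≠ v := by rintro rfl; exact hv hu'
            rw [h2 u hu', if_neg hne, add_zero]
      set q0 : KC M (k + 1) := ⟨⟨(insert v τ, y), hcl, hylab⟩, hcard⟩ with hq0
      rw [Finset.sum_eq_single q0]
      · have ht : term M (τ, x) q0.1.1 v = 1 := by
          show term M (τ, x) (insert v τ, y) v = 1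
          unfold term
          dsimp only
          rw [if_pos (Finset.mem_insert_self v τ), Finset.erase_insert hv]
          by_cases h0 : (M.lab x).toAdd v = 0
          · have e1 : y = x := by rw [hy, if_pos h0]
            rw [e1, if_pos rfl, if_neg]
            · simp
            · intro h
              have := congrArg Prod.snd h
              dsimp at this
              have h5 := lab_mul_a M x v v
              rw [← this] at h5
              simp at h5
          · have e1 : y = x * M.a v := by rw [hy, if_neg h0]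
            rw [e1, mul_assoc, M.sq, mul_one, if_pos rfl, if_neg]
            · simp
            · intro h
              have := congrArg Prod.snd h
              dsimp at this
              have h5 := lab_mul_a M x v v
              rw [← this] at h5
              simp at h5
        rw [ht, one_mul]
        show c (insert v τ) y = c (insert v τ) x
        rw [hy]
        split_ifs
        · rfl
        · exact hc.2 _ v (Finset.mem_insert_self v τ) x
      · intro q _ hq
        have : term M (τ, x) q.1.1 v = 0 := by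
          obtain ⟨⟨⟨σ, z⟩, g1, g2⟩, g3⟩ := q
          change ∀ v ∈ σ, (M.lab z).toAdd v = 0 at g2
          show term M (τ, x) (σ, z) v = 0
          unfold term
          dsimp only
          by_cases hvσ : v ∈ σ
          · rw [if_pos hvσ, if_neg, if_neg, add_zero]
            · intro h
              have e1 := congrArg Prod.fst h
              have e2 := congrArg Prod.snd h
              dsimp at e1 e2
              apply hq
              rw [hq0]
              apply Subtype.ext
              apply Subtype.ext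
              show (σ, z) = (insert v τ, y)
              have : (M.lab x).toAdd v ≠ 0 := by
                rw [e2, lab_mul_a, g2 v hvσ, if_pos rfl]; simp
              rw [hy, if_neg this, e1, Finset.insert_erase hvσ, e2, mul_assoc, M.sq, mul_one]
            · intro h
              have e1 := congrArg Prod.fst h
              have e2 := congrArg Prod.snd h
              dsimp at e1 e2
              apply hq
              rw [hq0]
              apply Subtype.ext
              apply Subtype.ext
              show (σ, z) = (insert v τ, y)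
              have : (M.lab x).toAdd v = 0 := by rw [e2]; exact g2 v hvσ
              rw [hy, if_pos this, e1, Finset.insert_erase hvσ, e2]
          · rw [if_neg hvσ]
        rw [this, zero_mul]
      · intro h
        exact absurd (Finset.mem_univ _) h
    · rw [hc.1 (insert v τ) (fun h => hcl h.1)]
      apply Finset.sum_eq_zero
      intro q _
      have : term M (τ, x) q.1.1 v = 0 := by
        obtain ⟨⟨⟨σ, z⟩, g1, g2⟩, g3⟩ := q
        change G.IsClique (σ : Set V) at g1
        show term M (τ, x) (σ, z) v = 0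
        unfold term
        dsimp only
        by_cases hvσ : v ∈ σ
        · rw [if_pos hvσ, if_neg, if_neg, add_zero]
          · intro h
            have e1 := congrArg Prod.fst h
            dsimp at e1
            apply hcl
            rw [e1, Finset.insert_erase hvσ]
            exact g1
          · intro h
            have e1 := congrArg Prod.fst h
            dsimp at e1
            apply hcl
            rw [e1, Finset.insert_erase hvσ]
            exact g1
        · rw [if_neg hvσ]
      rw [this, zero_mul]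

theorem ev_dT (M : Mk G A) (k : ℕ) [Fintype (KC M (k + 1))]
    (c : Finset V → A → ZMod 2) (hc : c ∈ IC M.a (cliq G) (k + 1)) :
    ev M k (dT A (cliq G) c) =
      ((Dmat M k (k + 1)).map (Int.cast : ℤ → ZMod 2)).mulVecLin (ev M (k + 1) c) := by
  classical
  funext p
  have hp : p.1.1.1 ∈ cliq G := p.1.2.1
  show (if p.1.1.1 ∈ cliq G then ∑ v ∈ Finset.univ \ p.1.1.1, c (insert v p.1.1.1) else 0)
      p.1.1.2 = ∑ q : KC M (k + 1), ((M.inc p.1 q.1 : ℤ) : ZMod 2) * c q.1.1.1 q.1.1.2
  rw [if_pos hp, Finset.sum_apply]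
  simp_rw [inc_cast, Finset.sum_mul]
  rw [Finset.sum_comm]
  simp_rw [sum_term M k p c hc]
  rw [← Finset.sum_filter]
  apply Finset.sum_congr _ (fun _ _ => rfl)
  ext v
  simp

end BB

theorem cdim_eq {A : Type} [Group A] [Finite A] (M : Mk G A) (k : ℕ) :
    cdim M.a (cliq G) k = Nat.card (KC M k) := by
  unfold cdim
  have : Fintype (KC M k) := Fintype.ofFinite _
  rw [(BB.evE M k).finrank_eq, Module.finrank_fintype_fun_eq_card, Nat.card_eq_fintype_card]

theorem rk_eq {A : Type} [Group A] [Finite A] (M : Mk G A) (k : ℕ) [Fintype (KC M k)]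
    [Fintype (KC M (k + 1))] :
    rk M.a (cliq G) (k + 1) = ((Dmat M k (k + 1)).map (Int.cast : ℤ → ZMod 2)).rank := by
  unfold rk Matrix.rank
  congr 1
  set S := (IC M.a (cliq G) (k + 1)).map (dT A (cliq G)) with hS
  have h1 : Function.Injective ((BB.ev M k).domRestrict S) := by
    rw [← LinearMap.ker_eq_bot, LinearMap.ker_eq_bot']
    rintro ⟨c, hc⟩ h
    rw [hS] at hc
    obtain ⟨d, hd, rfl⟩ := hc
    exact Subtype.ext (BB.ev_inj M k _ (BB.dT_mem' M k d hd) h)
  rw [← LinearMap.finrank_range_of_inj h1]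
  have h2 : LinearMap.range ((BB.ev M k).domRestrict S) =
      LinearMap.range ((Dmat M k (k + 1)).map (Int.cast : ℤ → ZMod 2)).mulVecLin := by
    ext f
    constructor
    · rintro ⟨⟨c, hc⟩, rfl⟩
      rw [hS] at hc
      obtain ⟨d, hd, rfl⟩ := hc
      exact ⟨BB.ev M (k + 1) d, (BB.ev_dT M k d hd).symm⟩
    · rintro ⟨g, rfl⟩
      obtain ⟨d, hd, rfl⟩ := BB.ev_surj M (k + 1) g
      exact ⟨⟨dT A (cliq G) d, ⟨d, hd, rfl⟩⟩, BB.ev_dT M k d hd⟩
  rw [h2]

theorem rk_zero {A : Type} [Group A] [Finite A] (M : Mk G A) : rk M.a (cliq G) 0 = 0 := by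
  unfold rk
  have h : (IC M.a (cliq G) 0).map (dT A (cliq G)) = ⊥ := by
    rw [eq_bot_iff]
    rintro _ ⟨c, hc, rfl⟩
    rw [Submodule.mem_bot]
    classical
    funext σ
    show (if σ ∈ cliq G then ∑ v ∈ Finset.univ \ σ, c (insert v σ) else 0) = 0
    split_ifs
    · apply Finset.sum_eq_zero
      intro v hv
      apply hc.1
      rintro ⟨_, h2⟩
      rw [Finset.card_insert_of_notMem (by simpa using hv)] at h2
      omega
    · rfl
  rw [h]
  simp

end SingerRA
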