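import Mathlib
import Pool.Agent.Lib_MP_394d50_gt.Defs2

/-! Piece AONE: sub and quotient families (rank form of the long exact sequence). -/

namespace SingerRA

section Rank

variable {U : Type*} [AddCommGroup U] [Module (ZMod 2) U] [FiniteDimensional (ZMod 2) U]

/-- Rank-nullity for a linear map restricted to a submodule. -/
theorem aone_finrank_map_add_inf (f : U →ₗ[ZMod 2] U) (M : Submodule (ZMod 2) U) :
    Module.finrank (ZMod 2) (M.map f) + Module.finrank (ZMod 2) (M ⊓ LinearMap.ker f :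
      Submodule (ZMod 2) U) = Module.finrank (ZMod 2) M := by
  have h := LinearMap.finrank_range_add_finrank_ker (f.domRestrict M)
  rw [LinearMap.range_domRestrict] at h
  have e : (LinearMap.ker (f.domRestrict M)).map M.subtype = M ⊓ LinearMap.ker f := by
    ext x
    simp only [Submodule.mem_map, LinearMap.mem_ker, LinearMap.domRestrict_apply,
      Submodule.subtype_apply, Submodule.mem_inf]
    constructor
    · rintro ⟨y, hy, rfl⟩
      exact ⟨y.2, hy⟩
    · rintro ⟨h1, h2⟩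
      exact ⟨⟨x, h1⟩, h2, rfl⟩
  have e2 : Module.finrank (ZMod 2) ((LinearMap.ker (f.domRestrict M)).map M.subtype) =
      Module.finrank (ZMod 2) (LinearMap.ker (f.domRestrict M)) :=
    (Submodule.equivMapOfInjective M.subtype M.injective_subtype _).finrank_eq.symm
  rw [← e, e2]
  exact h

end Rank

variable {V : Type} [Fintype V] [DecidableEq V] {A : Type} [Group A] [Finite A]

theorem aone_dT_apply (T : Set (Finset V)) (c : Finset V → A → ZMod 2) (τ : Finset V) (h : τ ∈ T) :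
    dT A T c τ = ∑ v ∈ Finset.univ \ τ, c (insert v τ) := by
  classical
  exact if_pos h

theorem aone_dT_apply_not (T : Set (Finset V)) (c : Finset V → A → ZMod 2) (τ : Finset V)
    (h : τ ∉ T) : dT A T c τ = 0 := by
  classical
  exact if_neg h

theorem dT_mem (a : V → A) (T : Set (Finset V)) (k : ℕ) (c : Finset V → A → ZMod 2)
    (hc : c ∈ IC a T (k + 1)) : dT A T c ∈ IC a T k := by
  obtain ⟨h1, h2⟩ := hc
  refine ⟨fun τ hτ => ?_, fun τ v hv x => ?_⟩
  · by_cases hT : τ ∈ T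
    · rw [aone_dT_apply T c τ hT]
      apply Finset.sum_eq_zero
      intro v hv
      apply h1
      rintro ⟨-, h4⟩
      rw [Finset.card_insert_of_notMem (by simpa using hv)] at h4
      exact hτ ⟨hT, by omega⟩
    · exact aone_dT_apply_not T c τ hT
  · by_cases hT : τ ∈ T
    · rw [aone_dT_apply T c τ hT, Finset.sum_apply, Finset.sum_apply]
      apply Finset.sum_congr rfl
      intro u _
      exact h2 _ v (Finset.mem_insert_of_mem hv) x
    · rw [aone_dT_apply_not T c τ hT]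
      rfl

theorem dT_zero (a : V → A) (T : Set (Finset V)) (c : Finset V → A → ZMod 2)
    (hc : c ∈ IC a T 0) : dT A T c = 0 := by
  funext τ
  by_cases hT : τ ∈ T
  · rw [aone_dT_apply T c τ hT]
    apply Finset.sum_eq_zero
    intro v hv
    apply hc.1
    rintro ⟨-, h4⟩
    rw [Finset.card_insert_of_notMem (by simpa using hv)] at h4
    omega
  · exact aone_dT_apply_not T c τ hT

theorem dT_dT (a : V → A) (T : Set (Finset V)) (hT : Conv T) (k : ℕ)
    (c : Finset V → A → ZMod 2) (hc : c ∈ IC a T k) : dT A T (dT A T c) = 0 := by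
  funext ρ
  by_cases hρ : ρ ∈ T
  swap
  · exact aone_dT_apply_not T _ ρ hρ
  rw [aone_dT_apply T _ ρ hρ]
  have h1 : ∀ v ∈ Finset.univ \ ρ, dT A T c (insert v ρ) =
      ∑ w ∈ Finset.univ \ (insert v ρ), c (insert w (insert v ρ)) := by
    intro v hv
    by_cases h : insert v ρ ∈ T
    · exact aone_dT_apply T c _ h
    · rw [aone_dT_apply_not T c _ h]
      symm
      apply Finset.sum_eq_zero
      intro w hw
      apply hc.1
      rintro ⟨h3, -⟩
      exact h (hT ρ hρ _ h3 _ (Finset.subset_insert _ _) (Finset.subset_insert _ _))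
  rw [Finset.sum_congr rfl h1, Finset.sum_sigma']
  funext x
  rw [Finset.sum_apply]
  refine Finset.sum_involution (fun p _ => ⟨p.2, p.1⟩) ?_ ?_ ?_ ?_
  · rintro ⟨v, w⟩ _
    dsimp only
    rw [Finset.insert_comm]
    exact CharTwo.add_self_eq_zero _
  · rintro ⟨v, w⟩ hp _ heq
    simp only [Finset.mem_sigma, Finset.mem_sdiff, Finset.mem_univ, true_and,
      Finset.mem_insert, not_or] at hp
    simp only [Sigma.mk.injEq] at heq
    exact hp.2.1 heq.1
  · rintro ⟨v, w⟩ hp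
    simp only [Finset.mem_sigma, Finset.mem_sdiff, Finset.mem_univ, true_and,
      Finset.mem_insert, not_or] at hp ⊢
    exact ⟨hp.2.2, fun h => hp.2.1 h.symm, hp.1⟩
  · rintro ⟨v, w⟩ _
    rfl

theorem aone_map_le (a : V → A) (T : Set (Finset V)) (hT : Conv T) (k : ℕ) :
    (IC a T (k + 1)).map (dT A T) ≤ IC a T k ⊓ LinearMap.ker (dT A T) := by
  rintro _ ⟨c, hc, rfl⟩
  exact ⟨dT_mem a T k c hc, dT_dT a T hT (k + 1) c hc⟩

theorem aone_rk_add (a : V → A) (T : Set (Finset V)) (k : ℕ) :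
    rk a T k + Module.finrank (ZMod 2) (IC a T k ⊓ LinearMap.ker (dT A T) :
      Submodule (ZMod 2) (Finset V → A → ZMod 2)) = cdim a T k := by
  have := aone_finrank_map_add_inf (dT A T) (IC a T k)
  unfold rk cdim
  exact_mod_cast this

theorem bettiF_nonneg (a : V → A) (T : Set (Finset V)) (hT : Conv T) (k : ℕ) :
    0 ≤ bettiF a T k := by
  have h1 := aone_rk_add a T k
  have h2 := Submodule.finrank_mono (aone_map_le a T hT k)
  have h3 : rk a T (k + 1) ≤ Module.finrank (ZMod 2) (IC a T k ⊓ LinearMap.ker (dT A T) :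
      Submodule (ZMod 2) (Finset V → A → ZMod 2)) := by
    unfold rk
    exact_mod_cast h2
  unfold bettiF
  linarith

theorem aone_IC_eq_bot (a : V → A) (T : Set (Finset V)) (k : ℕ) (h : ∀ σ ∈ T, σ.card ≠ k) :
    IC a T k = ⊥ := by
  rw [eq_bot_iff]
  intro c hc
  rw [Submodule.mem_bot]
  funext σ
  exact hc.1 σ (fun h' => h σ h'.1 h'.2)

theorem bettiF_eq_zero (a : V → A) (T : Set (Finset V)) (k : ℕ) (h : ∀ σ ∈ T, σ.card ≠ k) :
    bettiF a T k = 0 := by
  have h1 := aone_IC_eq_bot a T k h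
  have h2 : (IC a T (k + 1)).map (dT A T) = ⊥ := by
    rw [eq_bot_iff, ← h1]
    rintro _ ⟨c, hc, rfl⟩
    exact dT_mem a T k c hc
  unfold bettiF cdim rk
  rw [h1, h2, Submodule.map_bot]
  simp

open scoped Classical in
/-- The projection on the part of the chains supported in `S`. -/
noncomputable def aone_prj (A : Type) (S : Set (Finset V)) :
    (Finset V → A → ZMod 2) →ₗ[ZMod 2] (Finset V → A → ZMod 2) where
  toFun c := fun σ => if σ ∈ S then c σ else 0
  map_add' c d := by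
    funext σ
    simp only [Pi.add_apply]
    split_ifs <;> simp
  map_smul' r c := by
    funext σ
    simp only [Pi.smul_apply, RingHom.id_apply]
    split_ifs <;> simp

theorem aone_prj_apply (S : Set (Finset V)) (c : Finset V → A → ZMod 2) (σ : Finset V) (h : σ ∈ S) :
    aone_prj A S c σ = c σ := by
  classical
  exact if_pos h

theorem aone_prj_apply_not (S : Set (Finset V)) (c : Finset V → A → ZMod 2) (σ : Finset V)
    (h : σ ∉ S) : aone_prj A S c σ = 0 := by
  classical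
  exact if_neg h

theorem aone_prj_mem (a : V → A) (T S : Set (Finset V)) (k : ℕ) (c : Finset V → A → ZMod 2)
    (hc : c ∈ IC a T k) : aone_prj A S c ∈ IC a (T ∩ S) k := by
  refine ⟨fun σ hσ => ?_, fun σ v hv x => ?_⟩
  · by_cases hS : σ ∈ S
    · rw [aone_prj_apply S c σ hS]
      exact hc.1 σ (fun h => hσ ⟨⟨h.1, hS⟩, h.2⟩)
    · exact aone_prj_apply_not S c σ hS
  · by_cases hS : σ ∈ S
    · rw [aone_prj_apply S c σ hS]
      exact hc.2 σ v hv x
    · rw [aone_prj_apply_not S c σ hS]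
      rfl

theorem aone_IC_mono (a : V → A) {T T1 : Set (Finset V)} (h : T1 ⊆ T) (k : ℕ) :
    IC a T1 k ≤ IC a T k :=
  fun c hc => ⟨fun σ hσ => hc.1 σ (fun h' => hσ ⟨h h'.1, h'.2⟩), hc.2⟩

theorem aone_prj_of_mem (a : V → A) (T : Set (Finset V)) (k : ℕ) (c : Finset V → A → ZMod 2)
    (hc : c ∈ IC a T k) : aone_prj A T c = c := by
  funext σ
  by_cases hS : σ ∈ T
  · exact aone_prj_apply T c σ hS
  · rw [aone_prj_apply_not T c σ hS, hc.1 σ (fun h => hS h.1)]

theorem aone_map_prj (a : V → A) {T S : Set (Finset V)} (h : S ⊆ T) (k : ℕ) :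
    (IC a T k).map (aone_prj A S) = IC a S k := by
  apply le_antisymm
  · rintro _ ⟨c, hc, rfl⟩
    have := aone_prj_mem a T S k c hc
    rwa [Set.inter_eq_right.2 h] at this
  · intro c hc
    exact ⟨c, aone_IC_mono a h k hc, aone_prj_of_mem a S k c hc⟩

theorem aone_inf_ker_prj (a : V → A) {T T1 : Set (Finset V)} (h : T1 ⊆ T) (k : ℕ) :
    IC a T k ⊓ LinearMap.ker (aone_prj A (T \ T1)) = IC a T1 k := by
  apply le_antisymm
  · rintro c ⟨hc, hk⟩
    refine ⟨fun σ hσ => ?_, hc.2⟩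
    by_cases h1 : σ ∈ T ∧ σ.card = k
    · have h2 : σ ∉ T1 := fun h' => hσ ⟨h', h1.2⟩
      have h3 : aone_prj A (T \ T1) c σ = 0 := by
        rw [LinearMap.mem_ker.1 hk]; rfl
      rw [aone_prj_apply (T \ T1) c σ ⟨h1.1, h2⟩] at h3
      exact h3
    · exact hc.1 σ h1
  · intro c hc
    refine ⟨aone_IC_mono a h k hc, ?_⟩
    show aone_prj A (T \ T1) c = 0
    funext σ
    by_cases hS : σ ∈ T \ T1
    · rw [aone_prj_apply _ c σ hS]
      exact hc.1 σ (fun h' => hS.2 h'.1)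
    · exact aone_prj_apply_not _ c σ hS

theorem aone_cdim_add (a : V → A) {T T1 : Set (Finset V)} (h : T1 ⊆ T) (k : ℕ) :
    cdim a T k = cdim a T1 k + cdim a (T \ T1) k := by
  have h1 := aone_finrank_map_add_inf (aone_prj A (T \ T1)) (IC a T k)
  rw [aone_map_prj a Set.sdiff_subset k, aone_inf_ker_prj a h k] at h1
  unfold cdim
  rw [← h1]
  push_cast
  ring

theorem aone_dT_eq_of_mem (a : V → A) (T T1 : Set (Finset V)) (h1 : T1 ⊆ T)
    (hd : ∀ σ ∈ T1, ∀ τ ∈ T, τ ⊆ σ → τ ∈ T1) (k : ℕ) (c : Finset V → A → ZMod 2)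
    (hc : c ∈ IC a T1 k) : dT A T c = dT A T1 c := by
  funext τ
  by_cases hτ : τ ∈ T
  · by_cases hτ1 : τ ∈ T1
    · rw [aone_dT_apply T c τ hτ, aone_dT_apply T1 c τ hτ1]
    · rw [aone_dT_apply T c τ hτ, aone_dT_apply_not T1 c τ hτ1]
      apply Finset.sum_eq_zero
      intro v _
      apply hc.1
      rintro ⟨h3, -⟩
      exact hτ1 (hd _ h3 τ hτ (Finset.subset_insert _ _))
  · rw [aone_dT_apply_not T c τ hτ, aone_dT_apply_not T1 c τ (fun h => hτ (h1 h))]

theorem aone_prj_dT (a : V → A) (T T1 : Set (Finset V)) (h1 : T1 ⊆ T)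
    (hd : ∀ σ ∈ T1, ∀ τ ∈ T, τ ⊆ σ → τ ∈ T1) (k : ℕ) (c : Finset V → A → ZMod 2)
    (hc : c ∈ IC a T k) :
    aone_prj A (T \ T1) (dT A T c) = dT A (T \ T1) (aone_prj A (T \ T1) c) := by
  funext τ
  by_cases hτ : τ ∈ T \ T1
  · rw [aone_prj_apply _ _ τ hτ, aone_dT_apply T c τ hτ.1, aone_dT_apply _ _ τ hτ]
    apply Finset.sum_congr rfl
    intro v _
    by_cases h3 : insert v τ ∈ T \ T1
    · rw [aone_prj_apply _ _ _ h3]
    · rw [aone_prj_apply_not _ _ _ h3]
      apply hc.1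
      rintro ⟨h4, -⟩
      have h5 : insert v τ ∈ T1 := by
        by_contra h6
        exact h3 ⟨h4, h6⟩
      exact hτ.2 (hd _ h5 τ hτ.1 (Finset.subset_insert _ _))
  · rw [aone_prj_apply_not _ _ τ hτ, aone_dT_apply_not _ _ τ hτ]

theorem aone_rk_ge (a : V → A) (T T1 : Set (Finset V)) (h1 : T1 ⊆ T)
    (hd : ∀ σ ∈ T1, ∀ τ ∈ T, τ ⊆ σ → τ ∈ T1) (k : ℕ) :
    rk a T1 k + rk a (T \ T1) k ≤ rk a T k := by
  have h := aone_finrank_map_add_inf (aone_prj A (T \ T1)) ((IC a T k).map (dT A T))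
  have e1 : ((IC a T k).map (dT A T)).map (aone_prj A (T \ T1)) =
      (IC a (T \ T1) k).map (dT A (T \ T1)) := by
    apply le_antisymm
    · rintro _ ⟨_, ⟨c, hc, rfl⟩, rfl⟩
      rw [aone_prj_dT a T T1 h1 hd k c hc]
      refine ⟨_, ?_, rfl⟩
      rw [← aone_map_prj a (Set.sdiff_subset (s := T) (t := T1)) k]
      exact ⟨c, hc, rfl⟩
    · rintro _ ⟨c, hc, rfl⟩
      have hc' := aone_IC_mono a (Set.sdiff_subset (s := T) (t := T1)) k hc
      refine ⟨_, ⟨c, hc', rfl⟩, ?_⟩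
      rw [aone_prj_dT a T T1 h1 hd k c hc', aone_prj_of_mem a (T \ T1) k c hc]
  have e2 : (IC a T1 k).map (dT A T1) ≤
      (IC a T k).map (dT A T) ⊓ LinearMap.ker (aone_prj A (T \ T1)) := by
    rintro _ ⟨c, hc, rfl⟩
    refine ⟨⟨c, aone_IC_mono a h1 k hc, aone_dT_eq_of_mem a T T1 h1 hd k c hc⟩, ?_⟩
    show aone_prj A (T \ T1) (dT A T1 c) = 0
    funext τ
    by_cases hτ : τ ∈ T \ T1
    · rw [aone_prj_apply _ _ τ hτ, aone_dT_apply_not T1 c τ hτ.2]
      rfl
    · exact aone_prj_apply_not _ _ τ hτ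
  have e3 := Submodule.finrank_mono e2
  rw [e1] at h
  unfold rk
  have : Module.finrank (ZMod 2) ((IC a T1 k).map (dT A T1)) +
      Module.finrank (ZMod 2) ((IC a (T \ T1) k).map (dT A (T \ T1))) ≤
      Module.finrank (ZMod 2) ((IC a T k).map (dT A T)) := by omega
  exact_mod_cast this

theorem aone_rk_le (a : V → A) (T T1 : Set (Finset V)) (hT : Conv T) (h1 : T1 ⊆ T)
    (hd : ∀ σ ∈ T1, ∀ τ ∈ T, τ ⊆ σ → τ ∈ T1) (k : ℕ) :
    rk a T k + rk a (T \ T1) (k + 1) ≤ rk a T1 k + cdim a (T \ T1) k := by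
  have h := aone_finrank_map_add_inf (aone_prj A (T \ T1)) (IC a T k ⊓ LinearMap.ker (dT A T))
  have e1 : (IC a (T \ T1) (k + 1)).map (dT A (T \ T1)) ≤
      (IC a T k ⊓ LinearMap.ker (dT A T)).map (aone_prj A (T \ T1)) := by
    rintro _ ⟨c, hc, rfl⟩
    have hc' := aone_IC_mono a (Set.sdiff_subset (s := T) (t := T1)) (k + 1) hc
    refine ⟨dT A T c, aone_map_le a T hT k ⟨c, hc', rfl⟩, ?_⟩
    rw [aone_prj_dT a T T1 h1 hd (k + 1) c hc', aone_prj_of_mem a (T \ T1) (k + 1) c hc]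
  have e2 : IC a T1 k ⊓ LinearMap.ker (dT A T1) ≤
      (IC a T k ⊓ LinearMap.ker (dT A T)) ⊓ LinearMap.ker (aone_prj A (T \ T1)) := by
    rintro c ⟨hc, hk⟩
    have h3 : c ∈ IC a T k ⊓ LinearMap.ker (aone_prj A (T \ T1)) := by
      rw [aone_inf_ker_prj a h1 k]; exact hc
    refine ⟨⟨h3.1, ?_⟩, h3.2⟩
    show dT A T c = 0
    rw [aone_dT_eq_of_mem a T T1 h1 hd k c hc]
    exact hk
  have e3 := Submodule.finrank_mono e1
  have e4 := Submodule.finrank_mono e2
  have h5 := aone_rk_add a T k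
  have h6 := aone_rk_add a T1 k
  have h7 := aone_cdim_add a h1 k
  have h8 : (Module.finrank (ZMod 2) ((IC a (T \ T1) (k + 1)).map (dT A (T \ T1))) : ℤ) +
      Module.finrank (ZMod 2) (IC a T1 k ⊓ LinearMap.ker (dT A T1) :
        Submodule (ZMod 2) (Finset V → A → ZMod 2)) ≤
      Module.finrank (ZMod 2) (IC a T k ⊓ LinearMap.ker (dT A T) :
        Submodule (ZMod 2) (Finset V → A → ZMod 2)) := by
    exact_mod_cast (by omega)
  have h9 : rk a (T \ T1) (k + 1) =
    (Module.finrank (ZMod 2) ((IC a (T \ T1) (k + 1)).map (dT A (T \ T1))) : ℤ) := rfl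
  rw [h9]
  linarith

theorem bettiF_le_add (a : V → A) (T T1 : Set (Finset V)) (hT : Conv T) (h1 : T1 ⊆ T)
    (hd : ∀ σ ∈ T1, ∀ τ ∈ T, τ ⊆ σ → τ ∈ T1) (k : ℕ) :
    bettiF a T k ≤ bettiF a T1 k + bettiF a (T \ T1) k := by
  have e1 := aone_rk_ge a T T1 h1 hd k
  have e2 := aone_rk_ge a T T1 h1 hd (k + 1)
  have e3 := aone_cdim_add a h1 k
  unfold bettiF
  linarith

theorem bettiF_sub_le (a : V → A) (T T1 : Set (Finset V)) (hT : Conv T) (h1 : T1 ⊆ T)
    (hd : ∀ σ ∈ T1, ∀ τ ∈ T, τ ⊆ σ → τ ∈ T1) (k : ℕ) :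
    bettiF a T1 k ≤ bettiF a T k + bettiF a (T \ T1) (k + 1) := by
  have e1 := aone_rk_le a T T1 hT h1 hd k
  have e2 := aone_rk_le a T T1 hT h1 hd (k + 1)
  have e3 := aone_cdim_add a h1 k
  have e4 := aone_cdim_add a h1 (k + 1)
  unfold bettiF
  linarith

end SingerRA
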