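import Mathlib
import Pool.Agent.Lib_MP_394d50_gt.Defs2
import Pool.Agent.Lib_MP_394d50_gt.AOne
import Pool.Agent.Lib_MP_394d50_gt.AInv

/-! Piece ACOVER: monotonicity of the normalised Betti numbers under 2-group coverings. -/

namespace SingerRA

section Aux

theorem cov_finrank_map_inj {M N : Type*} [AddCommGroup M] [Module (ZMod 2) M]
    [AddCommGroup N] [Module (ZMod 2) N] (f : M →ₗ[ZMod 2] N) (E : Submodule (ZMod 2) M)
    (hf : Function.Injective f) :
    Module.finrank (ZMod 2) (E.map f) = Module.finrank (ZMod 2) E :=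
  (LinearEquiv.finrank_eq (Submodule.equivMapOfInjective f hf E)).symm

/-- `dim f(E) + dim K ≤ dim E` for `K ≤ E ⊓ ker f`. -/
theorem cov_finrank_le {M N : Type*} [AddCommGroup M] [Module (ZMod 2) M]
    [AddCommGroup N] [Module (ZMod 2) N] [Module.Finite (ZMod 2) M] (f : M →ₗ[ZMod 2] N)
    (E K : Submodule (ZMod 2) M) (hK : K ≤ E) (hf : ∀ x ∈ K, f x = 0) :
    Module.finrank (ZMod 2) (E.map f) + Module.finrank (ZMod 2) K ≤
      Module.finrank (ZMod 2) E := by
  have h1 := LinearMap.finrank_range_add_finrank_ker (f.domRestrict E)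
  rw [LinearMap.range_domRestrict] at h1
  have h2 : Module.finrank (ZMod 2) K ≤
      Module.finrank (ZMod 2) (LinearMap.ker (f.domRestrict E)) := by
    rw [← Submodule.finrank_map_subtype_eq]
    apply Submodule.finrank_mono
    intro x hx
    exact ⟨⟨x, hK hx⟩, hf x hx, rfl⟩
  omega

/-- `dim E ≤ dim f(E) + dim K` when `E ⊓ ker f ≤ K`. -/
theorem cov_finrank_ge {M N : Type*} [AddCommGroup M] [Module (ZMod 2) M]
    [AddCommGroup N] [Module (ZMod 2) N] [Module.Finite (ZMod 2) M] (f : M →ₗ[ZMod 2] N)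
    (E K : Submodule (ZMod 2) M) (hK : ∀ x ∈ E, f x = 0 → x ∈ K) :
    Module.finrank (ZMod 2) E ≤ Module.finrank (ZMod 2) (E.map f) +
      Module.finrank (ZMod 2) K := by
  have h1 := LinearMap.finrank_range_add_finrank_ker (f.domRestrict E)
  rw [LinearMap.range_domRestrict] at h1
  have h2 : Module.finrank (ZMod 2) (LinearMap.ker (f.domRestrict E)) ≤
      Module.finrank (ZMod 2) K := by
    rw [← Submodule.finrank_map_subtype_eq]
    apply Submodule.finrank_mono
    rintro _ ⟨x, hx, rfl⟩
    exact hK x.1 x.2 hx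
  omega

end Aux

section Pull

variable {V : Type} {A B : Type} [Group A] [Group B]

/-- The pull back of chains along `π : A → B`. -/
def covPull (V : Type) (π : A →* B) :
    (Finset V → B → ZMod 2) →ₗ[ZMod 2] (Finset V → A → ZMod 2) where
  toFun c := fun σ x => c σ (π x)
  map_add' _ _ := rfl
  map_smul' _ _ := rfl

/-- The transfer along `π : A → B` with kernel `{1, z}`, `s` a section. -/
def covN (V : Type) (s : B → A) (z : A) :
    (Finset V → A → ZMod 2) →ₗ[ZMod 2] (Finset V → B → ZMod 2) where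
  toFun c := fun σ y => c σ (s y) + c σ (z * s y)
  map_add' c d := by
    funext σ y
    simp only [Pi.add_apply]
    ring
  map_smul' r c := by
    funext σ y
    simp only [Pi.smul_apply, RingHom.id_apply, smul_eq_mul]
    ring

theorem covPull_inj (π : A →* B) (hπ : Function.Surjective π) :
    Function.Injective (covPull V π) := by
  intro c d h
  funext σ y
  obtain ⟨x, rfl⟩ := hπ y
  exact congrFun (congrFun h σ) x

theorem covPull_mem (π : A →* B) (a : V → A) (T : Set (Finset V)) (k : ℕ)
    (c : Finset V → B → ZMod 2) (hc : c ∈ IC (fun v => π (a v)) T k) :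
    covPull V π c ∈ IC a T k := by
  refine ⟨fun σ hσ => ?_, fun σ v hv x => ?_⟩
  · funext x
    show c σ (π x) = 0
    rw [hc.1 σ hσ]; rfl
  · show c σ (π (x * a v)) = c σ (π x)
    rw [map_mul]
    exact hc.2 σ v hv (π x)

theorem covPull_dT [Fintype V] [DecidableEq V] (π : A →* B) (T : Set (Finset V))
    (c : Finset V → B → ZMod 2) :
    dT A T (covPull V π c) = covPull V π (dT B T c) := by
  funext σ x
  show dT A T (covPull V π c) σ x = dT B T c σ (π x)
  simp only [dT, LinearMap.coe_mk, AddHom.coe_mk]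
  split_ifs
  · rw [Finset.sum_apply, Finset.sum_apply]
    rfl
  · rfl

omit [Group B] in
theorem covN_dT [Fintype V] [DecidableEq V] (s : B → A) (z : A) (T : Set (Finset V))
    (c : Finset V → A → ZMod 2) :
    dT B T (covN V s z c) = covN V s z (dT A T c) := by
  funext σ y
  show dT B T (covN V s z c) σ y = dT A T c σ (s y) + dT A T c σ (z * s y)
  simp only [dT, LinearMap.coe_mk, AddHom.coe_mk]
  split_ifs
  · rw [Finset.sum_apply, Finset.sum_apply, Finset.sum_apply, ← Finset.sum_add_distrib]
    rfl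
  · simp

theorem map_pull_dT [Fintype V] [DecidableEq V] (π : A →* B) (T : Set (Finset V))
    (E : Submodule (ZMod 2) (Finset V → B → ZMod 2)) :
    (E.map (covPull V π)).map (dT A T) = (E.map (dT B T)).map (covPull V π) := by
  ext x
  constructor
  · rintro ⟨_, ⟨c, hc, rfl⟩, rfl⟩
    exact ⟨_, ⟨c, hc, rfl⟩, (covPull_dT π T c).symm⟩
  · rintro ⟨_, ⟨c, hc, rfl⟩, rfl⟩
    exact ⟨_, ⟨c, hc, rfl⟩, covPull_dT π T c⟩

omit [Group B] in
theorem map_N_dT [Fintype V] [DecidableEq V] (s : B → A) (z : A) (T : Set (Finset V))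
    (E : Submodule (ZMod 2) (Finset V → A → ZMod 2)) :
    (E.map (covN V s z)).map (dT B T) = (E.map (dT A T)).map (covN V s z) := by
  ext x
  constructor
  · rintro ⟨_, ⟨c, hc, rfl⟩, rfl⟩
    exact ⟨_, ⟨c, hc, rfl⟩, (covN_dT s z T c).symm⟩
  · rintro ⟨_, ⟨c, hc, rfl⟩, rfl⟩
    exact ⟨_, ⟨c, hc, rfl⟩, covN_dT s z T c⟩

end Pull

variable {V : Type} [Fintype V] [DecidableEq V] {A : Type} [Group A] [Finite A]

theorem bettiF_double {B : Type} [Group B] (π : A →* B) (hπ : Function.Surjective π)
    (z : A) (hz : ∀ x, π x = 1 ↔ x = 1 ∨ x = z) (hz1 : z ≠ 1) (a : V → A)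
    (T : Set (Finset V)) (h : OK (fun v => π (a v)) T) (hsq : ∀ v, a v * a v = 1)
    (hcomm : ∀ σ ∈ T, ∀ u ∈ σ, ∀ v ∈ σ, a u * a v = a v * a u) (k : ℕ) :
    bettiF a T k ≤ 2 * bettiF (fun v => π (a v)) T k := by
  classical
  have : Finite B := Finite.of_surjective π hπ
  have hπz : π z = 1 := (hz z).2 (Or.inr rfl)
  have hzz : z * z = 1 := by
    rcases (hz (z * z)).1 (by rw [map_mul, hπz, one_mul]) with h1 | h1
    · exact h1
    · exact absurd (mul_eq_left.1 h1) hz1
  -- section
  let s : B → A := Function.surjInv hπ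
  have hs : ∀ y, π (s y) = y := Function.surjInv_eq hπ
  have hsx : ∀ x, s (π x) = x ∨ s (π x) = z * x := by
    intro x
    have h1 : π (s (π x) * x⁻¹) = 1 := by rw [map_mul, hs, map_inv, mul_inv_cancel]
    rcases (hz _).1 h1 with h2 | h2
    · exact Or.inl (mul_inv_eq_one.1 h2)
    · exact Or.inr (mul_inv_eq_iff_eq_mul.1 h2)
  have hN : ∀ (c : Finset V → A → ZMod 2) σ x,
      covN V s z c σ (π x) = c σ x + c σ (z * x) := by
    intro c σ x
    show c σ (s (π x)) + c σ (z * s (π x)) = _
    rcases hsx x with h1 | h1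
    · rw [h1]
    · rw [h1, ← mul_assoc, hzz, one_mul, add_comm]
  set b : V → B := fun v => π (a v) with hb
  have hNmem : ∀ k, ∀ c ∈ IC a T k, covN V s z c ∈ IC b T k := by
    rintro k c ⟨hc1, hc2⟩
    refine ⟨fun σ hσ => ?_, fun σ v hv y => ?_⟩
    · funext y
      show c σ (s y) + c σ (z * s y) = 0
      rw [hc1 σ hσ]; simp
    · obtain ⟨x, rfl⟩ := hπ y
      show covN V s z c σ (π x * π (a v)) = covN V s z c σ (π x)
      rw [← map_mul, hN, hN, hc2 σ v hv, ← mul_assoc, hc2 σ v hv]
  have hNsurj : ∀ k, (IC a T k).map (covN V s z) = IC b T k := by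
    intro k
    apply le_antisymm
    · rintro _ ⟨c, hc, rfl⟩
      exact hNmem k c hc
    · intro c hc
      have hex : ∀ σ : Finset V, ∃ g : A → ZMod 2, (∀ v ∈ σ, ∀ x, g (x * a v) = g x) ∧
          ∀ x, g x + g (z * x) = c σ (π x) := by
        intro σ
        by_cases hσ : σ ∈ T
        · exact norm_surj π hπ z hz hz1 a T h hsq σ hσ (hcomm σ hσ) (c σ)
            (fun v hv x => hc.2 σ v hv x)
        · refine ⟨fun _ => 0, fun _ _ _ => rfl, fun x => ?_⟩
          rw [hc.1 σ (fun h1 => hσ h1.1)]
          simp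
      choose g hg1 hg2 using hex
      refine ⟨fun σ => if σ ∈ T ∧ σ.card = k then g σ else 0, ⟨fun σ hσ => if_neg hσ,
        fun σ v hv x => ?_⟩, ?_⟩
      · show (if σ ∈ T ∧ σ.card = k then g σ else 0) (x * a v) =
          (if σ ∈ T ∧ σ.card = k then g σ else 0) x
        split_ifs
        · exact hg1 σ v hv x
        · rfl
      · funext σ y
        obtain ⟨x, rfl⟩ := hπ y
        rw [hN]
        split_ifs with hσ
        · exact hg2 σ x
        · rw [hc.1 σ hσ]; simp
  have hker : ∀ k, ∀ c ∈ IC a T k, covN V s z c = 0 → c ∈ (IC b T k).map (covPull V π) := by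
    intro k c hc h0
    have hcz : ∀ σ x, c σ (z * x) = c σ x := by
      intro σ x
      have h1 := hN c σ x
      rw [h0] at h1
      have h2 : c σ x + c σ (z * x) = 0 := h1.symm
      have h3 := CharTwo.add_self_eq_zero (c σ x)
      exact (add_left_cancel (h2.trans h3.symm))
    have hcs : ∀ σ x, c σ (s (π x)) = c σ x := by
      intro σ x
      rcases hsx x with h1 | h1
      · rw [h1]
      · rw [h1, hcz]
    refine ⟨fun σ y => c σ (s y), ⟨fun σ hσ => ?_, fun σ v hv y => ?_⟩, ?_⟩
    · funext y
      show c σ (s y) = 0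
      rw [hc.1 σ hσ]; rfl
    · obtain ⟨x, rfl⟩ := hπ y
      show c σ (s (π x * π (a v))) = c σ (s (π x))
      rw [← map_mul, hcs, hcs]
      exact hc.2 σ v hv x
    · funext σ x
      exact hcs σ x
  have hpull0 : ∀ c : Finset V → B → ZMod 2, covN V s z (covPull V π c) = 0 := by
    intro c
    funext σ y
    obtain ⟨x, rfl⟩ := hπ y
    rw [hN]
    show c σ (π x) + c σ (π (z * x)) = 0
    rw [map_mul, hπz, one_mul]
    exact CharTwo.add_self_eq_zero _
  have hpinj := covPull_inj (V := V) π hπ
  have hcd : ∀ k, cdim a T k ≤ 2 * cdim b T k := by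
    intro k
    unfold cdim
    have h1 := cov_finrank_ge (covN V s z) (IC a T k) ((IC b T k).map (covPull V π)) (hker k)
    rw [hNsurj, cov_finrank_map_inj _ _ hpinj] at h1
    omega
  have hrk : ∀ k, 2 * rk b T k ≤ rk a T k := by
    intro k
    unfold rk
    have h1 := cov_finrank_le (covN V s z) ((IC a T k).map (dT A T))
      (((IC b T k).map (dT B T)).map (covPull V π)) (by
        rw [← map_pull_dT]
        apply Submodule.map_mono
        rintro _ ⟨c, hc, rfl⟩
        exact covPull_mem π a T k c hc) (by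
        rintro _ ⟨c, _, rfl⟩
        exact hpull0 c)
    rw [← map_N_dT, hNsurj, cov_finrank_map_inj _ _ hpinj] at h1
    omega
  unfold bettiF
  have h1 := hcd k
  have h2 := hrk k
  have h3 := hrk (k + 1)
  linarith

omit [Finite A] in
theorem bettiF_bij [Finite A] {B : Type} [Group B] (π : A →* B) (hπ : Function.Surjective π)
    (hi : Function.Injective π) (a : V → A) (T : Set (Finset V)) (k : ℕ) :
    bettiF a T k = bettiF (fun v => π (a v)) T k := by
  have : Finite B := Finite.of_surjective π hπ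
  have hpinj := covPull_inj (V := V) π hπ
  have hIC : ∀ k, (IC (fun v => π (a v)) T k).map (covPull V π) = IC a T k := by
    intro k
    apply le_antisymm
    · rintro _ ⟨c, hc, rfl⟩
      exact covPull_mem π a T k c hc
    · intro c hc
      let s : B → A := Function.surjInv hπ
      have hs : ∀ x, s (π x) = x := fun x => hi (Function.surjInv_eq hπ (π x))
      refine ⟨fun σ y => c σ (s y), ⟨fun σ hσ => ?_, fun σ v hv y => ?_⟩, ?_⟩
      · funext y
        show c σ (s y) = 0
        rw [hc.1 σ hσ]; rfl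
      · obtain ⟨x, rfl⟩ := hπ y
        show c σ (s (π x * π (a v))) = c σ (s (π x))
        rw [← map_mul, hs, hs]
        exact hc.2 σ v hv x
      · funext σ x
        show c σ (s (π x)) = c σ x
        rw [hs]
  have hcd : ∀ k, cdim a T k = cdim (fun v => π (a v)) T k := by
    intro k
    unfold cdim
    rw [← hIC, cov_finrank_map_inj _ _ hpinj]
  have hrk : ∀ k, rk a T k = rk (fun v => π (a v)) T k := by
    intro k
    unfold rk
    rw [← hIC, map_pull_dT, cov_finrank_map_inj _ _ hpinj]
  unfold bettiF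
  rw [hcd, hrk, hrk]

omit [Finite A] in
theorem card_eq_mul_ker [Finite A] {B : Type} [Group B] (f : A →* B)
    (hf : Function.Surjective f) : Nat.card A = Nat.card B * Nat.card f.ker := by
  rw [Subgroup.card_eq_card_quotient_mul_card_subgroup f.ker,
    Nat.card_congr (QuotientGroup.quotientKerEquivOfSurjective f hf).toEquiv]

/-- A nontrivial normal subgroup of a finite `2`-group contains a central involution. -/
theorem exists_central (hA : IsPGroup 2 A) (H : Subgroup A) [H.Normal] (hH : H ≠ ⊥) :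
    ∃ z ∈ H, z ≠ 1 ∧ z * z = 1 ∧ ∀ x, x * z = z * x := by
  have : Fact (Nat.Prime 2) := ⟨Nat.prime_two⟩
  have h2 : 2 ∣ Nat.card H := by
    have : Nontrivial H := (Subgroup.nontrivial_iff_ne_bot H).2 hH
    obtain ⟨n, hn0, hn⟩ := (hA.to_subgroup H).nontrivial_iff_card.mp inferInstance
    exact hn.symm ▸ dvd_pow_self _ (ne_of_gt hn0)
  have h1 := (hA.of_equiv ConjAct.toConjAct).exists_fixed_point_of_prime_dvd_card_of_fixed_point
    H h2 (a := (1 : H)) (by
      intro g
      exact smul_one g)
  obtain ⟨b, hb, hb1⟩ := h1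
  have hbc : ∀ x : A, x * (b : A) = (b : A) * x := by
    intro x
    have h3 := hb (ConjAct.toConjAct x)
    have h4 := congrArg (Subtype.val) h3
    rw [ConjAct.Subgroup.val_conj_smul, ConjAct.toConjAct_smul] at h4
    exact mul_inv_eq_iff_eq_mul.1 h4
  have hb1' : (b : A) ≠ 1 := fun h3 => hb1 (Subtype.ext h3.symm)
  obtain ⟨k, hk⟩ := (IsPGroup.iff_orderOf.1 hA) (b : A)
  have hk0 : k ≠ 0 := by
    rintro rfl
    rw [pow_zero, orderOf_eq_one_iff] at hk
    exact hb1' hk
  obtain ⟨m, rfl⟩ := Nat.exists_eq_succ_of_ne_zero hk0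
  refine ⟨(b : A) ^ (2 ^ m), H.pow_mem b.2 _, ?_, ?_, fun x => ?_⟩
  · apply pow_ne_one_of_lt_orderOf
    · positivity
    · rw [hk]
      exact Nat.pow_lt_pow_right (by norm_num) (Nat.lt_succ_self m)
  · rw [← pow_add, ← two_mul, ← pow_succ', ← Nat.succ_eq_add_one, ← hk]
    exact pow_orderOf_eq_one _
  · exact ((show Commute x (b : A) from hbc x).pow_right _).eq

theorem bettiF_cover_aux (n : ℕ) : ∀ {A : Type} [Group A] [Finite A] (_ : IsPGroup 2 A)
    {B : Type} [Group B] (π : A →* B) (_ : Function.Surjective π) (a : V → A)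
    (T : Set (Finset V)) (_ : OK (fun v => π (a v)) T) (_ : ∀ v, a v * a v = 1)
    (_ : ∀ σ ∈ T, ∀ u ∈ σ, ∀ v ∈ σ, a u * a v = a v * a u) (k : ℕ) (_ : Nat.card π.ker = n),
    bettiF a T k ≤ n * bettiF (fun v => π (a v)) T k := by
  induction n using Nat.strong_induction_on with
  | _ n ih =>
    intro A _ _ hA B _ π hπ a T h hsq hcomm k hn
    by_cases hker : π.ker = ⊥
    · have hn1 : n = 1 := by
        rw [← hn, hker]
        exact Subgroup.card_bot
      rw [hn1, bettiF_bij π hπ ((MonoidHom.ker_eq_bot_iff π).1 hker)]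
      simp
    · obtain ⟨z, hzH, hz1, hzz, hzc⟩ := exists_central hA π.ker hker
      have hZn : (Subgroup.zpowers z).Normal := by
        refine ⟨fun x hx g => ?_⟩
        obtain ⟨m, rfl⟩ := hx
        have h1 : g * z ^ m * g⁻¹ = z ^ m := by
          rw [mul_inv_eq_iff_eq_mul]
          exact ((show Commute g z from hzc g).zpow_right m).eq
        show g * z ^ m * g⁻¹ ∈ _
        rw [h1]
        exact ⟨m, rfl⟩
      have hle : Subgroup.zpowers z ≤ π.ker := by
        rw [Subgroup.zpowers_le]; exact hzH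
      let π1 : A →* A ⧸ Subgroup.zpowers z := QuotientGroup.mk' (Subgroup.zpowers z)
      let π2 : A ⧸ Subgroup.zpowers z →* B := QuotientGroup.lift (Subgroup.zpowers z) π hle
      have h12 : ∀ x, π2 (π1 x) = π x := fun x => rfl
      have hπ1 : Function.Surjective π1 := QuotientGroup.mk'_surjective _
      have hπ2 : Function.Surjective π2 := by
        intro y
        obtain ⟨x, rfl⟩ := hπ y
        exact ⟨π1 x, rfl⟩
      have hord : orderOf z = 2 := by
        have : Fact (Nat.Prime 2) := ⟨Nat.prime_two⟩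
        exact orderOf_eq_prime (by rw [pow_two]; exact hzz) hz1
      have hker1 : ∀ x, π1 x = 1 ↔ x = 1 ∨ x = z := by
        intro x
        have : π1 x = 1 ↔ x ∈ Subgroup.zpowers z := by
          rw [← MonoidHom.mem_ker]
          show x ∈ (QuotientGroup.mk' (Subgroup.zpowers z)).ker ↔ _
          rw [QuotientGroup.ker_mk']
        rw [this]
        constructor
        · intro hx
          classical
          rw [mem_zpowers_iff_mem_range_orderOf, hord] at hx
          simp only [Finset.mem_image, Finset.mem_range] at hx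
          obtain ⟨m, hm, rfl⟩ := hx
          interval_cases m
          · left; simp
          · right; simp
        · rintro (rfl | rfl)
          · exact Subgroup.one_mem _
          · exact Subgroup.mem_zpowers _
      have hcard : n = 2 * Nat.card π2.ker := by
        have e1 := card_eq_mul_ker π hπ
        have e2 := card_eq_mul_ker π1 hπ1
        have e3 := card_eq_mul_ker π2 hπ2
        have e4 : Nat.card π1.ker = 2 := by
          show Nat.card (QuotientGroup.mk' (Subgroup.zpowers z)).ker = 2
          rw [QuotientGroup.ker_mk', Nat.card_zpowers, hord]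
        have hB : 0 < Nat.card B := by
          have : Finite B := Finite.of_surjective π hπ
          exact Nat.card_pos
        rw [hn] at e1
        rw [e4] at e2
        rw [e3] at e2
        rw [e2] at e1
        have : Nat.card B * (2 * Nat.card π2.ker) = Nat.card B * n := by
          rw [← e1]; ring
        exact (Nat.eq_of_mul_eq_mul_left hB this).symm
      have hlt : Nat.card π2.ker < n := by
        have : 0 < Nat.card π2.ker := Nat.card_pos
        omega
      have hsq' : ∀ v, π1 (a v) * π1 (a v) = 1 := by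
        intro v
        rw [← map_mul, hsq, map_one]
      have hcomm' : ∀ σ ∈ T, ∀ u ∈ σ, ∀ v ∈ σ, π1 (a u) * π1 (a v) = π1 (a v) * π1 (a u) := by
        intro σ hσ u hu v hv
        rw [← map_mul, ← map_mul, hcomm σ hσ u hu v hv]
      have hOK : OK (fun v => π1 (a v)) T := by
        obtain ⟨f, hf⟩ := h.lab
        exact ⟨h.conv, hsq', hcomm', f.comp π2, hf⟩
      have s1 := bettiF_double π1 hπ1 z hker1 hz1 a T hOK hsq hcomm k
      have s2 := ih _ hlt (hA.to_quotient _) π2 hπ2 (fun v => π1 (a v)) T h hsq' hcomm' k rfl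
      have s3 : bettiF (fun v => π2 (π1 (a v))) T k = bettiF (fun v => π (a v)) T k := rfl
      rw [s3] at s2
      calc bettiF a T k ≤ 2 * bettiF (fun v => π1 (a v)) T k := s1
        _ ≤ 2 * ((Nat.card π2.ker : ℤ) * bettiF (fun v => π (a v)) T k) := by linarith
        _ = (n : ℤ) * bettiF (fun v => π (a v)) T k := by
          rw [hcard]
          push_cast
          ring

theorem bettiF_cover (hA : IsPGroup 2 A) {B : Type} [Group B] (π : A →* B)
    (hπ : Function.Surjective π) (a : V → A)
    (T : Set (Finset V)) (h : OK (fun v => π (a v)) T) (hsq : ∀ v, a v * a v = 1)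
    (hcomm : ∀ σ ∈ T, ∀ u ∈ σ, ∀ v ∈ σ, a u * a v = a v * a u) (k : ℕ) :
    bettiF a T k ≤ Nat.card π.ker * bettiF (fun v => π (a v)) T k :=
  bettiF_cover_aux _ hA π hπ a T h hsq hcomm k rfl

end SingerRA
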