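import Mathlib
import Pool.Agent.Lib_MP_394d50_gt.Defs2

/-! Piece AREINDEX: change of the vertex set. -/

namespace SingerRA

namespace Reindex

variable {V V' : Type} {A : Type}

/-- extension by zero along the map of vertex sets -/
noncomputable def ext (f : V' ↪ V) :
    (Finset V' → A → ZMod 2) →ₗ[ZMod 2] (Finset V → A → ZMod 2) where
  toFun c := Function.extend (fun σ : Finset V' => σ.map f) c 0
  map_add' c d := by
    funext σ
    by_cases h : ∃ σ' : Finset V', σ'.map f = σ
    · obtain ⟨σ', rfl⟩ := h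
      have hi := Finset.map_injective f
      rw [Pi.add_apply]
      rw [hi.extend_apply, hi.extend_apply, hi.extend_apply]
      rfl
    · rw [Pi.add_apply, Function.extend_apply' _ _ _ h, Function.extend_apply' _ _ _ h,
        Function.extend_apply' _ _ _ h]
      simp
  map_smul' r c := by
    funext σ
    by_cases h : ∃ σ' : Finset V', σ'.map f = σ
    · obtain ⟨σ', rfl⟩ := h
      have hi := Finset.map_injective f
      rw [Pi.smul_apply]
      rw [hi.extend_apply, hi.extend_apply]
      rfl
    · rw [Pi.smul_apply, Function.extend_apply' _ _ _ h, Function.extend_apply' _ _ _ h]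
      simp

theorem ext_map (f : V' ↪ V) (c : Finset V' → A → ZMod 2) (σ' : Finset V') :
    ext f c (σ'.map f) = c σ' := (Finset.map_injective f).extend_apply c 0 σ'

theorem ext_not (f : V' ↪ V) (c : Finset V' → A → ZMod 2) (σ : Finset V)
    (h : ¬ ∃ σ' : Finset V', σ'.map f = σ) : ext f c σ = 0 := Function.extend_apply' _ _ _ h

theorem ext_injective (f : V' ↪ V) :
    Function.Injective (ext f : (Finset V' → A → ZMod 2) →ₗ[ZMod 2] _) := by
  intro c d h
  funext σ'
  rw [← ext_map f c σ', ← ext_map f d σ', h]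

theorem map_IC [Group A] (f : V' ↪ V) (a : V → A) (T' : Set (Finset V')) (k : ℕ) :
    IC a ((fun σ : Finset V' => σ.map f) '' T') k =
      (IC (fun v => a (f v)) T' k).map (ext f) := by
  apply le_antisymm
  · intro c hc
    obtain ⟨h1, h2⟩ := hc
    refine ⟨fun σ' => c (σ'.map f), ⟨?_, ?_⟩, ?_⟩
    · intro σ' hσ'
      apply h1
      rintro ⟨⟨ρ, hρ, hρ'⟩, h3⟩
      apply hσ'
      have : ρ = σ' := Finset.map_injective f hρ'
      subst this
      exact ⟨hρ, by rwa [Finset.card_map] at h3⟩
    · intro σ' v hv x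
      exact h2 _ (f v) (Finset.mem_map_of_mem f hv) x
    · funext σ
      by_cases h : ∃ σ' : Finset V', σ'.map f = σ
      · obtain ⟨σ', rfl⟩ := h
        rw [ext_map]
      · rw [ext_not f _ σ h]
        symm
        apply h1
        rintro ⟨⟨ρ, hρ, hρ'⟩, -⟩
        exact h ⟨ρ, hρ'⟩
  · rintro _ ⟨c, ⟨h1, h2⟩, rfl⟩
    refine ⟨?_, ?_⟩
    · intro σ hσ
      by_cases h : ∃ σ' : Finset V', σ'.map f = σ
      · obtain ⟨σ', rfl⟩ := h
        rw [ext_map]
        apply h1
        rintro ⟨h3, h4⟩
        exact hσ ⟨⟨σ', h3, rfl⟩, by rw [Finset.card_map]; exact h4⟩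
      · exact ext_not f _ σ h
    · intro σ v hv x
      by_cases h : ∃ σ' : Finset V', σ'.map f = σ
      · obtain ⟨σ', rfl⟩ := h
        rw [ext_map]
        obtain ⟨v', hv', rfl⟩ := Finset.mem_map.mp hv
        exact h2 σ' v' hv' x
      · rw [ext_not f _ σ h]
        rfl

theorem ext_dT [Fintype V] [DecidableEq V] [Fintype V'] [DecidableEq V'] (f : V' ↪ V)
    (T' : Set (Finset V')) (c : Finset V' → A → ZMod 2) :
    ext f (dT A T' c) = dT A ((fun σ : Finset V' => σ.map f) '' T') (ext f c) := by
  classical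
  funext τ
  by_cases h : ∃ σ' : Finset V', σ'.map f = τ
  · obtain ⟨τ', rfl⟩ := h
    rw [ext_map]
    by_cases hT : τ' ∈ T'
    · have hT2 : τ'.map f ∈ (fun σ : Finset V' => σ.map f) '' T' := ⟨τ', hT, rfl⟩
      show (if τ' ∈ T' then _ else _) = if _ then _ else _
      rw [if_pos hT, if_pos hT2]
      have h1 : ∀ v' ∈ Finset.univ \ τ', c (insert v' τ') =
          ext f c (insert (f v') (τ'.map f)) := by
        intro v' _
        rw [← Finset.map_insert, ext_map]
      rw [Finset.sum_congr rfl h1]
      have h2 : ∑ v' ∈ Finset.univ \ τ', ext f c (insert (f v') (τ'.map f)) =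
          ∑ v ∈ (Finset.univ \ τ').map f, ext f c (insert v (τ'.map f)) := by
        rw [Finset.sum_map]
      rw [h2]
      apply Finset.sum_subset
      · intro v hv
        obtain ⟨v', hv', rfl⟩ := Finset.mem_map.mp hv
        rw [Finset.mem_sdiff] at hv' ⊢
        refine ⟨Finset.mem_univ _, fun hc => hv'.2 ?_⟩
        exact (Finset.mem_map' f).mp hc
      · intro v hv hv2
        apply ext_not
        rintro ⟨ρ, hρ⟩
        have hvρ : v ∈ ρ.map f := by rw [hρ]; exact Finset.mem_insert_self _ _
        obtain ⟨v', hv', rfl⟩ := Finset.mem_map.mp hvρ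
        apply hv2
        rw [Finset.mem_sdiff] at hv
        apply Finset.mem_map_of_mem
        rw [Finset.mem_sdiff]
        exact ⟨Finset.mem_univ _, fun hc => hv.2 (Finset.mem_map_of_mem f hc)⟩
    · have hT2 : τ'.map f ∉ (fun σ : Finset V' => σ.map f) '' T' := by
        rintro ⟨ρ, hρ, hρ'⟩
        exact hT ((Finset.map_injective f hρ') ▸ hρ)
      show (if τ' ∈ T' then _ else _) = if _ then _ else _
      rw [if_neg hT, if_neg hT2]
  · rw [ext_not f _ τ h]
    have hT2 : τ ∉ (fun σ : Finset V' => σ.map f) '' T' := by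
      rintro ⟨ρ, hρ, hρ'⟩
      exact h ⟨ρ, hρ'⟩
    show _ = if _ then _ else _
    rw [if_neg hT2]

theorem finrank_ext (f : V' ↪ V) (p : Submodule (ZMod 2) (Finset V' → A → ZMod 2)) :
    Module.finrank (ZMod 2) (p.map (ext f)) = Module.finrank (ZMod 2) p :=
  (LinearEquiv.finrank_eq (Submodule.equivMapOfInjective (ext f) (ext_injective f) p)).symm

theorem cdim_eq [Group A] (f : V' ↪ V) (a : V → A) (T' : Set (Finset V')) (k : ℕ) :
    cdim a ((fun σ : Finset V' => σ.map f) '' T') k = cdim (fun v => a (f v)) T' k := by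
  unfold cdim
  rw [map_IC, finrank_ext]

theorem rk_eq' [Fintype V] [DecidableEq V] [Fintype V'] [DecidableEq V'] [Group A] (f : V' ↪ V)
    (a : V → A) (T' : Set (Finset V')) (k : ℕ) :
    rk a ((fun σ : Finset V' => σ.map f) '' T') k = rk (fun v => a (f v)) T' k := by
  unfold rk
  have h1 : (IC a ((fun σ : Finset V' => σ.map f) '' T') k).map
      (dT A ((fun σ : Finset V' => σ.map f) '' T')) =
      ((IC (fun v => a (f v)) T' k).map (dT A T')).map (ext f) := by
    rw [map_IC, ← Submodule.map_comp, ← Submodule.map_comp]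
    congr 1
    apply LinearMap.ext
    intro c
    exact (ext_dT f T' c).symm
  rw [h1, finrank_ext]

end Reindex

theorem bettiF_reindex {V V' : Type} [Fintype V] [DecidableEq V] [Fintype V'] [DecidableEq V']
    {A : Type} [Group A] (f : V' ↪ V) (a : V → A) (T' : Set (Finset V')) (k : ℕ) :
    bettiF a ((fun σ : Finset V' => σ.map f) '' T') k = bettiF (fun v => a (f v)) T' k := by
  unfold bettiF
  rw [Reindex.cdim_eq, Reindex.rk_eq', Reindex.rk_eq']

end SingerRA
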