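import Mathlib
import Pool.Agent.Lib_MP_394d50_gt.Defs2
import Pool.Agent.Lib_MP_394d50_gt.AOne

/-! Piece ALINK: the cubes containing a given vertex. -/

namespace SingerRA

section Aux

variable {V : Type} [DecidableEq V] {A : Type} [Group A]

/-- The representative of the coset `{x, x a_v}` with label `i`. -/
def lkS (l : A → ZMod 2) (av : A) (i : ZMod 2) (x : A) : A := if l x = i then x else x * av

/-- The linear map `e ↦ (σ ↦ e (σ ∖ v) (s_i x))`. -/
def lkP (l : A → ZMod 2) (av : A) (v : V) (i : ZMod 2) :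
    (Finset V → A → ZMod 2) →ₗ[ZMod 2] (Finset V → A → ZMod 2) where
  toFun e := fun σ x => if v ∈ σ then e (σ.erase v) (lkS l av i x) else 0
  map_add' c d := by
    funext σ x
    simp only [Pi.add_apply]
    split_ifs <;> simp
  map_smul' r c := by
    funext σ x
    simp only [Pi.smul_apply, RingHom.id_apply]
    split_ifs <;> simp

theorem lkP_apply (l : A → ZMod 2) (av : A) (v : V) (i : ZMod 2) (e : Finset V → A → ZMod 2)
    (σ : Finset V) (x : A) :
    lkP l av v i e σ x = if v ∈ σ then e (σ.erase v) (lkS l av i x) else 0 := rfl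

theorem zmod2_ne {a b : ZMod 2} (h : a ≠ b) : a + 1 = b := by
  revert a b; decide

theorem zmod2_add_one_ne (a : ZMod 2) : a + 1 ≠ a := by
  revert a; decide

theorem lkS_mul_av (l : A → ZMod 2) (av : A) (hsq : av * av = 1)
    (hl : ∀ x, l (x * av) = l x + 1) (i : ZMod 2) (x : A) :
    lkS l av i (x * av) = lkS l av i x := by
  unfold lkS
  rw [hl]
  by_cases h : l x = i
  · subst h
    rw [if_neg (zmod2_add_one_ne _), if_pos rfl, mul_assoc, hsq, mul_one]
  · rw [if_pos (zmod2_ne h), if_neg h]

theorem lkS_mul (l : A → ZMod 2) (av au : A) (hc : au * av = av * au)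
    (hl : ∀ x, l (x * au) = l x) (i : ZMod 2) (x : A) :
    lkS l av i (x * au) = lkS l av i x * au := by
  unfold lkS
  rw [hl]
  by_cases h : l x = i
  · rw [if_pos h, if_pos h]
  · rw [if_neg h, if_neg h, mul_assoc, hc, mul_assoc]

theorem finrank_map_of_injOn {M N : Type*} [AddCommGroup M] [Module (ZMod 2) M]
    [AddCommGroup N] [Module (ZMod 2) N] (f : M →ₗ[ZMod 2] N) (E : Submodule (ZMod 2) M)
    (hf : ∀ e ∈ E, f e = 0 → e = 0) :
    Module.finrank (ZMod 2) (E.map f) = Module.finrank (ZMod 2) E := by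
  rw [← LinearMap.range_domRestrict]
  apply LinearMap.finrank_range_of_inj
  rw [← LinearMap.ker_eq_bot, LinearMap.ker_eq_bot']
  rintro ⟨e, he⟩ h
  apply Subtype.ext
  exact hf e he h

theorem finrank_submodule_prod {M N : Type*} [AddCommGroup M] [Module (ZMod 2) M]
    [AddCommGroup N] [Module (ZMod 2) N] [Module.Finite (ZMod 2) M] [Module.Finite (ZMod 2) N]
    (E : Submodule (ZMod 2) M) (F : Submodule (ZMod 2) N) :
    Module.finrank (ZMod 2) (E.prod F) =
      Module.finrank (ZMod 2) E + Module.finrank (ZMod 2) F := by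
  rw [← Module.finrank_prod]
  refine LinearEquiv.finrank_eq
    { toFun := fun x => (⟨x.1.1, x.2.1⟩, ⟨x.1.2, x.2.2⟩)
      invFun := fun y => ⟨(y.1.1, y.2.1), ⟨y.1.2, y.2.2⟩⟩
      map_add' := fun _ _ => rfl
      map_smul' := fun _ _ => rfl
      left_inv := fun _ => rfl
      right_inv := fun _ => rfl }

end Aux

variable {V : Type} [Fintype V] [DecidableEq V] {A : Type} [Group A] [Finite A]

theorem bettiF_link (a : V → A) (T : Set (Finset V)) (h : OK a T) (v : V) (k : ℕ) :
    bettiF a {σ | σ ∈ T ∧ v ∈ σ} (k + 1) ≤ bettiF a {τ | v ∉ τ ∧ insert v τ ∈ T} k := by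
  classical
  set T2 : Set (Finset V) := {σ | σ ∈ T ∧ v ∈ σ} with hT2
  set T' : Set (Finset V) := {τ | v ∉ τ ∧ insert v τ ∈ T} with hT'
  have hconv : Conv T' := by
    rintro σ ⟨hσ1, hσ2⟩ τ ⟨hτ1, hτ2⟩ ρ h1 h2
    exact ⟨fun hv => hτ1 (h2 hv), h.conv _ hσ2 _ hτ2 _ (Finset.insert_subset_insert _ h1)
      (Finset.insert_subset_insert _ h2)⟩
  have hnn : 0 ≤ bettiF a T' k := bettiF_nonneg a T' hconv k
  by_cases hne : ∃ σ ∈ T, v ∈ σ
  swap
  · rw [bettiF_eq_zero a T2 (k + 1) (fun σ hσ => absurd ⟨σ, hσ.1, hσ.2⟩ hne)]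
    exact hnn
  obtain ⟨σ0, hσ0, hvσ0⟩ := hne
  obtain ⟨f, hf⟩ := h.lab
  set l : A → ZMod 2 := fun x => (f x).toAdd v with hl
  have hlv : ∀ x, l (x * a v) = l x + 1 := by
    intro x
    simp only [hl, map_mul, toAdd_mul, Pi.add_apply]
    rw [hf σ0 hσ0 v hvσ0 v, if_pos rfl]
  have hlu : ∀ σ ∈ T, ∀ u ∈ σ, u ≠ v → ∀ x, l (x * a u) = l x := by
    intro σ hσ u hu huv x
    simp only [hl, map_mul, toAdd_mul, Pi.add_apply]
    rw [hf σ hσ u hu v, if_neg (Ne.symm huv), add_zero]
  have hsq := h.sq v
  -- membership facts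
  have herase : ∀ σ, v ∈ σ → (σ.erase v ∈ T' ↔ σ ∈ T2) := by
    intro σ hv
    constructor
    · rintro ⟨_, h2⟩
      rw [Finset.insert_erase hv] at h2
      exact ⟨h2, hv⟩
    · rintro ⟨h1, _⟩
      exact ⟨Finset.notMem_erase v σ, by rw [Finset.insert_erase hv]; exact h1⟩
  have hins : ∀ τ, v ∉ τ → (insert v τ ∈ T2 ↔ τ ∈ T') := by
    intro τ hv
    exact ⟨fun h1 => ⟨hv, h1.1⟩, fun h1 => ⟨h1.2, Finset.mem_insert_self v τ⟩⟩
  -- P maps IC T' k into IC T2 (k+1)
  have hP : ∀ i k, ∀ e ∈ IC a T' k, lkP l (a v) v i e ∈ IC a T2 (k + 1) := by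
    rintro i k e ⟨he1, he2⟩
    refine ⟨fun σ hσ => ?_, fun σ u hu x => ?_⟩
    · funext x
      rw [lkP_apply]
      split_ifs with hv
      · rw [he1 (σ.erase v)]
        · rfl
        · rintro ⟨h1, h2⟩
          apply hσ
          refine ⟨(herase σ hv).1 h1, ?_⟩
          rw [← h2, Finset.card_erase_add_one hv]
      · rfl
    · rw [lkP_apply, lkP_apply]
      split_ifs with hv
      · by_cases hσ : σ.erase v ∈ T'
        · by_cases huv : u = v
          · subst huv
            rw [lkS_mul_av l (a u) hsq hlv]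
          · have hσT : σ ∈ T := ((herase σ hv).1 hσ).1
            rw [lkS_mul l (a v) (a u) (h.comm σ hσT u hu v hv) (hlu σ hσT u hu huv)]
            exact he2 (σ.erase v) u (Finset.mem_erase.2 ⟨huv, hu⟩) _
        · rw [he1 (σ.erase v) (fun h1 => hσ h1.1)]
          rfl
      · rfl
  -- the map Φ
  set Φ : (Finset V → A → ZMod 2) →ₗ[ZMod 2]
      ((Finset V → A → ZMod 2) × (Finset V → A → ZMod 2)) :=
    (lkP l (a v) v 0).prod (lkP l (a v) v 1) with hΦ
  have hinj : ∀ e : Finset V → A → ZMod 2, (∀ τ, τ ∉ T' → e τ = 0) → Φ e = 0 → e = 0 := by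
    intro e he h0
    have h1 : lkP l (a v) v 0 e = 0 := congrArg Prod.fst h0
    have h2 : lkP l (a v) v 1 e = 0 := congrArg Prod.snd h0
    funext τ x
    by_cases hv : τ ∈ T'
    · have hvτ : v ∉ τ := hv.1
      have key : ∀ i, l x = i → lkP l (a v) v i e (insert v τ) x = e τ x := by
        intro i hi
        rw [lkP_apply, if_pos (Finset.mem_insert_self v τ), Finset.erase_insert hvτ]
        unfold lkS
        rw [if_pos hi]
      have : l x = 0 ∨ l x = 1 := by
        generalize l x = y
        revert y; decide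
      rcases this with hx | hx
      · rw [← key 0 hx, h1]; rfl
      · rw [← key 1 hx, h2]; rfl
    · rw [he τ hv]; rfl
  have hmapIC : ∀ k, (IC a T' k).map Φ = (IC a T2 (k + 1)).prod (IC a T2 (k + 1)) := by
    intro k
    apply le_antisymm
    · rintro _ ⟨e, he, rfl⟩
      exact ⟨hP 0 k e he, hP 1 k e he⟩
    · rintro ⟨c0, c1⟩ ⟨hc0, hc1⟩
      dsimp only at hc0 hc1
      refine ⟨fun τ x => if v ∈ τ then 0 else if l x = 0 then c0 (insert v τ) x
        else c1 (insert v τ) x, ⟨fun τ hτ => ?_, fun τ u hu x => ?_⟩, ?_⟩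
      · funext x
        show (if v ∈ τ then (0 : ZMod 2) else if l x = 0 then c0 (insert v τ) x
          else c1 (insert v τ) x) = 0
        split_ifs with h1 h2
        · rfl
        · rw [hc0.1 (insert v τ)]
          · rfl
          · rintro ⟨h3, h4⟩
            apply hτ
            refine ⟨(hins τ h1).1 h3, ?_⟩
            rw [Finset.card_insert_of_notMem h1] at h4
            omega
        · rw [hc1.1 (insert v τ)]
          · rfl
          · rintro ⟨h3, h4⟩
            apply hτ
            refine ⟨(hins τ h1).1 h3, ?_⟩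
            rw [Finset.card_insert_of_notMem h1] at h4
            omega
      · show (if v ∈ τ then (0 : ZMod 2) else if l (x * a u) = 0 then c0 (insert v τ) (x * a u)
          else c1 (insert v τ) (x * a u)) = (if v ∈ τ then (0 : ZMod 2) else
          if l x = 0 then c0 (insert v τ) x else c1 (insert v τ) x)
        by_cases h1 : v ∈ τ
        · rw [if_pos h1, if_pos h1]
        · rw [if_neg h1, if_neg h1]
          by_cases h2 : insert v τ ∈ T2
          · have huv : u ≠ v := fun h3 => h1 (h3 ▸ hu)
            rw [hlu _ h2.1 u (Finset.mem_insert_of_mem hu) huv x,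
              hc0.2 (insert v τ) u (Finset.mem_insert_of_mem hu) x,
              hc1.2 (insert v τ) u (Finset.mem_insert_of_mem hu) x]
          · rw [hc0.1 (insert v τ) (fun h3 => h2 h3.1), hc1.1 (insert v τ) (fun h3 => h2 h3.1)]
            simp
      · have key : ∀ (i : ZMod 2) (c : Finset V → A → ZMod 2), c ∈ IC a T2 (k + 1) →
            (∀ (τ : Finset V) x, v ∉ τ → l x = i → (if v ∈ τ then (0 : ZMod 2) else
              if l x = 0 then c0 (insert v τ) x else c1 (insert v τ) x) = c (insert v τ) x) →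
            lkP l (a v) v i (fun τ x => if v ∈ τ then 0 else if l x = 0 then c0 (insert v τ) x
              else c1 (insert v τ) x) = c := by
          intro i c hc hcc
          funext σ x
          rw [lkP_apply]
          by_cases hv : v ∈ σ
          · rw [if_pos hv]
            have hlS : l (lkS l (a v) i x) = i := by
              unfold lkS
              split_ifs with h3
              · exact h3
              · rw [hlv]; exact zmod2_ne h3
            have := hcc (σ.erase v) (lkS l (a v) i x) (Finset.notMem_erase v σ) hlS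
            refine this.trans ?_
            rw [Finset.insert_erase hv]
            unfold lkS
            split_ifs with h3
            · rfl
            · exact hc.2 σ v hv x
          · rw [if_neg hv, hc.1 σ (fun h3 => hv h3.1.2)]; rfl
        refine Prod.ext ?_ ?_
        · refine key 0 c0 hc0 ?_
          intro τ x h1 h2
          rw [if_neg h1, if_pos h2]
        · refine key 1 c1 hc1 ?_
          intro τ x h1 h2
          rw [if_neg h1, if_neg]
          rw [h2]
          decide
  -- compatibility with the boundary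
  have hd : ∀ i k, ∀ e ∈ IC a T' k, lkP l (a v) v i (dT A T' e) =
      dT A T2 (lkP l (a v) v i e) := by
    rintro i k e ⟨he1, he2⟩
    funext σ x
    rw [lkP_apply]
    simp only [dT, LinearMap.coe_mk, AddHom.coe_mk]
    split_ifs with hv h1 h2 h2 h1
    · rw [Finset.sum_apply, Finset.sum_apply]
      have huniv : (Finset.univ \ σ.erase v : Finset V) = insert v (Finset.univ \ σ) := by
        ext u
        simp only [Finset.mem_sdiff, Finset.mem_univ, true_and, Finset.mem_erase,
          Finset.mem_insert, not_and]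
        constructor
        · intro h3
          by_cases huv : u = v
          · exact Or.inl huv
          · exact Or.inr (h3 huv)
        · rintro (h3 | h3) h4
          · exact absurd h3 h4
          · exact h3
      rw [huniv, Finset.sum_insert (by simp [hv])]
      rw [he1 (insert v (σ.erase v)) (fun h3 => h3.1.1 (Finset.mem_insert_self _ _))]
      simp only [Pi.zero_apply, zero_add]
      refine Finset.sum_congr rfl (fun u hu => ?_)
      rw [lkP_apply, if_pos (Finset.mem_insert_of_mem hv)]
      have huv : u ≠ v := by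
        rintro rfl
        exact (Finset.mem_sdiff.1 hu).2 hv
      rw [Finset.erase_insert_of_ne huv]
    · exact absurd ((herase σ hv).1 h1) h2
    · exact absurd ((herase σ hv).2 h2) h1
    · rfl
    · exact absurd h1.2 hv
    · rfl
  have hcd : ∀ k, cdim a T' k = 2 * cdim a T2 (k + 1) := by
    intro k
    unfold cdim
    have h1 := finrank_map_of_injOn Φ (IC a T' k)
      (fun e he => hinj e (fun τ hτ => he.1 τ (fun h3 => hτ h3.1)))
    rw [hmapIC, finrank_submodule_prod] at h1
    omega
  have hrk : ∀ k, rk a T' k = 2 * rk a T2 (k + 1) := by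
    intro k
    unfold rk
    have h1 := finrank_map_of_injOn Φ ((IC a T' k).map (dT A T')) (by
      rintro _ ⟨e, he, rfl⟩
      refine hinj _ (fun τ hτ => ?_)
      simp only [dT, LinearMap.coe_mk, AddHom.coe_mk]
      rw [if_neg hτ])
    have h2 : ((IC a T' k).map (dT A T')).map Φ =
        ((IC a T2 (k + 1)).map (dT A T2)).prod ((IC a T2 (k + 1)).map (dT A T2)) := by
      rw [← LinearMap.prodMap_map_prod, ← hmapIC]
      ext x
      constructor
      · rintro ⟨_, ⟨e, he, rfl⟩, rfl⟩
        refine ⟨Φ e, ⟨e, he, rfl⟩, ?_⟩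
        exact Prod.ext (hd 0 k e he).symm (hd 1 k e he).symm
      · rintro ⟨_, ⟨e, he, rfl⟩, rfl⟩
        refine ⟨dT A T' e, ⟨e, he, rfl⟩, ?_⟩
        exact Prod.ext (hd 0 k e he) (hd 1 k e he)
    rw [h2, finrank_submodule_prod] at h1
    omega
  have hfin : bettiF a T' k = 2 * bettiF a T2 (k + 1) := by
    unfold bettiF
    rw [hcd, hrk, hrk]
    ring
  omega

end SingerRA
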