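import Mathlib
import Pool.Agent.Lib_MP_394d50_gt.Defs2
import Pool.Agent.Lib_MP_394d50_gt.AOne
import Pool.Agent.Lib_MP_394d50_gt.ALink
import Pool.Agent.Lib_MP_394d50_gt.AReindex

/-! Piece ASUB: the edge subdivision for one marked group. -/

namespace SingerRA

namespace ASub

theorem OK_mono {V : Type} [DecidableEq V] {A : Type} [Group A] {a : V → A}
    {T T0 : Set (Finset V)} (h : OK a T) (hs : T0 ⊆ T) (hc : Conv T0) : OK a T0 := by
  obtain ⟨f, hf⟩ := h.lab
  exact ⟨hc, h.sq, fun σ hσ => h.comm σ (hs hσ), ⟨f, fun σ hσ => hf σ (hs hσ)⟩⟩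

theorem cliq_down {V : Type} {G : SimpleGraph V} {σ τ : Finset V} (h : τ ∈ cliq G)
    (hs : σ ⊆ τ) : σ ∈ cliq G := by
  have h1 : G.IsClique (τ : Set V) := h
  exact h1.subset (by exact_mod_cast hs)

theorem cliq_adj {V : Type} {G : SimpleGraph V} {σ : Finset V} (h : σ ∈ cliq G) {u v : V}
    (hu : u ∈ σ) (hv : v ∈ σ) (huv : u ≠ v) : G.Adj u v := by
  have h1 : G.IsClique (σ : Set V) := h
  exact h1 (by exact_mod_cast hu) (by exact_mod_cast hv) huv

theorem cliq_mk {V : Type} {G : SimpleGraph V} {σ : Finset V}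
    (h : ∀ u ∈ σ, ∀ v ∈ σ, u ≠ v → G.Adj u v) : σ ∈ cliq G := by
  intro u hu v hv huv
  exact h u (by exact_mod_cast hu) v (by exact_mod_cast hv) huv

theorem delF_down {V : Type} {G : SimpleGraph V} {s t : V} {σ τ : Finset V}
    (hσ : σ ∈ delF G s t) (hs : τ ⊆ σ) : τ ∈ delF G s t :=
  ⟨cliq_down hσ.1 hs, fun h => hσ.2 ⟨hs h.1, hs h.2⟩⟩

end ASub

open ASub

theorem bettiF_del {V : Type} [Fintype V] [DecidableEq V] {A : Type} [Group A] [Finite A]
    (G : SimpleGraph V) (s t : V) (hst : G.Adj s t) (a : V → A) (h : OK a (cliq G)) (k : ℕ) :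
    bettiF a (delF G s t) (k + 1) ≤ bettiF a (cliq G) (k + 1) + bettiF a (lkF G s t) k := by
  have hne : s ≠ t := G.ne_of_adj hst
  have h1 := bettiF_sub_le a (cliq G) (delF G s t) h.conv (fun σ hσ => hσ.1)
    (fun σ hσ τ _ hτσ => delF_down hσ hτσ) (k + 1)
  -- the family of the cliques containing `t`
  have hT' : OK a {σ : Finset V | σ ∈ cliq G ∧ t ∈ σ} := OK_mono h (fun σ hσ => hσ.1)
    (fun σ hσ τ hτ ρ hσρ hρτ => ⟨cliq_down hτ.1 hρτ, hσρ hσ.2⟩)
  have h2 := bettiF_link a {σ : Finset V | σ ∈ cliq G ∧ t ∈ σ} hT' s (k + 1)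
  have hT'' : OK a {ρ : Finset V | s ∉ ρ ∧ insert s ρ ∈ cliq G} := OK_mono h
    (fun σ hσ => cliq_down hσ.2 (Finset.subset_insert _ _))
    (fun σ hσ τ hτ ρ hσρ hρτ => ⟨fun hc => hτ.1 (hρτ hc),
      cliq_down hτ.2 (Finset.insert_subset_insert _ hρτ)⟩)
  have h3 := bettiF_link a {ρ : Finset V | s ∉ ρ ∧ insert s ρ ∈ cliq G} hT'' t k
  have e1 : cliq G \ delF G s t =
      {σ : Finset V | σ ∈ {σ : Finset V | σ ∈ cliq G ∧ t ∈ σ} ∧ s ∈ σ} := by
    ext σ
    constructor
    · rintro ⟨h4, h5⟩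
      have h6 : s ∈ σ ∧ t ∈ σ := by
        by_contra hc
        exact h5 ⟨h4, hc⟩
      exact ⟨⟨h4, h6.2⟩, h6.1⟩
    · rintro ⟨⟨h4, h5⟩, h6⟩
      exact ⟨h4, fun hc => hc.2 ⟨h6, h5⟩⟩
  have e2 : {τ : Finset V | s ∉ τ ∧ insert s τ ∈ {σ : Finset V | σ ∈ cliq G ∧ t ∈ σ}} =
      {σ : Finset V | σ ∈ {ρ : Finset V | s ∉ ρ ∧ insert s ρ ∈ cliq G} ∧ t ∈ σ} := by
    ext τ
    constructor
    · rintro ⟨h4, h5, h6⟩
      refine ⟨⟨h4, h5⟩, ?_⟩
      rcases Finset.mem_insert.mp h6 with h7 | h7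
      · exact absurd h7.symm hne
      · exact h7
    · rintro ⟨⟨h4, h5⟩, h6⟩
      exact ⟨h4, h5, Finset.mem_insert_of_mem h6⟩
  have e3 : {τ : Finset V | t ∉ τ ∧ insert t τ ∈ {ρ : Finset V | s ∉ ρ ∧ insert s ρ ∈ cliq G}} =
      lkF G s t := by
    ext ρ
    constructor
    · rintro ⟨h4, h5, h6⟩
      refine ⟨cliq_down h6 ((Finset.subset_insert _ _).trans (Finset.subset_insert _ _)), ?_⟩
      intro v hv
      have hvs : s ≠ v := by
        rintro rfl
        exact h5 (Finset.mem_insert_of_mem hv)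
      have hvt : t ≠ v := by
        rintro rfl
        exact h4 hv
      exact ⟨cliq_adj h6 (Finset.mem_insert_self _ _)
          (Finset.mem_insert_of_mem (Finset.mem_insert_of_mem hv)) hvs,
        cliq_adj h6 (Finset.mem_insert_of_mem (Finset.mem_insert_self _ _))
          (Finset.mem_insert_of_mem (Finset.mem_insert_of_mem hv)) hvt⟩
    · rintro ⟨h4, h5⟩
      have ht : t ∉ ρ := fun hc => G.loopless.irrefl t (h5 t hc).2
      have hs : s ∉ ρ := fun hc => G.loopless.irrefl s (h5 s hc).1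
      refine ⟨ht, ?_, ?_⟩
      · intro hc
        rcases Finset.mem_insert.mp hc with h6 | h6
        · exact hne h6
        · exact hs h6
      · apply cliq_mk
        intro u hu v hv huv
        rw [Finset.mem_insert, Finset.mem_insert] at hu hv
        rcases hu with rfl | rfl | hu <;> rcases hv with rfl | rfl | hv
        · exact absurd rfl huv
        · exact hst
        · exact (h5 v hv).1
        · exact hst.symm
        · exact absurd rfl huv
        · exact (h5 v hv).2
        · exact (h5 u hu).1.symm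
        · exact (h5 u hu).2.symm
        · exact cliq_adj h4 hu hv huv
  rw [e1] at h1
  rw [e2] at h2
  rw [e3] at h3
  linarith

theorem bettiF_del_zero {V : Type} [Fintype V] [DecidableEq V] {A : Type} [Group A] [Finite A]
    (G : SimpleGraph V) (s t : V) (hst : G.Adj s t) (a : V → A) (h : OK a (cliq G)) :
    bettiF a (delF G s t) 0 ≤ bettiF a (cliq G) 0 := by
  have hne : s ≠ t := G.ne_of_adj hst
  have h1 := bettiF_sub_le a (cliq G) (delF G s t) h.conv (fun σ hσ => hσ.1)
    (fun σ hσ τ _ hτσ => delF_down hσ hτσ) 0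
  have h2 : bettiF a (cliq G \ delF G s t) (0 + 1) = 0 := by
    apply bettiF_eq_zero
    rintro σ ⟨h4, h5⟩ h6
    have h7 : s ∈ σ ∧ t ∈ σ := by
      by_contra hc
      exact h5 ⟨h4, hc⟩
    have h8 : ({s, t} : Finset V) ⊆ σ := by
      intro x hx
      rw [Finset.mem_insert, Finset.mem_singleton] at hx
      rcases hx with rfl | rfl
      · exact h7.1
      · exact h7.2
    have h9 := Finset.card_le_card h8
    rw [Finset.card_pair hne] at h9
    omega
  linarith

namespace ASub

theorem exists_pre {V : Type} [DecidableEq (Option V)] {σ : Finset (Option V)}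
    (h : none ∉ σ) : ∃ σ' : Finset V, σ'.map Function.Embedding.some = σ := by
  refine ⟨Finset.eraseNone σ, ?_⟩
  rw [Finset.map_some_eraseNone, Finset.erase_eq_of_notMem h]

theorem map_cliq {V : Type} {G : SimpleGraph V} {s t : V} (hst : s ≠ t) {σ' : Finset V} :
    σ'.map Function.Embedding.some ∈ cliq (subdivG G s t) ↔ σ' ∈ delF G s t := by
  constructor
  · intro h
    refine ⟨?_, ?_⟩
    · apply cliq_mk
      intro u hu v hv huv
      have h1 := cliq_adj h (Finset.mem_map_of_mem _ hu) (Finset.mem_map_of_mem _ hv)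
        (fun hc => huv (Function.Embedding.some.injective hc))
      exact h1.1
    · rintro ⟨hs, ht⟩
      have h1 := cliq_adj h (Finset.mem_map_of_mem _ hs) (Finset.mem_map_of_mem _ ht)
        (fun hc => hst (Function.Embedding.some.injective hc))
      exact h1.2.1 ⟨rfl, rfl⟩
  · intro h
    apply cliq_mk
    intro x hx y hy hxy
    obtain ⟨u, hu, rfl⟩ := Finset.mem_map.mp hx
    obtain ⟨v, hv, rfl⟩ := Finset.mem_map.mp hy
    have huv : u ≠ v := fun hc => hxy (by rw [hc])
    refine ⟨cliq_adj h.1 hu hv huv, ?_, ?_⟩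
    · rintro ⟨rfl, rfl⟩
      exact h.2 ⟨hu, hv⟩
    · rintro ⟨rfl, rfl⟩
      exact h.2 ⟨hv, hu⟩

end ASub

theorem bettiF_subdiv {V : Type} [Fintype V] [DecidableEq V] [Fintype (Option V)]
    [DecidableEq (Option V)] {A : Type} [Group A] [Finite A]
    (G : SimpleGraph V) (s t : V) (hst : G.Adj s t) (a : Option V → A)
    (h : OK a (cliq (subdivG G s t))) (k : ℕ) :
    bettiF a (cliq (subdivG G s t)) (k + 1) ≤
      bettiF (fun v => a (some v)) (delF G s t) (k + 1) +
        bettiF (fun v => a (some v)) (slF G s t) k := by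
  have hne : s ≠ t := G.ne_of_adj hst
  have h1 := bettiF_le_add a (cliq (subdivG G s t)) {σ | σ ∈ cliq (subdivG G s t) ∧ none ∉ σ}
    h.conv (fun σ hσ => hσ.1) (fun σ hσ τ hτ hτσ => ⟨hτ, fun hc => hσ.2 (hτσ hc)⟩) (k + 1)
  have e1 : {σ | σ ∈ cliq (subdivG G s t) ∧ none ∉ σ} =
      (fun σ : Finset V => σ.map Function.Embedding.some) '' (delF G s t) := by
    ext σ
    constructor
    · rintro ⟨h2, h3⟩
      obtain ⟨σ', rfl⟩ := exists_pre h3
      exact ⟨σ', (map_cliq hne).mp h2, rfl⟩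
    · rintro ⟨σ', h2, rfl⟩
      refine ⟨(map_cliq hne).mpr h2, ?_⟩
      intro hc
      obtain ⟨v, -, hv⟩ := Finset.mem_map.mp hc
      exact Option.some_ne_none v hv
  have e2 : cliq (subdivG G s t) \ {σ | σ ∈ cliq (subdivG G s t) ∧ none ∉ σ} =
      {σ | σ ∈ cliq (subdivG G s t) ∧ none ∈ σ} := by
    ext σ
    constructor
    · rintro ⟨h2, h3⟩
      refine ⟨h2, ?_⟩
      by_contra hc
      exact h3 ⟨h2, hc⟩
    · rintro ⟨h2, h3⟩
      exact ⟨h2, fun hc => hc.2 h3⟩
  have h2 := bettiF_link a (cliq (subdivG G s t)) h none k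
  have e3 : {τ : Finset (Option V) | none ∉ τ ∧ insert none τ ∈ cliq (subdivG G s t)} =
      (fun σ : Finset V => σ.map Function.Embedding.some) '' (slF G s t) := by
    ext τ
    constructor
    · rintro ⟨h3, h4⟩
      obtain ⟨τ', rfl⟩ := exists_pre h3
      refine ⟨τ', ⟨(map_cliq hne).mp (cliq_down h4 (Finset.subset_insert _ _)), ?_⟩, rfl⟩
      intro v hv
      have h5 := cliq_adj h4 (Finset.mem_insert_self _ _)
        (Finset.mem_insert_of_mem (Finset.mem_map_of_mem Function.Embedding.some hv))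
        (Option.some_ne_none v).symm
      exact h5
    · rintro ⟨τ', ⟨h3, h4⟩, rfl⟩
      refine ⟨?_, ?_⟩
      · intro hc
        obtain ⟨v, -, hv⟩ := Finset.mem_map.mp hc
        exact Option.some_ne_none v hv
      · apply cliq_mk
        intro x hx y hy hxy
        rcases Finset.mem_insert.mp hx with rfl | hx
        · rcases Finset.mem_insert.mp hy with rfl | hy
          · exact absurd rfl hxy
          · obtain ⟨v, hv, rfl⟩ := Finset.mem_map.mp hy
            exact h4 v hv
        · rcases Finset.mem_insert.mp hy with rfl | hy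
          · obtain ⟨v, hv, rfl⟩ := Finset.mem_map.mp hx
            exact SimpleGraph.Adj.symm (show (subdivG G s t).Adj none (some v) from h4 v hv)
          · exact cliq_adj ((map_cliq hne).mpr h3) hx hy hxy
  have h3 := bettiF_reindex Function.Embedding.some a (delF G s t) (k + 1)
  have h4 := bettiF_reindex Function.Embedding.some a (slF G s t) k
  rw [e2, e1, h3] at h1
  rw [e3, h4] at h2
  have h5 : (fun v => a (Function.Embedding.some v)) = fun v => a (some v) := rfl
  rw [h5] at h1 h2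
  linarith

theorem bettiF_subdiv_zero {V : Type} [Fintype V] [DecidableEq V] [Fintype (Option V)]
    [DecidableEq (Option V)] {A : Type} [Group A] [Finite A]
    (G : SimpleGraph V) (s t : V) (hst : G.Adj s t) (a : Option V → A)
    (h : OK a (cliq (subdivG G s t))) :
    bettiF a (cliq (subdivG G s t)) 0 ≤ bettiF (fun v => a (some v)) (delF G s t) 0 := by
  have hne : s ≠ t := G.ne_of_adj hst
  have h1 := bettiF_le_add a (cliq (subdivG G s t)) {σ | σ ∈ cliq (subdivG G s t) ∧ none ∉ σ}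
    h.conv (fun σ hσ => hσ.1) (fun σ hσ τ hτ hτσ => ⟨hτ, fun hc => hσ.2 (hτσ hc)⟩) 0
  have e1 : {σ | σ ∈ cliq (subdivG G s t) ∧ none ∉ σ} =
      (fun σ : Finset V => σ.map Function.Embedding.some) '' (delF G s t) := by
    ext σ
    constructor
    · rintro ⟨h2, h3⟩
      obtain ⟨σ', rfl⟩ := exists_pre h3
      exact ⟨σ', (map_cliq hne).mp h2, rfl⟩
    · rintro ⟨σ', h2, rfl⟩
      refine ⟨(map_cliq hne).mpr h2, ?_⟩
      intro hc
      obtain ⟨v, -, hv⟩ := Finset.mem_map.mp hc
      exact Option.some_ne_none v hv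
  have h2 : bettiF a (cliq (subdivG G s t) \ {σ | σ ∈ cliq (subdivG G s t) ∧ none ∉ σ}) 0 = 0 := by
    apply bettiF_eq_zero
    rintro σ ⟨h2, h3⟩ h4
    rw [Finset.card_eq_zero] at h4
    subst h4
    exact h3 ⟨h2, Finset.notMem_empty _⟩
  have h3 := bettiF_reindex Function.Embedding.some a (delF G s t) 0
  rw [h2, e1, h3] at h1
  have h5 : (fun v => a (Function.Embedding.some v)) = fun v => a (some v) := rfl
  rw [h5] at h1
  linarith

end SingerRA
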