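import Mathlib
import Pool.Agent.Lib_MP_394d50_gt.Defs2
import Pool.Agent.Lib_MP_394d50_gt.AOne
import Pool.Agent.Lib_MP_394d50_gt.AInv

/-! Piece ASUSP: families `{τ, τ ∪ s, τ ∪ t}`. -/

namespace SingerRA

variable {V : Type} [Fintype V] [DecidableEq V] {A : Type} [Group A] [Finite A]

namespace ASuspAux

/-- Restriction to one set injects the chains when only this set occurs. -/
theorem cdim_le_one (a : V → A) (T : Set (Finset V)) (k : ℕ) (τ : Finset V)
    (h : ∀ σ ∈ T, σ.card = k → σ = τ) :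
    Module.finrank (ZMod 2) (IC a T k) ≤ Module.finrank (ZMod 2) (InvF a τ) := by
  classical
  haveI := Fintype.ofFinite A
  let f : IC a T k →ₗ[ZMod 2] InvF a τ :=
    { toFun := fun c => ⟨c.1 τ, fun v hv x => c.2.2 τ v hv x⟩
      map_add' := fun _ _ => rfl
      map_smul' := fun _ _ => rfl }
  apply LinearMap.finrank_le_finrank_of_injective (f := f)
  intro c d hcd
  apply Subtype.ext
  funext σ
  by_cases hσ : σ ∈ T ∧ σ.card = k
  · rw [h σ hσ.1 hσ.2]
    exact congrArg Subtype.val hcd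
  · rw [c.2.1 σ hσ, d.2.1 σ hσ]

theorem cdim_le_two (a : V → A) (T : Set (Finset V)) (k : ℕ) (τ τ' : Finset V)
    (h : ∀ σ ∈ T, σ.card = k → σ = τ ∨ σ = τ') :
    Module.finrank (ZMod 2) (IC a T k) ≤
      Module.finrank (ZMod 2) (InvF a τ) + Module.finrank (ZMod 2) (InvF a τ') := by
  classical
  haveI := Fintype.ofFinite A
  let f : IC a T k →ₗ[ZMod 2] (InvF a τ) × (InvF a τ') :=
    { toFun := fun c => (⟨c.1 τ, fun v hv x => c.2.2 τ v hv x⟩,
        ⟨c.1 τ', fun v hv x => c.2.2 τ' v hv x⟩)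
      map_add' := fun _ _ => rfl
      map_smul' := fun _ _ => rfl }
  rw [← Module.finrank_prod]
  apply LinearMap.finrank_le_finrank_of_injective (f := f)
  intro c d hcd
  have h1 : c.1 τ = d.1 τ := congrArg (fun p => (Prod.fst p).1) hcd
  have h2 : c.1 τ' = d.1 τ' := congrArg (fun p => (Prod.snd p).1) hcd
  apply Subtype.ext
  funext σ
  by_cases hσ : σ ∈ T ∧ σ.card = k
  · rcases h σ hσ.1 hσ.2 with h3 | h3
    · rw [h3]; exact h1
    · rw [h3]; exact h2
  · rw [c.2.1 σ hσ, d.2.1 σ hσ]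

/-- The single chain. -/
theorem single_mem (a : V → A) (T : Set (Finset V)) (σ : Finset V) (hσ : σ ∈ T)
    (f : A → ZMod 2) (hf : f ∈ InvF a σ) :
    (Pi.single σ f : Finset V → A → ZMod 2) ∈ IC a T σ.card := by
  refine ⟨fun ρ hρ => ?_, fun ρ v hv x => ?_⟩
  · rw [Pi.single_apply, if_neg]
    rintro rfl
    exact hρ ⟨hσ, rfl⟩
  · rw [Pi.single_apply]
    split_ifs with h
    · subst h
      exact hf v hv x
    · rfl

theorem dT_single (T : Set (Finset V)) (τ : Finset V) (hτ : τ ∈ T) (s : V) (hs : s ∉ τ)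
    (f : A → ZMod 2) : dT A T (Pi.single (insert s τ) f) τ = f := by
  classical
  show (if τ ∈ T then ∑ v ∈ Finset.univ \ τ,
    (Pi.single (insert s τ) f : Finset V → A → ZMod 2) (insert v τ) else 0) = f
  rw [if_pos hτ, Finset.sum_eq_single s]
  · rw [Pi.single_eq_same]
  · intro v hv hvs
    rw [Pi.single_apply, if_neg]
    intro h
    have h1 : v ∈ insert s τ := h ▸ Finset.mem_insert_self v τ
    rcases Finset.mem_insert.mp h1 with h2 | h2
    · exact hvs h2
    · exact (Finset.mem_sdiff.mp hv).2 h2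
  · intro h
    exact absurd (Finset.mem_sdiff.mpr ⟨Finset.mem_univ s, hs⟩) h

theorem rk_ge (a : V → A) (T : Set (Finset V)) (τ : Finset V) (hτ : τ ∈ T) (s t : V)
    (hs : s ∉ τ) (ht : t ∉ τ) (hsT : insert s τ ∈ T) (htT : insert t τ ∈ T) :
    Module.finrank (ZMod 2) (InvF a (insert s τ) ⊔ InvF a (insert t τ) :
      Submodule (ZMod 2) (A → ZMod 2)) ≤
    Module.finrank (ZMod 2) ((IC a T (τ.card + 1)).map (dT A T)) := by
  classical
  haveI := Fintype.ofFinite A
  let ev : (Finset V → A → ZMod 2) →ₗ[ZMod 2] (A → ZMod 2) := LinearMap.proj τ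
  have h1 : (InvF a (insert s τ) ⊔ InvF a (insert t τ) : Submodule (ZMod 2) (A → ZMod 2)) ≤
      ((IC a T (τ.card + 1)).map (dT A T)).map ev := by
    apply sup_le
    · intro f hf
      refine ⟨dT A T (Pi.single (insert s τ) f), ⟨Pi.single (insert s τ) f, ?_, rfl⟩, ?_⟩
      · have := single_mem a T (insert s τ) hsT f hf
        rwa [Finset.card_insert_of_notMem hs] at this
      · exact dT_single T τ hτ s hs f
    · intro f hf
      refine ⟨dT A T (Pi.single (insert t τ) f), ⟨Pi.single (insert t τ) f, ?_, rfl⟩, ?_⟩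
      · have := single_mem a T (insert t τ) htT f hf
        rwa [Finset.card_insert_of_notMem ht] at this
      · exact dT_single T τ hτ t ht f
  exact (Submodule.finrank_mono h1).trans (Submodule.finrank_map_le _ _)

theorem finrank_inf_le (a : V → A) (σ σ' : Finset V) (s t : V) (hs : s ∈ σ) (ht : t ∈ σ') :
    Module.finrank (ZMod 2) (InvF a σ ⊓ InvF a σ' : Submodule (ZMod 2) (A → ZMod 2)) ≤
      (Subgroup.closure {a s, a t}).index := by
  classical
  haveI := Fintype.ofFinite A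
  set H : Subgroup A := Subgroup.closure {a s, a t} with hH
  have hinv : ∀ f ∈ (InvF a σ ⊓ InvF a σ' : Submodule (ZMod 2) (A → ZMod 2)),
      ∀ h ∈ H, ∀ x, f (x * h) = f x := by
    intro f hf h hh
    induction hh using Subgroup.closure_induction with
    | mem y hy =>
      intro x
      rcases hy with hy | hy
      · rw [hy]; exact hf.1 s hs x
      · rw [Set.mem_singleton_iff.mp hy]; exact hf.2 t ht x
    | one => intro x; rw [mul_one]
    | mul y z _ _ hy hz => intro x; rw [← mul_assoc, hz, hy]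
    | inv y _ hy =>
      intro x
      have := hy (x * y⁻¹)
      rw [inv_mul_cancel_right] at this
      exact this.symm
  let f : (InvF a σ ⊓ InvF a σ' : Submodule (ZMod 2) (A → ZMod 2)) →ₗ[ZMod 2]
      (A ⧸ H → ZMod 2) :=
    { toFun := fun c q => c.1 (Quotient.out q)
      map_add' := fun _ _ => rfl
      map_smul' := fun _ _ => rfl }
  have hcard : Module.finrank (ZMod 2) (A ⧸ H → ZMod 2) = H.index := by
    haveI := Fintype.ofFinite (A ⧸ H)
    rw [Module.finrank_fintype_fun_eq_card, Subgroup.index, Nat.card_eq_fintype_card]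
  rw [← hcard]
  apply LinearMap.finrank_le_finrank_of_injective (f := f)
  intro c d hcd
  apply Subtype.ext
  funext x
  have h1 : c.1 (Quotient.out (x : A ⧸ H)) = d.1 (Quotient.out (x : A ⧸ H)) :=
    congrFun hcd (x : A ⧸ H)
  have h2 : (Quotient.out (x : A ⧸ H))⁻¹ * x ∈ H := by
    rw [← QuotientGroup.eq]
    exact Quotient.out_eq' _
  have h3 := hinv c.1 c.2 _ h2 (Quotient.out (x : A ⧸ H))
  have h4 := hinv d.1 d.2 _ h2 (Quotient.out (x : A ⧸ H))
  rw [mul_inv_cancel_left] at h3 h4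
  rw [h3, h4, h1]

end ASuspAux

open ASuspAux

theorem bettiF_three (a : V → A) (s t : V) (hst : s ≠ t) (τ : Finset V) (hs : s ∉ τ)
    (ht : t ∉ τ) (T : Set (Finset V)) (hT : T = {τ, insert s τ, insert t τ}) (h : OK a T)
    (k : ℕ) : bettiF a T k ≤ (Subgroup.closure {a s, a t}).index := by
  classical
  have hcs : (insert s τ).card = τ.card + 1 := Finset.card_insert_of_notMem hs
  have hct : (insert t τ).card = τ.card + 1 := Finset.card_insert_of_notMem ht
  have hτT : τ ∈ T := by rw [hT]; exact Or.inl rfl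
  have hsT : insert s τ ∈ T := by rw [hT]; exact Or.inr (Or.inl rfl)
  have htT : insert t τ ∈ T := by rw [hT]; exact Or.inr (Or.inr rfl)
  have hmem : ∀ σ ∈ T, σ = τ ∨ σ = insert s τ ∨ σ = insert t τ := by
    intro σ hσ
    rw [hT] at hσ
    exact hσ
  have f1 := finrank_InvF a T h τ hτT
  have f2 := finrank_InvF a T h _ hsT
  have f3 := finrank_InvF a T h _ htT
  rw [hcs] at f2
  rw [hct] at f3
  have hpos : 0 < 2 ^ τ.card := by positivity
  have f2' : Module.finrank (ZMod 2) (InvF a (insert s τ)) * 2 =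
      Module.finrank (ZMod 2) (InvF a τ) := by
    apply Nat.eq_of_mul_eq_mul_right hpos
    rw [f1, ← f2, pow_succ]; ring
  have f3' : Module.finrank (ZMod 2) (InvF a (insert t τ)) * 2 =
      Module.finrank (ZMod 2) (InvF a τ) := by
    apply Nat.eq_of_mul_eq_mul_right hpos
    rw [f1, ← f3, pow_succ]; ring
  have hsum := Submodule.finrank_sup_add_finrank_inf_eq (InvF a (insert s τ))
    (InvF a (insert t τ))
  have hinf := finrank_inf_le a (insert s τ) (insert t τ) s t (Finset.mem_insert_self s τ)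
    (Finset.mem_insert_self t τ)
  have hrk := rk_ge a T τ hτT s t hs ht hsT htT
  by_cases hk : k = τ.card
  · subst hk
    have h1 : Module.finrank (ZMod 2) (IC a T τ.card) ≤
        Module.finrank (ZMod 2) (InvF a τ) := by
      apply cdim_le_one
      intro σ hσ hc
      rcases hmem σ hσ with h2 | h2 | h2
      · exact h2
      · rw [h2, hcs] at hc; omega
      · rw [h2, hct] at hc; omega
    unfold bettiF cdim rk
    have h3 : (0 : ℤ) ≤ (Module.finrank (ZMod 2) ((IC a T τ.card).map (dT A T)) : ℤ) :=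
      Int.natCast_nonneg _
    push_cast at *
    omega
  · by_cases hk' : k = τ.card + 1
    · subst hk'
      have h1 : Module.finrank (ZMod 2) (IC a T (τ.card + 1)) ≤
          Module.finrank (ZMod 2) (InvF a (insert s τ)) +
            Module.finrank (ZMod 2) (InvF a (insert t τ)) := by
        apply cdim_le_two
        intro σ hσ hc
        rcases hmem σ hσ with h2 | h2 | h2
        · rw [h2] at hc; omega
        · exact Or.inl h2
        · exact Or.inr h2
      unfold bettiF cdim rk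
      have h3 : (0 : ℤ) ≤
          (Module.finrank (ZMod 2) ((IC a T (τ.card + 1 + 1)).map (dT A T)) : ℤ) :=
        Int.natCast_nonneg _
      omega
    · rw [bettiF_eq_zero a T k]
      · exact Int.natCast_nonneg _
      · intro σ hσ
        rcases hmem σ hσ with h2 | h2 | h2
        · rw [h2]; omega
        · rw [h2, hcs]; omega
        · rw [h2, hct]; omega

theorem bettiF_susp_aux (a : V → A) (s t : V) (hst : s ≠ t) (k : ℕ) (N : ℕ) :
    ∀ (T : Set (Finset V)) (_ : OK a T)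
    (_ : ∀ σ ∈ T, ¬ (s ∈ σ ∧ t ∈ σ))
    (_ : ∀ σ ∈ T, s ∈ σ → σ.erase s ∈ T ∧ insert t (σ.erase s) ∈ T)
    (_ : ∀ σ ∈ T, t ∈ σ → σ.erase t ∈ T ∧ insert s (σ.erase t) ∈ T)
    (_ : ∀ σ ∈ T, s ∉ σ → t ∉ σ → insert s σ ∈ T ∧ insert t σ ∈ T),
    {τ | τ ∈ T ∧ s ∉ τ ∧ t ∉ τ}.ncard = N →
    bettiF a T k ≤ N * (Subgroup.closure {a s, a t}).index := by
  classical
  induction N with
  | zero =>
    intro T h hne hs ht hi hN
    have he : {τ | τ ∈ T ∧ s ∉ τ ∧ t ∉ τ} = (∅ : Set (Finset V)) :=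
      (Set.ncard_eq_zero (Set.toFinite _)).mp hN
    rw [bettiF_eq_zero a T k]
    · simp
    · intro σ hσ
      exfalso
      by_cases h1 : s ∈ σ
      · have h2 : σ.erase s ∈ {τ | τ ∈ T ∧ s ∉ τ ∧ t ∉ τ} :=
          ⟨(hs σ hσ h1).1, Finset.notMem_erase s σ,
            fun h3 => hne σ hσ ⟨h1, Finset.mem_of_mem_erase h3⟩⟩
        rw [he] at h2
        exact h2
      · by_cases h3 : t ∈ σ
        · have h2 : σ.erase t ∈ {τ | τ ∈ T ∧ s ∉ τ ∧ t ∉ τ} :=
            ⟨(ht σ hσ h3).1, fun h4 => h1 (Finset.mem_of_mem_erase h4),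
              Finset.notMem_erase t σ⟩
          rw [he] at h2
          exact h2
        · have h2 : σ ∈ {τ | τ ∈ T ∧ s ∉ τ ∧ t ∉ τ} := ⟨hσ, h1, h3⟩
          rw [he] at h2
          exact h2
  | succ N ih =>
    intro T h hne hs ht hi hN
    have hfin : {τ | τ ∈ T ∧ s ∉ τ ∧ t ∉ τ}.Finite := Set.toFinite _
    have hnonempty : {τ | τ ∈ T ∧ s ∉ τ ∧ t ∉ τ}.Nonempty := by
      rw [← Set.ncard_pos hfin]; omega
    obtain ⟨τ, hτ, hmax⟩ := Set.exists_max_image _ (fun σ : Finset V => σ.card) hfin hnonempty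
    obtain ⟨hτT, hsτ, htτ⟩ := hτ
    -- the projection
    set p : Finset V → Finset V := fun σ => (σ.erase s).erase t with hp
    have hpmem : ∀ σ ∈ T, p σ ∈ {τ | τ ∈ T ∧ s ∉ τ ∧ t ∉ τ} := by
      intro σ hσ
      by_cases h1 : s ∈ σ
      · have ht' : t ∉ σ := fun h3 => hne σ hσ ⟨h1, h3⟩
        have h2 : p σ = σ.erase s := by
          show (σ.erase s).erase t = σ.erase s
          exact Finset.erase_eq_of_notMem (fun h3 => ht' (Finset.mem_of_mem_erase h3))
        rw [h2]
        exact ⟨(hs σ hσ h1).1, Finset.notMem_erase s σ,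
            fun h3 => ht' (Finset.mem_of_mem_erase h3)⟩
      · have h2 : p σ = σ.erase t := by
          show (σ.erase s).erase t = σ.erase t
          rw [Finset.erase_eq_of_notMem h1]
        rw [h2]
        by_cases h3 : t ∈ σ
        · exact ⟨(ht σ hσ h3).1, fun h4 => h1 (Finset.mem_of_mem_erase h4),
              Finset.notMem_erase t σ⟩
        · rw [Finset.erase_eq_of_notMem h3]
          exact ⟨hσ, h1, h3⟩
    have hpm : ∀ σ ρ : Finset V, σ ⊆ ρ → p σ ⊆ p ρ := by
      intro σ ρ hσρ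
      exact Finset.erase_subset_erase _ (Finset.erase_subset_erase _ hσρ)
    have hpτ : p τ = τ := by
      show (τ.erase s).erase t = τ
      rw [Finset.erase_eq_of_notMem hsτ, Finset.erase_eq_of_notMem htτ]
    have hp1 : ∀ σ, p (σ.erase s) = p σ := by
      intro σ
      show ((σ.erase s).erase s).erase t = (σ.erase s).erase t
      rw [Finset.erase_idem]
    have hp2 : ∀ σ, p (σ.erase t) = p σ := by
      intro σ
      show ((σ.erase t).erase s).erase t = (σ.erase s).erase t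
      rw [Finset.erase_right_comm, Finset.erase_idem]
      rw [Finset.erase_right_comm]
    have hp3 : ∀ σ, p (insert s σ) = p σ := by
      intro σ
      rw [← hp1 (insert s σ), ← hp1 σ]
      congr 1
      ext v
      simp only [Finset.mem_erase, Finset.mem_insert]
      tauto
    have hp4 : ∀ σ, p (insert t σ) = p σ := by
      intro σ
      rw [← hp2 (insert t σ), ← hp2 σ]
      congr 1
      ext v
      simp only [Finset.mem_erase, Finset.mem_insert]
      tauto
    set T1 : Set (Finset V) := {σ | σ ∈ T ∧ p σ ≠ τ} with hT1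
    have hsub : T1 ⊆ T := fun σ hσ => hσ.1
    have hdown : ∀ σ ∈ T1, ∀ ρ ∈ T, ρ ⊆ σ → ρ ∈ T1 := by
      intro σ hσ ρ hρ hρσ
      refine ⟨hρ, fun h1 => hσ.2 ?_⟩
      have h2 : τ ⊆ p σ := by rw [← h1]; exact hpm ρ σ hρσ
      have h3 := hmax (p σ) (hpmem σ hσ.1)
      exact (Finset.eq_of_subset_of_card_le h2 h3).symm
    have hle := bettiF_le_add a T T1 h.conv hsub hdown k
    have hOK1 : OK a T1 := by
      refine ⟨?_, h.sq, fun σ hσ => h.comm σ (hsub hσ), ?_⟩
      · intro σ hσ ρ hρ θ h1 h2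
        exact hdown ρ hρ θ (h.conv σ (hsub hσ) ρ (hsub hρ) θ h1 h2) h2
      · obtain ⟨f, hf⟩ := h.lab
        exact ⟨f, fun σ hσ => hf σ (hsub hσ)⟩
    have hOK2 : OK a (T \ T1) := by
      refine ⟨?_, h.sq, fun σ hσ => h.comm σ hσ.1, ?_⟩
      · intro σ hσ ρ hρ θ h1 h2
        refine ⟨h.conv σ hσ.1 ρ hρ.1 θ h1 h2, fun h3 => hσ.2 ?_⟩
        exact hdown θ h3 σ hσ.1 h1
      · obtain ⟨f, hf⟩ := h.lab
        exact ⟨f, fun σ hσ => hf σ hσ.1⟩
    have hT2 : T \ T1 = {τ, insert s τ, insert t τ} := by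
      ext σ
      constructor
      · rintro ⟨h1, h2⟩
        have h3 : p σ = τ := by
          by_contra h4
          exact h2 ⟨h1, h4⟩
        by_cases h4 : s ∈ σ
        · right; left
          have h5 : t ∉ σ := fun h6 => hne σ h1 ⟨h4, h6⟩
          have h6 : p σ = σ.erase s := by
            show (σ.erase s).erase t = σ.erase s
            exact Finset.erase_eq_of_notMem (fun h3 => h5 (Finset.mem_of_mem_erase h3))
          rw [← h3, h6, Finset.insert_erase h4]
        · have h6 : p σ = σ.erase t := by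
            show (σ.erase s).erase t = σ.erase t
            rw [Finset.erase_eq_of_notMem h4]
          by_cases h5 : t ∈ σ
          · right; right
            show σ = insert t τ
            rw [← h3, h6, Finset.insert_erase h5]
          · left
            rw [← h3, h6, Finset.erase_eq_of_notMem h5]
      · intro h1
        have h2 := hi τ hτT hsτ htτ
        rcases h1 with h1 | h1 | h1
        · rw [h1]
          exact ⟨hτT, fun h3 => h3.2 hpτ⟩
        · rw [h1]
          exact ⟨h2.1, fun h3 => h3.2 (by rw [hp3, hpτ])⟩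
        · rw [Set.mem_singleton_iff.mp h1]
          exact ⟨h2.2, fun h3 => h3.2 (by rw [hp4, hpτ])⟩
    have h3 := bettiF_three a s t hst τ hsτ htτ (T \ T1) hT2 hOK2 k
    have hN1 : {σ | σ ∈ T1 ∧ s ∉ σ ∧ t ∉ σ}.ncard = N := by
      have he : {σ | σ ∈ T1 ∧ s ∉ σ ∧ t ∉ σ} =
          {σ | σ ∈ T ∧ s ∉ σ ∧ t ∉ σ} \ {τ} := by
        ext σ
        constructor
        · rintro ⟨⟨h1, h2⟩, h4, h5⟩
          refine ⟨⟨h1, h4, h5⟩, fun h6 => h2 ?_⟩
          rw [Set.mem_singleton_iff.mp h6, hpτ]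
        · rintro ⟨⟨h1, h4, h5⟩, h6⟩
          refine ⟨⟨h1, fun h7 => h6 ?_⟩, h4, h5⟩
          have : p σ = σ := by
            show (σ.erase s).erase t = σ
            rw [Finset.erase_eq_of_notMem h4, Finset.erase_eq_of_notMem h5]
          rw [this] at h7
          exact h7
      rw [he, Set.ncard_diff_singleton_of_mem (show τ ∈ {σ | σ ∈ T ∧ s ∉ σ ∧ t ∉ σ} from
        ⟨hτT, hsτ, htτ⟩), hN]
      rfl
    have h4 := ih T1 hOK1 (fun σ hσ => hne σ (hsub hσ))
      (fun σ hσ h5 => ⟨⟨(hs σ hσ.1 h5).1, by rw [hp1]; exact hσ.2⟩,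
        ⟨(hs σ hσ.1 h5).2, by rw [hp4, hp1]; exact hσ.2⟩⟩)
      (fun σ hσ h5 => ⟨⟨(ht σ hσ.1 h5).1, by rw [hp2]; exact hσ.2⟩,
        ⟨(ht σ hσ.1 h5).2, by rw [hp3, hp2]; exact hσ.2⟩⟩)
      (fun σ hσ h5 h6 => ⟨⟨(hi σ hσ.1 h5 h6).1, by rw [hp3]; exact hσ.2⟩,
        ⟨(hi σ hσ.1 h5 h6).2, by rw [hp4]; exact hσ.2⟩⟩) hN1
    push_cast
    linarith

theorem bettiF_susp (a : V → A) (s t : V) (hst : s ≠ t) (T : Set (Finset V)) (h : OK a T)
    (hne : ∀ σ ∈ T, ¬ (s ∈ σ ∧ t ∈ σ))
    (hs : ∀ σ ∈ T, s ∈ σ → σ.erase s ∈ T ∧ insert t (σ.erase s) ∈ T)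
    (ht : ∀ σ ∈ T, t ∈ σ → σ.erase t ∈ T ∧ insert s (σ.erase t) ∈ T)
    (hi : ∀ σ ∈ T, s ∉ σ → t ∉ σ → insert s σ ∈ T ∧ insert t σ ∈ T) (k : ℕ) :
    bettiF a T k ≤ 2 ^ Fintype.card V * (Subgroup.closure {a s, a t}).index := by
  classical
  have h1 := bettiF_susp_aux a s t hst k _ T h hne hs ht hi rfl
  refine h1.trans ?_
  have h2 : {τ | τ ∈ T ∧ s ∉ τ ∧ t ∉ τ}.ncard ≤ 2 ^ Fintype.card V := by
    have h3 : {τ | τ ∈ T ∧ s ∉ τ ∧ t ∉ τ}.ncard ≤ (Set.univ : Set (Finset V)).ncard :=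
      Set.ncard_le_ncard (Set.subset_univ _) (Set.toFinite _)
    rw [Set.ncard_univ, Nat.card_eq_fintype_card, Fintype.card_finset] at h3
    exact h3
  have h4 : (({τ | τ ∈ T ∧ s ∉ τ ∧ t ∉ τ}.ncard : ℕ) : ℤ) ≤ 2 ^ Fintype.card V := by
    exact_mod_cast h2
  exact mul_le_mul_of_nonneg_right h4 (Int.natCast_nonneg _)

end SingerRA
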