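import Mathlib
import Pool.Agent.Lib_MP_394d50_gt.Defs2

/-! Piece BSTD: the standard marking of `Q × (ℤ/2)^V`. -/

namespace SingerRA

theorem isPGroup_prod {Q P : Type} [Group Q] [Group P] [Finite Q] [Finite P]
    (hQ : IsPGroup 2 Q) (hP : IsPGroup 2 P) : IsPGroup 2 (Q × P) := by
  haveI : Fact (Nat.Prime 2) := ⟨Nat.prime_two⟩
  obtain ⟨n, hn⟩ := IsPGroup.iff_card.mp hQ
  obtain ⟨m, hm⟩ := IsPGroup.iff_card.mp hP
  refine IsPGroup.iff_card.mpr ⟨n + m, ?_⟩
  rw [Nat.card_prod, hn, hm, pow_add]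

theorem isPGroup_mul (V : Type) : IsPGroup 2 (Multiplicative (V → ZMod 2)) := by
  intro x
  refine ⟨1, ?_⟩
  rw [pow_one, pow_two]
  have : x.toAdd + x.toAdd = 0 := by
    funext v
    exact CharTwo.add_self_eq_zero _
  exact this

theorem isPGroup_std {V : Type} [Finite V] {Q : Type} [Group Q] [Finite Q]
    (hQ : IsPGroup 2 Q) : IsPGroup 2 (Q × Multiplicative (V → ZMod 2)) := by
  haveI : Finite (Multiplicative (V → ZMod 2)) := inferInstanceAs (Finite (V → ZMod 2))
  exact isPGroup_prod hQ (isPGroup_mul V)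

/-- The standard marking. -/
def stdMk {V : Type} [DecidableEq V] (G : SimpleGraph V) {Q : Type} [Group Q] (q : V → Q)
    (hsq : ∀ v, q v * q v = 1) (hcomm : ∀ u v, G.Adj u v → q u * q v = q v * q u) :
    Mk G (Q × Multiplicative (V → ZMod 2)) where
  a := stdA q
  lab := MonoidHom.snd Q (Multiplicative (V → ZMod 2))
  sq := fun v => by
    refine Prod.ext (hsq v) ?_
    show (Multiplicative.ofAdd (Pi.single v 1 : V → ZMod 2) *
      Multiplicative.ofAdd (Pi.single v 1 : V → ZMod 2)) = 1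
    have : (Pi.single v 1 : V → ZMod 2) + (Pi.single v 1 : V → ZMod 2) = 0 := by
      funext v
      exact CharTwo.add_self_eq_zero _
    exact this
  comm := fun u v h => Prod.ext (hcomm u v h) (mul_comm _ _)
  lab_a := fun v => rfl

theorem OK_of_Mk {V : Type} [DecidableEq V] {G : SimpleGraph V} {A : Type} [Group A]
    (M : Mk G A) : OK M.a (cliq G) where
  conv := by
    intro σ _ τ hτ ρ _ h2
    exact Set.Pairwise.mono (Finset.coe_subset.mpr h2) hτ
  sq := M.sq
  comm := by
    intro σ hσ u hu v hv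
    by_cases h : u = v
    · rw [h]
    · exact M.comm u v (hσ hu hv h)
  lab := ⟨M.lab, by
    intro σ _ v _ u
    rw [M.lab_a]
    show (Pi.single v 1 : V → ZMod 2) u = _
    rw [Pi.single_apply]⟩

end SingerRA
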