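import Mathlib
import Pool.Agent.Lib_MP_394d50_gt.Defs2
import Pool.Agent.Lib_MP_394d50_gt.ACover
import Pool.Agent.Lib_MP_394d50_gt.ASusp
import Pool.Agent.Lib_MP_394d50_gt.AReindex
import Pool.Agent.Lib_MP_394d50_gt.ASub
import Pool.Agent.Lib_MP_394d50_gt.BStd

/-! Piece ASMALL: small gradients of suspensions and of edge subdivisions. -/

namespace SingerRA

/-! ### Dihedral groups -/

theorem isPGroup_dihedral (m : ℕ) : IsPGroup 2 (DihedralGroup (2 ^ m)) := by
  have : Fact (Nat.Prime 2) := ⟨Nat.prime_two⟩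
  refine IsPGroup.iff_card.mpr ⟨m + 1, ?_⟩
  rw [DihedralGroup.nat_card, pow_succ, mul_comm]

theorem closure_dihedral (n : ℕ) :
    Subgroup.closure {(DihedralGroup.sr 0 : DihedralGroup n), DihedralGroup.sr 1} = ⊤ := by
  rw [eq_top_iff]
  intro x _
  have h0 : (DihedralGroup.sr 0 : DihedralGroup n) ∈
      Subgroup.closure {(DihedralGroup.sr 0 : DihedralGroup n), DihedralGroup.sr 1} :=
    Subgroup.subset_closure (by simp)
  have h1 : (DihedralGroup.sr 1 : DihedralGroup n) ∈
      Subgroup.closure {(DihedralGroup.sr 0 : DihedralGroup n), DihedralGroup.sr 1} :=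
    Subgroup.subset_closure (by simp)
  have h2 : (DihedralGroup.r 1 : DihedralGroup n) ∈
      Subgroup.closure {(DihedralGroup.sr 0 : DihedralGroup n), DihedralGroup.sr 1} := by
    have := Subgroup.mul_mem _ h0 h1
    rwa [DihedralGroup.sr_mul_sr, sub_zero] at this
  have h3 : ∀ k : ℤ, (DihedralGroup.r (k : ZMod n) : DihedralGroup n) ∈
      Subgroup.closure {(DihedralGroup.sr 0 : DihedralGroup n), DihedralGroup.sr 1} := by
    intro k
    have := Subgroup.zpow_mem _ h2 k
    rwa [DihedralGroup.r_one_zpow] at this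
  rcases x with i | i
  · obtain ⟨k, hk⟩ := ZMod.intCast_surjective i
    rw [← hk]; exact h3 k
  · obtain ⟨k, hk⟩ := ZMod.intCast_surjective i
    have := Subgroup.mul_mem _ h0 (h3 k)
    rwa [DihedralGroup.sr_mul_r, zero_add, hk] at this

theorem index_closure_le {A : Type} [Group A] [Finite A] {n : ℕ} [NeZero n]
    (f : A →* DihedralGroup n) (x y : A) (hx : f x = DihedralGroup.sr 0)
    (hy : f y = DihedralGroup.sr 1) :
    (Subgroup.closure {x, y}).index * Nat.card (DihedralGroup n) ≤ Nat.card A := by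
  have h1 : (Subgroup.closure {x, y}).map f = ⊤ := by
    rw [MonoidHom.map_closure, Set.image_pair, hx, hy, closure_dihedral]
  have h2 : Nat.card (DihedralGroup n) ≤ Nat.card (Subgroup.closure {x, y}) := by
    have h3 : Nat.card ((Subgroup.closure {x, y}).map f) = Nat.card (DihedralGroup n) := by
      rw [h1]; exact Nat.card_congr Subgroup.topEquiv.toEquiv
    rw [← h3]
    exact Nat.card_le_card_of_surjective
      (fun z : Subgroup.closure {x, y} => (⟨f z, Subgroup.mem_map_of_mem f z.2⟩ :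
        (Subgroup.closure {x, y}).map f)) (by
        rintro ⟨z, hz⟩
        obtain ⟨w, hw, rfl⟩ := Subgroup.mem_map.mp hz
        exact ⟨⟨w, hw⟩, rfl⟩)
  calc (Subgroup.closure {x, y}).index * Nat.card (DihedralGroup n)
      ≤ (Subgroup.closure {x, y}).index * Nat.card (Subgroup.closure {x, y}) :=
        Nat.mul_le_mul_left _ h2
    _ = Nat.card A := Subgroup.index_mul_card _

theorem exists_large (C ε : ℝ) (hε : 0 < ε) :
    ∃ m : ℕ, C ≤ ε * Nat.card (DihedralGroup (2 ^ m)) := by
  obtain ⟨m, hm⟩ := pow_unbounded_of_one_lt (C / ε) (one_lt_two : (1 : ℝ) < 2)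
  refine ⟨m, ?_⟩
  rw [DihedralGroup.nat_card]
  have h1 : C < ε * 2 ^ m := by
    rw [div_lt_iff₀ hε] at hm
    linarith
  push_cast
  have h2 : (0 : ℝ) < 2 ^ m := by positivity
  nlinarith

/-! ### Real form of the covering inequality -/

theorem bettiF_cover_real {V : Type} [Fintype V] [DecidableEq V] {A : Type} [Group A] [Finite A]
    (hA : IsPGroup 2 A) {B : Type} [Group B] (π : A →* B)
    (hπ : Function.Surjective π) (a : V → A)
    (T : Set (Finset V)) (h : OK (fun v => π (a v)) T) (hsq : ∀ v, a v * a v = 1)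
    (hcomm : ∀ σ ∈ T, ∀ u ∈ σ, ∀ v ∈ σ, a u * a v = a v * a u) (k : ℕ) :
    (bettiF a T k : ℝ) ≤ (Nat.card A / Nat.card B : ℝ) * bettiF (fun v => π (a v)) T k := by
  have h1 := bettiF_cover hA π hπ a T h hsq hcomm k
  have : Finite B := Finite.of_surjective π hπ
  have h2 : Nat.card B * Nat.card π.ker = Nat.card A := by
    have e := Subgroup.card_eq_card_quotient_mul_card_subgroup π.ker
    rw [Nat.card_congr (QuotientGroup.quotientKerEquivOfSurjective π hπ).toEquiv] at e
    exact e.symm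
  have h3 : (Nat.card A / Nat.card B : ℝ) = Nat.card π.ker := by
    have hB : (Nat.card B : ℝ) ≠ 0 := by
      have := Nat.card_pos (α := B)
      positivity
    rw [div_eq_iff hB, ← h2]
    push_cast
    ring
  rw [h3]
  exact_mod_cast h1

theorem OK.subset {V : Type} [DecidableEq V] {A : Type} [Group A] {a : V → A}
    {T T' : Set (Finset V)} (h : OK a T) (hT : Conv T') (hs : T' ⊆ T) : OK a T' where
  conv := hT
  sq := h.sq
  comm := fun σ hσ => h.comm σ (hs hσ)
  lab := by
    obtain ⟨f, hf⟩ := h.lab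
    exact ⟨f, fun σ hσ => hf σ (hs hσ)⟩

theorem conv_of_down {V : Type} {T : Set (Finset V)} (h : ∀ τ ∈ T, ∀ ρ, ρ ⊆ τ → ρ ∈ T) :
    Conv T := fun _ _ τ hτ ρ _ h2 => h τ hτ ρ h2

theorem cliq_down {V : Type} (G : SimpleGraph V) : ∀ τ ∈ cliq G, ∀ ρ, ρ ⊆ τ → ρ ∈ cliq G :=
  fun _ hτ _ h => Set.Pairwise.mono (Finset.coe_subset.mpr h) hτ

theorem delF_down {V : Type} (G : SimpleGraph V) (s t : V) :
    ∀ τ ∈ delF G s t, ∀ ρ, ρ ⊆ τ → ρ ∈ delF G s t :=
  fun τ hτ ρ h => ⟨cliq_down G τ hτ.1 ρ h, fun h' => hτ.2 ⟨h h'.1, h h'.2⟩⟩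

theorem slF_down {V : Type} (G : SimpleGraph V) (s t : V) :
    ∀ τ ∈ slF G s t, ∀ ρ, ρ ⊆ τ → ρ ∈ slF G s t :=
  fun τ hτ ρ h => ⟨delF_down G s t τ hτ.1 ρ h, fun v hv => hτ.2 v (h hv)⟩

theorem lkF_down {V : Type} (G : SimpleGraph V) (s t : V) :
    ∀ τ ∈ lkF G s t, ∀ ρ, ρ ⊆ τ → ρ ∈ lkF G s t :=
  fun τ hτ ρ h => ⟨cliq_down G τ hτ.1 ρ h, fun v hv => hτ.2 v (h hv)⟩

/-! ### Suspensions -/

theorem SmallGrad.susp {V : Type} [Finite V] (G : SimpleGraph V) (k : ℕ) :
    SmallGrad k (suspG G) := by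
  intro _ _ ε hε
  set N := Fintype.card (V ⊕ Bool) with hN
  obtain ⟨m, hm⟩ := exists_large (2 ^ N * 2 ^ N) ε hε
  have : NeZero (2 ^ m) := ⟨by positivity⟩
  let q : V ⊕ Bool → DihedralGroup (2 ^ m) := fun x => match x with
    | .inl _ => 1
    | .inr false => DihedralGroup.sr 0
    | .inr true => DihedralGroup.sr 1
  have hsq : ∀ v, q v * q v = 1 := by
    rintro (v | (_ | _))
    · exact one_mul 1
    · show DihedralGroup.sr 0 * DihedralGroup.sr 0 = 1
      rw [DihedralGroup.sr_mul_sr, sub_self]; rfl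
    · show DihedralGroup.sr 1 * DihedralGroup.sr 1 = 1
      rw [DihedralGroup.sr_mul_sr, sub_self]; rfl
  have hcomm : ∀ u v, (suspG G).Adj u v → q u * q v = q v * q u := by
    rintro (u | b) (v | c) h
    · rfl
    · show 1 * q _ = q _ * 1
      rw [one_mul, mul_one]
    · show q _ * 1 = 1 * q _
      rw [one_mul, mul_one]
    · exact h.elim
  refine ⟨DihedralGroup (2 ^ m), inferInstance, inferInstance, q, isPGroup_dihedral m, hsq,
    hcomm, ?_⟩
  have hOK : OK (stdA q) (cliq (suspG G)) := OK_of_Mk (stdMk (suspG G) q hsq hcomm)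
  have hadj : ∀ b c : Bool, ¬ (suspG G).Adj (.inr b) (.inr c) := fun b c h => h
  have key := bettiF_susp (stdA q) (.inr false : V ⊕ Bool) (.inr true) (by simp)
    (cliq (suspG G)) hOK ?_ ?_ ?_ ?_ k
  · have h1 := index_closure_le (MonoidHom.fst (DihedralGroup (2 ^ m))
      (Multiplicative (V ⊕ Bool → ZMod 2))) (stdA q (.inr false)) (stdA q (.inr true)) rfl rfl
    have hcard : Nat.card (DihedralGroup (2 ^ m) × Multiplicative (V ⊕ Bool → ZMod 2)) =
        Nat.card (DihedralGroup (2 ^ m)) * 2 ^ N := by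
      rw [Nat.card_prod]
      congr 1
      rw [show Nat.card (Multiplicative (V ⊕ Bool → ZMod 2)) =
        Nat.card (V ⊕ Bool → ZMod 2) from rfl, Nat.card_fun, Nat.card_zmod,
        Nat.card_eq_fintype_card]
    rw [hcard, mul_comm (Nat.card _) (2 ^ N)] at h1
    have h2 := Nat.le_of_mul_le_mul_right h1 Nat.card_pos
    have h3 : (bettiF (stdA q) (cliq (suspG G)) k : ℝ) ≤ 2 ^ N * 2 ^ N := by
      have h4 : bettiF (stdA q) (cliq (suspG G)) k ≤ 2 ^ N * 2 ^ N := by
        refine key.trans ?_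
        have h5 : ((Subgroup.closure {stdA q (.inr false), stdA q (.inr true)}).index : ℤ) ≤
          2 ^ N := by exact_mod_cast h2
        exact mul_le_mul_of_nonneg_left h5 (by positivity)
      exact_mod_cast h4
    exact h3.trans hm
  · rintro σ hσ ⟨h1, h2⟩
    exact hadj _ _ (hσ (Finset.mem_coe.mpr h1) (Finset.mem_coe.mpr h2) (by simp))
  · intro σ hσ hs
    refine ⟨cliq_down _ σ hσ _ (Finset.erase_subset _ _), ?_⟩
    show (suspG G).IsClique _
    rw [Finset.coe_insert, SimpleGraph.isClique_insert]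
    refine ⟨cliq_down _ σ hσ _ (Finset.erase_subset _ _), ?_⟩
    rintro (v | b) hv hne
    · trivial
    · have hv' := Finset.mem_erase.mp (Finset.mem_coe.mp hv)
      exact (hadj _ _ (hσ (Finset.mem_coe.mpr hs) (Finset.mem_coe.mpr hv'.2)
        (Ne.symm hv'.1))).elim
  · intro σ hσ hs
    refine ⟨cliq_down _ σ hσ _ (Finset.erase_subset _ _), ?_⟩
    show (suspG G).IsClique _
    rw [Finset.coe_insert, SimpleGraph.isClique_insert]
    refine ⟨cliq_down _ σ hσ _ (Finset.erase_subset _ _), ?_⟩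
    rintro (v | b) hv hne
    · trivial
    · have hv' := Finset.mem_erase.mp (Finset.mem_coe.mp hv)
      exact (hadj _ _ (hσ (Finset.mem_coe.mpr hs) (Finset.mem_coe.mpr hv'.2)
        (Ne.symm hv'.1))).elim
  · intro σ hσ hs ht
    have hb : ∀ b, (Sum.inr b : V ⊕ Bool) ∉ σ := by
      rintro (_ | _)
      · exact hs
      · exact ht
    constructor
    · show (suspG G).IsClique _
      rw [Finset.coe_insert, SimpleGraph.isClique_insert]
      refine ⟨hσ, ?_⟩
      rintro (v | b) hv hne
      · trivial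
      · exact (hb b (Finset.mem_coe.mp hv)).elim
    · show (suspG G).IsClique _
      rw [Finset.coe_insert, SimpleGraph.isClique_insert]
      refine ⟨hσ, ?_⟩
      rintro (v | b) hv hne
      · trivial
      · exact (hb b (Finset.mem_coe.mp hv)).elim

/-! ### Edge subdivisions -/

section Subdiv

variable {V : Type} [Fintype V] [DecidableEq V]

/-- Restriction of labels from `Option V` to `V`. -/
def resLab (V : Type) : Multiplicative (Option V → ZMod 2) →* Multiplicative (V → ZMod 2) where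
  toFun x := Multiplicative.ofAdd (fun v => x.toAdd (some v))
  map_one' := rfl
  map_mul' _ _ := rfl

/-- Restriction of labels to a subtype. -/
def subLab (V : Type) (p : V → Prop) :
    Multiplicative (V → ZMod 2) →* Multiplicative ({v // p v} → ZMod 2) where
  toFun x := Multiplicative.ofAdd (fun v => x.toAdd v.1)
  map_one' := rfl
  map_mul' _ _ := rfl

open scoped Classical in
/-- Extension of labels by zero. -/
noncomputable def extLab (V : Type) (p : V → Prop) :
    Multiplicative ({v // p v} → ZMod 2) →* Multiplicative (V → ZMod 2) where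
  toFun x := Multiplicative.ofAdd (fun v => if h : p v then x.toAdd ⟨v, h⟩ else 0)
  map_one' := by
    show Multiplicative.ofAdd _ = Multiplicative.ofAdd 0
    congr 1
    funext v
    by_cases h : p v
    · rw [dif_pos h]; rfl
    · rw [dif_neg h]; rfl
  map_mul' x y := by
    apply Multiplicative.toAdd.injective
    funext v
    show (if h : p v then (x * y).toAdd ⟨v, h⟩ else 0) = (if h : p v then x.toAdd ⟨v, h⟩ else 0) +
      (if h : p v then y.toAdd ⟨v, h⟩ else 0)
    by_cases h : p v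
    · rw [dif_pos h, dif_pos h, dif_pos h]; rfl
    · rw [dif_neg h, dif_neg h, dif_neg h, add_zero]

theorem extLab_pos (V : Type) (p : V → Prop) (x : Multiplicative ({v // p v} → ZMod 2)) (v : V)
    (h : p v) : (extLab V p x).toAdd v = x.toAdd ⟨v, h⟩ := dif_pos h

theorem extLab_neg (V : Type) (p : V → Prop) (x : Multiplicative ({v // p v} → ZMod 2)) (v : V)
    (h : ¬ p v) : (extLab V p x).toAdd v = 0 := dif_neg h

theorem card_mulfun (V : Type) [Finite V] :
    Nat.card (Multiplicative (V → ZMod 2)) = 2 ^ Nat.card V := by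
  rw [show Nat.card (Multiplicative (V → ZMod 2)) = Nat.card (V → ZMod 2) from rfl,
    Nat.card_fun, Nat.card_zmod]

/-- Degree zero. -/
theorem subdiv_zero (G : SimpleGraph V) (s t : V) (hst : G.Adj s t) (h1 : SmallGrad 0 G) :
    SmallGrad 0 (subdivG G s t) := by
  intro _ _ ε hε
  obtain ⟨Q1, _, _, q1, hQ1, hsq1, hcomm1, hb1⟩ := h1 inferInstance inferInstance (ε / 2)
    (by positivity)
  let q : Option V → Q1 := fun x => match x with
    | none => 1
    | some v => q1 v
  have hsq : ∀ v, q v * q v = 1 := by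
    rintro (_ | v)
    · exact one_mul 1
    · exact hsq1 v
  have hcomm : ∀ u v, (subdivG G s t).Adj u v → q u * q v = q v * q u := by
    rintro (_ | u) (_ | v) h
    · rfl
    · rw [show q none = 1 from rfl, one_mul, mul_one]
    · rw [show q none = 1 from rfl, one_mul, mul_one]
    · exact hcomm1 u v h.1
  refine ⟨Q1, inferInstance, inferInstance, q, hQ1, hsq, hcomm, ?_⟩
  have hOK : OK (stdA q) (cliq (subdivG G s t)) := OK_of_Mk (stdMk _ q hsq hcomm)
  have hOK1 : OK (stdA q1) (cliq G) := OK_of_Mk (stdMk _ q1 hsq1 hcomm1)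
  have k1 := bettiF_subdiv_zero G s t hst (stdA q) hOK
  have k2 := bettiF_del_zero G s t hst (stdA q1) hOK1
  let π : Q1 × Multiplicative (Option V → ZMod 2) →* Q1 × Multiplicative (V → ZMod 2) :=
    (MonoidHom.id Q1).prodMap (resLab V)
  have hπ : Function.Surjective π := by
    rintro ⟨x, y⟩
    refine ⟨(x, Multiplicative.ofAdd (fun o => match o with
      | none => 0
      | some v => y.toAdd v)), rfl⟩
  have hπa : ∀ v, π (stdA q (some v)) = stdA q1 v := by
    intro v
    refine Prod.ext rfl ?_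
    show Multiplicative.ofAdd _ = Multiplicative.ofAdd _
    congr 1
    funext u
    show (Pi.single (some v) 1 : Option V → ZMod 2) (some u) = (Pi.single v 1 : V → ZMod 2) u
    rw [Pi.single_apply, Pi.single_apply]
    simp
  have hOK2 : OK (fun v => π (stdA q (some v))) (delF G s t) := by
    have : (fun v => π (stdA q (some v))) = stdA q1 := funext hπa
    rw [this]
    exact hOK1.subset (conv_of_down (delF_down G s t)) (fun σ hσ => hσ.1)
  have k3 := bettiF_cover_real (isPGroup_std hQ1) π hπ (fun v => stdA q (some v)) (delF G s t)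
    hOK2 (fun v => hOK.sq (some v)) (by
      intro σ hσ u hu v hv
      by_cases huv : u = v
      · rw [huv]
      · refine (stdMk _ q hsq hcomm).comm (some u) (some v) ⟨hσ.1 hu hv huv, ?_, ?_⟩
        · rintro ⟨rfl, rfl⟩
          exact hσ.2 ⟨hu, hv⟩
        · rintro ⟨rfl, rfl⟩
          exact hσ.2 ⟨hv, hu⟩) 0
  have hfun : (fun v => π ((fun v => stdA q (some v)) v)) = stdA q1 := funext hπa
  rw [hfun] at k3
  have hc1 : (Nat.card (Q1 × Multiplicative (Option V → ZMod 2)) : ℝ) =
      Nat.card Q1 * (2 ^ Nat.card V * 2) := by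
    rw [Nat.card_prod, card_mulfun, Finite.card_option, pow_succ]
    push_cast; ring
  have hc2 : (Nat.card (Q1 × Multiplicative (V → ZMod 2)) : ℝ) =
      Nat.card Q1 * 2 ^ Nat.card V := by
    rw [Nat.card_prod, card_mulfun]
    push_cast; ring
  have hQpos : (0 : ℝ) < Nat.card Q1 := by exact_mod_cast Nat.card_pos
  have hr : (Nat.card (Q1 × Multiplicative (Option V → ZMod 2)) /
      Nat.card (Q1 × Multiplicative (V → ZMod 2)) : ℝ) = 2 := by
    rw [hc1, hc2, div_eq_iff (by positivity)]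
    ring
  rw [hr] at k3
  have k1' : (bettiF (stdA q) (cliq (subdivG G s t)) 0 : ℝ) ≤
    bettiF (fun v => stdA q (some v)) (delF G s t) 0 := by exact_mod_cast k1
  have k2' : (bettiF (stdA q1) (delF G s t) 0 : ℝ) ≤ bettiF (stdA q1) (cliq G) 0 := by
    exact_mod_cast k2
  linarith

/-- The general degree. -/
theorem subdiv_succ (G : SimpleGraph V) (s t : V) (hst : G.Adj s t) (j : ℕ)
    (h1 : SmallGrad (j + 1) G) (h2 : SmallGrad j (linkG G s t)) :
    SmallGrad (j + 1) (subdivG G s t) := by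
  classical
  intro instF instD ε hε
  set n := Fintype.card V with hn
  obtain ⟨Q1, _, _, q1, hQ1, hsq1, hcomm1, hb1⟩ := h1 inferInstance inferInstance (ε / 6)
    (by positivity)
  obtain ⟨Q2, _, _, q2, hQ2, hsq2, hcomm2, hb2⟩ := h2 inferInstance inferInstance
    (ε / (3 * (2 * 2 ^ n))) (by positivity)
  obtain ⟨m, hm⟩ := exists_large (2 ^ n * (2 ^ n * 2) * 3) ε hε
  have : NeZero (2 ^ m) := ⟨by positivity⟩
  let q2e : V → Q2 := fun v => if h : G.Adj s v ∧ G.Adj t v then q2 ⟨v, h⟩ else 1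
  let qd : V → DihedralGroup (2 ^ m) := fun v =>
    if v = s then DihedralGroup.sr 0 else if v = t then DihedralGroup.sr 1 else 1
  have hsq2e : ∀ v, q2e v * q2e v = 1 := by
    intro v
    by_cases h : G.Adj s v ∧ G.Adj t v
    · simp only [q2e, dif_pos h]; exact hsq2 _
    · simp only [q2e, dif_neg h]; exact one_mul 1
  have hcomm2e : ∀ u v, G.Adj u v → q2e u * q2e v = q2e v * q2e u := by
    intro u v huv
    by_cases hu : G.Adj s u ∧ G.Adj t u
    · by_cases hv : G.Adj s v ∧ G.Adj t v
      · simp only [q2e, dif_pos hu, dif_pos hv]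
        exact hcomm2 _ _ huv
      · simp only [q2e, dif_neg hv, mul_one, one_mul]
    · simp only [q2e, dif_neg hu, mul_one, one_mul]
  have hsqd : ∀ v, qd v * qd v = 1 := by
    intro v
    simp only [qd]
    split_ifs
    · exact DihedralGroup.sr_mul_self 0
    · exact DihedralGroup.sr_mul_self 1
    · exact one_mul 1
  have hcommd : ∀ u v, (subdivG G s t).Adj (some u) (some v) → qd u * qd v = qd v * qd u := by
    rintro u v ⟨h1, h2, h3⟩
    by_cases hus : u = s
    · have hvs : v ≠ s := fun h => G.ne_of_adj h1 (hus.trans h.symm)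
      have hvt : v ≠ t := fun h => h2 ⟨hus, h⟩
      simp only [qd, if_neg hvs, if_neg hvt, mul_one, one_mul]
    · by_cases hut : u = t
      · have hvs : v ≠ s := fun h => h3 ⟨hut, h⟩
        have hvt : v ≠ t := fun h => G.ne_of_adj h1 (hut.trans h.symm)
        simp only [qd, if_neg hvs, if_neg hvt, mul_one, one_mul]
      · simp only [qd, if_neg hus, if_neg hut, mul_one, one_mul]
  -- the group
  let q : Option V → (Q1 × Q2) × DihedralGroup (2 ^ m) := fun x => match x with
    | none => 1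
    | some v => ((q1 v, q2e v), qd v)
  let q12 : V → Q1 × Q2 := fun v => (q1 v, q2e v)
  have hsq : ∀ v, q v * q v = 1 := by
    rintro (_ | v)
    · exact one_mul 1
    · exact Prod.ext (Prod.ext (hsq1 v) (hsq2e v)) (hsqd v)
  have hcomm : ∀ u v, (subdivG G s t).Adj u v → q u * q v = q v * q u := by
    rintro (_ | u) (_ | v) h
    · rfl
    · rw [show q none = 1 from rfl, one_mul, mul_one]
    · rw [show q none = 1 from rfl, one_mul, mul_one]
    · exact Prod.ext (Prod.ext (hcomm1 u v h.1) (hcomm2e u v h.1)) (hcommd u v h)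
  have hsq12 : ∀ v, q12 v * q12 v = 1 := fun v => Prod.ext (hsq1 v) (hsq2e v)
  have hcomm12 : ∀ u v, G.Adj u v → q12 u * q12 v = q12 v * q12 u := fun u v h =>
    Prod.ext (hcomm1 u v h) (hcomm2e u v h)
  have hP12 : IsPGroup 2 (Q1 × Q2) := isPGroup_prod hQ1 hQ2
  have hPQ : IsPGroup 2 ((Q1 × Q2) × DihedralGroup (2 ^ m)) :=
    isPGroup_prod hP12 (isPGroup_dihedral m)
  refine ⟨(Q1 × Q2) × DihedralGroup (2 ^ m), inferInstance, inferInstance, q, hPQ, hsq, hcomm,
    ?_⟩
  have hOK : OK (stdA q) (cliq (subdivG G s t)) := OK_of_Mk (stdMk _ q hsq hcomm)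
  have hOK1 : OK (stdA q1) (cliq G) := OK_of_Mk (stdMk _ q1 hsq1 hcomm1)
  have hOK12 : OK (stdA q12) (cliq G) := OK_of_Mk (stdMk _ q12 hsq12 hcomm12)
  have hdcomm : ∀ σ ∈ delF G s t, ∀ u ∈ σ, ∀ v ∈ σ,
      stdA q (some u) * stdA q (some v) = stdA q (some v) * stdA q (some u) := by
    intro σ hσ u hu v hv
    by_cases huv : u = v
    · rw [huv]
    · refine (stdMk _ q hsq hcomm).comm (some u) (some v) ⟨hσ.1 hu hv huv, ?_, ?_⟩
      · rintro ⟨rfl, rfl⟩
        exact hσ.2 ⟨hu, hv⟩
      · rintro ⟨rfl, rfl⟩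
        exact hσ.2 ⟨hv, hu⟩
  have k1 := bettiF_subdiv G s t hst (stdA q) hOK j
  -- the part `delF`
  let π : ((Q1 × Q2) × DihedralGroup (2 ^ m)) × Multiplicative (Option V → ZMod 2) →*
      (Q1 × Q2) × Multiplicative (V → ZMod 2) :=
    (MonoidHom.fst (Q1 × Q2) (DihedralGroup (2 ^ m))).prodMap (resLab V)
  have hπ : Function.Surjective π := by
    rintro ⟨x, y⟩
    refine ⟨((x, 1), Multiplicative.ofAdd (fun o => match o with
      | none => 0
      | some v => y.toAdd v)), rfl⟩
  have hπa : ∀ v, π (stdA q (some v)) = stdA q12 v := by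
    intro v
    refine Prod.ext rfl ?_
    show Multiplicative.ofAdd _ = Multiplicative.ofAdd _
    congr 1
    funext u
    show (Pi.single (some v) 1 : Option V → ZMod 2) (some u) = (Pi.single v 1 : V → ZMod 2) u
    rw [Pi.single_apply, Pi.single_apply]
    simp
  have hfunπ : (fun v => π (stdA q (some v))) = stdA q12 := funext hπa
  have k2 := bettiF_cover_real (isPGroup_std hPQ) π hπ (fun v => stdA q (some v)) (delF G s t)
    (by
      show OK (fun v => π (stdA q (some v))) (delF G s t)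
      rw [hfunπ]
      exact hOK12.subset (conv_of_down (delF_down G s t)) (fun σ hσ => hσ.1))
    (fun v => hOK.sq (some v)) hdcomm (j + 1)
  have k2' : (bettiF (fun v => stdA q (some v)) (delF G s t) (j + 1) : ℝ) ≤
      (Nat.card (((Q1 × Q2) × DihedralGroup (2 ^ m)) × Multiplicative (Option V → ZMod 2)) /
        Nat.card ((Q1 × Q2) × Multiplicative (V → ZMod 2)) : ℝ) *
        bettiF (stdA q12) (delF G s t) (j + 1) := by
    rw [← hfunπ]; exact k2
  have k3 := bettiF_del G s t hst (stdA q12) hOK12 j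
  -- cliq G over Q1
  let π1 : (Q1 × Q2) × Multiplicative (V → ZMod 2) →* Q1 × Multiplicative (V → ZMod 2) :=
    (MonoidHom.fst Q1 Q2).prodMap (MonoidHom.id _)
  have hπ1 : Function.Surjective π1 := by
    rintro ⟨x, y⟩
    exact ⟨((x, 1), y), rfl⟩
  have k4 := bettiF_cover_real (isPGroup_std hP12) π1 hπ1 (stdA q12) (cliq G) hOK1
    hOK12.sq hOK12.comm (j + 1)
  have k4' : (bettiF (stdA q12) (cliq G) (j + 1) : ℝ) ≤
      (Nat.card ((Q1 × Q2) × Multiplicative (V → ZMod 2)) /
        Nat.card (Q1 × Multiplicative (V → ZMod 2)) : ℝ) *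
        bettiF (stdA q1) (cliq G) (j + 1) := k4
  -- lkF over Q2
  let L : V → Prop := fun v => G.Adj s v ∧ G.Adj t v
  let π2 : (Q1 × Q2) × Multiplicative (V → ZMod 2) →*
      Q2 × Multiplicative ({v // G.Adj s v ∧ G.Adj t v} → ZMod 2) :=
    (MonoidHom.snd Q1 Q2).prodMap (subLab V L)
  have hπ2 : Function.Surjective π2 := by
    rintro ⟨x, y⟩
    refine ⟨((1, x), extLab V L y), ?_⟩
    refine Prod.ext rfl ?_
    apply Multiplicative.toAdd.injective
    funext v
    exact extLab_pos V L y v.1 v.2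
  let b : V → Q2 × Multiplicative ({v // G.Adj s v ∧ G.Adj t v} → ZMod 2) :=
    fun v => π2 (stdA q12 v)
  have hbL : ∀ v : {v // G.Adj s v ∧ G.Adj t v}, b v.1 = stdA q2 v := by
    intro v
    refine Prod.ext ?_ ?_
    · show q2e v.1 = q2 v
      simp only [q2e, dif_pos v.2]
    · show Multiplicative.ofAdd _ = Multiplicative.ofAdd _
      congr 1
      funext u
      show (Pi.single v.1 1 : V → ZMod 2) u.1 = (Pi.single v 1 : _ → ZMod 2) u
      rw [Pi.single_apply, Pi.single_apply]
      simp [Subtype.ext_iff]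
  have hOKb : OK b (lkF G s t) := by
    refine ⟨conv_of_down (lkF_down G s t), ?_, ?_, ?_⟩
    · intro v
      show π2 _ * π2 _ = 1
      rw [← map_mul, hOK12.sq, map_one]
    · intro σ hσ u hu v hv
      show π2 _ * π2 _ = π2 _ * π2 _
      rw [← map_mul, hOK12.comm σ hσ.1 u hu v hv, map_mul]
    · refine ⟨(extLab V L).comp (MonoidHom.snd Q2 _), ?_⟩
      intro σ hσ v hv u
      have hLv : L v := hσ.2 v hv
      show (extLab V L (b v).2).toAdd u = if u = v then 1 else 0
      have hb' := hbL ⟨v, hLv⟩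
      have hb3 : (b v).2.toAdd = (Pi.single (⟨v, hLv⟩ : {v // G.Adj s v ∧ G.Adj t v}) 1 :
        _ → ZMod 2) := congrArg (fun z => z.2.toAdd) hb'
      by_cases hu : L u
      · rw [extLab_pos V L _ u hu, hb3, Pi.single_apply]
        simp [Subtype.ext_iff]
      · rw [extLab_neg V L _ u hu, if_neg]
        rintro rfl
        exact hu hLv
  have k5 := bettiF_cover_real (isPGroup_std hP12) π2 hπ2 (stdA q12) (lkF G s t) hOKb
    hOK12.sq (fun σ hσ => hOK12.comm σ hσ.1) j
  have k6 : bettiF b (lkF G s t) j = bettiF (stdA q2) (cliq (linkG G s t)) j := by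
    have e1 : lkF G s t = (fun σ : Finset {v // G.Adj s v ∧ G.Adj t v} =>
        σ.map (Function.Embedding.subtype _)) '' (cliq (linkG G s t)) := by
      ext σ
      constructor
      · intro hσ
        refine ⟨σ.subtype _, ?_, ?_⟩
        · rintro ⟨u, hu⟩ hu' ⟨v, hv⟩ hv' huv
          have h1 := Finset.mem_subtype.mp (Finset.mem_coe.mp hu')
          have h2 := Finset.mem_subtype.mp (Finset.mem_coe.mp hv')
          exact hσ.1 h1 h2 (fun h => huv (Subtype.ext h))
        · exact Finset.subtype_map_of_mem hσ.2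
      · rintro ⟨τ, hτ, rfl⟩
        refine ⟨?_, ?_⟩
        · intro u hu v hv huv
          obtain ⟨u', hu', rfl⟩ := Finset.mem_map.mp (Finset.mem_coe.mp hu)
          obtain ⟨v', hv', rfl⟩ := Finset.mem_map.mp (Finset.mem_coe.mp hv)
          exact hτ hu' hv' (fun h => huv (by rw [h]))
        · intro v hv
          obtain ⟨v', hv', rfl⟩ := Finset.mem_map.mp hv
          exact v'.2
    rw [e1, bettiF_reindex]
    congr 1
    funext v
    exact hbL v
  have k5' : (bettiF (stdA q12) (lkF G s t) j : ℝ) ≤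
      (Nat.card ((Q1 × Q2) × Multiplicative (V → ZMod 2)) /
        Nat.card (Q2 × Multiplicative ({v // G.Adj s v ∧ G.Adj t v} → ZMod 2)) : ℝ) *
        bettiF (stdA q2) (cliq (linkG G s t)) j := by
    rw [← k6]; exact k5
  -- the part `slF`
  have hst' : s ≠ t := G.ne_of_adj hst
  have hOKs : OK (fun v => stdA q (some v)) (slF G s t) := by
    refine ⟨conv_of_down (slF_down G s t), fun v => hOK.sq (some v),
      fun σ hσ => hdcomm σ hσ.1, ?_⟩
    refine ⟨(resLab V).comp (MonoidHom.snd _ _), ?_⟩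
    intro σ _ v _ u
    show (Pi.single (some v) 1 : Option V → ZMod 2) (some u) = _
    rw [Pi.single_apply]
    simp
  have k7 := bettiF_susp (fun v => stdA q (some v)) s t hst' (slF G s t) hOKs
    (fun σ hσ => hσ.1.2) ?_ ?_ ?_ j
  · have hi := index_closure_le ((MonoidHom.snd (Q1 × Q2) (DihedralGroup (2 ^ m))).comp
      (MonoidHom.fst ((Q1 × Q2) × DihedralGroup (2 ^ m))
      (Multiplicative (Option V → ZMod 2)))) (stdA q (some s)) (stdA q (some t))
      (by show qd s = _; simp [qd]) (by show qd t = _; simp [qd, Ne.symm hst'])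
    set D : ℝ := (Nat.card (DihedralGroup (2 ^ m)) : ℝ) with hD
    set a1 : ℝ := (Nat.card Q1 : ℝ) with ha1
    set a2 : ℝ := (Nat.card Q2 : ℝ) with ha2
    have hDpos : 0 < D := by rw [hD]; exact_mod_cast Nat.card_pos
    have ha1pos : 0 < a1 := by rw [ha1]; exact_mod_cast Nat.card_pos
    have ha2pos : 0 < a2 := by rw [ha2]; exact_mod_cast Nat.card_pos
    have hcA : (Nat.card (((Q1 × Q2) × DihedralGroup (2 ^ m)) ×
        Multiplicative (Option V → ZMod 2)) : ℝ) = a1 * a2 * D * (2 ^ n * 2) := by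
      rw [Nat.card_prod, Nat.card_prod, Nat.card_prod, card_mulfun, Finite.card_option,
        pow_succ, hn, ← Nat.card_eq_fintype_card]
      push_cast
      rfl
    have hcA1 : (Nat.card ((Q1 × Q2) × Multiplicative (V → ZMod 2)) : ℝ) =
        a1 * a2 * 2 ^ n := by
      rw [Nat.card_prod, Nat.card_prod, card_mulfun, hn, ← Nat.card_eq_fintype_card]
      push_cast
      rfl
    have hcB1 : (Nat.card (Q1 × Multiplicative (V → ZMod 2)) : ℝ) = a1 * 2 ^ n := by
      rw [Nat.card_prod, card_mulfun, hn, ← Nat.card_eq_fintype_card]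
      push_cast
      rfl
    have hcB2 : a2 ≤ (Nat.card (Q2 × Multiplicative ({v // G.Adj s v ∧ G.Adj t v} →
        ZMod 2)) : ℝ) := by
      rw [Nat.card_prod, card_mulfun]
      push_cast
      have : (1 : ℝ) ≤ 2 ^ Nat.card {v // G.Adj s v ∧ G.Adj t v} :=
        one_le_pow₀ (by norm_num)
      nlinarith
    have hidx : ((Subgroup.closure {stdA q (some s), stdA q (some t)}).index : ℝ) ≤
        a1 * a2 * (2 ^ n * 2) := by
      have h1 : ((Subgroup.closure {stdA q (some s), stdA q (some t)}).index : ℝ) * D ≤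
          a1 * a2 * D * (2 ^ n * 2) := by
        rw [← hcA, hD]; exact_mod_cast hi
      have h2 : a1 * a2 * D * (2 ^ n * 2) = a1 * a2 * (2 ^ n * 2) * D := by ring
      rw [h2] at h1
      exact le_of_mul_le_mul_right h1 hDpos
    have hk7 : (bettiF (fun v => stdA q (some v)) (slF G s t) j : ℝ) ≤
        2 ^ n * (a1 * a2 * (2 ^ n * 2)) := by
      have h1 : (bettiF (fun v => stdA q (some v)) (slF G s t) j : ℝ) ≤
          2 ^ n * ((Subgroup.closure {stdA q (some s), stdA q (some t)}).index : ℝ) := by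
        exact_mod_cast k7
      exact h1.trans (mul_le_mul_of_nonneg_left hidx (by positivity))
    -- cliq G
    have hb1' : (bettiF (stdA q12) (cliq G) (j + 1) : ℝ) ≤ a2 * (ε / 6 * a1) := by
      have e : (Nat.card ((Q1 × Q2) × Multiplicative (V → ZMod 2)) /
          Nat.card (Q1 × Multiplicative (V → ZMod 2)) : ℝ) = a2 := by
        rw [hcA1, hcB1, div_eq_iff (by positivity)]
        ring
      rw [e] at k4'
      exact k4'.trans (mul_le_mul_of_nonneg_left hb1 ha2pos.le)
    have hb2' : (bettiF (stdA q12) (lkF G s t) j : ℝ) ≤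
        a1 * 2 ^ n * (ε / (3 * (2 * 2 ^ n)) * a2) := by
      have e : (Nat.card ((Q1 × Q2) × Multiplicative (V → ZMod 2)) /
          Nat.card (Q2 × Multiplicative ({v // G.Adj s v ∧ G.Adj t v} → ZMod 2)) : ℝ) ≤
          a1 * 2 ^ n := by
        rw [hcA1, div_le_iff₀ (lt_of_lt_of_le ha2pos hcB2)]
        calc a1 * a2 * 2 ^ n = a1 * 2 ^ n * a2 := by ring
          _ ≤ _ := mul_le_mul_of_nonneg_left hcB2 (by positivity)
      have h0 : (0 : ℝ) ≤ (Nat.card ((Q1 × Q2) × Multiplicative (V → ZMod 2)) /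
          Nat.card (Q2 × Multiplicative ({v // G.Adj s v ∧ G.Adj t v} → ZMod 2)) : ℝ) := by
        positivity
      calc (bettiF (stdA q12) (lkF G s t) j : ℝ) ≤ _ := k5'
        _ ≤ (Nat.card ((Q1 × Q2) × Multiplicative (V → ZMod 2)) /
          Nat.card (Q2 × Multiplicative ({v // G.Adj s v ∧ G.Adj t v} → ZMod 2)) : ℝ) *
            (ε / (3 * (2 * 2 ^ n)) * a2) := mul_le_mul_of_nonneg_left hb2 h0
        _ ≤ _ := mul_le_mul_of_nonneg_right e (by positivity)
    have hk3 : (bettiF (stdA q12) (delF G s t) (j + 1) : ℝ) ≤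
        a2 * (ε / 6 * a1) + a1 * 2 ^ n * (ε / (3 * (2 * 2 ^ n)) * a2) := by
      have h1 : (bettiF (stdA q12) (delF G s t) (j + 1) : ℝ) ≤
          bettiF (stdA q12) (cliq G) (j + 1) + bettiF (stdA q12) (lkF G s t) j := by
        exact_mod_cast k3
      linarith
    have hk2 : (bettiF (fun v => stdA q (some v)) (delF G s t) (j + 1) : ℝ) ≤
        2 * D * (a2 * (ε / 6 * a1) + a1 * 2 ^ n * (ε / (3 * (2 * 2 ^ n)) * a2)) := by
      have e : (Nat.card (((Q1 × Q2) × DihedralGroup (2 ^ m)) ×
          Multiplicative (Option V → ZMod 2)) /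
        Nat.card ((Q1 × Q2) × Multiplicative (V → ZMod 2)) : ℝ) = 2 * D := by
        rw [hcA, hcA1, div_eq_iff (by positivity)]
        ring
      rw [e] at k2'
      exact k2'.trans (mul_le_mul_of_nonneg_left hk3 (by positivity))
    have hk1 : (bettiF (stdA q) (cliq (subdivG G s t)) (j + 1) : ℝ) ≤
        bettiF (fun v => stdA q (some v)) (delF G s t) (j + 1) +
          bettiF (fun v => stdA q (some v)) (slF G s t) j := by exact_mod_cast k1
    have hcQ : (Nat.card ((Q1 × Q2) × DihedralGroup (2 ^ m)) : ℝ) = a1 * a2 * D := by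
      rw [Nat.card_prod, Nat.card_prod]
      push_cast
      rfl
    rw [hcQ]
    have e1 : 2 * D * (a2 * (ε / 6 * a1) + a1 * 2 ^ n * (ε / (3 * (2 * 2 ^ n)) * a2)) =
        a1 * a2 * D * (2 * ε / 3) := by
      have : (2 : ℝ) ^ n ≠ 0 := by positivity
      field_simp
      ring
    have e2 : 2 ^ n * (a1 * a2 * (2 ^ n * 2)) ≤ a1 * a2 * (ε * D / 3) := by
      have : (2 : ℝ) ^ n * (2 ^ n * 2) ≤ ε * D / 3 := by linarith
      calc 2 ^ n * (a1 * a2 * (2 ^ n * 2)) = a1 * a2 * (2 ^ n * (2 ^ n * 2)) := by ring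
        _ ≤ _ := mul_le_mul_of_nonneg_left this (by positivity)
    calc (bettiF (stdA q) (cliq (subdivG G s t)) (j + 1) : ℝ) ≤
        a1 * a2 * D * (2 * ε / 3) + a1 * a2 * (ε * D / 3) := by
          rw [e1] at hk2
          linarith
      _ = ε * (a1 * a2 * D) := by ring
  · intro σ hσ hs
    have hsub : σ.erase s ∈ slF G s t := slF_down G s t σ hσ _ (Finset.erase_subset _ _)
    have ht : t ∉ σ := fun h => hσ.1.2 ⟨hs, h⟩
    refine ⟨hsub, ⟨?_, ?_⟩, ?_⟩
    · show G.IsClique _
      rw [Finset.coe_insert, SimpleGraph.isClique_insert]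
      refine ⟨hsub.1.1, ?_⟩
      intro v hv hne
      rcases hsub.2 v (Finset.mem_coe.mp hv) with h | h | h
      · exact (Finset.ne_of_mem_erase (Finset.mem_coe.mp hv) h).elim
      · exact (hne h.symm).elim
      · exact h.2
    · rintro ⟨h1, h2⟩
      rcases Finset.mem_insert.mp h1 with h | h
      · exact hst' h
      · exact Finset.notMem_erase s σ h
    · intro v hv
      rcases Finset.mem_insert.mp hv with h | h
      · exact Or.inr (Or.inl h)
      · exact hsub.2 v h
  · intro σ hσ ht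
    have hsub : σ.erase t ∈ slF G s t := slF_down G s t σ hσ _ (Finset.erase_subset _ _)
    have hs : s ∉ σ := fun h => hσ.1.2 ⟨h, ht⟩
    refine ⟨hsub, ⟨?_, ?_⟩, ?_⟩
    · show G.IsClique _
      rw [Finset.coe_insert, SimpleGraph.isClique_insert]
      refine ⟨hsub.1.1, ?_⟩
      intro v hv hne
      rcases hsub.2 v (Finset.mem_coe.mp hv) with h | h | h
      · exact (hne h.symm).elim
      · exact (Finset.ne_of_mem_erase (Finset.mem_coe.mp hv) h).elim
      · exact h.1
    · rintro ⟨h1, h2⟩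
      rcases Finset.mem_insert.mp h2 with h | h
      · exact hst' h.symm
      · exact Finset.notMem_erase t σ h
    · intro v hv
      rcases Finset.mem_insert.mp hv with h | h
      · exact Or.inl h
      · exact hsub.2 v h
  · intro σ hσ hs ht
    have hnb : ∀ v ∈ σ, G.Adj s v ∧ G.Adj t v := by
      intro v hv
      rcases hσ.2 v hv with h | h | h
      · exact (hs (h ▸ hv)).elim
      · exact (ht (h ▸ hv)).elim
      · exact h
    refine ⟨⟨⟨?_, ?_⟩, ?_⟩, ⟨⟨?_, ?_⟩, ?_⟩⟩
    · show G.IsClique _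
      rw [Finset.coe_insert, SimpleGraph.isClique_insert]
      exact ⟨hσ.1.1, fun v hv _ => (hnb v (Finset.mem_coe.mp hv)).1⟩
    · rintro ⟨_, h2⟩
      rcases Finset.mem_insert.mp h2 with h | h
      · exact hst' h.symm
      · exact ht h
    · intro v hv
      rcases Finset.mem_insert.mp hv with h | h
      · exact Or.inl h
      · exact hσ.2 v h
    · show G.IsClique _
      rw [Finset.coe_insert, SimpleGraph.isClique_insert]
      exact ⟨hσ.1.1, fun v hv _ => (hnb v (Finset.mem_coe.mp hv)).2⟩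
    · rintro ⟨h1, _⟩
      rcases Finset.mem_insert.mp h1 with h | h
      · exact hst' h
      · exact hs h
    · intro v hv
      rcases Finset.mem_insert.mp hv with h | h
      · exact Or.inr (Or.inl h)
      · exact hσ.2 v h

end Subdiv

theorem SmallGrad.subdiv {V : Type} [Finite V] (G : SimpleGraph V) (s t : V)
    (hst : G.Adj s t) (k : ℕ) (h1 : SmallGrad k G)
    (h2 : ∀ j, j + 1 = k → SmallGrad j (linkG G s t)) : SmallGrad k (subdivG G s t) := by
  classical
  have := Fintype.ofFinite V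
  rcases k with _ | j
  · exact subdiv_zero G s t hst h1
  · exact subdiv_succ G s t hst j h1 (h2 j rfl)

end SingerRA
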