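import Mathlib
import Pool.Agent.Lib_MP_394d50_gt.Defs2
import Pool.Agent.Lib_MP_394d50_gt.AOne
import Pool.Agent.Lib_MP_394d50_gt.AReindex
import Pool.Agent.Lib_MP_394d50_gt.ASmall

/-! Piece AGOOD: small gradients for the class `Good`. -/

namespace SingerRA

theorem Good.finite {n : ℕ} {V : Type} {G : SimpleGraph V} (h : Good n G) : Finite V := by
  induction h with
  | empty hV G => exact Finite.of_subsingleton
  | susp n hV G => exact inferInstance
  | subdiv h hst hl ih1 ih2 => exact inferInstance
  | iso h e ih => exact Finite.of_equiv _ e.toEquiv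

namespace AGoodAux

variable {V : Type} [Fintype V] [DecidableEq V] {A B : Type} [Group A] [Group B]

/-- Transport of chains along an isomorphism of groups. -/
def trL (V : Type) {A B : Type} [Group A] [Group B] (φ : A ≃* B) :
    (Finset V → A → ZMod 2) ≃ₗ[ZMod 2] (Finset V → B → ZMod 2) where
  toFun c := fun σ y => c σ (φ.symm y)
  invFun c := fun σ x => c σ (φ x)
  left_inv c := by
    funext σ x
    show c σ (φ.symm (φ x)) = c σ x
    rw [MulEquiv.symm_apply_apply]
  right_inv c := by
    funext σ y
    show c σ (φ (φ.symm y)) = c σ y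
    rw [MulEquiv.apply_symm_apply]
  map_add' _ _ := rfl
  map_smul' _ _ := rfl

omit [Fintype V] [DecidableEq V] in
theorem IC_map (φ : A ≃* B) (a : V → A) (T : Set (Finset V)) (k : ℕ) :
    (IC a T k).map (trL V φ).toLinearMap = IC (fun v => φ (a v)) T k := by
  ext c
  constructor
  · rintro ⟨d, hd, rfl⟩
    refine ⟨fun σ hσ => ?_, fun σ v hv x => ?_⟩
    · funext y
      show d σ (φ.symm y) = 0
      rw [hd.1 σ hσ]; rfl
    · show d σ (φ.symm (x * φ (a v))) = d σ (φ.symm x)
      rw [map_mul, MulEquiv.symm_apply_apply]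
      exact hd.2 σ v hv _
  · intro hc
    refine ⟨(trL V φ).symm c, ⟨fun σ hσ => ?_, fun σ v hv x => ?_⟩, ?_⟩
    · funext y
      show c σ (φ y) = 0
      rw [hc.1 σ hσ]; rfl
    · show c σ (φ (x * a v)) = c σ (φ x)
      rw [map_mul]
      exact hc.2 σ v hv _
    · exact (trL V φ).apply_symm_apply c

omit [Group A] [Group B] in
theorem sum_apply_aux {ι : Type} (s : Finset ι) (g : ι → A → ZMod 2) (x : A) :
    (∑ i ∈ s, g i) x = ∑ i ∈ s, g i x := Finset.sum_apply x s g

theorem dT_tr (φ : A ≃* B) (T : Set (Finset V)) (c : Finset V → A → ZMod 2) :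
    dT B T (trL V φ c) = trL V φ (dT A T c) := by
  classical
  funext τ y
  show (if τ ∈ T then ∑ v ∈ Finset.univ \ τ, trL V φ c (insert v τ) else 0) y =
    (if τ ∈ T then ∑ v ∈ Finset.univ \ τ, c (insert v τ) else 0) (φ.symm y)
  split_ifs with h
  · rw [sum_apply_aux, sum_apply_aux]
    rfl
  · rfl

theorem bettiF_equiv (φ : A ≃* B) (a : V → A) (T : Set (Finset V)) (k : ℕ) :
    bettiF a T k = bettiF (fun v => φ (a v)) T k := by
  classical
  have h1 : ∀ k, Module.finrank (ZMod 2) (IC a T k) =
      Module.finrank (ZMod 2) (IC (fun v => φ (a v)) T k) := by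
    intro k
    rw [← IC_map φ a T k]
    exact (LinearEquiv.finrank_map_eq (trL V φ) (IC a T k)).symm
  have h2 : ∀ k, Module.finrank (ZMod 2) ((IC a T k).map (dT A T)) =
      Module.finrank (ZMod 2) ((IC (fun v => φ (a v)) T k).map (dT B T)) := by
    intro k
    rw [← IC_map φ a T k, ← LinearEquiv.finrank_map_eq (trL V φ) ((IC a T k).map (dT A T)),
      ← Submodule.map_comp, ← Submodule.map_comp]
    have h3 : (trL V φ).toLinearMap ∘ₗ (dT A T) = (dT B T) ∘ₗ (trL V φ).toLinearMap := by
      apply LinearMap.ext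
      intro c
      exact (dT_tr φ T c).symm
    rw [h3]
  unfold bettiF cdim rk
  rw [h1, h2, h2]

/-- The isomorphism of the standard groups given by a bijection of the vertices. -/
def prodEquiv (Q : Type) [Group Q] {V V' : Type} (e : V ≃ V') :
    Q × Multiplicative (V' → ZMod 2) ≃* Q × Multiplicative (V → ZMod 2) where
  toFun p := (p.1, Multiplicative.ofAdd (fun v => p.2.toAdd (e v)))
  invFun p := (p.1, Multiplicative.ofAdd (fun v => p.2.toAdd (e.symm v)))
  left_inv p := by
    refine Prod.ext rfl ?_
    apply Multiplicative.toAdd.injective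
    funext v
    show p.2.toAdd (e (e.symm v)) = p.2.toAdd v
    rw [Equiv.apply_symm_apply]
  right_inv p := by
    refine Prod.ext rfl ?_
    apply Multiplicative.toAdd.injective
    funext v
    show p.2.toAdd (e.symm (e v)) = p.2.toAdd v
    rw [Equiv.symm_apply_apply]
  map_mul' _ _ := rfl

end AGoodAux

open AGoodAux

theorem SmallGrad.iso {V V' : Type} [Finite V] {G : SimpleGraph V} {G' : SimpleGraph V'}
    (e : G ≃g G') (k : ℕ) (h : SmallGrad k G) : SmallGrad k G' := by
  intro fV' dV' ε hε
  letI fV : Fintype V := Fintype.ofFinite V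
  letI dV : DecidableEq V := Classical.decEq V
  obtain ⟨Q, gQ, finQ, q, hQ, hsq, hcomm, hb⟩ := h fV dV ε hε
  refine ⟨Q, gQ, finQ, fun v => q (e.symm v), hQ, fun v => hsq _, fun u v huv => ?_, ?_⟩
  · exact hcomm _ _ (e.symm.map_rel_iff.mpr huv)
  · have h1 : cliq G' = (fun σ : Finset V => σ.map e.toEquiv.toEmbedding) '' cliq G := by
      ext σ
      constructor
      · intro hσ
        refine ⟨σ.map e.symm.toEquiv.toEmbedding, ?_, ?_⟩
        · intro u hu v hv huv
          have hu' := Finset.mem_coe.mp hu
          have hv' := Finset.mem_coe.mp hv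
          rw [Finset.mem_map] at hu' hv'
          obtain ⟨u', hu1, rfl⟩ := hu'
          obtain ⟨v', hv1, rfl⟩ := hv'
          have h2 : u' ≠ v' := fun h3 => huv (by rw [h3])
          exact e.symm.map_rel_iff.mpr (hσ hu1 hv1 h2)
        · ext v
          simp only [Finset.mem_map, Equiv.coe_toEmbedding]
          constructor
          · rintro ⟨w, ⟨u, hu, rfl⟩, rfl⟩
            have : e.toEquiv (e.symm.toEquiv u) = u := e.apply_symm_apply u
            rw [this]
            exact hu
          · intro hv
            exact ⟨e.symm.toEquiv v, ⟨v, hv, rfl⟩, e.apply_symm_apply v⟩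
      · rintro ⟨ρ, hρ, rfl⟩
        intro u hu v hv huv
        have hu' := Finset.mem_coe.mp hu
        have hv' := Finset.mem_coe.mp hv
        simp only [Finset.mem_map] at hu' hv'
        obtain ⟨u', hu1, rfl⟩ := hu'
        obtain ⟨v', hv1, rfl⟩ := hv'
        have h2 : u' ≠ v' := fun h3 => huv (by rw [h3])
        exact e.map_rel_iff.mpr (hρ hu1 hv1 h2)
    have h2 := bettiF_reindex e.toEquiv.toEmbedding (stdA fun v => q (e.symm v)) (cliq G) k
    rw [h1, h2, bettiF_equiv (prodEquiv Q e.toEquiv)]
    have h3 : (fun v => (prodEquiv Q e.toEquiv)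
        (stdA (fun v => q (e.symm v)) (e.toEquiv.toEmbedding v))) = stdA q := by
      funext v
      refine Prod.ext ?_ ?_
      · show q (e.symm (e v)) = q v
        rw [RelIso.symm_apply_apply]
      · apply Multiplicative.toAdd.injective
        funext u
        show (Pi.single (e v) 1 : V' → ZMod 2) (e u) = (Pi.single v 1 : V → ZMod 2) u
        rw [Pi.single_apply, Pi.single_apply]
        by_cases h4 : u = v
        · rw [h4, if_pos rfl, if_pos rfl]
        · rw [if_neg h4, if_neg (fun h5 => h4 (e.injective h5))]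
    rw [h3]
    exact hb

theorem small_of_good {n : ℕ} {V : Type} {G : SimpleGraph V} (h : Good n G) (k : ℕ)
    (hk : 2 * k ≠ n) : SmallGrad k G := by
  induction h generalizing k with
  | @empty V hV G =>
    intro fV dV ε hε
    refine ⟨Multiplicative (ZMod 1), inferInstance, inferInstance, fun _ => 1, ?_, fun _ => rfl,
      fun _ _ _ => rfl, ?_⟩
    · apply IsPGroup.of_card (n := 0)
      rw [pow_zero]
      exact Nat.card_unique
    · rw [bettiF_eq_zero]
      · push_cast
        positivity
      · intro σ _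
        rw [Finset.eq_empty_of_isEmpty σ, Finset.card_empty]
        omega
  | susp n hV G => exact SmallGrad.susp G k
  | subdiv h hst hl ih1 ih2 =>
    haveI := h.finite
    exact SmallGrad.subdiv _ _ _ hst k (ih1 k hk) (fun j hj => ih2 j (by omega))
  | iso h e ih =>
    haveI := h.finite
    exact SmallGrad.iso e k (ih k hk)

end SingerRA
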