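import Mathlib

/-! Piece BRANK: ranks of integer matrices modulo 2 and over the reals. -/

namespace SingerRA

open Matrix

theorem BRankAux.linInd_int {κ n : Type} [Fintype κ] [Finite n] (w : κ → n → ℤ)
    (h : LinearIndependent (ZMod 2) (fun i => (fun j => ((w i j : ℤ) : ZMod 2)))) :
    LinearIndependent ℤ w := by
  classical
  rw [Fintype.linearIndependent_iff] at h ⊢
  -- descent on the sum of the absolute values
  have key : ∀ N : ℕ, ∀ g : κ → ℤ, (∑ i, (g i).natAbs) ≤ N → ∑ i, g i • w i = 0 →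
      ∀ i, g i = 0 := by
    intro N
    induction N using Nat.strong_induction_on with
    | _ N ih =>
      intro g hN hg
      have hmod : ∀ i, ((g i : ℤ) : ZMod 2) = 0 := by
        refine h (fun i => ((g i : ℤ) : ZMod 2)) ?_
        funext j
        have := congrFun hg j
        simp only [Finset.sum_apply, Pi.smul_apply, smul_eq_mul, Pi.zero_apply] at this ⊢
        have h2 := congrArg (Int.cast : ℤ → ZMod 2) this
        push_cast at h2
        exact h2
      have hdiv : ∀ i, ∃ k : ℤ, g i = 2 * k := by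
        intro i
        have := (ZMod.intCast_zmod_eq_zero_iff_dvd (g i) 2).1 (by exact_mod_cast hmod i)
        obtain ⟨k, hk⟩ := this
        exact ⟨k, by simpa using hk⟩
      choose g' hg' using hdiv
      by_contra hne
      push Not at hne
      obtain ⟨i₀, hi₀⟩ := hne
      have hsum : ∑ i, g' i • w i = 0 := by
        have h2 : (2 : ℤ) • ∑ i, g' i • w i = 0 := by
          rw [Finset.smul_sum, ← hg]
          refine Finset.sum_congr rfl (fun i _ => ?_)
          rw [smul_smul, ← hg' i]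
        rcases smul_eq_zero.1 h2 with h3 | h3
        · norm_num at h3
        · exact h3
      have hlt : (∑ i, (g' i).natAbs) < ∑ i, (g i).natAbs := by
        refine Finset.sum_lt_sum (fun i _ => ?_) ⟨i₀, Finset.mem_univ _, ?_⟩
        · rw [hg' i, Int.natAbs_mul]
          have : (2 : ℤ).natAbs = 2 := rfl
          rw [this]; omega
        · have h0 : g' i₀ ≠ 0 := by
            intro h0
            apply hi₀
            rw [hg' i₀, h0, mul_zero]
          have h1 : 0 < (g' i₀).natAbs := Int.natAbs_pos.2 h0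
          rw [hg' i₀, Int.natAbs_mul]
          have : (2 : ℤ).natAbs = 2 := rfl
          rw [this]; omega
      have := ih (∑ i, (g' i).natAbs) (lt_of_lt_of_le hlt hN) g' le_rfl hsum i₀
      apply hi₀
      rw [hg' i₀, this, mul_zero]
  exact fun g hg => key _ g le_rfl hg

theorem rank_mod_le {m n : Type} [Fintype m] [Fintype n] (D : Matrix m n ℤ) :
    (D.map (Int.cast : ℤ → ZMod 2)).rank ≤ (D.map (Int.cast : ℤ → ℝ)).rank := by
  classical
  obtain ⟨κ, a, ha, hspan, hli⟩ := exists_linearIndependent' (ZMod 2)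
    (D.map (Int.cast : ℤ → ZMod 2)).row
  have : Finite κ := Finite.of_injective a ha
  let _ : Fintype κ := Fintype.ofFinite κ
  have h1 : (D.map (Int.cast : ℤ → ZMod 2)).rank = Fintype.card κ := by
    rw [rank_eq_finrank_span_row, ← hspan]
    exact (linearIndependent_iff_card_eq_finrank_span.mp hli).symm
  have h2 : LinearIndependent ℤ (fun i : κ => D (a i)) :=
    BRankAux.linInd_int (fun i : κ => D (a i)) hli
  have h3 : LinearIndependent ℝ (fun i : κ => algebraMap ℤ ℝ ∘ D (a i)) :=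
    linearIndependent_algebraMap_comp_iff.2 h2
  have h4 : ((D.map (Int.cast : ℤ → ℝ)).submatrix a id).rank = Fintype.card κ := by
    apply LinearIndependent.rank_matrix
    exact h3
  rw [h1, ← h4]
  exact rank_submatrix_le _ _ _

/-- The nullity of the Laplacian `Eᵀ E + D Dᵀ` of a complex `p → n → m` (`E D = 0`) is at most
`|n| - rank₂ E - rank₂ D`. -/
theorem nullity_le {m n p : Type} [Fintype m] [Fintype n] [Fintype p] [DecidableEq n]
    (E : Matrix m n ℤ) (D : Matrix n p ℤ) (h : E * D = 0) :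
    Module.finrank ℝ (LinearMap.ker
      ((Eᵀ * E + D * Dᵀ).map (Int.cast : ℤ → ℝ)).mulVecLin) +
      (E.map (Int.cast : ℤ → ZMod 2)).rank + (D.map (Int.cast : ℤ → ZMod 2)).rank ≤
      Fintype.card n := by
  classical
  have hE := rank_mod_le E
  have hD := rank_mod_le D
  set Er : Matrix m n ℝ := E.map (Int.cast : ℤ → ℝ) with hEr
  set Dr : Matrix n p ℝ := D.map (Int.cast : ℤ → ℝ) with hDr
  have hmap : (Eᵀ * E + D * Dᵀ).map (Int.cast : ℤ → ℝ) = Erᵀ * Er + Dr * Drᵀ := by
    ext i j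
    simp [Matrix.mul_apply, hEr, hDr]
  have hED : Er * Dr = 0 := by
    have := congrArg (fun M : Matrix m p ℤ => M.map (Int.cast : ℤ → ℝ)) h
    ext i j
    have h2 := congrFun (congrFun this i) j
    simp only [Matrix.map_apply, Matrix.mul_apply, Matrix.zero_apply] at h2 ⊢
    push_cast at h2
    simpa [hEr, hDr] using h2
  rw [hmap]
  set K := LinearMap.ker (Erᵀ * Er + Dr * Drᵀ).mulVecLin with hK
  have hKmem : ∀ x ∈ K, Er *ᵥ x = 0 ∧ Drᵀ *ᵥ x = 0 := by
    intro x hx
    have h0 : (Erᵀ * Er + Dr * Drᵀ) *ᵥ x = 0 := hx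
    have h1 : x ⬝ᵥ ((Erᵀ * Er + Dr * Drᵀ) *ᵥ x) = 0 := by rw [h0, dotProduct_zero]
    rw [add_mulVec, dotProduct_add, ← mulVec_mulVec, ← mulVec_mulVec,
      dotProduct_mulVec x Erᵀ, dotProduct_mulVec x Dr, vecMul_transpose] at h1
    have e : x ᵥ* Dr = Drᵀ *ᵥ x := by rw [mulVec_transpose]
    rw [e] at h1
    have p1 : 0 ≤ (Er *ᵥ x) ⬝ᵥ (Er *ᵥ x) := Finset.sum_nonneg fun i _ => mul_self_nonneg _
    have p2 : 0 ≤ (Drᵀ *ᵥ x) ⬝ᵥ (Drᵀ *ᵥ x) := Finset.sum_nonneg fun i _ => mul_self_nonneg _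
    constructor
    · exact dotProduct_self_eq_zero.1 (by linarith)
    · exact dotProduct_self_eq_zero.1 (by linarith)
  set R := LinearMap.range Dr.mulVecLin with hR
  have hinf : K ⊓ R = ⊥ := by
    rw [Submodule.eq_bot_iff]
    rintro x ⟨hx, y, rfl⟩
    have h1 := (hKmem _ hx).2
    have h2 : (Dr *ᵥ y) ⬝ᵥ (Dr *ᵥ y) = 0 := by
      have : Drᵀ *ᵥ (Dr *ᵥ y) = 0 := h1
      calc (Dr *ᵥ y) ⬝ᵥ (Dr *ᵥ y) = ((Dr *ᵥ y) ᵥ* Dr) ⬝ᵥ y := by rw [dotProduct_mulVec]
        _ = (Drᵀ *ᵥ (Dr *ᵥ y)) ⬝ᵥ y := by rw [mulVec_transpose]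
        _ = 0 := by rw [this, zero_dotProduct]
    exact dotProduct_self_eq_zero.1 h2
  have hsup : K ⊔ R ≤ LinearMap.ker Er.mulVecLin := by
    refine sup_le ?_ ?_
    · intro x hx
      exact (hKmem x hx).1
    · rintro x ⟨y, rfl⟩
      rw [LinearMap.mem_ker, mulVecLin_apply, mulVecLin_apply, mulVec_mulVec, hED, zero_mulVec]
  have e1 := Submodule.finrank_sup_add_finrank_inf_eq K R
  rw [hinf, finrank_bot, add_zero] at e1
  have e2 := Submodule.finrank_mono hsup
  have e3 := LinearMap.finrank_range_add_finrank_ker Er.mulVecLin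
  rw [Module.finrank_fintype_fun_eq_card] at e3
  have e4 : Module.finrank ℝ R = Dr.rank := rfl
  have e5 : Module.finrank ℝ (LinearMap.range Er.mulVecLin) = Er.rank := rfl
  omega

end SingerRA
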