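import Mathlib

/-! Piece BSPEC: integral positive semidefinite matrices have few small eigenvalues. -/

namespace SingerRA

open Matrix

theorem trace_pow_eq {N : Type} [Fintype N] [DecidableEq N] (A : Matrix N N ℝ)
    (hA : A.IsHermitian) (c : ℝ) (m : ℕ) :
    Matrix.trace ((1 - c • A) ^ m) = ∑ i, (1 - c * hA.eigenvalues i) ^ m := by
  have h0 := hA.spectral_theorem
  set φ := Unitary.conjStarAlgAut ℝ (Matrix N N ℝ) hA.eigenvectorUnitary with hφ
  have h1 : (1 - c • A) ^ m =
      φ (diagonal (fun i => (1 - c * hA.eigenvalues i) ^ m)) := by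
    have h2 : 1 - c • A = φ (diagonal (fun i => (1 - c * hA.eigenvalues i))) := by
      have h3 : (diagonal (fun i => (1 - c * hA.eigenvalues i)) : Matrix N N ℝ) =
          1 - c • diagonal (RCLike.ofReal ∘ hA.eigenvalues) := by
        ext i j
        by_cases hij : i = j
        · subst hij; simp
        · simp [hij]
      rw [h3, map_sub, map_smul, ← h0, map_one]
    rw [h2, ← map_pow, diagonal_pow]
    rfl
  rw [h1, hφ, Unitary.conjStarAlgAut_apply, Matrix.trace_mul_comm, ← mul_assoc]
  simp [Matrix.trace_diagonal]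

theorem spectral_bound {N : Type} [Fintype N] [DecidableEq N] (B : Matrix N N ℤ)
    (hB : (B.map (Int.cast : ℤ → ℝ)).PosSemidef) (L : ℝ) (hL : 1 ≤ L)
    (hb : ∀ x : N → ℝ, x ⬝ᵥ ((B.map (Int.cast : ℤ → ℝ)) *ᵥ x) ≤ L * (x ⬝ᵥ x))
    (δ : ℝ) (h0 : 0 < δ) (h1 : δ < 1) (m : ℕ) :
    Matrix.trace ((1 - L⁻¹ • B.map (Int.cast : ℤ → ℝ)) ^ (2 * m)) ≤
      Module.finrank ℝ (LinearMap.ker (B.map (Int.cast : ℤ → ℝ)).mulVecLin) +
        Fintype.card N * (Real.log L / Real.log (1 / δ) + (1 - δ / L) ^ (2 * m)) := by
  classical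
  set A : Matrix N N ℝ := B.map (Int.cast : ℤ → ℝ) with hA
  have hH : A.IsHermitian := hB.isHermitian
  set ev := hH.eigenvalues with hev
  have hev0 : ∀ i, 0 ≤ ev i := fun i => hB.eigenvalues_nonneg i
  have hLpos : 0 < L := by linarith
  have hevL : ∀ i, ev i ≤ L := by
    intro i
    have h := hb (⇑(hH.eigenvectorBasis i))
    rw [hH.mulVec_eigenvectorBasis] at h
    have hn : (⇑(hH.eigenvectorBasis i) : N → ℝ) ⬝ᵥ ⇑(hH.eigenvectorBasis i) = 1 := by
      have := hH.eigenvectorBasis.orthonormal.1 i
      have h2 : inner ℝ (hH.eigenvectorBasis i) (hH.eigenvectorBasis i) = (1:ℝ) := by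
        rw [real_inner_self_eq_norm_sq, this]; norm_num
      rw [EuclideanSpace.inner_eq_star_dotProduct] at h2
      simpa using h2
    rw [dotProduct_smul, hn] at h
    simpa using h
  rw [trace_pow_eq A hH]
  -- three classes
  set Z := Finset.univ.filter (fun i => ev i = 0) with hZ
  set S := Finset.univ.filter (fun i => ev i ≠ 0 ∧ ev i < δ) with hS
  set T := Finset.univ.filter (fun i => δ ≤ ev i) with hT
  have hterm : ∀ i, (1 - L⁻¹ * ev i) ^ (2 * m) ≤
      (if ev i = 0 then 1 else 0) + (if ev i ≠ 0 ∧ ev i < δ then 1 else 0) +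
        (1 - δ / L) ^ (2 * m) := by
    intro i
    have hx0 : 0 ≤ 1 - L⁻¹ * ev i := by
      have : L⁻¹ * ev i ≤ 1 := by
        rw [inv_mul_le_iff₀ hLpos]; simpa using hevL i
      linarith
    have hx1 : 1 - L⁻¹ * ev i ≤ 1 := by
      have : 0 ≤ L⁻¹ * ev i := mul_nonneg (by positivity) (hev0 i)
      linarith
    have hd : 0 ≤ 1 - δ / L := by
      have : δ / L ≤ 1 := by
        rw [div_le_one hLpos]; linarith
      linarith
    have hdp : 0 ≤ (1 - δ / L) ^ (2 * m) := pow_nonneg hd _
    by_cases c1 : ev i = 0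
    · rw [if_pos c1]
      have : (1 - L⁻¹ * ev i) ^ (2 * m) ≤ 1 := pow_le_one₀ hx0 hx1
      split_ifs <;> linarith
    · by_cases c2 : ev i < δ
      · rw [if_neg c1, if_pos ⟨c1, c2⟩]
        have : (1 - L⁻¹ * ev i) ^ (2 * m) ≤ 1 := pow_le_one₀ hx0 hx1
        linarith
      · rw [if_neg c1, if_neg (fun h => c2 h.2)]
        have : (1 - L⁻¹ * ev i) ^ (2 * m) ≤ (1 - δ / L) ^ (2 * m) := by
          apply pow_le_pow_left₀ hx0
          have : δ / L ≤ L⁻¹ * ev i := by
            rw [div_eq_inv_mul]
            exact mul_le_mul_of_nonneg_left (not_lt.1 c2) (by positivity)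
          linarith
        linarith
  have hsum := Finset.sum_le_sum (fun i (_ : i ∈ Finset.univ) => hterm i)
  rw [Finset.sum_add_distrib, Finset.sum_add_distrib] at hsum
  have hZc : (∑ i, (if ev i = 0 then (1:ℝ) else 0)) =
      Module.finrank ℝ (LinearMap.ker A.mulVecLin) := by
    rw [Finset.sum_boole]
    have h1 := LinearMap.finrank_range_add_finrank_ker A.mulVecLin
    have h2 : Module.finrank ℝ (LinearMap.range A.mulVecLin) = A.rank := rfl
    rw [h2, hH.rank_eq_card_non_zero_eigs, Module.finrank_fintype_fun_eq_card] at h1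
    have h3 : (Finset.univ.filter (fun i => ev i = 0)).card +
        (Finset.univ.filter (fun i => ¬ ev i = 0)).card = Fintype.card N := by
      rw [Finset.card_filter_add_card_filter_not]
      rfl
    have h4 : Fintype.card {i // hH.eigenvalues i ≠ 0} =
        (Finset.univ.filter (fun i => ¬ ev i = 0)).card := by
      rw [Fintype.card_subtype]
    rw [h4] at h1
    have : (Finset.univ.filter (fun i => ev i = 0)).card =
        Module.finrank ℝ (LinearMap.ker A.mulVecLin) := by omega
    rw [this]
  have hSc : (∑ i, (if ev i ≠ 0 ∧ ev i < δ then (1:ℝ) else 0)) ≤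
      Fintype.card N * (Real.log L / Real.log (1 / δ)) := by
    rw [Finset.sum_boole]
    -- product of non-zero eigenvalues
    have hprod : (1:ℝ) ≤ ∏ i ∈ Finset.univ.filter (fun i => ¬ ev i = 0), ev i := by
      have hcp := hH.charpoly_eq
      have hcp2 : A.charpoly = (B.charpoly).map (Int.castRingHom ℝ) := by
        rw [hA]
        exact (Matrix.charpoly_map B (Int.castRingHom ℝ))
      have hfac : A.charpoly = Polynomial.X ^ (Finset.univ.filter (fun i => ev i = 0)).card *
          ∏ i ∈ Finset.univ.filter (fun i => ¬ ev i = 0),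
            (Polynomial.X - Polynomial.C (ev i)) := by
        rw [hcp, ← Finset.prod_filter_mul_prod_filter_not Finset.univ (fun i => ev i = 0)]
        congr 1
        rw [← Finset.prod_const]
        apply Finset.prod_congr rfl
        intro i hi
        have : ev i = 0 := (Finset.mem_filter.1 hi).2
        simp only [RCLike.ofReal_real_eq_id, id_eq]
        change Polynomial.X - Polynomial.C (ev i) = _
        rw [this]; simp
      have hc : A.charpoly.coeff (Finset.univ.filter (fun i => ev i = 0)).card =
          ∏ i ∈ Finset.univ.filter (fun i => ¬ ev i = 0), (- ev i) := by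
        rw [hfac, Polynomial.coeff_X_pow_mul', if_pos le_rfl, Nat.sub_self,
          Polynomial.coeff_zero_eq_eval_zero, Polynomial.eval_prod]
        apply Finset.prod_congr rfl
        intro i _
        simp
      have hne : (∏ i ∈ Finset.univ.filter (fun i => ¬ ev i = 0), (- ev i)) ≠ 0 := by
        rw [Finset.prod_ne_zero_iff]
        intro i hi
        exact neg_ne_zero.2 (Finset.mem_filter.1 hi).2
      have hint : ∃ z : ℤ, A.charpoly.coeff (Finset.univ.filter (fun i => ev i = 0)).card =
          (z : ℝ) := by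
        rw [hcp2]
        exact ⟨_, by rw [Polynomial.coeff_map]; rfl⟩
      obtain ⟨z, hz⟩ := hint
      rw [hc] at hz
      have hz0 : z ≠ 0 := by
        rintro rfl
        exact hne (by rw [hz]; simp)
      have habs : |∏ i ∈ Finset.univ.filter (fun i => ¬ ev i = 0), (- ev i)| =
          ∏ i ∈ Finset.univ.filter (fun i => ¬ ev i = 0), ev i := by
        rw [Finset.abs_prod]
        apply Finset.prod_congr rfl
        intro i _
        rw [abs_neg, abs_of_nonneg (hev0 i)]
      rw [← habs, hz]
      exact_mod_cast Int.one_le_abs hz0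
    -- split
    have hsplit : ∏ i ∈ Finset.univ.filter (fun i => ¬ ev i = 0), ev i ≤
        δ ^ (Finset.univ.filter (fun i => ev i ≠ 0 ∧ ev i < δ)).card * L ^ (Fintype.card N) := by
      rw [← Finset.prod_filter_mul_prod_filter_not (Finset.univ.filter (fun i => ¬ ev i = 0))
        (fun i => ev i < δ)]
      rw [Finset.filter_filter, Finset.filter_filter]
      apply mul_le_mul
      · rw [← Finset.prod_const]
        apply Finset.prod_le_prod
        · intro i _; exact hev0 i
        · intro i hi; exact (Finset.mem_filter.1 hi).2.2.le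
      · calc ∏ i ∈ Finset.univ.filter (fun i => ¬ ev i = 0 ∧ ¬ ev i < δ), ev i
            ≤ ∏ i ∈ Finset.univ.filter (fun i => ¬ ev i = 0 ∧ ¬ ev i < δ), L := by
              apply Finset.prod_le_prod
              · intro i _; exact hev0 i
              · intro i _; exact hevL i
          _ = L ^ (Finset.univ.filter (fun i => ¬ ev i = 0 ∧ ¬ ev i < δ)).card := by
              rw [Finset.prod_const]
          _ ≤ L ^ (Fintype.card N) := by
              apply pow_le_pow_right₀ hL
              exact Finset.card_le_univ _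
      · exact Finset.prod_nonneg (fun i _ => hev0 i)
      · positivity
    set s := (Finset.univ.filter (fun i => ev i ≠ 0 ∧ ev i < δ)).card with hs
    have h3 : 1 ≤ δ ^ s * L ^ (Fintype.card N) := hprod.trans hsplit
    have h4 := Real.log_nonneg h3
    rw [Real.log_mul (by positivity) (by positivity), Real.log_pow, Real.log_pow] at h4
    have hlog : Real.log (1 / δ) = - Real.log δ := by
      rw [one_div, Real.log_inv]
    have hlp : 0 < Real.log (1 / δ) := by
      rw [hlog]
      have := Real.log_neg h0 h1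
      linarith
    rw [← mul_div_assoc, le_div_iff₀ hlp, hlog]
    linarith
  have hTc : (∑ _i : N, (1 - δ / L) ^ (2 * m)) = Fintype.card N * (1 - δ / L) ^ (2 * m) := by
    rw [Finset.sum_const, Finset.card_univ, nsmul_eq_mul]
  rw [hZc, hTc] at hsum
  rw [mul_add]
  change ∑ i, (1 - L⁻¹ * ev i) ^ (2 * m) ≤ _
  linarith

end SingerRA
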