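import Mathlib
import Pool.Agent.Lib_MP_394d50_gt.Defs2
import Pool.Agent.Lib_MP_394d50_gt.BBasic
import Pool.Agent.Lib_MP_394d50_gt.BSpec
import Pool.Agent.Lib_MP_394d50_gt.BRank
import Pool.Agent.Lib_MP_394d50_gt.BBetti

/-! Piece BFIN: the trace on a finite marked group is bounded by the `F₂`-Betti number. -/

namespace SingerRA

variable {V : Type} [Fintype V] [LinearOrder V] {G : SimpleGraph V}

open scoped Classical in
/-- A sparse matrix with entries of absolute value at most one is bounded. -/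
theorem sparse_bound {a b : Type} [Fintype a] [Fintype b] (C : a → b → ℝ) (r s : ℕ)
    (hC : ∀ i j, |C i j| ≤ 1)
    (hr : ∀ i, (Finset.univ.filter (fun j => C i j ≠ 0)).card ≤ r)
    (hs : ∀ j, (Finset.univ.filter (fun i => C i j ≠ 0)).card ≤ s) (x : b → ℝ) :
    ∑ i, (∑ j, C i j * x j) ^ 2 ≤ (r : ℝ) * s * ∑ j, x j ^ 2 := by
  have h1 : ∀ i, (∑ j, C i j * x j) ^ 2 ≤
      (r : ℝ) * ∑ j, (if C i j ≠ 0 then x j ^ 2 else 0) := by
    intro i
    have e1 : ∑ j, C i j * x j = ∑ j ∈ Finset.univ.filter (fun j => C i j ≠ 0), C i j * x j := by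
      rw [Finset.sum_filter]
      apply Finset.sum_congr rfl
      intro j _
      by_cases h : C i j ≠ 0
      · rw [if_pos h]
      · rw [if_neg h]
        push Not at h
        rw [h, zero_mul]
    rw [e1]
    calc (∑ j ∈ Finset.univ.filter (fun j => C i j ≠ 0), C i j * x j) ^ 2
        ≤ (Finset.univ.filter (fun j => C i j ≠ 0)).card *
          ∑ j ∈ Finset.univ.filter (fun j => C i j ≠ 0), (C i j * x j) ^ 2 :=
          sq_sum_le_card_mul_sum_sq
      _ ≤ (r : ℝ) * ∑ j ∈ Finset.univ.filter (fun j => C i j ≠ 0), x j ^ 2 := by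
          apply mul_le_mul
          · exact_mod_cast hr i
          · apply Finset.sum_le_sum
            intro j _
            rw [mul_pow]
            have : C i j ^ 2 ≤ 1 := by
              rw [sq_le_one_iff_abs_le_one]
              exact hC i j
            nlinarith [sq_nonneg (x j)]
          · apply Finset.sum_nonneg
            intro j _
            positivity
          · positivity
      _ = _ := by rw [Finset.sum_filter]
  calc ∑ i, (∑ j, C i j * x j) ^ 2
      ≤ ∑ i, (r : ℝ) * ∑ j, (if C i j ≠ 0 then x j ^ 2 else 0) :=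
        Finset.sum_le_sum (fun i _ => h1 i)
    _ = (r : ℝ) * ∑ j, ∑ i, (if C i j ≠ 0 then x j ^ 2 else 0) := by
        rw [← Finset.mul_sum, Finset.sum_comm]
    _ ≤ (r : ℝ) * ∑ j, (s : ℝ) * x j ^ 2 := by
        apply mul_le_mul_of_nonneg_left _ (by positivity)
        apply Finset.sum_le_sum
        intro j _
        rw [← Finset.sum_filter, Finset.sum_const, nsmul_eq_mul]
        apply mul_le_mul_of_nonneg_right _ (sq_nonneg _)
        exact_mod_cast hs j
    _ = _ := by rw [← Finset.mul_sum]; ring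

section
variable {A : Type} [Group A] (M : Mk G A) [Fintype M.Cubes]

theorem bd_single (q : M.Cubes) :
    bdF M (Finsupp.single q 1) = ∑ p : M.Cubes, (M.inc p q : ℝ) • Finsupp.single p 1 := by
  classical
  ext p
  rw [bdF_apply, Finsupp.finsetSum_apply]
  simp [Finsupp.single_apply]

theorem cb_single (p : M.Cubes) :
    cbF M (Finsupp.single p 1) = ∑ q : M.Cubes, (M.inc p q : ℝ) • Finsupp.single q 1 := by
  classical
  ext q
  rw [cbF_apply, Finsupp.finsetSum_apply]
  simp [Finsupp.single_apply]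

theorem lap_single (c c' : M.Cubes) :
    ((bdF M) ∘ₗ (cbF M) + (cbF M) ∘ₗ (bdF M)) (Finsupp.single c 1) c' =
      ∑ q : M.Cubes, (M.inc c q : ℝ) * M.inc c' q +
        ∑ p : M.Cubes, (M.inc p c : ℝ) * M.inc p c' := by
  rw [LinearMap.add_apply, LinearMap.comp_apply, LinearMap.comp_apply, bd_single, cb_single,
    map_sum, map_sum, Finsupp.add_apply, Finsupp.finsetSum_apply, Finsupp.finsetSum_apply]
  congr 1
  · apply Finset.sum_congr rfl
    intro q _
    rw [map_smul, Finsupp.smul_apply, bdF_apply, smul_eq_mul]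
  · apply Finset.sum_congr rfl
    intro q _
    rw [map_smul, Finsupp.smul_apply, cbF_apply, smul_eq_mul]

theorem inc_inc (p r : M.Cubes) : ∑ q : M.Cubes, M.inc p q * M.inc q r = 0 := by
  have h := congrArg (fun f => f (Finsupp.single r 1) p) (bdF_bdF M)
  simp only [LinearMap.comp_apply, LinearMap.zero_apply, Finsupp.coe_zero, Pi.zero_apply] at h
  rw [bd_single, map_sum, Finsupp.finsetSum_apply] at h
  have h2 : ∑ q : M.Cubes, ((M.inc p q * M.inc q r : ℤ) : ℝ) = 0 := by
    rw [← h]
    apply Finset.sum_congr rfl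
    intro q _
    rw [map_smul, Finsupp.smul_apply, bdF_apply, smul_eq_mul]
    push_cast
    ring
  exact_mod_cast h2

/-- The underlying cube. -/
def kv {M : Mk G A} {k : ℕ} (c : KC M k) : M.Cubes := Subtype.val c

omit [Fintype V] [Fintype M.Cubes] in
theorem kv_dim {k : ℕ} (c : KC M k) : M.dim (kv c) = k := Subtype.property c

omit [Fintype V] [Fintype M.Cubes] in
theorem kv_inj {k : ℕ} {c c' : KC M k} (h : kv c = kv c') : c = c' := Subtype.ext h

/-- Constructor. -/
def kmk {M : Mk G A} {k : ℕ} (p : M.Cubes) (h : M.dim p = k) : KC M k := ⟨p, h⟩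

omit [Fintype V] [Fintype M.Cubes] in
theorem kv_kmk {k : ℕ} (p : M.Cubes) (h : M.dim p = k) : kv (kmk p h) = p := rfl

/-- The Laplacian on the `k`-cubes (integer matrix). -/
noncomputable def LapK (k : ℕ) : Matrix (KC M k) (KC M k) ℤ :=
  Matrix.of fun c' c => ∑ q : M.Cubes, M.inc (kv c) q * M.inc (kv c') q +
    ∑ p : M.Cubes, M.inc p (kv c) * M.inc p (kv c')

theorem TF_single (k : ℕ) [Fintype (KC M k)] [DecidableEq (KC M k)] (c : KC M k) :
    TF M (Finsupp.single (kv c) 1) = ∑ c' : KC M k,
      (1 - (Lam V)⁻¹ • (LapK M k).map (Int.cast : ℤ → ℝ)) c' c • Finsupp.single (kv c') 1 := by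
  classical
  ext p
  have hL : (TF M (Finsupp.single (kv c) 1)) p = (if (kv c) = p then 1 else 0) - (Lam V)⁻¹ *
      (∑ q : M.Cubes, (M.inc (kv c) q : ℝ) * M.inc p q +
        ∑ r : M.Cubes, (M.inc r (kv c) : ℝ) * M.inc r p) := by
    rw [← lap_single]
    unfold TF
    rw [LinearMap.sub_apply, LinearMap.smul_apply, Finsupp.sub_apply, Finsupp.smul_apply,
      Module.End.one_apply, Finsupp.single_apply, smul_eq_mul]
  rw [hL, Finsupp.finsetSum_apply]
  by_cases hp : M.dim p = k
  · rw [Finset.sum_eq_single (kmk p hp)]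
    · rw [Finsupp.smul_apply, kv_kmk, Finsupp.single_eq_same, smul_eq_mul, mul_one,
        Matrix.sub_apply, Matrix.smul_apply, Matrix.map_apply, smul_eq_mul, Matrix.one_apply]
      have e : (kmk p hp = c) ↔ (kv c = p) := by
        constructor
        · intro h; rw [← h, kv_kmk]
        · intro h; apply kv_inj; rw [h, kv_kmk]
      simp only [e]
      congr 2
      unfold LapK
      rw [Matrix.of_apply, kv_kmk]
      push_cast
      rfl
    · intro c' _ hc'
      rw [Finsupp.smul_apply, Finsupp.single_eq_of_ne, smul_zero]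
      intro h
      apply hc'
      apply kv_inj
      first | exact h | exact h.symm
    · intro h; exact absurd (Finset.mem_univ _) h
  · have hne : ∀ c' : KC M k, kv c' ≠ p := by
      intro c' h
      exact hp (h ▸ kv_dim M c')
    have e1 : ∑ q : M.Cubes, (M.inc (kv c) q : ℝ) * M.inc p q = 0 := by
      apply Finset.sum_eq_zero
      intro r _
      by_contra h
      have h1 : M.inc (kv c) r ≠ 0 := by
        intro h1; apply h; rw [h1]; simp
      have h2 : M.inc p r ≠ 0 := by
        intro h1; apply h; rw [h1]; simp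
      have h3 := inc_dim M _ _ h1
      have h4 := inc_dim M _ _ h2
      have h5 := kv_dim M c
      omega
    have e2 : ∑ r : M.Cubes, (M.inc r (kv c) : ℝ) * M.inc r p = 0 := by
      apply Finset.sum_eq_zero
      intro r _
      by_contra h
      have h1 : M.inc r (kv c) ≠ 0 := by
        intro h1; apply h; rw [h1]; simp
      have h2 : M.inc r p ≠ 0 := by
        intro h1; apply h; rw [h1]; simp
      have h3 := inc_dim M _ _ h1
      have h4 := inc_dim M _ _ h2
      have h5 := kv_dim M c
      omega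
    rw [if_neg (hne c), e1, e2, Finset.sum_eq_zero]
    · simp
    · intro c' _
      rw [Finsupp.smul_apply, Finsupp.single_eq_of_ne, smul_zero]
      first | exact hne c' | exact (hne c').symm

theorem TF_pow_single (k : ℕ) [Fintype (KC M k)] [DecidableEq (KC M k)] (c : KC M k) (j : ℕ) :
    (TF M ^ j) (Finsupp.single (kv c) 1) = ∑ c' : KC M k,
      ((1 - (Lam V)⁻¹ • (LapK M k).map (Int.cast : ℤ → ℝ)) ^ j) c' c •
        Finsupp.single (kv c') 1 := by
  classical
  induction j with
  | zero =>
    rw [pow_zero, pow_zero, Finset.sum_eq_single c]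
    · simp
    · intro c' _ h
      rw [Matrix.one_apply_ne h, zero_smul]
    · intro h; exact absurd (Finset.mem_univ _) h
  | succ j ih =>
    rw [pow_succ', Module.End.mul_apply, ih, map_sum, pow_succ']
    simp only [Matrix.mul_apply, Finset.sum_smul, map_smul]
    rw [Finset.sum_comm]
    apply Finset.sum_congr rfl
    intro c' _
    rw [TF_single, Finset.smul_sum]
    apply Finset.sum_congr rfl
    intro c'' _
    rw [smul_smul, mul_comm]

theorem kap_eq (k : ℕ) [Fintype (KC M k)] [DecidableEq (KC M k)] (c : KC M k) (j : ℕ) :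
    kap M j (kv c) = ((1 - (Lam V)⁻¹ • (LapK M k).map (Int.cast : ℤ → ℝ)) ^ j) c c := by
  classical
  unfold kap
  rw [TF_pow_single, Finsupp.finsetSum_apply, Finset.sum_eq_single c]
  · simp
  · intro c' _ h
    rw [Finsupp.smul_apply, Finsupp.single_eq_of_ne, smul_zero]
    intro h'
    apply h
    apply kv_inj
    first | exact h' | exact h'.symm
  · intro h; exact absurd (Finset.mem_univ _) h

open scoped Classical in
theorem sum_kap (k : ℕ) [Fintype (KC M k)] [DecidableEq (KC M k)] (j : ℕ) :
    ∑ c : M.Cubes, (if M.dim c = k then kap M j c else 0) =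
      Matrix.trace ((1 - (Lam V)⁻¹ • (LapK M k).map (Int.cast : ℤ → ℝ)) ^ j) := by
  rw [← Finset.sum_filter]
  unfold Matrix.trace
  simp only [Matrix.diag_apply]
  rw [← Finset.sum_coe_sort]
  let e : {x // x ∈ Finset.univ.filter (fun c : M.Cubes => M.dim c = k)} ≃ KC M k :=
    { toFun := fun x => ⟨x.1, (Finset.mem_filter.1 x.2).2⟩
      invFun := fun x => ⟨x.1, Finset.mem_filter.2 ⟨Finset.mem_univ _, x.2⟩⟩
      left_inv := fun x => rfl
      right_inv := fun x => rfl }
  apply Fintype.sum_equiv e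
  intro x
  exact kap_eq M k (e x) j

omit [Fintype V] in
/-- Sums over the `k`-cubes of a function vanishing outside dimension `k`. -/
theorem sum_KC (k : ℕ) [Fintype (KC M k)] {R : Type} [AddCommMonoid R] (f : M.Cubes → R)
    (hf : ∀ c, M.dim c ≠ k → f c = 0) : ∑ c : KC M k, f (kv c) = ∑ c : M.Cubes, f c := by
  classical
  rw [← Finset.sum_filter_add_sum_filter_not Finset.univ (fun c : M.Cubes => M.dim c = k)]
  rw [Finset.sum_eq_zero (s := Finset.univ.filter (fun c : M.Cubes => ¬ M.dim c = k)), add_zero]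
  · rw [← Finset.sum_coe_sort (Finset.univ.filter (fun c : M.Cubes => M.dim c = k)) f]
    let e : {x // x ∈ Finset.univ.filter (fun c : M.Cubes => M.dim c = k)} ≃ KC M k :=
      { toFun := fun x => ⟨x.1, (Finset.mem_filter.1 x.2).2⟩
        invFun := fun x => ⟨x.1, Finset.mem_filter.2 ⟨Finset.mem_univ _, x.2⟩⟩
        left_inv := fun x => rfl
        right_inv := fun x => rfl }
    symm
    apply Fintype.sum_equiv e
    intro x
    rfl
  · intro c hc
    exact hf c (Finset.mem_filter.1 hc).2

open Matrix in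
omit [Fintype V] in
theorem quad (k : ℕ) [Fintype (KC M k)] (x : KC M k → ℝ) :
    x ⬝ᵥ ((LapK M k).map (Int.cast : ℤ → ℝ) *ᵥ x) =
      ∑ p : M.Cubes, (∑ c : KC M k, (M.inc p (kv c) : ℝ) * x c) ^ 2 +
      ∑ q : M.Cubes, (∑ c : KC M k, (M.inc (kv c) q : ℝ) * x c) ^ 2 := by
  have h1 : x ⬝ᵥ ((LapK M k).map (Int.cast : ℤ → ℝ) *ᵥ x) =
      ∑ c : KC M k, ∑ c' : KC M k, (∑ p : M.Cubes, ((M.inc p (kv c) : ℝ) * x c) *
        ((M.inc p (kv c') : ℝ) * x c') + ∑ q : M.Cubes, ((M.inc (kv c) q : ℝ) * x c) *
        ((M.inc (kv c') q : ℝ) * x c')) := by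
    unfold dotProduct Matrix.mulVec dotProduct
    apply Finset.sum_congr rfl
    intro c _
    rw [Finset.mul_sum]
    apply Finset.sum_congr rfl
    intro c' _
    have e0 : (LapK M k).map (Int.cast : ℤ → ℝ) c c' =
        ∑ q : M.Cubes, (M.inc (kv c') q : ℝ) * M.inc (kv c) q +
          ∑ p : M.Cubes, (M.inc p (kv c') : ℝ) * M.inc p (kv c) := by
      rw [Matrix.map_apply]
      unfold LapK
      rw [Matrix.of_apply]
      push_cast
      rfl
    show x c * ((LapK M k).map (Int.cast : ℤ → ℝ) c c' * x c') = _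
    rw [e0]
    rw [add_mul, mul_add, Finset.sum_mul, Finset.sum_mul, Finset.mul_sum, Finset.mul_sum, add_comm]
    congr 1
    · apply Finset.sum_congr rfl
      intro p _
      ring
    · apply Finset.sum_congr rfl
      intro p _
      ring
  rw [h1]
  simp only [Finset.sum_add_distrib, pow_two, Finset.sum_mul_sum]
  congr 1
  · rw [Finset.sum_comm]
    conv_rhs => rw [Finset.sum_comm]
    rw [Finset.sum_comm]
    apply Finset.sum_congr rfl
    intro c _
    rw [Finset.sum_comm]
  · rw [Finset.sum_comm]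
    conv_rhs => rw [Finset.sum_comm]
    rw [Finset.sum_comm]
    apply Finset.sum_congr rfl
    intro c _
    rw [Finset.sum_comm]

open Matrix in
theorem quad_le (k : ℕ) [Fintype (KC M k)] (x : KC M k → ℝ) :
    x ⬝ᵥ ((LapK M k).map (Int.cast : ℤ → ℝ) *ᵥ x) ≤ Lam V * (x ⬝ᵥ x) := by
  classical
  rw [quad]
  have habs : ∀ p q : M.Cubes, |(M.inc p q : ℝ)| ≤ 1 := by
    intro p q
    exact_mod_cast abs_inc_le M p q
  have c1 : ∀ p : M.Cubes, (Finset.univ.filter (fun c : KC M k =>
      (M.inc p (kv c) : ℝ) ≠ 0)).card ≤ Nat.card V := by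
    intro p
    refine le_trans ?_ (card_cofaces M p).2
    rw [← Set.ncard_coe_finset]
    apply Set.ncard_le_ncard_of_injOn kv _ _ (card_cofaces M p).1
    · intro c hc
      have h2 := (Finset.mem_filter.1 (Finset.mem_coe.1 hc)).2
      show M.inc p (kv c) ≠ 0
      exact_mod_cast h2
    · intro c _ c' _ h
      exact kv_inj M h
  have c2 : ∀ q : M.Cubes, (Finset.univ.filter (fun c : KC M k =>
      (M.inc (kv c) q : ℝ) ≠ 0)).card ≤ 2 * Nat.card V := by
    intro p
    refine le_trans ?_ (card_faces M p).2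
    rw [← Set.ncard_coe_finset]
    apply Set.ncard_le_ncard_of_injOn kv _ _ (card_faces M p).1
    · intro c hc
      have h2 := (Finset.mem_filter.1 (Finset.mem_coe.1 hc)).2
      show M.inc (kv c) p ≠ 0
      exact_mod_cast h2
    · intro c _ c' _ h
      exact kv_inj M h
  have c3 : ∀ p : M.Cubes, (Finset.univ.filter (fun q : M.Cubes =>
      (M.inc p q : ℝ) ≠ 0)).card ≤ Nat.card V := by
    intro p
    refine le_trans ?_ (card_cofaces M p).2
    rw [← Set.ncard_coe_finset]
    apply Set.ncard_le_ncard _ (card_cofaces M p).1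
    intro c hc
    have h2 := (Finset.mem_filter.1 (Finset.mem_coe.1 hc)).2
    show M.inc p c ≠ 0
    exact_mod_cast h2
  have c4 : ∀ q : M.Cubes, (Finset.univ.filter (fun p : M.Cubes =>
      (M.inc p q : ℝ) ≠ 0)).card ≤ 2 * Nat.card V := by
    intro q
    refine le_trans ?_ (card_faces M q).2
    rw [← Set.ncard_coe_finset]
    apply Set.ncard_le_ncard _ (card_faces M q).1
    intro c hc
    have h2 := (Finset.mem_filter.1 (Finset.mem_coe.1 hc)).2
    show M.inc c q ≠ 0
    exact_mod_cast h2
  have b1 := sparse_bound (fun (p : M.Cubes) (c : KC M k) => (M.inc p (kv c) : ℝ))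
    (Nat.card V) (2 * Nat.card V) (fun p c => habs p (kv c)) (fun p => by convert c1 p)
    (fun c => by convert c4 (kv c)) x
  have b2 := sparse_bound (fun (q : M.Cubes) (c : KC M k) => (M.inc (kv c) q : ℝ))
    (2 * Nat.card V) (Nat.card V) (fun p c => habs (kv c) p) (fun p => by convert c2 p)
    (fun c => by convert c3 (kv c)) x
  have e : x ⬝ᵥ x = ∑ c, x c ^ 2 := by
    unfold dotProduct
    apply Finset.sum_congr rfl
    intro c _
    ring
  rw [e]
  have hx : 0 ≤ ∑ c, x c ^ 2 := Finset.sum_nonneg (fun c _ => sq_nonneg _)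
  unfold Lam
  push_cast at b1 b2
  nlinarith [b1, b2, hx]

open Matrix in
theorem core (k m : ℕ) (δ : ℝ) (h0 : 0 < δ) (h1 : δ < 1) [Finite A] [Fintype (KC M k)]
    [DecidableEq (KC M k)]
    [Fintype (KC M (k + 1))] {m' : Type} [Fintype m'] (E : Matrix m' (KC M k) ℤ)
    (hE : ∀ c c', (Eᵀ * E) c c' = ∑ p : M.Cubes, M.inc p (kv c) * M.inc p (kv c'))
    (hED : E * Dmat M k (k + 1) = 0)
    (hr : rk M.a (cliq G) k = (E.map (Int.cast : ℤ → ZMod 2)).rank) :
    Matrix.trace ((1 - (Lam V)⁻¹ • (LapK M k).map (Int.cast : ℤ → ℝ)) ^ (2 * m)) ≤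
      bettiF M.a (cliq G) k +
        Nat.card (KC M k) * (Real.log (Lam V) / Real.log (1 / δ) +
          (1 - δ / Lam V) ^ (2 * m)) := by
  set D := Dmat M k (k + 1) with hD
  have hL : LapK M k = Eᵀ * E + D * Dᵀ := by
    ext c' c
    rw [Matrix.add_apply, hE, add_comm]
    unfold LapK
    rw [Matrix.of_apply]
    congr 1
    · rw [Matrix.mul_apply, ← sum_KC M (k + 1)]
      · apply Finset.sum_congr rfl
        intro q _
        rw [Matrix.transpose_apply, hD]
        show M.inc (kv c) (kv q) * M.inc (kv c') (kv q) = M.inc (kv c') (kv q) * M.inc (kv c) (kv q)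
        ring
      · intro q hq
        by_contra h
        have h1 : M.inc (kv c) q ≠ 0 := by
          intro h1; apply h; rw [h1]; simp
        have h3 := inc_dim M _ _ h1
        rw [kv_dim] at h3
        exact hq h3
    · apply Finset.sum_congr rfl
      intro p _
      ring
  have hmapmul : ∀ {a b c : Type} [Fintype b] (P : Matrix a b ℤ) (Q : Matrix b c ℤ),
      (P * Q).map (Int.cast : ℤ → ℝ) = P.map (Int.cast : ℤ → ℝ) * Q.map (Int.cast : ℤ → ℝ) := by
    intro a b c _ P Q
    exact Matrix.map_mul (f := Int.castRingHom ℝ)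
  have hpsd : ((LapK M k).map (Int.cast : ℤ → ℝ)).PosSemidef := by
    have e : (LapK M k).map (Int.cast : ℤ → ℝ) =
        (E.map (Int.cast : ℤ → ℝ))ᴴ * (E.map (Int.cast : ℤ → ℝ)) +
        (D.map (Int.cast : ℤ → ℝ)) * (D.map (Int.cast : ℤ → ℝ))ᴴ := by
      rw [hL, Matrix.map_add _ (by intro a b; push_cast; rfl), hmapmul, hmapmul]
      congr 1
    rw [e]
    exact (Matrix.posSemidef_conjTranspose_mul_self _).add
      (Matrix.posSemidef_self_mul_conjTranspose _)
  have hLam : 1 ≤ Lam V := by
    unfold Lam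
    nlinarith [sq_nonneg ((Nat.card V : ℝ))]
  have hs := spectral_bound (LapK M k) hpsd (Lam V) hLam (fun x => quad_le M k x) δ h0 h1 m
  have hn := nullity_le E D hED
  have hc := cdim_eq M k
  have hrk := rk_eq M k
  rw [← hD] at hrk
  rw [← hL] at hn
  have hfin : (Module.finrank ℝ (LinearMap.ker ((LapK M k).map (Int.cast : ℤ → ℝ)).mulVecLin) : ℤ)
      ≤ bettiF M.a (cliq G) k := by
    unfold bettiF
    rw [hc, hr, hrk, Nat.card_eq_fintype_card]
    omega
  have hfin' : (Module.finrank ℝ (LinearMap.ker ((LapK M k).map (Int.cast : ℤ → ℝ)).mulVecLin) : ℝ)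
      ≤ bettiF M.a (cliq G) k := by
    exact_mod_cast hfin
  rw [Nat.card_eq_fintype_card]
  linarith

end

open scoped Classical in
theorem tr_le {A : Type} [Group A] [Finite A] (M : Mk G A) [Fintype M.Cubes] (k m : ℕ)
    (δ : ℝ) (h0 : 0 < δ) (h1 : δ < 1) :
    ∑ c : M.Cubes, (if M.dim c = k then kap M (2 * m) c else 0) ≤
      bettiF M.a (cliq G) k +
        Nat.card (KC M k) * (Real.log (Lam V) / Real.log (1 / δ) +
          (1 - δ / Lam V) ^ (2 * m)) := by
  have : ∀ j, Fintype (KC M j) := fun j => Fintype.ofFinite _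
  rw [sum_kap]
  obtain _ | k := k
  · apply core M 0 m δ h0 h1 (m' := Empty) (fun e _ => e.elim)
    · intro c c'
      rw [Matrix.mul_apply, Finset.univ_eq_empty, Finset.sum_empty, Finset.sum_eq_zero]
      intro p _
      by_contra h
      have h1 : M.inc p (kv c) ≠ 0 := by
        intro h1; apply h; rw [h1]; simp
      have h3 := inc_dim M _ _ h1
      rw [kv_dim] at h3
      omega
    · ext e
      exact e.elim
    · rw [rk_zero]
      symm
      have : (Matrix.map (fun (e : Empty) (_ : KC M 0) => (e.elim : ℤ))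
          (Int.cast : ℤ → ZMod 2)).rank ≤ Fintype.card Empty := Matrix.rank_le_card_height _
      rw [Fintype.card_eq_zero] at this
      exact_mod_cast Nat.le_zero.1 this
  · apply core M (k + 1) m δ h0 h1 (m' := KC M k) (Dmat M k (k + 1))
    · intro c c'
      rw [Matrix.mul_apply, ← sum_KC M k]
      · rfl
      · intro p hp
        by_contra h
        have h1 : M.inc p (kv c) ≠ 0 := by
          intro h1; apply h; rw [h1]; simp
        have h3 := inc_dim M _ _ h1
        rw [kv_dim] at h3
        omega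
    · ext p r
      rw [Matrix.mul_apply, Matrix.zero_apply]
      have h := inc_inc M (kv p) (kv r)
      rw [← sum_KC M (k + 1)] at h
      · exact h
      · intro q hq
        by_contra h
        have h1 : M.inc (kv p) q ≠ 0 := by
          intro h1; apply h; rw [h1]; simp
        have h3 := inc_dim M _ _ h1
        rw [kv_dim] at h3
        omega
    · exact rk_eq M k

theorem card_KC_le {A : Type} [Group A] [Finite A] (M : Mk G A) (k : ℕ) :
    Nat.card (KC M k) ≤ 2 ^ Fintype.card V * Nat.card A := by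
  classical
  have h1 : Nat.card (Finset V × A) = 2 ^ Fintype.card V * Nat.card A := by
    rw [Nat.card_prod, Nat.card_eq_fintype_card, Fintype.card_finset]
  rw [← h1]
  apply Nat.card_le_card_of_injective (fun c : KC M k => (kv c).1)
  intro c c' h
  apply kv_inj
  exact Subtype.ext h

end SingerRA
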