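import Mathlib

/-! Piece BOP: a matrix with bounded entries and boundedly many non-zero entries in each row and
column defines a bounded operator on `ℓ²`. -/

namespace SingerRA

open Finset

private lemma bop_pow (x : ℝ) : x ^ (2 : ENNReal).toReal = x ^ 2 := by
  rw [ENNReal.toReal_ofNat, Real.rpow_two]

/-- The row estimate. -/
private lemma bop_row {ι : Type} (m : ι → ι → ℝ) (R : ℕ) (hm : ∀ i j, |m i j| ≤ 1)
    (J : Finset ι) (hJ : J.card ≤ R) (i : ι) (c : ι → ℝ) :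
    (∑ j ∈ J, m i j * c j) ^ 2 ≤ R * ∑ j ∈ J, c j ^ 2 := by
  calc (∑ j ∈ J, m i j * c j) ^ 2 ≤ J.card * ∑ j ∈ J, (m i j * c j) ^ 2 :=
        sq_sum_le_card_mul_sum_sq
    _ ≤ R * ∑ j ∈ J, c j ^ 2 := by
        refine mul_le_mul (by exact_mod_cast hJ) (sum_le_sum fun j _ => ?_)
          (sum_nonneg fun _ _ => by positivity) (Nat.cast_nonneg _)
        rw [mul_pow]
        have h1 : m i j ^ 2 ≤ 1 := by
          rw [← sq_abs]
          exact pow_le_one₀ (abs_nonneg _) (hm i j)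
        nlinarith [sq_nonneg (c j)]

/-- The Schur test for finite partial sums. -/
private lemma bop_schur {ι : Type} (m : ι → ι → ℝ) (R : ℕ) (hm : ∀ i j, |m i j| ≤ 1)
    (J : ι → Finset ι) (hJ : ∀ i, (J i).card ≤ R)
    (I : ι → Finset ι) (hI : ∀ j, (I j).card ≤ R) (hIJ : ∀ i j, j ∈ J i → i ∈ I j)
    (c : ι → ℝ) (N : ℝ) (hN : ∀ t : Finset ι, ∑ j ∈ t, c j ^ 2 ≤ N) (s : Finset ι) :
    ∑ i ∈ s, (∑ j ∈ J i, m i j * c j) ^ 2 ≤ R ^ 2 * N := by
  classical
  calc ∑ i ∈ s, (∑ j ∈ J i, m i j * c j) ^ 2 ≤ ∑ i ∈ s, R * ∑ j ∈ J i, c j ^ 2 :=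
        sum_le_sum fun i _ => bop_row m R hm (J i) (hJ i) i c
    _ = R * ∑ i ∈ s, ∑ j ∈ J i, c j ^ 2 := by rw [mul_sum]
    _ ≤ R * ∑ j ∈ s.biUnion J, R * c j ^ 2 := by
        refine mul_le_mul_of_nonneg_left ?_ (Nat.cast_nonneg _)
        have h1 : ∑ i ∈ s, ∑ j ∈ J i, c j ^ 2 =
            ∑ j ∈ s.biUnion J, ∑ i ∈ s.filter (fun i => j ∈ J i), c j ^ 2 := by
          apply sum_comm'
          intro i j
          rw [mem_biUnion, mem_filter]
          constructor
          · rintro ⟨h2, h3⟩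
            exact ⟨⟨h2, h3⟩, i, h2, h3⟩
          · rintro ⟨⟨h2, h3⟩, _⟩
            exact ⟨h2, h3⟩
        rw [h1]
        refine sum_le_sum fun j _ => ?_
        rw [sum_const, nsmul_eq_mul]
        refine mul_le_mul_of_nonneg_right ?_ (by positivity)
        have h4 : (s.filter (fun i => j ∈ J i)).card ≤ (I j).card := by
          apply card_le_card
          intro i hi
          exact hIJ i j (mem_filter.mp hi).2
        exact_mod_cast h4.trans (hI j)
    _ = R ^ 2 * ∑ j ∈ s.biUnion J, c j ^ 2 := by rw [← mul_sum]; ring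
    _ ≤ R ^ 2 * N := mul_le_mul_of_nonneg_left (hN _) (by positivity)

theorem exists_op {ι : Type} (m : ι → ι → ℝ) (R : ℕ) (hm : ∀ i j, |m i j| ≤ 1)
    (hrow : ∀ i, {j | m i j ≠ 0}.Finite ∧ {j | m i j ≠ 0}.ncard ≤ R)
    (hcol : ∀ j, {i | m i j ≠ 0}.Finite ∧ {i | m i j ≠ 0}.ncard ≤ R) :
    ∃ D : lp (fun _ : ι => ℝ) 2 →L[ℝ] lp (fun _ : ι => ℝ) 2,
      (∀ c i, (D c) i = ∑ᶠ j, m i j * c j) ∧ ‖D‖ ≤ R := by
  classical
  set J : ι → Finset ι := fun i => (hrow i).1.toFinset with hJ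
  set I : ι → Finset ι := fun j => (hcol j).1.toFinset with hI
  have hJc : ∀ i, (J i).card ≤ R := by
    intro i
    rw [hJ]
    have := (hrow i).2
    rwa [Set.ncard_eq_toFinset_card _ (hrow i).1] at this
  have hIc : ∀ j, (I j).card ≤ R := by
    intro j
    rw [hI]
    have := (hcol j).2
    rwa [Set.ncard_eq_toFinset_card _ (hcol j).1] at this
  have hIJ : ∀ i j, j ∈ J i → i ∈ I j := by
    intro i j h
    simpa [hJ, hI] using h
  have hbd : ∀ (c : lp (fun _ : ι => ℝ) 2) (t : Finset ι), ∑ j ∈ t, (c j) ^ 2 ≤ ‖c‖ ^ 2 := by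
    intro c t
    have h1 := lp.sum_rpow_le_norm_rpow (p := 2) (by norm_num) c t
    simp only [bop_pow] at h1
    refine le_trans (le_of_eq ?_) h1
    refine sum_congr rfl fun j _ => ?_
    rw [Real.norm_eq_abs, sq_abs]
  have hS : ∀ (c : lp (fun _ : ι => ℝ) 2) (s : Finset ι),
      ∑ i ∈ s, (∑ j ∈ J i, m i j * c j) ^ 2 ≤ (R : ℝ) ^ 2 * ‖c‖ ^ 2 := fun c s =>
    bop_schur m R hm J hJc I hIc hIJ (fun j => c j) _ (hbd c) s
  have hmem : ∀ c : lp (fun _ : ι => ℝ) 2,
      Memℓp (fun i => ∑ j ∈ J i, m i j * c j : ι → ℝ) 2 := by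
    intro c
    refine memℓp_gen' (C := (R : ℝ) ^ 2 * ‖c‖ ^ 2) fun s => ?_
    refine le_trans (le_of_eq ?_) (hS c s)
    refine sum_congr rfl fun i _ => ?_
    rw [bop_pow, Real.norm_eq_abs, sq_abs]
  let L : lp (fun _ : ι => ℝ) 2 →ₗ[ℝ] lp (fun _ : ι => ℝ) 2 :=
    { toFun := fun c => ⟨fun i => ∑ j ∈ J i, m i j * c j, hmem c⟩
      map_add' := by
        intro c d
        apply lp.ext
        funext i
        show ∑ j ∈ J i, m i j * (c j + d j) = ∑ j ∈ J i, m i j * c j + ∑ j ∈ J i, m i j * d j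
        rw [← sum_add_distrib]
        refine sum_congr rfl fun j _ => ?_
        ring
      map_smul' := by
        intro r c
        apply lp.ext
        funext i
        show ∑ j ∈ J i, m i j * (r * c j) = r * ∑ j ∈ J i, m i j * c j
        rw [mul_sum]
        refine sum_congr rfl fun j _ => ?_
        ring }
  have hL : ∀ c, ‖L c‖ ≤ R * ‖c‖ := by
    intro c
    refine lp.norm_le_of_forall_sum_le (by norm_num) (by positivity) fun s => ?_
    simp only [bop_pow]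
    rw [mul_pow]
    refine le_trans (le_of_eq ?_) (hS c s)
    refine sum_congr rfl fun i _ => ?_
    rw [Real.norm_eq_abs, sq_abs]
    rfl
  refine ⟨L.mkContinuous R hL, ?_, L.mkContinuous_norm_le (Nat.cast_nonneg _) hL⟩
  intro c i
  rw [LinearMap.mkContinuous_apply]
  show ∑ j ∈ J i, m i j * c j = _
  rw [finsum_eq_sum_of_support_subset]
  intro j hj
  rw [Function.mem_support] at hj
  have h1 : m i j ≠ 0 := left_ne_zero_of_mul hj
  simpa [hJ] using h1

end SingerRA
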