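import Mathlib
import Pool.Agent.Lib_MP_394d50_gt.Defs2
import Pool.Agent.Lib_MP_394d50_gt.BBasic
import Pool.Agent.Lib_MP_394d50_gt.BOp

/-! Piece BHARM: the harmonic projection and the powers of `1 - Λ⁻¹ Δ`. -/

namespace SingerRA

open Filter Topology

/-! ### Abstract part -/

section Abs

variable {E : Type} [NormedAddCommGroup E] [InnerProductSpace ℝ E] [CompleteSpace E]

/-- The operator `1 - Λ⁻¹ (D D* + D* D)`. -/
private noncomputable def bhT (D : E →L[ℝ] E) (L : ℝ) : E →L[ℝ] E :=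
  1 - L⁻¹ • (D * ContinuousLinearMap.adjoint D + ContinuousLinearMap.adjoint D * D)

private theorem bhT_apply (D : E →L[ℝ] E) (L : ℝ) (x : E) : bhT D L x =
    x - L⁻¹ • (D (ContinuousLinearMap.adjoint D x) + ContinuousLinearMap.adjoint D (D x)) := rfl

/-- `⟨Δ x, y⟩ = ⟨D* x, D* y⟩ + ⟨D x, D y⟩`. -/
private theorem bh_inner (D : E →L[ℝ] E) (x y : E) :
    inner ℝ (D (ContinuousLinearMap.adjoint D x) + ContinuousLinearMap.adjoint D (D x)) y =
      inner ℝ (ContinuousLinearMap.adjoint D x) (ContinuousLinearMap.adjoint D y) +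
        inner ℝ (D x) (D y) := by
  rw [inner_add_left, ContinuousLinearMap.adjoint_inner_left,
    ContinuousLinearMap.adjoint_inner_right]

private theorem bh_symm (D : E →L[ℝ] E) (L : ℝ) (x y : E) :
    inner ℝ (bhT D L x) y = inner ℝ x (bhT D L y) := by
  rw [bhT_apply, bhT_apply, inner_sub_left, inner_sub_right, inner_smul_left, inner_smul_right,
    bh_inner, real_inner_comm (D _ + _) x, bh_inner, real_inner_comm (D x) (D y),
    real_inner_comm (ContinuousLinearMap.adjoint D x) (ContinuousLinearMap.adjoint D y)]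
  simp

private theorem bh_norm (D : E →L[ℝ] E) (L R : ℝ) (hD : ‖D‖ ≤ R) (hL : 0 < L) (hRL : R ^ 2 ≤ L)
    (x : E) : ‖bhT D L x‖ ≤ ‖x‖ := by
  have hR : 0 ≤ R := (norm_nonneg _).trans hD
  set D' := ContinuousLinearMap.adjoint D with hD'
  have hD'n : ‖D'‖ ≤ R := by
    rw [hD', LinearIsometryEquiv.norm_map]
    exact hD
  set u := D (D' x) with hu
  set v := D' (D x) with hv
  have h1 : ‖u‖ ≤ R * ‖D' x‖ := (D.le_opNorm _).trans (mul_le_mul_of_nonneg_right hD (norm_nonneg _))
  have h2 : ‖v‖ ≤ R * ‖D x‖ := (D'.le_opNorm _).trans (mul_le_mul_of_nonneg_right hD'n (norm_nonneg _))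
  have h3 : ‖u + v‖ ^ 2 ≤ 2 * R ^ 2 * (‖D' x‖ ^ 2 + ‖D x‖ ^ 2) := by
    have h4 : ‖u + v‖ ≤ ‖u‖ + ‖v‖ := norm_add_le _ _
    have h5 : ‖u + v‖ ^ 2 ≤ (‖u‖ + ‖v‖) ^ 2 := pow_le_pow_left₀ (norm_nonneg _) h4 2
    have h6 : (‖u‖ + ‖v‖) ^ 2 ≤ 2 * (‖u‖ ^ 2 + ‖v‖ ^ 2) := by nlinarith [sq_nonneg (‖u‖ - ‖v‖)]
    have h7 : ‖u‖ ^ 2 ≤ (R * ‖D' x‖) ^ 2 := pow_le_pow_left₀ (norm_nonneg _) h1 2
    have h8 : ‖v‖ ^ 2 ≤ (R * ‖D x‖) ^ 2 := pow_le_pow_left₀ (norm_nonneg _) h2 2
    nlinarith
  have h9 : inner ℝ x (u + v) = ‖D' x‖ ^ 2 + ‖D x‖ ^ 2 := by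
    rw [real_inner_comm, hu, hv, hD', bh_inner, real_inner_self_eq_norm_sq,
      real_inner_self_eq_norm_sq]
  have h10 : ‖bhT D L x‖ ^ 2 ≤ ‖x‖ ^ 2 := by
    rw [bhT_apply, ← hD', ← hu, ← hv, norm_sub_sq_real, inner_smul_right, h9, norm_smul, mul_pow,
      Real.norm_eq_abs, sq_abs]
    have h11 : 0 ≤ ‖D' x‖ ^ 2 + ‖D x‖ ^ 2 := by positivity
    have h12 : L⁻¹ ^ 2 * ‖u + v‖ ^ 2 ≤ L⁻¹ ^ 2 * (2 * R ^ 2 * (‖D' x‖ ^ 2 + ‖D x‖ ^ 2)) :=
      mul_le_mul_of_nonneg_left h3 (by positivity)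
    have h13 : L⁻¹ ^ 2 * (2 * R ^ 2 * (‖D' x‖ ^ 2 + ‖D x‖ ^ 2)) ≤
        2 * (L⁻¹ * (‖D' x‖ ^ 2 + ‖D x‖ ^ 2)) := by
      have h14 : L⁻¹ * R ^ 2 ≤ 1 := by
        rw [inv_mul_le_iff₀ hL, mul_one]
        exact hRL
      have h15 : 0 ≤ L⁻¹ * (‖D' x‖ ^ 2 + ‖D x‖ ^ 2) := by positivity
      calc L⁻¹ ^ 2 * (2 * R ^ 2 * (‖D' x‖ ^ 2 + ‖D x‖ ^ 2))
          = 2 * (L⁻¹ * R ^ 2) * (L⁻¹ * (‖D' x‖ ^ 2 + ‖D x‖ ^ 2)) := by ring
        _ ≤ 2 * 1 * (L⁻¹ * (‖D' x‖ ^ 2 + ‖D x‖ ^ 2)) := by
            refine mul_le_mul_of_nonneg_right ?_ h15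
            linarith
        _ = _ := by ring
    linarith
  exact le_of_sq_le_sq h10 (norm_nonneg _)

private theorem bh_opNorm (D : E →L[ℝ] E) (L R : ℝ) (hD : ‖D‖ ≤ R) (hL : 0 < L)
    (hRL : R ^ 2 ≤ L) : ‖bhT D L‖ ≤ 1 :=
  ContinuousLinearMap.opNorm_le_bound _ zero_le_one fun x => by
    rw [one_mul]
    exact bh_norm D L R hD hL hRL x

private theorem bh_symm_pow (D : E →L[ℝ] E) (L : ℝ) (m : ℕ) (x y : E) :
    inner ℝ ((bhT D L ^ m) x) y = inner ℝ x ((bhT D L ^ m) y) := by
  induction m generalizing x y with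
  | zero => rfl
  | succ m ih =>
    have h1 : (bhT D L ^ (m + 1)) x = (bhT D L ^ m) (bhT D L x) := by rw [pow_succ]; rfl
    have h2 : (bhT D L ^ (m + 1)) y = bhT D L ((bhT D L ^ m) y) := by rw [pow_succ']; rfl
    rw [h1, h2, ih, bh_symm]

/-- `T x = x` iff `D x = 0` and `D* x = 0`. -/
private theorem bh_fix (D : E →L[ℝ] E) (L : ℝ) (hL : 0 < L) (x : E) :
    bhT D L x = x ↔ D x = 0 ∧ ContinuousLinearMap.adjoint D x = 0 := by
  constructor
  · intro h
    rw [bhT_apply, sub_eq_self, smul_eq_zero] at h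
    rcases h with h | h
    · exact absurd h (inv_ne_zero hL.ne')
    · have h1 := bh_inner D x x
      rw [h, inner_zero_left, real_inner_self_eq_norm_sq, real_inner_self_eq_norm_sq] at h1
      have h2 : ‖D x‖ ^ 2 = 0 := by
        have := sq_nonneg ‖D x‖
        have := sq_nonneg ‖ContinuousLinearMap.adjoint D x‖
        linarith
      have h3 : ‖ContinuousLinearMap.adjoint D x‖ ^ 2 = 0 := by
        have := sq_nonneg ‖D x‖
        have := sq_nonneg ‖ContinuousLinearMap.adjoint D x‖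
        linarith
      exact ⟨norm_eq_zero.mp (pow_eq_zero_iff (two_ne_zero) |>.mp h2),
        norm_eq_zero.mp (pow_eq_zero_iff (two_ne_zero) |>.mp h3)⟩
  · rintro ⟨h1, h2⟩
    rw [bhT_apply, h1, h2, map_zero, map_zero, add_zero, smul_zero, sub_zero]

/-- Projection of the powers. -/
private theorem bh_proj (D : E →L[ℝ] E) (L : ℝ) (K : Submodule ℝ E) [K.HasOrthogonalProjection]
    (hK : ∀ x ∈ K, bhT D L x = x) (m : ℕ) (x : E) :
    K.starProjection ((bhT D L ^ m) x) = K.starProjection x := by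
  have h1 : ∀ k ∈ K, ∀ m : ℕ, (bhT D L ^ m) k = k := by
    intro k hk m
    induction m with
    | zero => rfl
    | succ m ih =>
      have h2 : (bhT D L ^ (m + 1)) k = (bhT D L ^ m) (bhT D L k) := by rw [pow_succ]; rfl
      rw [h2, hK k hk, ih]
  rw [← sub_eq_zero, ← map_sub, Submodule.starProjection_apply_eq_zero_iff]
  rw [Submodule.mem_orthogonal]
  intro k hk
  rw [inner_sub_right, ← bh_symm_pow, h1 k hk m, sub_self]

omit [CompleteSpace E] in
private theorem bh_self (K : Submodule ℝ E) [K.HasOrthogonalProjection] (x : E) :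
    inner ℝ (K.starProjection x) x = ‖K.starProjection x‖ ^ 2 := by
  have h := K.starProjection_inner_eq_zero x (K.starProjection x) (K.starProjection_apply_mem x)
  rw [inner_sub_left, sub_eq_zero, real_inner_self_eq_norm_sq] at h
  rw [real_inner_comm]
  exact h

private theorem bh_le (D : E →L[ℝ] E) (L : ℝ)
    (K : Submodule ℝ E) [K.HasOrthogonalProjection] (hK : ∀ x ∈ K, bhT D L x = x) (m : ℕ)
    (x : E) : inner ℝ (K.starProjection x) x ≤ inner ℝ ((bhT D L ^ (2 * m)) x) x := by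
  have h1 : (bhT D L ^ (2 * m)) x = (bhT D L ^ m) ((bhT D L ^ m) x) := by
    rw [two_mul, pow_add]; rfl
  rw [h1, bh_symm_pow, real_inner_self_eq_norm_sq]
  rw [bh_self K x, ← bh_proj D L K hK m x]
  exact pow_le_pow_left₀ (norm_nonneg _) (Submodule.norm_starProjection_apply_le K _) 2

omit [CompleteSpace E] in
private theorem bh_iter (T : E →L[ℝ] E) (j : ℕ) (x : E) : T^[j] x = (T ^ j) x := by
  induction j with
  | zero => rfl
  | succ j ih =>
    rw [Function.iterate_succ_apply', ih, pow_succ']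
    rfl

/-- The mean ergodic theorem. -/
private theorem bh_lim (D : E →L[ℝ] E) (L R : ℝ) (hD : ‖D‖ ≤ R) (hL : 0 < L) (hRL : R ^ 2 ≤ L)
    (K : Submodule ℝ E) [K.HasOrthogonalProjection] (hK : ∀ x, x ∈ K ↔ bhT D L x = x) (x : E) :
    Tendsto (fun N : ℕ => (N : ℝ)⁻¹ * ∑ j ∈ Finset.range N, inner ℝ ((bhT D L ^ j) x) x) atTop
      (𝓝 (inner ℝ (K.starProjection x) x)) := by
  have h1 := ContinuousLinearMap.tendsto_birkhoffAverage_orthogonalProjection (bhT D L)
    (bh_opNorm D L R hD hL hRL) x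
  have hKe : K = (bhT D L).eqLocus (1 : E →L[ℝ] E) := by
    ext y
    rw [hK]
    rfl
  have h2 : K.starProjection x =
      ((bhT D L).eqLocus (1 : E →L[ℝ] E)).orthogonalProjectionOnto x := by
    subst hKe
    rfl
  rw [h2]
  have h3 := (h1.inner (tendsto_const_nhds (x := x) (f := atTop) : Tendsto (fun _ : ℕ => x) _ _)
    (𝕜 := ℝ))
  refine h3.congr fun N => ?_
  unfold birkhoffAverage birkhoffSum
  rw [inner_smul_left, sum_inner]
  simp only [RCLike.conj_to_real, id_eq]
  congr 1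
  refine Finset.sum_congr rfl fun j _ => ?_
  rw [bh_iter]

end Abs

/-! ### The Davis complex -/

section Conc

variable {V : Type} [LinearOrder V] (G : SimpleGraph V)

/-- The chains with finite support as square-summable chains. -/
private noncomputable def bhI : ((davis G).Cubes →₀ ℝ) →ₗ[ℝ] L2 G :=
  Finsupp.linearCombination ℝ (delta G)

private theorem bhI_single (c : (davis G).Cubes) : bhI G (Finsupp.single c 1) = delta G c := by
  unfold bhI
  rw [Finsupp.linearCombination_single, one_smul]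

private theorem bhI_apply (f : (davis G).Cubes →₀ ℝ) (p : (davis G).Cubes) :
    (bhI G f) p = f p := by
  classical
  induction f using Finsupp.induction_linear with
  | zero => rw [map_zero]; rfl
  | add f g hf hg =>
    rw [map_add, Finsupp.add_apply, ← hf, ← hg]
    rfl
  | single q x =>
    unfold bhI
    rw [Finsupp.linearCombination_single, Finsupp.single_apply]
    show x * (delta G q) p = _
    unfold delta
    rw [lp.single_apply]
    by_cases h : q = p
    · subst h
      rw [Pi.single_eq_same, if_pos rfl, mul_one]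
    · rw [Pi.single_eq_of_ne (Ne.symm h), if_neg h, mul_zero]

private theorem bh_delta_inner (c : (davis G).Cubes) (f : L2 G) :
    inner ℝ (delta G c) f = f c := by
  classical
  unfold delta
  rw [lp.inner_single_left]
  simp

private theorem bh_ext (f g : L2 G) (h : ∀ c, f c = g c) : f = g := lp.ext (funext h)

end Conc

section Main

variable {V : Type} [Fintype V] [LinearOrder V] (G : SimpleGraph V)

/-- The boundary operator. -/
private theorem bh_exists : ∃ D : L2 G →L[ℝ] L2 G,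
    (∀ p q, (D (delta G q)) p = ((davis G).inc p q : ℝ)) ∧ ‖D‖ ≤ 2 * Nat.card V := by
  classical
  have h1 : ∀ p q : (davis G).Cubes, ((davis G).inc p q : ℝ) ≠ 0 ↔ (davis G).inc p q ≠ 0 :=
    fun p q => Int.cast_ne_zero
  obtain ⟨D, hD, hDn⟩ := exists_op (fun p q : (davis G).Cubes => ((davis G).inc p q : ℝ))
    (2 * Nat.card V) (by
      intro p q
      have := abs_inc_le (davis G) p q
      exact_mod_cast this) (by
      intro p
      have h2 := card_cofaces (davis G) p
      simp only [h1]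
      exact ⟨h2.1, h2.2.trans (by omega)⟩) (by
      intro q
      have h2 := card_faces (davis G) q
      simp only [h1]
      exact h2)
  refine ⟨D, ?_, by exact_mod_cast hDn⟩
  intro p q
  rw [hD, finsum_eq_single _ q]
  · unfold delta
    rw [lp.single_apply_self, mul_one]
  · intro q' hq'
    unfold delta
    rw [lp.single_apply_ne _ _ _ hq', mul_zero]

omit [Fintype V] in
private theorem bh_adj (D : L2 G →L[ℝ] L2 G)
    (hD : ∀ p q, (D (delta G q)) p = ((davis G).inc p q : ℝ)) (p q : (davis G).Cubes) :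
    (ContinuousLinearMap.adjoint D (delta G p)) q = ((davis G).inc p q : ℝ) := by
  rw [← bh_delta_inner G q, ContinuousLinearMap.adjoint_inner_right, real_inner_comm,
    bh_delta_inner, hD]

private theorem bh_D_coe (D : L2 G →L[ℝ] L2 G)
    (hD : ∀ p q, (D (delta G q)) p = ((davis G).inc p q : ℝ)) (f : (davis G).Cubes →₀ ℝ) :
    D (bhI G f) = bhI G (bdF (davis G) f) := by
  have h : (D : L2 G →ₗ[ℝ] L2 G) ∘ₗ bhI G = bhI G ∘ₗ bdF (davis G) := by
    apply Finsupp.lhom_ext'
    intro q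
    apply LinearMap.ext_ring
    show D (bhI G (Finsupp.single q 1)) = bhI G (bdF (davis G) (Finsupp.single q 1))
    apply bh_ext
    intro p
    rw [bhI_single, hD, bhI_apply, bdF_apply]
  exact LinearMap.congr_fun h f

private theorem bh_D'_coe (D : L2 G →L[ℝ] L2 G)
    (hD : ∀ p q, (D (delta G q)) p = ((davis G).inc p q : ℝ)) (f : (davis G).Cubes →₀ ℝ) :
    ContinuousLinearMap.adjoint D (bhI G f) = bhI G (cbF (davis G) f) := by
  have h : (ContinuousLinearMap.adjoint D : L2 G →ₗ[ℝ] L2 G) ∘ₗ bhI G =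
      bhI G ∘ₗ cbF (davis G) := by
    apply Finsupp.lhom_ext'
    intro p
    apply LinearMap.ext_ring
    show ContinuousLinearMap.adjoint D (bhI G (Finsupp.single p 1)) =
      bhI G (cbF (davis G) (Finsupp.single p 1))
    apply bh_ext
    intro q
    rw [bhI_single, bh_adj G D hD, bhI_apply, cbF_apply]
  exact LinearMap.congr_fun h f

private theorem bh_T_coe (D : L2 G →L[ℝ] L2 G)
    (hD : ∀ p q, (D (delta G q)) p = ((davis G).inc p q : ℝ)) (f : (davis G).Cubes →₀ ℝ) :
    bhT D (Lam V) (bhI G f) = bhI G (TF (davis G) f) := by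
  have h1 : TF (davis G) f = f - (Lam V)⁻¹ •
      (bdF (davis G) (cbF (davis G) f) + cbF (davis G) (bdF (davis G) f)) := rfl
  rw [bhT_apply, h1, map_sub, map_smul, map_add, bh_D_coe G D hD, bh_D'_coe G D hD,
    bh_D'_coe G D hD, bh_D_coe G D hD]

private theorem bh_kap (D : L2 G →L[ℝ] L2 G)
    (hD : ∀ p q, (D (delta G q)) p = ((davis G).inc p q : ℝ)) (j : ℕ) (c : (davis G).Cubes) :
    kap (davis G) j c = inner ℝ ((bhT D (Lam V) ^ j) (delta G c)) (delta G c) := by
  have h1 : ∀ j : ℕ, (bhT D (Lam V) ^ j) (delta G c) =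
      bhI G ((TF (davis G) ^ j) (Finsupp.single c 1)) := by
    intro j
    induction j with
    | zero => rw [pow_zero, pow_zero]; exact (bhI_single G c).symm
    | succ j ih =>
      rw [pow_succ', pow_succ']
      show bhT D (Lam V) ((bhT D (Lam V) ^ j) (delta G c)) =
        bhI G (TF (davis G) ((TF (davis G) ^ j) (Finsupp.single c 1)))
      rw [ih, bh_T_coe G D hD]
  rw [h1, real_inner_comm, bh_delta_inner, bhI_apply]
  rfl

omit [Fintype V] in
private theorem bh_harm (D : L2 G →L[ℝ] L2 G)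
    (hD : ∀ p q, (D (delta G q)) p = ((davis G).inc p q : ℝ)) (x : L2 G) :
    x ∈ harm G ↔ D x = 0 ∧ ContinuousLinearMap.adjoint D x = 0 := by
  unfold harm
  rw [Submodule.mem_orthogonal]
  constructor
  · intro h
    constructor
    · apply bh_ext
      intro p
      rw [← bh_delta_inner G p (D x), ← ContinuousLinearMap.adjoint_inner_left]
      exact h _ (Submodule.subset_span (Or.inr ⟨p, fun q => bh_adj G D hD p q⟩))
    · apply bh_ext
      intro q
      rw [← bh_delta_inner G q, ContinuousLinearMap.adjoint_inner_right]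
      exact h _ (Submodule.subset_span (Or.inl ⟨q, fun p => hD p q⟩))
  · rintro ⟨h1, h2⟩ u hu
    induction hu using Submodule.span_induction with
    | mem z hz =>
      rcases hz with ⟨q, hq⟩ | ⟨p, hp⟩
      · have hz : z = D (delta G q) := bh_ext G _ _ fun p => by rw [hq, hD]
        rw [hz, ← ContinuousLinearMap.adjoint_inner_right, h2, inner_zero_right]
      · have hz : z = ContinuousLinearMap.adjoint D (delta G p) :=
          bh_ext G _ _ fun q => by rw [hp, bh_adj G D hD]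
        rw [hz, ContinuousLinearMap.adjoint_inner_left, h1, inner_zero_right]
    | zero => rw [inner_zero_left]
    | add a b _ _ ha hb => rw [inner_add_left, ha, hb, add_zero]
    | smul r a _ ha => rw [inner_smul_left, ha, mul_zero]

omit [Fintype V] [LinearOrder V] in
private theorem bh_Lam_pos : 0 < Lam V := by
  unfold Lam
  positivity

omit [Fintype V] [LinearOrder V] in
private theorem bh_Lam_le : (2 * (Nat.card V : ℝ)) ^ 2 ≤ Lam V := by
  unfold Lam
  nlinarith

theorem harm_le (c : (davis G).Cubes) (m : ℕ) : locDim G c ≤ kap (davis G) (2 * m) c := by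
  obtain ⟨D, hD, _⟩ := bh_exists G
  rw [bh_kap G D hD]
  unfold locDim
  have h := bh_le D (Lam V) (harm G)
    (fun x hx => (bh_fix D (Lam V) bh_Lam_pos x).mpr ((bh_harm G D hD x).mp hx)) m (delta G c)
  exact h

theorem locDim_nonneg (c : (davis G).Cubes) : 0 ≤ locDim G c := by
  unfold locDim
  rw [bh_self]
  positivity

theorem harm_lim (c : (davis G).Cubes) :
    Tendsto (fun N : ℕ => (N : ℝ)⁻¹ * ∑ j ∈ Finset.range N, kap (davis G) j c) atTop
      (𝓝 (locDim G c)) := by
  obtain ⟨D, hD, hDn⟩ := bh_exists G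
  have h := bh_lim D (Lam V) (2 * (Nat.card V : ℝ)) hDn bh_Lam_pos bh_Lam_le (harm G)
    (fun x => (bh_harm G D hD x).trans (bh_fix D (Lam V) bh_Lam_pos x).symm) (delta G c)
  simp only [bh_kap G D hD]
  exact h

end Main

end SingerRA
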