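import Mathlib
import Pool.Agent.Lib_MP_394d50_gt.Defs2
import Pool.Agent.Lib_MP_394d50_gt.BBasic

/-! Piece BMCK: the alternating trace does not depend on the power (McKean, Singer). -/

namespace SingerRA

variable {V : Type} [Fintype V] [LinearOrder V] {G : SimpleGraph V}

/-- The sign operator. -/
private noncomputable def mckS {A : Type} [Group A] (M : Mk G A) :
    Module.End ℝ (M.Cubes →₀ ℝ) :=
  Finsupp.linearCombination ℝ (fun c : M.Cubes => ((-1 : ℝ) ^ M.dim c) • Finsupp.single c (1 : ℝ))

omit [Fintype V] in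
private theorem mckS_apply {A : Type} [Group A] (M : Mk G A) (f : M.Cubes →₀ ℝ) (p : M.Cubes) :
    mckS M f p = (-1 : ℝ) ^ M.dim p * f p := by
  classical
  induction f using Finsupp.induction_linear with
  | zero => simp
  | add f g hf hg => rw [map_add, Finsupp.add_apply, hf, hg, Finsupp.add_apply, mul_add]
  | single q x =>
    unfold mckS
    rw [Finsupp.linearCombination_single, Finsupp.smul_apply, Finsupp.smul_apply,
      Finsupp.single_apply, Finsupp.single_apply]
    split_ifs with h
    · subst h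
      rw [smul_eq_mul, smul_eq_mul, mul_one, mul_comm]
    · simp

private theorem mck_anti {A : Type} [Group A] (M : Mk G A) :
    mckS M * bdF M = -(bdF M * mckS M) := by
  classical
  apply Finsupp.lhom_ext'
  intro q
  apply LinearMap.ext_ring
  show mckS M (bdF M (Finsupp.single q 1)) = -(bdF M (mckS M (Finsupp.single q 1)))
  have h1 : mckS M (Finsupp.single q 1) = ((-1 : ℝ) ^ M.dim q) • Finsupp.single q (1 : ℝ) := by
    unfold mckS
    rw [Finsupp.linearCombination_single, one_smul]
  rw [h1, map_smul]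
  ext p
  rw [mckS_apply, Finsupp.neg_apply, Finsupp.smul_apply, bdF_apply, smul_eq_mul]
  by_cases h : M.inc p q = 0
  · rw [h]; simp
  · rw [inc_dim M p q h, pow_succ]
    ring

/-- The abstract form of the argument. -/
private theorem mck_abs {S : Type} [Ring S] [Algebra ℝ S] (tr : S →ₗ[ℝ] ℝ)
    (htr : ∀ x y, tr (x * y) = tr (y * x)) (s d e T : S) (c : ℝ) (hd : d * d = 0)
    (hs : s * d = -(d * s)) (hT : T = 1 - c • (d * e + e * d)) (j : ℕ) :
    tr (s * T ^ j) = tr s := by
  have hcomm : d * T = T * d := by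
    have h1 : d * (d * e + e * d) = (d * e + e * d) * d := by
      rw [mul_add, add_mul, ← mul_assoc, hd, zero_mul, zero_add, mul_assoc e, hd, mul_zero,
        add_zero, mul_assoc]
    rw [hT, mul_sub, sub_mul, mul_one, one_mul, mul_smul_comm, smul_mul_assoc, h1]
  have hcommj : ∀ j : ℕ, d * T ^ j = T ^ j * d := fun j => (Commute.pow_right hcomm j).eq
  induction j with
  | zero => rw [pow_zero, mul_one]
  | succ j ih =>
    have h2 : T ^ (j + 1) = T ^ j - c • ((d * e + e * d) * T ^ j) := by
      rw [pow_succ']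
      nth_rewrite 1 [hT]
      rw [sub_mul, one_mul, smul_mul_assoc]
    have h3 : tr (s * (e * d * T ^ j)) = -tr (s * (d * e * T ^ j)) := by
      have h4 : s * (e * d * T ^ j) = (s * e * T ^ j) * d := by
        rw [mul_assoc e, hcommj j]
        simp only [mul_assoc]
      rw [h4, htr]
      have h7 : d * s = -(s * d) := by rw [hs, neg_neg]
      have h5 : d * (s * e * T ^ j) = -(s * (d * e * T ^ j)) := by
        calc d * (s * e * T ^ j) = (d * s) * (e * T ^ j) := by simp only [mul_assoc]
          _ = -(s * d) * (e * T ^ j) := by rw [h7]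
          _ = _ := by rw [neg_mul]; simp only [mul_assoc]
      rw [h5, map_neg]
    rw [h2, mul_sub, map_sub, mul_smul_comm, map_smul, add_mul, mul_add, map_add, h3,
      add_neg_cancel, smul_zero, sub_zero, ih]

private theorem mck_trace {A : Type} [Group A] (M : Mk G A) [Fintype M.Cubes] (j : ℕ) :
    LinearMap.trace ℝ (M.Cubes →₀ ℝ) (mckS M * TF M ^ j) =
      ∑ c : M.Cubes, (-1 : ℝ) ^ M.dim c * kap M j c := by
  classical
  rw [LinearMap.trace_eq_matrix_trace ℝ (Finsupp.basisSingleOne (R := ℝ) (ι := M.Cubes)),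
    Matrix.trace]
  refine Finset.sum_congr rfl fun c _ => ?_
  rw [Matrix.diag_apply, LinearMap.toMatrix_apply, Finsupp.coe_basisSingleOne]
  show (mckS M ((TF M ^ j) (Finsupp.single c 1))) c = _
  rw [mckS_apply]
  rfl

theorem tr_alt {A : Type} [Group A] [Finite A] (M : Mk G A) [Fintype M.Cubes] (j : ℕ) :
    ∑ c : M.Cubes, (-1 : ℝ) ^ M.dim c * kap M j c = ∑ c : M.Cubes, (-1 : ℝ) ^ M.dim c := by
  have h0 : ∑ c : M.Cubes, (-1 : ℝ) ^ M.dim c =
      LinearMap.trace ℝ (M.Cubes →₀ ℝ) (mckS M * TF M ^ 0) := by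
    rw [mck_trace]
    refine Finset.sum_congr rfl fun c _ => ?_
    have : kap M 0 c = 1 := by
      unfold kap
      rw [pow_zero]
      show (Finsupp.single c (1 : ℝ)) c = 1
      rw [Finsupp.single_eq_same]
    rw [this, mul_one]
  rw [h0, ← mck_trace, pow_zero, mul_one]
  exact mck_abs (S := Module.End ℝ (M.Cubes →₀ ℝ)) (LinearMap.trace ℝ (M.Cubes →₀ ℝ))
    (fun x y => LinearMap.trace_mul_comm ℝ x y) (mckS M) (bdF M) (cbF M) (TF M) (Lam V)⁻¹
    (bdF_bdF M) (mck_anti M) rfl j

end SingerRA
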