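import Mathlib
import Pool.Agent.Lib_MP_394d50_gt.Defs2

/-! Piece BRES: residual 2-finiteness of `W` (the nil-Coxeter representation). -/

namespace SingerRA

private theorem bres_ring {S : Type} [Ring S] (x y : S) :
    (1 + x) * (1 + y) = 1 + (x + y) + x * y := by
  rw [mul_add, mul_one, add_mul, one_mul]
  abel

private theorem bres_ring' {S : Type} [Ring S] (x y : S) :
    x * y - 1 = (x - 1) * (y - 1) + ((x - 1) + (y - 1)) := by
  rw [sub_mul, mul_sub, mul_one, one_mul]
  abel

section Bres

variable {V : Type} (G : SimpleGraph V) (r : ℕ)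

/-- The elements of length at most `r`. -/
private def BresB : Type := {w : W G // len G w ≤ r}

private theorem bres_finite [Finite V] : Finite (BresB G r) := by
  have h := (List.finite_length_le V r).to_subtype
  refine Finite.of_surjective
    (fun l : {l : List V | l.length ≤ r} =>
      (⟨(cs G).wordProd l.1, ((cs G).length_wordProd_le l.1).trans l.2⟩ : BresB G r)) ?_
  rintro ⟨w, hw⟩
  obtain ⟨l, hl, hlw⟩ := (cs G).exists_isReduced w
  refine ⟨⟨l, ?_⟩, ?_⟩
  · show l.length ≤ r
    rw [← hl.eq, ← hlw]
    exact hw
  · apply Subtype.ext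
    exact hlw.symm

/-- The functions on the ball. -/
private abbrev BresE : Type := BresB G r → ZMod 2

/-- The nil-Coxeter operators. -/
private noncomputable def bresX (v : V) : Module.End (ZMod 2) (BresE G r) where
  toFun f w := if h : len G (gen G v * w.1) + 1 = len G w.1 then
    f ⟨gen G v * w.1, by have := w.2; omega⟩ else 0
  map_add' f g := by
    funext w
    by_cases h : len G (gen G v * w.1) + 1 = len G w.1
    · simp only [dif_pos h, Pi.add_apply]
    · simp only [dif_neg h, Pi.add_apply, add_zero]
  map_smul' c f := by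
    funext w
    by_cases h : len G (gen G v * w.1) + 1 = len G w.1
    · simp only [dif_pos h, Pi.smul_apply, RingHom.id_apply]
    · simp only [dif_neg h, Pi.smul_apply, RingHom.id_apply, smul_zero]

private theorem bresX_pos (v : V) (f : BresE G r) (w w' : BresB G r) (hw : w'.1 = gen G v * w.1)
    (h : len G (gen G v * w.1) + 1 = len G w.1) : bresX G r v f w = f w' := by
  have : w' = ⟨gen G v * w.1, by have := w.2; omega⟩ := Subtype.ext hw
  rw [this]
  exact dif_pos h

private theorem bresX_neg (v : V) (f : BresE G r) (w : BresB G r)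
    (h : ¬ len G (gen G v * w.1) + 1 = len G w.1) : bresX G r v f w = 0 := dif_neg h

private theorem bresX_sq (v : V) : bresX G r v * bresX G r v = 0 := by
  apply LinearMap.ext
  intro f
  funext w
  show bresX G r v (bresX G r v f) w = 0
  by_cases h : len G (gen G v * w.1) + 1 = len G w.1
  · rw [bresX_pos G r v _ w ⟨gen G v * w.1, by have := w.2; omega⟩ rfl h]
    apply bresX_neg
    show ¬ len G (gen G v * (gen G v * w.1)) + 1 = len G (gen G v * w.1)
    rw [(cs G).simple_mul_simple_cancel_left]
    omega
  · exact bresX_neg G r v _ w h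

private theorem bresX_two (u v : V) (f : BresE G r) (w w' : BresB G r)
    (hw : w'.1 = gen G v * (gen G u * w.1)) (h : len G w'.1 + 2 = len G w.1) :
    bresX G r u (bresX G r v f) w = f w' := by
  have h1 : len G (gen G u * w.1) = len G w.1 + 1 ∨ len G (gen G u * w.1) + 1 = len G w.1 :=
    (cs G).length_simple_mul w.1 u
  have h2 : len G (gen G v * (gen G u * w.1)) = len G (gen G u * w.1) + 1 ∨
      len G (gen G v * (gen G u * w.1)) + 1 = len G (gen G u * w.1) :=
    (cs G).length_simple_mul (gen G u * w.1) v
  rw [hw] at h
  have h3 : len G (gen G u * w.1) + 1 = len G w.1 := by omega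
  have h4 : len G (gen G v * (gen G u * w.1)) + 1 = len G (gen G u * w.1) := by omega
  rw [bresX_pos G r u _ w ⟨gen G u * w.1, by have := w.2; omega⟩ rfl h3]
  exact bresX_pos G r v f _ w' hw h4

private theorem bresX_two' (u v : V) (f : BresE G r) (w : BresB G r)
    (h : ¬ len G (gen G v * (gen G u * w.1)) + 2 = len G w.1) :
    bresX G r u (bresX G r v f) w = 0 := by
  by_cases h1 : len G (gen G u * w.1) + 1 = len G w.1
  · rw [bresX_pos G r u _ w ⟨gen G u * w.1, by have := w.2; omega⟩ rfl h1]
    apply bresX_neg
    show ¬ len G (gen G v * (gen G u * w.1)) + 1 = len G (gen G u * w.1)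
    omega
  · exact bresX_neg G r u _ w h1

private theorem bresX_comm (u v : V) (h : gen G u * gen G v = gen G v * gen G u) :
    bresX G r u * bresX G r v = bresX G r v * bresX G r u := by
  apply LinearMap.ext
  intro f
  funext w
  show bresX G r u (bresX G r v f) w = bresX G r v (bresX G r u f) w
  have e : gen G v * (gen G u * w.1) = gen G u * (gen G v * w.1) := by
    rw [← mul_assoc, ← mul_assoc, h]
  by_cases h1 : len G (gen G v * (gen G u * w.1)) + 2 = len G w.1
  · have h2 : len G (gen G v * (gen G u * w.1)) ≤ r := by have := w.2; omega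
    rw [bresX_two G r u v f w ⟨_, h2⟩ rfl h1, bresX_two G r v u f w ⟨_, h2⟩ e h1]
  · rw [bresX_two' G r u v f w h1, bresX_two' G r v u f w (by rw [← e]; exact h1)]

private theorem bres_char (N : Module.End (ZMod 2) (BresE G r)) : N + N = 0 := by
  apply LinearMap.ext
  intro f
  funext w
  exact CharTwo.add_self_eq_zero _

/-- The filtration by the length. -/
private def BresFil (k : ℕ) (N : Module.End (ZMod 2) (BresE G r)) : Prop :=
  ∀ (m : ℕ) (f : BresE G r), (∀ w, len G w.1 < m → f w = 0) → ∀ w, len G w.1 < m + k → N f w = 0

private theorem BresFil.add {k : ℕ} {N N' : Module.End (ZMod 2) (BresE G r)}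
    (h : BresFil G r k N) (h' : BresFil G r k N') : BresFil G r k (N + N') := by
  intro m f hf w hw
  show N f w + N' f w = 0
  rw [h m f hf w hw, h' m f hf w hw, add_zero]

private theorem BresFil.mul {k k' : ℕ} {N N' : Module.End (ZMod 2) (BresE G r)}
    (h : BresFil G r k N) (h' : BresFil G r k' N') : BresFil G r (k' + k) (N * N') := by
  intro m f hf w hw
  show N (N' f) w = 0
  exact h (m + k') (N' f) (h' m f hf) w (by omega)

private theorem BresFil.mono {k k' : ℕ} (hk : k ≤ k') {N : Module.End (ZMod 2) (BresE G r)}
    (h : BresFil G r k' N) : BresFil G r k N :=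
  fun m f hf w hw => h m f hf w (by omega)

private theorem BresFil.pow {N : Module.End (ZMod 2) (BresE G r)}
    (h : BresFil G r 1 N) (j : ℕ) : BresFil G r j (N ^ j) := by
  induction j with
  | zero =>
    intro m f hf w hw
    rw [pow_zero]
    exact hf w (by omega)
  | succ j ih =>
    rw [pow_succ]
    have := ih.mul G r h
    rw [add_comm 1 j] at this
    exact this

private theorem BresFil.eq_zero {N : Module.End (ZMod 2) (BresE G r)}
    (h : BresFil G r (r + 1) N) : N = 0 := by
  apply LinearMap.ext
  intro f
  funext w
  exact h 0 f (fun w hw => absurd hw (Nat.not_lt_zero _)) w (by have := w.2; omega)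

private theorem bresX_fil (v : V) : BresFil G r 1 (bresX G r v) := by
  intro m f hf w hw
  by_cases h : len G (gen G v * w.1) + 1 = len G w.1
  · rw [bresX_pos G r v _ w ⟨gen G v * w.1, by have := w.2; omega⟩ rfl h]
    apply hf
    show len G (gen G v * w.1) < m
    omega
  · exact bresX_neg G r v _ w h

private theorem bres_one_add_pow (N : Module.End (ZMod 2) (BresE G r)) (m : ℕ) :
    (1 + N) ^ 2 ^ m = 1 + N ^ 2 ^ m := by
  induction m with
  | zero => simp
  | succ m ih =>
    rw [pow_succ 2 m, pow_mul, ih, pow_mul]
    rw [pow_two, bres_ring, bres_char, add_zero, ← pow_two]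

/-- The unipotent group, as a submonoid of the units. -/
private def bresM : Submonoid (Module.End (ZMod 2) (BresE G r))ˣ where
  carrier := {g | BresFil G r 1 (g.1 - 1)}
  one_mem' := by
    show BresFil G r 1 ((1 : (Module.End (ZMod 2) (BresE G r))ˣ).1 - 1)
    rw [Units.val_one, sub_self]
    intro m f _ w _
    rfl
  mul_mem' := by
    intro g h hg hh
    show BresFil G r 1 ((g * h).1 - 1)
    have e : (g * h).1 - 1 = (g.1 - 1) * (h.1 - 1) + ((g.1 - 1) + (h.1 - 1)) := by
      rw [Units.val_mul]
      exact bres_ring' _ _
    rw [e]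
    exact (BresFil.mono G r (by norm_num) (BresFil.mul G r hg hh)).add G r (BresFil.add G r hg hh)

private theorem bresM_pow (g : (Module.End (ZMod 2) (BresE G r))ˣ) (hg : g ∈ bresM G r) :
    g ^ 2 ^ (r + 1) = 1 := by
  apply Units.ext
  rw [Units.val_pow_eq_pow_val, Units.val_one]
  have h1 : (g.1 : Module.End (ZMod 2) (BresE G r)) = 1 + (g.1 - 1) := by abel
  rw [h1, bres_one_add_pow]
  have h2 : (g.1 - 1) ^ 2 ^ (r + 1) = 0 := by
    apply BresFil.eq_zero G r
    refine BresFil.mono G r ?_ (BresFil.pow G r hg _)
    exact (Nat.lt_two_pow_self).le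
  rw [h2, add_zero]

/-- The unipotent group. -/
private def bresU : Subgroup (Module.End (ZMod 2) (BresE G r))ˣ where
  toSubmonoid := bresM G r
  inv_mem' := by
    intro g hg
    have h1 : g⁻¹ = g ^ (2 ^ (r + 1) - 1) := by
      rw [inv_eq_iff_mul_eq_one, ← pow_succ', Nat.sub_add_cancel Nat.one_le_two_pow]
      exact bresM_pow G r g hg
    rw [h1]
    exact pow_mem (S := bresM G r) hg _

/-- The generators. -/
private noncomputable def bresP (v : V) : bresU G r :=
  have h : (1 + bresX G r v) * (1 + bresX G r v) = 1 := by
    rw [bres_ring, bres_char, bresX_sq, add_zero, add_zero]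
  ⟨⟨1 + bresX G r v, 1 + bresX G r v, h, h⟩, by
    show BresFil G r 1 (1 + bresX G r v - 1)
    rw [add_sub_cancel_left]
    exact bresX_fil G r v⟩

private theorem bresP_val (v : V) : ((bresP G r v).1.1 : Module.End (ZMod 2) (BresE G r)) =
    1 + bresX G r v := rfl

private theorem bresP_sq (v : V) : bresP G r v * bresP G r v = 1 := by
  apply Subtype.ext
  apply Units.ext
  exact (bresP G r v).1.3

private theorem bresP_comm (u v : V) (h : gen G u * gen G v = gen G v * gen G u) :
    bresP G r u * bresP G r v = bresP G r v * bresP G r u := by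
  apply Subtype.ext
  apply Units.ext
  show (1 + bresX G r u) * (1 + bresX G r v) = (1 + bresX G r v) * (1 + bresX G r u)
  rw [bres_ring, bres_ring, bresX_comm G r u v h, add_comm (bresX G r u) (bresX G r v)]

private theorem bresP_prod (l : List V) : (((l.map (bresP G r)).prod).1.1 :
    Module.End (ZMod 2) (BresE G r)) = (l.map fun v => 1 + bresX G r v).prod := by
  induction l with
  | nil => rfl
  | cons v l ih =>
    rw [List.map_cons, List.prod_cons, List.map_cons, List.prod_cons, ← ih]
    rfl

open scoped Classical in
/-- The basis vector of the unit element. -/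
private noncomputable def bresD : BresE G r := fun w => if w.1 = 1 then 1 else 0

private theorem bres_supp (l : List V) (w : BresB G r) (hw : l.length < len G w.1) :
    ((l.map fun v => 1 + bresX G r v).prod) (bresD G r) w = 0 := by
  induction l generalizing w with
  | nil =>
    show bresD G r w = 0
    unfold bresD
    rw [if_neg]
    intro h
    rw [h] at hw
    simp at hw
  | cons v l ih =>
    rw [List.map_cons, List.prod_cons]
    rw [List.length_cons] at hw
    show ((l.map fun v => 1 + bresX G r v).prod) (bresD G r) w +
      bresX G r v (((l.map fun v => 1 + bresX G r v).prod) (bresD G r)) w = 0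
    rw [ih w (by omega), zero_add]
    by_cases h : len G (gen G v * w.1) + 1 = len G w.1
    · rw [bresX_pos G r v _ w ⟨gen G v * w.1, by have := w.2; omega⟩ rfl h]
      apply ih
      show l.length < len G (gen G v * w.1)
      omega
    · exact bresX_neg G r v _ w h

private theorem bres_top (l : List V) (hl : (cs G).IsReduced l) (w : BresB G r)
    (hw : w.1 = (cs G).wordProd l) :
    ((l.map fun v => 1 + bresX G r v).prod) (bresD G r) w = 1 := by
  induction l generalizing w with
  | nil =>
    show bresD G r w = 1
    unfold bresD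
    rw [if_pos]
    rw [hw, (cs G).wordProd_nil]
  | cons v l ih =>
    have h0 := hl.eq
    rw [List.length_cons, (cs G).wordProd_cons] at h0
    rw [(cs G).wordProd_cons] at hw
    have h1 := (cs G).length_wordProd_le l
    have h2 := (cs G).length_simple_mul ((cs G).wordProd l) v
    have hl' : (cs G).IsReduced l := by
      show (cs G).length ((cs G).wordProd l) = l.length
      omega
    have h3 : gen G v * w.1 = (cs G).wordProd l := by
      rw [hw, (cs G).simple_mul_simple_cancel_left]
    have hlw : len G w.1 = l.length + 1 := by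
      show (cs G).length w.1 = l.length + 1
      rw [hw]
      exact h0
    have h4 : len G (gen G v * w.1) + 1 = len G w.1 := by
      rw [hlw, h3]
      show (cs G).length _ + 1 = _
      rw [hl'.eq]
    rw [List.map_cons, List.prod_cons]
    show ((l.map fun v => 1 + bresX G r v).prod) (bresD G r) w +
      bresX G r v (((l.map fun v => 1 + bresX G r v).prod) (bresD G r)) w = 1
    rw [bres_supp G r l w (by omega), zero_add,
      bresX_pos G r v _ w ⟨gen G v * w.1, by have := w.2; omega⟩ rfl h4]
    exact ih hl' _ h3

private theorem bres_lift : (cox G).IsLiftable (bresP G r) := by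
  classical
  intro i j
  by_cases h : i = j
  · subst h
    show (_ * _) ^ (if i = i then 1 else _) = 1
    rw [if_pos rfl, pow_one]
    exact bresP_sq G r i
  · show (_ * _) ^ (if i = j then 1 else if G.Adj i j then 2 else 0) = 1
    rw [if_neg h]
    split_ifs with h1
    · have h2 := bresP_comm G r i j (comm_of_adj G i j h1)
      rw [pow_two]
      calc bresP G r i * bresP G r j * (bresP G r i * bresP G r j)
          = bresP G r i * (bresP G r j * bresP G r i) * bresP G r j := by group
        _ = bresP G r i * (bresP G r i * bresP G r j) * bresP G r j := by rw [h2]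
        _ = (bresP G r i * bresP G r i) * (bresP G r j * bresP G r j) := by group
        _ = 1 := by rw [bresP_sq, bresP_sq, one_mul]
    · rw [pow_zero]

end Bres

theorem residual {V : Type} [Finite V] (G : SimpleGraph V) (r : ℕ) :
    ∃ (P : Type) (_ : Group P) (_ : Finite P) (p : V → P), IsPGroup 2 P ∧
      (∀ v, p v * p v = 1) ∧ (∀ u v, G.Adj u v → p u * p v = p v * p u) ∧
      ∀ l : List V, l.length ≤ r → (l.map p).prod = 1 → (l.map (gen G)).prod = 1 := by
  have hB := bres_finite G r
  have hfin : Finite (Module.End (ZMod 2) (BresE G r)) :=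
    Finite.of_injective (fun N : Module.End (ZMod 2) (BresE G r) => (N : BresE G r → BresE G r))
      DFunLike.coe_injective
  have hfinU : Finite (Module.End (ZMod 2) (BresE G r))ˣ :=
    Finite.of_injective (fun g => g.1) Units.val_injective
  refine ⟨bresU G r, inferInstance, inferInstance, bresP G r, ?_, bresP_sq G r, ?_, ?_⟩
  · rintro ⟨g, hg⟩
    refine ⟨r + 1, ?_⟩
    apply Subtype.ext
    exact bresM_pow G r g hg
  · intro u v h
    exact bresP_comm G r u v (comm_of_adj G u v h)
  · intro l hl h
    set φ := (cs G).lift ⟨bresP G r, bres_lift G r⟩ with hφ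
    have hφs : ∀ v, φ ((cs G).simple v) = bresP G r v := fun v =>
      (cs G).lift_apply_simple (bres_lift G r) v
    have hφw : ∀ l : List V, φ ((cs G).wordProd l) = (l.map (bresP G r)).prod := by
      intro l
      induction l with
      | nil => rw [(cs G).wordProd_nil, map_one]; rfl
      | cons v l ih =>
        rw [(cs G).wordProd_cons, map_mul, ih, hφs, List.map_cons, List.prod_cons]
    obtain ⟨l', hl', hlw⟩ := (cs G).exists_isReduced ((cs G).wordProd l)
    have h1 : (l'.map (bresP G r)).prod = 1 := by
      rw [← hφw, ← hlw, hφw, h]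
    have h2 : len G ((cs G).wordProd l') ≤ r := by
      rw [← hlw]
      exact ((cs G).length_wordProd_le l).trans hl
    have h3 := bres_top G r l' hl' ⟨(cs G).wordProd l', h2⟩ rfl
    rw [← bresP_prod, h1] at h3
    change bresD G r ⟨(cs G).wordProd l', h2⟩ = 1 at h3
    unfold bresD at h3
    show (cs G).wordProd l = 1
    rw [hlw]
    by_contra hne
    rw [if_neg hne] at h3
    exact zero_ne_one h3

end SingerRA
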