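import Mathlib
import Pool.Agent.Lib_MP_394d50_gt.Defs2
import Pool.Agent.Lib_MP_394d50_gt.BBasic

/-! Piece BMAP: naturality of the Laplacian and transfer of the diagonal coefficients. -/

namespace SingerRA

variable {V : Type} [Fintype V] [LinearOrder V] {G : SimpleGraph V} {A : Type} [Group A]
  {B : Type} [Group B]

/-- The map on cubes induced by a label preserving equivariant map. -/
def mapC (M : Mk G A) (N : Mk G B) (f : A → B) (hl : ∀ x, N.lab (f x) = M.lab x)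
    (c : M.Cubes) : N.Cubes :=
  ⟨(c.1.1, f c.1.2), c.2.1, fun v hv => by rw [hl]; exact c.2.2 v hv⟩

omit [Fintype V] in
theorem bm_cube (M : Mk G A) (N : Mk G B) (f : A → B) (hl : ∀ x, N.lab (f x) = M.lab x)
    (σ : Finset V) (x : A) : N.IsCube (σ, f x) ↔ M.IsCube (σ, x) := by
  unfold Mk.IsCube
  rw [hl]

omit [Fintype V] in
theorem bm_sgl (M : Mk G A) (N : Mk G B) (f : A → B) (hl : ∀ x, N.lab (f x) = M.lab x)
    (σ : Finset V) (x : A) :
    Finsupp.mapDomain (mapC M N f hl) (sgl M (σ, x)) = sgl N (σ, f x) := by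
  unfold sgl
  by_cases h : M.IsCube (σ, x)
  · rw [dif_pos h, dif_pos ((bm_cube M N f hl σ x).2 h), Finsupp.mapDomain_single]
    rfl
  · rw [dif_neg h, dif_neg (fun h' => h ((bm_cube M N f hl σ x).1 h')), Finsupp.mapDomain_zero]

/-- The map on chains. -/
noncomputable def bmL (M : Mk G A) (N : Mk G B) (f : A → B) (hl : ∀ x, N.lab (f x) = M.lab x) :
    (M.Cubes →₀ ℝ) →ₗ[ℝ] (N.Cubes →₀ ℝ) := Finsupp.lmapDomain ℝ ℝ (mapC M N f hl)

omit [Fintype V] in
theorem bmL_sgl (M : Mk G A) (N : Mk G B) (f : A → B) (hl : ∀ x, N.lab (f x) = M.lab x)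
    (σ : Finset V) (x : A) :
    bmL M N f hl (sgl M (σ, x)) = sgl N (σ, f x) := bm_sgl M N f hl σ x

omit [Fintype V] in
theorem bmL_single (M : Mk G A) (N : Mk G B) (f : A → B) (hl : ∀ x, N.lab (f x) = M.lab x)
    (c : M.Cubes) : bmL M N f hl (Finsupp.single c 1) = Finsupp.single (mapC M N f hl c) 1 :=
  Finsupp.mapDomain_single

theorem bm_bd (M : Mk G A) (N : Mk G B) (f : A → B) (hf : ∀ x v, f (x * M.a v) = f x * N.a v)
    (hl : ∀ x, N.lab (f x) = M.lab x) :
    bdF N ∘ₗ bmL M N f hl = bmL M N f hl ∘ₗ bdF M := by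
  apply Finsupp.lhom_ext'
  intro q
  apply LinearMap.ext_ring
  simp only [LinearMap.coe_comp, Function.comp_apply, Finsupp.lsingle_apply]
  rw [bmL_single, bb_bdF_single, bb_bdF_single, map_sum]
  refine Finset.sum_congr rfl (fun v _ => ?_)
  rw [map_smul, map_sub, bmL_sgl, bmL_sgl, hf]
  rfl

theorem bm_cb (M : Mk G A) (N : Mk G B) (f : A → B) (hf : ∀ x v, f (x * M.a v) = f x * N.a v)
    (hl : ∀ x, N.lab (f x) = M.lab x) :
    cbF N ∘ₗ bmL M N f hl = bmL M N f hl ∘ₗ cbF M := by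
  apply Finsupp.lhom_ext'
  intro q
  apply LinearMap.ext_ring
  simp only [LinearMap.coe_comp, Function.comp_apply, Finsupp.lsingle_apply]
  rw [bmL_single, bb_cbF_single, bb_cbF_single, map_sum]
  refine Finset.sum_congr rfl (fun v _ => ?_)
  have h1 : N.lab (mapC M N f hl q).1.2 = M.lab q.1.2 := hl _
  rw [map_smul, h1]
  by_cases h : (M.lab q.1.2).toAdd v = 0
  · rw [if_pos h, if_pos h, bmL_sgl]
    rfl
  · rw [if_neg h, if_neg h, map_neg, bmL_sgl, hf]
    rfl

theorem bm_TF (M : Mk G A) (N : Mk G B) (f : A → B) (hf : ∀ x v, f (x * M.a v) = f x * N.a v)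
    (hl : ∀ x, N.lab (f x) = M.lab x) (z : M.Cubes →₀ ℝ) :
    TF N (bmL M N f hl z) = bmL M N f hl (TF M z) := by
  have h1 : ∀ y, bdF N (bmL M N f hl y) = bmL M N f hl (bdF M y) := fun y =>
    LinearMap.congr_fun (bm_bd M N f hf hl) y
  have h2 : ∀ y, cbF N (bmL M N f hl y) = bmL M N f hl (cbF M y) := fun y =>
    LinearMap.congr_fun (bm_cb M N f hf hl) y
  unfold TF
  simp only [LinearMap.sub_apply, LinearMap.smul_apply, LinearMap.add_apply, LinearMap.coe_comp,
    Function.comp_apply, Module.End.one_apply, map_sub, map_smul, map_add, h1, h2]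

theorem TF_map (M : Mk G A) (N : Mk G B) (f : A → B) (hf : ∀ x v, f (x * M.a v) = f x * N.a v)
    (hl : ∀ x, N.lab (f x) = M.lab x) (z : M.Cubes →₀ ℝ) :
    TF N (Finsupp.mapDomain (mapC M N f hl) z) = Finsupp.mapDomain (mapC M N f hl) (TF M z) :=
  bm_TF M N f hf hl z

theorem bm_supp {α β : Type*} (L : (α →₀ ℝ) →ₗ[ℝ] (β →₀ ℝ)) (z : α →₀ ℝ) (p : β)
    (h : (L z) p ≠ 0) : ∃ q, z q ≠ 0 ∧ (L (Finsupp.single q 1)) p ≠ 0 := by
  classical
  by_contra hcon
  push Not at hcon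
  apply h
  have h1 : z = ∑ q ∈ z.support, z q • Finsupp.single q (1 : ℝ) := by
    conv_lhs => rw [← Finsupp.sum_single z]
    unfold Finsupp.sum
    refine Finset.sum_congr rfl (fun q _ => ?_)
    rw [Finsupp.smul_single, smul_eq_mul, mul_one]
  rw [h1, map_sum, Finsupp.finsetSum_apply]
  refine Finset.sum_eq_zero (fun q hq => ?_)
  rw [map_smul, Finsupp.smul_apply, hcon q (Finsupp.mem_support_iff.1 hq), smul_zero]

theorem bm_inc (M : Mk G A) (p q : M.Cubes) (h : M.inc p q ≠ 0) :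
    ∃ l : List V, l.length ≤ 1 ∧ p.1.2 = q.1.2 * (l.map M.a).prod ∧
      q.1.2 = p.1.2 * (l.map M.a).prod := by
  obtain ⟨v, _, _, h1 | h1⟩ := bb_inc_ne M p q h
  · exact ⟨[], by simp, by simp [h1.1], by simp [h1.1]⟩
  · refine ⟨[v], by simp, by simp [h1.1], ?_⟩
    rw [h1.1]
    simp only [List.map_cons, List.map_nil, List.prod_cons, List.prod_nil, mul_one]
    rw [mul_assoc, M.sq, mul_one]

theorem bm_step (M : Mk G A) (p q : M.Cubes) (h : (TF M (Finsupp.single q 1)) p ≠ 0) :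
    ∃ l : List V, l.length ≤ 2 ∧ p.1.2 = q.1.2 * (l.map M.a).prod := by
  have key : ∀ r : M.Cubes, (∃ l : List V, l.length ≤ 1 ∧ p.1.2 = r.1.2 * (l.map M.a).prod) →
      (∃ l : List V, l.length ≤ 1 ∧ r.1.2 = q.1.2 * (l.map M.a).prod) →
      ∃ l : List V, l.length ≤ 2 ∧ p.1.2 = q.1.2 * (l.map M.a).prod := by
    rintro r ⟨l, hl, h1⟩ ⟨l', hl', h2⟩
    refine ⟨l' ++ l, by rw [List.length_append]; omega, ?_⟩
    rw [h1, h2, List.map_append, List.prod_append, mul_assoc]
  by_cases hpq : p = q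
  · exact ⟨[], by simp, by simp [hpq]⟩
  unfold TF at h
  rw [LinearMap.sub_apply, Module.End.one_apply, LinearMap.smul_apply, LinearMap.add_apply,
    Finsupp.sub_apply, Finsupp.smul_apply, Finsupp.add_apply,
    Finsupp.single_eq_of_ne hpq] at h
  simp only [LinearMap.coe_comp, Function.comp_apply] at h
  by_cases h1 : (bdF M (cbF M (Finsupp.single q 1))) p ≠ 0
  · obtain ⟨r, hr1, hr2⟩ := bm_supp (bdF M) _ p h1
    rw [cbF_apply] at hr1
    rw [bdF_apply] at hr2
    obtain ⟨l, hl, h3, _⟩ := bm_inc M p r (by exact_mod_cast hr2)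
    obtain ⟨l', hl', _, h4⟩ := bm_inc M q r (by exact_mod_cast hr1)
    exact key r ⟨l, hl, h3⟩ ⟨l', hl', h4⟩
  · by_cases h2 : (cbF M (bdF M (Finsupp.single q 1))) p ≠ 0
    · obtain ⟨r, hr1, hr2⟩ := bm_supp (cbF M) _ p h2
      rw [bdF_apply] at hr1
      rw [cbF_apply] at hr2
      obtain ⟨l, hl, _, h3⟩ := bm_inc M r p (by exact_mod_cast hr2)
      obtain ⟨l', hl', h4, _⟩ := bm_inc M r q (by exact_mod_cast hr1)
      exact key r ⟨l, hl, h3⟩ ⟨l', hl', h4⟩
    · push Not at h1 h2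
      rw [h1, h2] at h
      simp at h

theorem TF_supp (M : Mk G A) (c : M.Cubes) (j : ℕ) (p : M.Cubes)
    (hp : ((TF M ^ j) (Finsupp.single c 1)) p ≠ 0) :
    ∃ l : List V, l.length ≤ 2 * j ∧ p.1.2 = c.1.2 * (l.map M.a).prod := by
  induction j generalizing p with
  | zero =>
    rw [pow_zero, Module.End.one_apply] at hp
    have : p = c := by
      by_contra h
      exact hp (Finsupp.single_eq_of_ne h)
    exact ⟨[], by simp, by simp [this]⟩
  | succ j ih =>
    rw [pow_succ', Module.End.mul_apply] at hp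
    obtain ⟨q, hq1, hq2⟩ := bm_supp (TF M) _ p hp
    obtain ⟨l, hl, h1⟩ := ih q hq1
    obtain ⟨l', hl', h2⟩ := bm_step M p q hq2
    refine ⟨l ++ l', by rw [List.length_append]; omega, ?_⟩
    rw [h2, h1, List.map_append, List.prod_append, mul_assoc]

theorem bm_TF_pow (M : Mk G A) (N : Mk G B) (f : A → B) (hf : ∀ x v, f (x * M.a v) = f x * N.a v)
    (hl : ∀ x, N.lab (f x) = M.lab x) (j : ℕ) (z : M.Cubes →₀ ℝ) :
    (TF N ^ j) (bmL M N f hl z) = bmL M N f hl ((TF M ^ j) z) := by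
  induction j with
  | zero => rfl
  | succ j ih => rw [pow_succ', Module.End.mul_apply, ih, bm_TF M N f hf hl, pow_succ',
      Module.End.mul_apply]

theorem kap_map (M : Mk G A) (N : Mk G B) (f : A → B) (hf : ∀ x v, f (x * M.a v) = f x * N.a v)
    (hl : ∀ x, N.lab (f x) = M.lab x) (j : ℕ) (c : M.Cubes)
    (hinj : ∀ l : List V, l.length ≤ 2 * j → f (c.1.2 * (l.map M.a).prod) = f c.1.2 →
      (l.map M.a).prod = 1) :
    kap N j (mapC M N f hl c) = kap M j c := by
  classical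
  unfold kap
  rw [← bmL_single, bm_TF_pow M N f hf hl]
  show (Finsupp.mapDomain (mapC M N f hl) ((TF M ^ j) (Finsupp.single c 1))) (mapC M N f hl c) = _
  unfold Finsupp.mapDomain Finsupp.sum
  rw [Finsupp.finsetSum_apply]
  rw [Finset.sum_eq_single c]
  · rw [Finsupp.single_eq_same]
  · intro p hp hpc
    rw [Finsupp.mem_support_iff] at hp
    obtain ⟨l, hl1, h1⟩ := TF_supp M c j p hp
    apply Finsupp.single_eq_of_ne
    intro h2
    apply hpc
    have h3 : c.1.1 = p.1.1 := congrArg (fun x : N.Cubes => x.1.1) h2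
    have h4 : f c.1.2 = f p.1.2 := congrArg (fun x : N.Cubes => x.1.2) h2
    have h5 := hinj l hl1 (by rw [← h1, ← h4])
    rw [h5, mul_one] at h1
    apply Subtype.ext
    exact Prod.ext h3.symm h1
  · intro h
    rw [Finsupp.notMem_support_iff] at h
    rw [h]
    show (Finsupp.single (mapC M N f hl c) (0 : ℝ)) (mapC M N f hl c) = 0
    rw [Finsupp.single_zero]
    rfl

end SingerRA
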