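import Mathlib
import Pool.Agent.Lib_MP_394d50_gt.Defs2
import Pool.Agent.Lib_MP_394d50_gt.BMap

/-! Piece BTR: orbits of cubes, and the trace on a finite marked group with large injectivity
radius. -/

namespace SingerRA

variable {V : Type} [Fintype V] [LinearOrder V] (G : SimpleGraph V)

/-- A homomorphism to `(ℤ/2)^V` hitting all basis vectors is surjective. -/
theorem surj_of_basis {A : Type} [Group A] (f : A →* Multiplicative (V → ZMod 2)) (a : V → A)
    (h : ∀ v, f (a v) = Multiplicative.ofAdd (Pi.single v 1 : V → ZMod 2)) :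
    Function.Surjective f := by
  have key : ∀ e : V → ZMod 2, Multiplicative.ofAdd e ∈ f.range := by
    intro e
    rw [← Finset.univ_sum_single e, ofAdd_sum]
    refine Subgroup.prod_mem _ (fun v _ => ?_)
    have h2 : ∀ r : ZMod 2, r = 0 ∨ r = 1 := by decide
    rcases h2 (e v) with h0 | h0
    · rw [h0, Pi.single_zero, ofAdd_zero]
      exact Subgroup.one_mem _
    · rw [h0]
      exact ⟨a v, h v⟩
  intro e
  exact key e.toAdd

theorem lab_surj : Function.Surjective (lab G) :=
  surj_of_basis (lab G) (gen G) (fun v => lab_gen G v)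

/-- The pairs `(σ, e)` with `σ` a clique and `e` vanishing on `σ`. -/
def PP (G : SimpleGraph V) : Type :=
  {p : Finset V × (V → ZMod 2) // G.IsClique (p.1 : Set V) ∧ ∀ v ∈ p.1, p.2 v = 0}

instance instFinPP : Finite (PP G) := by
  unfold PP
  infer_instance

/-- The type of a cube. -/
def toPP {A : Type} [Group A] (M : Mk G A) (c : M.Cubes) : PP G :=
  ⟨(c.1.1, (M.lab c.1.2).toAdd), c.2.1, c.2.2⟩

omit [Fintype V] in
theorem lab_smul (g : Gam G) (c : (davis G).Cubes) : toPP G (davis G) (g • c) =
    toPP G (davis G) c := by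
  apply Subtype.ext
  have h1 : lab G (g : W G) = 1 := g.2
  show (c.1.1, (lab G ((g : W G) * c.1.2)).toAdd) = (c.1.1, (lab G c.1.2).toAdd)
  rw [map_mul, h1, one_mul]

theorem out_injective : Function.Injective
    (fun o : MulAction.orbitRel.Quotient (Gam G) (davis G).Cubes =>
      toPP G (davis G) (Quotient.out o)) := by
  intro o o' h
  have h1 : (Quotient.out o).1.1 = (Quotient.out o').1.1 := congrArg (fun q : PP G => q.1.1) h
  have h2 : (lab G (Quotient.out o).1.2).toAdd = (lab G (Quotient.out o').1.2).toAdd :=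
    congrArg (fun q : PP G => q.1.2) h
  have h3 : lab G (Quotient.out o).1.2 = lab G (Quotient.out o').1.2 := h2
  rw [← Quotient.out_eq o, ← Quotient.out_eq o']
  apply Quotient.sound
  show (Quotient.out o) ∈ MulAction.orbit (Gam G) (Quotient.out o')
  refine ⟨⟨(Quotient.out o).1.2 * (Quotient.out o').1.2⁻¹, ?_⟩, ?_⟩
  · show lab G _ = 1
    rw [map_mul, map_inv, h3, mul_inv_cancel]
  · apply Subtype.ext
    show ((Quotient.out o').1.1, (Quotient.out o).1.2 * (Quotient.out o').1.2⁻¹ *
      (Quotient.out o').1.2) = (Quotient.out o).1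
    rw [inv_mul_cancel_right, ← h1]

theorem toPP_surj {A : Type} [Group A] (M : Mk G A) : Function.Surjective (toPP G M) := by
  rintro ⟨⟨σ, e⟩, h1, h2⟩
  obtain ⟨x, hx⟩ := surj_of_basis M.lab M.a M.lab_a (Multiplicative.ofAdd e)
  refine ⟨⟨(σ, x), h1, fun v hv => ?_⟩, ?_⟩
  · show (M.lab x).toAdd v = 0
    rw [hx]
    exact h2 v hv
  · apply Subtype.ext
    show (σ, (M.lab x).toAdd) = (σ, e)
    rw [hx]
    rfl

theorem out_bijective : Function.Bijective
    (fun o : MulAction.orbitRel.Quotient (Gam G) (davis G).Cubes =>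
      toPP G (davis G) (Quotient.out o)) := by
  refine ⟨out_injective G, fun p => ?_⟩
  obtain ⟨c, rfl⟩ := toPP_surj G (davis G) p
  refine ⟨Quotient.mk _ c, ?_⟩
  have h : Quotient.out (Quotient.mk (MulAction.orbitRel (Gam G) (davis G).Cubes) c) ∈
      MulAction.orbit (Gam G) c := by
    have := Quotient.mk_out (s := MulAction.orbitRel (Gam G) (davis G).Cubes) c
    exact this
  obtain ⟨g, hg⟩ := h
  show toPP G (davis G) _ = _
  rw [← hg]
  exact lab_smul G g c

theorem finite_orbits :
    Finite (MulAction.orbitRel.Quotient (Gam G) (davis G).Cubes) :=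
  Finite.of_injective _ (out_injective G)

open scoped Classical in
omit [Fintype V] [LinearOrder V] in
theorem liftable_of {A : Type} [Group A] (a : V → A) (hsq : ∀ v, a v * a v = 1)
    (hcomm : ∀ u v, G.Adj u v → a u * a v = a v * a u) : (cox G).IsLiftable a := by
  intro i j
  show (_ * _) ^ (if i = j then 1 else if G.Adj i j then 2 else 0) = 1
  split_ifs with h1 h2
  · subst h1
    rw [pow_one]
    exact hsq i
  · rw [pow_two]
    calc a i * a j * (a i * a j) = a i * a j * (a j * a i) := by
          rw [hcomm i j h2]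
      _ = a i * (a j * a j) * a i := by group
      _ = 1 := by rw [hsq j, mul_one, hsq i]
  · rw [pow_zero]

/-- The canonical homomorphism from `W` to a marked group. -/
theorem exists_hom {A : Type} [Group A] (M : Mk G A) :
    ∃ φ : W G →* A, (∀ v, φ (gen G v) = M.a v) ∧ ∀ w, M.lab (φ w) = lab G w := by
  have hl : (cox G).IsLiftable M.a := liftable_of G M.a M.sq M.comm
  have h1 : ∀ v, (cs G).lift ⟨M.a, hl⟩ (gen G v) = M.a v :=
    fun v => (cs G).lift_apply_simple hl v
  refine ⟨(cs G).lift ⟨M.a, hl⟩, h1, fun w => ?_⟩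
  have h2 : M.lab.comp ((cs G).lift ⟨M.a, hl⟩) = lab G := by
    apply (cs G).ext_simple
    intro v
    rw [MonoidHom.comp_apply, h1 v, M.lab_a v]
    exact (lab_gen G v).symm
  exact DFunLike.congr_fun h2 w

omit [LinearOrder V] in
/-- Every fibre of a surjective homomorphism to `(ℤ/2)^V` has `|A| / 2^|V|` elements. -/
theorem card_fib {A : Type} [Group A] [Finite A] (f : A →* Multiplicative (V → ZMod 2))
    (hf : Function.Surjective f) (e : V → ZMod 2) :
    2 ^ Fintype.card V * Nat.card {x : A // (f x).toAdd = e} = Nat.card A := by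
  obtain ⟨x0, hx0⟩ := hf (Multiplicative.ofAdd e)
  have h1 : Nat.card {x : A // (f x).toAdd = e} = Nat.card f.ker := by
    refine Nat.card_congr
      { toFun := fun x => ⟨x0⁻¹ * x.1, ?_⟩
        invFun := fun y => ⟨x0 * y.1, ?_⟩
        left_inv := fun x => Subtype.ext (by simp)
        right_inv := fun y => Subtype.ext (by simp) }
    · have h := x.2
      have h' : f x.1 = Multiplicative.ofAdd e := h
      rw [MonoidHom.mem_ker, map_mul, map_inv, hx0, h', inv_mul_cancel]
    · have h := y.2
      rw [MonoidHom.mem_ker] at h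
      rw [map_mul, h, mul_one, hx0]
      rfl
  have h2 : Nat.card A = Nat.card f.range * Nat.card f.ker := by
    rw [Subgroup.card_eq_card_quotient_mul_card_subgroup f.ker]
    congr 1
    exact Nat.card_congr (QuotientGroup.quotientKerEquivRange f).toEquiv
  have h3 : Nat.card f.range = 2 ^ Fintype.card V := by
    rw [MonoidHom.range_eq_top.mpr hf]
    rw [Nat.card_congr (Subgroup.topEquiv (G := Multiplicative (V → ZMod 2))).toEquiv]
    rw [Nat.card_congr (Multiplicative.toAdd (α := V → ZMod 2))]
    rw [Nat.card_fun, Nat.card_zmod, Nat.card_eq_fintype_card]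
  rw [h1, h2, h3]

open scoped Classical in
theorem sum_cubes {R : Type} [CommRing R] {A : Type} [Group A] [Finite A] (M : Mk G A)
    [Fintype M.Cubes] [Fintype (PP G)] (H : PP G → R) :
    2 ^ Fintype.card V * ∑ c : M.Cubes, H (toPP G M c) = Nat.card A * ∑ p : PP G, H p := by
  have h1 : ∑ c : M.Cubes, H (toPP G M c) = ∑ p : PP G, ∑ c : {c : M.Cubes // toPP G M c = p},
      H p := by
    rw [← Fintype.sum_fiberwise (toPP G M)]
    refine Finset.sum_congr rfl (fun p _ => Finset.sum_congr rfl (fun c _ => ?_))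
    rw [c.2]
  rw [h1, Finset.mul_sum, Finset.mul_sum]
  refine Finset.sum_congr rfl (fun p _ => ?_)
  rw [Finset.sum_const, Finset.card_univ, nsmul_eq_mul, ← mul_assoc]
  congr 1
  have h2 := card_fib M.lab (surj_of_basis M.lab M.a M.lab_a) p.1.2
  have h3 : Nat.card {x : A // (M.lab x).toAdd = p.1.2} =
      Fintype.card {c : M.Cubes // toPP G M c = p} := by
    rw [← Nat.card_eq_fintype_card]
    refine Nat.card_congr
      { toFun := fun x => ⟨⟨(p.1.1, x.1), p.2.1, fun v hv => ?_⟩, ?_⟩
        invFun := fun c => ⟨c.1.1.2, ?_⟩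
        left_inv := fun x => rfl
        right_inv := fun c => Subtype.ext (Subtype.ext (Prod.ext ?_ rfl)) }
    · show (M.lab x.1).toAdd v = 0
      rw [x.2]
      exact p.2.2 v hv
    · apply Subtype.ext
      show (p.1.1, (M.lab x.1).toAdd) = p.1
      rw [x.2]
    · exact congrArg (fun q : PP G => q.1.2) c.2
    · exact (congrArg (fun q : PP G => q.1.1) c.2).symm
  rw [← h3, ← h2]
  push_cast
  ring

/-- Two cubes of the Davis complex of the same type have the same coefficients. -/
theorem kap_inv (j : ℕ) (c c' : (davis G).Cubes) (h : toPP G (davis G) c = toPP G (davis G) c') :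
    kap (davis G) j c = kap (davis G) j c' := by
  have h1 : c.1.1 = c'.1.1 := congrArg (fun q : PP G => q.1.1) h
  have h2 : lab G c.1.2 = lab G c'.1.2 := congrArg (fun q : PP G => q.1.2) h
  have hγ : lab G (c'.1.2 * c.1.2⁻¹) = 1 := by rw [map_mul, map_inv, h2, mul_inv_cancel]
  have hl : ∀ x, (davis G).lab ((c'.1.2 * c.1.2⁻¹) * x) = (davis G).lab x := by
    intro x
    show lab G _ = lab G _
    rw [map_mul, hγ, one_mul]
  have h3 := kap_map (davis G) (davis G) (fun x => (c'.1.2 * c.1.2⁻¹) * x)
    (fun x v => (mul_assoc _ _ _).symm) hl j c (fun l _ hl' => by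
      have h5 : c'.1.2 * c.1.2⁻¹ * (c.1.2 * (l.map (davis G).a).prod) =
        c'.1.2 * c.1.2⁻¹ * c.1.2 := hl'
      have h6 := mul_left_cancel h5
      exact mul_eq_left.mp h6)
  rw [← h3]
  congr 1
  apply Subtype.ext
  show (c.1.1, c'.1.2 * c.1.2⁻¹ * c.1.2) = c'.1
  rw [inv_mul_cancel_right, h1]

/-- Comparison of the coefficients in a finite marked group and in the Davis complex. -/
theorem kap_eq_davis {A : Type} [Group A] (M : Mk G A) (j : ℕ)
    (hinj : ∀ l : List V, l.length ≤ 2 * j → (l.map M.a).prod = 1 →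
      (l.map (gen G)).prod = 1) (c : M.Cubes) (c' : (davis G).Cubes)
    (h : toPP G M c = toPP G (davis G) c') : kap M j c = kap (davis G) j c' := by
  obtain ⟨φ, hφ, hφl⟩ := exists_hom G M
  have h1 : c.1.1 = c'.1.1 := congrArg (fun q : PP G => q.1.1) h
  have h2 : M.lab c.1.2 = lab G c'.1.2 := congrArg (fun q : PP G => q.1.2) h
  have hγ : M.lab (c.1.2 * (φ c'.1.2)⁻¹) = 1 := by
    rw [map_mul, map_inv, hφl, h2, mul_inv_cancel]
  have hl : ∀ x, M.lab (c.1.2 * (φ c'.1.2)⁻¹ * φ x) = (davis G).lab x := by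
    intro x
    rw [map_mul, hγ, one_mul, hφl]
    rfl
  have hprod : ∀ l : List V, φ (l.map (davis G).a).prod = (l.map M.a).prod := by
    intro l
    rw [map_list_prod, List.map_map]
    congr 1
    apply List.map_congr_left
    intro v _
    exact hφ v
  have h3 := kap_map (davis G) M (fun x => (c.1.2 * (φ c'.1.2)⁻¹) * φ x)
    (fun x v => by
      show c.1.2 * (φ c'.1.2)⁻¹ * φ (x * gen G v) = c.1.2 * (φ c'.1.2)⁻¹ * φ x * M.a v
      rw [map_mul, hφ, mul_assoc, mul_assoc, mul_assoc]) hl j c' (fun l hlen hl' => by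
      have h5 : c.1.2 * (φ c'.1.2)⁻¹ * φ (c'.1.2 * (l.map (davis G).a).prod) =
        c.1.2 * (φ c'.1.2)⁻¹ * φ c'.1.2 := hl'
      have h6 := mul_left_cancel h5
      rw [map_mul] at h6
      have h7 := mul_eq_left.mp h6
      rw [hprod] at h7
      exact hinj l hlen h7)
  rw [← h3]
  congr 1
  apply Subtype.ext
  show c.1 = (c'.1.1, c.1.2 * (φ c'.1.2)⁻¹ * φ c'.1.2)
  rw [inv_mul_cancel_right, ← h1]

open scoped Classical in
theorem tr_eq {A : Type} [Group A] [Finite A] (M : Mk G A) [Fintype M.Cubes] (k j : ℕ)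
    (hinj : ∀ l : List V, l.length ≤ 2 * j → (l.map M.a).prod = 1 →
      (l.map (gen G)).prod = 1) :
    2 ^ Fintype.card V * ∑ c : M.Cubes, (if M.dim c = k then kap M j c else 0) =
      Nat.card A * trW G k j := by
  have : Fintype (PP G) := Fintype.ofFinite _
  choose s hs using toPP_surj G (davis G)
  have h1 : ∀ c : M.Cubes, (if M.dim c = k then kap M j c else 0) =
      (fun p : PP G => if p.1.1.card = k then kap (davis G) j (s p) else 0) (toPP G M c) := by
    intro c
    show (if M.dim c = k then kap M j c else 0) =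
      if (toPP G M c).1.1.card = k then kap (davis G) j (s (toPP G M c)) else 0
    have e : (toPP G M c).1.1.card = M.dim c := rfl
    rw [e]
    split_ifs with hk
    · exact kap_eq_davis G M j hinj c _ (hs _).symm
    · rfl
  rw [Finset.sum_congr rfl (fun c _ => h1 c)]
  rw [sum_cubes G M (fun p : PP G => if p.1.1.card = k then kap (davis G) j (s p) else 0)]
  congr 1
  unfold trW
  rw [← finsum_eq_sum_of_fintype]
  symm
  refine finsum_eq_of_bijective _ (out_bijective G) (fun o => ?_)
  show _ = if (toPP G (davis G) (Quotient.out o)).1.1.card = k then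
    kap (davis G) j (s (toPP G (davis G) (Quotient.out o))) else 0
  have e : (toPP G (davis G) (Quotient.out o)).1.1.card = (davis G).dim (Quotient.out o) := rfl
  rw [e]
  split_ifs with hk
  · exact kap_inv G j _ _ (hs _).symm
  · rfl

open scoped Classical in
theorem card_vanish (σ : Finset V) :
    Fintype.card {e : V → ZMod 2 // ∀ v ∈ σ, e v = 0} = 2 ^ (Fintype.card V - σ.card) := by
  have h1 : Fintype.card {e : V → ZMod 2 // ∀ v ∈ σ, e v = 0} =
      Fintype.card ({v : V // v ∉ σ} → ZMod 2) := by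
    refine Fintype.card_congr
      { toFun := fun e v => e.1 v.1
        invFun := fun f => ⟨fun v => if h : v ∉ σ then f ⟨v, h⟩ else 0, fun v hv => ?_⟩
        left_inv := fun e => Subtype.ext (funext fun v => ?_)
        right_inv := fun f => funext fun v => ?_ }
    · show (if h : v ∉ σ then f ⟨v, h⟩ else 0) = 0
      rw [dif_neg (not_not.mpr hv)]
    · show (if h : v ∉ σ then e.1 v else 0) = e.1 v
      split_ifs with h
      · exact (e.2 v h).symm
      · rfl
    · show (if h : v.1 ∉ σ then f ⟨v.1, h⟩ else 0) = f v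
      rw [dif_pos v.2]
  rw [h1, Fintype.card_fun, ZMod.card]
  congr 1
  rw [Fintype.card_subtype_compl, Fintype.card_coe]

/-- The count of cubes of a finite marked group. -/
theorem sum_sign {A : Type} [Group A] [Finite A] (M : Mk G A) [Fintype M.Cubes] :
    2 ^ Fintype.card V * ∑ c : M.Cubes, (-1 : ℤ) ^ M.dim c = Nat.card A * chi G := by
  classical
  have : Fintype (PP G) := Fintype.ofFinite _
  have h1 : ∀ c : M.Cubes, (-1 : ℤ) ^ M.dim c =
      (fun p : PP G => (-1 : ℤ) ^ p.1.1.card) (toPP G M c) := fun c => rfl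
  rw [Finset.sum_congr rfl (fun c _ => h1 c)]
  rw [sum_cubes G M (fun p : PP G => (-1 : ℤ) ^ p.1.1.card)]
  congr 1
  unfold chi
  have h2 : ∑ p : PP G, (-1 : ℤ) ^ p.1.1.card = ∑ σ : Finset V,
      ∑ p : {p : PP G // p.1.1 = σ}, (-1 : ℤ) ^ σ.card := by
    rw [← Fintype.sum_fiberwise (fun p : PP G => p.1.1)]
    refine Finset.sum_congr rfl (fun σ _ => Finset.sum_congr rfl (fun p _ => ?_))
    rw [p.2]
  rw [h2]
  refine Finset.sum_congr rfl (fun σ _ => ?_)
  rw [Finset.sum_const, Finset.card_univ, nsmul_eq_mul]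
  split_ifs with hσ
  · have h3 : Fintype.card {p : PP G // p.1.1 = σ} = 2 ^ (Fintype.card V - σ.card) := by
      rw [← card_vanish σ]
      refine Fintype.card_congr
        { toFun := fun p => ⟨p.1.1.2, fun v hv => ?_⟩
          invFun := fun e => ⟨⟨(σ, e.1), hσ, e.2⟩, rfl⟩
          left_inv := fun p => Subtype.ext (Subtype.ext (Prod.ext p.2.symm rfl))
          right_inv := fun e => rfl }
      exact p.1.2.2 v (by rw [p.2]; exact hv)
    rw [h3]
    push_cast
    ring
  · have h3 : Fintype.card {p : PP G // p.1.1 = σ} = 0 := by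
      rw [Fintype.card_eq_zero_iff]
      refine ⟨fun p => hσ ?_⟩
      have := p.1.2.1
      rw [p.2] at this
      exact this
    rw [h3]
    simp

end SingerRA
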