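import Mathlib
import Pool.Agent.Lib_MP_394d50_gt.Defs2
import Pool.Agent.Lib_MP_394d50_gt.ACover
import Pool.Agent.Lib_MP_394d50_gt.BTr
import Pool.Agent.Lib_MP_394d50_gt.BMcK
import Pool.Agent.Lib_MP_394d50_gt.BFin
import Pool.Agent.Lib_MP_394d50_gt.BHarm
import Pool.Agent.Lib_MP_394d50_gt.BRes
import Pool.Agent.Lib_MP_394d50_gt.BStd

/-! Piece BVAN: vanishing of the `ℓ²`-Betti numbers from small gradients, and the Euler
characteristic formula. -/

namespace SingerRA

variable {V : Type} [Fintype V] [LinearOrder V] (G : SimpleGraph V)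

namespace BV

open scoped Classical in
theorem l2Betti_eq_sum [Fintype (MulAction.orbitRel.Quotient (Gam G) (davis G).Cubes)] (k : ℕ) :
    l2Betti G k = ∑ o : MulAction.orbitRel.Quotient (Gam G) (davis G).Cubes,
      if (davis G).dim (Quotient.out o) = k then locDim G (Quotient.out o) else 0 := by
  unfold l2Betti
  rw [finsum_eq_sum_of_fintype]

open scoped Classical in
theorem trW_eq_sum [Fintype (MulAction.orbitRel.Quotient (Gam G) (davis G).Cubes)] (k j : ℕ) :
    trW G k j = ∑ o : MulAction.orbitRel.Quotient (Gam G) (davis G).Cubes,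
      if (davis G).dim (Quotient.out o) = k then kap (davis G) j (Quotient.out o) else 0 := by
  unfold trW
  rw [finsum_eq_sum_of_fintype]

theorem l2Betti_le_trW (k m : ℕ) : l2Betti G k ≤ trW G k (2 * m) := by
  have : Finite (MulAction.orbitRel.Quotient (Gam G) (davis G).Cubes) := finite_orbits G
  have : Fintype (MulAction.orbitRel.Quotient (Gam G) (davis G).Cubes) := Fintype.ofFinite _
  rw [l2Betti_eq_sum, trW_eq_sum]
  apply Finset.sum_le_sum
  intro o _
  split_ifs
  · exact harm_le G _ m
  · exact le_refl _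

theorem one_le_Lam (V : Type) : 1 ≤ Lam V := by
  unfold Lam
  nlinarith [sq_nonneg (Nat.card V : ℝ)]

theorem prod_stdA {Q : Type} [Group Q] (q : V → Q) (l : List V)
    (h : (l.map (stdA q)).prod = 1) : (l.map q).prod = 1 := by
  have h1 := congrArg (MonoidHom.fst Q (Multiplicative (V → ZMod 2))) h
  rw [map_list_prod, List.map_map, map_one] at h1
  exact h1

theorem trW_le (k m : ℕ) (h : SmallGrad k G) (ε δ : ℝ) (hε : 0 < ε) (h0 : 0 < δ) (h1 : δ < 1) :
    trW G k (2 * m) ≤ ε + 4 ^ Fintype.card V * (Real.log (Lam V) / Real.log (1 / δ) +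
          (1 - δ / Lam V) ^ (2 * m)) := by
  classical
  obtain ⟨Q, _, _, q, hQ, hq1, hq2, hb⟩ := h inferInstance inferInstance ε hε
  obtain ⟨P, _, _, p, hP, hp1, hp2, hinj⟩ := residual G (2 * (2 * m))
  set A := (Q × P) × Multiplicative (V → ZMod 2) with hA
  have hqp1 : ∀ v, (q v, p v) * (q v, p v) = 1 := fun v => Prod.ext (hq1 v) (hp1 v)
  have hqp2 : ∀ u v, G.Adj u v → (q u, p u) * (q v, p v) = (q v, p v) * (q u, p u) :=
    fun u v h => Prod.ext (hq2 u v h) (hp2 u v h)
  set M : Mk G A := stdMk G (fun v => (q v, p v)) hqp1 hqp2 with hM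
  have : Fintype M.Cubes := Fintype.ofFinite _
  have hMa : M.a = stdA (fun v => (q v, p v)) := rfl
  have ht := tr_eq G M k (2 * m) (by
    intro l hl hl1
    apply hinj l hl
    rw [hMa] at hl1
    have h2 := prod_stdA _ l hl1
    have h3 := congrArg (MonoidHom.snd Q P) h2
    rw [map_list_prod, List.map_map, map_one] at h3
    exact h3)
  have hle := tr_le M k m δ h0 h1
  -- the Betti number
  set π : A →* Q × Multiplicative (V → ZMod 2) :=
    MonoidHom.prodMap (MonoidHom.fst Q P) (MonoidHom.id _) with hπ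
  have hπs : Function.Surjective π := by
    rintro ⟨x, y⟩
    exact ⟨((x, 1), y), rfl⟩
  have hπa : (fun v => π (M.a v)) = stdA q := rfl
  have hOK : OK (fun v => π (M.a v)) (cliq G) := by
    rw [hπa]
    exact OK_of_Mk (stdMk G q hq1 hq2)
  have hAp : IsPGroup 2 A := isPGroup_std (isPGroup_prod hQ hP)
  have hcov := bettiF_cover hAp π hπs M.a (cliq G) hOK M.sq (OK_of_Mk M).comm k
  rw [hπa] at hcov
  have hker : Nat.card π.ker = Nat.card P := by
    have e : π.ker ≃ P :=
      { toFun := fun x => x.1.1.2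
        invFun := fun y => ⟨((1, y), 1), by rw [MonoidHom.mem_ker]; rfl⟩
        left_inv := by
          rintro ⟨⟨⟨x, y⟩, z⟩, h⟩
          rw [MonoidHom.mem_ker] at h
          have e1 : x = 1 := congrArg Prod.fst h
          have e2 : z = 1 := congrArg Prod.snd h
          subst e1
          subst e2
          rfl
        right_inv := fun y => rfl }
    exact Nat.card_congr e
  rw [hker] at hcov
  have hcardA : (Nat.card A : ℝ) = Nat.card Q * Nat.card P * 2 ^ Fintype.card V := by
    rw [hA, Nat.card_prod, Nat.card_prod]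
    have : Nat.card (Multiplicative (V → ZMod 2)) = 2 ^ Fintype.card V := by
      rw [Nat.card_congr (Multiplicative.toAdd), Nat.card_eq_fintype_card, Fintype.card_fun,
        ZMod.card]
    rw [this]
    push_cast
    ring
  have hKC := card_KC_le M k
  have hQpos : (0 : ℝ) < Nat.card Q := by exact_mod_cast Nat.card_pos
  have hPpos : (0 : ℝ) < Nat.card P := by exact_mod_cast Nat.card_pos
  have h2pos : (0 : ℝ) < 2 ^ Fintype.card V := by positivity
  have hApos : (0 : ℝ) < Nat.card A := by rw [hcardA]; positivity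
  have hLam := one_le_Lam V
  have hE : 0 ≤ Real.log (Lam V) / Real.log (1 / δ) + (1 - δ / Lam V) ^ (2 * m) := by
    apply add_nonneg
    · apply div_nonneg (Real.log_nonneg hLam)
      apply Real.log_nonneg
      rw [le_div_iff₀ h0]
      linarith
    · rw [pow_mul]
      positivity
  set E := Real.log (Lam V) / Real.log (1 / δ) + (1 - δ / Lam V) ^ (2 * m) with hEdef
  set S := ∑ c : M.Cubes, (if M.dim c = k then kap M (2 * m) c else 0) with hS
  have hcov' : (bettiF M.a (cliq G) k : ℝ) ≤ Nat.card P * (ε * Nat.card Q) := by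
    have h5 : (bettiF M.a (cliq G) k : ℝ) ≤ Nat.card P * (bettiF (stdA q) (cliq G) k : ℝ) := by
      exact_mod_cast hcov
    refine h5.trans ?_
    exact mul_le_mul_of_nonneg_left hb hPpos.le
  have hKC' : (Nat.card (KC M k) : ℝ) ≤ 2 ^ Fintype.card V * Nat.card A := by exact_mod_cast hKC
  have hS2 : S ≤ Nat.card P * (ε * Nat.card Q) + 2 ^ Fintype.card V * Nat.card A * E := by
    refine hle.trans ?_
    exact add_le_add hcov' (mul_le_mul_of_nonneg_right hKC' hE)
  have h6 : (Nat.card A : ℝ) * trW G k (2 * m) ≤ Nat.card A * (ε + 4 ^ Fintype.card V * E) := by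
    rw [← ht]
    have h7 : (4 : ℝ) ^ Fintype.card V = 2 ^ Fintype.card V * 2 ^ Fintype.card V := by
      rw [← mul_pow]; norm_num
    calc 2 ^ Fintype.card V * S ≤ 2 ^ Fintype.card V * (Nat.card P * (ε * Nat.card Q) +
          2 ^ Fintype.card V * Nat.card A * E) := mul_le_mul_of_nonneg_left hS2 h2pos.le
      _ = Nat.card A * (ε + 4 ^ Fintype.card V * E) := by
          rw [h7, hcardA]; ring
  exact le_of_mul_le_mul_left h6 hApos

end BV

theorem l2Betti_nonneg (k : ℕ) : 0 ≤ l2Betti G k := by
  have : Finite (MulAction.orbitRel.Quotient (Gam G) (davis G).Cubes) := finite_orbits G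
  have : Fintype (MulAction.orbitRel.Quotient (Gam G) (davis G).Cubes) := Fintype.ofFinite _
  rw [BV.l2Betti_eq_sum]
  apply Finset.sum_nonneg
  intro o _
  split_ifs
  · exact locDim_nonneg G _
  · exact le_refl _

theorem l2Betti_eq_zero (k : ℕ) (h : SmallGrad k G) : l2Betti G k = 0 := by
  apply le_antisymm _ (l2Betti_nonneg G k)
  apply le_of_forall_pos_le_add
  intro η hη
  rw [zero_add]
  have hL := BV.one_le_Lam V
  have hLpos : 0 < Lam V := by linarith
  set c : ℝ := 4 ^ Fintype.card V with hc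
  have hcpos : 0 < c := by positivity
  have hlog : 0 ≤ Real.log (Lam V) := Real.log_nonneg hL
  -- choice of `δ`
  set t : ℝ := 3 * c * Real.log (Lam V) / η + 1 with ht
  have ht1 : 1 ≤ t := by
    rw [ht]
    have : 0 ≤ 3 * c * Real.log (Lam V) / η := by positivity
    linarith
  set δ : ℝ := Real.exp (-t) with hδ
  have h0 : 0 < δ := Real.exp_pos _
  have h1 : δ < 1 := by
    rw [hδ, Real.exp_lt_one_iff]
    linarith
  have hlogδ : Real.log (1 / δ) = t := by
    rw [one_div, Real.log_inv, hδ, Real.log_exp]; ring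
  have hterm1 : c * (Real.log (Lam V) / Real.log (1 / δ)) ≤ η / 3 := by
    rw [hlogδ, ← mul_div_assoc, div_le_iff₀ (by linarith)]
    rw [ht]
    have e : η / 3 * (3 * c * Real.log (Lam V) / η + 1) = c * Real.log (Lam V) + η / 3 := by
      field_simp
    rw [e]
    linarith
  -- choice of `m`
  have hx0 : 0 ≤ 1 - δ / Lam V := by
    rw [sub_nonneg, div_le_one hLpos]
    linarith
  have hx1 : 1 - δ / Lam V < 1 := by
    have : 0 < δ / Lam V := div_pos h0 hLpos
    linarith
  obtain ⟨m, hm⟩ := exists_pow_lt_of_lt_one (show 0 < η / (3 * c) by positivity) hx1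
  have hterm2 : c * (1 - δ / Lam V) ^ (2 * m) ≤ η / 3 := by
    have h2 : (1 - δ / Lam V) ^ (2 * m) ≤ (1 - δ / Lam V) ^ m :=
      pow_le_pow_of_le_one hx0 hx1.le (by omega)
    calc c * (1 - δ / Lam V) ^ (2 * m) ≤ c * (η / (3 * c)) :=
          mul_le_mul_of_nonneg_left (h2.trans hm.le) hcpos.le
      _ = η / 3 := by field_simp
  have h3 := (BV.l2Betti_le_trW G k m).trans
    (BV.trW_le G k m h (η / 3) δ (by positivity) h0 h1)
  rw [← hc, mul_add] at h3
  linarith

theorem atiyah : ∑ k ∈ Finset.range (Fintype.card V + 1), (-1 : ℝ) ^ k * l2Betti G k =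
    (chi G : ℝ) := by
  classical
  have : Finite (MulAction.orbitRel.Quotient (Gam G) (davis G).Cubes) := finite_orbits G
  have : Fintype (MulAction.orbitRel.Quotient (Gam G) (davis G).Cubes) := Fintype.ofFinite _
  -- the formula for every `j`
  have hj : ∀ j : ℕ, ∑ k ∈ Finset.range (Fintype.card V + 1), (-1 : ℝ) ^ k * trW G k j =
      (chi G : ℝ) := by
    intro j
    obtain ⟨P, _, _, p, hP, hp1, hp2, hinj⟩ := residual G (2 * j)
    set A := P × Multiplicative (V → ZMod 2) with hA
    set M : Mk G A := stdMk G p hp1 hp2 with hM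
    have : Fintype M.Cubes := Fintype.ofFinite _
    have hMa : M.a = stdA p := rfl
    have ht : ∀ k, 2 ^ Fintype.card V * ∑ c : M.Cubes, (if M.dim c = k then kap M j c else 0) =
        Nat.card A * trW G k j := fun k => tr_eq G M k j (by
      intro l hl hl1
      apply hinj l hl
      rw [hMa] at hl1
      exact BV.prod_stdA _ l hl1)
    have hApos : (0 : ℝ) < Nat.card A := by exact_mod_cast Nat.card_pos
    have h1 : (Nat.card A : ℝ) * ∑ k ∈ Finset.range (Fintype.card V + 1),
        (-1 : ℝ) ^ k * trW G k j = Nat.card A * (chi G : ℝ) := by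
      have h2 : (2 ^ Fintype.card V * ∑ c : M.Cubes, (-1 : ℝ) ^ M.dim c : ℝ) =
          Nat.card A * (chi G : ℝ) := by
        have := sum_sign G M
        exact_mod_cast this
      rw [← h2, ← tr_alt M j]
      rw [Finset.mul_sum]
      have h3 : ∀ k, (Nat.card A : ℝ) * ((-1 : ℝ) ^ k * trW G k j) =
          2 ^ Fintype.card V * ∑ c : M.Cubes,
            (if M.dim c = k then (-1 : ℝ) ^ k * kap M j c else 0) := by
        intro k
        rw [← mul_assoc, mul_comm (Nat.card A : ℝ), mul_assoc, ← ht k, ← mul_assoc,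
          mul_comm ((-1 : ℝ) ^ k), mul_assoc, Finset.mul_sum]
        congr 1
        apply Finset.sum_congr rfl
        intro c _
        split_ifs
        · rfl
        · rw [mul_zero]
      simp_rw [h3]
      rw [← Finset.mul_sum, Finset.sum_comm]
      congr 1
      apply Finset.sum_congr rfl
      intro c _
      rw [Finset.sum_eq_single (M.dim c)]
      · rw [if_pos rfl]
      · intro k _ hk
        rw [if_neg (Ne.symm hk)]
      · intro h
        exfalso
        apply h
        rw [Finset.mem_range]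
        exact Nat.lt_succ_of_le (Finset.card_le_univ _)
    exact mul_left_cancel₀ hApos.ne' h1
  -- the limit of the averages
  have hlim : ∀ k, Filter.Tendsto
      (fun N : ℕ => (N : ℝ)⁻¹ * ∑ j ∈ Finset.range N, trW G k j) Filter.atTop
      (nhds (l2Betti G k)) := by
    intro k
    rw [BV.l2Betti_eq_sum]
    have e : (fun N : ℕ => (N : ℝ)⁻¹ * ∑ j ∈ Finset.range N, trW G k j) = fun N : ℕ =>
        ∑ o : MulAction.orbitRel.Quotient (Gam G) (davis G).Cubes,
          (if (davis G).dim (Quotient.out o) = k then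
            (N : ℝ)⁻¹ * ∑ j ∈ Finset.range N, kap (davis G) j (Quotient.out o) else 0) := by
      funext N
      simp_rw [BV.trW_eq_sum]
      rw [Finset.sum_comm, Finset.mul_sum]
      apply Finset.sum_congr rfl
      intro o _
      split_ifs
      · rfl
      · simp
    rw [e]
    apply tendsto_finsetSum
    intro o _
    split_ifs
    · exact harm_lim G _
    · exact tendsto_const_nhds
  have h4 : Filter.Tendsto (fun N : ℕ => ∑ k ∈ Finset.range (Fintype.card V + 1),
      (-1 : ℝ) ^ k * ((N : ℝ)⁻¹ * ∑ j ∈ Finset.range N, trW G k j)) Filter.atTop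
      (nhds (∑ k ∈ Finset.range (Fintype.card V + 1), (-1 : ℝ) ^ k * l2Betti G k)) := by
    apply tendsto_finsetSum
    intro k _
    exact (hlim k).const_mul _
  have h5 : Filter.Tendsto (fun N : ℕ => ∑ k ∈ Finset.range (Fintype.card V + 1),
      (-1 : ℝ) ^ k * ((N : ℝ)⁻¹ * ∑ j ∈ Finset.range N, trW G k j)) Filter.atTop
      (nhds (chi G : ℝ)) := by
    apply tendsto_const_nhds.congr'
    filter_upwards [Filter.eventually_gt_atTop 0] with N hN
    have hN' : (N : ℝ) ≠ 0 := by exact_mod_cast hN.ne'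
    have e : ∀ k, (-1 : ℝ) ^ k * ((N : ℝ)⁻¹ * ∑ j ∈ Finset.range N, trW G k j) =
        (N : ℝ)⁻¹ * ∑ j ∈ Finset.range N, (-1 : ℝ) ^ k * trW G k j := by
      intro k
      rw [← Finset.mul_sum]; ring
    simp_rw [e]
    rw [← Finset.mul_sum, Finset.sum_comm]
    simp_rw [hj]
    rw [Finset.sum_const, Finset.card_range, nsmul_eq_mul, ← mul_assoc, inv_mul_cancel₀ hN',
      one_mul]
  exact tendsto_nhds_unique h4 h5

theorem l2Betti_of_lt (k : ℕ) (h : Fintype.card V < k) : l2Betti G k = 0 := by
  unfold l2Betti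
  apply finsum_eq_zero_of_forall_eq_zero
  intro o
  rw [if_neg]
  intro h1
  have h2 : (davis G).dim (Quotient.out o) ≤ Fintype.card V := Finset.card_le_univ _
  omega

end SingerRA
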