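import Mathlib
import Pool.Agent.Lib_MP_394d50_gt.Defs2

/-! Piece CINV: the inversion set of an element of `W` and the length. -/

namespace SingerRA

variable {V : Type} (G : SimpleGraph V)

theorem ci_key {Gr : Type} [Group Gr] {x y c t : Gr} (hxy : x * y = 1) (hc : x * c = c * x) :
    x * t * y = c ↔ t = c := by
  have hy : y = x⁻¹ := eq_inv_of_mul_eq_one_right hxy
  subst hy
  constructor
  · intro h
    have h1 : t = x⁻¹ * c * x := by
      rw [← h]
      group
    rw [h1, mul_assoc, ← hc]
    group
  · rintro rfl
    rw [hc]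
    group

open scoped Classical in
/-- The action of a generator on `W × ℤ/2`. -/
noncomputable def ciPi (v : V) : Equiv.Perm (W G × ZMod 2) where
  toFun p := (gen G v * p.1 * gen G v, p.2 + if p.1 = gen G v then 1 else 0)
  invFun p := (gen G v * p.1 * gen G v, p.2 + if p.1 = gen G v then 1 else 0)
  left_inv := by
    rintro ⟨t, e⟩
    have hs := (cs G).simple_mul_simple_self v
    have h1 : (gen G v * t * gen G v = gen G v) ↔ t = gen G v := ci_key hs rfl
    have h2 : gen G v * (gen G v * t * gen G v) * gen G v = t := by
      calc gen G v * (gen G v * t * gen G v) * gen G v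
          = (gen G v * gen G v) * t * (gen G v * gen G v) := by group
        _ = t := by rw [hs]; group
    ext
    · exact h2
    · simp only [h1]
      rw [add_assoc, CharTwo.add_self_eq_zero, add_zero]
  right_inv := by
    rintro ⟨t, e⟩
    have hs := (cs G).simple_mul_simple_self v
    have h1 : (gen G v * t * gen G v = gen G v) ↔ t = gen G v := ci_key hs rfl
    have h2 : gen G v * (gen G v * t * gen G v) * gen G v = t := by
      calc gen G v * (gen G v * t * gen G v) * gen G v
          = (gen G v * gen G v) * t * (gen G v * gen G v) := by group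
        _ = t := by rw [hs]; group
    ext
    · exact h2
    · simp only [h1]
      rw [add_assoc, CharTwo.add_self_eq_zero, add_zero]

open scoped Classical in
theorem ciPi_apply (v : V) (p : W G × ZMod 2) :
    ciPi G v p = (gen G v * p.1 * gen G v, p.2 + if p.1 = gen G v then 1 else 0) := rfl

open scoped Classical in
theorem ciPi_liftable : (cox G).IsLiftable (ciPi G) := by
  intro i j
  by_cases h : i = j
  · subst h
    show (_ * _) ^ (if i = i then 1 else _) = 1
    rw [if_pos rfl, pow_one]
    ext1 p
    exact (ciPi G i).left_inv p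
  · show (_ * _) ^ (if i = j then 1 else if G.Adj i j then 2 else 0) = 1
    rw [if_neg h]
    split_ifs with hadj
    · have ha := (cs G).simple_mul_simple_self i
      have hb := (cs G).simple_mul_simple_self j
      have hab := comm_of_adj G i j hadj
      set a := gen G i with hadef
      set b := gen G j with hbdef
      change a * a = 1 at ha
      change b * b = 1 at hb
      rw [pow_two]
      ext1 p
      obtain ⟨t, e⟩ := p
      show ciPi G i (ciPi G j (ciPi G i (ciPi G j (t, e)))) = (t, e)
      simp only [ciPi_apply, ← hadef, ← hbdef]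
      have k1 : (b * t * b = a) ↔ t = a := ci_key hb hab.symm
      have k2 : (a * (b * t * b) * a = b) ↔ t = b := by
        have e1 : a * (b * t * b) * a = (a * b) * t * (b * a) := by group
        rw [e1]
        refine ci_key ?_ ?_
        · calc a * b * (b * a) = a * (b * b) * a := by group
            _ = 1 := by rw [hb, mul_one, ha]
        · calc a * b * b = b * a * b := by rw [hab]
            _ = b * (a * b) := by group
      have k3 : (b * (a * (b * t * b) * a) * b = a) ↔ t = a := by
        have e1 : b * (a * (b * t * b) * a) * b = (b * a * b) * t * (b * a * b) := by group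
        rw [e1]
        have e2 : b * a * b = a := by
          rw [mul_assoc, hab, ← mul_assoc, hb, one_mul]
        rw [e2]
        exact ci_key ha rfl
      have k4 : a * (b * (a * (b * t * b) * a) * b) * a = t := by
        have e1 : a * (b * (a * (b * t * b) * a) * b) * a
            = (a * b * (a * b)) * t * (b * a * (b * a)) := by group
        have e2 : a * b * (a * b) = 1 := by
          calc a * b * (a * b) = b * a * (a * b) := by rw [hab]
            _ = b * (a * a) * b := by group
            _ = 1 := by rw [ha, mul_one, hb]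
        have e3 : b * a * (b * a) = 1 := by
          calc b * a * (b * a) = a * b * (b * a) := by rw [hab]
            _ = a * (b * b) * a := by group
            _ = 1 := by rw [hb, mul_one, ha]
        rw [e1, e2, e3]
        group
      simp only [k1, k2, k3, k4]
      ext
      · rfl
      · simp only
        have : ∀ x y z : ZMod 2, x + y + z + y + z = x := by decide
        exact this _ _ _
    · rw [pow_zero]

/-- The action of `W` on `W × ℤ/2`. -/
noncomputable def ciPhi : W G →* Equiv.Perm (W G × ZMod 2) :=
  (cs G).lift ⟨ciPi G, ciPi_liftable G⟩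

theorem ciPhi_gen (v : V) : ciPhi G (gen G v) = ciPi G v := by
  unfold ciPhi gen
  rw [CoxeterSystem.lift_apply_simple]

/-- The cocycle. -/
noncomputable def ciEta (w t : W G) : ZMod 2 := (ciPhi G w (t, 0)).2

theorem ciPhi_apply (w : W G) : ∀ (t : W G) (e : ZMod 2),
    ciPhi G w (t, e) = (w * t * w⁻¹, e + ciEta G w t) := by
  classical
  refine (cs G).simple_induction (p := fun w => ∀ (t : W G) (e : ZMod 2),
    ciPhi G w (t, e) = (w * t * w⁻¹, e + ciEta G w t)) w ?_ ?_ ?_
  · intro v t e
    have h1 : (gen G v)⁻¹ = gen G v := (cs G).inv_simple v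
    show ciPhi G (gen G v) (t, e) = (gen G v * t * (gen G v)⁻¹, e + ciEta G (gen G v) t)
    unfold ciEta
    rw [ciPhi_gen, ciPi_apply, ciPi_apply, h1]
    simp
  · intro t e
    unfold ciEta
    rw [map_one]
    simp
  · intro x y hx hy t e
    unfold ciEta
    rw [map_mul, Equiv.Perm.mul_apply, Equiv.Perm.mul_apply, hy, hy, hx, hx]
    ext
    · simp only [mul_inv_rev]
      group
    · simp only
      ring

theorem ciEta_one (t : W G) : ciEta G 1 t = 0 := by
  unfold ciEta
  rw [map_one]
  rfl

theorem ciEta_mul (x y t : W G) : ciEta G (x * y) t = ciEta G y t + ciEta G x (y * t * y⁻¹) := by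
  have h1 := ciPhi_apply G (x * y) t 0
  rw [map_mul, Equiv.Perm.mul_apply, ciPhi_apply G y, ciPhi_apply G x] at h1
  have h2 := congrArg Prod.snd h1
  simp only [zero_add] at h2
  exact h2.symm

open scoped Classical in
theorem ciEta_gen (v : V) (t : W G) : ciEta G (gen G v) t = if t = gen G v then 1 else 0 := by
  unfold ciEta
  rw [ciPhi_gen, ciPi_apply]
  simp

open scoped Classical in
theorem ciEta_word (ω : List V) (t : W G) :
    ciEta G ((cs G).wordProd ω)⁻¹ t = (((cs G).leftInvSeq ω).count t : ZMod 2) := by
  induction ω generalizing t with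
  | nil => simp [ciEta_one]
  | cons v ω ih =>
    have h1 : (gen G v)⁻¹ = gen G v := (cs G).inv_simple v
    rw [CoxeterSystem.wordProd_cons, mul_inv_rev]
    have h2 : ((cs G).simple v)⁻¹ = gen G v := h1
    rw [h2, ciEta_mul, ciEta_gen, ih]
    show _ = ((List.count t ((cs G).simple v ::
      List.map (MulAut.conj ((cs G).simple v)) ((cs G).leftInvSeq ω)) : ℕ) : ZMod 2)
    rw [List.count_cons]
    have h3 : t = MulAut.conj ((cs G).simple v) (gen G v * t * (gen G v)⁻¹) := by
      rw [MulAut.conj_apply]
      show t = gen G v * (gen G v * t * (gen G v)⁻¹) * (gen G v)⁻¹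
      rw [h1]
      have hs : gen G v * gen G v = 1 := (cs G).simple_mul_simple_self v
      calc t = (gen G v * gen G v) * t * (gen G v * gen G v) := by rw [hs]; group
        _ = _ := by group
    have h4 : List.count t (List.map (MulAut.conj ((cs G).simple v)) ((cs G).leftInvSeq ω))
        = List.count (gen G v * t * (gen G v)⁻¹) ((cs G).leftInvSeq ω) := by
      conv_lhs => rw [h3]
      exact List.count_map_of_injective _ _ (MulEquiv.injective _) _
    rw [h4]
    push_cast
    rw [add_comm]
    congr 1
    by_cases ht : t = gen G v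
    · rw [if_pos ht, if_pos (beq_iff_eq.2 ht.symm)]
    · rw [if_neg ht, if_neg (by
        intro h
        exact ht (beq_iff_eq.1 h).symm)]

open scoped Classical in
/-- There is a function `N : W → Finset W` (the set of the inversions) with `N 1 = ∅`,
`N (w s_v) = N w ∆ {w s_v w⁻¹}`, `|N w| = ℓ w`, and such that every `t ∈ N w` is of the form
`u s_v u⁻¹` with `ℓ (t w) < ℓ w`. -/
theorem exists_inv : ∃ N : W G → Finset (W G), N 1 = ∅ ∧
    (∀ w v, N (w * gen G v) = symmDiff (N w) {w * gen G v * w⁻¹}) ∧
    (∀ w, (N w).card = len G w) ∧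
    (∀ w, ∀ t ∈ N w, len G (t * w) < len G w) ∧
    (∀ w x, N (w * x) = symmDiff (N w) ((N x).image (fun t => w * t * w⁻¹))) := by
  have hex : ∀ w : W G, ∃ F : Finset (W G), (∀ t, t ∈ F ↔ ciEta G w⁻¹ t = 1) ∧
      F.card = len G w ∧ ∀ t ∈ F, len G (t * w) < len G w := by
    intro w
    obtain ⟨ω, hred, hw⟩ := (cs G).exists_isReduced w
    have hlen : len G w = ω.length := by
      rw [hw]
      exact hred
    refine ⟨((cs G).leftInvSeq ω).toFinset, ?_, ?_, ?_⟩
    · intro t
      rw [hw, ciEta_word, List.mem_toFinset]
      have hnd := hred.nodup_leftInvSeq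
      by_cases ht : t ∈ (cs G).leftInvSeq ω
      · rw [List.count_eq_one_of_mem hnd ht]
        simp [ht]
      · rw [List.count_eq_zero_of_not_mem ht]
        simp [ht]
    · rw [List.toFinset_card_of_nodup hred.nodup_leftInvSeq, CoxeterSystem.length_leftInvSeq, hlen]
    · intro t ht
      rw [List.mem_toFinset] at ht
      have := (cs G).isLeftInversion_of_mem_leftInvSeq hred ht
      rw [hw]
      exact this.2
  choose N hN1 hN2 hN3 using hex
  have hcoc : ∀ w x, N (w * x) = symmDiff (N w) ((N x).image (fun t => w * t * w⁻¹)) := by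
    intro w x
    ext t
    rw [Finset.mem_symmDiff, hN1, hN1, Finset.mem_image, mul_inv_rev, ciEta_mul]
    have h1 : (∃ a ∈ N x, w * a * w⁻¹ = t) ↔ ciEta G x⁻¹ (w⁻¹ * t * w⁻¹⁻¹) = 1 := by
      constructor
      · rintro ⟨a, ha, rfl⟩
        have e : w⁻¹ * (w * a * w⁻¹) * w⁻¹⁻¹ = a := by group
        rw [e]
        exact (hN1 x a).1 ha
      · intro h
        exact ⟨w⁻¹ * t * w⁻¹⁻¹, (hN1 x _).2 h, by group⟩
    rw [h1]
    generalize ciEta G w⁻¹ t = a
    generalize ciEta G x⁻¹ (w⁻¹ * t * w⁻¹⁻¹) = b
    revert a b
    decide
  have hone : N 1 = ∅ := by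
    ext t
    rw [hN1, inv_one, ciEta_one]
    simp
  have hgen : ∀ v, N (gen G v) = {gen G v} := by
    intro v
    ext t
    have h1 : (gen G v)⁻¹ = gen G v := (cs G).inv_simple v
    rw [hN1, h1, ciEta_gen, Finset.mem_singleton]
    by_cases ht : t = gen G v
    · simp [ht]
    · simp [ht]
  refine ⟨N, hone, ?_, hN2, hN3, hcoc⟩
  intro w v
  rw [hcoc, hgen, Finset.image_singleton]

end SingerRA
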