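import Mathlib
import Pool.Agent.Lib_MP_394d50_gt.Defs2
import Pool.Agent.Lib_MP_394d50_gt.CInv

/-! Piece CDESC: descents and minimal coset representatives. -/

namespace SingerRA

variable {V : Type} (G : SimpleGraph V)

theorem len_gen (w : W G) (v : V) :
    len G (w * gen G v) = len G w + 1 ∨ len G (w * gen G v) + 1 = len G w :=
  (cs G).length_mul_simple w v

theorem par_mono {S T : Set V} (h : S ⊆ T) : par G S ≤ par G T := by
  apply Subgroup.closure_mono
  rintro g ⟨v, hv, rfl⟩
  exact ⟨v, h hv, rfl⟩

theorem lab_par {S : Set V} {x : W G} (hx : x ∈ par G S) {v : V} (hv : v ∉ S) :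
    (lab G x).toAdd v = 0 :=
  lab_closure G S x hx v hv

theorem gen_mem_par {S : Set V} {v : V} (hv : v ∈ S) : gen G v ∈ par G S :=
  Subgroup.subset_closure ⟨v, hv, rfl⟩

theorem gen_sq (v : V) : gen G v * gen G v = 1 := (cs G).simple_mul_simple_self v

theorem gen_inv (v : V) : (gen G v)⁻¹ = gen G v := (cs G).inv_simple v

/-- Induction on the elements of `W_S`: multiplication on the right by generators. -/
theorem par_induction {S : Set V} {p : W G → Prop} (h1 : p 1)
    (h2 : ∀ x ∈ par G S, p x → ∀ v ∈ S, p (x * gen G v)) {x : W G} (hx : x ∈ par G S) : p x := by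
  induction hx using Subgroup.closure_induction_right with
  | one => exact h1
  | mul_right x hx y hy hp =>
    obtain ⟨v, hv, rfl⟩ := hy
    exact h2 x hx hp v hv
  | mul_inv_cancel x hx y hy hp =>
    obtain ⟨v, hv, rfl⟩ := hy
    rw [gen_inv]
    exact h2 x hx hp v hv

/-! ### Labels of words -/

theorem lab_wordProd [DecidableEq V] (ω : List V) (v : V) :
    (lab G ((cs G).wordProd ω)).toAdd v = (ω.count v : ZMod 2) := by
  induction ω with
  | nil => simp
  | cons u ω ih =>
    rw [(cs G).wordProd_cons, map_mul, toAdd_mul, Pi.add_apply, ih, List.count_cons]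
    have h1 : lab G ((cs G).simple u) = Multiplicative.ofAdd (Pi.single u 1 : V → ZMod 2) :=
      lab_gen G u
    rw [h1, toAdd_ofAdd, Pi.single_apply]
    by_cases h : v = u
    · subst h; simp; ring
    · have h' : ¬ (u = v) := fun e => h e.symm
      simp [h, h']

theorem nodup_le_len (l : List V) (hl : l.Nodup) : l.length ≤ len G ((cs G).wordProd l) := by
  classical
  obtain ⟨ω, hω, hωl⟩ := (cs G).exists_isReduced ((cs G).wordProd l)
  have h1 : l ⊆ ω := by
    intro v hv
    by_contra hn
    have h2 := lab_wordProd G l v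
    rw [hωl, lab_wordProd, List.count_eq_zero_of_not_mem hn, List.count_eq_one_of_mem hl hv] at h2
    simp at h2
  have h2 : len G ((cs G).wordProd l) = ω.length := by
    rw [hωl]; exact hω
  rw [h2]
  exact (hl.subperm h1).length_le

theorem commute_wordProd (v : V) (l : List V) (h : ∀ u ∈ l, G.Adj v u) :
    (cs G).wordProd l * gen G v = gen G v * (cs G).wordProd l := by
  induction l with
  | nil => simp
  | cons u l ih =>
    rw [(cs G).wordProd_cons, mul_assoc, ih (fun x hx => h x (List.mem_cons_of_mem _ hx)),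
      ← mul_assoc, ← mul_assoc]
    congr 1
    exact (comm_of_adj G v u (h u List.mem_cons_self)).symm

/-- The elements of `W_S`, `S` a clique, are products of distinct generators. -/
theorem par_clique {S : Set V} (hS : G.IsClique S) {x : W G} (hx : x ∈ par G S) :
    ∃ l : List V, l.Nodup ∧ (∀ v ∈ l, v ∈ S) ∧ x = (cs G).wordProd l := by
  refine par_induction G (S := S) (p := fun x => ∃ l : List V, l.Nodup ∧ (∀ v ∈ l, v ∈ S) ∧
    x = (cs G).wordProd l) ⟨[], List.nodup_nil, by simp, by simp⟩ ?_ hx
  rintro x hx ⟨l, hl, hlS, rfl⟩ v hv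
  by_cases hvl : v ∈ l
  · obtain ⟨l1, l2, rfl⟩ := List.append_of_mem hvl
    refine ⟨l1 ++ l2, ?_, ?_, ?_⟩
    · exact (hl.sublist (List.Sublist.append (List.Sublist.refl _) (List.sublist_cons_self _ _)))
    · intro u hu
      apply hlS
      simp only [List.mem_append, List.mem_cons] at hu ⊢
      tauto
    · rw [(cs G).wordProd_append, (cs G).wordProd_cons, (cs G).wordProd_append, mul_assoc,
        mul_assoc, commute_wordProd]
      · rw [← mul_assoc (gen G v), gen_sq, one_mul]
      · intro u hu
        have hne : v ≠ u := by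
          rintro rfl
          have := (List.nodup_append.1 hl).2.1
          exact (List.nodup_cons.1 this).1 hu
        exact hS hv (hlS u (by simp [hu])) hne
  · refine ⟨l ++ [v], ?_, ?_, ?_⟩
    · rw [List.nodup_append]
      refine ⟨hl, List.nodup_singleton v, ?_⟩
      intro a ha b hb
      rw [List.mem_singleton] at hb
      rintro rfl
      exact hvl (hb ▸ ha)
    · intro u hu
      rcases List.mem_append.1 hu with h | h
      · exact hlS u h
      · rw [List.mem_singleton.1 h]; exact hv
    · rw [(cs G).wordProd_append, (cs G).wordProd_singleton]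

/-! ### Shortest elements of cosets -/

theorem len_mul_of_min (S : Set V) (w : W G) (hw : ∀ y ∈ par G S, len G w ≤ len G (w * y))
    (x : W G) (hx : x ∈ par G S) : len G (w * x) = len G w + len G x := by
  classical
  obtain ⟨N, hN1, hN2, hN3, hN4, hN5⟩ := exists_inv G
  have hsub : ∀ x ∈ par G S, ∀ t ∈ N x, t ∈ par G S := by
    intro x hx
    refine par_induction G (S := S) (p := fun x => ∀ t ∈ N x, t ∈ par G S) ?_ ?_ hx
    · rw [hN1]; simp
    · intro x hx hp v hv t ht
      rw [hN2, Finset.mem_symmDiff] at ht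
      rcases ht with h | h
      · exact hp t h.1
      · rw [Finset.mem_singleton.1 h.1]
        exact Subgroup.mul_mem _ (Subgroup.mul_mem _ hx (gen_mem_par G hv))
          (Subgroup.inv_mem _ hx)
  have hdisj : Disjoint (N w) ((N x).image (fun t => w * t * w⁻¹)) := by
    rw [Finset.disjoint_left]
    intro t ht ht'
    obtain ⟨t', ht'x, rfl⟩ := Finset.mem_image.1 ht'
    have h1 := hN4 w _ ht
    have h2 : w * t' * w⁻¹ * w = w * t' := by group
    rw [h2] at h1
    exact absurd (hw t' (hsub x hx t' ht'x)) (not_le.2 h1)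
  have hinj : Function.Injective (fun t => w * t * w⁻¹) := by
    intro s t hst
    dsimp only at hst
    exact mul_left_cancel (mul_right_cancel hst)
  rw [← hN3 (w * x), ← hN3 w, ← hN3 x, hN5, hdisj.symmDiff_eq_sup, Finset.sup_eq_union,
    Finset.card_union_of_disjoint hdisj, Finset.card_image_of_injective _ hinj]

/-- Every element is the product of a shortest element of its coset and an element of `W_S`. -/
theorem exists_min (S : Set V) (w : W G) : ∃ w0 x, x ∈ par G S ∧ w = w0 * x ∧
    ∀ y ∈ par G S, len G w0 ≤ len G (w0 * y) := by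
  classical
  have hex : ∃ n, ∃ x ∈ par G S, len G (w * x⁻¹) = n := ⟨_, 1, Subgroup.one_mem _, rfl⟩
  obtain ⟨x, hx, hn⟩ := Nat.find_spec hex
  refine ⟨w * x⁻¹, x, hx, by group, fun y hy => ?_⟩
  rw [hn]
  apply Nat.find_min' hex
  refine ⟨y⁻¹ * x, Subgroup.mul_mem _ (Subgroup.inv_mem _ hy) hx, ?_⟩
  congr 1
  group

/-! ### The infinite dihedral group -/

/-- The reflection of `ℤ` exchanging `2k` and `2k+1`. -/
def dihU : Equiv.Perm ℤ where
  toFun n := if n % 2 = 0 then n + 1 else n - 1
  invFun n := if n % 2 = 0 then n + 1 else n - 1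
  left_inv n := by dsimp only; split_ifs <;> omega
  right_inv n := by dsimp only; split_ifs <;> omega

/-- The reflection of `ℤ` exchanging `2k` and `2k-1`. -/
def dihV : Equiv.Perm ℤ where
  toFun n := if n % 2 = 0 then n - 1 else n + 1
  invFun n := if n % 2 = 0 then n - 1 else n + 1
  left_inv n := by dsimp only; split_ifs <;> omega
  right_inv n := by dsimp only; split_ifs <;> omega

theorem dihU_apply (n : ℤ) : dihU n = if n % 2 = 0 then n + 1 else n - 1 := rfl
theorem dihV_apply (n : ℤ) : dihV n = if n % 2 = 0 then n - 1 else n + 1 := rfl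

theorem dihU_sq : dihU * dihU = 1 := by
  ext n; exact dihU.left_inv n

theorem dihV_sq : dihV * dihV = 1 := by
  ext n; exact dihV.left_inv n

open scoped Classical in
/-- The images of the generators. -/
noncomputable def dihF (u v : V) (x : V) : Equiv.Perm ℤ :=
  if x = u then dihU else if x = v then dihV else 1

theorem dihF_sq (u v x : V) : dihF u v x * dihF u v x = 1 := by
  unfold dihF
  split_ifs
  · exact dihU_sq
  · exact dihV_sq
  · exact one_mul 1

theorem dih_liftable (u v : V) (hn : ¬ G.Adj u v) : (cox G).IsLiftable (dihF u v) := by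
  classical
  intro i j
  by_cases h : i = j
  · subst h
    show (_ * _) ^ (if i = i then 1 else _) = 1
    rw [if_pos rfl, pow_one]
    exact dihF_sq _ _ _
  · show (_ * _) ^ (if i = j then 1 else if G.Adj i j then 2 else 0) = 1
    rw [if_neg h]
    split_ifs with hadj
    · rw [pow_two]
      by_cases hi : i = u ∨ i = v
      · have hj : dihF u v j = 1 := by
          unfold dihF
          rw [if_neg, if_neg]
          · rintro rfl
            rcases hi with rfl | rfl
            · exact hn hadj
            · exact h rfl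
          · rintro rfl
            rcases hi with rfl | rfl
            · exact h rfl
            · exact hn (G.adj_symm hadj)
        rw [hj, mul_one]
        exact dihF_sq _ _ _
      · have hi' : dihF u v i = 1 := by
          unfold dihF
          rw [if_neg (fun e => hi (Or.inl e)), if_neg (fun e => hi (Or.inr e))]
        rw [hi', one_mul]
        exact dihF_sq _ _ _
    · exact pow_zero _

theorem dihF_le (u v x : V) (n : ℤ) : |dihF u v x n| ≤ |n| + 1 := by
  unfold dihF
  split_ifs
  · rw [dihU_apply]
    split_ifs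
    · exact (abs_add_le n 1).trans (by simp)
    · exact (abs_sub n 1).trans (by simp)
  · rw [dihV_apply]
    split_ifs
    · exact (abs_sub n 1).trans (by simp)
    · exact (abs_add_le n 1).trans (by simp)
  · simp

/-- The position of an element in the infinite dihedral quotient is bounded by the length. -/
theorem exists_pos (u v : V) (huv : u ≠ v) (hn : ¬ G.Adj u v) : ∃ pos : W G → ℤ, pos 1 = 0 ∧
    (∀ x, pos (x * gen G u) = dihU (pos x)) ∧ (∀ x, pos (x * gen G v) = dihV (pos x)) ∧
    ∀ x, |pos x| ≤ len G x := by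
  classical
  let ρ : W G →* Equiv.Perm ℤ := (cs G).lift ⟨dihF u v, dih_liftable G u v hn⟩
  have hρ : ∀ x, ρ ((cs G).simple x) = dihF u v x := fun x => (cs G).lift_apply_simple _ x
  have hρw : ∀ (ω : List V) (n : ℤ), |ρ ((cs G).wordProd ω) n| ≤ |n| + ω.length := by
    intro ω
    induction ω with
    | nil => intro n; simp
    | cons x ω ih =>
      intro n
      rw [(cs G).wordProd_cons, map_mul, hρ, Equiv.Perm.mul_apply]
      refine (dihF_le u v x _).trans ?_
      have := ih n
      rw [List.length_cons]
      push_cast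
      linarith
  refine ⟨fun x => ρ x⁻¹ 0, by simp, fun x => ?_, fun x => ?_, fun x => ?_⟩
  · show ρ (x * gen G u)⁻¹ 0 = dihU (ρ x⁻¹ 0)
    rw [mul_inv_rev, gen_inv, map_mul, hρ, Equiv.Perm.mul_apply]
    unfold dihF
    rw [if_pos rfl]
  · show ρ (x * gen G v)⁻¹ 0 = dihV (ρ x⁻¹ 0)
    rw [mul_inv_rev, gen_inv, map_mul, hρ, Equiv.Perm.mul_apply]
    unfold dihF
    rw [if_neg (Ne.symm huv), if_pos rfl]
  · obtain ⟨ω, hω, hωx⟩ := (cs G).exists_isReduced x⁻¹
    have h1 := hρw ω 0
    rw [← hωx] at h1
    have h2 : len G x = ω.length := by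
      show (cs G).length x = ω.length
      rw [← (cs G).length_inv, hωx]
      exact hω
    rw [h2]
    simpa using h1

/-- The alternating products `s_u s_v s_u ...` with `n` factors. -/
noncomputable def altP (u v : V) : ℕ → W G
  | 0 => 1
  | n + 1 => altP u v n * (if n % 2 = 0 then gen G u else gen G v)

theorem altP_len (u v : V) (n : ℕ) : len G (altP G u v n) ≤ n := by
  induction n with
  | zero => simp [altP]
  | succ n ih =>
    show len G (altP G u v n * (if n % 2 = 0 then gen G u else gen G v)) ≤ n + 1
    split_ifs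
    · rcases len_gen G (altP G u v n) u with h | h <;> omega
    · rcases len_gen G (altP G u v n) v with h | h <;> omega

theorem altP_mul_u (u v : V) (n : ℕ) :
    (∃ m, altP G u v n * gen G u = altP G u v m) ∨ altP G u v n * gen G u = altP G v u 1 := by
  by_cases h : n % 2 = 0
  · left
    refine ⟨n + 1, ?_⟩
    show _ = altP G u v n * (if n % 2 = 0 then gen G u else gen G v)
    rw [if_pos h]
  · left
    obtain ⟨m, rfl⟩ : ∃ m, n = m + 1 := ⟨n - 1, by omega⟩
    refine ⟨m, ?_⟩
    show altP G u v m * (if m % 2 = 0 then gen G u else gen G v) * gen G u = _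
    rw [if_pos (by omega), mul_assoc, gen_sq, mul_one]

theorem altP_mul_v (u v : V) (n : ℕ) :
    (∃ m, altP G u v n * gen G v = altP G u v m) ∨
      (n = 0 ∧ altP G u v n * gen G v = altP G v u 1) := by
  by_cases h : n % 2 = 0
  · rcases Nat.eq_zero_or_pos n with rfl | hn
    · right
      exact ⟨rfl, by simp [altP]⟩
    · left
      obtain ⟨m, rfl⟩ : ∃ m, n = m + 1 := ⟨n - 1, by omega⟩
      refine ⟨m, ?_⟩
      show altP G u v m * (if m % 2 = 0 then gen G u else gen G v) * gen G v = _
      rw [if_neg (by omega), mul_assoc, gen_sq, mul_one]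
  · left
    refine ⟨n + 1, ?_⟩
    show _ = altP G u v n * (if n % 2 = 0 then gen G u else gen G v)
    rw [if_neg h]

theorem par_pair (u v : V) {x : W G} (hx : x ∈ par G {u, v}) :
    (∃ n, x = altP G u v n) ∨ ∃ n, x = altP G v u n := by
  refine par_induction G (S := {u, v}) (p := fun x => (∃ n, x = altP G u v n) ∨
    ∃ n, x = altP G v u n) (Or.inl ⟨0, rfl⟩) ?_ hx
  rintro x - hx z hz
  rcases hx with ⟨n, rfl⟩ | ⟨n, rfl⟩
  · rcases hz with rfl | hz
    · rcases altP_mul_u G z v n with ⟨m, h⟩ | h
      · exact Or.inl ⟨m, h⟩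
      · exact Or.inr ⟨1, h⟩
    · rw [Set.mem_singleton_iff] at hz
      subst hz
      rcases altP_mul_v G u z n with ⟨m, h⟩ | ⟨_, h⟩
      · exact Or.inl ⟨m, h⟩
      · exact Or.inr ⟨1, h⟩
  · rcases hz with rfl | hz
    · rcases altP_mul_v G v z n with ⟨m, h⟩ | ⟨_, h⟩
      · exact Or.inr ⟨m, h⟩
      · exact Or.inl ⟨1, h⟩
    · rw [Set.mem_singleton_iff] at hz
      subst hz
      rcases altP_mul_u G z u n with ⟨m, h⟩ | h
      · exact Or.inr ⟨m, h⟩
      · exact Or.inl ⟨1, h⟩

theorem altP_pos (u v : V) (pos : W G → ℤ) (h0 : pos 1 = 0)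
    (hu : ∀ x, pos (x * gen G u) = dihU (pos x)) (hv : ∀ x, pos (x * gen G v) = dihV (pos x))
    (n : ℕ) : pos (altP G u v n) = n := by
  induction n with
  | zero => simpa [altP] using h0
  | succ n ih =>
    show pos (altP G u v n * (if n % 2 = 0 then gen G u else gen G v)) = ((n + 1 : ℕ) : ℤ)
    split_ifs with h
    · rw [hu, ih, dihU_apply, if_pos (by omega)]; push_cast; rfl
    · rw [hv, ih, dihV_apply, if_neg (by omega)]; push_cast; rfl

theorem altP_pos' (u v : V) (pos : W G → ℤ) (h0 : pos 1 = 0)
    (hu : ∀ x, pos (x * gen G u) = dihU (pos x)) (hv : ∀ x, pos (x * gen G v) = dihV (pos x))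
    (n : ℕ) : pos (altP G v u n) = -(n : ℤ) := by
  induction n with
  | zero => simpa [altP] using h0
  | succ n ih =>
    show pos (altP G v u n * (if n % 2 = 0 then gen G v else gen G u)) = -((n + 1 : ℕ) : ℤ)
    split_ifs with h
    · rw [hv, ih, dihV_apply, if_pos (by omega)]; push_cast; ring
    · rw [hu, ih, dihU_apply, if_neg (by omega)]; push_cast; ring

/-- In the infinite dihedral group only one generator is a descent. -/
theorem not_both_desc (u v : V) (huv : u ≠ v) (hn : ¬ G.Adj u v) (n : ℕ)
    (h1 : len G (altP G u v n * gen G u) < len G (altP G u v n))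
    (h2 : len G (altP G u v n * gen G v) < len G (altP G u v n)) : False := by
  obtain ⟨pos, h0, hu, hv, hle⟩ := exists_pos G u v huv hn
  have hl := altP_len G u v n
  have h3 := hle (altP G u v (n + 1))
  rw [altP_pos G u v pos h0 hu hv] at h3
  have h4 : ((n + 1 : ℕ) : ℤ) ≤ (len G (altP G u v (n + 1)) : ℤ) := (le_abs_self _).trans h3
  have h5 : altP G u v (n + 1) = altP G u v n * (if n % 2 = 0 then gen G u else gen G v) := rfl
  rw [h5] at h4
  split_ifs at h4 <;> omega

/-- Two distinct descents of `w` are adjacent. -/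
theorem adj_of_desc (w : W G) (u v : V) (huv : u ≠ v) (hu : len G (w * gen G u) < len G w)
    (hv : len G (w * gen G v) < len G w) : G.Adj u v := by
  by_contra hn
  obtain ⟨w0, x, hx, rfl, hmin⟩ := exists_min G {u, v} w
  have hmu : gen G u ∈ par G {u, v} := gen_mem_par G (by simp)
  have hmv : gen G v ∈ par G {u, v} := gen_mem_par G (by simp)
  rw [mul_assoc, len_mul_of_min G _ w0 hmin _ (Subgroup.mul_mem _ hx hmu),
    len_mul_of_min G _ w0 hmin _ hx] at hu
  rw [mul_assoc, len_mul_of_min G _ w0 hmin _ (Subgroup.mul_mem _ hx hmv),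
    len_mul_of_min G _ w0 hmin _ hx] at hv
  have hu' : len G (x * gen G u) < len G x := by omega
  have hv' : len G (x * gen G v) < len G x := by omega
  rcases par_pair G u v hx with ⟨n, rfl⟩ | ⟨n, rfl⟩
  · exact not_both_desc G u v huv hn n hu' hv'
  · exact not_both_desc G v u huv.symm (fun h => hn (G.adj_symm h)) n hv' hu'

/-- If `S` is a clique without descents of `w`, then `w` is the unique shortest element of its
coset `w W_S`. -/
theorem len_lt_of_par (w : W G) (S : Set V) (hS : G.IsClique S)
    (hmin : ∀ v ∈ S, len G w < len G (w * gen G v)) (x : W G) (hx : x ∈ par G S)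
    (hx1 : x ≠ 1) : len G w < len G (w * x) := by
  obtain ⟨w0, x0, hx0, rfl, hmin0⟩ := exists_min G S w
  obtain ⟨l, hl, hlS, rfl⟩ := par_clique G hS hx0
  have hnil : l = [] := by
    by_contra hne
    obtain ⟨l', v, rfl⟩ : ∃ l' v, l = l' ++ [v] :=
      ⟨l.dropLast, l.getLast hne, (List.dropLast_append_getLast hne).symm⟩
    have hv : v ∈ S := hlS v (by simp)
    have h1 := hmin v hv
    rw [mul_assoc, len_mul_of_min G _ w0 hmin0 _ hx0, len_mul_of_min G _ w0 hmin0 _
      (Subgroup.mul_mem _ hx0 (gen_mem_par G hv))] at h1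
    rw [(cs G).wordProd_append, (cs G).wordProd_singleton, mul_assoc, gen_sq, mul_one,
      ← (cs G).wordProd_singleton, ← (cs G).wordProd_append] at h1
    have h2 := nodup_le_len G (l' ++ [v]) hl
    have h3 : len G ((cs G).wordProd l') ≤ l'.length := (cs G).length_wordProd_le l'
    rw [List.length_append, List.length_singleton] at h2
    omega
  subst hnil
  rw [(cs G).wordProd_nil, mul_one, len_mul_of_min G _ w0 hmin0 _ hx]
  have : len G x ≠ 0 := fun h => hx1 ((cs G).length_eq_zero_iff.1 h)
  omega

/-- The elements of `W_S`, `S` a clique, are detected by the labels. -/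
theorem eq_one_of_par (S : Set V) (hS : G.IsClique S) (x : W G) (hx : x ∈ par G S)
    (hl : ∀ v ∈ S, (lab G x).toAdd v = 0) : x = 1 := by
  classical
  obtain ⟨l, hnd, hlS, rfl⟩ := par_clique G hS hx
  rcases l with _ | ⟨v, l⟩
  · simp
  · exfalso
    have h1 := hl v (hlS v List.mem_cons_self)
    rw [lab_wordProd, List.count_eq_one_of_mem hnd List.mem_cons_self] at h1
    simp at h1

/-- Every pattern of labels on a finite clique is realised, by an element of small length. -/
theorem exists_par [DecidableEq V] (S : Finset V) (hS : G.IsClique (S : Set V)) :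
    ∃ x ∈ par G (S : Set V), len G x ≤ S.card ∧
      ∀ v, (lab G x).toAdd v = if v ∈ S then 1 else 0 := by
  refine ⟨(cs G).wordProd S.toList, ?_, ?_, fun v => ?_⟩
  · have : ∀ l : List V, (∀ v ∈ l, v ∈ S) → (cs G).wordProd l ∈ par G (S : Set V) := by
      intro l
      induction l with
      | nil => intro _; rw [(cs G).wordProd_nil]; exact Subgroup.one_mem _
      | cons v l ih =>
        intro h
        rw [(cs G).wordProd_cons]
        exact Subgroup.mul_mem _ (gen_mem_par G (h v List.mem_cons_self))
          (ih (fun u hu => h u (List.mem_cons_of_mem _ hu)))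
    exact this _ (fun v hv => Finset.mem_toList.1 hv)
  · have := (cs G).length_wordProd_le S.toList
    rwa [Finset.length_toList] at this
  · rw [lab_wordProd]
    split_ifs with h
    · rw [List.count_eq_one_of_mem S.nodup_toList (Finset.mem_toList.2 h)]; simp
    · rw [List.count_eq_zero_of_not_mem (fun h' => h (Finset.mem_toList.1 h'))]; simp

end SingerRA
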