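import Mathlib
import Pool.Agent.Lib_MP_394d50_gt.Defs2
import Pool.Agent.Lib_MP_394d50_gt.CDesc

/-! Piece CTOP: basic topology of the Davis complex. -/

namespace SingerRA

variable {V : Type} [Finite V] (G : SimpleGraph V)

omit [Finite V] in
theorem dmk_eq_iff (w w' : W G) (y y' : Chamber G) :
    dmk G w y = dmk G w' y' ↔ y = y' ∧ w⁻¹ * w' ∈ par G {v | y.1 v = 1} := by
  unfold dmk
  exact Quotient.eq (r := davisSetoid G)

omit [Finite V] in
theorem exists_dmk (s : Davis G) : ∃ w y, s = dmk G w y := by
  obtain ⟨p, hp⟩ := Quotient.exists_rep s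
  exact ⟨p.1, p.2, hp.symm⟩

omit [Finite V] in
theorem continuous_dmk (w : W G) : Continuous (dmk G w) := by
  have h1 : Continuous (Quotient.mk (davisSetoid G)) := continuous_quotient_mk'
  have h2 : Continuous (fun y : Chamber G => (w, y)) := by fun_prop
  exact h1.comp h2

omit [Finite V] in
/-- A map on the Davis complex is continuous when it is continuous on every chamber. -/
theorem continuous_of_dmk {X : Type} [TopologicalSpace X] (f : Davis G → X)
    (h : ∀ w, Continuous (fun y => f (dmk G w y))) : Continuous f := by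
  have hq : Topology.IsQuotientMap (Quotient.mk (davisSetoid G)) := isQuotientMap_quot_mk
  apply (Topology.IsQuotientMap.continuous_iff hq).mpr
  rw [continuous_prod_of_discrete_left]
  intro w
  exact h w

omit [Finite V] in
/-- A subset of the Davis complex is open when its traces on all chambers are open. -/
theorem isOpen_of_dmk (U : Set (Davis G)) (h : ∀ w, IsOpen {y | dmk G w y ∈ U}) : IsOpen U := by
  have hq : Topology.IsQuotientMap (Quotient.mk (davisSetoid G)) := isQuotientMap_quot_mk
  apply hq.isOpen_preimage.mp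
  rw [isOpen_prod_iff]
  intro w y hy
  refine ⟨{w}, {y | dmk G w y ∈ U}, isOpen_discrete _, h w, rfl, hy, ?_⟩
  rintro ⟨w', y'⟩ ⟨h1, h2⟩
  have h1' : w' = w := h1
  subst h1'
  exact h2

omit [Finite V] in
theorem isClosed_of_dmk_aux (U : Set (Davis G)) (h : ∀ w, IsClosed {y | dmk G w y ∈ U}) :
    IsClosed U := by
  rw [← isOpen_compl_iff]
  apply isOpen_of_dmk
  intro w
  exact (h w).isOpen_compl

omit [Finite V] in
theorem continuous_proj : Continuous (proj G) := by
  apply continuous_of_dmk
  intro w
  apply Continuous.subtype_mk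
  apply continuous_pi
  intro v
  show Continuous (fun y : Chamber G => sg ((lab G w).toAdd v) * (1 - y.1 v))
  exact continuous_const.mul (continuous_const.sub ((continuous_apply v).comp continuous_subtype_val))

omit [Finite V] in
/-- The coordinates in the chamber. -/
theorem exists_dcoord : ∃ f : Davis G → Chamber G, Continuous f ∧ ∀ w y, f (dmk G w y) = y := by
  refine ⟨Quotient.lift (s := davisSetoid G) (fun p => p.2) (fun p q h => h.1), ?_,
    fun w y => rfl⟩
  apply continuous_of_dmk
  intro w
  exact continuous_id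

omit [Finite V] in
/-- the set of the points of the chamber at which `g` lies in a parabolic subgroup which
depends monotonically on the coordinates -/
theorem eq_iUnion_aux (g : W G) (P : Chamber G → V → Prop) :
    {y : Chamber G | g ∈ par G {v | P y v}} =
      ⋃ T : {T : Set V // g ∈ par G T}, ⋂ v : T.1, {y : Chamber G | P y v.1} := by
  ext y
  simp only [Set.mem_ofPred_eq, Set.mem_iUnion, Set.mem_iInter]
  constructor
  · intro h
    exact ⟨⟨{v | P y v}, h⟩, fun v => v.2⟩
  · rintro ⟨T, hT⟩
    exact par_mono G (fun v hv => hT ⟨v, hv⟩) T.2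

theorem isClosed_chamber (w : W G) : IsClosed (Set.range (dmk G w)) := by
  apply isClosed_of_dmk_aux
  intro w'
  have h : {y | dmk G w' y ∈ Set.range (dmk G w)} =
      {y : Chamber G | w⁻¹ * w' ∈ par G {v | y.1 v = 1}} := by
    ext y
    simp only [Set.mem_ofPred_eq, Set.mem_range]
    constructor
    · rintro ⟨y', hy'⟩
      obtain ⟨h1, h2⟩ := (dmk_eq_iff G _ _ _ _).mp hy'
      subst h1
      exact h2
    · intro h
      exact ⟨y, (dmk_eq_iff G _ _ _ _).mpr ⟨rfl, h⟩⟩
  rw [h, eq_iUnion_aux G (w⁻¹ * w') (fun y v => y.1 v = 1)]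
  have : Finite {T : Set V // w⁻¹ * w' ∈ par G T} := inferInstance
  apply isClosed_iUnion_of_finite
  intro T
  apply isClosed_iInter
  intro v
  exact isClosed_eq ((continuous_apply v.1).comp continuous_subtype_val) continuous_const

/-- The open star of the vertex `w`: the points `[w', y]` with `w⁻¹ w'` in the subgroup generated
by the `v` with `y v ≠ 0`, and `y v > 0` for the labels which differ. -/
def ostar (w : W G) : Set (Davis G) :=
  {s | ∃ w' y, s = dmk G w' y ∧ w⁻¹ * w' ∈ par G {v | y.1 v ≠ 0}}

omit [Finite V] in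
theorem mem_ostar (w w' : W G) (y : Chamber G) :
    dmk G w' y ∈ ostar G w ↔ w⁻¹ * w' ∈ par G {v | y.1 v ≠ 0} := by
  constructor
  · rintro ⟨w'', y', h1, h2⟩
    obtain ⟨h3, h4⟩ := (dmk_eq_iff G _ _ _ _).mp h1
    subst h3
    have h5 : par G {v | y.1 v = 1} ≤ par G {v | y.1 v ≠ 0} := by
      apply par_mono
      intro v hv
      have : y.1 v = 1 := hv
      show y.1 v ≠ 0
      rw [this]; exact one_ne_zero
    have h6 := Subgroup.mul_mem _ h2 (Subgroup.inv_mem _ (h5 h4))
    have e : w⁻¹ * w'' * (w'⁻¹ * w'')⁻¹ = w⁻¹ * w' := by group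
    rwa [e] at h6
  · intro h
    exact ⟨w', y, rfl, h⟩

theorem isOpen_ostar (w : W G) : IsOpen (ostar G w) := by
  apply isOpen_of_dmk
  intro w'
  have h : {y | dmk G w' y ∈ ostar G w} =
      {y : Chamber G | w⁻¹ * w' ∈ par G {v | y.1 v ≠ 0}} := by
    ext y
    exact mem_ostar G w w' y
  rw [h, eq_iUnion_aux G (w⁻¹ * w') (fun y v => y.1 v ≠ 0)]
  apply isOpen_iUnion
  intro T
  have : Finite T.1 := inferInstance
  apply isOpen_iInter_of_finite
  intro v
  exact isOpen_ne_fun ((continuous_apply v.1).comp continuous_subtype_val) continuous_const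

/-- The elements of `par G S` for a clique `S` have length at most `|V|`. -/
theorem len_par_le_aux (S : Set V) (hS : G.IsClique S) (x : W G) (hx : x ∈ par G S) :
    len G x ≤ Nat.card V := by
  classical
  have := Fintype.ofFinite V
  set T : Finset V := Finset.univ.filter (fun v => (lab G x).toAdd v ≠ 0) with hT
  have hTS : (T : Set V) ⊆ S := by
    intro v hv
    by_contra hvS
    have h1 := lab_par G hx hvS
    have h2 : (lab G x).toAdd v ≠ 0 := by simpa [hT] using hv
    exact h2 h1
  have hTc : G.IsClique (T : Set V) := hS.subset hTS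
  obtain ⟨z, hz, hlen, hlab⟩ := exists_par G T hTc
  have h2 : x * z⁻¹ ∈ par G S :=
    Subgroup.mul_mem _ hx (Subgroup.inv_mem _ (par_mono G hTS hz))
  have h3 : x * z⁻¹ = 1 := by
    apply eq_one_of_par G S hS _ h2
    intro v hv
    rw [map_mul, map_inv, toAdd_mul, toAdd_inv, Pi.add_apply, Pi.neg_apply, hlab v]
    by_cases h4 : v ∈ T
    · rw [if_pos h4]
      have h5 : (lab G x).toAdd v ≠ 0 := by simpa [hT] using h4
      have h6 : ∀ a : ZMod 2, a ≠ 0 → a + -1 = 0 := by decide
      exact h6 _ h5
    · rw [if_neg h4]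
      have h5 : (lab G x).toAdd v = 0 := by
        by_contra h6
        exact h4 (by simpa [hT] using h6)
      rw [h5]; simp
  have h4 : x = z := mul_inv_eq_one.mp h3
  rw [h4]
  calc len G z ≤ T.card := hlen
    _ ≤ Fintype.card V := Finset.card_le_univ T
    _ = Nat.card V := (Nat.card_eq_fintype_card).symm

theorem ostar_subset (w : W G) (s : Davis G) (hs : s ∈ ostar G w) :
    ∃ w' y, s = dmk G w' y ∧ len G w' ≤ len G w + Nat.card V := by
  obtain ⟨w', y, h1, h2⟩ := hs
  refine ⟨w', y, h1, ?_⟩
  have h3 := len_par_le_aux G {v | y.1 v ≠ 0} y.2.2 _ h2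
  have h4 : w' = w * (w⁻¹ * w') := by group
  have h5 : len G (w * (w⁻¹ * w')) ≤ len G w + len G (w⁻¹ * w') := (cs G).length_mul_le _ _
  rw [← h4] at h5
  omega

end SingerRA
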