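import Mathlib
import Pool.Agent.Lib_MP_394d50_gt.Defs2
import Pool.Agent.Lib_MP_394d50_gt.CDesc
import Pool.Agent.Lib_MP_394d50_gt.CTop

/-! Piece CCELL: the cubical cell structure of the Davis complex. -/

namespace SingerRA

variable {V : Type} [Finite V] [DecidableEq V] (G : SimpleGraph V)

open scoped Classical in
/-- The product of the generators of a clique. -/
noncomputable def pw (S : Finset V) : W G :=
  if h : G.IsClique (S : Set V) then (exists_par G S h).choose else 1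

omit [Finite V] in
theorem pw_mem (S : Finset V) (h : G.IsClique (S : Set V)) : pw G S ∈ par G (S : Set V) := by
  unfold pw
  rw [dif_pos h]
  exact (exists_par G S h).choose_spec.1

omit [Finite V] in
theorem lab_pw (S : Finset V) (h : G.IsClique (S : Set V)) (v : V) :
    (lab G (pw G S)).toAdd v = if v ∈ S then 1 else 0 := by
  unfold pw
  rw [dif_pos h]
  exact (exists_par G S h).choose_spec.2.2 v

omit [Finite V] [DecidableEq V] in
/-- Elements of `W_S` are determined by their labels. -/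
theorem par_ext (S : Set V) (hS : G.IsClique S) (x y : W G) (hx : x ∈ par G S) (hy : y ∈ par G S)
    (h : ∀ v ∈ S, (lab G x).toAdd v = (lab G y).toAdd v) : x = y := by
  have h1 : x⁻¹ * y = 1 := by
    apply eq_one_of_par G S hS
    · exact Subgroup.mul_mem _ (Subgroup.inv_mem _ hx) hy
    · intro v hv
      rw [map_mul, map_inv, toAdd_mul, toAdd_inv, Pi.add_apply, Pi.neg_apply, h v hv,
        neg_add_cancel]
  exact (inv_mul_eq_one.mp h1)

omit [Finite V] in
theorem pw_union (S T : Finset V) (h : G.IsClique ((S ∪ T : Finset V) : Set V))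
    (hd : Disjoint S T) : pw G (S ∪ T) = pw G S * pw G T := by
  have hS : G.IsClique (S : Set V) := h.subset (by simp)
  have hT : G.IsClique (T : Set V) := h.subset (by simp)
  apply par_ext G _ h
  · exact pw_mem G _ h
  · exact Subgroup.mul_mem _ (par_mono G (by simp) (pw_mem G S hS))
      (par_mono G (by simp) (pw_mem G T hT))
  · intro v _
    rw [map_mul, toAdd_mul, Pi.add_apply, lab_pw G _ h, lab_pw G _ hS, lab_pw G _ hT]
    by_cases h1 : v ∈ S
    · have h2 : v ∉ T := Finset.disjoint_left.mp hd h1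
      simp [h1, h2]
    · by_cases h2 : v ∈ T
      · simp [h1, h2]
      · simp [h1, h2]

omit [Finite V] in
theorem pw_single (v : V) : pw G {v} = gen G v := by
  have hc : G.IsClique (({v} : Finset V) : Set V) := by simp
  apply par_ext G _ hc
  · exact pw_mem G _ hc
  · exact Subgroup.subset_closure ⟨v, by simp, rfl⟩
  · intro u hu
    have hu' : u = v := by simpa using hu
    subst hu'
    rw [lab_pw G _ hc, lab_gen]
    simp

/-- The chamber coordinates of the point `t` of a cube. -/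
noncomputable def cy (σ : Finset V) (hσ : G.IsClique (σ : Set V))
    (t : {t : V → ℝ | ∀ v, |t v| ≤ 1}) : Chamber G :=
  ⟨fun v => if v ∈ σ then 1 - |t.1 v| else 0, by
    constructor
    · intro v
      have h := t.2 v
      dsimp
      split_ifs
      · exact ⟨by linarith, by linarith [abs_nonneg (t.1 v)]⟩
      · exact ⟨le_refl _, zero_le_one⟩
    · apply hσ.subset
      intro v hv
      by_contra hc
      apply hv
      show (if v ∈ σ then 1 - |t.1 v| else 0) = 0
      exact if_neg hc⟩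

open scoped Classical in
/-- The set of the negative coordinates. -/
noncomputable def ng (σ : Finset V) (t : {t : V → ℝ | ∀ v, |t v| ≤ 1}) : Finset V :=
  σ.filter (fun v => t.1 v < 0)

/-- The characteristic map. -/
noncomputable def Phi (c : (davis G).Cubes) (t : {t : V → ℝ | ∀ v, |t v| ≤ 1}) : Davis G :=
  dmk G (c.1.2 * pw G (ng c.1.1 t)) (cy G c.1.1 c.2.1 t)

omit [Finite V] [DecidableEq V] in
theorem ng_subset (σ : Finset V) (t : {t : V → ℝ | ∀ v, |t v| ≤ 1}) : ng σ t ⊆ σ :=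
  Finset.filter_subset _ _

omit [Finite V] [DecidableEq V] in
theorem mem_ng (σ : Finset V) (t : {t : V → ℝ | ∀ v, |t v| ≤ 1}) (v : V) :
    v ∈ ng σ t ↔ v ∈ σ ∧ t.1 v < 0 := by
  unfold ng
  exact Finset.mem_filter

omit [Finite V] in
theorem continuous_cy (σ : Finset V) (hσ : G.IsClique (σ : Set V)) : Continuous (cy G σ hσ) := by
  apply Continuous.subtype_mk
  apply continuous_pi
  intro v
  split_ifs
  · have h1 : Continuous (fun t : {t : V → ℝ | ∀ v, |t v| ≤ 1} => t.1 v) :=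
      (continuous_apply v).comp continuous_subtype_val
    exact continuous_const.sub h1.abs
  · exact continuous_const

theorem Phi_eq (c : (davis G).Cubes) (A : Finset V) (hA : A ⊆ c.1.1)
    (t : {t : V → ℝ | ∀ v, |t v| ≤ 1}) (h1 : ∀ v ∈ A, t.1 v ≤ 0)
    (h2 : ∀ v ∈ c.1.1, v ∉ A → 0 ≤ t.1 v) :
    Phi G c t = dmk G (c.1.2 * pw G A) (cy G c.1.1 c.2.1 t) := by
  unfold Phi
  rw [dmk_eq_iff]
  refine ⟨rfl, ?_⟩
  have hsub : ng c.1.1 t ⊆ A := by
    intro v hv
    rw [mem_ng] at hv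
    by_contra hc
    have := h2 v hv.1 hc
    linarith [hv.2]
  have hu : A = ng c.1.1 t ∪ (A \ ng c.1.1 t) := by
    rw [Finset.union_sdiff_of_subset hsub]
  have hcl : G.IsClique (A : Set V) := c.2.1.subset (by exact_mod_cast hA)
  have h3 : pw G A = pw G (ng c.1.1 t) * pw G (A \ ng c.1.1 t) := by
    conv_lhs => rw [hu]
    apply pw_union
    · rw [← hu]
      exact hcl
    · exact Finset.disjoint_sdiff
  rw [h3]
  have e : (c.1.2 * pw G (ng c.1.1 t))⁻¹ *
      (c.1.2 * (pw G (ng c.1.1 t) * pw G (A \ ng c.1.1 t))) = pw G (A \ ng c.1.1 t) := by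
    group
  rw [e]
  have hcl2 : G.IsClique ((A \ ng c.1.1 t : Finset V) : Set V) :=
    hcl.subset (by exact_mod_cast Finset.sdiff_subset)
  refine par_mono G ?_ (pw_mem G _ hcl2)
  intro v hv
  have hv' : v ∈ A ∧ v ∉ ng c.1.1 t := by
    have : v ∈ A \ ng c.1.1 t := by exact_mod_cast hv
    exact Finset.mem_sdiff.mp this
  have hvs := hA hv'.1
  have h4 := h1 v hv'.1
  have h5 : ¬ (t.1 v < 0) := fun h => hv'.2 ((mem_ng _ _ _).mpr ⟨hvs, h⟩)
  have h6 : t.1 v = 0 := le_antisymm h4 (not_lt.mp h5)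
  show (if v ∈ c.1.1 then 1 - |t.1 v| else 0) = 1
  rw [if_pos hvs, h6, abs_zero, sub_zero]

theorem continuous_Phi (c : (davis G).Cubes) : Continuous (Phi G c) := by
  let F : {A : Finset V // A ⊆ c.1.1} → Set {t : V → ℝ | ∀ v, |t v| ≤ 1} := fun A =>
    {t | (∀ v ∈ A.1, t.1 v ≤ 0) ∧ ∀ v ∈ c.1.1, v ∉ A.1 → 0 ≤ t.1 v}
  have hcv : ∀ v, Continuous (fun t : {t : V → ℝ | ∀ v, |t v| ≤ 1} => t.1 v) := fun v =>
    (continuous_apply v).comp continuous_subtype_val
  have hfin : Finite {A : Finset V // A ⊆ c.1.1} := inferInstance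
  refine LocallyFinite.continuous (f := F) (locallyFinite_of_finite F) ?_ ?_ ?_
  · rw [Set.eq_univ_iff_forall]
    intro t
    rw [Set.mem_iUnion]
    refine ⟨⟨ng c.1.1 t, ng_subset _ _⟩, fun v hv => ?_, fun v hv hv' => ?_⟩
    · exact le_of_lt ((mem_ng _ _ _).mp hv).2
    · by_contra hc
      exact hv' ((mem_ng _ _ _).mpr ⟨hv, not_le.mp hc⟩)
  · intro A
    have e : F A = (⋂ v ∈ A.1, {t | t.1 v ≤ 0}) ∩ ⋂ v ∈ c.1.1, ⋂ (_ : v ∉ A.1),
        {t | 0 ≤ t.1 v} := by
      ext t
      simp only [F, Set.mem_ofPred_eq, Set.mem_inter_iff, Set.mem_iInter]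
    rw [e]
    refine IsClosed.inter ?_ ?_
    · exact isClosed_iInter fun v => isClosed_iInter fun _ => isClosed_le (hcv v) continuous_const
    · exact isClosed_iInter fun v => isClosed_iInter fun _ => isClosed_iInter fun _ =>
        isClosed_le continuous_const (hcv v)
  · intro A
    have h1 : ContinuousOn (fun t => dmk G (c.1.2 * pw G A.1) (cy G c.1.1 c.2.1 t)) (F A) :=
      ((continuous_dmk G _).comp (continuous_cy G _ _)).continuousOn
    refine h1.congr ?_
    intro t ht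
    exact Phi_eq G c A.1 A.2 t ht.1 ht.2

theorem exists_cell (s : Davis G) : ∃ c : (davis G).Cubes, ∃ t : {t : V → ℝ | ∀ v, |t v| ≤ 1},
    (∀ v ∈ c.1.1, |t.1 v| < 1) ∧ Phi G c t = s := by
  classical
  obtain ⟨w, y, rfl⟩ := exists_dmk G s
  have : Fintype V := Fintype.ofFinite V
  let σ : Finset V := Finset.univ.filter (fun v => y.1 v ≠ 0)
  have hσ : ∀ v, v ∈ σ ↔ y.1 v ≠ 0 := fun v => by simp [σ]
  have hcl : G.IsClique (σ : Set V) := by
    refine y.2.2.subset ?_
    intro v hv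
    exact (hσ v).mp (by exact_mod_cast hv)
  let A : Finset V := σ.filter (fun v => (lab G w).toAdd v = 1)
  have hA : A ⊆ σ := Finset.filter_subset _ _
  have hmA : ∀ v, v ∈ A ↔ v ∈ σ ∧ (lab G w).toAdd v = 1 := fun v => Finset.mem_filter
  have hclA : G.IsClique (A : Set V) := hcl.subset (by exact_mod_cast hA)
  have hz : ∀ v ∈ σ, ((davis G).lab (w * (pw G A)⁻¹)).toAdd v = 0 := by
    intro v hv
    show (lab G (w * (pw G A)⁻¹)).toAdd v = 0
    rw [map_mul, map_inv, toAdd_mul, toAdd_inv, Pi.add_apply, Pi.neg_apply, lab_pw G A hclA]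
    have h2 : ∀ r : ZMod 2, r = 0 ∨ r = 1 := by decide
    rcases h2 ((lab G w).toAdd v) with h0 | h0
    · have : v ∉ A := fun h => by
        have := ((hmA v).mp h).2
        rw [h0] at this
        exact absurd this (by decide)
      rw [if_neg this, h0]
      simp
    · rw [if_pos ((hmA v).mpr ⟨hv, h0⟩), h0]
      exact add_neg_cancel 1
  let c : (davis G).Cubes := ⟨(σ, w * (pw G A)⁻¹), hcl, hz⟩
  have hy : ∀ v, 0 ≤ y.1 v ∧ y.1 v ≤ 1 := y.2.1
  let t0 : V → ℝ := fun v => if v ∈ A then -(1 - y.1 v) else 1 - y.1 v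
  have habs : ∀ v, |t0 v| = 1 - y.1 v := by
    intro v
    have h1 : |(1 : ℝ) - y.1 v| = 1 - y.1 v := abs_of_nonneg (by linarith [(hy v).2])
    show |if v ∈ A then -(1 - y.1 v) else 1 - y.1 v| = 1 - y.1 v
    split_ifs
    · rw [abs_neg, h1]
    · exact h1
  let t : {t : V → ℝ | ∀ v, |t v| ≤ 1} := ⟨t0, fun v => by
    show |t0 v| ≤ 1
    rw [habs]
    linarith [(hy v).1]⟩
  refine ⟨c, t, fun v hv => ?_, ?_⟩
  · show |t0 v| < 1
    rw [habs]
    have h1 := (hσ v).mp hv
    have h2 : 0 < y.1 v := lt_of_le_of_ne (hy v).1 (Ne.symm h1)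
    linarith
  · rw [Phi_eq G c A hA t]
    · show dmk G (w * (pw G A)⁻¹ * pw G A) (cy G σ hcl t) = dmk G w y
      rw [inv_mul_cancel_right]
      congr 1
      apply Subtype.ext
      funext v
      show (if v ∈ σ then 1 - |t0 v| else 0) = y.1 v
      rw [habs]
      split_ifs with h
      · ring
      · by_contra hc
        exact h ((hσ v).mpr (Ne.symm hc))
    · intro v hv
      show t0 v ≤ 0
      show (if v ∈ A then -(1 - y.1 v) else 1 - y.1 v) ≤ 0
      rw [if_pos hv]
      linarith [(hy v).2]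
    · intro v _ hv
      show 0 ≤ (if v ∈ A then -(1 - y.1 v) else 1 - y.1 v)
      rw [if_neg hv]
      linarith [(hy v).2]

theorem cell_unique (c c' : (davis G).Cubes) (t t' : {t : V → ℝ | ∀ v, |t v| ≤ 1})
    (ht : ∀ v ∈ c.1.1, |t.1 v| < 1) (ht' : ∀ v ∈ c'.1.1, |t'.1 v| < 1)
    (h : Phi G c t = Phi G c' t') : c = c' := by
  unfold Phi at h
  rw [dmk_eq_iff] at h
  obtain ⟨h1, h2⟩ := h
  have h3 : ∀ v, (if v ∈ c.1.1 then 1 - |t.1 v| else 0) =
      (if v ∈ c'.1.1 then 1 - |t'.1 v| else 0) := fun v =>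
    congrFun (congrArg Subtype.val h1) v
  have hs : c.1.1 = c'.1.1 := by
    ext v
    have h4 := h3 v
    constructor
    · intro hv
      by_contra hc
      rw [if_pos hv, if_neg hc] at h4
      linarith [ht v hv]
    · intro hv
      by_contra hc
      rw [if_pos hv, if_neg hc] at h4
      linarith [ht' v hv]
  have hsub : {v | (cy G c.1.1 c.2.1 t).1 v = 1} ⊆ (c.1.1 : Set V) := by
    intro v hv
    by_contra hc
    have hv' : (if v ∈ c.1.1 then 1 - |t.1 v| else 0) = (1 : ℝ) := hv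
    rw [if_neg (fun h => hc (by exact_mod_cast h))] at hv'
    exact absurd hv' (by norm_num)
  have h5 := par_mono G hsub h2
  have hA := pw_mem G (ng c.1.1 t) (c.2.1.subset (by exact_mod_cast ng_subset _ _))
  have hA' := pw_mem G (ng c'.1.1 t') (c'.2.1.subset (by exact_mod_cast ng_subset _ _))
  have hA1 : pw G (ng c.1.1 t) ∈ par G (c.1.1 : Set V) :=
    par_mono G (by exact_mod_cast ng_subset _ _) hA
  have hA1' : pw G (ng c'.1.1 t') ∈ par G (c.1.1 : Set V) :=
    par_mono G (by rw [hs]; exact_mod_cast ng_subset _ _) hA'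
  have h6 : c.1.2⁻¹ * c'.1.2 ∈ par G (c.1.1 : Set V) := by
    have e : c.1.2⁻¹ * c'.1.2 = pw G (ng c.1.1 t) * ((c.1.2 * pw G (ng c.1.1 t))⁻¹ *
        (c'.1.2 * pw G (ng c'.1.1 t'))) * (pw G (ng c'.1.1 t'))⁻¹ := by group
    rw [e]
    exact Subgroup.mul_mem _ (Subgroup.mul_mem _ hA1 h5) (Subgroup.inv_mem _ hA1')
  have h7 : c.1.2⁻¹ * c'.1.2 = 1 := by
    apply eq_one_of_par G _ c.2.1 _ h6
    intro v hv
    have h8 : (lab G c.1.2).toAdd v = 0 := c.2.2 v (by exact_mod_cast hv)
    have h9 : (lab G c'.1.2).toAdd v = 0 := c'.2.2 v (by rw [← hs]; exact_mod_cast hv)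
    rw [map_mul, map_inv, toAdd_mul, toAdd_inv, Pi.add_apply, Pi.neg_apply, h8, h9]
    simp
  apply Subtype.ext
  exact Prod.ext hs (inv_mul_eq_one.mp h7)

/-- There are characteristic maps `Φ c : [-1,1]^σ → Σ` of the cubes `c = (σ, x)` (the points of the
cube are the functions `t : V → ℝ` with values in `[-1,1]`, of which only the restriction to `σ`
matters): continuous, the open cubes form a partition of `Σ`, and the restriction of `Φ (σ, x)` to
the face `t v = 1` (resp. `t v = -1`) is the characteristic map of the cube `(σ ∖ v, x)` (resp.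
`(σ ∖ v, x s_v)`). -/
theorem exists_cells : ∃ Φ : (davis G).Cubes → {t : V → ℝ | ∀ v, |t v| ≤ 1} → Davis G,
    (∀ c, Continuous (Φ c)) ∧
    (∀ c t t', (∀ v ∈ c.1.1, t.1 v = t'.1 v) → Φ c t = Φ c t') ∧
    (∀ s : Davis G, ∃! c : (davis G).Cubes, ∃ t, (∀ v ∈ c.1.1, |t.1 v| < 1) ∧ Φ c t = s) ∧
    (∀ c t t', Φ c t = Φ c t' → (∀ v ∈ c.1.1, |t.1 v| < 1) → (∀ v ∈ c.1.1, |t'.1 v| < 1) →
      ∀ v ∈ c.1.1, t.1 v = t'.1 v) ∧
    (∀ (c c' : (davis G).Cubes) (v : V) (t), v ∈ c.1.1 → t.1 v = 1 →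
      c'.1 = (c.1.1.erase v, c.1.2) → Φ c t = Φ c' t) ∧
    (∀ (c c' : (davis G).Cubes) (v : V) (t), v ∈ c.1.1 → t.1 v = -1 →
      c'.1 = (c.1.1.erase v, c.1.2 * gen G v) → Φ c t = Φ c' t) ∧
    (∀ (g : Gam G) (c : (davis G).Cubes) (t), Φ (g • c) t = dact G (g : W G) (Φ c t)) := by
  refine ⟨Phi G, continuous_Phi G, ?_, ?_, ?_, ?_, ?_, ?_⟩
  · intro c t t' h
    have h1 : ng c.1.1 t = ng c.1.1 t' := by
      ext v
      rw [mem_ng, mem_ng]
      constructor
      · rintro ⟨h1, h2⟩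
        exact ⟨h1, by rw [← h v h1]; exact h2⟩
      · rintro ⟨h1, h2⟩
        exact ⟨h1, by rw [h v h1]; exact h2⟩
    have h2 : cy G c.1.1 c.2.1 t = cy G c.1.1 c.2.1 t' := by
      apply Subtype.ext
      funext v
      show (if v ∈ c.1.1 then 1 - |t.1 v| else 0) = (if v ∈ c.1.1 then 1 - |t'.1 v| else 0)
      split_ifs with hv
      · rw [h v hv]
      · rfl
    unfold Phi
    rw [h1, h2]
  · intro s
    obtain ⟨c, t, h1, h2⟩ := exists_cell G s
    refine ⟨c, ⟨t, h1, h2⟩, ?_⟩
    rintro c' ⟨t', h1', h2'⟩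
    exact cell_unique G c' c t' t h1' h1 (h2'.trans h2.symm)
  · intro c t t' h _ _ v hv
    unfold Phi at h
    rw [dmk_eq_iff] at h
    obtain ⟨h1, h2⟩ := h
    have h3 : (if v ∈ c.1.1 then 1 - |t.1 v| else 0) =
        (if v ∈ c.1.1 then 1 - |t'.1 v| else 0) := congrFun (congrArg Subtype.val h1) v
    rw [if_pos hv, if_pos hv] at h3
    have h4 : |t.1 v| = |t'.1 v| := by linarith
    by_cases h0 : t.1 v = 0
    · rw [h0, abs_zero] at h4
      rw [h0, abs_eq_zero.mp h4.symm]
    · have e : (c.1.2 * pw G (ng c.1.1 t))⁻¹ * (c.1.2 * pw G (ng c.1.1 t')) =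
        (pw G (ng c.1.1 t))⁻¹ * pw G (ng c.1.1 t') := by group
      rw [e] at h2
      have h5 : v ∉ {v | (cy G c.1.1 c.2.1 t).1 v = 1} := by
        intro hv'
        have hv'' : (if v ∈ c.1.1 then 1 - |t.1 v| else 0) = (1 : ℝ) := hv'
        rw [if_pos hv] at hv''
        have : |t.1 v| = 0 := by linarith
        exact h0 (abs_eq_zero.mp this)
      have h6 := lab_par G h2 h5
      have hcA : G.IsClique ((ng c.1.1 t : Finset V) : Set V) :=
        c.2.1.subset (by exact_mod_cast ng_subset _ _)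
      have hcA' : G.IsClique ((ng c.1.1 t' : Finset V) : Set V) :=
        c.2.1.subset (by exact_mod_cast ng_subset _ _)
      rw [map_mul, map_inv, toAdd_mul, toAdd_inv, Pi.add_apply, Pi.neg_apply, lab_pw G _ hcA,
        lab_pw G _ hcA'] at h6
      have h7 : v ∈ ng c.1.1 t ↔ v ∈ ng c.1.1 t' := by
        by_cases ha : v ∈ ng c.1.1 t
        · by_cases hb : v ∈ ng c.1.1 t'
          · exact ⟨fun _ => hb, fun _ => ha⟩
          · rw [if_pos ha, if_neg hb] at h6
            have k1 : (-(1 : ZMod 2) + 0) ≠ 0 := by decide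
            exact absurd h6 k1
        · by_cases hb : v ∈ ng c.1.1 t'
          · rw [if_neg ha, if_pos hb] at h6
            have k1 : (-(0 : ZMod 2) + 1) ≠ 0 := by decide
            exact absurd h6 k1
          · exact ⟨fun h => absurd h ha, fun h => absurd h hb⟩
      rw [mem_ng, mem_ng] at h7
      have h8 : t.1 v < 0 ↔ t'.1 v < 0 :=
        ⟨fun h => (h7.mp ⟨hv, h⟩).2, fun h => (h7.mpr ⟨hv, h⟩).2⟩
      rcases lt_or_ge (t.1 v) 0 with h9 | h9
      · have h10 := h8.mp h9
        rw [abs_of_neg h9, abs_of_neg h10] at h4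
        linarith
      · have h10 : ¬ (t'.1 v < 0) := fun h => absurd (h8.mpr h) (not_lt.mpr h9)
        rw [abs_of_nonneg h9, abs_of_nonneg (not_lt.mp h10)] at h4
        exact h4
  · intro c c' v t hv ht hc
    have hc1 : c'.1.1 = c.1.1.erase v := congrArg Prod.fst hc
    have hc2' := congrArg Prod.snd hc
    have hc2 : c'.1.2 = c.1.2 := hc2'
    have h1 : ng c.1.1 t = ng c'.1.1 t := by
      ext u
      rw [mem_ng, mem_ng, hc1, Finset.mem_erase]
      constructor
      · rintro ⟨h1, h2⟩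
        refine ⟨⟨?_, h1⟩, h2⟩
        rintro rfl
        rw [ht] at h2
        linarith
      · rintro ⟨⟨_, h1⟩, h2⟩
        exact ⟨h1, h2⟩
    have h2 : cy G c.1.1 c.2.1 t = cy G c'.1.1 c'.2.1 t := by
      apply Subtype.ext
      funext u
      show (if u ∈ c.1.1 then 1 - |t.1 u| else 0) = (if u ∈ c'.1.1 then 1 - |t.1 u| else 0)
      rw [hc1]
      by_cases huv : u = v
      · subst huv
        rw [if_pos hv, if_neg (Finset.notMem_erase _ _), ht]
        norm_num
      · simp only [Finset.mem_erase, ne_eq, huv, not_false_eq_true, true_and]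
    unfold Phi
    rw [h1, h2]
    exact congrArg (fun z => dmk G (z * pw G (ng c'.1.1 t)) (cy G c'.1.1 c'.2.1 t)) hc2.symm
  · intro c c' v t hv ht hc
    have hc1 : c'.1.1 = c.1.1.erase v := congrArg Prod.fst hc
    have hc2 : c'.1.2 = c.1.2 * gen G v := congrArg Prod.snd hc
    have h1 : ng c.1.1 t = {v} ∪ ng c'.1.1 t := by
      ext u
      rw [Finset.mem_union, Finset.mem_singleton, mem_ng, mem_ng, hc1, Finset.mem_erase]
      constructor
      · rintro ⟨h1, h2⟩
        by_cases huv : u = v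
        · exact Or.inl huv
        · exact Or.inr ⟨⟨huv, h1⟩, h2⟩
      · rintro (rfl | ⟨⟨_, h1⟩, h2⟩)
        · exact ⟨hv, by rw [ht]; norm_num⟩
        · exact ⟨h1, h2⟩
    have h2 : cy G c.1.1 c.2.1 t = cy G c'.1.1 c'.2.1 t := by
      apply Subtype.ext
      funext u
      show (if u ∈ c.1.1 then 1 - |t.1 u| else 0) = (if u ∈ c'.1.1 then 1 - |t.1 u| else 0)
      rw [hc1]
      by_cases huv : u = v
      · subst huv
        rw [if_pos hv, if_neg (Finset.notMem_erase _ _), ht]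
        norm_num
      · simp only [Finset.mem_erase, ne_eq, huv, not_false_eq_true, true_and]
    have h3 : pw G (ng c.1.1 t) = gen G v * pw G (ng c'.1.1 t) := by
      rw [h1, pw_union, pw_single]
      · rw [← h1]
        exact c.2.1.subset (by exact_mod_cast ng_subset _ _)
      · rw [Finset.disjoint_singleton_left, mem_ng, hc1]
        rintro ⟨h, _⟩
        exact (Finset.notMem_erase _ _) h
    unfold Phi
    rw [h2, h3, ← mul_assoc]
    exact congrArg (fun z => dmk G (z * pw G (ng c'.1.1 t)) (cy G c'.1.1 c'.2.1 t)) hc2.symm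
  · intro g c t
    show dmk G ((g : W G) * c.1.2 * pw G (ng c.1.1 t)) (cy G c.1.1 c.2.1 t) =
      dmk G ((g : W G) * (c.1.2 * pw G (ng c.1.1 t))) (cy G c.1.1 c.2.1 t)
    rw [mul_assoc]

end SingerRA
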