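import Mathlib
import Pool.Agent.Lib_MP_394d50_gt.Defs2

/-! Piece CCHART: `Z` is compact and locally homeomorphic to the open cone. -/

namespace SingerRA

variable {V : Type} [Finite V] (G : SimpleGraph V)

theorem compact_ZG : CompactSpace (ZG G) := by
  rw [← isCompact_iff_compactSpace]
  have h1 : ZG G = Set.pi Set.univ (fun _ => Set.Icc (-1 : ℝ) 1) ∩
      {x | G.IsClique {v | |x v| < 1}} := by
    ext y
    simp only [ZG, Set.mem_ofPred_eq, Set.mem_inter_iff, Set.mem_pi, Set.mem_univ,
      true_implies, Set.mem_Icc, abs_le]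
  rw [h1]
  apply IsCompact.inter_right (isCompact_univ_pi (fun _ => isCompact_Icc))
  have h2 : {y : V → ℝ | G.IsClique {v | |y v| < 1}} =
      ⋂ (u : V), ⋂ (v : V), {y : V → ℝ | u ≠ v → ¬ G.Adj u v → (1 ≤ |y u| ∨ 1 ≤ |y v|)} := by
    ext y
    simp only [Set.mem_ofPred_eq, Set.mem_iInter]
    constructor
    · intro h u v huv hadj
      by_contra hc
      rw [not_or] at hc
      exact hadj (h (not_le.mp hc.1) (not_le.mp hc.2) huv)
    · intro h u hu v hv huv
      by_contra hc
      rcases h u v huv hc with h | h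
      · exact absurd hu (not_lt.mpr h)
      · exact absurd hv (not_lt.mpr h)
  rw [h2]
  refine isClosed_iInter fun u => isClosed_iInter fun v => ?_
  by_cases huv : u ≠ v ∧ ¬ G.Adj u v
  · have : {y : V → ℝ | u ≠ v → ¬ G.Adj u v → (1 ≤ |y u| ∨ 1 ≤ |y v|)} =
        {y | 1 ≤ |y u|} ∪ {y | 1 ≤ |y v|} := by
      ext y
      simp only [Set.mem_ofPred_eq, Set.mem_union]
      exact ⟨fun h => h huv.1 huv.2, fun h _ _ => h⟩
    rw [this]
    exact (isClosed_le continuous_const (continuous_apply u).abs).union
      (isClosed_le continuous_const (continuous_apply v).abs)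
  · have : {y : V → ℝ | u ≠ v → ¬ G.Adj u v → (1 ≤ |y u| ∨ 1 ≤ |y v|)} = Set.univ := by
      ext y
      simp only [Set.mem_ofPred_eq, Set.mem_univ, iff_true]
      exact fun h1 h2 => absurd ⟨h1, h2⟩ huv
    rw [this]
    exact isClosed_univ

/-- The involution `t ↦ (1 - t) / (1 + t)`. -/
theorem inv_inv_chart {t : ℝ} (ht : -1 < t) :
    (1 - (1 - t) / (1 + t)) / (1 + (1 - t) / (1 + t)) = t := by
  have h : (1 : ℝ) + t ≠ 0 := by linarith
  field_simp
  ring

theorem chart_ZG (x : ZG G) : ∃ U : Set (ZG G), IsOpen U ∧ x ∈ U ∧ Nonempty (U ≃ₜ Cone G) := by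
  classical
  -- the signs
  set ε : V → ℝ := fun v => if 0 ≤ x.1 v then 1 else -1 with hε
  have hε2 : ∀ v, ε v * ε v = 1 := by
    intro v; rw [hε]; dsimp only; split_ifs <;> norm_num
  have hεabs : ∀ v, |ε v| = 1 := by
    intro v; rw [hε]; dsimp only; split_ifs <;> norm_num
  set U : Set (ZG G) := {z | ∀ v, -1 < ε v * z.1 v} with hU
  have hUopen : IsOpen U := by
    have : U = ⋂ v, {z : ZG G | -1 < ε v * z.1 v} := by
      ext z; simp [hU]
    rw [this]
    refine isOpen_iInter_of_finite fun v => ?_
    exact isOpen_lt continuous_const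
      (continuous_const.mul ((continuous_apply v).comp continuous_subtype_val))
  refine ⟨U, hUopen, ?_, ⟨?_⟩⟩
  · intro v
    rw [hε]
    dsimp only
    split_ifs with h
    · linarith
    · push Not at h
      linarith
  · -- bounds
    have hb : ∀ z : U, ∀ v, ε v * z.1.1 v ≤ 1 := by
      intro z v
      have h1 := z.1.2.1 v
      have h2 : |ε v * z.1.1 v| ≤ 1 := by rw [abs_mul, hεabs, one_mul]; exact h1
      exact (abs_le.mp h2).2
    have hto : ∀ z : U, (fun v => (1 - ε v * z.1.1 v) / (1 + ε v * z.1.1 v)) ∈ Cone G := by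
      intro z
      refine ⟨fun v => ?_, ?_⟩
      · have h1 := hb z v
        have h2 : -1 < ε v * z.1.1 v := z.2 v
        exact div_nonneg (by linarith) (by linarith)
      · refine Set.Pairwise.mono ?_ z.1.2.2
        intro v hv
        have hv' : (1 - ε v * z.1.1 v) / (1 + ε v * z.1.1 v) ≠ 0 := hv
        have h1 := hb z v
        have h2 : -1 < ε v * z.1.1 v := z.2 v
        have h3 : ε v * z.1.1 v ≠ 1 := by
          intro h
          rw [h] at hv'
          simp at hv'
        have h4 : |ε v * z.1.1 v| < 1 := abs_lt.mpr ⟨h2, lt_of_le_of_ne h1 h3⟩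
        rw [abs_mul, hεabs, one_mul] at h4
        exact h4
    have hfr : ∀ y : Cone G, ∀ v, -1 < (1 - y.1 v) / (1 + y.1 v) ∧
        (1 - y.1 v) / (1 + y.1 v) ≤ 1 := by
      intro y v
      have h0 := y.2.1 v
      constructor
      · rw [lt_div_iff₀ (by linarith)]
        linarith
      · rw [div_le_one (by linarith)]
        linarith
    have hfrom : ∀ y : Cone G, (fun v => ε v * ((1 - y.1 v) / (1 + y.1 v))) ∈ ZG G := by
      intro y
      refine ⟨fun v => ?_, ?_⟩
      · rw [abs_mul, hεabs, one_mul]
        exact abs_le.mpr ⟨(hfr y v).1.le, (hfr y v).2⟩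
      · refine Set.Pairwise.mono ?_ y.2.2
        intro v hv
        have hv' : |ε v * ((1 - y.1 v) / (1 + y.1 v))| < 1 := hv
        rw [abs_mul, hεabs, one_mul] at hv'
        show y.1 v ≠ 0
        intro h
        rw [h] at hv'
        norm_num at hv'
    have hfromU : ∀ y : Cone G, (⟨_, hfrom y⟩ : ZG G) ∈ U := by
      intro y v
      show -1 < ε v * (ε v * ((1 - y.1 v) / (1 + y.1 v)))
      rw [← mul_assoc, hε2, one_mul]
      exact (hfr y v).1
    refine
      { toFun := fun z => ⟨_, hto z⟩
        invFun := fun y => ⟨⟨_, hfrom y⟩, hfromU y⟩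
        left_inv := ?_
        right_inv := ?_
        continuous_toFun := ?_
        continuous_invFun := ?_ }
    · intro z
      apply Subtype.ext
      apply Subtype.ext
      funext v
      show ε v * ((1 - (1 - ε v * z.1.1 v) / (1 + ε v * z.1.1 v)) /
        (1 + (1 - ε v * z.1.1 v) / (1 + ε v * z.1.1 v))) = z.1.1 v
      rw [inv_inv_chart (z.2 v), ← mul_assoc, hε2, one_mul]
    · intro y
      apply Subtype.ext
      funext v
      show (1 - ε v * (ε v * ((1 - y.1 v) / (1 + y.1 v)))) /
        (1 + ε v * (ε v * ((1 - y.1 v) / (1 + y.1 v)))) = y.1 v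
      rw [← mul_assoc, hε2, one_mul]
      exact inv_inv_chart (by have := y.2.1 v; linarith)
    · refine Continuous.subtype_mk (continuous_pi fun v => ?_) _
      have hc : Continuous (fun z : U => z.1.1 v) :=
        (continuous_apply v).comp (continuous_subtype_val.comp continuous_subtype_val)
      refine Continuous.div (continuous_const.sub (continuous_const.mul hc))
        (continuous_const.add (continuous_const.mul hc)) (fun z => ?_)
      have h2 : -1 < ε v * z.1.1 v := z.2 v
      linarith
    · refine Continuous.subtype_mk (Continuous.subtype_mk (continuous_pi fun v => ?_) _) _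
      have hc : Continuous (fun y : Cone G => y.1 v) :=
        (continuous_apply v).comp continuous_subtype_val
      refine continuous_const.mul (Continuous.div (continuous_const.sub hc)
        (continuous_const.add hc) (fun y => ?_))
      have h2 := y.2.1 v
      linarith

end SingerRA
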