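import Mathlib
import Pool.Agent.Lib_MP_394d50_gt.Defs2

/-! Piece CCONE: the open cone of a complex of the class `CrossSub n` is homeomorphic to `ℝⁿ`. -/

namespace SingerRA

theorem CrossSub.finite {n : ℕ} {V : Type} {G : SimpleGraph V} (h : CrossSub n G) :
    Finite V := by
  induction h with
  | empty hV G => exact Finite.of_subsingleton
  | susp h ih => exact inferInstance
  | subdiv h hst ih => exact inferInstanceAs (Finite (Option _))
  | iso h e ih => exact Finite.of_equiv _ e.toEquiv

/-! ### The suspension -/

theorem susp_fwd_mem {V : Type} {G : SimpleGraph V} (y : Cone (suspG G)) :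
    (fun v => y.1 (.inl v)) ∈ Cone G := by
  refine ⟨fun v => y.2.1 _, ?_⟩
  intro u hu v hv huv
  have h := y.2.2 (show (Sum.inl u : V ⊕ Bool) ∈ {v | y.1 v ≠ 0} from hu)
    (show (Sum.inl v : V ⊕ Bool) ∈ {v | y.1 v ≠ 0} from hv) (by simpa using huv)
  exact h

/-- The inverse map of the suspension. -/
def suspInv {V : Type} (z : V → ℝ) (r : ℝ) : V ⊕ Bool → ℝ := fun x => match x with
  | .inl v => z v
  | .inr true => max r 0
  | .inr false => max (-r) 0

theorem suspInv_mem {V : Type} {G : SimpleGraph V} (z : Cone G) (r : ℝ) :
    suspInv z.1 r ∈ Cone (suspG G) := by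
  constructor
  · rintro (v | (_ | _))
    · exact z.2.1 v
    · exact le_max_right _ _
    · exact le_max_right _ _
  · rintro (u | (_ | _)) hu (v | (_ | _)) hv huv
    · exact z.2.2 hu hv (by simpa using huv)
    · trivial
    · trivial
    · trivial
    · exact absurd rfl huv
    · exfalso
      have h1 : max (-r) 0 ≠ 0 := hu
      have h2 : max r 0 ≠ 0 := hv
      rcases le_total r 0 with h | h
      · exact h2 (max_eq_right h)
      · exact h1 (max_eq_right (by linarith))
    · trivial
    · exfalso
      have h1 : max (-r) 0 ≠ 0 := hv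
      have h2 : max r 0 ≠ 0 := hu
      rcases le_total r 0 with h | h
      · exact h2 (max_eq_right h)
      · exact h1 (max_eq_right (by linarith))
    · exact absurd rfl huv

theorem susp_not_both {V : Type} {G : SimpleGraph V} (y : Cone (suspG G)) :
    y.1 (.inr true) = 0 ∨ y.1 (.inr false) = 0 := by
  by_contra h
  push Not at h
  exact y.2.2 (show (Sum.inr true : V ⊕ Bool) ∈ {v | y.1 v ≠ 0} from h.1)
    (show (Sum.inr false : V ⊕ Bool) ∈ {v | y.1 v ≠ 0} from h.2) (by simp)

/-- The cone of the suspension. -/
noncomputable def suspHomeo {V : Type} (G : SimpleGraph V) :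
    Cone (suspG G) ≃ₜ Cone G × ℝ where
  toFun y := (⟨_, susp_fwd_mem y⟩, y.1 (.inr true) - y.1 (.inr false))
  invFun p := ⟨_, suspInv_mem p.1 p.2⟩
  left_inv y := by
    apply Subtype.ext
    have h1 := y.2.1 (.inr true)
    have h2 := y.2.1 (.inr false)
    funext x
    rcases x with (v | (_ | _))
    · rfl
    · show max (-(y.1 (.inr true) - y.1 (.inr false))) 0 = y.1 (.inr false)
      rcases susp_not_both y with h | h
      · rw [h, zero_sub, neg_neg, max_eq_left h2]
      · rw [h, sub_zero, max_eq_right (by linarith)]
    · show max (y.1 (.inr true) - y.1 (.inr false)) 0 = y.1 (.inr true)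
      rcases susp_not_both y with h | h
      · rw [h, zero_sub, max_eq_right (by linarith)]
      · rw [h, sub_zero, max_eq_left h1]
  right_inv p := by
    refine Prod.ext ?_ ?_
    · rfl
    · show max p.2 0 - max (-p.2) 0 = p.2
      rcases le_total p.2 0 with h | h
      · rw [max_eq_right h, max_eq_left (by linarith)]; ring
      · rw [max_eq_left h, max_eq_right (by linarith)]; ring
  continuous_toFun := by
    refine Continuous.prodMk ?_ ?_
    · apply Continuous.subtype_mk
      exact continuous_pi fun v => (continuous_apply _).comp continuous_subtype_val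
    · exact ((continuous_apply _).comp continuous_subtype_val).sub
        ((continuous_apply _).comp continuous_subtype_val)
  continuous_invFun := by
    apply Continuous.subtype_mk
    apply continuous_pi
    rintro (v | (_ | _))
    · exact (continuous_apply _).comp (continuous_subtype_val.comp continuous_fst)
    · exact (continuous_snd.neg).max continuous_const
    · exact continuous_snd.max continuous_const

/-! ### The edge subdivision -/

open scoped Classical in
/-- The map from the cone of the subdivision. -/
noncomputable def subFwd {V : Type} (s t : V) (y : Option V → ℝ) : V → ℝ :=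
  fun v => y (some v) + if v = s ∨ v = t then y none else 0

open scoped Classical in
/-- The map to the cone of the subdivision. -/
noncomputable def subInv {V : Type} (s t : V) (z : V → ℝ) : Option V → ℝ := fun x => match x with
  | none => min (z s) (z t)
  | some v => z v - if v = s ∨ v = t then min (z s) (z t) else 0

theorem subFwd_mem {V : Type} {G : SimpleGraph V} {s t : V} (hst : G.Adj s t)
    (y : Cone (subdivG G s t)) : subFwd s t y.1 ∈ Cone G := by
  classical
  have h0 : ∀ x, 0 ≤ y.1 x := y.2.1
  have hcl := y.2.2
  -- a nonzero coordinate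
  have key : ∀ v, subFwd s t y.1 v ≠ 0 → y.1 (some v) ≠ 0 ∨ ((v = s ∨ v = t) ∧ y.1 none ≠ 0) := by
    intro v hv
    by_contra h
    push Not at h
    apply hv
    unfold subFwd
    rw [h.1]
    split_ifs with h1
    · rw [h.2 h1, add_zero]
    · rw [add_zero]
  have kn : ∀ u, y.1 (some u) ≠ 0 → y.1 none ≠ 0 → u = s ∨ u = t ∨ (G.Adj s u ∧ G.Adj t u) := by
    intro u h1 h2
    exact hcl (show (some u : Option V) ∈ {v | y.1 v ≠ 0} from h1)
      (show (none : Option V) ∈ {v | y.1 v ≠ 0} from h2) (by simp)
  have ks : ∀ u v, y.1 (some u) ≠ 0 → y.1 (some v) ≠ 0 → u ≠ v → G.Adj u v := by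
    intro u v h1 h2 h3
    exact (hcl (show (some u : Option V) ∈ {v | y.1 v ≠ 0} from h1)
      (show (some v : Option V) ∈ {v | y.1 v ≠ 0} from h2) (by simpa using h3)).1
  have kk : ∀ u v, y.1 (some u) ≠ 0 → (v = s ∨ v = t) → y.1 none ≠ 0 → u ≠ v → G.Adj u v := by
    intro u v h1 h2 h3 h4
    rcases kn u h1 h3 with h | h | h
    · rcases h2 with h2 | h2
      · exact absurd (h.trans h2.symm) h4
      · rw [h, h2]; exact hst
    · rcases h2 with h2 | h2
      · rw [h, h2]; exact hst.symm
      · exact absurd (h.trans h2.symm) h4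
    · rcases h2 with h2 | h2
      · rw [h2]; exact h.1.symm
      · rw [h2]; exact h.2.symm
  constructor
  · intro v
    unfold subFwd
    split_ifs
    · exact add_nonneg (h0 _) (h0 _)
    · rw [add_zero]; exact h0 _
  · intro u hu v hv huv
    rcases key u hu with h1 | ⟨h1, h1'⟩ <;> rcases key v hv with h2 | ⟨h2, h2'⟩
    · exact ks u v h1 h2 huv
    · exact kk u v h1 h2 h2' huv
    · exact (kk v u h2 h1 h1' huv.symm).symm
    · rcases h1 with h1 | h1 <;> rcases h2 with h2 | h2
      · exact absurd (h1.trans h2.symm) huv
      · rw [h1, h2]; exact hst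
      · rw [h1, h2]; exact hst.symm
      · exact absurd (h1.trans h2.symm) huv

theorem subInv_mem {V : Type} {G : SimpleGraph V} {s t : V} (_hst : G.Adj s t)
    (z : Cone G) : subInv s t z.1 ∈ Cone (subdivG G s t) := by
  classical
  have h0 : ∀ x, 0 ≤ z.1 x := z.2.1
  have hcl := z.2.2
  have hm : 0 ≤ min (z.1 s) (z.1 t) := le_min (h0 _) (h0 _)
  have key : ∀ v, subInv s t z.1 (some v) ≠ 0 → z.1 v ≠ 0 := by
    intro v hv hz
    apply hv
    show z.1 v - (if v = s ∨ v = t then min (z.1 s) (z.1 t) else 0) = 0
    split_ifs with h1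
    · have : min (z.1 s) (z.1 t) ≤ 0 := by
        rcases h1 with h1 | h1
        · rw [← hz, h1]; exact min_le_left _ _
        · rw [← hz, h1]; exact min_le_right _ _
      rw [hz]; linarith
    · rw [hz]; ring
  have kn : min (z.1 s) (z.1 t) ≠ 0 → z.1 s ≠ 0 ∧ z.1 t ≠ 0 := by
    intro h
    constructor
    · intro h'
      apply h
      rw [h']
      exact min_eq_left (h0 _)
    · intro h'
      apply h
      rw [h']
      exact min_eq_right (h0 _)
  have knn : ∀ u, subInv s t z.1 (some u) ≠ 0 → subInv s t z.1 none ≠ 0 →
      u = s ∨ u = t ∨ (G.Adj s u ∧ G.Adj t u) := by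
    intro u h1 h2
    have h3 := key u h1
    have h4 := kn h2
    by_cases hus : u = s
    · exact Or.inl hus
    by_cases hut : u = t
    · exact Or.inr (Or.inl hut)
    refine Or.inr (Or.inr ⟨?_, ?_⟩)
    · exact hcl (show s ∈ {v | z.1 v ≠ 0} from h4.1) (show u ∈ {v | z.1 v ≠ 0} from h3)
        (fun h => hus h.symm)
    · exact hcl (show t ∈ {v | z.1 v ≠ 0} from h4.2) (show u ∈ {v | z.1 v ≠ 0} from h3)
        (fun h => hut h.symm)
  have kst : ¬ (subInv s t z.1 (some s) ≠ 0 ∧ subInv s t z.1 (some t) ≠ 0) := by
    rintro ⟨h1, h2⟩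
    have e1 : subInv s t z.1 (some s) = z.1 s - min (z.1 s) (z.1 t) := by
      show z.1 s - (if s = s ∨ s = t then min (z.1 s) (z.1 t) else 0) = _
      rw [if_pos (Or.inl rfl)]
    have e2 : subInv s t z.1 (some t) = z.1 t - min (z.1 s) (z.1 t) := by
      show z.1 t - (if t = s ∨ t = t then min (z.1 s) (z.1 t) else 0) = _
      rw [if_pos (Or.inr rfl)]
    rcases le_total (z.1 s) (z.1 t) with h | h
    · apply h1; rw [e1, min_eq_left h, sub_self]
    · apply h2; rw [e2, min_eq_right h, sub_self]
  constructor
  · rintro (_ | v)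
    · exact hm
    · show 0 ≤ z.1 v - (if v = s ∨ v = t then min (z.1 s) (z.1 t) else 0)
      split_ifs with h1
      · rcases h1 with h1 | h1
        · rw [h1]; linarith [min_le_left (z.1 s) (z.1 t)]
        · rw [h1]; linarith [min_le_right (z.1 s) (z.1 t)]
      · rw [sub_zero]; exact h0 _
  · rintro (_ | u) hu (_ | v) hv huv
    · exact absurd rfl huv
    · exact knn v hv hu
    · exact knn u hu hv
    · refine ⟨hcl (key u hu) (key v hv) (fun h => huv (by rw [h])), ?_, ?_⟩
      · rintro ⟨h1, h2⟩
        rw [h1] at hu
        rw [h2] at hv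
        exact kst ⟨hu, hv⟩
      · rintro ⟨h1, h2⟩
        rw [h1] at hu
        rw [h2] at hv
        exact kst ⟨hv, hu⟩

theorem sub_not_both {V : Type} {G : SimpleGraph V} {s t : V} (hst : G.Adj s t)
    (y : Cone (subdivG G s t)) : y.1 (some s) = 0 ∨ y.1 (some t) = 0 := by
  by_contra h
  push Not at h
  have h1 := y.2.2 (show (some s : Option V) ∈ {v | y.1 v ≠ 0} from h.1)
    (show (some t : Option V) ∈ {v | y.1 v ≠ 0} from h.2)
    (by simpa using G.ne_of_adj hst)
  exact h1.2.1 ⟨rfl, rfl⟩

/-- The cone of the subdivision. -/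
noncomputable def subHomeo {V : Type} (G : SimpleGraph V) {s t : V} (hst : G.Adj s t) :
    Cone (subdivG G s t) ≃ₜ Cone G where
  toFun y := ⟨_, subFwd_mem hst y⟩
  invFun z := ⟨_, subInv_mem hst z⟩
  left_inv y := by
    classical
    apply Subtype.ext
    have hs : subFwd s t y.1 s = y.1 (some s) + y.1 none := by
      unfold subFwd; rw [if_pos (Or.inl rfl)]
    have ht : subFwd s t y.1 t = y.1 (some t) + y.1 none := by
      unfold subFwd; rw [if_pos (Or.inr rfl)]
    have hm : min (subFwd s t y.1 s) (subFwd s t y.1 t) = y.1 none := by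
      rw [hs, ht]
      rcases sub_not_both hst y with h | h
      · rw [h, zero_add, min_eq_left]
        linarith [y.2.1 (some t)]
      · rw [h, zero_add, min_eq_right]
        linarith [y.2.1 (some s)]
    funext x
    rcases x with (_ | v)
    · exact hm
    · show subFwd s t y.1 v - (if v = s ∨ v = t then min (subFwd s t y.1 s) (subFwd s t y.1 t)
        else 0) = y.1 (some v)
      rw [hm]
      unfold subFwd
      ring
  right_inv z := by
    classical
    apply Subtype.ext
    funext v
    show (z.1 v - (if v = s ∨ v = t then min (z.1 s) (z.1 t) else 0)) +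
      (if v = s ∨ v = t then min (z.1 s) (z.1 t) else 0) = z.1 v
    ring
  continuous_toFun := by
    classical
    apply Continuous.subtype_mk
    apply continuous_pi
    intro v
    by_cases h : v = s ∨ v = t
    · have : (fun y : Cone (subdivG G s t) => subFwd s t y.1 v) =
          fun y => y.1 (some v) + y.1 none := by
        funext y; unfold subFwd; rw [if_pos h]
      rw [this]
      exact ((continuous_apply _).comp continuous_subtype_val).add
        ((continuous_apply _).comp continuous_subtype_val)
    · have : (fun y : Cone (subdivG G s t) => subFwd s t y.1 v) =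
          fun y => y.1 (some v) := by
        funext y; unfold subFwd; rw [if_neg h, add_zero]
      rw [this]
      exact (continuous_apply _).comp continuous_subtype_val
  continuous_invFun := by
    classical
    apply Continuous.subtype_mk
    apply continuous_pi
    have hmin : Continuous (fun z : Cone G => min (z.1 s) (z.1 t)) :=
      ((continuous_apply _).comp continuous_subtype_val).min
        ((continuous_apply _).comp continuous_subtype_val)
    rintro (_ | v)
    · exact hmin
    · by_cases h : v = s ∨ v = t
      · have : (fun z : Cone G => subInv s t z.1 (some v)) =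
            fun z => z.1 v - min (z.1 s) (z.1 t) := by
          funext z
          show z.1 v - (if v = s ∨ v = t then min (z.1 s) (z.1 t) else 0) = _
          rw [if_pos h]
        rw [this]
        exact ((continuous_apply _).comp continuous_subtype_val).sub hmin
      · have : (fun z : Cone G => subInv s t z.1 (some v)) =
            fun z => z.1 v := by
          funext z
          show z.1 v - (if v = s ∨ v = t then min (z.1 s) (z.1 t) else 0) = _
          rw [if_neg h, sub_zero]
        rw [this]
        exact (continuous_apply _).comp continuous_subtype_val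

/-! ### Isomorphisms -/

theorem iso_mem {V V' : Type} {G : SimpleGraph V} {G' : SimpleGraph V'} (e : G ≃g G')
    (y : Cone G) : (fun v => y.1 (e.symm v)) ∈ Cone G' := by
  refine ⟨fun v => y.2.1 _, ?_⟩
  intro u hu v hv huv
  have h := y.2.2 (show e.symm u ∈ {v | y.1 v ≠ 0} from hu)
    (show e.symm v ∈ {v | y.1 v ≠ 0} from hv) (fun h => huv (e.symm.injective h))
  exact e.symm.map_adj_iff.mp h

/-- The cones of isomorphic complexes. -/
noncomputable def isoHomeo {V V' : Type} {G : SimpleGraph V} {G' : SimpleGraph V'} (e : G ≃g G') :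
    Cone G ≃ₜ Cone G' where
  toFun y := ⟨_, iso_mem e y⟩
  invFun z := ⟨_, iso_mem e.symm z⟩
  left_inv y := by
    apply Subtype.ext
    funext v
    show y.1 (e.symm (e v)) = y.1 v
    rw [e.symm_apply_apply]
  right_inv z := by
    apply Subtype.ext
    funext v
    show z.1 (e (e.symm v)) = z.1 v
    rw [e.apply_symm_apply]
  continuous_toFun := by
    apply Continuous.subtype_mk
    exact continuous_pi fun v => (continuous_apply _).comp continuous_subtype_val
  continuous_invFun := by
    apply Continuous.subtype_mk
    exact continuous_pi fun v => (continuous_apply _).comp continuous_subtype_val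

theorem cone_homeo {n : ℕ} {V : Type} {G : SimpleGraph V} (h : CrossSub n G) :
    Nonempty (Cone G ≃ₜ (Fin n → ℝ)) := by
  induction h with
  | empty hV G =>
    have : Unique (Cone G) := by
      refine ⟨⟨⟨fun _ => 0, fun _ => le_rfl, fun u => hV.elim u⟩⟩, ?_⟩
      intro y
      apply Subtype.ext
      funext v
      exact hV.elim v
    exact ⟨Homeomorph.homeomorphOfUnique _ _⟩
  | susp h ih =>
    obtain ⟨e⟩ := ih
    exact ⟨(suspHomeo _).trans ((e.prodCongr (Homeomorph.funUnique (Fin 1) ℝ).symm).trans
      (Fin.appendHomeomorph _ 1))⟩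
  | subdiv h hst ih =>
    obtain ⟨e⟩ := ih
    exact ⟨(subHomeo _ hst).trans e⟩
  | iso h e ih =>
    obtain ⟨e'⟩ := ih
    exact ⟨(isoHomeo e).symm.trans e'⟩

end SingerRA
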