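import Mathlib

/-! Piece CEXH: a space exhausted by a sequence of subspaces, each of which is a strong
deformation retract of the next one, the first being contractible, is contractible. -/

namespace SingerRA

open unitInterval

/-- The concatenated deformation of `P n`, parametrised by `s : ℝ` running downwards. -/
noncomputable def exhG {X : Type} [TopologicalSpace X] (P : ℕ → Set X)
    (H : ∀ n, C(P (n + 1) × I, P (n + 1))) (h1 : ∀ n x, (H n (x, 1)).1 ∈ P n) :
    ∀ n, P n → ℝ → X
  | 0, x, _ => x.1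
  | n + 1, x, s => if s ≤ (n : ℝ) then exhG P H h1 n ⟨(H n (x, 1)).1, h1 n x⟩ s
      else (H n (x, Set.projIcc 0 1 zero_le_one ((n : ℝ) + 1 - s))).1

section

variable {X : Type} [TopologicalSpace X] (P : ℕ → Set X)
  (H : ∀ n, C(P (n + 1) × I, P (n + 1))) (h1 : ∀ n x, (H n (x, 1)).1 ∈ P n)

include h1 in
theorem exhG_large (h0 : ∀ n x, H n (x, 0) = x) (n : ℕ) (x : P n) (s : ℝ) (hs : (n : ℝ) ≤ s) :
    exhG P H h1 n x s = x.1 := by
  cases n with
  | zero => rfl
  | succ n =>
    have hs' : ¬ s ≤ (n : ℝ) := by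
      push_cast at hs
      linarith
    show (if s ≤ (n : ℝ) then exhG P H h1 n ⟨(H n (x, 1)).1, h1 n x⟩ s
      else (H n (x, Set.projIcc 0 1 zero_le_one ((n : ℝ) + 1 - s))).1) = x.1
    rw [if_neg hs']
    have : Set.projIcc (0 : ℝ) 1 zero_le_one ((n : ℝ) + 1 - s) = 0 := by
      apply Set.projIcc_of_le_left
      push_cast at hs
      linarith
    rw [this, h0]

theorem exhG_succ (h0 : ∀ n x, H n (x, 0) = x) (h2 : ∀ n x t, x.1 ∈ P n → H n (x, t) = x)
    (n : ℕ) (x : P n) (hx : x.1 ∈ P (n + 1)) (s : ℝ) :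
    exhG P H h1 (n + 1) ⟨x.1, hx⟩ s = exhG P H h1 n x s := by
  show (if s ≤ (n : ℝ) then exhG P H h1 n ⟨(H n (⟨x.1, hx⟩, 1)).1, h1 n _⟩ s
      else (H n (⟨x.1, hx⟩, Set.projIcc 0 1 zero_le_one ((n : ℝ) + 1 - s))).1) = _
  split_ifs with h
  · congr 1
    apply Subtype.ext
    show (H n (⟨x.1, hx⟩, 1)).1 = x.1
    rw [h2 n ⟨x.1, hx⟩ 1 x.2]
  · rw [h2 n ⟨x.1, hx⟩ _ x.2, exhG_large P H h1 h0 n x s (le_of_lt (not_le.mp h))]

theorem exhG_continuous (h0 : ∀ n x, H n (x, 0) = x) (n : ℕ) :
    Continuous (fun p : P n × ℝ => exhG P H h1 n p.1 p.2) := by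
  induction n with
  | zero => exact continuous_subtype_val.comp continuous_fst
  | succ n ih =>
    show Continuous (fun p : P (n + 1) × ℝ =>
      if p.2 ≤ (n : ℝ) then exhG P H h1 n ⟨(H n (p.1, 1)).1, h1 n p.1⟩ p.2
      else (H n (p.1, Set.projIcc 0 1 zero_le_one ((n : ℝ) + 1 - p.2))).1)
    apply Continuous.if_le _ _ continuous_snd continuous_const
    · intro p hp
      have : Set.projIcc (0 : ℝ) 1 zero_le_one ((n : ℝ) + 1 - p.2) = 1 := by
        apply Set.projIcc_of_right_le
        rw [hp]; linarith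
      rw [this, exhG_large P H h1 h0 n _ p.2 (le_of_eq hp.symm)]
    · have h3 : Continuous (fun p : P (n + 1) × ℝ =>
          ((⟨(H n (p.1, 1)).1, h1 n p.1⟩, p.2) : P n × ℝ)) := by
        refine Continuous.prodMk (Continuous.subtype_mk ?_ _) continuous_snd
        exact continuous_subtype_val.comp ((H n).continuous.comp
          (Continuous.prodMk continuous_fst continuous_const))
      exact ih.comp h3
    · have h4 : Continuous (fun p : P (n + 1) × ℝ =>
          (Set.projIcc (0 : ℝ) 1 zero_le_one ((n : ℝ) + 1 - p.2))) :=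
        continuous_projIcc.comp (continuous_const.sub continuous_snd)
      exact continuous_subtype_val.comp ((H n).continuous.comp
        (Continuous.prodMk continuous_fst h4))

theorem exhG_zero (n : ℕ) (x : P n) : exhG P H h1 n x 0 ∈ P 0 := by
  induction n with
  | zero => exact x.2
  | succ n ih =>
    show (if (0 : ℝ) ≤ (n : ℝ) then exhG P H h1 n ⟨(H n (x, 1)).1, h1 n x⟩ 0
      else (H n (x, Set.projIcc 0 1 zero_le_one ((n : ℝ) + 1 - 0))).1) ∈ P 0
    rw [if_pos (Nat.cast_nonneg n)]
    exact ih _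

theorem exhG_le (hmono : ∀ n, P n ⊆ P (n + 1)) (h0 : ∀ n x, H n (x, 0) = x)
    (h2 : ∀ n x t, x.1 ∈ P n → H n (x, t) = x)
    (m n : ℕ) (hmn : m ≤ n) (x : X) (hm : x ∈ P m) (hn : x ∈ P n) (s : ℝ) :
    exhG P H h1 n ⟨x, hn⟩ s = exhG P H h1 m ⟨x, hm⟩ s := by
  induction n, hmn using Nat.le_induction with
  | base => rfl
  | succ n hmn ih =>
    have hmono' : Monotone P := monotone_nat_of_le_succ hmono
    have hn' : x ∈ P n := hmono' hmn hm
    rw [← ih hn']
    exact exhG_succ P H h1 h0 h2 n ⟨x, hn'⟩ hn s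

end

theorem contractible_of_exhaustion {X : Type} [TopologicalSpace X] (P : ℕ → Set X)
    (hmono : ∀ n, P n ⊆ P (n + 1)) (hcov : ∀ x, ∃ n, x ∈ interior (P n))
    (h0 : ContractibleSpace (P 0))
    (hr : ∀ n, ∃ H : C(P (n + 1) × I, P (n + 1)), (∀ x, H (x, 0) = x) ∧
      (∀ x, (H (x, 1)).1 ∈ P n) ∧ (∀ x t, x.1 ∈ P n → H (x, t) = x)) :
    ContractibleSpace X := by
  classical
  choose H hH0 hH1 hH2 using hr
  choose N hN using hcov
  have hN' : ∀ x, x ∈ P (N x) := fun x => interior_subset (hN x)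
  set F : X → ℝ → X := fun x s => exhG P H hH1 (N x) ⟨x, hN' x⟩ s with hF
  have hFn : ∀ n x (hx : x ∈ P n) s, F x s = exhG P H hH1 n ⟨x, hx⟩ s := by
    intro n x hx s
    rcases le_total n (N x) with h | h
    · exact exhG_le P H hH1 hmono hH0 hH2 n (N x) h x hx (hN' x) s
    · exact (exhG_le P H hH1 hmono hH0 hH2 (N x) n h x (hN' x) hx s).symm
  -- continuity of `F`
  have hFc : Continuous (fun p : X × ℝ => F p.1 p.2) := by
    rw [continuous_iff_continuousAt]
    rintro ⟨x, s⟩
    have h1 := exhG_continuous P H hH1 hH0 (N x)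
    have h2 : ContinuousOn (fun p : X × ℝ => F p.1 p.2) (interior (P (N x)) ×ˢ Set.univ) := by
      rw [continuousOn_iff_continuous_domRestrict]
      have h3 : Continuous (fun p : (interior (P (N x)) ×ˢ Set.univ : Set (X × ℝ)) =>
          ((⟨p.1.1, interior_subset p.2.1⟩, p.1.2) : P (N x) × ℝ)) := by
        refine Continuous.prodMk (Continuous.subtype_mk ?_ _) ?_
        · exact continuous_fst.comp continuous_subtype_val
        · exact continuous_snd.comp continuous_subtype_val
      have h4 := h1.comp h3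
      refine h4.congr ?_
      intro p
      exact (hFn (N x) p.1.1 (interior_subset p.2.1) p.1.2).symm
    exact h2.continuousAt ((isOpen_interior.prod isOpen_univ).mem_nhds ⟨hN x, trivial⟩)
  -- the homotopy
  set K : X × I → X := fun p => if (p.2 : ℝ) = 0 then p.1 else F p.1 (1 / (p.2 : ℝ) - 1) with hK
  have hKc : Continuous K := by
    rw [continuous_iff_continuousAt]
    rintro ⟨x, t⟩
    by_cases ht : (t : ℝ) = 0
    · have h5 : K =ᶠ[nhds (x, t)] Prod.fst := by
        have h6 : (interior (P (N x)) ×ˢ {u : I | (u : ℝ) < 1 / ((N x : ℝ) + 1)}) ∈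
            nhds (x, t) := by
          apply IsOpen.mem_nhds
          · exact isOpen_interior.prod (isOpen_lt continuous_subtype_val continuous_const)
          · refine ⟨hN x, ?_⟩
            show (t : ℝ) < 1 / ((N x : ℝ) + 1)
            rw [ht]
            positivity
        filter_upwards [h6]
        rintro ⟨x', u⟩ ⟨hx', hu⟩
        show (if (u : ℝ) = 0 then x' else F x' (1 / (u : ℝ) - 1)) = x'
        split_ifs with hu0
        · rfl
        · have hupos : 0 < (u : ℝ) := lt_of_le_of_ne u.2.1 (Ne.symm hu0)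
          have hu' : (u : ℝ) < 1 / ((N x : ℝ) + 1) := hu
          rw [hFn (N x) x' (interior_subset hx')]
          apply exhG_large P H hH1 hH0
          have h7 : (N x : ℝ) + 1 < 1 / (u : ℝ) := by
            rw [lt_div_iff₀ hupos]
            rw [lt_div_iff₀ (by positivity)] at hu'
            linarith
          linarith
      exact continuousAt_fst.congr h5.symm
    · have h5 : K =ᶠ[nhds (x, t)] (fun p => F p.1 (1 / (p.2 : ℝ) - 1)) := by
        have h6 : {p : X × I | (p.2 : ℝ) ≠ 0} ∈ nhds (x, t) := by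
          apply IsOpen.mem_nhds
          · exact isOpen_ne_fun (continuous_subtype_val.comp continuous_snd) continuous_const
          · exact ht
        filter_upwards [h6]
        intro p hp
        show (if (p.2 : ℝ) = 0 then p.1 else F p.1 (1 / (p.2 : ℝ) - 1)) = _
        rw [if_neg hp]
      refine ContinuousAt.congr ?_ h5.symm
      have h8 : ContinuousAt (fun p : X × I => ((p.1, 1 / (p.2 : ℝ) - 1) : X × ℝ)) (x, t) := by
        refine ContinuousAt.prodMk continuousAt_fst ?_
        refine ContinuousAt.sub ?_ continuousAt_const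
        refine ContinuousAt.div continuousAt_const ?_ ht
        exact (continuous_subtype_val.comp continuous_snd).continuousAt
      exact ContinuousAt.comp (f := fun p : X × I => ((p.1, 1 / (p.2 : ℝ) - 1) : X × ℝ))
        (g := fun p : X × ℝ => F p.1 p.2) hFc.continuousAt h8
  -- the retraction
  have hR0 : ∀ x, F x 0 ∈ P 0 := fun x => exhG_zero P H hH1 (N x) ⟨x, hN' x⟩
  let R0 : C(X, P 0) := ⟨fun x => ⟨F x 0, hR0 x⟩, Continuous.subtype_mk
    (hFc.comp (Continuous.prodMk continuous_id continuous_const)) _⟩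
  let ι : C(P 0, X) := ⟨Subtype.val, continuous_subtype_val⟩
  have hhom : (ContinuousMap.id X).Homotopic (ι.comp R0) := by
    refine ⟨⟨⟨fun p => K (p.2, p.1), hKc.comp continuous_swap⟩, ?_, ?_⟩⟩
    · intro x
      show (if ((0 : I) : ℝ) = 0 then x else F x (1 / ((0 : I) : ℝ) - 1)) = x
      rw [if_pos (by simp)]
    · intro x
      show (if ((1 : I) : ℝ) = 0 then x else F x (1 / ((1 : I) : ℝ) - 1)) = F x 0
      rw [if_neg (by simp)]
      simp
  rw [contractible_iff_id_nullhomotopic] at h0 ⊢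
  obtain ⟨y, hy⟩ := h0
  refine ⟨ι y, hhom.trans ?_⟩
  have h9 : (ι.comp R0).Homotopic (ι.comp (ContinuousMap.const X y)) := by
    have h10 : (ContinuousMap.comp (ContinuousMap.id (P 0)) R0).Homotopic
        ((ContinuousMap.const (P 0) y).comp R0) :=
      ContinuousMap.Homotopic.comp hy (ContinuousMap.Homotopic.refl R0)
    have h11 := ContinuousMap.Homotopic.comp (ContinuousMap.Homotopic.refl ι) h10
    exact h11
  exact h9

end SingerRA
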