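import Mathlib
import Pool.Agent.Lib_MP_394d50_gt.Defs2

/-! Piece CRETR: the chamber is contractible and retracts onto the union of the mirrors of a
non-empty simplex. -/

namespace SingerRA

variable {V : Type} [Finite V] (G : SimpleGraph V)

theorem chamber_contract : ContractibleSpace (Chamber G) := by
  have h0 : (0 : V → ℝ) ∈ Chamber G := by
    refine ⟨fun v => ⟨le_rfl, zero_le_one⟩, ?_⟩
    have : {v | (0 : V → ℝ) v ≠ 0} = ∅ := by
      ext v; simp
    rw [this]
    exact SimpleGraph.isClique_empty
  have hs : StarConvex ℝ (0 : V → ℝ) (Chamber G) := by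
    rw [starConvex_zero_iff]
    intro y hy a ha0 ha1
    refine ⟨fun v => ⟨?_, ?_⟩, ?_⟩
    · exact mul_nonneg ha0 (hy.1 v).1
    · exact mul_le_one₀ ha1 (hy.1 v).1 (hy.1 v).2
    · refine SimpleGraph.IsClique.subset ?_ hy.2
      intro v hv hv0
      apply hv
      show a * y v = 0
      rw [hv0, mul_zero]
  exact hs.contractibleSpace ⟨0, h0⟩

open scoped Classical in
/-- The homotopy of the piece, in coordinates (`m` the maximum over `S`). -/
noncomputable def retrFun (S : Set V) (m : (V → ℝ) → ℝ) (y : V → ℝ) (t : ℝ) : V → ℝ := fun u =>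
  if u ∈ S then
    (1 - max (2 * t - 1) 0) * y u + max (2 * t - 1) 0 *
      (y u / max (m y) (1 / 4) + (1 - 4 * min (m y) (1 / 4)))
  else
    (1 - min (2 * t) 1 + min (2 * t) 1 * max 0 (min 1 (4 * m y - 1))) * y u

theorem continuous_retrFun (S : Set V) (m : (V → ℝ) → ℝ) (hm : Continuous m) :
    Continuous (fun p : (V → ℝ) × ℝ => retrFun S m p.1 p.2) := by
  refine continuous_pi fun u => ?_
  have hy : Continuous (fun p : (V → ℝ) × ℝ => p.1 u) := (continuous_apply u).comp continuous_fst
  have hm' : Continuous (fun p : (V → ℝ) × ℝ => m p.1) := hm.comp continuous_fst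
  have ht : Continuous (fun p : (V → ℝ) × ℝ => p.2) := continuous_snd
  unfold retrFun
  by_cases hu : u ∈ S
  · simp only [if_pos hu]
    have hne : ∀ p : (V → ℝ) × ℝ, max (m p.1) (1 / 4) ≠ 0 := fun p =>
      (lt_of_lt_of_le (by norm_num : (0 : ℝ) < 1 / 4) (le_max_right _ _)).ne'
    have h1 : Continuous (fun p : (V → ℝ) × ℝ => p.1 u / max (m p.1) (1 / 4)) :=
      hy.div (hm'.max continuous_const) hne
    fun_prop
  · simp only [if_neg hu]
    fun_prop

theorem chamber_retract (S : Set V) (hS : G.IsClique S) (hne : S.Nonempty) :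
    ∃ H : C(Chamber G × unitInterval, Chamber G), (∀ y, H (y, 0) = y) ∧
      (∀ y, ∃ v ∈ S, (H (y, 1)).1 v = 1) ∧
      (∀ y : Chamber G, ∀ t, (∃ v ∈ S, y.1 v = 1) → H (y, t) = y) := by
  classical
  set F : Finset V := (Set.toFinite S).toFinset with hF
  have hFS : ∀ v, v ∈ F ↔ v ∈ S := fun v => by simp [hF]
  have hFne : F.Nonempty := by
    obtain ⟨v, hv⟩ := hne
    exact ⟨v, (hFS v).2 hv⟩
  set m : (V → ℝ) → ℝ := fun y => F.sup' hFne (fun v => y v) with hm
  have hmc : Continuous m := by
    apply Continuous.finset_sup'_apply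
    intro i _
    exact continuous_apply i
  have hle : ∀ y v, v ∈ S → y v ≤ m y := fun y v hv =>
    Finset.le_sup' (fun v => y v) ((hFS v).2 hv)
  have hex : ∀ y, ∃ v ∈ S, m y = y v := by
    intro y
    obtain ⟨v, hv, h⟩ := Finset.exists_mem_eq_sup' hFne (fun v => y v)
    exact ⟨v, (hFS v).1 hv, h⟩
  have hm0 : ∀ y : Chamber G, 0 ≤ m y.1 := by
    intro y
    obtain ⟨v, _, h⟩ := hex y.1
    rw [h]; exact (y.2.1 v).1
  have hm1 : ∀ y : Chamber G, m y.1 ≤ 1 := by
    intro y
    obtain ⟨v, _, h⟩ := hex y.1
    rw [h]; exact (y.2.1 v).2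
  -- the value r
  have hr : ∀ y : Chamber G, ∀ v ∈ S, 0 ≤ y.1 v / max (m y.1) (1 / 4) +
      (1 - 4 * min (m y.1) (1 / 4)) ∧ y.1 v / max (m y.1) (1 / 4) +
      (1 - 4 * min (m y.1) (1 / 4)) ≤ 1 := by
    intro y v hv
    have h1 := hle y.1 v hv
    have h2 := (y.2.1 v).1
    have h3 := hm0 y
    rcases le_total (m y.1) (1 / 4) with h | h
    · rw [max_eq_right h, min_eq_left h]
      constructor
      · have : 0 ≤ y.1 v / (1 / 4) := div_nonneg h2 (by norm_num)
        linarith
      · rw [div_eq_mul_inv]
        norm_num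
        linarith
    · rw [max_eq_left h, min_eq_right h]
      have hpos : 0 < m y.1 := lt_of_lt_of_le (by norm_num) h
      constructor
      · have : 0 ≤ y.1 v / m y.1 := div_nonneg h2 h3
        linarith
      · have : y.1 v / m y.1 ≤ 1 := (div_le_one hpos).2 h1
        linarith
  have hmem : ∀ (y : Chamber G) (t : unitInterval), retrFun S m y.1 t.1 ∈ Chamber G := by
    intro y t
    have ht0 := t.2.1
    have ht1 := t.2.2
    set b : ℝ := max (2 * t.1 - 1) 0 with hb
    set a : ℝ := min (2 * t.1) 1 with ha
    set l : ℝ := max 0 (min 1 (4 * m y.1 - 1)) with hl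
    have hb0 : 0 ≤ b := le_max_right _ _
    have hb1 : b ≤ 1 := max_le (by linarith) zero_le_one
    have ha0 : 0 ≤ a := le_min (by linarith) zero_le_one
    have ha1 : a ≤ 1 := min_le_right _ _
    have hl0 : 0 ≤ l := le_max_left _ _
    have hl1 : l ≤ 1 := max_le zero_le_one (min_le_left _ _)
    refine ⟨fun u => ?_, ?_⟩
    · unfold retrFun
      have h2 := (y.2.1 u).1
      have h3 := (y.2.1 u).2
      by_cases hu : u ∈ S
      · rw [if_pos hu]
        obtain ⟨h4, h5⟩ := hr y u hu
        constructor
        · have := mul_nonneg (sub_nonneg.2 hb1) h2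
          have := mul_nonneg hb0 h4
          linarith
        · have h6 := mul_le_mul_of_nonneg_left h3 (sub_nonneg.2 hb1)
          have h7 := mul_le_mul_of_nonneg_left h5 hb0
          linarith
      · rw [if_neg hu]
        have h6 : 0 ≤ 1 - a + a * l := by nlinarith
        have h7 : 1 - a + a * l ≤ 1 := by nlinarith
        exact ⟨mul_nonneg h6 h2, mul_le_one₀ h7 h2 h3⟩
    · rcases le_total t.1 (1 / 2) with ht | ht
      · have hb' : b = 0 := max_eq_right (by linarith)
        refine SimpleGraph.IsClique.subset ?_ y.2.2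
        intro u hu hu0
        apply hu
        unfold retrFun
        by_cases huS : u ∈ S
        · rw [if_pos huS, ← hb, hb', hu0]; ring
        · rw [if_neg huS, hu0]; ring
      · have ha' : a = 1 := min_eq_right (by linarith)
        rcases le_total (m y.1) (1 / 4) with h | h
        · have hl' : l = 0 := by
            rw [hl]
            apply max_eq_left
            exact (min_le_right _ _).trans (by linarith)
          refine SimpleGraph.IsClique.subset ?_ hS
          intro u hu
          by_contra huS
          apply hu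
          unfold retrFun
          rw [if_neg huS, ← ha, ← hl, ha', hl']
          ring
        · refine SimpleGraph.IsClique.subset ?_ y.2.2
          intro u hu hu0
          apply hu
          unfold retrFun
          by_cases huS : u ∈ S
          · rw [if_pos huS, hu0, min_eq_right h]; norm_num
          · rw [if_neg huS, hu0]; ring
  refine ⟨⟨fun p => ⟨retrFun S m p.1.1 p.2.1, hmem p.1 p.2⟩, ?_⟩, ?_, ?_, ?_⟩
  · refine Continuous.subtype_mk ?_ _
    have h1 := continuous_retrFun S m hmc
    have h2 : Continuous (fun p : Chamber G × unitInterval => ((p.1.1, p.2.1) : (V → ℝ) × ℝ)) :=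
      (continuous_subtype_val.comp continuous_fst).prodMk
        (continuous_subtype_val.comp continuous_snd)
    exact h1.comp h2
  · intro y
    apply Subtype.ext
    funext u
    show retrFun S m y.1 ((0 : unitInterval) : ℝ) u = y.1 u
    unfold retrFun
    by_cases huS : u ∈ S
    · rw [if_pos huS]
      norm_num
    · rw [if_neg huS]
      norm_num
  · intro y
    obtain ⟨v, hv, hmv⟩ := hex y.1
    refine ⟨v, hv, ?_⟩
    show retrFun S m y.1 ((1 : unitInterval) : ℝ) v = 1
    unfold retrFun
    rw [if_pos hv]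
    have h0 := hm0 y
    rcases le_total (m y.1) (1 / 4) with h | h
    · rw [max_eq_right h, min_eq_left h, ← hmv]
      norm_num
      ring
    · have hpos : 0 < m y.1 := lt_of_lt_of_le (by norm_num) h
      rw [max_eq_left h, min_eq_right h, ← hmv, div_self hpos.ne']
      norm_num
  · rintro y t ⟨v, hv, hyv⟩
    have hm' : m y.1 = 1 := le_antisymm (hm1 y) (by rw [← hyv]; exact hle y.1 v hv)
    apply Subtype.ext
    funext u
    show retrFun S m y.1 t.1 u = y.1 u
    unfold retrFun
    rw [hm']
    by_cases huS : u ∈ S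
    · rw [if_pos huS]
      norm_num
      ring
    · rw [if_neg huS]
      norm_num

end SingerRA
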