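import Mathlib
import Pool.Agent.Lib_MP_394d50_gt.Defs2
import Pool.Agent.Lib_MP_394d50_gt.CDesc
import Pool.Agent.Lib_MP_394d50_gt.CRetr
import Pool.Agent.Lib_MP_394d50_gt.CExh
import Pool.Agent.Lib_MP_394d50_gt.CTop

/-! Piece CCONTR: the Davis complex is contractible. -/

namespace SingerRA

open unitInterval

/-- The union of the chambers of length at most `n`. -/
def ballP {V : Type} (G : SimpleGraph V) (n : ℕ) : Set (Davis G) :=
  {s | ∃ w y, s = dmk G w y ∧ len G w ≤ n}

/-- The descents of `w`. -/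
def descS {V : Type} (G : SimpleGraph V) (w : W G) : Set V :=
  {v | len G (w * gen G v) < len G w}

theorem finite_len_le {V : Type} [Finite V] (G : SimpleGraph V) (n : ℕ) :
    Finite {w : W G // len G w ≤ n} := by
  have h1 : Finite {l : List V // l.length ≤ n} := (List.finite_length_le V n).to_subtype
  refine Finite.of_surjective (α := {l : List V // l.length ≤ n})
    (fun l => ⟨(cs G).wordProd l.1, ((cs G).length_wordProd_le l.1).trans l.2⟩) ?_
  rintro ⟨w, hw⟩
  obtain ⟨l, hl, hlw⟩ := (cs G).exists_isReduced w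
  refine ⟨⟨l, ?_⟩, ?_⟩
  · have : (cs G).length ((cs G).wordProd l) = l.length := hl
    rw [← this, ← hlw]; exact hw
  · apply Subtype.ext
    exact hlw.symm

theorem descS_clique {V : Type} (G : SimpleGraph V) (w : W G) : G.IsClique (descS G w) := by
  intro u hu v hv huv
  exact adj_of_desc G w u v huv hu hv

theorem descS_nonempty {V : Type} (G : SimpleGraph V) (w : W G) (hw : w ≠ 1) :
    (descS G w).Nonempty := by
  obtain ⟨v, hv⟩ := (cs G).exists_rightDescent_of_ne_one hw
  exact ⟨v, hv⟩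

/-- The retraction homotopies of the chambers. -/
theorem exists_R {V : Type} [Finite V] (G : SimpleGraph V) (n : ℕ) (w : W G) :
    ∃ R : C(Chamber G × I, Chamber G), (∀ y, R (y, 0) = y) ∧
      (len G w = n + 1 → ∀ y, ∃ v ∈ descS G w, (R (y, 1)).1 v = 1) ∧
      (∀ y : Chamber G, ∀ t, (∃ v ∈ descS G w, y.1 v = 1) → R (y, t) = y) ∧
      (len G w ≤ n → ∀ y t, R (y, t) = y) := by
  by_cases h : len G w = n + 1
  · have hw : w ≠ 1 := by
      rintro rfl
      have h1 : len G 1 = 0 := (cs G).length_one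
      omega
    obtain ⟨R, h1, h2, h3⟩ := chamber_retract G (descS G w) (descS_clique G w)
      (descS_nonempty G w hw)
    exact ⟨R, h1, fun _ => h2, h3, fun h' => by omega⟩
  · exact ⟨⟨Prod.fst, continuous_fst⟩, fun _ => rfl, fun h' => absurd h' h, fun _ _ _ => rfl,
      fun _ _ _ => rfl⟩

theorem R_fix {V : Type} [Finite V] (G : SimpleGraph V) (n : ℕ) (w w' : W G)
    (R : C(Chamber G × I, Chamber G))
    (hR3 : ∀ y : Chamber G, ∀ t, (∃ v ∈ descS G w, y.1 v = 1) → R (y, t) = y)
    (hR4 : len G w ≤ n → ∀ y t, R (y, t) = y)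
    (hw : len G w ≤ n + 1) (hw' : len G w' ≤ n + 1) (hne : w ≠ w') (y : Chamber G)
    (hy : w⁻¹ * w' ∈ par G {v | y.1 v = 1}) (t : I) : R (y, t) = y := by
  rcases Nat.lt_or_ge (len G w) (n + 1) with h | h
  · exact hR4 (by omega) y t
  · apply hR3
    by_contra hcon
    push Not at hcon
    have hcl : G.IsClique {v | y.1 v = 1} := by
      refine SimpleGraph.IsClique.subset ?_ y.2.2
      intro v hv
      have : y.1 v = 1 := hv
      show y.1 v ≠ 0
      rw [this]; exact one_ne_zero
    have hmin : ∀ v ∈ {v | y.1 v = 1}, len G w < len G (w * gen G v) := by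
      intro v hv
      have h1 : ¬ (len G (w * gen G v) < len G w) := fun hd => hcon v hd hv
      rcases len_gen G w v with h2 | h2 <;> omega
    have hx1 : w⁻¹ * w' ≠ 1 := by
      intro h'
      exact hne (inv_mul_eq_one.mp h')
    have := len_lt_of_par G w _ hcl hmin _ hy hx1
    rw [mul_inv_cancel_left] at this
    omega

theorem ballP_retract {V : Type} [Finite V] (G : SimpleGraph V) (n : ℕ) :
    ∃ H : C(ballP G (n + 1) × I, ballP G (n + 1)), (∀ x, H (x, 0) = x) ∧
      (∀ x, (H (x, 1)).1 ∈ ballP G n) ∧ (∀ x t, x.1 ∈ ballP G n → H (x, t) = x) := by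
  classical
  choose R hR1 hR2 hR3 hR4 using exists_R G n
  choose w0 y0 h0 hl0 using fun s : ballP G (n + 1) => s.2
  obtain ⟨f, hf, hf'⟩ := exists_dcoord G
  -- the key formula
  have key : ∀ (s : ballP G (n + 1)) (w : W G) (y : Chamber G), s.1 = dmk G w y →
      len G w ≤ n + 1 → ∀ t, dmk G (w0 s) (R (w0 s) (y0 s, t)) = dmk G w (R w (y, t)) := by
    intro s w y hs hw t
    have h1 : dmk G (w0 s) (y0 s) = dmk G w y := (h0 s).symm.trans hs
    obtain ⟨h2, h3⟩ := (dmk_eq_iff G _ _ _ _).mp h1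
    by_cases hww : w0 s = w
    · rw [hww, h2]
    · rw [R_fix G n (w0 s) w (R (w0 s)) (hR3 _) (hR4 _) (hl0 s) hw hww (y0 s) h3 t]
      have h4 : dmk G w y = dmk G (w0 s) (y0 s) := h1.symm
      obtain ⟨_, h5⟩ := (dmk_eq_iff G _ _ _ _).mp h4
      rw [R_fix G n w (w0 s) (R w) (hR3 _) (hR4 _) hw (hl0 s) (Ne.symm hww) y h5 t]
      exact h1
  have hcont : Continuous (fun p : ballP G (n + 1) × I => dmk G (w0 p.1) (R (w0 p.1) (y0 p.1, p.2)))
      := by
    have := finite_len_le G (n + 1)
    let C : {w : W G // len G w ≤ n + 1} → Set (ballP G (n + 1) × I) :=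
      fun w => {p | p.1.1 ∈ Set.range (dmk G w.1)}
    refine LocallyFinite.continuous (f := C) (locallyFinite_of_finite C) ?_ ?_ ?_
    · rw [Set.eq_univ_iff_forall]
      intro p
      rw [Set.mem_iUnion]
      exact ⟨⟨w0 p.1, hl0 p.1⟩, ⟨y0 p.1, (h0 p.1).symm⟩⟩
    · intro w
      exact (isClosed_chamber G w.1).preimage (continuous_subtype_val.comp continuous_fst)
    · intro w
      have h1 : Continuous (fun p : ballP G (n + 1) × I => dmk G w.1 (R w.1 (f p.1.1, p.2))) := by
        refine (continuous_dmk G w.1).comp ((R w.1).continuous.comp ?_)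
        exact (hf.comp (continuous_subtype_val.comp continuous_fst)).prodMk continuous_snd
      refine h1.continuousOn.congr ?_
      rintro p ⟨y, hy⟩
      have h2 : f p.1.1 = y := by rw [← hy]; exact hf' _ _
      show dmk G (w0 p.1) (R (w0 p.1) (y0 p.1, p.2)) = dmk G w.1 (R w.1 (f p.1.1, p.2))
      rw [h2]
      exact key p.1 w.1 y hy.symm w.2 p.2
  refine ⟨⟨fun p => ⟨dmk G (w0 p.1) (R (w0 p.1) (y0 p.1, p.2)), ⟨_, _, rfl, hl0 p.1⟩⟩,
    hcont.subtype_mk _⟩, ?_, ?_, ?_⟩
  · intro s
    apply Subtype.ext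
    show dmk G (w0 s) (R (w0 s) (y0 s, 0)) = s.1
    rw [hR1]
    exact (h0 s).symm
  · intro s
    show dmk G (w0 s) (R (w0 s) (y0 s, 1)) ∈ ballP G n
    rcases Nat.lt_or_ge (len G (w0 s)) (n + 1) with h | h
    · exact ⟨_, _, rfl, by omega⟩
    · obtain ⟨v, hv, hv1⟩ := hR2 (w0 s) (le_antisymm (hl0 s) h) (y0 s)
      refine ⟨w0 s * gen G v, R (w0 s) (y0 s, 1), ?_, ?_⟩
      · rw [dmk_eq_iff]
        refine ⟨rfl, ?_⟩
        rw [inv_mul_cancel_left]
        exact Subgroup.subset_closure ⟨v, hv1, rfl⟩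
      · have h1 : len G (w0 s * gen G v) < len G (w0 s) := hv
        have := hl0 s
        omega
  · rintro s t ⟨w, y, hs, hw⟩
    apply Subtype.ext
    show dmk G (w0 s) (R (w0 s) (y0 s, t)) = s.1
    rw [key s w y hs (by omega) t, hR4 w hw y t, hs]

theorem contractible_ballP_zero {V : Type} [Finite V] (G : SimpleGraph V) :
    ContractibleSpace (ballP G 0) := by
  obtain ⟨f, hf, hf'⟩ := exists_dcoord G
  have := chamber_contract G
  let e : ballP G 0 ≃ₜ Chamber G :=
    { toFun := fun s => f s.1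
      invFun := fun y => ⟨dmk G 1 y, 1, y, rfl, ((cs G).length_one).le⟩
      left_inv := by
        rintro ⟨s, w, y, hs, hw⟩
        have hw1 : w = 1 := (cs G).length_eq_zero_iff.mp (Nat.le_zero.mp hw)
        subst hw1
        apply Subtype.ext
        show dmk G 1 (f s) = s
        rw [hs, hf']
      right_inv := by
        intro y
        exact hf' 1 y
      continuous_toFun := hf.comp continuous_subtype_val
      continuous_invFun := (continuous_dmk G 1).subtype_mk _ }
  exact e.contractibleSpace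

theorem contractible_davis {V : Type} [Finite V] (G : SimpleGraph V) :
    ContractibleSpace (Davis G) := by
  refine contractible_of_exhaustion (ballP G) ?_ ?_ (contractible_ballP_zero G)
    (ballP_retract G)
  · rintro n s ⟨w, y, hs, hw⟩
    exact ⟨w, y, hs, by omega⟩
  · intro s
    obtain ⟨w, y, hs⟩ := exists_dmk G s
    refine ⟨len G w + Nat.card V, ?_⟩
    rw [mem_interior]
    refine ⟨ostar G w, ?_, isOpen_ostar G w, ?_⟩
    · intro s' hs'
      obtain ⟨w', y', h1, h2⟩ := ostar_subset G w s' hs'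
      exact ⟨w', y', h1, h2⟩
    · rw [hs, mem_ostar, inv_mul_cancel]
      exact Subgroup.one_mem _

end SingerRA
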