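import Mathlib
import Pool.Agent.Lib_MP_394d50_gt.Defs2
import Pool.Agent.Lib_MP_394d50_gt.CDesc
import Pool.Agent.Lib_MP_394d50_gt.CTop

/-! Piece CDECK: the deck transformations. -/

namespace SingerRA

variable {V : Type} [Finite V] (G : SimpleGraph V)

omit [Finite V] in
theorem dact_dmk (g w : W G) (y : Chamber G) : dact G g (dmk G w y) = dmk G (g * w) y := rfl

omit [Finite V] in
theorem proj_dmk (w : W G) (y : Chamber G) (v : V) :
    (proj G (dmk G w y)).1 v = sg ((lab G w).toAdd v) * (1 - y.1 v) := rfl

theorem sg_inj {a b : ZMod 2} (h : sg a = sg b) : a = b := by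
  have key : ∀ a b : ZMod 2, a ≠ 0 → b ≠ 0 → a = b := by decide
  unfold sg at h
  split_ifs at h with h1 h2 h2
  · rw [h1, h2]
  · norm_num at h
  · norm_num at h
  · exact key a b h1 h2

/-- The homomorphism of the labels is surjective. -/
theorem lab_surjective_deck (e : V → ZMod 2) : ∃ w : W G, (lab G w).toAdd = e := by
  classical
  have := Fintype.ofFinite V
  have key : ∀ s : Finset V, ∃ w : W G, ∀ v, (lab G w).toAdd v = if v ∈ s then e v else 0 := by
    intro s
    induction s using Finset.induction_on with
    | empty => exact ⟨1, fun v => by simp⟩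
    | insert a s ha ih =>
      obtain ⟨w, hw⟩ := ih
      by_cases h0 : e a = 0
      · refine ⟨w, fun v => ?_⟩
        rw [hw v]
        by_cases hv : v = a
        · subst hv
          simp [ha, h0]
        · simp [hv]
      · have h1 : e a = 1 := by
          revert h0
          generalize e a = b
          intro h0
          fin_cases b
          · exact absurd rfl h0
          · rfl
        refine ⟨w * gen G a, fun v => ?_⟩
        rw [map_mul, toAdd_mul, Pi.add_apply, hw v, lab_gen, toAdd_ofAdd]
        by_cases hv : v = a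
        · subst hv
          simp [ha, h1]
        · simp [hv]
  obtain ⟨w, hw⟩ := key Finset.univ
  exact ⟨w, funext fun v => by rw [hw v]; simp⟩

theorem continuous_dact (g : W G) : Continuous (dact G g) := by
  apply continuous_of_dmk
  intro w
  exact continuous_dmk G (g * w)

theorem surjective_proj : Function.Surjective (proj G) := by
  classical
  intro x
  obtain ⟨w, hw⟩ := lab_surjective_deck G (fun v => if x.1 v < 0 then 1 else 0)
  have hy : (fun v => 1 - |x.1 v|) ∈ Chamber G := by
    refine ⟨fun v => ⟨?_, ?_⟩, ?_⟩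
    · have := x.2.1 v
      dsimp only
      linarith
    · have := abs_nonneg (x.1 v)
      dsimp only
      linarith
    · refine Set.Pairwise.mono ?_ x.2.2
      intro v hv
      have hv' : 1 - |x.1 v| ≠ 0 := hv
      have h1 := x.2.1 v
      show |x.1 v| < 1
      exact lt_of_le_of_ne h1 (fun h => hv' (by linarith))
  refine ⟨dmk G w ⟨_, hy⟩, Subtype.ext (funext fun v => ?_)⟩
  rw [proj_dmk, hw]
  dsimp only
  by_cases h : x.1 v < 0
  · rw [if_pos h, abs_of_neg h]
    have : sg 1 = -1 := by unfold sg; norm_num
    rw [this]; ring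
  · rw [if_neg h, abs_of_nonneg (not_lt.mp h)]
    have : sg 0 = 1 := by unfold sg; norm_num
    rw [this]; ring

omit [Finite V] in
theorem clique_one (y : Chamber G) : G.IsClique {v | y.1 v = 1} := by
  refine Set.Pairwise.mono ?_ y.2.2
  intro v hv
  have hv' : y.1 v = 1 := hv
  show y.1 v ≠ 0
  rw [hv']
  exact one_ne_zero

theorem proj_eq_iff (s s' : Davis G) :
    proj G s = proj G s' ↔ ∃ g ∈ Gam G, dact G g s = s' := by
  classical
  have := Fintype.ofFinite V
  obtain ⟨w, y, rfl⟩ := exists_dmk G s
  obtain ⟨w', y', rfl⟩ := exists_dmk G s'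
  constructor
  · intro h
    have hyy : y = y' := by
      apply Subtype.ext
      funext v
      have h1 := abs_projFun G (w, y) v
      have h2 := abs_projFun G (w', y') v
      have h3 : projFun G (w, y) v = projFun G (w', y') v :=
        congrFun (congrArg Subtype.val h) v
      rw [h3, h2] at h1
      dsimp only at h1
      linarith
    subst hyy
    have hl : ∀ v, y.1 v ≠ 1 → (lab G w).toAdd v = (lab G w').toAdd v := by
      intro v hv
      have h3 : sg ((lab G w).toAdd v) * (1 - y.1 v) = sg ((lab G w').toAdd v) * (1 - y.1 v) :=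
        congrFun (congrArg Subtype.val h) v
      have h4 : (1 : ℝ) - y.1 v ≠ 0 := fun h => hv (by linarith)
      exact sg_inj (mul_right_cancel₀ h4 h3)
    -- the difference of the labels is realised in the parabolic subgroup
    set S : Finset V := Finset.univ.filter (fun v => (lab G w).toAdd v ≠ (lab G w').toAdd v)
      with hS
    have hSsub : (S : Set V) ⊆ {v | y.1 v = 1} := by
      intro v hv
      have hv' : v ∈ S := hv
      rw [hS, Finset.mem_filter] at hv'
      by_contra hc
      exact hv'.2 (hl v hc)
    have hScl : G.IsClique (S : Set V) := Set.Pairwise.mono hSsub (clique_one G y)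
    obtain ⟨x, hx, -, hxl⟩ := exists_par G S hScl
    refine ⟨w' * x⁻¹ * w⁻¹, ?_, ?_⟩
    · show lab G _ = 1
      have : (lab G (w' * x⁻¹ * w⁻¹)).toAdd = 0 := by
        funext v
        rw [(lab G).map_mul, (lab G).map_mul, (lab G).map_inv, (lab G).map_inv, toAdd_mul,
          toAdd_mul, toAdd_inv, toAdd_inv]
        simp only [Pi.add_apply, Pi.neg_apply, Pi.zero_apply, hxl v]
        have hm : v ∈ S ↔ (lab G w).toAdd v ≠ (lab G w').toAdd v := by
          rw [hS, Finset.mem_filter]; simp
        by_cases hv : v ∈ S
        · rw [if_pos hv]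
          have key2 : ∀ a b : ZMod 2, a ≠ b → b + -1 + -a = 0 := by decide
          exact key2 _ _ (hm.mp hv)
        · rw [if_neg hv]
          have : (lab G w).toAdd v = (lab G w').toAdd v := by
            by_contra hc
            exact hv (hm.mpr hc)
          rw [this]
          ring
      exact this
    · rw [dact_dmk]
      rw [dmk_eq_iff]
      refine ⟨rfl, ?_⟩
      have e : (w' * x⁻¹ * w⁻¹ * w)⁻¹ * w' = x := by group
      rw [e]
      exact par_mono G hSsub hx
  · rintro ⟨g, hg, h⟩
    rw [← h, dact_dmk]
    apply Subtype.ext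
    funext v
    rw [proj_dmk, proj_dmk]
    have h1 : lab G g = 1 := hg
    rw [map_mul, h1, one_mul]

theorem dact_free (g : W G) (hg : g ∈ Gam G) (s : Davis G) (h : dact G g s = s) : g = 1 := by
  obtain ⟨w, y, rfl⟩ := exists_dmk G s
  rw [dact_dmk, dmk_eq_iff] at h
  have h1 : lab G g = 1 := hg
  have h2 := eq_one_of_par G _ (clique_one G y) _ h.2 (by
    intro v _
    have : lab G ((g * w)⁻¹ * w) = 1 := by
      rw [map_mul, map_inv, map_mul, h1, one_mul, inv_mul_cancel]
    rw [this]
    rfl)
  have h3 : (g * w)⁻¹ * w = w⁻¹ * g⁻¹ * w := by group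
  rw [h3] at h2
  have h4 : g⁻¹ = 1 := by
    have : w * (w⁻¹ * g⁻¹ * w) * w⁻¹ = w * 1 * w⁻¹ := by rw [h2]
    simpa [mul_assoc] using this
  exact inv_eq_one.mp h4

end SingerRA
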