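import Mathlib
import Pool.Agent.Lib_MP_394d50_gt.Defs2
import Pool.Agent.Lib_MP_394d50_gt.CDesc
import Pool.Agent.Lib_MP_394d50_gt.CTop
import Pool.Agent.Lib_MP_394d50_gt.CDeck

/-! Piece CCOVER: `proj : Σ → Z` is a covering map. -/

namespace SingerRA

/-- The chamber is compact. -/
theorem compact_chamber_cover {V : Type} [Finite V] (G : SimpleGraph V) :
    CompactSpace (Chamber G) := by
  rw [← isCompact_iff_compactSpace]
  have h1 : Chamber G = Set.pi Set.univ (fun _ => Set.Icc (0 : ℝ) 1) ∩
      {y | G.IsClique {v | y v ≠ 0}} := by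
    ext y
    simp only [Chamber, Set.mem_ofPred_eq, Set.mem_inter_iff, Set.mem_pi, Set.mem_univ,
      true_implies, Set.mem_Icc]
  rw [h1]
  apply IsCompact.inter_right (isCompact_univ_pi (fun _ => isCompact_Icc))
  have h2 : {y : V → ℝ | G.IsClique {v | y v ≠ 0}} =
      ⋂ (u : V), ⋂ (v : V), {y : V → ℝ | u ≠ v → ¬ G.Adj u v → (y u = 0 ∨ y v = 0)} := by
    ext y
    simp only [Set.mem_ofPred_eq, Set.mem_iInter]
    constructor
    · intro h u v huv hadj
      by_contra hc
      rw [not_or] at hc
      exact hadj (h hc.1 hc.2 huv)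
    · intro h u hu v hv huv
      by_contra hc
      rcases h u v huv hc with h | h
      · exact hu h
      · exact hv h
  rw [h2]
  refine isClosed_iInter fun u => isClosed_iInter fun v => ?_
  by_cases huv : u ≠ v ∧ ¬ G.Adj u v
  · have : {y : V → ℝ | u ≠ v → ¬ G.Adj u v → (y u = 0 ∨ y v = 0)} =
        {y | y u = 0} ∪ {y | y v = 0} := by
      ext y
      simp only [Set.mem_ofPred_eq, Set.mem_union]
      exact ⟨fun h => h huv.1 huv.2, fun h _ _ => h⟩
    rw [this]
    exact (isClosed_eq (continuous_apply u) continuous_const).union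
      (isClosed_eq (continuous_apply v) continuous_const)
  · have : {y : V → ℝ | u ≠ v → ¬ G.Adj u v → (y u = 0 ∨ y v = 0)} = Set.univ := by
      ext y
      simp only [Set.mem_ofPred_eq, Set.mem_univ, iff_true]
      exact fun h1 h2 => absurd ⟨h1, h2⟩ huv
    rw [this]
    exact isClosed_univ

theorem isQuotientMap_proj {V : Type} [Finite V] (G : SimpleGraph V) :
    Topology.IsQuotientMap (proj G) := by
  classical
  have hfin := Fintype.ofFinite V
  have hcomp := compact_chamber_cover G
  rw [Topology.isQuotientMap_iff_isClosed]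
  refine ⟨surjective_proj G, fun C => ⟨fun h => h.preimage (continuous_proj G), fun h => ?_⟩⟩
  choose w hw using lab_surjective_deck G
  have hC : C = ⋃ e : V → ZMod 2,
      (fun y => proj G (dmk G (w e) y)) '' {y | proj G (dmk G (w e) y) ∈ C} := by
    ext x
    simp only [Set.mem_iUnion, Set.mem_image, Set.mem_ofPred_eq]
    constructor
    · intro hx
      obtain ⟨s, rfl⟩ := surjective_proj G x
      obtain ⟨w', y, rfl⟩ := exists_dmk G s
      have h1 : proj G (dmk G (w (lab G w').toAdd) y) = proj G (dmk G w' y) := by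
        apply Subtype.ext
        funext v
        rw [proj_dmk, proj_dmk, hw]
      exact ⟨(lab G w').toAdd, y, by rw [h1]; exact hx, h1⟩
    · rintro ⟨e, y, hy, rfl⟩
      exact hy
  rw [hC]
  refine isClosed_iUnion_of_finite fun e => ?_
  have hcont : Continuous (fun y => proj G (dmk G (w e) y)) :=
    (continuous_proj G).comp (continuous_dmk G (w e))
  apply hcont.isClosedMap
  exact h.preimage (continuous_dmk G (w e))

/-- The action of the deck group. -/
noncomputable instance instActDavis {V : Type} (G : SimpleGraph V) :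
    MulAction (Gam G) (Davis G) where
  smul g s := dact G (g : W G) s
  one_smul s := by
    induction s using Quotient.inductionOn with
    | h p =>
      show dact G ((1 : Gam G) : W G) (dmk G p.1 p.2) = dmk G p.1 p.2
      rw [dact_dmk]
      simp
  mul_smul g h s := by
    induction s using Quotient.inductionOn with
    | h p =>
      show dact G ((g * h : Gam G) : W G) (dmk G p.1 p.2) =
        dact G (g : W G) (dact G (h : W G) (dmk G p.1 p.2))
      rw [dact_dmk, dact_dmk, dact_dmk]
      simp [mul_assoc]

theorem smul_def_davis {V : Type} (G : SimpleGraph V) (g : Gam G) (s : Davis G) :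
    g • s = dact G (g : W G) s := rfl

theorem isQuotientCoveringMap_proj {V : Type} [Finite V] (G : SimpleGraph V) :
    IsQuotientCoveringMap (proj G) (Gam G) where
  toIsQuotientMap := isQuotientMap_proj G
  continuous_const_smul g := continuous_dact G (g : W G)
  apply_eq_iff_mem_orbit {e₁ e₂} := by
    rw [eq_comm, proj_eq_iff]
    constructor
    · rintro ⟨g, hg, h⟩
      exact ⟨⟨g, hg⟩, h⟩
    · rintro ⟨g, h⟩
      exact ⟨g.1, g.2, h⟩
  disjoint s := by
    obtain ⟨w, y, rfl⟩ := exists_dmk G s
    refine ⟨ostar G w, (isOpen_ostar G w).mem_nhds ?_, ?_⟩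
    · rw [mem_ostar, inv_mul_cancel]
      exact one_mem _
    · rintro g ⟨t, ⟨s', hs', h⟩, ht⟩
      obtain ⟨w', y', rfl⟩ := exists_dmk G s'
      have h' : dmk G ((g : W G) * w') y' = t := h
      rw [← h', mem_ostar] at ht
      rw [mem_ostar] at hs'
      have h3 := mul_mem ht (inv_mem hs')
      have h4 : w⁻¹ * ((g : W G) * w') * (w⁻¹ * w')⁻¹ = w⁻¹ * (g : W G) * w := by group
      rw [h4] at h3
      have hg : lab G (g : W G) = 1 := g.2
      have h5 := eq_one_of_par G _ y'.2.2 _ h3 (by
        intro v _
        have : lab G (w⁻¹ * (g : W G) * w) = 1 := by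
          rw [map_mul, map_mul, hg, mul_one, map_inv, inv_mul_cancel]
        rw [this]
        rfl)
      apply Subtype.ext
      have h6 : w * (w⁻¹ * (g : W G) * w) * w⁻¹ = w * 1 * w⁻¹ := by rw [h5]
      simpa [mul_assoc] using h6

theorem isCoveringMap_proj {V : Type} [Finite V] (G : SimpleGraph V) :
    IsCoveringMap (proj G) :=
  (isQuotientCoveringMap_proj G).isCoveringMap

end SingerRA
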