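import Mathlib
import Pool.Agent.Lib_MP_394d50_gt.Defs3

/-! Piece EKOS: exactness of the Koszul complex of a simplex. -/

namespace SingerRA

namespace EKosAux

variable {V : Type} [DecidableEq V] {A : Type} [Group A]

theorem zadd (y : ZMod 2) : y + y = 0 := by
  revert y; decide

theorem zeq {x y : ZMod 2} (h : x + y = 0) : y = x := by
  revert h; revert x y; decide

/-- `eps` as an additive map -/
def epsHom (a : V → A) (v : V) : (A → ZMod 2) →+ (A → ZMod 2) where
  toFun := eps a v
  map_zero' := by funext x; simp [eps]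
  map_add' f g := by funext x; simp only [eps, Pi.add_apply]; ring

theorem eps_add (a : V → A) (v : V) (f g : A → ZMod 2) :
    eps a v (f + g) = eps a v f + eps a v g := (epsHom a v).map_add f g

theorem eps_zero (a : V → A) (v : V) : eps a v 0 = 0 := (epsHom a v).map_zero

theorem eps_sum (a : V → A) (v : V) {ι : Type} (s : Finset ι) (f : ι → A → ZMod 2) :
    eps a v (∑ i ∈ s, f i) = ∑ i ∈ s, eps a v (f i) := map_sum (epsHom a v) f s

theorem eps_comm (a : V → A) (u v : V) (h : a u * a v = a v * a u) (f : A → ZMod 2) :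
    eps a u (eps a v f) = eps a v (eps a u f) := by
  funext x
  simp only [eps]
  rw [mul_assoc, h, ← mul_assoc]
  ring

theorem eps_inv (a : V → A) (v : V) {σ : Finset V} (hv : v ∈ σ) {f : A → ZMod 2}
    (hf : f ∈ InvF a σ) : eps a v f = 0 := by
  funext x
  simp only [eps, Pi.zero_apply]
  rw [hf v hv x]
  exact zadd _

theorem inv_of_eps (a : V → A) (v : V) {f : A → ZMod 2} (h : eps a v f = 0) (x : A) :
    f (x * a v) = f x := zeq (congrFun h x)

theorem eps_mem (a : V → A) (hsq : ∀ v, a v * a v = 1) (w : V) {π : Finset V}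
    (hc : ∀ u ∈ π, a u * a w = a w * a u) {f : A → ZMod 2} (hf : f ∈ InvF a π) :
    eps a w f ∈ InvF a (insert w π) := by
  intro u hu x
  simp only [eps]
  rw [Finset.mem_insert] at hu
  rcases hu with rfl | hu
  · rw [mul_assoc, hsq, mul_one]
    exact add_comm _ _
  · rw [mul_assoc, hc u hu, ← mul_assoc, hf u hu, hf u hu]

theorem mem_mono (a : V → A) {σ τ : Finset V} (h : σ ⊆ τ) {f : A → ZMod 2}
    (hf : f ∈ InvF a τ) : f ∈ InvF a σ := fun v hv x => hf v (h hv) x

theorem ddzero (a : V → A) (σ : Finset V)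
    (hcomm : ∀ u ∈ σ, ∀ v ∈ σ, a u * a v = a v * a u) (f : Finset V → A → ZMod 2) :
    ∑ w ∈ σ, eps a w (∑ u ∈ σ.erase w, eps a u (f ((σ.erase w).erase u))) = 0 := by
  simp only [eps_sum]
  rw [Finset.sum_sigma']
  refine Finset.sum_involution (fun p _ => ⟨p.2, p.1⟩) ?_ ?_ ?_ ?_
  · rintro ⟨w, u⟩ hp
    rw [Finset.mem_sigma, Finset.mem_erase] at hp
    dsimp only at hp ⊢
    rw [Finset.erase_right_comm, eps_comm a u w (hcomm u hp.2.2 w hp.1)]
    funext x
    exact zadd _
  · rintro ⟨w, u⟩ hp _ heq
    rw [Finset.mem_sigma, Finset.mem_erase] at hp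
    dsimp only at hp heq
    rw [Sigma.mk.injEq] at heq
    exact hp.2.1 heq.1
  · rintro ⟨w, u⟩ hp
    rw [Finset.mem_sigma, Finset.mem_erase] at hp ⊢
    exact ⟨hp.2.2, Ne.symm hp.2.1, hp.1⟩
  · rintro ⟨w, u⟩ hp
    rfl

open scoped Classical in
/-- restriction to the points with label zero -/
noncomputable def P (F : A →* Multiplicative (V → ZMod 2)) (v : V) (h : A → ZMod 2) :
    A → ZMod 2 := fun x => if (F x).toAdd v = 0 then h x else 0

theorem eps_P (a : V → A) (F : A →* Multiplicative (V → ZMod 2)) (v : V)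
    (hl : (F (a v)).toAdd v = 1) {h : A → ZMod 2} (hh : ∀ x, h (x * a v) = h x) :
    eps a v (P F v h) = h := by
  funext x
  simp only [eps, P]
  have e : (F (x * a v)).toAdd v = (F x).toAdd v + 1 := by
    rw [map_mul, toAdd_mul, Pi.add_apply, hl]
  rw [e, hh x]
  have h2 : (F x).toAdd v = 0 ∨ (F x).toAdd v = 1 := by
    generalize (F x).toAdd v = y
    revert y; decide
  have h10 : (1 : ZMod 2) ≠ 0 := by decide
  have h11 : (1 : ZMod 2) + 1 = 0 := by decide
  rcases h2 with h2 | h2 <;> simp [h2, h10, h11]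

theorem P_mem (a : V → A) (F : A →* Multiplicative (V → ZMod 2)) (v : V) {π : Finset V}
    (hl : ∀ u ∈ π, (F (a u)).toAdd v = 0) {h : A → ZMod 2} (hh : h ∈ InvF a π) :
    P F v h ∈ InvF a π := by
  intro u hu x
  simp only [P]
  have e : (F (x * a u)).toAdd v = (F x).toAdd v := by
    rw [map_mul, toAdd_mul, Pi.add_apply, hl u hu, add_zero]
  rw [e, hh u hu x]

theorem main (a : V → A) (hsq : ∀ v, a v * a v = 1) (F : A →* Multiplicative (V → ZMod 2))
    (K : Finset V) (hcomm : ∀ u ∈ K, ∀ v ∈ K, a u * a v = a v * a u)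
    (hlab : ∀ v ∈ K, ∀ u, (F (a v)).toAdd u = if u = v then 1 else 0) (τ : Finset V) :
    ∀ ρ : Finset V, Disjoint τ ρ → τ ∪ ρ ⊆ K → ∀ (s : ℕ) (g : Finset V → A → ZMod 2),
      (∀ σ ⊆ τ, σ.card = s + 1 → g σ ∈ InvF a (σ ∪ ρ)) →
      (∀ σ ⊆ τ, σ.card = s + 2 → ∑ v ∈ σ, eps a v (g (σ.erase v)) = 0) →
      ∃ f : Finset V → A → ZMod 2, (∀ π ⊆ τ, π.card = s → f π ∈ InvF a (π ∪ ρ)) ∧
        ∀ σ ⊆ τ, σ.card = s + 1 → g σ = ∑ v ∈ σ, eps a v (f (σ.erase v)) := by
  induction τ using Finset.induction_on with
  | empty =>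
    intro ρ _ _ s g _ _
    refine ⟨0, fun π _ _ => Submodule.zero_mem _, ?_⟩
    intro σ hσ hc
    rw [Finset.subset_empty.mp hσ] at hc
    simp at hc
  | insert v τ0 hv ih =>
    intro ρ hd hK s g hg hcyc
    have hvK : v ∈ K := hK (Finset.mem_union_left _ (Finset.mem_insert_self _ _))
    have hτ0K : τ0 ⊆ K := fun u hu => hK (Finset.mem_union_left _ (Finset.mem_insert_of_mem hu))
    have hρK : ρ ⊆ K := fun u hu => hK (Finset.mem_union_right _ hu)
    rw [Finset.disjoint_insert_left] at hd
    -- the first correction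
    let f1 : Finset V → A → ZMod 2 := fun π => if v ∈ π then 0 else P F v (g (insert v π))
    have hf1 : ∀ π ⊆ insert v τ0, π.card = s → f1 π ∈ InvF a (π ∪ ρ) := by
      intro π hπ hc
      by_cases hvπ : v ∈ π
      · show (if v ∈ π then 0 else P F v (g (insert v π))) ∈ InvF a (π ∪ ρ)
        rw [if_pos hvπ]
        exact Submodule.zero_mem _
      · show (if v ∈ π then 0 else P F v (g (insert v π))) ∈ InvF a (π ∪ ρ)
        rw [if_neg hvπ]
        apply P_mem
        · intro u hu
          rw [Finset.mem_union] at hu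
          have huK : u ∈ K := by
            rcases hu with hu | hu
            · rcases Finset.mem_insert.mp (hπ hu) with h | h
              · rw [h]; exact hvK
              · exact hτ0K h
            · exact hρK hu
          have hne : v ≠ u := by
            rintro rfl
            rcases hu with hu | hu
            · exact hvπ hu
            · exact hd.1 hu
          rw [hlab u huK, if_neg hne]
        · refine mem_mono a ?_ (hg (insert v π) ?_ ?_)
          · exact Finset.union_subset_union_left (Finset.subset_insert _ _)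
          · exact Finset.insert_subset (Finset.mem_insert_self _ _) hπ
          · rw [Finset.card_insert_of_notMem hvπ, hc]
    have hbd : ∀ σ ⊆ insert v τ0, σ.card = s + 1 →
        ∑ w ∈ σ, eps a w (f1 (σ.erase w)) ∈ InvF a (σ ∪ ρ) := by
      intro σ hσ hc
      refine Submodule.sum_mem _ fun w hw => ?_
      have h1 := hf1 (σ.erase w) ((Finset.erase_subset _ _).trans hσ)
        (by rw [Finset.card_erase_of_mem hw, hc]; rfl)
      have hsub : ∀ u ∈ σ ∪ ρ, u ∈ K := by
        intro u hu
        rcases Finset.mem_union.mp hu with hu | hu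
        · rcases Finset.mem_insert.mp (hσ hu) with h | h
          · rw [h]; exact hvK
          · exact hτ0K h
        · exact hρK hu
      have h2 := eps_mem a hsq w (π := σ.erase w ∪ ρ) (fun u hu => by
        have : u ∈ σ ∪ ρ := Finset.union_subset_union_left (Finset.erase_subset _ _) hu
        exact hcomm u (hsub u this) w (hsub w (Finset.mem_union_left _ hw))) h1
      refine mem_mono a ?_ h2
      intro u hu
      rcases Finset.mem_union.mp hu with hu | hu
      · by_cases huw : u = w
        · rw [huw]; exact Finset.mem_insert_self _ _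
        · exact Finset.mem_insert_of_mem (Finset.mem_union_left _ (Finset.mem_erase.mpr ⟨huw, hu⟩))
      · exact Finset.mem_insert_of_mem (Finset.mem_union_right _ hu)
    let g1 : Finset V → A → ZMod 2 := fun σ => g σ + ∑ w ∈ σ, eps a w (f1 (σ.erase w))
    have hg1 : ∀ σ ⊆ insert v τ0, σ.card = s + 1 → g1 σ ∈ InvF a (σ ∪ ρ) := fun σ hσ hc =>
      Submodule.add_mem _ (hg σ hσ hc) (hbd σ hσ hc)
    have hg1v : ∀ σ ⊆ τ0, σ.card = s → g1 (insert v σ) = 0 := by
      intro σ hσ hc
      have hvσ : v ∉ σ := fun h => hv (hσ h)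
      show g (insert v σ) + ∑ w ∈ insert v σ, eps a w (f1 ((insert v σ).erase w)) = 0
      rw [Finset.sum_insert hvσ, Finset.erase_insert hvσ]
      have h1 : ∑ w ∈ σ, eps a w (f1 ((insert v σ).erase w)) = 0 := by
        refine Finset.sum_eq_zero fun w hw => ?_
        have hne : v ≠ w := by rintro rfl; exact hvσ hw
        have : v ∈ (insert v σ).erase w :=
          Finset.mem_erase.mpr ⟨hne, Finset.mem_insert_self _ _⟩
        show eps a w (if v ∈ (insert v σ).erase w then 0 else _) = 0
        rw [if_pos this, eps_zero]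
      have h2 : eps a v (f1 σ) = g (insert v σ) := by
        show eps a v (if v ∈ σ then 0 else P F v (g (insert v σ))) = _
        rw [if_neg hvσ]
        apply eps_P
        · rw [hlab v hvK, if_pos rfl]
        · intro x
          exact hg (insert v σ) (Finset.insert_subset_insert _ hσ)
            (by rw [Finset.card_insert_of_notMem hvσ, hc]) v
            (Finset.mem_union_left _ (Finset.mem_insert_self _ _)) x
      rw [h1, h2, add_zero]
      funext x
      exact zadd _
    have hcyc1 : ∀ σ ⊆ insert v τ0, σ.card = s + 2 →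
        ∑ w ∈ σ, eps a w (g1 (σ.erase w)) = 0 := by
      intro σ hσ hc
      have hsub : ∀ u ∈ σ, u ∈ K := by
        intro u hu
        rcases Finset.mem_insert.mp (hσ hu) with h | h
        · rw [h]; exact hvK
        · exact hτ0K h
      have h1 := hcyc σ hσ hc
      have h2 := ddzero a σ (fun u hu v hv => hcomm u (hsub u hu) v (hsub v hv)) f1
      show ∑ w ∈ σ, eps a w (g (σ.erase w) + ∑ u ∈ σ.erase w, eps a u (f1 ((σ.erase w).erase u))) = 0
      simp only [eps_add]
      rw [Finset.sum_add_distrib, h1, h2, add_zero]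
    have hinv : ∀ σ ⊆ τ0, σ.card = s + 1 → g1 σ ∈ InvF a (σ ∪ insert v ρ) := by
      intro σ hσ hc
      have hvσ : v ∉ σ := fun h => hv (hσ h)
      have h1 := hcyc1 (insert v σ) (Finset.insert_subset_insert _ hσ)
        (by rw [Finset.card_insert_of_notMem hvσ, hc])
      rw [Finset.sum_insert hvσ, Finset.erase_insert hvσ] at h1
      have h2 : ∑ w ∈ σ, eps a w (g1 ((insert v σ).erase w)) = 0 := by
        refine Finset.sum_eq_zero fun w hw => ?_
        have hne : v ≠ w := by rintro rfl; exact hvσ hw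
        rw [Finset.erase_insert_of_ne hne, hg1v (σ.erase w) ((Finset.erase_subset _ _).trans hσ)
          (by rw [Finset.card_erase_of_mem hw, hc]; rfl), eps_zero]
      rw [h2, add_zero] at h1
      have h3 := hg1 σ (hσ.trans (Finset.subset_insert _ _)) hc
      intro u hu x
      rw [Finset.mem_union, Finset.mem_insert] at hu
      rcases hu with hu | rfl | hu
      · exact h3 u (Finset.mem_union_left _ hu) x
      · exact inv_of_eps a u h1 x
      · exact h3 u (Finset.mem_union_right _ hu) x
    obtain ⟨f2, hf2, hf2'⟩ := ih (insert v ρ) (by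
        rw [Finset.disjoint_insert_right]; exact ⟨hv, hd.2⟩) (by
        intro u hu
        rw [Finset.mem_union, Finset.mem_insert] at hu
        rcases hu with hu | rfl | hu
        · exact hτ0K hu
        · exact hvK
        · exact hρK hu) s g1 hinv (fun σ hσ hc => hcyc1 σ (hσ.trans (Finset.subset_insert _ _)) hc)
    refine ⟨fun π => f1 π + if v ∈ π then 0 else f2 π, ?_, ?_⟩
    · intro π hπ hc
      refine Submodule.add_mem _ (hf1 π hπ hc) ?_
      by_cases hvπ : v ∈ π
      · rw [if_pos hvπ]; exact Submodule.zero_mem _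
      · rw [if_neg hvπ]
        have hπ0 : π ⊆ τ0 := fun u hu => by
          rcases Finset.mem_insert.mp (hπ hu) with h | h
          · exact absurd (h ▸ hu) hvπ
          · exact h
        exact mem_mono a (Finset.union_subset_union_right (Finset.subset_insert _ _))
          (hf2 π hπ0 hc)
    · intro σ hσ hc
      simp only [eps_add]
      rw [Finset.sum_add_distrib]
      by_cases hvσ : v ∈ σ
      · obtain ⟨σ0, hvσ0, rfl⟩ : ∃ σ0, v ∉ σ0 ∧ σ = insert v σ0 :=
          ⟨σ.erase v, Finset.notMem_erase v σ, (Finset.insert_erase hvσ).symm⟩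
        have hσ0 : σ0 ⊆ τ0 := fun u hu => by
          rcases Finset.mem_insert.mp (hσ (Finset.mem_insert_of_mem hu)) with h | h
          · exact absurd (h ▸ hu) hvσ0
          · exact h
        have hc0 : σ0.card = s := by
          rw [Finset.card_insert_of_notMem hvσ0] at hc; omega
        have h1 := hg1v σ0 hσ0 hc0
        have h2 : ∑ w ∈ insert v σ0, eps a w
            (if v ∈ (insert v σ0).erase w then 0 else f2 ((insert v σ0).erase w)) = 0 := by
          rw [Finset.sum_insert hvσ0, Finset.erase_insert hvσ0, if_neg hvσ0,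
            eps_inv a v (Finset.mem_union_right _ (Finset.mem_insert_self _ _))
              (hf2 σ0 hσ0 hc0), zero_add]
          refine Finset.sum_eq_zero fun w hw => ?_
          have hne : v ≠ w := by rintro rfl; exact hvσ0 hw
          rw [if_pos (Finset.mem_erase.mpr ⟨hne, Finset.mem_insert_self _ _⟩), eps_zero]
        rw [h2, add_zero]
        funext x
        have h3 := congrFun h1 x
        exact (zeq h3).symm
      · have hσ0 : σ ⊆ τ0 := fun u hu => by
          rcases Finset.mem_insert.mp (hσ hu) with h | h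
          · exact absurd (h ▸ hu) hvσ
          · exact h
        have h1 := hf2' σ hσ0 hc
        have h2 : ∑ w ∈ σ, eps a w (if v ∈ σ.erase w then 0 else f2 (σ.erase w)) = g1 σ := by
          rw [h1]
          refine Finset.sum_congr rfl fun w hw => ?_
          rw [if_neg (fun h => hvσ (Finset.mem_of_mem_erase h))]
        rw [h2]
        show g σ = _ + (g σ + ∑ w ∈ σ, eps a w (f1 (σ.erase w)))
        funext x
        simp only [Pi.add_apply]
        have := zadd ((∑ w ∈ σ, eps a w (f1 (σ.erase w))) x)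
        linear_combination -this

end EKosAux

variable {V : Type} [Fintype V] [DecidableEq V] {G : SimpleGraph V} {A : Type} [Group A]

theorem koszul (a : V → A) (h : OK a (cliq G)) (τ : Finset V) (hτ : τ ∈ cliq G) (s : ℕ)
    (g : Finset V → A → ZMod 2) (hg : ∀ σ ⊆ τ, σ.card = s + 1 → g σ ∈ InvF a σ)
    (hd : ∀ σ ⊆ τ, σ.card = s + 2 → ∑ v ∈ σ, eps a v (g (σ.erase v)) = 0) :
    ∃ f : Finset V → A → ZMod 2, (∀ ρ ⊆ τ, ρ.card = s → f ρ ∈ InvF a ρ) ∧
      ∀ σ ⊆ τ, σ.card = s + 1 → g σ = ∑ v ∈ σ, eps a v (f (σ.erase v)) := by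
  obtain ⟨F, hF⟩ := h.lab
  obtain ⟨f, h1, h2⟩ := EKosAux.main a h.sq F τ (fun u hu v hv => h.comm τ hτ u hu v hv)
    (fun v hv u => hF τ hτ v hv u) τ ∅ (Finset.disjoint_empty_right _) (by simp) s g
    (fun σ hσ hc => by rw [Finset.union_empty]; exact hg σ hσ hc) hd
  refine ⟨f, fun ρ hρ hc => ?_, h2⟩
  have := h1 ρ hρ hc
  rwa [Finset.union_empty] at this

end SingerRA
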