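import Mathlib
import Pool.Agent.Lib_MP_394d50_gt.Defs3
import Pool.Agent.Lib_MP_394d50_gt.EKos

/-! Piece EDUALA: a cycle of `C` which bounds in `E` bounds in `C`. -/

namespace SingerRA

variable {V : Type} [Fintype V] [DecidableEq V] {G : SimpleGraph V} {A : Type} [Group A]

namespace EDualAAux

theorem add_self_fun (f : A → ZMod 2) : f + f = 0 := by
  funext x
  exact CharTwo.add_self_eq_zero _

/-- `eps` as an additive homomorphism. -/
def epsH (a : V → A) (v : V) : (A → ZMod 2) →+ (A → ZMod 2) where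
  toFun := eps a v
  map_zero' := by
    funext x
    show (0 : ZMod 2) + 0 = 0
    rw [add_zero]
  map_add' f g := by
    funext x
    show (f x + g x) + (f (x * a v) + g (x * a v)) = (f x + f (x * a v)) + (g x + g (x * a v))
    ring

theorem eps_eq (a : V → A) (v : V) (f : A → ZMod 2) : eps a v f = epsH a v f := rfl

theorem eps_zero (a : V → A) (v : V) : eps a v (0 : A → ZMod 2) = 0 := by
  rw [eps_eq, map_zero]

theorem eps_add (a : V → A) (v : V) (f g : A → ZMod 2) :
    eps a v (f + g) = eps a v f + eps a v g := by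
  rw [eps_eq, map_add]; rfl

theorem eps_sum (a : V → A) (v : V) {ι : Type} (s : Finset ι) (f : ι → A → ZMod 2) :
    eps a v (∑ i ∈ s, f i) = ∑ i ∈ s, eps a v (f i) := by
  rw [eps_eq, map_sum]; rfl

theorem eps_comm (a : V → A) (u v : V) (h : a u * a v = a v * a u) (f : A → ZMod 2) :
    eps a u (eps a v f) = eps a v (eps a u f) := by
  funext x
  show (f x + f (x * a v)) + (f (x * a u) + f (x * a u * a v)) =
    (f x + f (x * a u)) + (f (x * a v) + f (x * a v * a u))
  rw [mul_assoc x (a u) (a v), h, ← mul_assoc]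
  ring

theorem eps_mem (a : V → A) (σ : Finset V) (v : V) (hsq : a v * a v = 1)
    (hcomm : ∀ u ∈ σ, a u * a v = a v * a u) (f : A → ZMod 2) (hf : f ∈ InvF a (σ.erase v)) :
    eps a v f ∈ InvF a σ := by
  intro w hw x
  by_cases hwv : w = v
  · subst hwv
    show f (x * a w) + f (x * a w * a w) = f x + f (x * a w)
    rw [mul_assoc x (a w) (a w), hsq, mul_one, add_comm]
  · have hw' : w ∈ σ.erase v := Finset.mem_erase.2 ⟨hwv, hw⟩
    show f (x * a w) + f (x * a w * a v) = f x + f (x * a v)
    rw [hf w hw' x, mul_assoc x (a w) (a v), hcomm w hw, ← mul_assoc, hf w hw' (x * a v)]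

theorem sum_erase_symm (s : Finset V) (F : V → V → A → ZMod 2)
    (hF : ∀ u ∈ s, ∀ v ∈ s, F u v = F v u) : ∑ v ∈ s, ∑ u ∈ s.erase v, F v u = 0 := by
  rw [Finset.sum_sigma']
  refine Finset.sum_involution (fun p _ => ⟨p.2, p.1⟩) ?_ ?_ ?_ ?_
  · rintro ⟨v, u⟩ hp
    obtain ⟨hv, hu⟩ := Finset.mem_sigma.1 hp
    dsimp only at hv hu ⊢
    rw [hF u (Finset.mem_of_mem_erase hu) v hv]
    exact add_self_fun _
  · rintro ⟨v, u⟩ hp _ h
    obtain ⟨hv, hu⟩ := Finset.mem_sigma.1 hp
    dsimp only at hv hu h
    have h1 : u = v := by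
      have := congrArg Sigma.fst h
      exact this
    exact Finset.ne_of_mem_erase hu h1
  · rintro ⟨v, u⟩ hp
    obtain ⟨hv, hu⟩ := Finset.mem_sigma.1 hp
    dsimp only at hv hu ⊢
    exact Finset.mem_sigma.2 ⟨Finset.mem_of_mem_erase hu,
      Finset.mem_erase.2 ⟨Ne.symm (Finset.ne_of_mem_erase hu), hv⟩⟩
  · rintro ⟨v, u⟩ hp
    rfl

theorem cliq_down {σ τ : Finset V} (h : σ ⊆ τ) (hτ : τ ∈ cliq G) : σ ∈ cliq G :=
  Set.Pairwise.mono (Finset.coe_subset.2 h) hτ

theorem DE_pos (a : V → A) (e : Finset V → Finset V → A → ZMod 2) {σ τ : Finset V}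
    (h : σ ⊆ τ ∧ τ ∈ cliq G) :
    DE G a e σ τ = ∑ v ∈ σ, eps a v (e (σ.erase v) τ) + ∑ v ∈ Finset.univ \ τ,
      e σ (insert v τ) := by
  unfold DE
  rw [if_pos h]

theorem DE_neg (a : V → A) (e : Finset V → Finset V → A → ZMod 2) {σ τ : Finset V}
    (h : ¬ (σ ⊆ τ ∧ τ ∈ cliq G)) : DE G a e σ τ = 0 := by
  unfold DE
  rw [if_neg h]

theorem DE_add (a : V → A) (e f : Finset V → Finset V → A → ZMod 2) :
    DE G a (e + f) = DE G a e + DE G a f := by
  funext σ τ
  by_cases h : σ ⊆ τ ∧ τ ∈ cliq G
  · rw [Pi.add_apply, Pi.add_apply, DE_pos a _ h, DE_pos a _ h, DE_pos a _ h]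
    simp only [Pi.add_apply, eps_add, Finset.sum_add_distrib]
    abel
  · rw [Pi.add_apply, Pi.add_apply, DE_neg a _ h, DE_neg a _ h, DE_neg a _ h, add_zero]

end EDualAAux

open EDualAAux

theorem DE_isE (a : V → A) (h : OK a (cliq G)) (m : ℕ) (e : Finset V → Finset V → A → ZMod 2)
    (he : IsE G a (m + 1) e) : IsE G a m (DE G a e) := by
  refine ⟨?_, ?_⟩
  · intro σ τ hn
    by_cases h1 : σ ⊆ τ ∧ τ ∈ cliq G
    · have hc : τ.card ≠ σ.card + m := fun hc => hn ⟨h1.1, h1.2, hc⟩
      rw [DE_pos a e h1]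
      have e1 : ∑ v ∈ σ, eps a v (e (σ.erase v) τ) = 0 := by
        refine Finset.sum_eq_zero fun v hv => ?_
        have h2 : e (σ.erase v) τ = 0 := by
          refine he.1 _ _ fun h3 => hc ?_
          have h4 := h3.2.2
          have h5 := Finset.card_erase_add_one hv
          omega
        rw [h2, eps_zero]
      have e2 : ∑ v ∈ Finset.univ \ τ, e σ (insert v τ) = 0 := by
        refine Finset.sum_eq_zero fun v hv => ?_
        refine he.1 _ _ fun h3 => hc ?_
        have h4 := h3.2.2
        have hv' : v ∉ τ := (Finset.mem_sdiff.1 hv).2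
        rw [Finset.card_insert_of_notMem hv'] at h4
        omega
      rw [e1, e2, add_zero]
    · exact DE_neg a e h1
  · intro σ τ
    by_cases h1 : σ ⊆ τ ∧ τ ∈ cliq G
    · rw [DE_pos a e h1]
      refine Submodule.add_mem _ (Submodule.sum_mem _ fun v hv => ?_)
        (Submodule.sum_mem _ fun v _ => he.2 _ _)
      have hσ : σ ∈ cliq G := cliq_down h1.1 h1.2
      exact eps_mem a σ v (h.sq v) (fun u hu => h.comm σ hσ u hu v hv) _ (he.2 _ _)
    · rw [DE_neg a e h1]
      exact Submodule.zero_mem _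

theorem DE_DE (a : V → A) (h : OK a (cliq G)) (m : ℕ) (e : Finset V → Finset V → A → ZMod 2)
    (he : IsE G a m e) : DE G a (DE G a e) = 0 := by
  funext σ τ
  by_cases h1 : σ ⊆ τ ∧ τ ∈ cliq G
  · rw [DE_pos a _ h1]
    have hσ : σ ∈ cliq G := cliq_down h1.1 h1.2
    have e1 : ∑ v ∈ σ, eps a v (DE G a e (σ.erase v) τ) =
        ∑ v ∈ σ, ∑ u ∈ Finset.univ \ τ, eps a v (e (σ.erase v) (insert u τ)) := by
      have e2 : ∀ v ∈ σ, eps a v (DE G a e (σ.erase v) τ) =
          ∑ u ∈ σ.erase v, eps a v (eps a u (e ((σ.erase v).erase u) τ)) +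
          ∑ u ∈ Finset.univ \ τ, eps a v (e (σ.erase v) (insert u τ)) := by
        intro v _
        rw [DE_pos a e ⟨(Finset.erase_subset _ _).trans h1.1, h1.2⟩, eps_add, eps_sum, eps_sum]
      rw [Finset.sum_congr rfl e2, Finset.sum_add_distrib]
      have e3 := sum_erase_symm σ (fun v u => eps a v (eps a u (e ((σ.erase v).erase u) τ)))
        (fun u hu v hv => by
          rw [Finset.erase_right_comm, eps_comm a u v (h.comm σ hσ u hu v hv)])
      rw [e3, zero_add]
    have e2 : ∑ v ∈ Finset.univ \ τ, DE G a e σ (insert v τ) =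
        ∑ v ∈ Finset.univ \ τ, ∑ u ∈ σ, eps a u (e (σ.erase u) (insert v τ)) := by
      have e3 : ∀ v ∈ Finset.univ \ τ, DE G a e σ (insert v τ) =
          ∑ u ∈ σ, eps a u (e (σ.erase u) (insert v τ)) +
          ∑ u ∈ (Finset.univ \ τ).erase v, e σ (insert u (insert v τ)) := by
        intro v hv
        have e4 : Finset.univ \ insert v τ = (Finset.univ \ τ).erase v := by
          ext w
          simp only [Finset.mem_sdiff, Finset.mem_univ, true_and, Finset.mem_insert, not_or,
            Finset.mem_erase]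
        by_cases h5 : insert v τ ∈ cliq G
        · rw [DE_pos a e ⟨h1.1.trans (Finset.subset_insert _ _), h5⟩, e4]
        · rw [DE_neg a e (fun h6 => h5 h6.2)]
          have e5 : ∑ u ∈ σ, eps a u (e (σ.erase u) (insert v τ)) = 0 := by
            refine Finset.sum_eq_zero fun u _ => ?_
            rw [he.1 _ _ (fun h6 => h5 h6.2.1), eps_zero]
          have e6 : ∑ u ∈ (Finset.univ \ τ).erase v, e σ (insert u (insert v τ)) = 0 := by
            refine Finset.sum_eq_zero fun u _ => ?_
            exact he.1 _ _ (fun h6 => h5 (cliq_down (Finset.subset_insert _ _) h6.2.1))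
          rw [e5, e6, add_zero]
      rw [Finset.sum_congr rfl e3, Finset.sum_add_distrib]
      have e4 := sum_erase_symm (Finset.univ \ τ) (fun v u => e σ (insert u (insert v τ)))
        (fun u _ v _ => by
          rw [Finset.insert_comm])
      rw [e4, add_zero]
    rw [e1, e2, Finset.sum_comm (s := σ)]
    exact add_self_fun _
  · exact DE_neg a _ h1

theorem dual_inj (a : V → A) (h : OK a (cliq G)) (m : ℕ) (c : Finset V → A → ZMod 2)
    (hc : c ∈ IC a (cliq G) m) (e : Finset V → Finset V → A → ZMod 2)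
    (he : IsE G a (m + 1) e)
    (hde : ∀ σ τ, DE G a e σ τ = if σ = ∅ then c τ else 0) :
    ∃ c' ∈ IC a (cliq G) (m + 1), dT A (cliq G) c' = c := by
  classical
  have key : ∀ s : ℕ, ∀ e : Finset V → Finset V → A → ZMod 2, IsE G a (m + 1) e →
      (∀ σ τ, s < σ.card → e σ τ = 0) →
      (∀ σ τ, DE G a e σ τ = if σ = ∅ then c τ else 0) →
      ∃ c' ∈ IC a (cliq G) (m + 1), dT A (cliq G) c' = c := by
    intro s
    induction s with
    | zero =>
      intro e he h0 hde
      refine ⟨fun τ => e ∅ τ, ⟨?_, ?_⟩, ?_⟩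
      · intro τ hτ
        refine he.1 _ _ fun h3 => hτ ⟨h3.2.1, ?_⟩
        rw [h3.2.2, Finset.card_empty, zero_add]
      · intro τ v hv x
        by_cases hτ : τ ∈ cliq G
        · have h1 := hde {v} τ
          rw [if_neg (Finset.singleton_ne_empty v),
            DE_pos a e ⟨Finset.singleton_subset_iff.2 hv, hτ⟩, Finset.sum_singleton,
            Finset.sum_eq_zero (s := Finset.univ \ τ), add_zero] at h1
          · have h2 : ({v} : Finset V).erase v = ∅ := by simp
            rw [h2] at h1
            have h3 := congrFun h1 x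
            have h4 : e ∅ τ x + e ∅ τ (x * a v) = 0 := h3
            exact (CharTwo.add_eq_zero.1 h4).symm
          · intro u _
            exact h0 _ _ (by rw [Finset.card_singleton]; exact Nat.zero_lt_one)
        · have h1 : e ∅ τ = 0 := he.1 _ _ fun h3 => hτ h3.2.1
          show e ∅ τ (x * a v) = e ∅ τ x
          rw [h1]
          rfl
      · funext τ
        show (if τ ∈ cliq G then ∑ v ∈ Finset.univ \ τ, e ∅ (insert v τ) else 0) = c τ
        by_cases hτ : τ ∈ cliq G
        · rw [if_pos hτ]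
          have h1 := hde ∅ τ
          rw [if_pos rfl, DE_pos a e ⟨Finset.empty_subset _, hτ⟩, Finset.sum_empty,
            zero_add] at h1
          exact h1
        · rw [if_neg hτ]
          exact (hc.1 τ fun h3 => hτ h3.1).symm
    | succ s ih =>
      intro e he h0 hde
      have hkos : ∀ τ : Finset V, ∃ f : Finset V → A → ZMod 2, τ ∈ cliq G →
          ((∀ ρ ⊆ τ, ρ.card = s → f ρ ∈ InvF a ρ) ∧
          ∀ σ ⊆ τ, σ.card = s + 1 → e σ τ = ∑ v ∈ σ, eps a v (f (σ.erase v))) := by
        intro τ
        by_cases hτ : τ ∈ cliq G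
        · obtain ⟨f, hf⟩ := koszul a h τ hτ s (fun σ => e σ τ) (fun σ _ _ => he.2 σ τ) (by
            intro σ hσ hcard
            have h1 := hde σ τ
            have hne : σ ≠ ∅ := by
              rintro rfl
              rw [Finset.card_empty] at hcard
              omega
            rw [if_neg hne, DE_pos a e ⟨hσ, hτ⟩, Finset.sum_eq_zero (s := Finset.univ \ τ),
              add_zero] at h1
            · exact h1
            · intro u _
              exact h0 _ _ (by omega))
          exact ⟨f, fun _ => hf⟩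
        · exact ⟨fun _ => 0, fun h' => absurd h' hτ⟩
      choose f hf using hkos
      let f' : Finset V → Finset V → A → ZMod 2 := fun ρ τ =>
        if ρ ⊆ τ ∧ τ ∈ cliq G ∧ ρ.card = s ∧ τ.card = s + (m + 2) then f τ ρ else 0
      have hf'E : IsE G a (m + 2) f' := by
        refine ⟨?_, ?_⟩
        · intro σ τ hn
          show (if σ ⊆ τ ∧ τ ∈ cliq G ∧ σ.card = s ∧ τ.card = s + (m + 2) then f τ σ else 0) = 0
          rw [if_neg]
          rintro ⟨h1, h2, h3, h4⟩
          exact hn ⟨h1, h2, by omega⟩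
        · intro σ τ
          show (if σ ⊆ τ ∧ τ ∈ cliq G ∧ σ.card = s ∧ τ.card = s + (m + 2) then f τ σ else 0) ∈ _
          split_ifs with h1
          · exact (hf τ h1.2.1).1 σ h1.1 h1.2.2.1
          · exact Submodule.zero_mem _
      have hf'0 : ∀ σ τ, σ.card ≠ s → f' σ τ = 0 := by
        intro σ τ hσ
        show (if σ ⊆ τ ∧ τ ∈ cliq G ∧ σ.card = s ∧ τ.card = s + (m + 2) then f τ σ else 0) = 0
        rw [if_neg]
        rintro ⟨h1, h2, h3, h4⟩
        exact hσ h3
      have hD : IsE G a (m + 1) (DE G a f') := DE_isE a h (m + 1) f' hf'E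
      refine ih (e + DE G a f') ?_ ?_ ?_
      · refine ⟨?_, ?_⟩
        · intro σ τ hn
          rw [Pi.add_apply, Pi.add_apply, he.1 σ τ hn, hD.1 σ τ hn, add_zero]
        · intro σ τ
          exact Submodule.add_mem _ (he.2 σ τ) (hD.2 σ τ)
      · intro σ τ hσ
        rw [Pi.add_apply, Pi.add_apply]
        by_cases h1 : σ ⊆ τ ∧ τ ∈ cliq G
        · have h2 : ∑ v ∈ Finset.univ \ τ, f' σ (insert v τ) = 0 :=
            Finset.sum_eq_zero fun u _ => hf'0 _ _ (by omega)
          rw [DE_pos a f' h1, h2, add_zero]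
          by_cases h3 : σ.card = s + 1
          · by_cases h4 : τ.card = s + (m + 2)
            · have h5 : ∑ v ∈ σ, eps a v (f' (σ.erase v) τ) =
                  ∑ v ∈ σ, eps a v (f τ (σ.erase v)) := by
                refine Finset.sum_congr rfl fun v hv => ?_
                have h6 : f' (σ.erase v) τ = f τ (σ.erase v) := by
                  show (if σ.erase v ⊆ τ ∧ τ ∈ cliq G ∧ (σ.erase v).card = s ∧
                    τ.card = s + (m + 2) then f τ (σ.erase v) else 0) = _
                  have h7 := Finset.card_erase_add_one hv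
                  rw [if_pos ⟨(Finset.erase_subset _ _).trans h1.1, h1.2, by omega, h4⟩]
                rw [h6]
              rw [h5, ← (hf τ h1.2).2 σ h1.1 h3]
              exact add_self_fun _
            · have h5 : ∑ v ∈ σ, eps a v (f' (σ.erase v) τ) = 0 := by
                refine Finset.sum_eq_zero fun v hv => ?_
                have h6 : f' (σ.erase v) τ = 0 := by
                  show (if σ.erase v ⊆ τ ∧ τ ∈ cliq G ∧ (σ.erase v).card = s ∧
                    τ.card = s + (m + 2) then f τ (σ.erase v) else 0) = 0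
                  rw [if_neg]
                  rintro ⟨_, _, _, h7⟩
                  exact h4 h7
                rw [h6, eps_zero]
              have h6 : e σ τ = 0 := he.1 _ _ fun h7 => h4 (by have := h7.2.2; omega)
              rw [h5, h6, add_zero]
          · have h5 : ∑ v ∈ σ, eps a v (f' (σ.erase v) τ) = 0 := by
              refine Finset.sum_eq_zero fun v hv => ?_
              have h7 := Finset.card_erase_add_one hv
              rw [hf'0 _ _ (by omega), eps_zero]
            rw [h5, h0 σ τ (by omega), add_zero]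
        · rw [DE_neg a f' h1, add_zero]
          exact he.1 _ _ fun h3 => h1 ⟨h3.1, h3.2.1⟩
      · intro σ τ
        rw [DE_add, DE_DE a h (m + 2) f' hf'E, add_zero]
        exact hde σ τ
  exact key (Fintype.card V) e he (fun σ τ hs => absurd hs (not_lt.2 (Finset.card_le_univ σ))) hde

end SingerRA
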