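import Mathlib
import Pool.Agent.Lib_MP_394d50_gt.Defs3
import Pool.Agent.Lib_MP_394d50_gt.EDualA

/-! Piece EDUALB: every cycle of `E` is homologous to a cocycle of the dual complex. -/

namespace SingerRA

variable {V : Type} [Fintype V] [DecidableEq V] {G : SimpleGraph V} {A : Type} [Group A]

open scoped Classical in
/-- The embedding of the cochains of degree `n - m` in the chains of degree `m` of `E`. -/
noncomputable def embD (G : SimpleGraph V) (n : ℕ) (g : Finset V → A → ZMod 2)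
    (σ τ : Finset V) : A → ZMod 2 :=
  if σ ⊆ τ ∧ τ ∈ cliq G ∧ τ.card = n then g σ else 0

namespace EDualBAux

theorem cliq_mono {σ τ : Finset V} (h : σ ⊆ τ) (hτ : τ ∈ cliq G) : σ ∈ cliq G := by
  intro x hx y hy hxy
  exact hτ (h hx) (h hy) hxy

theorem eps_zero (a : V → A) (v : V) : eps a v (0 : A → ZMod 2) = 0 := by
  funext x
  simp [eps]

theorem eps_add (a : V → A) (v : V) (f g : A → ZMod 2) :
    eps a v (f + g) = eps a v f + eps a v g := by
  funext x
  simp only [eps, Pi.add_apply]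
  ring

theorem add_self (f : A → ZMod 2) : f + f = 0 := by
  funext x
  exact CharTwo.add_self_eq_zero _

theorem DE_add (a : V → A) (e f : Finset V → Finset V → A → ZMod 2) (σ τ : Finset V) :
    DE G a (e + f) σ τ = DE G a e σ τ + DE G a f σ τ := by
  unfold DE
  by_cases h : σ ⊆ τ ∧ τ ∈ cliq G
  · rw [if_pos h, if_pos h, if_pos h]
    have h1 : ∑ v ∈ σ, eps a v ((e + f) (σ.erase v) τ) =
        ∑ v ∈ σ, eps a v (e (σ.erase v) τ) + ∑ v ∈ σ, eps a v (f (σ.erase v) τ) := by
      rw [← Finset.sum_add_distrib]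
      refine Finset.sum_congr rfl fun v _ => ?_
      rw [← eps_add]
      rfl
    have h2 : ∑ v ∈ Finset.univ \ τ, (e + f) σ (insert v τ) =
        ∑ v ∈ Finset.univ \ τ, e σ (insert v τ) + ∑ v ∈ Finset.univ \ τ, f σ (insert v τ) := by
      rw [← Finset.sum_add_distrib]
      rfl
    rw [h1, h2]
    abel
  · rw [if_neg h, if_neg h, if_neg h, add_zero]

theorem isE_add (a : V → A) (m : ℕ) (e f : Finset V → Finset V → A → ZMod 2)
    (he : IsE G a m e) (hf : IsE G a m f) : IsE G a m (e + f) := by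
  refine ⟨fun σ τ h => ?_, fun σ τ => ?_⟩
  · show e σ τ + f σ τ = 0
    rw [he.1 σ τ h, hf.1 σ τ h, add_zero]
  · exact (InvF a σ).add_mem (he.2 σ τ) (hf.2 σ τ)

/-- every clique is contained in a facet -/
theorem exists_facet (n : ℕ) (hS : HomSphere n G) (σ : Finset V) (hσ : σ ∈ cliq G) :
    ∃ τ, σ ⊆ τ ∧ τ ∈ cliq G ∧ τ.card = n := by
  classical
  obtain ⟨k, hk⟩ : ∃ k, k = n - σ.card := ⟨_, rfl⟩
  induction k generalizing σ with
  | zero =>
    refine ⟨σ, subset_rfl, hσ, ?_⟩
    have := hS.dim σ hσ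
    omega
  | succ k ih =>
    have hlt : σ.card < n := by omega
    obtain ⟨w, hw0, hw⟩ := hS.acyclic σ hσ σ.card le_rfl hlt
      (fun τ => if τ = σ then 1 else 0) (by
        intro τ hτ
        have hne : τ ≠ σ := by
          rintro rfl
          exact hτ hσ
        show (if τ = σ then (1 : ZMod 2) else 0) = 0
        rw [if_neg hne]) (by
        intro τ _ hsub hc
        have := Finset.card_le_card hsub
        omega)
    have h1 := hw σ hσ subset_rfl rfl
    rw [if_pos rfl] at h1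
    have h2 : bs w σ ≠ 0 := by
      rw [← h1]
      decide
    unfold bs at h2
    obtain ⟨v, hv, hv2⟩ := Finset.exists_ne_zero_of_sum_ne_zero h2
    have hvσ : v ∉ σ := (Finset.mem_sdiff.1 hv).2
    have hcl : insert v σ ∈ cliq G := by
      by_contra h
      exact hv2 (hw0 _ h)
    have hcard : (insert v σ).card = σ.card + 1 := Finset.card_insert_of_notMem hvσ
    obtain ⟨τ, h3, h4, h5⟩ := ih (insert v σ) hcl (by omega)
    exact ⟨τ, (Finset.subset_insert v σ).trans h3, h4, h5⟩

/-- the second part of the differential vanishes when the first one does -/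
theorem DE_low (a : V → A) (e : Finset V → Finset V → A → ZMod 2) (hde : DE G a e = 0)
    (s : ℕ) (hlow : ∀ σ τ, σ.card < s → e σ τ = 0) (σ : Finset V) (hσ : σ.card = s)
    (τ : Finset V) (hτ : τ ∈ cliq G) (hsub : σ ⊆ τ) (x : A) :
    bs (fun τ' => e σ τ' x) τ = 0 := by
  have h1 : DE G a e σ τ x = 0 := by rw [hde]; rfl
  unfold DE at h1
  rw [if_pos ⟨hsub, hτ⟩] at h1
  have h2 : ∑ v ∈ σ, eps a v (e (σ.erase v) τ) = 0 := by
    refine Finset.sum_eq_zero fun v hv => ?_
    have hc : (σ.erase v).card < s := by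
      rw [Finset.card_erase_of_mem hv, hσ]
      have : 0 < σ.card := Finset.card_pos.2 ⟨v, hv⟩
      omega
    rw [hlow _ _ hc, eps_zero]
  rw [h2, zero_add, Finset.sum_apply] at h1
  exact h1

/-- one step: kill the level `s`. -/
theorem step (a : V → A) (h : OK a (cliq G)) (n : ℕ) (hS : HomSphere n G) (m s : ℕ)
    (hs : s + m < n) (e : Finset V → Finset V → A → ZMod 2) (he : IsE G a m e)
    (hde : DE G a e = 0) (hlow : ∀ σ τ, σ.card < s → e σ τ = 0) :
    ∃ f, IsE G a (m + 1) f ∧ ∀ σ τ, σ.card < s + 1 → e σ τ + DE G a f σ τ = 0 := by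
  classical
  have hch : ∀ (σ : Finset V) (z : Finset V → ZMod 2), ∃ w : Finset V → ZMod 2,
      (σ ∈ cliq G → σ.card = s → (∀ τ : Finset V, ¬ G.IsClique (τ : Set V) → z τ = 0) →
        (∀ τ : Finset V, G.IsClique (τ : Set V) → σ ⊆ τ → τ.card + 1 = s + m → bs z τ = 0) →
        (∀ τ : Finset V, ¬ G.IsClique (τ : Set V) → w τ = 0) ∧
          ∀ τ : Finset V, G.IsClique (τ : Set V) → σ ⊆ τ → τ.card = s + m → z τ = bs w τ) := by
    intro σ z
    by_cases hc : σ ∈ cliq G ∧ σ.card = s ∧
        (∀ τ : Finset V, ¬ G.IsClique (τ : Set V) → z τ = 0) ∧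
        (∀ τ : Finset V, G.IsClique (τ : Set V) → σ ⊆ τ → τ.card + 1 = s + m → bs z τ = 0)
    · obtain ⟨h1, h2, h3, h4⟩ := hc
      obtain ⟨w, hw1, hw2⟩ := hS.acyclic σ h1 (s + m) (by omega) hs z h3 h4
      exact ⟨w, fun _ _ _ _ => ⟨hw1, hw2⟩⟩
    · refine ⟨0, fun h1 h2 h3 h4 => absurd ⟨h1, h2, h3, h4⟩ hc⟩
  choose W hW using hch
  let f : Finset V → Finset V → A → ZMod 2 := fun σ τ x =>
    if σ ⊆ τ ∧ τ ∈ cliq G ∧ τ.card = σ.card + (m + 1) ∧ σ.card = s then
      W σ (fun τ' => e σ τ' x) τ else 0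
  have hfdef : ∀ σ τ x, f σ τ x =
      if σ ⊆ τ ∧ τ ∈ cliq G ∧ τ.card = σ.card + (m + 1) ∧ σ.card = s then
      W σ (fun τ' => e σ τ' x) τ else 0 := fun _ _ _ => rfl
  have hf0 : ∀ σ τ, ¬ (σ ⊆ τ ∧ τ ∈ cliq G ∧ τ.card = σ.card + (m + 1) ∧ σ.card = s) →
      f σ τ = 0 := by
    intro σ τ hn
    funext x
    rw [hfdef, if_neg hn]
    rfl
  refine ⟨f, ⟨fun σ τ hn => hf0 σ τ fun hc => hn ⟨hc.1, hc.2.1, hc.2.2.1⟩, ?_⟩, ?_⟩
  · intro σ τ v hv x
    rw [hfdef, hfdef]
    have hz : (fun τ' => e σ τ' (x * a v)) = fun τ' => e σ τ' x := by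
      funext τ'
      exact he.2 σ τ' v hv x
    rw [hz]
  · intro σ τ hσ
    by_cases hlt : σ.card < s
    · rw [hlow σ τ hlt, zero_add]
      unfold DE
      split_ifs with hc
      · have h1 : ∑ v ∈ σ, eps a v (f (σ.erase v) τ) = 0 := by
          refine Finset.sum_eq_zero fun v hv => ?_
          have hc' : (σ.erase v).card ≤ σ.card := Finset.card_le_card (Finset.erase_subset v σ)
          rw [hf0 _ _ (fun hc => by have := hc.2.2.2; omega), eps_zero]
        have h2 : ∑ v ∈ Finset.univ \ τ, f σ (insert v τ) = 0 := by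
          refine Finset.sum_eq_zero fun v _ => hf0 _ _ (fun hc => by
            have := hc.2.2.2; omega)
        rw [h1, h2, add_zero]
      · rfl
    · have hs' : σ.card = s := by omega
      unfold DE
      by_cases hc : σ ⊆ τ ∧ τ ∈ cliq G
      · rw [if_pos hc]
        have hσc : σ ∈ cliq G := cliq_mono hc.1 hc.2
        have h1 : ∑ v ∈ σ, eps a v (f (σ.erase v) τ) = 0 := by
          refine Finset.sum_eq_zero fun v hv => ?_
          have hc' : (σ.erase v).card + 1 = σ.card := Finset.card_erase_add_one hv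
          rw [hf0 _ _ (fun hc => by have := hc.2.2.2; omega), eps_zero]
        rw [h1, zero_add]
        funext x
        rw [Pi.add_apply, Finset.sum_apply]
        obtain ⟨hw1, hw2⟩ := hW σ (fun τ' => e σ τ' x) hσc hs' (by
          intro τ' hτ'
          show e σ τ' x = 0
          rw [he.1 σ τ' (fun hc => hτ' hc.2.1)]
          rfl) (by
          intro τ' h1' h2' h3'
          exact DE_low a e hde s hlow σ hs' τ' h1' h2' x)
        by_cases hcard : τ.card = s + m
        · have h2 : ∑ v ∈ Finset.univ \ τ, f σ (insert v τ) x =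
              bs (W σ (fun τ' => e σ τ' x)) τ := by
            unfold bs
            refine Finset.sum_congr rfl fun v hv => ?_
            have hvτ : v ∉ τ := (Finset.mem_sdiff.1 hv).2
            rw [hfdef]
            by_cases hcl : insert v τ ∈ cliq G
            · rw [if_pos ⟨hc.1.trans (Finset.subset_insert v τ), hcl, by
                rw [Finset.card_insert_of_notMem hvτ, hcard, hs']; omega, hs'⟩]
            · rw [if_neg (fun hh => hcl hh.2.1), hw1 _ hcl]
          rw [h2, ← hw2 τ hc.2 hc.1 hcard]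
          exact CharTwo.add_self_eq_zero _
        · rw [he.1 σ τ (fun hh => hcard (by rw [hh.2.2, hs'])), Pi.zero_apply, zero_add]
          refine Finset.sum_eq_zero fun v hv => ?_
          have hvτ : v ∉ τ := (Finset.mem_sdiff.1 hv).2
          rw [hf0 _ _ (fun hh => hcard (by
            have h3 := hh.2.2.1
            rw [Finset.card_insert_of_notMem hvτ] at h3
            omega))]
          rfl
      · rw [if_neg hc, add_zero, he.1 σ τ (fun hh => hc ⟨hh.1, hh.2.1⟩)]

theorem kill (a : V → A) (h : OK a (cliq G)) (n : ℕ) (hS : HomSphere n G) (m : ℕ)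
    (e : Finset V → Finset V → A → ZMod 2) (he : IsE G a m e)
    (hde : DE G a e = 0) (s : ℕ) (hs : s + m ≤ n) :
    ∃ f, IsE G a (m + 1) f ∧ ∀ σ τ, σ.card < s → e σ τ + DE G a f σ τ = 0 := by
  induction s with
  | zero =>
    refine ⟨0, ⟨fun _ _ _ => rfl, fun σ τ => (InvF a σ).zero_mem⟩, fun σ τ hh => ?_⟩
    exact absurd hh (Nat.not_lt_zero _)
  | succ s ih =>
    obtain ⟨f, hf, hf2⟩ := ih (by omega)
    have he' : IsE G a m (e + DE G a f) := isE_add a m e _ he (DE_isE a h m f hf)
    have hde' : DE G a (e + DE G a f) = 0 := by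
      funext σ τ
      rw [DE_add, hde, DE_DE a h (m + 1) f hf]
      exact add_zero _
    obtain ⟨f', hf', hf2'⟩ := step a h n hS m s (by omega) (e + DE G a f) he' hde'
      (fun σ τ hh => hf2 σ τ hh)
    refine ⟨f + f', isE_add a (m + 1) f f' hf hf', fun σ τ hh => ?_⟩
    rw [DE_add, ← add_assoc]
    exact hf2' σ τ hh

end EDualBAux

open EDualBAux

theorem isE_embD (a : V → A) (n m : ℕ) (hm : m ≤ n) (g : Finset V → A → ZMod 2)
    (hg : g ∈ IC a (cliq G) (n - m)) : IsE G a m (embD G n g) := by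
  refine ⟨fun σ τ hn => ?_, fun σ τ => ?_⟩
  · unfold embD
    split_ifs with hc
    · refine hg.1 σ fun hh => hn ⟨hc.1, hc.2.1, ?_⟩
      rw [hc.2.2, hh.2]
      omega
    · rfl
  · unfold embD
    split_ifs with hc
    · exact fun v hv x => hg.2 σ v hv x
    · exact (InvF a σ).zero_mem

theorem DE_embD (a : V → A) (n : ℕ) (hS : HomSphere n G) (j : ℕ) (g : Finset V → A → ZMod 2)
    (hg : g ∈ IC a (cliq G) j) : DE G a (embD G n g) = embD G n (cobT G a g) := by
  classical
  funext σ τ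
  unfold DE
  by_cases hc : σ ⊆ τ ∧ τ ∈ cliq G
  · rw [if_pos hc]
    by_cases hn : τ.card = n
    · have h1 : ∑ v ∈ σ, eps a v (embD G n g (σ.erase v) τ) =
          ∑ v ∈ σ, eps a v (g (σ.erase v)) := by
        refine Finset.sum_congr rfl fun v _ => ?_
        unfold embD
        rw [if_pos ⟨(Finset.erase_subset v σ).trans hc.1, hc.2, hn⟩]
      have h2 : ∑ v ∈ Finset.univ \ τ, embD G n g σ (insert v τ) = 0 := by
        refine Finset.sum_eq_zero fun v hv => ?_
        have hvτ : v ∉ τ := (Finset.mem_sdiff.1 hv).2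
        unfold embD
        rw [if_neg]
        intro hh
        have := hh.2.2
        rw [Finset.card_insert_of_notMem hvτ] at this
        omega
      rw [h1, h2, add_zero]
      unfold embD
      rw [if_pos ⟨hc.1, hc.2, hn⟩]
      have hσc : σ ∈ cliq G := cliq_mono hc.1 hc.2
      show _ = if σ ∈ cliq G then ∑ v ∈ σ, eps a v (g (σ.erase v)) else 0
      rw [if_pos hσc]
    · have h1 : ∑ v ∈ σ, eps a v (embD G n g (σ.erase v) τ) = 0 := by
        refine Finset.sum_eq_zero fun v _ => ?_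
        unfold embD
        rw [if_neg (fun hh => hn hh.2.2), eps_zero]
      have h3 : embD G n (cobT G a g) σ τ = 0 := by
        unfold embD
        rw [if_neg (fun hh => hn hh.2.2)]
      rw [h1, zero_add, h3]
      by_cases hr : τ.card + 1 = n
      · have h2 : ∑ v ∈ Finset.univ \ τ, embD G n g σ (insert v τ) =
            ∑ v ∈ (Finset.univ \ τ).filter (fun v => insert v τ ∈ cliq G), g σ := by
          rw [Finset.sum_filter]
          refine Finset.sum_congr rfl fun v hv => ?_
          have hvτ : v ∉ τ := (Finset.mem_sdiff.1 hv).2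
          unfold embD
          by_cases hcl : insert v τ ∈ cliq G
          · rw [if_pos ⟨hc.1.trans (Finset.subset_insert v τ), hcl, by
              rw [Finset.card_insert_of_notMem hvτ]; exact hr⟩, if_pos hcl]
          · rw [if_neg (fun hh => hcl hh.2.1), if_neg hcl]
        have h4 := hS.ridge τ hc.2 hr
        have h5 : {v | v ∉ τ ∧ G.IsClique ((insert v τ : Finset V) : Set V)} =
            (((Finset.univ \ τ).filter (fun v => insert v τ ∈ cliq G) : Finset V) : Set V) := by
          ext v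
          simp [cliq]
        rw [h5, Set.ncard_coe_finset] at h4
        rw [h2, Finset.sum_const, h4, two_nsmul, EDualBAux.add_self]
      · refine Finset.sum_eq_zero fun v hv => ?_
        have hvτ : v ∉ τ := (Finset.mem_sdiff.1 hv).2
        unfold embD
        rw [if_neg]
        intro hh
        apply hr
        rw [← hh.2.2, Finset.card_insert_of_notMem hvτ]
  · rw [if_neg hc]
    unfold embD
    rw [if_neg (fun hh => hc ⟨hh.1, hh.2.1⟩)]

theorem dual_surj (a : V → A) (h : OK a (cliq G)) (n : ℕ) (hS : HomSphere n G) (m : ℕ)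
    (hm : m ≤ n) (e : Finset V → Finset V → A → ZMod 2) (he : IsE G a m e)
    (hde : DE G a e = 0) :
    ∃ g ∈ IC a (cliq G) (n - m), cobT G a g = 0 ∧
      ∃ f, IsE G a (m + 1) f ∧ ∀ σ τ, e σ τ = embD G n g σ τ + DE G a f σ τ := by
  classical
  obtain ⟨f, hf, hf2⟩ := kill a h n hS m e he hde (n - m) (by omega)
  obtain ⟨e', he'def⟩ : ∃ e', e' = e + DE G a f := ⟨_, rfl⟩
  have he' : IsE G a m e' := by
    rw [he'def]; exact isE_add a m e _ he (DE_isE a h m f hf)
  have hde' : DE G a e' = 0 := by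
    rw [he'def]
    funext σ τ
    rw [DE_add, hde, DE_DE a h (m + 1) f hf]
    exact add_zero _
  have hlow : ∀ σ τ, σ.card < n - m → e' σ τ = 0 := by
    intro σ τ hh
    rw [he'def]
    exact hf2 σ τ hh
  -- the facets give the same value
  have htop : ∀ σ τ τ', σ.card = n - m → σ ⊆ τ → σ ⊆ τ' → τ ∈ cliq G → τ' ∈ cliq G →
      τ.card = n → τ'.card = n → e' σ τ = e' σ τ' := by
    intro σ τ τ' h1 h2 h3 h4 h5 h6 h7
    funext x
    refine hS.top σ (cliq_mono h2 h4) (fun ρ => e' σ ρ x) ?_ ?_ τ τ' h4 h5 h2 h3 h6 h7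
    · intro ρ hρ
      show e' σ ρ x = 0
      rw [he'.1 σ ρ (fun hh => hρ hh.2.1)]
      rfl
    · intro ρ hρ hsub _
      exact DE_low a e' hde' (n - m) hlow σ h1 ρ hρ hsub x
  have hzero : ∀ σ τ, τ.card = n → σ.card ≠ n - m → e' σ τ = 0 := by
    intro σ τ h1 h2
    refine he'.1 σ τ fun hh => h2 ?_
    have := hh.2.2
    omega
  let g : Finset V → A → ZMod 2 := fun σ =>
    if hh : ∃ τ, σ ⊆ τ ∧ τ ∈ cliq G ∧ τ.card = n then e' σ (Classical.choose hh) else 0
  have hg : ∀ σ τ, σ ⊆ τ → τ ∈ cliq G → τ.card = n → e' σ τ = g σ := by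
    intro σ τ h1 h2 h3
    have hh : ∃ τ, σ ⊆ τ ∧ τ ∈ cliq G ∧ τ.card = n := ⟨τ, h1, h2, h3⟩
    show e' σ τ = if hh : ∃ τ, σ ⊆ τ ∧ τ ∈ cliq G ∧ τ.card = n then
      e' σ (Classical.choose hh) else 0
    rw [dif_pos hh]
    have hspec := Classical.choose_spec hh
    by_cases hcard : σ.card = n - m
    · exact htop σ _ _ hcard h1 hspec.1 h2 hspec.2.1 h3 hspec.2.2
    · rw [hzero σ _ h3 hcard, hzero σ _ hspec.2.2 hcard]
  have hg0 : ∀ σ, ¬ (σ ∈ cliq G ∧ σ.card = n - m) → g σ = 0 := by
    intro σ hn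
    show (if hh : ∃ τ, σ ⊆ τ ∧ τ ∈ cliq G ∧ τ.card = n then
      e' σ (Classical.choose hh) else 0) = 0
    split_ifs with hh
    · have hspec := Classical.choose_spec hh
      have hcl : σ ∈ cliq G := cliq_mono hspec.1 hspec.2.1
      exact hzero σ _ hspec.2.2 (fun hc => hn ⟨hcl, hc⟩)
    · rfl
  refine ⟨g, ⟨hg0, ?_⟩, ?_, f, hf, ?_⟩
  · intro σ v hv x
    show (if hh : ∃ τ, σ ⊆ τ ∧ τ ∈ cliq G ∧ τ.card = n then
      e' σ (Classical.choose hh) else 0) (x * a v) =
      (if hh : ∃ τ, σ ⊆ τ ∧ τ ∈ cliq G ∧ τ.card = n then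
      e' σ (Classical.choose hh) else 0) x
    split_ifs with hh
    · exact he'.2 σ _ v hv x
    · rfl
  · funext σ
    show (if σ ∈ cliq G then ∑ v ∈ σ, eps a v (g (σ.erase v)) else 0) = 0
    split_ifs with hσ
    · obtain ⟨τ, h1, h2, h3⟩ := exists_facet n hS σ hσ
      have h4 : DE G a e' σ τ = 0 := by rw [hde']; rfl
      unfold DE at h4
      rw [if_pos ⟨h1, h2⟩] at h4
      have h5 : ∑ v ∈ σ, eps a v (e' (σ.erase v) τ) = ∑ v ∈ σ, eps a v (g (σ.erase v)) := by
        refine Finset.sum_congr rfl fun v _ => ?_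
        rw [hg _ τ ((Finset.erase_subset v σ).trans h1) h2 h3]
      have h6 : ∑ v ∈ Finset.univ \ τ, e' σ (insert v τ) = 0 := by
        refine Finset.sum_eq_zero fun v hv => ?_
        have hvτ : v ∉ τ := (Finset.mem_sdiff.1 hv).2
        refine he'.1 σ _ fun hh => ?_
        have h7 := hS.dim _ hh.2.1
        rw [Finset.card_insert_of_notMem hvτ] at h7
        omega
      rw [h5, h6, add_zero] at h4
      exact h4
    · rfl
  · intro σ τ
    have hmain : e' σ τ = embD G n g σ τ := by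
      unfold embD
      split_ifs with hc
      · exact hg σ τ hc.1 hc.2.1 hc.2.2
      · by_cases hlt : σ.card < n - m
        · exact hlow σ τ hlt
        · refine he'.1 σ τ fun hh => hc ⟨hh.1, hh.2.1, ?_⟩
          have h7 := hS.dim _ hh.2.1
          have h8 := hh.2.2
          omega
    rw [← hmain, he'def]
    show e σ τ = e σ τ + DE G a f σ τ + DE G a f σ τ
    rw [add_assoc, EDualBAux.add_self, add_zero]

end SingerRA
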