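import Mathlib
import Pool.Agent.Lib_MP_394d50_gt.Defs3

/-! Piece ERK: the rank of the coboundary operator is the rank of the boundary operator. -/

namespace SingerRA

section Abstract

variable {K U : Type*} [Field K] [AddCommGroup U] [Module K U] [FiniteDimensional K U]

/-- Adjoint linear maps with respect to pairings which are nondegenerate on two subspaces have the
same rank. -/
theorem erk_rank (β : U →ₗ[K] U →ₗ[K] K) (M N : Submodule K U) (D C : U →ₗ[K] U)
    (hD : ∀ f ∈ N, D f ∈ M) (hC : ∀ g ∈ M, C g ∈ N)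
    (hadj : ∀ f ∈ N, ∀ g ∈ M, β (D f) g = β f (C g))
    (hM : ∀ g ∈ M, (∀ f ∈ M, β f g = 0) → g = 0)
    (hN : ∀ g ∈ N, (∀ f ∈ N, β f g = 0) → g = 0) :
    Module.finrank K (M.map C) = Module.finrank K (N.map D) := by
  let D' : N →ₗ[K] M := D.restrict hD
  let C' : M →ₗ[K] N := C.restrict hC
  let ΦM : M →ₗ[K] Module.Dual K M := (β.domRestrict₁₂ M M).flip
  let ΦN : N →ₗ[K] Module.Dual K N := (β.domRestrict₁₂ N N).flip
  have iM : Function.Injective ΦM := by
    rw [injective_iff_map_eq_zero]
    intro g hg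
    apply Subtype.ext
    apply hM g.1 g.2
    intro f hf
    have := LinearMap.congr_fun hg ⟨f, hf⟩
    exact this
  have iN : Function.Injective ΦN := by
    rw [injective_iff_map_eq_zero]
    intro g hg
    apply Subtype.ext
    apply hN g.1 g.2
    intro f hf
    have := LinearMap.congr_fun hg ⟨f, hf⟩
    exact this
  have sM : Function.Surjective ΦM :=
    (LinearMap.injective_iff_surjective_of_finrank_eq_finrank Subspace.dual_finrank_eq.symm).1 iM
  have hcomp : D'.dualMap ∘ₗ ΦM = ΦN ∘ₗ C' := by
    ext g f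
    exact hadj f.1 f.2 g.1 g.2
  have e1 : Module.finrank K (LinearMap.range C') = Module.finrank K (LinearMap.range D') := by
    rw [← LinearMap.finrank_range_dualMap_eq_finrank_range D',
      ← LinearMap.range_comp_of_range_eq_top D'.dualMap (LinearMap.range_eq_top.2 sM), hcomp,
      LinearMap.range_comp]
    exact (Submodule.equivMapOfInjective ΦN iN _).finrank_eq
  have e2 : ∀ (P Q : Submodule K U) (L : U →ₗ[K] U) (hL : ∀ x ∈ P, L x ∈ Q),
      Module.finrank K (LinearMap.range (L.restrict hL)) = Module.finrank K (P.map L) := by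
    intro P Q L hL
    have : (LinearMap.range (L.restrict hL)).map Q.subtype = P.map L := by
      ext x
      simp only [Submodule.mem_map, LinearMap.mem_range, Submodule.subtype_apply]
      constructor
      · rintro ⟨_, ⟨y, rfl⟩, rfl⟩
        exact ⟨y.1, y.2, rfl⟩
      · rintro ⟨y, hy, rfl⟩
        exact ⟨_, ⟨⟨y, hy⟩, rfl⟩, rfl⟩
    rw [← this]
    exact (Submodule.equivMapOfInjective Q.subtype Q.injective_subtype _).finrank_eq
  rw [← e2 M N C hC, ← e2 N M D hD]
  exact e1

end Abstract

variable {V : Type} [Fintype V] [DecidableEq V] {G : SimpleGraph V} {A : Type} [Group A]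
  [Finite A]

theorem erk_cobT_apply (a : V → A) (g : Finset V → A → ZMod 2) (σ : Finset V)
    (h : σ ∈ cliq G) (x : A) :
    cobT G a g σ x = ∑ v ∈ σ, (g (σ.erase v) x + g (σ.erase v) (x * a v)) := by
  classical
  have : cobT G a g σ = ∑ v ∈ σ, eps a v (g (σ.erase v)) := if_pos h
  rw [this, Finset.sum_apply]
  rfl

theorem erk_cobT_apply_not (a : V → A) (g : Finset V → A → ZMod 2) (σ : Finset V)
    (h : σ ∉ cliq G) : cobT G a g σ = 0 := by
  classical
  exact if_neg h

theorem cobT_mem (a : V → A) (h : OK a (cliq G)) (j : ℕ) (g : Finset V → A → ZMod 2)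
    (hg : g ∈ IC a (cliq G) j) : cobT G a g ∈ IC a (cliq G) (j + 1) := by
  obtain ⟨h1, h2⟩ := hg
  refine ⟨fun σ hσ => ?_, fun σ w hw x => ?_⟩
  · by_cases hT : σ ∈ cliq G
    · funext x
      rw [erk_cobT_apply a g σ hT]
      apply Finset.sum_eq_zero
      intro v hv
      have h3 : g (σ.erase v) = 0 := by
        apply h1
        rintro ⟨-, h4⟩
        have := Finset.card_erase_add_one hv
        exact hσ ⟨hT, by omega⟩
      rw [h3]
      simp
    · exact erk_cobT_apply_not a g σ hT
  · by_cases hT : σ ∈ cliq G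
    · rw [erk_cobT_apply a g σ hT, erk_cobT_apply a g σ hT]
      apply Finset.sum_congr rfl
      intro v hv
      by_cases hvw : v = w
      · subst hvw
        rw [mul_assoc, h.sq, mul_one, add_comm]
      · have hw' : w ∈ σ.erase v := Finset.mem_erase.2 ⟨Ne.symm hvw, hw⟩
        rw [h2 _ w hw' x, mul_assoc, h.comm σ hT w hw v hv, ← mul_assoc, h2 _ w hw' (x * a v)]
    · rw [erk_cobT_apply_not a g σ hT]
      rfl

theorem cobT_cobT (a : V → A) (h : OK a (cliq G)) (j : ℕ) (g : Finset V → A → ZMod 2)
    (hg : g ∈ IC a (cliq G) j) : cobT G a (cobT G a g) = 0 := by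
  funext σ
  by_cases hσ : σ ∈ cliq G
  swap
  · exact erk_cobT_apply_not a _ σ hσ
  funext x
  rw [erk_cobT_apply a _ σ hσ]
  have h1 : ∀ v ∈ σ, cobT G a g (σ.erase v) x + cobT G a g (σ.erase v) (x * a v) =
      ∑ w ∈ σ.erase v, (g ((σ.erase v).erase w) x + g ((σ.erase v).erase w) (x * a w) +
        (g ((σ.erase v).erase w) (x * a v) + g ((σ.erase v).erase w) (x * a v * a w))) := by
    intro v hv
    have h3 : σ.erase v ∈ cliq G := by
      intro p hp q hq hpq
      exact hσ (Finset.mem_of_mem_erase hp) (Finset.mem_of_mem_erase hq) hpq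
    rw [erk_cobT_apply a g _ h3, erk_cobT_apply a g _ h3, ← Finset.sum_add_distrib]
  rw [Finset.sum_congr rfl h1, Finset.sum_sigma']
  rw [Pi.zero_apply, Pi.zero_apply]
  refine Finset.sum_involution (fun p _ => ⟨p.2, p.1⟩) ?_ ?_ ?_ ?_
  · rintro ⟨v, w⟩ hp
    simp only [Finset.mem_sigma, Finset.mem_erase] at hp
    dsimp only
    rw [Finset.erase_right_comm (a := w) (b := v), mul_assoc x (a v), mul_assoc x (a w),
      h.comm σ hσ w hp.2.2 v hp.1]
    generalize g ((σ.erase v).erase w) x = p
    generalize g ((σ.erase v).erase w) (x * a w) = q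
    generalize g ((σ.erase v).erase w) (x * a v) = r
    generalize g ((σ.erase v).erase w) (x * (a v * a w)) = s
    revert p q r s
    decide
  · rintro ⟨v, w⟩ hp _ heq
    simp only [Finset.mem_sigma, Finset.mem_erase] at hp
    simp only [Sigma.mk.injEq] at heq
    exact hp.2.1 heq.1
  · rintro ⟨v, w⟩ hp
    simp only [Finset.mem_sigma, Finset.mem_erase] at hp ⊢
    exact ⟨hp.2.2, fun h => hp.2.1 h.symm, hp.1⟩
  · rintro ⟨v, w⟩ _
    rfl

omit [Finite A] [Group A] in
theorem erk_flip (F : Finset V → V → ZMod 2) :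
    ∑ τ : Finset V, ∑ v ∈ Finset.univ \ τ, F (insert v τ) v = ∑ σ : Finset V, ∑ v ∈ σ, F σ v := by
  rw [Finset.sum_sigma', Finset.sum_sigma']
  refine Finset.sum_bij' (fun p _ => (⟨insert p.2 p.1, p.2⟩ : (_ : Finset V) × V))
    (fun p _ => (⟨p.1.erase p.2, p.2⟩ : (_ : Finset V) × V)) ?_ ?_ ?_ ?_ ?_
  · rintro ⟨τ, v⟩ hp
    simp only [Finset.mem_sigma, Finset.mem_univ, true_and]
    exact Finset.mem_insert_self _ _
  · rintro ⟨σ, v⟩ hp
    simp only [Finset.mem_sigma, Finset.mem_univ, true_and, Finset.mem_sdiff]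
    exact Finset.notMem_erase _ _
  · rintro ⟨τ, v⟩ hp
    simp only [Finset.mem_sigma, Finset.mem_univ, true_and, Finset.mem_sdiff] at hp
    simp only [Finset.erase_insert hp]
  · rintro ⟨σ, v⟩ hp
    simp only [Finset.mem_sigma, Finset.mem_univ, true_and] at hp
    simp only [Finset.insert_erase hp]
  · rintro ⟨τ, v⟩ _
    rfl

section Pairing

variable (l : A →* Multiplicative (V → ZMod 2))

/-- The labels of `x` vanish on `σ`. -/
def ErkX (σ : Finset V) (x : A) : Prop := ∀ v ∈ σ, (l x).toAdd v = 0

theorem erk_lab_mul (a : V → A) (σ : Finset V)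
    (hl : ∀ v ∈ σ, ∀ u, (l (a v)).toAdd u = if u = v then 1 else 0) (v : V) (hv : v ∈ σ) (u : V)
    (x : A) : (l (x * a v)).toAdd u = (l x).toAdd u + if u = v then 1 else 0 := by
  rw [map_mul, toAdd_mul, Pi.add_apply, hl v hv]

theorem erk_uniq (a : V → A) (σ : Finset V)
    (hl : ∀ v ∈ σ, ∀ u, (l (a v)).toAdd u = if u = v then 1 else 0)
    (ρ : Finset V) : ρ ⊆ σ → ∀ f : A → ZMod 2, (∀ v ∈ ρ, ∀ x, f (x * a v) = f x) →
      (∀ x, ErkX l ρ x → f x = 0) → f = 0 := by
  induction ρ using Finset.induction_on with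
  | empty =>
    intro _ f _ h
    funext x
    exact h x (fun v hv => absurd hv (Finset.notMem_empty v))
  | insert v ρ hv ih =>
    intro hsub f h1 h2
    have hvσ : v ∈ σ := hsub (Finset.mem_insert_self _ _)
    apply ih (fun x hx => hsub (Finset.mem_insert_of_mem hx)) f
      (fun w hw => h1 w (Finset.mem_insert_of_mem hw))
    intro x hx
    by_cases h : (l x).toAdd v = 0
    · apply h2
      intro w hw
      rcases Finset.mem_insert.1 hw with rfl | hw
      · exact h
      · exact hx w hw
    · rw [← h1 v (Finset.mem_insert_self _ _)]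
      apply h2
      intro w hw
      rw [erk_lab_mul l a σ hl v hvσ w x]
      rcases Finset.mem_insert.1 hw with rfl | hw
      · rw [if_pos rfl, AInvAux.zmod2_ne_zero h]
        decide
      · have hne : w ≠ v := fun e => hv (e ▸ hw)
        rw [if_neg hne, add_zero]
        exact hx w hw

theorem erk_ext (a : V → A) (σ : Finset V) (hsq : ∀ v, a v * a v = 1)
    (hcomm : ∀ u ∈ σ, ∀ v ∈ σ, a u * a v = a v * a u)
    (hl : ∀ v ∈ σ, ∀ u, (l (a v)).toAdd u = if u = v then 1 else 0) (f : A → ZMod 2)
    (ρ : Finset V) : ρ ⊆ σ → ∃ g : A → ZMod 2, (∀ v ∈ ρ, ∀ x, g (x * a v) = g x) ∧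
      (∀ x, ErkX l ρ x → g x = f x) := by
  induction ρ using Finset.induction_on with
  | empty =>
    intro _
    exact ⟨f, fun v hv => absurd hv (Finset.notMem_empty v), fun _ _ => rfl⟩
  | insert v ρ hv ih =>
    intro hsub
    have hvσ : v ∈ σ := hsub (Finset.mem_insert_self _ _)
    obtain ⟨g', hg1, hg2⟩ := ih (fun x hx => hsub (Finset.mem_insert_of_mem hx))
    have hself : ∀ x, (l (x * a v)).toAdd v = (l x).toAdd v + 1 := by
      intro x
      rw [erk_lab_mul l a σ hl v hvσ v x, if_pos rfl]
    have hoth : ∀ w ∈ ρ, ∀ x, (l (x * a w)).toAdd v = (l x).toAdd v := by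
      intro w hw x
      have hne : v ≠ w := fun h => hv (h ▸ hw)
      rw [erk_lab_mul l a σ hl w (hsub (Finset.mem_insert_of_mem hw)) v x, if_neg hne, add_zero]
    have h11 : (1 : ZMod 2) + 1 = 0 := by decide
    have h10 : (1 : ZMod 2) ≠ 0 := by decide
    have hsq2 : ∀ x, x * a v * a v = x := by
      intro x; rw [mul_assoc, hsq, mul_one]
    refine ⟨fun x => if (l x).toAdd v = 0 then g' x else g' (x * a v), ?_, ?_⟩
    · intro w hw x
      rcases Finset.mem_insert.1 hw with rfl | hw
      · by_cases h : (l x).toAdd w = 0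
        · simp only [hself, h, if_true, zero_add, h10, if_false, hsq2]
        · have h1 := AInvAux.zmod2_ne_zero h
          simp only [hself, h1, h11, if_true, h10, if_false]
      · simp only [hoth w hw]
        have hc2 : x * a w * a v = x * a v * a w := by
          rw [mul_assoc, hcomm w (hsub (Finset.mem_insert_of_mem hw)) v hvσ, ← mul_assoc]
        rw [hc2, hg1 w hw, hg1 w hw]
    · intro x hx
      have h0 : (l x).toAdd v = 0 := hx v (Finset.mem_insert_self _ _)
      simp only [h0, if_true]
      exact hg2 x (fun w hw => hx w (Finset.mem_insert_of_mem hw))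

open scoped Classical in
/-- The pairing. -/
noncomputable def erkB [Fintype A] : (Finset V → A → ZMod 2) →ₗ[ZMod 2]
    (Finset V → A → ZMod 2) →ₗ[ZMod 2] ZMod 2 :=
  LinearMap.mk₂ (ZMod 2) (fun f g => ∑ σ : Finset V, ∑ x : A,
    if ErkX l σ x then f σ x * g σ x else 0)
    (by
      intro f f' g
      rw [← Finset.sum_add_distrib]
      refine Finset.sum_congr rfl fun σ _ => ?_
      rw [← Finset.sum_add_distrib]
      refine Finset.sum_congr rfl fun x _ => ?_
      split_ifs
      · simp only [Pi.add_apply]; ring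
      · ring)
    (by
      intro c f g
      rw [smul_eq_mul, Finset.mul_sum]
      refine Finset.sum_congr rfl fun σ _ => ?_
      rw [Finset.mul_sum]
      refine Finset.sum_congr rfl fun x _ => ?_
      split_ifs
      · simp only [Pi.smul_apply, smul_eq_mul]; ring
      · ring)
    (by
      intro f g g'
      rw [← Finset.sum_add_distrib]
      refine Finset.sum_congr rfl fun σ _ => ?_
      rw [← Finset.sum_add_distrib]
      refine Finset.sum_congr rfl fun x _ => ?_
      split_ifs
      · simp only [Pi.add_apply]; ring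
      · ring)
    (by
      intro c f g
      rw [smul_eq_mul, Finset.mul_sum]
      refine Finset.sum_congr rfl fun σ _ => ?_
      rw [Finset.mul_sum]
      refine Finset.sum_congr rfl fun x _ => ?_
      split_ifs
      · simp only [Pi.smul_apply, smul_eq_mul]; ring
      · ring)

open scoped Classical in
theorem erkB_apply [Fintype A] (f g : Finset V → A → ZMod 2) :
    erkB l f g = ∑ σ : Finset V, ∑ x : A, if ErkX l σ x then f σ x * g σ x else 0 := rfl

theorem erk_nondeg [Fintype A] (a : V → A) (h : OK a (cliq G))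
    (hl : ∀ σ ∈ cliq G, ∀ v ∈ σ, ∀ u, (l (a v)).toAdd u = if u = v then 1 else 0) (j : ℕ)
    (g : Finset V → A → ZMod 2) (hg : g ∈ IC a (cliq G) j)
    (hz : ∀ f ∈ IC a (cliq G) j, erkB l f g = 0) : g = 0 := by
  classical
  funext σ
  by_cases hσ : σ ∈ cliq G ∧ σ.card = j
  swap
  · exact hg.1 σ hσ
  apply erk_uniq l a σ (hl σ hσ.1) σ subset_rfl (g σ) (hg.2 σ)
  intro x hx
  obtain ⟨f, hf1, hf2⟩ := erk_ext l a σ h.sq (h.comm σ hσ.1) (hl σ hσ.1)
    (fun y => if y = x then 1 else 0) σ subset_rfl
  have h1 := hz (fun τ => if τ = σ then f else 0) (by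
    refine ⟨fun τ hτ => ?_, fun τ v hv y => ?_⟩
    · have : τ ≠ σ := by
        rintro rfl
        exact hτ hσ
      simp only [if_neg this]
    · by_cases hτ : τ = σ
      · subst hτ
        simp only [if_true]
        exact hf1 v hv y
      · simp only [if_neg hτ]
        rfl)
  rw [erkB_apply, Finset.sum_eq_single σ] at h1
  · rw [Finset.sum_eq_single x] at h1
    · simp only [if_pos hx, if_true, hf2 x hx, one_mul] at h1
      exact h1
    · intro y _ hy
      by_cases h2 : ErkX l σ y
      · simp only [if_pos h2, if_true, hf2 y h2, if_neg hy, zero_mul]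
      · exact if_neg h2
    · intro h2
      exact absurd (Finset.mem_univ x) h2
  · intro τ _ hτ
    apply Finset.sum_eq_zero
    intro y _
    simp only [if_neg hτ, Pi.zero_apply, zero_mul, ite_self]
  · intro h2
    exact absurd (Finset.mem_univ σ) h2

theorem erk_adj [Fintype A] (a : V → A) (h : OK a (cliq G))
    (hl : ∀ σ ∈ cliq G, ∀ v ∈ σ, ∀ u, (l (a v)).toAdd u = if u = v then 1 else 0) (j : ℕ)
    (f : Finset V → A → ZMod 2) (hf : f ∈ IC a (cliq G) (j + 1))
    (g : Finset V → A → ZMod 2) (hg : g ∈ IC a (cliq G) j) :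
    erkB l (dT A (cliq G) f) g = erkB l f (cobT G a g) := by
  classical
  rw [erkB_apply, erkB_apply]
  -- the right side
  have hR : ∀ σ : Finset V, (∑ x : A, if ErkX l σ x then f σ x * cobT G a g σ x else 0) =
      ∑ v ∈ σ, ∑ x : A, if ErkX l (σ.erase v) x then f σ x * g (σ.erase v) x else 0 := by
    intro σ
    by_cases hσ : σ ∈ cliq G
    swap
    · have h0 : f σ = 0 := hf.1 σ (fun h' => hσ h'.1)
      rw [h0]
      simp
    rw [Finset.sum_comm]
    have e1 : ∀ x : A, (if ErkX l σ x then f σ x * cobT G a g σ x else 0) =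
        ∑ v ∈ σ, if ErkX l σ x then f σ x * (g (σ.erase v) x + g (σ.erase v) (x * a v)) else 0 := by
      intro x
      rw [erk_cobT_apply a g σ hσ]
      split_ifs
      · rw [Finset.mul_sum]
      · simp
    rw [Finset.sum_congr rfl (fun x _ => e1 x), Finset.sum_comm, Finset.sum_comm (s := Finset.univ)]
    refine Finset.sum_congr rfl fun v hv => ?_
    -- one vertex
    set F : A → ZMod 2 := fun x => f σ x * g (σ.erase v) x with hF
    have e2 : (∑ x : A, if ErkX l (σ.erase v) x then F x else 0) =
        (∑ x : A, if ErkX l σ x then F x else 0) +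
        ∑ x : A, if (ErkX l (σ.erase v) x ∧ (l x).toAdd v ≠ 0) then F x else 0 := by
      rw [← Finset.sum_add_distrib]
      refine Finset.sum_congr rfl fun x _ => ?_
      by_cases h1 : ErkX l (σ.erase v) x
      · by_cases h2 : (l x).toAdd v = 0
        · have h3 : ErkX l σ x := by
            intro w hw
            by_cases hwv : w = v
            · rw [hwv]; exact h2
            · exact h1 w (Finset.mem_erase.2 ⟨hwv, hw⟩)
          rw [if_pos h1, if_pos h3, if_neg (fun h' => h'.2 h2), add_zero]
        · have h3 : ¬ ErkX l σ x := fun h' => h2 (h' v hv)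
          rw [if_pos h1, if_neg h3, if_pos ⟨h1, h2⟩, zero_add]
      · have h3 : ¬ ErkX l σ x := fun h' => h1 (fun w hw => h' w (Finset.mem_of_mem_erase hw))
        rw [if_neg h1, if_neg h3, if_neg (fun h' => h1 h'.1), add_zero]
    have e3 : (∑ x : A, if (ErkX l (σ.erase v) x ∧ (l x).toAdd v ≠ 0) then F x else 0) =
        ∑ x : A, if ErkX l σ x then F (x * a v) else 0 := by
      rw [← Equiv.sum_comp (Equiv.mulRight (a v))]
      refine Finset.sum_congr rfl fun x _ => ?_
      have hlm := erk_lab_mul l a σ (hl σ hσ) v hv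
      have h4 : (ErkX l (σ.erase v) (x * a v) ∧ (l (x * a v)).toAdd v ≠ 0) ↔ ErkX l σ x := by
        constructor
        · rintro ⟨h5, h6⟩ w hw
          by_cases hwv : w = v
          · subst hwv
            rw [hlm w x, if_pos rfl] at h6
            revert h6
            generalize (l x).toAdd w = t
            revert t
            decide
          · have := h5 w (Finset.mem_erase.2 ⟨hwv, hw⟩)
            rw [hlm w x, if_neg hwv, add_zero] at this
            exact this
        · intro h5
          constructor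
          · intro w hw
            rw [hlm w x, if_neg (Finset.ne_of_mem_erase hw), add_zero]
            exact h5 w (Finset.mem_of_mem_erase hw)
          · rw [hlm v x, if_pos rfl, h5 v hv]
            decide
      simp only [Equiv.coe_mulRight]
      by_cases h5 : ErkX l σ x
      · rw [if_pos h5, if_pos (h4.2 h5)]
      · rw [if_neg h5, if_neg (fun h' => h5 (h4.1 h'))]
    rw [e2, e3, ← Finset.sum_add_distrib]
    refine Finset.sum_congr rfl fun x _ => ?_
    split_ifs
    · rw [hF]
      simp only
      rw [hf.2 σ v hv x]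
      ring
    · ring
  have hL : ∀ τ : Finset V, (∑ x : A, if ErkX l τ x then dT A (cliq G) f τ x * g τ x else 0) =
      ∑ v ∈ Finset.univ \ τ, ∑ x : A, if ErkX l τ x then f (insert v τ) x * g τ x else 0 := by
    intro τ
    by_cases hτ : τ ∈ cliq G
    · have e0 : dT A (cliq G) f τ = ∑ v ∈ Finset.univ \ τ, f (insert v τ) := if_pos hτ
      rw [e0, Finset.sum_comm]
      refine Finset.sum_congr rfl fun x _ => ?_
      rw [Finset.sum_apply]
      split_ifs
      · rw [Finset.sum_mul]
      · simp
    · have h0 : g τ = 0 := hg.1 τ (fun h' => hτ h'.1)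
      rw [h0]
      simp
  rw [Finset.sum_congr rfl (fun σ _ => hR σ), Finset.sum_congr rfl (fun τ _ => hL τ),
    ← erk_flip (fun σ v => ∑ x : A, if ErkX l (σ.erase v) x then f σ x * g (σ.erase v) x else 0)]
  refine Finset.sum_congr rfl fun τ _ => Finset.sum_congr rfl fun v hv => ?_
  have hv' : v ∉ τ := (Finset.mem_sdiff.1 hv).2
  simp only [Finset.erase_insert hv']

end Pairing

theorem erk_dT_mem (a : V → A) (T : Set (Finset V)) (k : ℕ) (c : Finset V → A → ZMod 2)
    (hc : c ∈ IC a T (k + 1)) : dT A T c ∈ IC a T k := by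
  classical
  obtain ⟨h1, h2⟩ := hc
  refine ⟨fun τ hτ => ?_, fun τ v hv x => ?_⟩
  · by_cases hT : τ ∈ T
    · have e0 : dT A T c τ = ∑ v ∈ Finset.univ \ τ, c (insert v τ) := if_pos hT
      rw [e0]
      apply Finset.sum_eq_zero
      intro v hv
      apply h1
      rintro ⟨-, h4⟩
      rw [Finset.card_insert_of_notMem (by simpa using hv)] at h4
      exact hτ ⟨hT, by omega⟩
    · exact if_neg hT
  · by_cases hT : τ ∈ T
    · have e0 : dT A T c τ = ∑ v ∈ Finset.univ \ τ, c (insert v τ) := if_pos hT
      rw [e0, Finset.sum_apply, Finset.sum_apply]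
      apply Finset.sum_congr rfl
      intro u _
      exact h2 _ v (Finset.mem_insert_of_mem hv) x
    · have e0 : dT A T c τ = 0 := if_neg hT
      rw [e0]
      rfl

theorem finrank_cobT (a : V → A) (h : OK a (cliq G)) (j : ℕ) :
    (Module.finrank (ZMod 2) ((IC a (cliq G) j).map (cobT G a)) : ℤ) = rk a (cliq G) (j + 1) := by
  let _ : Fintype A := Fintype.ofFinite A
  obtain ⟨l, hl⟩ := h.lab
  unfold rk
  congr 1
  exact erk_rank (erkB l) (IC a (cliq G) j) (IC a (cliq G) (j + 1)) (dT A (cliq G)) (cobT G a)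
    (fun f hf => erk_dT_mem a (cliq G) j f hf) (fun g hg => cobT_mem a h j g hg)
    (fun f hf g hg => erk_adj l a h hl j f hf g hg)
    (fun g hg hz => erk_nondeg l a h hl j g hg hz)
    (fun g hg hz => erk_nondeg l a h hl (j + 1) g hg hz)

end SingerRA
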