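import Mathlib
import Pool.Agent.Lib_MP_394d50_gt.Defs3
import Pool.Agent.Lib_MP_394d50_gt.AOne
import Pool.Agent.Lib_MP_394d50_gt.EDualA
import Pool.Agent.Lib_MP_394d50_gt.EDualB
import Pool.Agent.Lib_MP_394d50_gt.ERk

/-! Piece EDUAL: Poincaré duality for the `F₂`-Betti numbers of a marked group. -/

namespace SingerRA

section Abstract

variable {K U W : Type*} [Field K] [AddCommGroup U] [Module K U] [FiniteDimensional K U]
  [AddCommGroup W] [Module K W] [FiniteDimensional K W]

/-- The dimension count for a linear relation. -/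
theorem edual_rel (Z B : Submodule K U) (Z' B' : Submodule K W) (hB' : B' ≤ Z')
    (R : Submodule K (U × W)) (hsurj : ∀ c ∈ Z, ∃ g ∈ Z', (c, g) ∈ R)
    (hinj : ∀ c ∈ Z, ∀ g ∈ B', (c, g) ∈ R → c ∈ B) :
    Module.finrank K Z + Module.finrank K B' ≤ Module.finrank K Z' + Module.finrank K B := by
  have hsurj' : ∀ c : Z, ∃ g : Z', ((c : U), (g : W)) ∈ R := by
    intro c
    obtain ⟨g, hg, h⟩ := hsurj c.1 c.2
    exact ⟨⟨g, hg⟩, h⟩
  choose s0 hs0 using hsurj'
  let b := Module.finBasis K Z
  let s : Z →ₗ[K] Z' := b.constr K (fun i => s0 (b i))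
  have hs : ∀ c : Z, ((c : U), (s c : W)) ∈ R := by
    intro c
    have e1 : c = ∑ i, b.repr c i • b i := (b.sum_repr c).symm
    have e2 : s c = ∑ i, b.repr c i • s0 (b i) := by
      have : s c = s (∑ i, b.repr c i • b i) := by rw [← e1]
      rw [this, map_sum]
      refine Finset.sum_congr rfl fun i _ => ?_
      rw [map_smul, Module.Basis.constr_basis]
    have e3 : ((c : U), (s c : W)) = ∑ i, b.repr c i • ((b i : U), (s0 (b i) : W)) := by
      apply Prod.ext
      · rw [Prod.fst_sum]
        have := congrArg (Submodule.subtype Z) e1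
        rw [map_sum] at this
        exact this
      · rw [Prod.snd_sum]
        have := congrArg (Submodule.subtype Z') e2
        rw [map_sum] at this
        exact this
    rw [e3]
    exact Submodule.sum_mem _ fun i _ => Submodule.smul_mem _ _ (hs0 _)
  let B1 : Submodule K Z' := B'.comap Z'.subtype
  let q : Z →ₗ[K] Z' ⧸ B1 := B1.mkQ ∘ₗ s
  have h1 := LinearMap.finrank_range_add_finrank_ker q
  have h2 : Module.finrank K (LinearMap.range q) ≤ Module.finrank K (Z' ⧸ B1) :=
    Submodule.finrank_le _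
  have h3 := Submodule.finrank_quotient_add_finrank B1
  have h4 : Module.finrank K B1 = Module.finrank K B' :=
    (Submodule.comapSubtypeEquivOfLe hB').finrank_eq
  have h5 : Module.finrank K (LinearMap.ker q) ≤ Module.finrank K B := by
    have e : (LinearMap.ker q).map Z.subtype ≤ B := by
      rintro _ ⟨c, hc, rfl⟩
      have hc' : s c ∈ B1 := by
        have : B1.mkQ (s c) = 0 := hc
        exact (Submodule.Quotient.mk_eq_zero B1).1 this
      exact hinj c.1 c.2 (s c).1 hc' (hs c)
    have h6 := Submodule.finrank_mono e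
    rwa [← (Submodule.equivMapOfInjective Z.subtype Z.injective_subtype _).finrank_eq] at h6
  omega

end Abstract

variable {V : Type} [Fintype V] [DecidableEq V] {G : SimpleGraph V} {A : Type} [Group A]
  [Finite A]

omit [Fintype V] [DecidableEq V] [Finite A] in
theorem edual_eps_add (a : V → A) (v : V) (f g : A → ZMod 2) :
    eps a v (f + g) = eps a v f + eps a v g := by
  funext x
  simp only [eps, Pi.add_apply]
  ring

omit [Fintype V] [DecidableEq V] [Finite A] in
theorem edual_eps_zero (a : V → A) (v : V) : eps a v (0 : A → ZMod 2) = 0 := by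
  funext x
  simp [eps]

omit [Finite A] in
theorem edual_DE_add (a : V → A) (f g : Finset V → Finset V → A → ZMod 2) :
    DE G a (f + g) = DE G a f + DE G a g := by
  classical
  funext σ τ
  by_cases h : σ ⊆ τ ∧ τ ∈ cliq G
  · have e1 : ∀ e : Finset V → Finset V → A → ZMod 2, DE G a e σ τ =
        ∑ v ∈ σ, eps a v (e (σ.erase v) τ) + ∑ v ∈ Finset.univ \ τ, e σ (insert v τ) :=
      fun e => if_pos h
    rw [Pi.add_apply, Pi.add_apply, e1, e1, e1]
    simp only [Pi.add_apply, edual_eps_add, Finset.sum_add_distrib]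
    abel
  · have e1 : ∀ e : Finset V → Finset V → A → ZMod 2, DE G a e σ τ = 0 := fun e => if_neg h
    rw [Pi.add_apply, Pi.add_apply, e1, e1, e1, add_zero]

omit [Finite A] in
theorem edual_DE_zero (a : V → A) :
    DE G a (0 : Finset V → Finset V → A → ZMod 2) = 0 := by
  have h := edual_DE_add (G := G) a (0 : Finset V → Finset V → A → ZMod 2) 0
  rw [add_zero] at h
  exact left_eq_add.1 h

omit [Fintype V] [Finite A] in
theorem edual_isE_add (a : V → A) (m : ℕ) (f g : Finset V → Finset V → A → ZMod 2)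
    (hf : IsE G a m f) (hg : IsE G a m g) : IsE G a m (f + g) := by
  refine ⟨fun σ τ h => ?_, fun σ τ => ?_⟩
  · rw [Pi.add_apply, Pi.add_apply, hf.1 σ τ h, hg.1 σ τ h, add_zero]
  · exact Submodule.add_mem _ (hf.2 σ τ) (hg.2 σ τ)

omit [Fintype V] [Finite A] in
theorem edual_isE_zero (a : V → A) (m : ℕ) :
    IsE G a m (0 : Finset V → Finset V → A → ZMod 2) :=
  ⟨fun _ _ _ => rfl, fun _ _ => Submodule.zero_mem _⟩

omit [Finite A] in
theorem edual_embD_add (n : ℕ) (f g : Finset V → A → ZMod 2) :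
    embD G n (f + g) = embD G n f + embD G n g := by
  classical
  funext σ τ
  unfold embD
  simp only [Pi.add_apply]
  split_ifs
  · rfl
  · rw [add_zero]

omit [Finite A] in
theorem edual_embD_zero (n : ℕ) :
    embD G n (0 : Finset V → A → ZMod 2) = 0 := by
  classical
  funext σ τ
  unfold embD
  simp only [Pi.zero_apply, ite_self]

/-- The chain of the fine subdivision of a chain. -/
def edualE (c : Finset V → A → ZMod 2) (σ τ : Finset V) : A → ZMod 2 := if σ = ∅ then c τ else 0

omit [Fintype V] [Finite A] [Group A] in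
theorem edualE_add (c d : Finset V → A → ZMod 2) :
    edualE (c + d) = edualE c + edualE d := by
  funext σ τ
  simp only [edualE, Pi.add_apply]
  split_ifs
  · rfl
  · rw [add_zero]

omit [Fintype V] [Finite A] in
theorem edualE_isE (a : V → A) (m : ℕ) (c : Finset V → A → ZMod 2)
    (hc : c ∈ IC a (cliq G) m) : IsE G a m (edualE c) := by
  refine ⟨fun σ τ h => ?_, fun σ τ => ?_⟩
  · by_cases hσ : σ = ∅
    · subst hσ
      rw [edualE, if_pos rfl]
      apply hc.1
      rintro ⟨h1, h2⟩
      exact h ⟨Finset.empty_subset _, h1, by rw [Finset.card_empty]; omega⟩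
    · rw [edualE, if_neg hσ]
  · by_cases hσ : σ = ∅
    · subst hσ
      intro v hv
      exact absurd hv (Finset.notMem_empty v)
    · rw [edualE, if_neg hσ]
      exact Submodule.zero_mem _

omit [Finite A] in
theorem edualE_DE (a : V → A) (m : ℕ) (c : Finset V → A → ZMod 2)
    (hc : c ∈ IC a (cliq G) m) (hd : dT A (cliq G) c = 0) : DE G a (edualE c) = 0 := by
  classical
  funext σ τ
  by_cases h : σ ⊆ τ ∧ τ ∈ cliq G
  swap
  · exact if_neg h
  have e1 : DE G a (edualE c) σ τ = ∑ v ∈ σ, eps a v (edualE c (σ.erase v) τ) +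
      ∑ v ∈ Finset.univ \ τ, edualE c σ (insert v τ) := if_pos h
  have e2 : ∑ v ∈ σ, eps a v (edualE c (σ.erase v) τ) = 0 := by
    apply Finset.sum_eq_zero
    intro v hv
    by_cases h1 : σ.erase v = ∅
    · funext x
      rw [edualE, if_pos h1]
      have := hc.2 τ v (h.1 hv) x
      simp only [eps, this, Pi.zero_apply]
      exact CharTwo.add_self_eq_zero _
    · rw [edualE, if_neg h1]
      exact edual_eps_zero a v
  have e3 : ∑ v ∈ Finset.univ \ τ, edualE c σ (insert v τ) = 0 := by
    by_cases h1 : σ = ∅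
    · subst h1
      have h2 : dT A (cliq G) c τ = ∑ v ∈ Finset.univ \ τ, c (insert v τ) := if_pos h.2
      rw [hd] at h2
      simp only [edualE, if_true]
      rw [← h2]
      rfl
    · apply Finset.sum_eq_zero
      intro v _
      rw [edualE, if_neg h1]
  rw [e1, e2, e3, add_zero]
  rfl

/-- The relation between the chains and the cochains of the dual complex. -/
def edualR (G : SimpleGraph V) (a : V → A) (n m : ℕ) :
    Submodule (ZMod 2) ((Finset V → A → ZMod 2) × (Finset V → A → ZMod 2)) where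
  carrier := {p | ∃ f, IsE G a (m + 1) f ∧ edualE p.1 = embD G n p.2 + DE G a f}
  add_mem' := by
    rintro ⟨c, g⟩ ⟨c', g'⟩ ⟨f, hf, h⟩ ⟨f', hf', h'⟩
    refine ⟨f + f', edual_isE_add a (m + 1) f f' hf hf', ?_⟩
    dsimp only at h h'
    change edualE (c + c') = embD G n (g + g') + DE G a (f + f')
    rw [edualE_add, edual_embD_add, edual_DE_add, h, h']
    abel
  zero_mem' := by
    refine ⟨0, edual_isE_zero a (m + 1), ?_⟩
    rw [edual_DE_zero, add_zero]
    dsimp only [Prod.fst_zero, Prod.snd_zero]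
    rw [edual_embD_zero]
    funext σ τ
    simp [edualE]
  smul_mem' := by
    rintro r ⟨c, g⟩ ⟨f, hf, h⟩
    have hr : r = 0 ∨ r = 1 := by revert r; decide
    rcases hr with rfl | rfl
    · refine ⟨0, edual_isE_zero a (m + 1), ?_⟩
      rw [edual_DE_zero, add_zero, zero_smul]
      dsimp only [Prod.fst_zero, Prod.snd_zero]
      rw [edual_embD_zero]
      funext σ τ
      simp [edualE]
    · rw [one_smul]
      exact ⟨f, hf, h⟩

theorem bettiF_dual (a : V → A) (h : OK a (cliq G)) (n : ℕ) (hS : HomSphere n G) (m : ℕ)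
    (hm : m ≤ n) : bettiF a (cliq G) m ≤ bettiF a (cliq G) (n - m) := by
  have _ := Fintype.ofFinite A
  have d1 := aone_rk_add a (cliq G) m
  have d2 := aone_finrank_map_add_inf (cobT G a) (IC a (cliq G) (n - m))
  have d3 := finrank_cobT a h (n - m)
  have hsurj : ∀ c ∈ IC a (cliq G) m ⊓ LinearMap.ker (dT A (cliq G)),
      ∃ g ∈ IC a (cliq G) (n - m) ⊓ LinearMap.ker (cobT G a), (c, g) ∈ edualR G a n m := by
    rintro c ⟨hc, hd⟩
    obtain ⟨g, hg, hg0, f, hf, hfe⟩ := dual_surj a h n hS m hm (edualE c) (edualE_isE a m c hc)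
      (edualE_DE a m c hc hd)
    refine ⟨g, ⟨hg, hg0⟩, f, hf, ?_⟩
    funext σ τ
    exact hfe σ τ
  have hinj0 : ∀ c ∈ IC a (cliq G) m, ∀ f, IsE G a (m + 1) f → edualE c = DE G a f →
      c ∈ (IC a (cliq G) (m + 1)).map (dT A (cliq G)) := by
    intro c hc f hf he
    obtain ⟨c', hc', hd'⟩ := dual_inj a h m c hc f hf (fun σ τ => by rw [← he]; rfl)
    exact ⟨c', hc', hd'⟩
  rcases Nat.eq_or_lt_of_le hm with hmn | hmn
  · -- `m = n`
    have h1 := edual_rel (IC a (cliq G) m ⊓ LinearMap.ker (dT A (cliq G)))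
      ((IC a (cliq G) (m + 1)).map (dT A (cliq G)))
      (IC a (cliq G) (n - m) ⊓ LinearMap.ker (cobT G a)) ⊥ bot_le (edualR G a n m) hsurj
      (by
        rintro c ⟨hc, hd⟩ g hg ⟨f, hf, he⟩
        rw [Submodule.mem_bot] at hg
        subst hg
        dsimp only at he
        rw [edual_embD_zero, zero_add] at he
        exact hinj0 c hc f hf he)
    have h2 : rk a (cliq G) (n - m) = 0 := by
      have e1 : n - m = 0 := by omega
      rw [e1]
      unfold rk
      have e2 : (IC a (cliq G) 0).map (dT A (cliq G)) = ⊥ := by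
        rw [eq_bot_iff]
        rintro _ ⟨c, hc, rfl⟩
        rw [Submodule.mem_bot]
        exact dT_zero a (cliq G) c hc
      rw [e2]
      simp
    rw [finrank_bot] at h1
    have h3 : rk a (cliq G) (m + 1) =
      (Module.finrank (ZMod 2) ((IC a (cliq G) (m + 1)).map (dT A (cliq G))) : ℤ) := rfl
    have h4 : cdim a (cliq G) (n - m) = (Module.finrank (ZMod 2) (IC a (cliq G) (n - m)) : ℤ) :=
      rfl
    unfold bettiF
    rw [h2, ← d3, ← d1, h3, h4, ← d2]
    push_cast
    have h5 : ((Module.finrank (ZMod 2) (IC a (cliq G) m ⊓ LinearMap.ker (dT A (cliq G)) :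
        Submodule (ZMod 2) (Finset V → A → ZMod 2)) : ℕ) : ℤ) + 0 ≤
        (Module.finrank (ZMod 2) (IC a (cliq G) (n - m) ⊓ LinearMap.ker (cobT G a) :
        Submodule (ZMod 2) (Finset V → A → ZMod 2)) : ℕ) +
        (Module.finrank (ZMod 2) ((IC a (cliq G) (m + 1)).map (dT A (cliq G))) : ℕ) := by
      exact_mod_cast h1
    linarith
  · -- `m < n`
    obtain ⟨k, hk⟩ : ∃ k, n - m = k + 1 := ⟨n - m - 1, by omega⟩
    have hk2 : n - (m + 1) = k := by omega
    have d4 := finrank_cobT a h k
    have hB' : (IC a (cliq G) k).map (cobT G a) ≤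
        IC a (cliq G) (n - m) ⊓ LinearMap.ker (cobT G a) := by
      rintro _ ⟨g, hg, rfl⟩
      rw [hk]
      exact ⟨cobT_mem a h k g hg, cobT_cobT a h k g hg⟩
    have h1 := edual_rel (IC a (cliq G) m ⊓ LinearMap.ker (dT A (cliq G)))
      ((IC a (cliq G) (m + 1)).map (dT A (cliq G)))
      (IC a (cliq G) (n - m) ⊓ LinearMap.ker (cobT G a)) ((IC a (cliq G) k).map (cobT G a))
      hB' (edualR G a n m) hsurj
      (by
        rintro c ⟨hc, hd⟩ _ ⟨g', hg', rfl⟩ ⟨f, hf, he⟩
        dsimp only at he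
        rw [← DE_embD a n hS k g' hg', ← edual_DE_add] at he
        have hE : IsE G a (m + 1) (embD G n g') :=
          isE_embD a n (m + 1) hmn g' (by rw [hk2]; exact hg')
        exact hinj0 c hc _ (edual_isE_add a (m + 1) _ _ hE hf) he)
    have h3 : rk a (cliq G) (m + 1) =
      (Module.finrank (ZMod 2) ((IC a (cliq G) (m + 1)).map (dT A (cliq G))) : ℤ) := rfl
    have h4 : cdim a (cliq G) (n - m) = (Module.finrank (ZMod 2) (IC a (cliq G) (n - m)) : ℤ) :=
      rfl
    have h6 : rk a (cliq G) (n - m) =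
        (Module.finrank (ZMod 2) ((IC a (cliq G) k).map (cobT G a)) : ℤ) := by
      rw [hk, ← d4]
    unfold bettiF
    rw [h6, ← d3, ← d1, h3, h4, ← d2]
    push_cast
    have h5 : ((Module.finrank (ZMod 2) (IC a (cliq G) m ⊓ LinearMap.ker (dT A (cliq G)) :
        Submodule (ZMod 2) (Finset V → A → ZMod 2)) : ℕ) : ℤ) +
        (Module.finrank (ZMod 2) ((IC a (cliq G) k).map (cobT G a)) : ℕ) ≤
        (Module.finrank (ZMod 2) (IC a (cliq G) (n - m) ⊓ LinearMap.ker (cobT G a) :
        Submodule (ZMod 2) (Finset V → A → ZMod 2)) : ℕ) +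
        (Module.finrank (ZMod 2) ((IC a (cliq G) (m + 1)).map (dT A (cliq G))) : ℕ) := by
      exact_mod_cast h1
    linarith

end SingerRA
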