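import Mathlib
import Pool.Agent.Lib_MP_394d50_gt.Defs3
import Pool.Agent.Lib_MP_394d50_gt.AOne
import Pool.Agent.Lib_MP_394d50_gt.ALink
import Pool.Agent.Lib_MP_394d50_gt.ASmall
import Pool.Agent.Lib_MP_394d50_gt.AGood

/-! Piece EADD: adding and removing a vertex. -/

namespace SingerRA

/-- The cliques all of whose vertices satisfy `P`. -/
def cliqP {V : Type} (G : SimpleGraph V) (P : V → Prop) : Set (Finset V) :=
  {σ | σ ∈ cliq G ∧ ∀ v ∈ σ, P v}

theorem cliqP_down {V : Type} (G : SimpleGraph V) (P : V → Prop) :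
    ∀ τ ∈ cliqP G P, ∀ ρ, ρ ⊆ τ → ρ ∈ cliqP G P :=
  fun τ hτ ρ h => ⟨cliq_down G τ hτ.1 ρ h, fun v hv => hτ.2 v (h hv)⟩

theorem cliqP_eq {V : Type} (G : SimpleGraph V) (P : V → Prop) :
    cliqP G P = (fun σ : Finset {v // P v} => σ.map (Function.Embedding.subtype _)) ''
      (cliq (G.comap (Subtype.val : {v // P v} → V))) := by
  classical
  ext σ
  constructor
  · intro hσ
    refine ⟨σ.subtype _, ?_, ?_⟩
    · rintro ⟨u, hu⟩ hu' ⟨v, hv⟩ hv' huv
      have h1 := Finset.mem_subtype.mp (Finset.mem_coe.mp hu')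
      have h2 := Finset.mem_subtype.mp (Finset.mem_coe.mp hv')
      exact hσ.1 h1 h2 (fun h => huv (Subtype.ext h))
    · exact Finset.subtype_map_of_mem hσ.2
  · rintro ⟨τ, hτ, rfl⟩
    refine ⟨?_, ?_⟩
    · intro u hu v hv huv
      obtain ⟨u', hu', rfl⟩ := Finset.mem_map.mp (Finset.mem_coe.mp hu)
      obtain ⟨v', hv', rfl⟩ := Finset.mem_map.mp (Finset.mem_coe.mp hv)
      exact hτ hu' hv' (fun h => huv (by rw [h]))
    · intro v hv
      obtain ⟨v', hv', rfl⟩ := Finset.mem_map.mp hv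
      exact v'.2

/-- Passage from a marked group on `V` to a marked group on a subset. -/
theorem cover_sub {V : Type} [Fintype V] [DecidableEq V] (G : SimpleGraph V) (P : V → Prop)
    [Fintype {v // P v}] [DecidableEq {v // P v}] {Q Q0 : Type} [Group Q] [Group Q0] [Finite Q]
    (hQ : IsPGroup 2 Q) (πQ : Q →* Q0) (hπQ : Function.Surjective πQ) (q : V → Q)
    (q0 : {v // P v} → Q0) (hq : ∀ v, πQ (q v.1) = q0 v) (hsq : ∀ v, q v * q v = 1)
    (hcomm : ∀ u v, P u → P v → G.Adj u v → q u * q v = q v * q u) (k : ℕ) :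
    (bettiF (stdA q) (cliqP G P) k : ℝ) ≤
      (Nat.card Q * 2 ^ Fintype.card V / (Nat.card Q0 * 2 ^ Nat.card {v // P v}) : ℝ) *
        bettiF (stdA q0) (cliq (G.comap (Subtype.val : {v // P v} → V))) k := by
  classical
  have : Finite Q0 := Finite.of_surjective πQ hπQ
  let π : Q × Multiplicative (V → ZMod 2) →*
      Q0 × Multiplicative ({v // P v} → ZMod 2) := πQ.prodMap (subLab V P)
  have hπ : Function.Surjective π := by
    rintro ⟨x, y⟩
    obtain ⟨x', rfl⟩ := hπQ x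
    refine ⟨(x', extLab V P y), ?_⟩
    refine Prod.ext rfl ?_
    apply Multiplicative.toAdd.injective
    funext v
    exact extLab_pos V P y v.1 v.2
  let b : V → Q0 × Multiplicative ({v // P v} → ZMod 2) := fun v => π (stdA q v)
  have hsqA : ∀ v, stdA q v * stdA q v = 1 := by
    intro v
    refine Prod.ext (hsq v) ?_
    exact ((stdMk (⊥ : SimpleGraph V) q hsq (fun _ _ h => h.elim)).sq v |> congrArg Prod.snd)
  have hcommA : ∀ σ ∈ cliqP G P, ∀ u ∈ σ, ∀ v ∈ σ,
      stdA q u * stdA q v = stdA q v * stdA q u := by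
    intro σ hσ u hu v hv
    by_cases huv : u = v
    · rw [huv]
    · refine Prod.ext ?_ (mul_comm _ _)
      exact hcomm u v (hσ.2 u hu) (hσ.2 v hv) (hσ.1 hu hv huv)
  have hbL : ∀ v : {v // P v}, b v.1 = stdA q0 v := by
    intro v
    refine Prod.ext (hq v) ?_
    show Multiplicative.ofAdd _ = Multiplicative.ofAdd _
    congr 1
    funext u
    show (Pi.single v.1 1 : V → ZMod 2) u.1 = (Pi.single v 1 : _ → ZMod 2) u
    rw [Pi.single_apply, Pi.single_apply]
    simp [Subtype.ext_iff]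
  have hOKb : OK b (cliqP G P) := by
    refine ⟨conv_of_down (cliqP_down G P), ?_, ?_, ?_⟩
    · intro v
      show π _ * π _ = 1
      rw [← map_mul, hsqA, map_one]
    · intro σ hσ u hu v hv
      show π _ * π _ = π _ * π _
      rw [← map_mul, hcommA σ hσ u hu v hv, map_mul]
    · refine ⟨(extLab V P).comp (MonoidHom.snd Q0 _), ?_⟩
      intro σ hσ v hv u
      have hLv : P v := hσ.2 v hv
      show (extLab V P (b v).2).toAdd u = if u = v then 1 else 0
      have hb' := hbL ⟨v, hLv⟩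
      have hb3 : (b v).2.toAdd = (Pi.single (⟨v, hLv⟩ : {v // P v}) 1 :
        _ → ZMod 2) := congrArg (fun z => z.2.toAdd) hb'
      by_cases hu : P u
      · rw [extLab_pos V P _ u hu, hb3, Pi.single_apply]
        simp [Subtype.ext_iff]
      · rw [extLab_neg V P _ u hu, if_neg]
        rintro rfl
        exact hu hLv
  have k5 := bettiF_cover_real (isPGroup_std hQ) π hπ (stdA q) (cliqP G P) hOKb hsqA hcommA k
  have k6 : bettiF b (cliqP G P) k =
      bettiF (stdA q0) (cliq (G.comap (Subtype.val : {v // P v} → V))) k := by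
    rw [cliqP_eq, bettiF_reindex]
    congr 1
    funext v
    exact hbL v
  have k5' : (bettiF (stdA q) (cliqP G P) k : ℝ) ≤
      (Nat.card (Q × Multiplicative (V → ZMod 2)) /
        Nat.card (Q0 × Multiplicative ({v // P v} → ZMod 2)) : ℝ) *
        bettiF (stdA q0) (cliq (G.comap (Subtype.val : {v // P v} → V))) k := by
    rw [← k6]; exact k5
  have e1 : (Nat.card (Q × Multiplicative (V → ZMod 2)) : ℝ) =
      Nat.card Q * 2 ^ Fintype.card V := by
    rw [Nat.card_prod, card_mulfun, ← Nat.card_eq_fintype_card]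
    push_cast
    rfl
  have e2 : (Nat.card (Q0 × Multiplicative ({v // P v} → ZMod 2)) : ℝ) =
      Nat.card Q0 * 2 ^ Nat.card {v // P v} := by
    rw [Nat.card_prod, card_mulfun]
    push_cast
    rfl
  rw [e1, e2] at k5'
  exact k5'

theorem mem_cliqP_ne {V : Type} [DecidableEq V] (G : SimpleGraph V) (v : V) :
    {σ | σ ∈ cliq G ∧ v ∉ σ} = cliqP G (fun u => u ≠ v) := by
  ext σ
  constructor
  · rintro ⟨h1, h2⟩
    exact ⟨h1, fun u hu h => h2 (h ▸ hu)⟩
  · rintro ⟨h1, h2⟩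
    exact ⟨h1, fun h => h2 v h rfl⟩

theorem mem_cliqP_adj {V : Type} [DecidableEq V] (G : SimpleGraph V) (v : V) :
    {τ | v ∉ τ ∧ insert v τ ∈ cliq G} = cliqP G (fun u => G.Adj v u) := by
  ext τ
  constructor
  · rintro ⟨h1, h2⟩
    refine ⟨cliq_down G _ h2 _ (Finset.subset_insert _ _), fun u hu => ?_⟩
    exact h2 (Finset.mem_coe.mpr (Finset.mem_insert_self _ _))
      (Finset.mem_coe.mpr (Finset.mem_insert_of_mem hu)) (fun h => h1 (h ▸ hu))
  · rintro ⟨h1, h2⟩
    refine ⟨fun h => G.loopless.irrefl v (h2 v h), ?_⟩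
    show G.IsClique _
    rw [Finset.coe_insert, SimpleGraph.isClique_insert]
    exact ⟨h1, fun u hu _ => h2 u (Finset.mem_coe.mp hu)⟩

theorem sdiff_cliq {V : Type} [DecidableEq V] (G : SimpleGraph V) (v : V) :
    cliq G \ {σ | σ ∈ cliq G ∧ v ∉ σ} = {σ | σ ∈ cliq G ∧ v ∈ σ} := by
  ext σ
  constructor
  · rintro ⟨h1, h2⟩
    refine ⟨h1, ?_⟩
    by_contra h
    exact h2 ⟨h1, h⟩
  · rintro ⟨h1, h2⟩
    exact ⟨h1, fun h => h.2 h2⟩

/-- The bound for the cubes containing `v`. -/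
theorem bettiF_star {V : Type} [Fintype V] [DecidableEq V] {A : Type} [Group A] [Finite A]
    (G : SimpleGraph V) (v : V) (a : V → A) (h : OK a (cliq G)) (k : ℕ) :
    bettiF a {σ | σ ∈ cliq G ∧ v ∈ σ} (k + 1) ≤ bettiF a (cliqP G (fun u => G.Adj v u)) k := by
  rw [← mem_cliqP_adj]
  exact bettiF_link a (cliq G) h v k

/-- The group of the two constructions. -/
theorem two_marks {V : Type} (G : SimpleGraph V) (v : V) {Q1 Q2 : Type} [Group Q1]
    [Group Q2] (q1 : V → Q1) (q2 : {u // G.Adj v u} → Q2) (hsq1 : ∀ u, q1 u * q1 u = 1)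
    (hcomm1 : ∀ u w, G.Adj u w → q1 u * q1 w = q1 w * q1 u) (hsq2 : ∀ u, q2 u * q2 u = 1)
    (hcomm2 : ∀ u w, (nbrG G v).Adj u w → q2 u * q2 w = q2 w * q2 u) :
    ∃ q : V → Q1 × Q2, (∀ u, q u * q u = 1) ∧ (∀ u w, G.Adj u w → q u * q w = q w * q u) ∧
      (∀ u, (q u).1 = q1 u) ∧ ∀ u : {u // G.Adj v u}, (q u.1).2 = q2 u := by
  classical
  let q2e : V → Q2 := fun u => if h : G.Adj v u then q2 ⟨u, h⟩ else 1
  refine ⟨fun u => (q1 u, q2e u), ?_, ?_, fun u => rfl, fun u => ?_⟩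
  · intro u
    refine Prod.ext (hsq1 u) ?_
    by_cases h : G.Adj v u
    · show q2e u * q2e u = 1
      simp only [q2e, dif_pos h]; exact hsq2 _
    · show q2e u * q2e u = 1
      simp only [q2e, dif_neg h]; exact one_mul 1
  · intro u w huw
    refine Prod.ext (hcomm1 u w huw) ?_
    show q2e u * q2e w = q2e w * q2e u
    by_cases hu : G.Adj v u
    · by_cases hw : G.Adj v w
      · simp only [q2e, dif_pos hu, dif_pos hw]
        exact hcomm2 _ _ huw
      · simp only [q2e, dif_neg hw, mul_one, one_mul]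
    · simp only [q2e, dif_neg hu, mul_one, one_mul]
  · show q2e u.1 = q2 u
    simp only [q2e, dif_pos u.2]

theorem card_ratio {a2 n m a1 : ℝ} (h1 : 0 < a1) (h2 : 0 < a2) (hn : 1 ≤ n) (hm : 1 ≤ m) :
    a1 * a2 * n / (a2 * m) ≤ a1 * n := by
  rw [div_le_iff₀ (by positivity)]
  have : a1 * n * (a2 * 1) ≤ a1 * n * (a2 * m) := by
    apply mul_le_mul_of_nonneg_left _ (by positivity)
    exact mul_le_mul_of_nonneg_left hm h2.le
  linarith

theorem bettiF_nn {V : Type} [Fintype V] [DecidableEq V] {A : Type} [Group A] [Finite A]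
    (a : V → A) (G : SimpleGraph V) (k : ℕ) : (0 : ℝ) ≤ bettiF a (cliq G) k := by
  exact_mod_cast bettiF_nonneg a (cliq G) (conv_of_down (cliq_down G)) k

theorem SmallGrad.add {V : Type} [Finite V] (G : SimpleGraph V) (v : V) (k : ℕ)
    (h1 : SmallGrad k (delG G v)) (h2 : ∀ j, j + 1 = k → SmallGrad j (nbrG G v)) :
    SmallGrad k G := by
  classical
  intro instF instD ε hε
  set n := Fintype.card V with hn
  obtain ⟨Q1, _, _, q1', hQ1, hsq1', hcomm1', hb1⟩ := h1 inferInstance inferInstance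
    (ε / (2 * 2 ^ n)) (by positivity)
  obtain ⟨Q2, _, _, q2, hQ2, hsq2, hcomm2, hb2⟩ : ∃ (Q2 : Type) (_ : Group Q2) (_ : Finite Q2)
      (q2 : {u // G.Adj v u} → Q2), IsPGroup 2 Q2 ∧ (∀ v, q2 v * q2 v = 1) ∧
      (∀ u w, (nbrG G v).Adj u w → q2 u * q2 w = q2 w * q2 u) ∧
      ∀ j, j + 1 = k → (bettiF (stdA q2) (cliq (nbrG G v)) j : ℝ) ≤
        ε / (2 * 2 ^ n) * Nat.card Q2 := by
    rcases k with _ | j
    · refine ⟨PUnit, inferInstance, inferInstance, fun _ => 1, ?_, ?_, ?_, ?_⟩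
      · exact fun x => ⟨0, rfl⟩
      · exact fun _ => rfl
      · exact fun _ _ _ => rfl
      · intro j hj; omega
    · obtain ⟨Q2, i1, i2, q2, hQ2, hsq2, hcomm2, hb2⟩ := h2 j rfl inferInstance inferInstance
        (ε / (2 * 2 ^ n)) (by positivity)
      refine ⟨Q2, i1, i2, q2, hQ2, hsq2, hcomm2, ?_⟩
      intro j' hj'
      obtain rfl : j' = j := by omega
      exact hb2
  let q1 : V → Q1 := fun u => if h : u ≠ v then q1' ⟨u, h⟩ else 1
  have hsq1 : ∀ u, q1 u * q1 u = 1 := by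
    intro u
    by_cases h : u ≠ v
    · simp only [q1, dif_pos h]; exact hsq1' _
    · simp only [q1, dif_neg h]; exact one_mul 1
  have hcomm1 : ∀ u w, G.Adj u w → q1 u * q1 w = q1 w * q1 u := by
    intro u w huw
    by_cases hu : u ≠ v
    · by_cases hw : w ≠ v
      · simp only [q1, dif_pos hu, dif_pos hw]
        exact hcomm1' _ _ huw
      · simp only [q1, dif_neg hw, mul_one, one_mul]
    · simp only [q1, dif_neg hu, mul_one, one_mul]
  obtain ⟨q, hsq, hcomm, hqa, hqb⟩ := two_marks G v q1 q2 hsq1 hcomm1 hsq2 hcomm2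
  have hP12 : IsPGroup 2 (Q1 × Q2) := isPGroup_prod hQ1 hQ2
  refine ⟨Q1 × Q2, inferInstance, inferInstance, q, hP12, hsq, hcomm, ?_⟩
  have hOK : OK (stdA q) (cliq G) := OK_of_Mk (stdMk _ q hsq hcomm)
  set a1 : ℝ := (Nat.card Q1 : ℝ) with ha1
  set a2 : ℝ := (Nat.card Q2 : ℝ) with ha2
  have ha1pos : 0 < a1 := by rw [ha1]; exact_mod_cast Nat.card_pos
  have ha2pos : 0 < a2 := by rw [ha2]; exact_mod_cast Nat.card_pos
  have hcQ : (Nat.card (Q1 × Q2) : ℝ) = a1 * a2 := by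
    rw [Nat.card_prod]; push_cast; rfl
  have h2n : (1 : ℝ) ≤ 2 ^ n := one_le_pow₀ (by norm_num)
  -- the cliques without `v`
  have c1 := cover_sub G (fun u => u ≠ v) hP12 (MonoidHom.fst Q1 Q2)
    (fun x => ⟨(x, 1), rfl⟩) q q1' (by
      rintro ⟨u, hu⟩
      show (q u).1 = q1' ⟨u, hu⟩
      rw [hqa]
      simp only [q1, dif_pos hu]) hsq (fun u w _ _ h => hcomm u w h) k
  have c1' : (bettiF (stdA q) (cliqP G (fun u => u ≠ v)) k : ℝ) ≤ a1 * a2 * (ε / 2) := by
    refine c1.trans ?_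
    have hb0 : (0 : ℝ) ≤ bettiF (stdA q1') (cliq (delG G v)) k := bettiF_nn _ _ _
    rw [hcQ, mul_comm a1 a2, ← hn, ← ha1]
    calc (a2 * a1 * 2 ^ n / (a1 * 2 ^ Nat.card {u // u ≠ v})) *
        (bettiF (stdA q1') (cliq (delG G v)) k : ℝ)
        ≤ (a2 * 2 ^ n) * (bettiF (stdA q1') (cliq (delG G v)) k : ℝ) :=
          mul_le_mul_of_nonneg_right (card_ratio ha2pos ha1pos h2n
            (one_le_pow₀ (by norm_num))) hb0
      _ ≤ (a2 * 2 ^ n) * (ε / (2 * 2 ^ n) * a1) :=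
          mul_le_mul_of_nonneg_left hb1 (by positivity)
      _ = a2 * a1 * (ε / 2) := by
          have : (2 : ℝ) ^ n ≠ 0 := by positivity
          field_simp
  have c2 : (bettiF (stdA q) {σ | σ ∈ cliq G ∧ v ∈ σ} k : ℝ) ≤ a1 * a2 * (ε / 2) := by
    rcases k with _ | j
    · have e : bettiF (stdA q) {σ | σ ∈ cliq G ∧ v ∈ σ} 0 = 0 := by
        apply bettiF_eq_zero
        rintro σ ⟨_, h⟩ h0
        rw [Finset.card_eq_zero] at h0
        rw [h0] at h
        exact Finset.notMem_empty v h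
      rw [e]
      push_cast
      positivity
    · have s1 := bettiF_star G v (stdA q) hOK j
      have s1' : (bettiF (stdA q) {σ | σ ∈ cliq G ∧ v ∈ σ} (j + 1) : ℝ) ≤
          bettiF (stdA q) (cliqP G (fun u => G.Adj v u)) j := by exact_mod_cast s1
      refine s1'.trans ?_
      have c3 := cover_sub G (fun u => G.Adj v u) hP12 (MonoidHom.snd Q1 Q2)
        (fun x => ⟨(1, x), rfl⟩) q q2 hqb hsq (fun u w _ _ h => hcomm u w h) j
      refine c3.trans ?_
      have hb0 : (0 : ℝ) ≤ bettiF (stdA q2) (cliq (nbrG G v)) j := bettiF_nn _ _ _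
      rw [hcQ, ← hn, ← ha2]
      calc (a1 * a2 * 2 ^ n / (a2 * 2 ^ Nat.card {u // G.Adj v u})) *
          (bettiF (stdA q2) (cliq (nbrG G v)) j : ℝ)
          ≤ (a1 * 2 ^ n) * (bettiF (stdA q2) (cliq (nbrG G v)) j : ℝ) :=
            mul_le_mul_of_nonneg_right (card_ratio ha1pos ha2pos h2n
              (one_le_pow₀ (by norm_num))) hb0
        _ ≤ (a1 * 2 ^ n) * (ε / (2 * 2 ^ n) * a2) :=
            mul_le_mul_of_nonneg_left (hb2 j rfl) (by positivity)
        _ = a1 * a2 * (ε / 2) := by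
            have : (2 : ℝ) ^ n ≠ 0 := by positivity
            field_simp
  have main := bettiF_le_add (stdA q) (cliq G) {σ | σ ∈ cliq G ∧ v ∉ σ}
    (conv_of_down (cliq_down G)) (fun σ h => h.1)
    (fun σ hσ τ hτ hs => ⟨hτ, fun h => hσ.2 (hs h)⟩) k
  rw [sdiff_cliq, mem_cliqP_ne] at main
  have main' : (bettiF (stdA q) (cliq G) k : ℝ) ≤
      bettiF (stdA q) (cliqP G (fun u => u ≠ v)) k +
        bettiF (stdA q) {σ | σ ∈ cliq G ∧ v ∈ σ} k := by exact_mod_cast main
  rw [hcQ]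
  linarith

/-- The isomorphism `(Q × ℤ/2) × (ℤ/2)^(V ∖ v) ≃ Q × (ℤ/2)^V`. -/
def splitEquiv {V : Type} [DecidableEq V] (v : V) (Q : Type) [Group Q] :
    (Q × Multiplicative (ZMod 2)) × Multiplicative ({u : V // u ≠ v} → ZMod 2) ≃*
      Q × Multiplicative (V → ZMod 2) where
  toFun p := (p.1.1, Multiplicative.ofAdd (fun u => if h : u ≠ v then p.2.toAdd ⟨u, h⟩ else
    p.1.2.toAdd))
  invFun p := ((p.1, Multiplicative.ofAdd (p.2.toAdd v)), Multiplicative.ofAdd
    (fun u => p.2.toAdd u.1))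
  left_inv p := by
    refine Prod.ext (Prod.ext rfl ?_) ?_
    · show Multiplicative.ofAdd (if h : v ≠ v then p.2.toAdd ⟨v, h⟩ else p.1.2.toAdd) = p.1.2
      rw [dif_neg (by simp)]; rfl
    · apply Multiplicative.toAdd.injective
      funext u
      show (if h : u.1 ≠ v then p.2.toAdd ⟨u.1, h⟩ else p.1.2.toAdd) = p.2.toAdd u
      rw [dif_pos u.2]
  right_inv p := by
    refine Prod.ext rfl ?_
    apply Multiplicative.toAdd.injective
    funext u
    show (if h : u ≠ v then p.2.toAdd u else p.2.toAdd v) = p.2.toAdd u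
    by_cases h : u ≠ v
    · rw [dif_pos h]
    · rw [dif_neg h]
      rw [not_not.mp h]
  map_mul' p r := by
    refine Prod.ext rfl ?_
    apply Multiplicative.toAdd.injective
    funext u
    show (if h : u ≠ v then (p.2 * r.2).toAdd ⟨u, h⟩ else (p.1.2 * r.1.2).toAdd) =
      (if h : u ≠ v then p.2.toAdd ⟨u, h⟩ else p.1.2.toAdd) +
      (if h : u ≠ v then r.2.toAdd ⟨u, h⟩ else r.1.2.toAdd)
    by_cases h : u ≠ v
    · rw [dif_pos h, dif_pos h, dif_pos h]; rfl
    · rw [dif_neg h, dif_neg h, dif_neg h]; rfl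

theorem SmallGrad.remove {V : Type} [Finite V] (G : SimpleGraph V) (v : V) (k : ℕ)
    (h1 : SmallGrad k G) (h2 : SmallGrad k (nbrG G v)) : SmallGrad k (delG G v) := by
  classical
  have instV : Fintype V := Fintype.ofFinite V
  intro instF instD ε hε
  set n := Fintype.card V with hn
  obtain ⟨Q1, _, _, q1, hQ1, hsq1, hcomm1, hb1⟩ := h1 inferInstance inferInstance
    (ε / (2 * 2 ^ n)) (by positivity)
  obtain ⟨Q2, _, _, q2, hQ2, hsq2, hcomm2, hb2⟩ := h2 inferInstance inferInstance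
    (ε / (2 * 2 ^ n)) (by positivity)
  obtain ⟨q, hsq, hcomm, hqa, hqb⟩ := two_marks G v q1 q2 hsq1 hcomm1 hsq2 hcomm2
  have hP12 : IsPGroup 2 (Q1 × Q2) := isPGroup_prod hQ1 hQ2
  have hPz : IsPGroup 2 (Multiplicative (ZMod 2)) := by
    intro x
    refine ⟨1, ?_⟩
    rw [pow_one, pow_two]
    exact (CharTwo.add_self_eq_zero x.toAdd : x.toAdd + x.toAdd = 0)
  have : Finite (Multiplicative (ZMod 2)) := inferInstanceAs (Finite (ZMod 2))
  let q' : {u : V // u ≠ v} → (Q1 × Q2) × Multiplicative (ZMod 2) := fun u => (q u.1, 1)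
  refine ⟨(Q1 × Q2) × Multiplicative (ZMod 2), inferInstance, inferInstance, q',
    isPGroup_prod hP12 hPz, fun u => Prod.ext (hsq u.1) (one_mul 1),
    fun u w h => Prod.ext (hcomm u.1 w.1 h) rfl, ?_⟩
  have hOK : OK (stdA q) (cliq G) := OK_of_Mk (stdMk _ q hsq hcomm)
  have e1 : bettiF (stdA q') (cliq (delG G v)) k =
      bettiF (stdA q) (cliqP G (fun u => u ≠ v)) k := by
    rw [cliqP_eq, bettiF_reindex, AGoodAux.bettiF_equiv (splitEquiv v (Q1 × Q2))]
    congr 1
    funext u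
    refine Prod.ext rfl ?_
    apply Multiplicative.toAdd.injective
    funext w
    show (if h : w ≠ v then (Pi.single u 1 : {u : V // u ≠ v} → ZMod 2) ⟨w, h⟩ else
      (1 : Multiplicative (ZMod 2)).toAdd) = (Pi.single u.1 1 : V → ZMod 2) w
    by_cases h : w ≠ v
    · rw [dif_pos h, Pi.single_apply, Pi.single_apply]
      simp [Subtype.ext_iff]
    · rw [dif_neg h, Pi.single_apply, if_neg]
      · rfl
      · intro h3
        exact h (fun h4 => u.2 (h3.symm.trans h4))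
  rw [e1]
  set a1 : ℝ := (Nat.card Q1 : ℝ) with ha1
  set a2 : ℝ := (Nat.card Q2 : ℝ) with ha2
  have ha1pos : 0 < a1 := by rw [ha1]; exact_mod_cast Nat.card_pos
  have ha2pos : 0 < a2 := by rw [ha2]; exact_mod_cast Nat.card_pos
  have hcQ : (Nat.card (Q1 × Q2) : ℝ) = a1 * a2 := by
    rw [Nat.card_prod]; push_cast; rfl
  have h2n : (1 : ℝ) ≤ 2 ^ n := one_le_pow₀ (by norm_num)
  have main := bettiF_sub_le (stdA q) (cliq G) {σ | σ ∈ cliq G ∧ v ∉ σ}
    (conv_of_down (cliq_down G)) (fun σ h => h.1)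
    (fun σ hσ τ hτ hs => ⟨hτ, fun h => hσ.2 (hs h)⟩) k
  rw [sdiff_cliq, mem_cliqP_ne] at main
  have s1 := bettiF_star G v (stdA q) hOK k
  have main' : (bettiF (stdA q) (cliqP G (fun u => u ≠ v)) k : ℝ) ≤
      bettiF (stdA q) (cliq G) k + bettiF (stdA q) (cliqP G (fun u => G.Adj v u)) k := by
    exact_mod_cast main.trans (add_le_add_right s1 _)
  have c1 : (bettiF (stdA q) (cliq G) k : ℝ) ≤ a1 * a2 * (ε / 2) := by
    let π1 : (Q1 × Q2) × Multiplicative (V → ZMod 2) →* Q1 × Multiplicative (V → ZMod 2) :=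
      (MonoidHom.fst Q1 Q2).prodMap (MonoidHom.id _)
    have hπ1 : Function.Surjective π1 := by
      rintro ⟨x, y⟩
      exact ⟨((x, 1), y), rfl⟩
    have hfun : (fun u => π1 (stdA q u)) = stdA q1 := by
      funext u
      exact Prod.ext (hqa u) rfl
    have hOK1 : OK (stdA q1) (cliq G) := OK_of_Mk (stdMk _ q1 hsq1 hcomm1)
    have k4 := bettiF_cover_real (isPGroup_std hP12) π1 hπ1 (stdA q) (cliq G)
      (by rw [hfun]; exact hOK1) hOK.sq hOK.comm k
    rw [hfun] at k4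
    have c5 : (Nat.card ((Q1 × Q2) × Multiplicative (V → ZMod 2)) /
        Nat.card (Q1 × Multiplicative (V → ZMod 2)) : ℝ) = a2 := by
      rw [Nat.card_prod, Nat.card_prod, Nat.card_prod, card_mulfun]
      push_cast
      rw [← ha1, ← ha2, div_eq_iff (by positivity)]
      ring
    rw [c5] at k4
    refine k4.trans ?_
    calc a2 * (bettiF (stdA q1) (cliq G) k : ℝ) ≤ a2 * (ε / (2 * 2 ^ n) * a1) :=
          mul_le_mul_of_nonneg_left hb1 ha2pos.le
      _ = a1 * a2 * (ε / 2) / 2 ^ n := by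
          have : (2 : ℝ) ^ n ≠ 0 := by positivity
          field_simp
      _ ≤ a1 * a2 * (ε / 2) := div_le_self (by positivity) h2n
  have c3 := cover_sub G (fun u => G.Adj v u) hP12 (MonoidHom.snd Q1 Q2)
    (fun x => ⟨(1, x), rfl⟩) q q2 hqb hsq (fun u w _ _ h => hcomm u w h) k
  have c3' : (bettiF (stdA q) (cliqP G (fun u => G.Adj v u)) k : ℝ) ≤ a1 * a2 * (ε / 2) := by
    refine c3.trans ?_
    have hb0 : (0 : ℝ) ≤ bettiF (stdA q2) (cliq (nbrG G v)) k := bettiF_nn _ _ _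
    rw [hcQ, ← hn, ← ha2]
    calc (a1 * a2 * 2 ^ n / (a2 * 2 ^ Nat.card {u // G.Adj v u})) *
        (bettiF (stdA q2) (cliq (nbrG G v)) k : ℝ)
        ≤ (a1 * 2 ^ n) * (bettiF (stdA q2) (cliq (nbrG G v)) k : ℝ) :=
          mul_le_mul_of_nonneg_right (card_ratio ha1pos ha2pos h2n
            (one_le_pow₀ (by norm_num))) hb0
      _ ≤ (a1 * 2 ^ n) * (ε / (2 * 2 ^ n) * a2) :=
          mul_le_mul_of_nonneg_left hb2 (by positivity)
      _ = a1 * a2 * (ε / 2) := by
          have : (2 : ℝ) ^ n ≠ 0 := by positivity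
          field_simp
  have hcQ' : (Nat.card ((Q1 × Q2) × Multiplicative (ZMod 2)) : ℝ) = a1 * a2 * 2 := by
    rw [Nat.card_prod, Nat.card_prod, show Nat.card (Multiplicative (ZMod 2)) =
      Nat.card (ZMod 2) from rfl, Nat.card_zmod]
    push_cast
    rfl
  rw [hcQ']
  have : 0 < a1 * a2 := by positivity
  nlinarith

theorem SmallGrad.of_isEmpty {V : Type} [IsEmpty V] (G : SimpleGraph V) (k : ℕ) (hk : 0 < k) :
    SmallGrad k G := by
  intro _ _ ε hε
  refine ⟨PUnit, inferInstance, inferInstance, fun _ => 1, fun x => ⟨0, rfl⟩, fun _ => rfl,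
    fun _ _ _ => rfl, ?_⟩
  rw [bettiF_eq_zero]
  · push_cast
    positivity
  · intro σ _ h
    have : σ = ∅ := Finset.eq_empty_of_isEmpty σ
    rw [this, Finset.card_empty] at h
    omega

end SingerRA
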