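import Mathlib
import Pool.Agent.Lib_MP_394d50_gt.Defs3
import Pool.Agent.Lib_MP_394d50_gt.EAdd
import Pool.Agent.Lib_MP_394d50_gt.AGood

/-! Piece EHER: hereditary vanishing from the links. -/

namespace SingerRA

theorem Her.small {V : Type} [Finite V] {p : ℕ} {G : SimpleGraph V} (h : Her p G) :
    SmallGrad p G := by
  have h1 := h V (Function.Embedding.refl V)
  have e : G.comap (Function.Embedding.refl V) = G := by
    ext a b; exact Iff.rfl
  rwa [e] at h1

/-- The link of `u` in a full subcomplex, as a full subcomplex of a link. -/
theorem her_nbr {V : Type} {p : ℕ} {G : SimpleGraph V} {U : Type} (f : U ↪ V) (u : U) (v : V)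
    (hv : f u = v) (h : Her p (nbrG G v)) : SmallGrad p (nbrG (G.comap f) u) := by
  subst hv
  exact h {w : U // (G.comap f).Adj u w}
    ⟨fun w => ⟨f w.1, w.2⟩, fun a b hab => Subtype.ext (f.injective (congrArg Subtype.val hab))⟩

theorem her_of_links {V : Type} [Finite V] (p : ℕ) (G : SimpleGraph V)
    (h : ∀ v, Her p (nbrG G v)) : Her (p + 1) G := by
  have key : ∀ (n : ℕ) (U : Type) (f : U ↪ V), Nat.card U = n →
      SmallGrad (p + 1) (G.comap f) := by
    intro n
    induction n with
    | zero =>
      intro U f hU
      have : Finite U := Finite.of_injective f f.injective
      have : IsEmpty U := (Nat.card_eq_zero.mp hU).resolve_right (fun h => h.not_finite this)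
      exact SmallGrad.of_isEmpty _ _ (Nat.succ_pos p)
    | succ n ih =>
      intro U f hU
      have : Finite U := Finite.of_injective f f.injective
      have hne : Nonempty U := by
        by_contra hc
        rw [not_nonempty_iff] at hc
        rw [Nat.card_of_isEmpty] at hU
        omega
      obtain ⟨u⟩ := hne
      apply SmallGrad.add (G.comap f) u (p + 1)
      · have hcard : Nat.card {w : U // w ≠ u} = n := by
          classical
          have : Fintype U := Fintype.ofFinite U
          rw [Nat.card_eq_fintype_card] at hU ⊢
          rw [Fintype.card_subtype_compl, hU, Fintype.card_subtype_eq]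
          omega
        exact ih {w : U // w ≠ u} ((Function.Embedding.subtype _).trans f) hcard
      · intro j hj
        obtain rfl : j = p := by omega
        exact her_nbr f u (f u) rfl (h (f u))
  exact fun U f => key _ U f rfl

theorem her_of_small {V : Type} [Finite V] (p : ℕ) (hp : 0 < p) (G : SimpleGraph V)
    (h0 : SmallGrad p G) (h : ∀ v, Her p (nbrG G v)) : Her p G := by
  have key : ∀ (n : ℕ) (U : Type) (f : U ↪ V), Nat.card V = Nat.card U + n →
      SmallGrad p (G.comap f) := by
    intro n
    induction n with
    | zero =>
      intro U f hU
      have : Finite U := Finite.of_injective f f.injective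
      have hb : Function.Bijective f :=
        (Nat.bijective_iff_injective_and_card f).mpr ⟨f.injective, by omega⟩
      let e : G.comap f ≃g G := ⟨Equiv.ofBijective f hb, Iff.rfl⟩
      exact SmallGrad.iso e.symm p h0
    | succ n ih =>
      intro U f hU
      have : Finite U := Finite.of_injective f f.injective
      have hns : ¬ Function.Surjective f := by
        intro hs
        have := Nat.card_le_card_of_surjective f hs
        omega
      have hex : ∃ v, v ∉ Set.range f := by
        by_contra hc
        push Not at hc
        exact hns fun v => hc v
      obtain ⟨v, hv⟩ := hex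
      let f' : Option U ↪ V := Function.Embedding.optionElim f v hv
      have hcard : Nat.card V = Nat.card (Option U) + n := by
        rw [Finite.card_option]
        omega
      have h1 := ih (Option U) f' hcard
      have h2 : SmallGrad p (nbrG (G.comap f') none) := her_nbr f' none v rfl (h v)
      have h3 := SmallGrad.remove (G.comap f') none p h1 h2
      let e : delG (G.comap f') none ≃g G.comap f :=
        { toFun := fun w => match w with
            | ⟨none, hw⟩ => absurd rfl hw
            | ⟨some w, _⟩ => w
          invFun := fun w => ⟨some w, by simp⟩
          left_inv := by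
            rintro ⟨_ | w, hw⟩
            · exact absurd rfl hw
            · rfl
          right_inv := fun w => rfl
          map_rel_iff' := by
            rintro ⟨_ | a, ha⟩ ⟨_ | b, hb⟩
            · exact absurd rfl ha
            · exact absurd rfl ha
            · exact absurd rfl hb
            · exact Iff.rfl }
      exact SmallGrad.iso e p h3
  intro U f
  have : Finite U := Finite.of_injective f f.injective
  have hle := Nat.card_le_card_of_injective f f.injective
  exact key (Nat.card V - Nat.card U) U f (by omega)

end SingerRA
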