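import Mathlib
import Pool.Agent.Lib_MP_394d50_gt.Defs3
import Pool.Agent.Lib_MP_394d50_gt.AGood
import Pool.Agent.Lib_MP_394d50_gt.BVan
import Pool.Agent.Lib_MP_394d50_gt.CContr
import Pool.Agent.Lib_MP_394d50_gt.CCover
import Pool.Agent.Lib_MP_394d50_gt.CDeck
import Pool.Agent.Lib_MP_394d50_gt.CChart
import Pool.Agent.Lib_MP_394d50_gt.CCone
import Pool.Agent.Lib_MP_394d50_gt.CCell
import Pool.Agent.Lib_MP_394d50_gt.ETame
import Pool.Agent.Lib_MP_394d50_gt.EDual

/-! Assembly of the second layer. -/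

namespace SingerRA

/-- From small gradients outside the middle dimension to the conclusion on the `ℓ²`-Betti
numbers. -/
theorem l2_of_small {n : ℕ} {V : Type} [Fintype V] [LinearOrder V] {G : SimpleGraph V}
    (h : ∀ k, 2 * k ≠ n → SmallGrad k G) :
    (∀ k, 2 * k ≠ n → l2Betti G k = 0) ∧
    (∀ k, 2 * k = n → l2Betti G k = (-1 : ℝ) ^ k * (chi G : ℝ)) ∧
    ((∀ k, l2Betti G k = 0) ↔ chi G = 0) := by
  have h1 : ∀ k, 2 * k ≠ n → l2Betti G k = 0 := fun k hk =>
    l2Betti_eq_zero G k (h k hk)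
  have h2 : ∀ k, 2 * k = n → l2Betti G k = (-1 : ℝ) ^ k * (chi G : ℝ) := by
    intro k hk
    by_cases hc : k < Fintype.card V + 1
    · have h3 := atiyah G
      rw [Finset.sum_eq_single_of_mem k (Finset.mem_range.mpr hc)] at h3
      · rw [← h3, ← mul_assoc, ← mul_pow]
        simp
      · intro j _ hj
        rw [h1 j (by omega), mul_zero]
    · have h3 := atiyah G
      have h4 : l2Betti G k = 0 := l2Betti_of_lt G k (by omega)
      rw [Finset.sum_eq_zero] at h3
      · rw [h4, ← h3, mul_zero]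
      · intro j hj
        rw [Finset.mem_range] at hj
        rw [h1 j (by omega), mul_zero]
  refine ⟨h1, h2, ?_, ?_⟩
  · intro h3
    have h4 := atiyah G
    rw [Finset.sum_eq_zero] at h4
    · exact_mod_cast h4.symm
    · intro j _
      rw [h3 j, mul_zero]
  · intro h3 k
    by_cases hk : 2 * k = n
    · rw [h2 k hk, h3]; simp
    · exact h1 k hk

/-- Duality for the gradients of a homology sphere. -/
theorem SmallGrad.dual {n : ℕ} {V : Type} [iF : Fintype V] [iD : DecidableEq V] {G : SimpleGraph V}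
    (hS : HomSphere n G) (m : ℕ) (hm : m ≤ n) (h : SmallGrad (n - m) G) : SmallGrad m G := by
  intro i1 i2 ε hε
  obtain rfl : iF = i1 := Subsingleton.elim _ _
  obtain rfl : iD = i2 := Subsingleton.elim _ _
  obtain ⟨Q, g1, g2, q, hQ, hsq, hcomm, hb⟩ := h iF iD ε hε
  refine ⟨Q, g1, g2, q, hQ, hsq, hcomm, ?_⟩
  have hOK : OK (stdA q) (cliq G) := OK_of_Mk (stdMk _ q hsq hcomm)
  have h1 := bettiF_dual (stdA q) hOK n hS m hm
  have h2 : (bettiF (stdA q) (cliq G) m : ℝ) ≤ bettiF (stdA q) (cliq G) (n - m) := by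
    exact_mod_cast h1
  exact h2.trans hb

/-- For a homology sphere it suffices to have small gradients above the middle dimension. -/
theorem small_of_upper {n : ℕ} {V : Type} [Fintype V] [DecidableEq V] {G : SimpleGraph V}
    (hS : HomSphere n G) (h : ∀ p, n < 2 * p → SmallGrad p G) (k : ℕ) (hk : 2 * k ≠ n) :
    SmallGrad k G := by
  rcases Nat.lt_or_gt_of_ne hk with h1 | h1
  · exact SmallGrad.dual hS k (by omega) (h (n - k) (by omega))
  · exact h k h1

theorem small_of_tame {n : ℕ} {V : Type} [Fintype V] [DecidableEq V] {G : SimpleGraph V}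
    (h : Tame n G) (hS : HomSphere n G) (k : ℕ) (hk : 2 * k ≠ n) : SmallGrad k G :=
  small_of_upper hS (fun p hp => (her_of_tame h p hp).small) k hk

/-- The topological part: when the open cone on `L` is `ℝⁿ`, then `Z` is a closed connected
`n`-manifold. -/
theorem closed_manifold_of_cone {n : ℕ} {V : Type} [Finite V] {G : SimpleGraph V}
    (h : Nonempty (Cone G ≃ₜ (Fin n → ℝ))) :
    CompactSpace (ZG G) ∧ T2Space (ZG G) ∧ ConnectedSpace (ZG G) ∧
    ∀ x : ZG G, ∃ U : Set (ZG G), IsOpen U ∧ x ∈ U ∧ Nonempty (U ≃ₜ (Fin n → ℝ)) := by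
  refine ⟨compact_ZG G, inferInstance, ?_, ?_⟩
  · have : ContractibleSpace (Davis G) := contractible_davis G
    have h2 : ConnectedSpace (Davis G) := inferInstance
    exact (surjective_proj G).connectedSpace (continuous_proj G)
  · intro x
    obtain ⟨U, h1, h2, ⟨e⟩⟩ := chart_ZG G x
    obtain ⟨f⟩ := h
    exact ⟨U, h1, h2, ⟨e.trans f⟩⟩

end SingerRA
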