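import Mathlib
import Pool.Agent.Lib_MP_394d50_gt.Defs
import Pool.Agent.Lib_MP_394d50_bary.BDefs2

/-!
# MP_394d50_gt: the class generated by the order complexes of posets

The flag complex `L` of a graph `G` is the complex of the cliques of `G`. `compG P` is the
comparability graph of the partially ordered set `P`: its flag complex is the order complex of
`P` (the barycentric subdivision of `K` when `P` is the poset of the cells of a regular cell
complex `K`). `F2Sphere n G`: the flag complex of `G` is an `(n-1)`-dimensional homology sphere over
`ZMod 2` in the sense of homology manifolds (every triangulation of the sphere is one).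
-/

namespace SingerRA

/-- The flag complex of `G` as a simplicial complex in the sense of Mathlib: its faces are the
nonempty finite cliques. -/
def flagK {V : Type} (G : SimpleGraph V) : PreAbstractSimplicialComplex V where
  faces := {F | F.Nonempty ∧ G.IsClique (F : Set V)}
  isRelLowerSet_faces := by
    intro F hF
    refine ⟨hF.1, fun F' hsub hne => ⟨hne, hF.2.subset ?_⟩⟩
    exact_mod_cast hsub

/-- The class of flag complexes generated by the order complexes of posets: `PosSub n` contains
the order complexes of all finite partially ordered sets which are homology `(n-1)`-spheres, it is
closed under suspension, edge subdivision and isomorphism, and it contains, for even dimensions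
`n + 1`, all finite flag complexes all of whose vertex links are in `PosSub n`. -/
inductive PosSub : ℕ → ∀ {V : Type}, SimpleGraph V → Prop
  | poset {n : ℕ} {P : Type} [Fintype P] [PartialOrder P] (h : F2Sphere n (compG P)) :
      PosSub n (compG P)
  | susp {n : ℕ} {V : Type} {G : SimpleGraph V} (h : PosSub n G) : PosSub (n + 1) (suspG G)
  | subdiv {n : ℕ} {V : Type} {G : SimpleGraph V} (h : PosSub n G) {s t : V}
      (hst : G.Adj s t) : PosSub n (subdivG G s t)
  | even {n : ℕ} (hn : Odd n) {V : Type} (hV : Finite V) (G : SimpleGraph V)
      (h : ∀ v, PosSub n (nbrG G v)) : PosSub (n + 1) G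
  | iso {n : ℕ} {V V' : Type} {G : SimpleGraph V} {G' : SimpleGraph V'} (h : PosSub n G)
      (e : G ≃g G') : PosSub n G'

end SingerRA
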