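import Mathlib
import Pool.Agent.Lib_MP_394d50_gt.DefsS
import Pool.Agent.Lib_MP_394d50_gt.DefsG
import Pool.Agent.Lib_MP_394d50_gt.EMain
import Pool.Agent.Lib_MP_394d50_bary.BTopB

/-! The open cone over a triangulated sphere is a Euclidean space. -/

namespace SingerRA

theorem kcone_flag {V : Type} [Finite V] (G : SimpleGraph V) : KCone (flagK G) = Cone G := by
  classical
  have := Fintype.ofFinite V
  ext y
  constructor
  · rintro ⟨h1, h2⟩
    refine ⟨h1, ?_⟩
    by_cases hne : (Finset.univ.filter (fun v => y v ≠ 0)).Nonempty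
    · have h3 := (h2 _ hne (fun v hv => (Finset.mem_filter.mp hv).2)).2
      have e : ((Finset.univ.filter (fun v => y v ≠ 0) : Finset V) : Set V) =
          {v | y v ≠ 0} := by
        ext v; simp
      rwa [e] at h3
    · rw [Finset.not_nonempty_iff_eq_empty] at hne
      intro u hu
      have : u ∈ (Finset.univ.filter (fun v => y v ≠ 0) : Finset V) := by
        simpa using hu
      rw [hne] at this
      exact absurd this (Finset.notMem_empty u)
  · rintro ⟨h1, h2⟩
    exact ⟨h1, fun F hF hF' => ⟨hF, fun u hu v hv huv =>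
      h2 (hF' u hu) (hF' v hv) huv⟩⟩

/-- The open cone over a flag triangulation of the `(n-1)`-sphere is homeomorphic to `ℝⁿ`. -/
theorem cone_of_sphere {V : Type} [Fintype V] {n : ℕ} {G : SimpleGraph V}
    (e : realiz (flagK G) ≃ₜ Metric.sphere (0 : EuclideanSpace ℝ (Fin n)) 1) :
    Nonempty (Cone G ≃ₜ (Fin n → ℝ)) := by
  obtain ⟨f⟩ := kcone_sphere (flagK G) n e
  exact ⟨(Homeomorph.setCongr (kcone_flag G)).symm.trans f⟩

end SingerRA
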