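import Mathlib
import Pool.Agent.Lib_MP_394d50_gt.Defs2
import Pool.Agent.Lib_MP_394d50_gt.AGood
import Pool.Agent.Lib_MP_394d50_gt.BVan
import Pool.Agent.Lib_MP_394d50_gt.CContr
import Pool.Agent.Lib_MP_394d50_gt.CCover
import Pool.Agent.Lib_MP_394d50_gt.CDeck
import Pool.Agent.Lib_MP_394d50_gt.CChart
import Pool.Agent.Lib_MP_394d50_gt.CCone
import Pool.Agent.Lib_MP_394d50_gt.CCell
import Pool.Agent.Lib_MP_394d50_gt.DLink

/-! Assembly. -/

namespace SingerRA

/-- Vanishing outside the middle dimension and the value in the middle dimension, for the class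
`Good`. -/
theorem good_l2 {n : ℕ} {V : Type} [Fintype V] [LinearOrder V] {G : SimpleGraph V}
    (h : Good n G) :
    (∀ k, 2 * k ≠ n → l2Betti G k = 0) ∧
    (∀ k, 2 * k = n → l2Betti G k = (-1 : ℝ) ^ k * (chi G : ℝ)) ∧
    ((∀ k, l2Betti G k = 0) ↔ chi G = 0) := by
  have h1 : ∀ k, 2 * k ≠ n → l2Betti G k = 0 := fun k hk =>
    l2Betti_eq_zero G k (small_of_good h k hk)
  have h2 : ∀ k, 2 * k = n → l2Betti G k = (-1 : ℝ) ^ k * (chi G : ℝ) := by
    intro k hk
    by_cases hc : k < Fintype.card V + 1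
    · have h3 := atiyah G
      rw [Finset.sum_eq_single_of_mem k (Finset.mem_range.mpr hc)] at h3
      · rw [← h3, ← mul_assoc, ← mul_pow]
        simp
      · intro j _ hj
        rw [h1 j (by omega), mul_zero]
    · have h3 := atiyah G
      have h4 : l2Betti G k = 0 := l2Betti_of_lt G k (by omega)
      rw [Finset.sum_eq_zero] at h3
      · rw [h4, ← h3, mul_zero]
      · intro j hj
        rw [Finset.mem_range] at hj
        rw [h1 j (by omega), mul_zero]
  refine ⟨h1, h2, ?_, ?_⟩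
  · intro h3
    have h4 := atiyah G
    rw [Finset.sum_eq_zero] at h4
    · exact_mod_cast h4.symm
    · intro j _
      rw [h3 j, mul_zero]
  · intro h3 k
    by_cases hk : 2 * k = n
    · rw [h2 k hk, h3]; simp
    · exact h1 k hk

theorem closed_manifold {n : ℕ} {V : Type} {G : SimpleGraph V} (h : CrossSub n G) :
    CompactSpace (ZG G) ∧ T2Space (ZG G) ∧ ConnectedSpace (ZG G) ∧
    ∀ x : ZG G, ∃ U : Set (ZG G), IsOpen U ∧ x ∈ U ∧ Nonempty (U ≃ₜ (Fin n → ℝ)) := by
  have : Finite V := h.finite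
  refine ⟨compact_ZG G, inferInstance, ?_, ?_⟩
  · have : ContractibleSpace (Davis G) := contractible_davis G
    have h2 : ConnectedSpace (Davis G) := inferInstance
    exact (surjective_proj G).connectedSpace (continuous_proj G)
  · intro x
    obtain ⟨U, h1, h2, ⟨e⟩⟩ := chart_ZG G x
    obtain ⟨f⟩ := cone_homeo h
    exact ⟨U, h1, h2, ⟨e.trans f⟩⟩

end SingerRA
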