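import Mathlib
import Pool.Agent.Lib_MP_394d50_gt.Defs
import Pool.Agent.Lib_MP_394d50_gt.Defs2

/-!
# MP_394d50_gt: chains of marked groups with coefficients in a field

The chains are now families of functions which are ANTI-invariant (`c σ (x a_v) = - c σ x` for
`v ∈ σ`); the boundary operator carries the signs `orn`.
-/

namespace SingerRA

/-- Chains of degree `k` with coefficients in the field `F` for the family `T`. -/
def ICF {V : Type} (F : Type) [Field F] {A : Type} [Group A] (a : V → A) (T : Set (Finset V))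
    (k : ℕ) : Submodule F (Finset V → A → F) where
  carrier := {c | (∀ σ, ¬ (σ ∈ T ∧ σ.card = k) → c σ = 0) ∧
    ∀ σ, ∀ v ∈ σ, ∀ x, c σ (x * a v) = - c σ x}
  add_mem' := by
    rintro c d ⟨hc, hc'⟩ ⟨hd, hd'⟩
    refine ⟨fun σ h => ?_, fun σ v hv x => ?_⟩
    · rw [Pi.add_apply, hc σ h, hd σ h, add_zero]
    · rw [Pi.add_apply, Pi.add_apply, Pi.add_apply, hc' σ v hv, hd' σ v hv, neg_add]
  zero_mem' := ⟨fun _ _ => rfl, fun _ _ _ _ => by simp⟩
  smul_mem' := by
    rintro r c ⟨hc, hc'⟩
    refine ⟨fun σ h => ?_, fun σ v hv x => ?_⟩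
    · rw [Pi.smul_apply, hc σ h, smul_zero]
    · rw [Pi.smul_apply, Pi.smul_apply, Pi.smul_apply, hc' σ v hv, smul_neg]

open scoped Classical in
/-- The boundary operator of the family `T`:
`(d c) τ = ∑_{v ∉ τ} orn (τ ∪ {v}) v • c (τ ∪ {v})` for `τ ∈ T`. -/
noncomputable def dF {V : Type} [Fintype V] [LinearOrder V] (F : Type) [Field F] (A : Type)
    (T : Set (Finset V)) : (Finset V → A → F) →ₗ[F] (Finset V → A → F) where
  toFun c := fun τ => if τ ∈ T then
    ∑ v ∈ Finset.univ \ τ, ((orn (insert v τ) v : ℤ) : F) • c (insert v τ) else 0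
  map_add' c d := by
    funext τ
    simp only [Pi.add_apply]
    split_ifs
    · rw [← Finset.sum_add_distrib]
      exact Finset.sum_congr rfl fun v _ => smul_add _ _ _
    · simp
  map_smul' r c := by
    funext τ
    simp only [Pi.smul_apply, RingHom.id_apply]
    split_ifs
    · rw [Finset.smul_sum]
      exact Finset.sum_congr rfl fun v _ => smul_comm _ _ _
    · simp

/-- The dimension of the `k`-chains. -/
noncomputable def cdimF {V : Type} (F : Type) [Field F] {A : Type} [Group A] (a : V → A)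
    (T : Set (Finset V)) (k : ℕ) : ℤ := Module.finrank F (ICF F a T k)

/-- The rank of the boundary operator on the `k`-chains. -/
noncomputable def rkF {V : Type} [Fintype V] [LinearOrder V] (F : Type) [Field F] {A : Type}
    [Group A] (a : V → A) (T : Set (Finset V)) (k : ℕ) : ℤ :=
  Module.finrank F ((ICF F a T k).map (dF F A T))

/-- The `k`-th Betti number over `F`. -/
noncomputable def bettiK {V : Type} [Fintype V] [LinearOrder V] (F : Type) [Field F] {A : Type}
    [Group A] (a : V → A) (T : Set (Finset V)) (k : ℕ) : ℤ :=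
  cdimF F a T k - rkF F a T k - rkF F a T (k + 1)

/-- The normalised `ℓ²`-Betti number: the `ℓ²`-Betti number of the Coxeter group `W` itself. -/
noncomputable def nb {V : Type} [LinearOrder V] (G : SimpleGraph V) (k : ℕ) : ℝ :=
  l2Betti G k / 2 ^ Nat.card V

/-- The graph `G` without the edge `{s, t}`. -/
def delE {V : Type} (G : SimpleGraph V) (s t : V) : SimpleGraph V where
  Adj u v := G.Adj u v ∧ ¬ (u = s ∧ v = t) ∧ ¬ (u = t ∧ v = s)
  symm := ⟨fun _ _ h => ⟨G.adj_symm h.1, fun h' => h.2.2 ⟨h'.2, h'.1⟩,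
    fun h' => h.2.1 ⟨h'.2, h'.1⟩⟩⟩
  loopless := ⟨fun u h => G.loopless.irrefl u h.1⟩

end SingerRA
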