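import Mathlib
import Pool.Agent.Lib_MP_394d50_gt.Defs3
import Pool.Agent.Lib_MP_394d50_gt.DefsG
import Pool.Agent.Lib_MP_394d50_bary.BSphere

/-! Piece GF2: the links of a homology sphere are homology spheres.

* `F2Sphere.link`: for a clique `σ'` of `nbrG G v` (vertices `{u // G.Adj v u}`), the set `σ = insert v
  (σ'.map (Embedding.subtype _))` is a clique of `G` with `|σ'| + 1` elements, and
  `slink (nbrG G v) σ' = {ρ' | ρ'.map (Embedding.subtype _) ∈ slink G σ}`; every `ρ ∈ slink G σ` is of the form
  `ρ'.map ..` (its vertices are adjacent to `v`). So `redBetti (slink (nbrG G v) σ') j = redBetti (slink G σ) j`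
  (linear equivalence `chn F j ≃ chn F' j`, `f ↦ (ρ' ↦ f (ρ'.map ..))`, compatible with `bdy`, as in
  AReindex.lean: you may restate the argument there for a family `F = Finset.map f '' F'`), and
  `F2Sphere (n+1) G` at `σ` gives the value `1` iff `|σ'| + 1 + j = n + 1`.
* `F2Sphere.iso`: the same with an isomorphism of graphs. -/

namespace SingerRA

namespace GF2

open scoped Classical

variable {V V' : Type}

/-- extension by zero along the map of vertex sets -/
noncomputable def ext (f : V' ↪ V) : (Finset V' → ZMod 2) →ₗ[ZMod 2] (Finset V → ZMod 2) where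
  toFun c := Function.extend (Finset.map f) c 0
  map_add' c d := by
    funext σ
    by_cases h : ∃ σ' : Finset V', σ'.map f = σ
    · obtain ⟨σ', rfl⟩ := h
      have hi := Finset.map_injective f
      rw [Pi.add_apply, hi.extend_apply, hi.extend_apply, hi.extend_apply]
      rfl
    · rw [Pi.add_apply, Function.extend_apply' _ _ _ h, Function.extend_apply' _ _ _ h,
        Function.extend_apply' _ _ _ h]
      simp
  map_smul' r c := by
    funext σ
    by_cases h : ∃ σ' : Finset V', σ'.map f = σ
    · obtain ⟨σ', rfl⟩ := h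
      have hi := Finset.map_injective f
      rw [Pi.smul_apply, hi.extend_apply, hi.extend_apply]
      rfl
    · rw [Pi.smul_apply, Function.extend_apply' _ _ _ h, Function.extend_apply' _ _ _ h]
      simp

theorem ext_map (f : V' ↪ V) (c : Finset V' → ZMod 2) (σ' : Finset V') :
    ext f c (σ'.map f) = c σ' := (Finset.map_injective f).extend_apply c 0 σ'

theorem ext_not (f : V' ↪ V) (c : Finset V' → ZMod 2) (σ : Finset V)
    (h : ¬ ∃ σ' : Finset V', σ'.map f = σ) : ext f c σ = 0 := Function.extend_apply' _ _ _ h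

theorem ext_injective (f : V' ↪ V) : Function.Injective (ext f) := by
  intro c d h
  funext σ'
  rw [← ext_map f c σ', ← ext_map f d σ', h]

theorem map_chn (f : V' ↪ V) (F' : Set (Finset V')) (k : ℕ) :
    chn (Finset.map f '' F') k = (chn F' k).map (ext f) := by
  apply le_antisymm
  · intro c h1
    refine ⟨fun σ' => c (σ'.map f), ?_, ?_⟩
    · intro σ' hσ'
      apply h1
      rintro ⟨⟨ρ, hρ, hρ'⟩, h3⟩
      apply hσ'
      have : ρ = σ' := Finset.map_injective f hρ'
      subst this
      exact ⟨hρ, by rwa [Finset.card_map] at h3⟩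
    · funext σ
      by_cases h : ∃ σ' : Finset V', σ'.map f = σ
      · obtain ⟨σ', rfl⟩ := h
        rw [ext_map]
      · rw [ext_not f _ σ h]
        symm
        apply h1
        rintro ⟨⟨ρ, hρ, hρ'⟩, -⟩
        exact h ⟨ρ, hρ'⟩
  · rintro _ ⟨c, h1, rfl⟩
    intro σ hσ
    by_cases h : ∃ σ' : Finset V', σ'.map f = σ
    · obtain ⟨σ', rfl⟩ := h
      rw [ext_map]
      apply h1
      rintro ⟨h3, h4⟩
      exact hσ ⟨⟨σ', h3, rfl⟩, by rw [Finset.card_map]; exact h4⟩
    · exact ext_not f _ σ h

theorem ext_bdy [Fintype V] [Fintype V'] (f : V' ↪ V)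
    (F' : Set (Finset V')) (c : Finset V' → ZMod 2) :
    ext f (bdy F' c) = bdy (Finset.map f '' F') (ext f c) := by
  funext τ
  by_cases h : ∃ σ' : Finset V', σ'.map f = τ
  · obtain ⟨τ', rfl⟩ := h
    rw [ext_map]
    by_cases hT : τ' ∈ F'
    · have hT2 : τ'.map f ∈ Finset.map f '' F' := ⟨τ', hT, rfl⟩
      rw [Sph.bdy_apply _ _ _ hT, Sph.bdy_apply _ _ _ hT2]
      have h1 : ∀ v' ∈ Finset.univ \ τ', c (insert v' τ') =
          ext f c (insert (f v') (τ'.map f)) := by
        intro v' _
        rw [← Finset.map_insert, ext_map]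
      rw [Finset.sum_congr rfl h1]
      have h2 : ∑ v' ∈ Finset.univ \ τ', ext f c (insert (f v') (τ'.map f)) =
          ∑ v ∈ (Finset.univ \ τ').map f, ext f c (insert v (τ'.map f)) := by
        rw [Finset.sum_map]
      rw [h2]
      apply Finset.sum_subset
      · intro v hv
        obtain ⟨v', hv', rfl⟩ := Finset.mem_map.mp hv
        rw [Finset.mem_sdiff] at hv' ⊢
        refine ⟨Finset.mem_univ _, fun hc => hv'.2 ?_⟩
        exact (Finset.mem_map' f).mp hc
      · intro v hv hv2
        apply ext_not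
        rintro ⟨ρ, hρ⟩
        have hvρ : v ∈ ρ.map f := by rw [hρ]; exact Finset.mem_insert_self _ _
        obtain ⟨v', hv', rfl⟩ := Finset.mem_map.mp hvρ
        apply hv2
        rw [Finset.mem_sdiff] at hv
        apply Finset.mem_map_of_mem
        rw [Finset.mem_sdiff]
        exact ⟨Finset.mem_univ _, fun hc => hv.2 (Finset.mem_map_of_mem f hc)⟩
    · have hT2 : τ'.map f ∉ Finset.map f '' F' := by
        rintro ⟨ρ, hρ, hρ'⟩
        exact hT ((Finset.map_injective f hρ') ▸ hρ)
      rw [Sph.bdy_apply_not _ _ _ hT, Sph.bdy_apply_not _ _ _ hT2]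
  · rw [ext_not f _ τ h]
    have hT2 : τ ∉ Finset.map f '' F' := by
      rintro ⟨ρ, hρ, hρ'⟩
      exact h ⟨ρ, hρ'⟩
    rw [Sph.bdy_apply_not _ _ _ hT2]

theorem finrank_ext (f : V' ↪ V) (p : Submodule (ZMod 2) (Finset V' → ZMod 2)) :
    Module.finrank (ZMod 2) (p.map (ext f)) = Module.finrank (ZMod 2) p :=
  (LinearEquiv.finrank_eq (Submodule.equivMapOfInjective (ext f) (ext_injective f) p)).symm

theorem finrank_bdy [Fintype V] [Fintype V'] (f : V' ↪ V) (F' : Set (Finset V')) (k : ℕ) :
    Module.finrank (ZMod 2) ((chn (Finset.map f '' F') k).map (bdy (Finset.map f '' F'))) =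
      Module.finrank (ZMod 2) ((chn F' k).map (bdy F')) := by
  rw [map_chn, ← Submodule.map_comp]
  have h : (bdy (Finset.map f '' F')).comp (ext f) = (ext f).comp (bdy F') := by
    apply LinearMap.ext
    intro c
    exact (ext_bdy f F' c).symm
  rw [h, Submodule.map_comp, finrank_ext]

end GF2

/-- Reindexing of the reduced Betti numbers along an injection of the vertex sets. -/
theorem redBetti_map {V V' : Type} [Fintype V] [Fintype V'] (f : V' ↪ V) (F' : Set (Finset V'))
    (j : ℕ) : redBetti (Finset.map f '' F') j = redBetti F' j := by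
  unfold redBetti
  rw [GF2.finrank_bdy, GF2.finrank_bdy, GF2.map_chn, GF2.finrank_ext]

theorem F2Sphere.link {V : Type} [Fintype V] {n : ℕ} {G : SimpleGraph V}
    (h : F2Sphere (n + 1) G) (v : V) [Fintype {u : V // G.Adj v u}] : F2Sphere n (nbrG G v) := by
  classical
  intro σ' hσ' j
  set e : {u : V // G.Adj v u} ↪ V := Function.Embedding.subtype _ with he
  have hev : ∀ u : {u : V // G.Adj v u}, e u = u.1 := fun u => rfl
  have hvn : ∀ ρ' : Finset {u : V // G.Adj v u}, v ∉ ρ'.map e := by
    intro ρ' hv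
    obtain ⟨u, -, hu⟩ := Finset.mem_map.mp hv
    rw [hev] at hu
    have h2 := u.2
    rw [hu] at h2
    exact G.loopless.irrefl v h2
  have hcl : ∀ ρ' : Finset {u : V // G.Adj v u}, (nbrG G v).IsClique (ρ' : Set _) ↔
      G.IsClique ((insert v (ρ'.map e) : Finset V) : Set V) := by
    intro ρ'
    constructor
    · intro hc x hx y hy hxy
      rw [Finset.mem_coe, Finset.mem_insert] at hx hy
      rcases hx with rfl | hx
      · rcases hy with rfl | hy
        · exact absurd rfl hxy
        · obtain ⟨u, -, rfl⟩ := Finset.mem_map.mp hy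
          exact u.2
      · obtain ⟨u, hu, rfl⟩ := Finset.mem_map.mp hx
        rcases hy with rfl | hy
        · exact G.adj_symm u.2
        · obtain ⟨w, hw, rfl⟩ := Finset.mem_map.mp hy
          exact hc (Finset.mem_coe.mpr hu) (Finset.mem_coe.mpr hw) (fun hh => hxy (by rw [hh]))
    · intro hc x hx y hy hxy
      have := hc (Finset.mem_coe.mpr (Finset.mem_insert_of_mem
        (Finset.mem_map_of_mem e (Finset.mem_coe.mp hx))))
        (Finset.mem_coe.mpr (Finset.mem_insert_of_mem
        (Finset.mem_map_of_mem e (Finset.mem_coe.mp hy)))) (fun hh => hxy (e.injective hh))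
      exact this
  have hset : Finset.map e '' slink (nbrG G v) σ' = slink G (insert v (σ'.map e)) := by
    ext ρ
    constructor
    · rintro ⟨ρ', ⟨hd, hc⟩, rfl⟩
      refine ⟨?_, ?_⟩
      · rw [Finset.disjoint_insert_right]
        exact ⟨hvn ρ', (Finset.disjoint_map e).mpr hd⟩
      · have := (hcl (ρ' ∪ σ')).mp (by convert hc)
        rw [Finset.map_union] at this
        rw [Finset.union_insert]
        exact this
    · rintro ⟨hd, hc⟩
      rw [Finset.disjoint_insert_right] at hd
      have hadj : ∀ x ∈ ρ, G.Adj v x := by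
        intro x hx
        refine hc (Finset.mem_coe.mpr (Finset.mem_union_right _ (Finset.mem_insert_self _ _)))
          (Finset.mem_coe.mpr (Finset.mem_union_left _ hx)) ?_
        rintro rfl
        exact hd.1 hx
      have hρ : (ρ.subtype (fun u => G.Adj v u)).map e = ρ := by
        ext x
        rw [Finset.mem_map]
        constructor
        · rintro ⟨u, hu, rfl⟩
          exact Finset.mem_subtype.mp hu
        · intro hx
          exact ⟨⟨x, hadj x hx⟩, Finset.mem_subtype.mpr hx, rfl⟩
      refine ⟨ρ.subtype (fun u => G.Adj v u), ⟨?_, ?_⟩, hρ⟩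
      · rw [← Finset.disjoint_map e, hρ]
        exact hd.2
      · have hcc := (hcl (ρ.subtype (fun u => G.Adj v u) ∪ σ')).mpr (by
          rw [Finset.map_union, hρ, ← Finset.union_insert]
          exact hc)
        convert hcc
  rw [← redBetti_map e, hset, h _ ((hcl σ').mp hσ') j, Finset.card_insert_of_notMem (hvn σ'),
    Finset.card_map]
  have : (σ'.card + 1 + j = n + 1) ↔ (σ'.card + j = n) := by omega
  simp only [this]

theorem F2Sphere.iso {V V' : Type} [Fintype V] [Fintype V'] {n : ℕ} {G : SimpleGraph V}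
    {G' : SimpleGraph V'} (h : F2Sphere n G) (e : G ≃g G') : F2Sphere n G' := by
  classical
  intro σ' hσ' j
  set f : V' ↪ V := e.symm.toEquiv.toEmbedding with hf
  have hadj : ∀ x y : V', G.Adj (f x) (f y) ↔ G'.Adj x y := fun x y => e.symm.map_adj_iff
  have hcl : ∀ ρ' : Finset V', G'.IsClique (ρ' : Set V') ↔
      G.IsClique ((ρ'.map f : Finset V) : Set V) := by
    intro ρ'
    constructor
    · intro hc x hx y hy hxy
      obtain ⟨u, hu, rfl⟩ := Finset.mem_map.mp (Finset.mem_coe.mp hx)
      obtain ⟨w, hw, rfl⟩ := Finset.mem_map.mp (Finset.mem_coe.mp hy)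
      exact (hadj u w).mpr
        (hc (Finset.mem_coe.mpr hu) (Finset.mem_coe.mpr hw) (fun hh => hxy (by rw [hh])))
    · intro hc x hx y hy hxy
      exact (hadj x y).mp (hc (Finset.mem_coe.mpr (Finset.mem_map_of_mem f hx))
        (Finset.mem_coe.mpr (Finset.mem_map_of_mem f hy)) (fun hh => hxy (f.injective hh)))
  have hset : Finset.map f '' slink G' σ' = slink G (σ'.map f) := by
    ext ρ
    constructor
    · rintro ⟨ρ', ⟨hd, hc⟩, rfl⟩
      refine ⟨(Finset.disjoint_map f).mpr hd, ?_⟩
      have := (hcl (ρ' ∪ σ')).mp hc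
      rw [Finset.map_union] at this
      exact this
    · rintro ⟨hd, hc⟩
      have hρ : (ρ.map e.toEquiv.toEmbedding).map f = ρ := by
        ext x
        rw [Finset.mem_map]
        constructor
        · rintro ⟨u, hu, rfl⟩
          obtain ⟨w, hw, rfl⟩ := Finset.mem_map.mp hu
          have : f (e.toEquiv.toEmbedding w) = w := e.symm_apply_apply w
          rw [this]
          exact hw
        · intro hx
          exact ⟨e x, Finset.mem_map_of_mem _ hx, e.symm_apply_apply x⟩
      refine ⟨ρ.map e.toEquiv.toEmbedding, ⟨?_, ?_⟩, hρ⟩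
      · rw [← Finset.disjoint_map f, hρ]
        exact hd
      · rw [hcl, Finset.map_union, hρ]
        exact hc
  rw [← redBetti_map f, hset, h _ ((hcl σ').mp hσ') j, Finset.card_map]

end SingerRA
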