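import Mathlib
import Pool.Agent.Lib_MP_394d50_gt.Defs3
import Pool.Agent.Lib_MP_394d50_gt.DefsG
import Pool.Agent.Lib_MP_394d50_gt.DLink
import Pool.Agent.Lib_MP_394d50_gt.GF2
import Pool.Agent.Lib_MP_394d50_bary.BSphere

/-! The class `PosSub` is closed under links. -/

namespace SingerRA

theorem PosSub.finite {n : ℕ} {V : Type} {G : SimpleGraph V} (h : PosSub n G) : Finite V := by
  induction h with
  | poset h => exact inferInstance
  | susp h ih => exact Finite.instSum
  | subdiv h hst ih => exact inferInstance
  | even hn hV G h ih => exact hV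
  | iso h e ih => exact Finite.of_equiv _ e.toEquiv

theorem F2Sphere.no_vertex {V : Type} [Fintype V] {G : SimpleGraph V} (h : F2Sphere 0 G) :
    IsEmpty V := by
  classical
  refine ⟨fun v => ?_⟩
  have h1 := (homSphere_of_f2 0 G h).dim {v} (by simp)
  simp at h1

theorem PosSub.no_vertex {V : Type} {G : SimpleGraph V} (h : PosSub 0 G) : IsEmpty V := by
  generalize hm : 0 = m at h
  induction h with
  | poset h =>
    subst hm
    exact h.no_vertex
  | susp h ih => exact absurd hm (by omega)
  | subdiv h hst ih =>
    have := ih hm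
    exact (this.false ‹_›).elim
  | even hn hV G h ih => exact absurd hm (by omega)
  | iso h e ih =>
    have := ih hm
    exact e.symm.toEquiv.isEmpty

theorem PosSub.poset_link {n : ℕ} {P : Type} [Fintype P] [PartialOrder P]
    (h : F2Sphere (n + 1) (compG P)) (v : P) : PosSub n (nbrG (compG P) v) := by
  classical
  have : Fintype {u : P // (compG P).Adj v u} := Fintype.ofFinite _
  have h1 : F2Sphere n (nbrG (compG P) v) := h.link v
  have e : nbrG (compG P) v = compG {u : P // (compG P).Adj v u} := by
    ext a b
    exact Iff.rfl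
  rw [e] at h1 ⊢
  exact PosSub.poset h1

theorem PosSub.link {n : ℕ} {V : Type} {G : SimpleGraph V} (h : PosSub (n + 1) G) (v : V) :
    PosSub n (nbrG G v) := by
  induction n generalizing V with
  | zero =>
    generalize hm : 0 + 1 = m at h
    induction h with
    | poset h =>
      subst hm
      exact PosSub.poset_link h v
    | @susp n' V G h ih =>
      obtain rfl : n' = 0 := by omega
      rcases v with a | b
      · exact (h.no_vertex.false a).elim
      · obtain ⟨e⟩ := nbrG_susp_inr G b
        exact PosSub.iso h e
    | @subdiv n' V G h s t hst ih =>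
      exact ((ih s hm).no_vertex.false ⟨t, hst⟩).elim
    | @even n' hn V hV G h ih =>
      obtain rfl : n' = 0 := by omega
      exact h v
    | iso h e ih =>
      obtain ⟨e'⟩ := nbrG_iso e v
      exact PosSub.iso (ih (e.symm v) hm) e'
  | succ n ihn =>
    generalize hm : n + 1 + 1 = m at h
    induction h with
    | poset h =>
      subst hm
      exact PosSub.poset_link h v
    | @susp n' V G h ih =>
      obtain rfl : n' = n + 1 := by omega
      rcases v with a | b
      · obtain ⟨e⟩ := nbrG_susp_inl G a
        exact PosSub.iso (PosSub.susp (ihn h a)) e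
      · obtain ⟨e⟩ := nbrG_susp_inr G b
        exact PosSub.iso h e
    | @subdiv n' V G h s t hst ih =>
      rcases v with _ | a
      · obtain ⟨e⟩ := nbrG_subdiv_none G s t hst
        obtain ⟨e'⟩ := linkG_iso G s t hst
        have h1 := ihn (ih s hm) ⟨t, hst⟩
        exact PosSub.iso (PosSub.susp (PosSub.iso h1 e'.symm)) e
      · by_cases h1 : a = s
        · subst h1
          obtain ⟨e⟩ := nbrG_subdiv_left G a t hst
          exact PosSub.iso (ih a hm) e
        · by_cases h2 : a = t
          · subst h2
            rw [subdivG_comm]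
            obtain ⟨e⟩ := nbrG_subdiv_left G a s hst.symm
            exact PosSub.iso (ih a hm) e
          · by_cases h3 : G.Adj s a ∧ G.Adj t a
            · obtain ⟨e⟩ := nbrG_subdiv_common G s t a h3.1.symm h3.2.symm
              exact PosSub.iso (PosSub.subdiv (s := ⟨s, h3.1.symm⟩) (t := ⟨t, h3.2.symm⟩)
                (ih a hm) hst) e
            · obtain ⟨e⟩ := nbrG_subdiv_other G s t a h1 h2 h3
              exact PosSub.iso (ih a hm) e
    | @even n' hn V hV G h ih =>
      obtain rfl : n' = n + 1 := by omega
      exact h v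
    | iso h e ih =>
      obtain ⟨e'⟩ := nbrG_iso e v
      exact PosSub.iso (ih (e.symm v) hm) e'

theorem PosSub.no_adj {V : Type} {G : SimpleGraph V} (h : PosSub 1 G) (u v : V) :
    ¬ G.Adj u v :=
  fun huv => (h.link u).no_vertex.false ⟨v, huv⟩

theorem PosSub.linkG {n : ℕ} {V : Type} {G : SimpleGraph V} (h : PosSub (n + 2) G) (s t : V)
    (hst : G.Adj s t) : PosSub n (SingerRA.linkG G s t) := by
  obtain ⟨e⟩ := linkG_iso G s t hst
  exact PosSub.iso ((h.link s).link ⟨t, hst⟩) e.symm

end SingerRA
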