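import Mathlib
import Pool.Agent.Lib_MP_394d50_gt.Defs3
import Pool.Agent.Lib_MP_394d50_gt.DefsG
import Pool.Agent.Lib_MP_394d50_gt.ASmall
import Pool.Agent.Lib_MP_394d50_gt.AGood
import Pool.Agent.Lib_MP_394d50_gt.EAdd
import Pool.Agent.Lib_MP_394d50_gt.EHer
import Pool.Agent.Lib_MP_394d50_gt.EMain
import Pool.Agent.Lib_MP_394d50_gt.GLink

/-! Small gradients for the class `PosSub`. -/

namespace SingerRA

/-- The statement on posets from which the class is built (proved in another file). -/
def SmallComp : Prop := ∀ (P : Type) [PartialOrder P] [Fintype P] [DecidableEq P] (n p : ℕ),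
  HomSphere n (compG P) → n < 2 * p → SmallGrad p (compG P)

theorem small_of_possub_aux (SC : SmallComp) {m : ℕ} {V : Type} {G : SimpleGraph V}
    (h : PosSub m G) :
    (∀ m' < m, ∀ (V : Type) (G : SimpleGraph V), PosSub m' G → ∀ p, m' < 2 * p → Her p G) →
    ∀ p, m < 2 * p → SmallGrad p G := by
  classical
  induction h with
  | @poset n P _ _ h =>
    intro _ p hp
    exact SC P n p (homSphere_of_f2 n _ h) hp
  | @susp n V G h ih =>
    intro _ p _
    have := h.finite
    exact SmallGrad.susp G p
  | @subdiv n V G h s t hst ih =>
    intro IH p hp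
    have hfin := h.finite
    refine SmallGrad.subdiv G s t hst p (ih IH p hp) ?_
    intro j hj
    rcases n with _ | _ | n
    · exact (h.no_vertex.false s).elim
    · exact (h.no_adj s t hst).elim
    · have hl := h.linkG s t hst
      exact (IH n (by omega) _ _ hl j (by omega)).small
  | @even n hn V hV G h ih =>
    intro IH p hp
    obtain ⟨q, rfl⟩ : ∃ q, p = q + 1 := ⟨p - 1, by omega⟩
    have hq : n < 2 * q := by
      obtain ⟨r, hr⟩ := hn
      omega
    exact (her_of_links q G fun v => IH n (by omega) _ _ (h v) q hq).small
  | @iso n V V' G G' h e ih =>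
    intro IH p hp
    have hfin := h.finite
    exact SmallGrad.iso e p (ih IH p hp)

theorem her_of_possub (SC : SmallComp) {n : ℕ} {V : Type} {G : SimpleGraph V}
    (h : PosSub n G) (p : ℕ) (hp : n < 2 * p) : Her p G := by
  induction n using Nat.strong_induction_on generalizing V p with
  | _ n IH =>
    have hfin := h.finite
    have h0 : SmallGrad p G := small_of_possub_aux SC h
      (fun m' hm' V G hG p hp => IH m' hm' hG p hp) p hp
    refine her_of_small p (by omega) G h0 ?_
    intro v
    rcases n with _ | n
    · exact (h.no_vertex.false v).elim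
    · exact IH n (by omega) (h.link v) p (by omega)

/-- Small gradients outside the middle dimension for the homology spheres in the class
`PosSub`. -/
theorem small_of_possub (SC : SmallComp) {n : ℕ} {V : Type} [Fintype V] {G : SimpleGraph V}
    (h : PosSub n G) (hS : F2Sphere n G) (k : ℕ) (hk : 2 * k ≠ n) : SmallGrad k G := by
  classical
  exact small_of_upper (homSphere_of_f2 n G hS)
    (fun p hp => (her_of_possub SC h p hp).small) k hk

end SingerRA
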