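import Mathlib
import Pool.Agent.Lib_MP_394d50_gt.Defs2

/-!
# MP_394d50_gt: the groups `(ℤ/N)^V ⋊ (ℤ/2)^M` (construction of helper35)

Working definitions for the passage from the vanishing of generic stresses to `2`-groups.
-/

namespace SingerRA

/-- The underlying set of the group `(ℤ/N)^V ⋊ (ℤ/2)^M`, where the factor `κ : Fin M` acts by the
sign `-1` on the coordinates `v` with `col v = κ`. -/
def QG {V : Type} {M : ℕ} (N : ℕ) (_col : V → Fin M) : Type :=
  (V → ZMod N) × (Fin M → ZMod 2)

/-- The action of the signs. -/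
def sgq {V : Type} {M N : ℕ} (col : V → Fin M) (s : Fin M → ZMod 2) (w : V → ZMod N) :
    V → ZMod N := fun v => if s (col v) = 0 then w v else - w v

theorem zmod2_cases (a : ZMod 2) : a = 0 ∨ a = 1 := by
  revert a; decide

theorem sgq_zero {V : Type} {M N : ℕ} (col : V → Fin M) (w : V → ZMod N) :
    sgq col 0 w = w := by
  funext v
  simp [sgq]

theorem sgq_add {V : Type} {M N : ℕ} (col : V → Fin M) (s s' : Fin M → ZMod 2)
    (w : V → ZMod N) : sgq col (s + s') w = sgq col s (sgq col s' w) := by
  funext v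
  simp only [sgq, Pi.add_apply]
  rcases zmod2_cases (s (col v)) with h | h <;> rcases zmod2_cases (s' (col v)) with h' | h' <;>
    simp [h, h'] <;> try decide
  intro h2
  exact absurd h2 (by decide)

theorem sgq_map_add {V : Type} {M N : ℕ} (col : V → Fin M) (s : Fin M → ZMod 2)
    (w w' : V → ZMod N) : sgq col s (w + w') = sgq col s w + sgq col s w' := by
  funext v
  simp only [sgq, Pi.add_apply]
  split_ifs
  · rfl
  · ring

theorem sgq_neg {V : Type} {M N : ℕ} (col : V → Fin M) (s : Fin M → ZMod 2)
    (w : V → ZMod N) : sgq col s (- w) = - sgq col s w := by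
  funext v
  simp only [sgq, Pi.neg_apply]
  split_ifs <;> rfl

theorem two_add (M : ℕ) (s : Fin M → ZMod 2) : s + s = 0 := by
  funext i
  exact CharTwo.add_self_eq_zero _

/-- The product `(w, s) (w', s') = (w + ε(s) w', s + s')`. -/
instance instGroupQG {V : Type} {M N : ℕ} (col : V → Fin M) : Group (QG N col) where
  mul x y := (x.1 + sgq col x.2 y.1, x.2 + y.2)
  one := ((0 : V → ZMod N), (0 : Fin M → ZMod 2))
  inv x := (- sgq col x.2 x.1, x.2)
  mul_assoc x y z := by
    refine Prod.ext ?_ ?_
    · show x.1 + sgq col x.2 y.1 + sgq col (x.2 + y.2) z.1 =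
        x.1 + sgq col x.2 (y.1 + sgq col y.2 z.1)
      rw [sgq_add, sgq_map_add, add_assoc]
    · exact add_assoc _ _ _
  one_mul x := by
    refine Prod.ext ?_ ?_
    · show 0 + sgq col 0 x.1 = x.1
      rw [sgq_zero, zero_add]
    · exact zero_add _
  mul_one x := by
    refine Prod.ext ?_ ?_
    · show x.1 + sgq col x.2 0 = x.1
      have : sgq col x.2 (0 : V → ZMod N) = 0 := by
        funext v
        simp [sgq]
      rw [this, add_zero]
    · exact add_zero _
  inv_mul_cancel x := by
    refine Prod.ext ?_ ?_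
    · show - sgq col x.2 x.1 + sgq col x.2 x.1 = 0
      exact neg_add_cancel _
    · exact two_add M x.2

/-- The element `(w, s)`. -/
def mkQ {V : Type} {M N : ℕ} (col : V → Fin M) (w : V → ZMod N) (s : Fin M → ZMod 2) :
    QG N col := (w, s)

theorem mkQ_mul {V : Type} {M N : ℕ} (col : V → Fin M) (w w' : V → ZMod N)
    (s s' : Fin M → ZMod 2) :
    mkQ col w s * mkQ col w' s' = mkQ col (w + sgq col s w') (s + s') := rfl

/-- The generator `q_v = (e_v, δ_{col v})`. -/
def genQ {V : Type} [DecidableEq V] {M : ℕ} (N : ℕ) (col : V → Fin M) (v : V) : QG N col :=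
  mkQ col (Pi.single v 1) (Pi.single (col v) 1)

end SingerRA
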