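import Mathlib
import Pool.Agent.Lib_MP_394d50_gt.TDefs

/-! Piece TALPHA: a top cycle which vanishes at the points `(w, 0)`, `w` with a coordinate `-1`, is zero.

Proof (helper35). Let `c` be a cycle of degree `M`, `α σ w = c σ (w, 0)`. Members of `cliq G` of size `M`
have exactly one vertex of each colour. Since `(w, s) q_v = (w + ε(s) e_v, s + δ_{col v})`:
`c σ (w, s) = c σ (w - e_v, s - δ_{col v})` for `v ∈ σ`, `s (col v) = 1`; so `c` is determined by `α`
(induction on the number of `κ` with `s κ = 1`).
Let `τ ∈ cliq G`, `|τ| + 1 = M`, and let `κ` be the colour missing in `τ`. `dT c τ (w, 0) = 0` gives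
`∑_{v ∉ τ} α (insert v τ) w = 0` and `dT c τ (w, δ_κ) = 0` gives `∑_{v ∉ τ} α (insert v τ) (w - e_v) = 0`
(only the `v` with `insert v τ ∈ cliq G`, which have `col v = κ`, contribute).
Put `z σ = ∑_w α σ w X^w ∈ MvPolynomial V (ZMod 2)`, `X^w = ∏_v X_v^{(w v).val}`. The first family of equations
gives `∑_v z (insert v τ) = 0`. For the second: `X_v X^w = X^{w + e_v}` when `w v ≠ -1` (then `(w v + 1).val =
(w v).val + 1`), and `α` vanishes when some coordinate is `-1`; so `∑_v X_v z (insert v τ) = ∑_v ∑_w α (insert v τ) w
X^{w + e_v} = ∑_w (∑_v α (insert v τ) (w - e_v)) X^w = 0`. By `h`, `z = 0`; the monomials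
`X^w` are distinct, so `α = 0` and `c = 0`. -/

namespace SingerRA

namespace TAlphaAux

/-- The exponent of the monomial attached to `w`. -/
noncomputable def expo {V : Type} [Fintype V] {N : ℕ} (w : V → ZMod N) : V →₀ ℕ :=
  Finsupp.equivFunOnFinite.symm (fun v => (w v).val)

theorem expo_apply {V : Type} [Fintype V] {N : ℕ} (w : V → ZMod N) (v : V) :
    expo w v = (w v).val := rfl

theorem expo_inj {V : Type} [Fintype V] {N : ℕ} [NeZero N] :
    Function.Injective (expo : (V → ZMod N) → (V →₀ ℕ)) := by
  intro w w' h
  funext v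
  apply ZMod.val_injective N
  have := DFunLike.congr_fun h v
  simpa [expo_apply] using this

theorem expo_add {V : Type} [Fintype V] [DecidableEq V] {N : ℕ} [NeZero N] (hN : 2 ≤ N)
    (w : V → ZMod N) (v : V) (hv : w v ≠ -1) :
    expo (w + Pi.single v 1) = expo w + Finsupp.single v 1 := by
  have : Fact (1 < N) := ⟨by omega⟩
  ext u
  rw [expo_apply, Finsupp.add_apply, expo_apply, Pi.add_apply]
  by_cases h : u = v
  · subst h
    rw [Pi.single_eq_same, Finsupp.single_eq_same]
    rw [ZMod.val_add_of_lt]
    · rw [ZMod.val_one]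
    · rw [ZMod.val_one]
      have h1 := ZMod.val_lt (w u)
      by_contra h2
      apply hv
      have h3 : (w u).val = N - 1 := by omega
      have h4 : ((w u).val : ZMod N) = ((N - 1 : ℕ) : ZMod N) := by rw [h3]
      rw [ZMod.natCast_val, ZMod.cast_id', id] at h4
      rw [h4, Nat.cast_sub (by omega)]
      simp
  · rw [Pi.single_eq_of_ne h, Finsupp.single_eq_of_ne h, add_zero, add_zero]

theorem sgq_single {V : Type} [DecidableEq V] {M N : ℕ} (col : V → Fin M)
    (s : Fin M → ZMod 2) (v : V) (h : s (col v) = 1) :
    sgq col s (Pi.single v (1 : ZMod N)) = - Pi.single v 1 := by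
  funext u
  by_cases hu : u = v
  · subst hu
    simp [sgq, h]
  · simp [sgq, hu]

theorem mul_genQ {V : Type} [DecidableEq V] {M N : ℕ} (col : V → Fin M)
    (w : V → ZMod N) (s : Fin M → ZMod 2) (v : V) (h : s (col v) = 1) :
    mkQ col w s * genQ N col v = mkQ col (w - Pi.single v 1) (s + Pi.single (col v) 1) := by
  rw [genQ, mkQ_mul, sgq_single col s v h, sub_eq_add_neg]

theorem single_add_self {M : ℕ} (κ : Fin M) :
    (Pi.single κ 1 : Fin M → ZMod 2) + Pi.single κ 1 = 0 := two_add M _

/-- A clique is coloured injectively. -/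
theorem col_injOn {V : Type} {M : ℕ} (G : SimpleGraph V)
    (col : V → Fin M) (hc : ∀ u v, G.Adj u v → col u ≠ col v) (σ : Finset V)
    (hσ : σ ∈ cliq G) : Set.InjOn col (σ : Set V) := by
  intro u hu v hv huv
  by_contra hne
  exact hc u v (hσ hu hv hne) huv

end TAlphaAux

open TAlphaAux

theorem alpha_zero {V : Type} [Fintype V] [DecidableEq V] (G : SimpleGraph V) (M : ℕ)
    (col : V → Fin M) (hc : ∀ u v, G.Adj u v → col u ≠ col v) (N : ℕ) [NeZero N] (hN : 2 ≤ N)
    (h : ∀ z : Finset V → MvPolynomial V (ZMod 2),
      (∀ σ, ¬ (σ ∈ cliq G ∧ σ.card = M) → z σ = 0) →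
      (∀ τ ∈ cliq G, τ.card + 1 = M → ∑ v ∈ Finset.univ \ τ, z (insert v τ) = 0) →
      (∀ τ ∈ cliq G, τ.card + 1 = M →
        ∑ v ∈ Finset.univ \ τ, MvPolynomial.X v * z (insert v τ) = 0) → z = 0)
    (c : Finset V → QG N col → ZMod 2) (hI : c ∈ IC (genQ N col) (cliq G) M)
    (hd : dT (QG N col) (cliq G) c = 0)
    (hb : ∀ σ, ∀ w : V → ZMod N, (∃ v, w v = -1) → c σ (mkQ col w 0) = 0) : c = 0 := by
  classical
  obtain ⟨hI1, hI2⟩ := hI
  -- the boundary equations
  have hd' : ∀ τ ∈ cliq G, ∀ x, ∑ v ∈ Finset.univ \ τ, c (insert v τ) x = 0 := by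
    intro τ hτ x
    have h1 : dT (QG N col) (cliq G) c τ = ∑ v ∈ Finset.univ \ τ, c (insert v τ) := by
      show (if τ ∈ cliq G then ∑ v ∈ Finset.univ \ τ, c (insert v τ) else 0) = _
      rw [if_pos hτ]
    rw [hd] at h1
    have h2 := congrFun h1 x
    rw [Finset.sum_apply] at h2
    exact h2.symm
  set z : Finset V → MvPolynomial V (ZMod 2) := fun σ =>
    ∑ w : V → ZMod N, MvPolynomial.monomial (expo w) (c σ (mkQ col w 0)) with hz
  have hz0 : z = 0 := by
    apply h z
    · intro σ hσ
      simp only [hz, hI1 σ hσ, Pi.zero_apply, map_zero, Finset.sum_const_zero]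
    · intro τ hτ hτM
      simp only [hz]
      rw [Finset.sum_comm]
      apply Finset.sum_eq_zero
      intro w _
      rw [← map_sum, hd' τ hτ, map_zero]
    · intro τ hτ hτM
      -- the missing colour
      have hinj := col_injOn G col hc τ hτ
      have hcard : (τ.image col).card + 1 = M := by
        rw [Finset.card_image_of_injOn hinj, hτM]
      obtain ⟨κ, hκ⟩ : ∃ κ, κ ∉ τ.image col := by
        by_contra hno
        push Not at hno
        have h1 : τ.image col = Finset.univ := by
          ext k; simp only [Finset.mem_univ, iff_true]; exact hno k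
        rw [h1, Finset.card_univ, Fintype.card_fin] at hcard
        omega
      have hcolv : ∀ v, v ∉ τ → insert v τ ∈ cliq G → col v = κ := by
        intro v hv hcl
        have hinj2 := col_injOn G col hc _ hcl
        have h1 : (insert v τ).image col = Finset.univ := by
          apply Finset.eq_univ_of_card
          rw [Finset.card_image_of_injOn hinj2, Finset.card_insert_of_notMem hv, hτM,
            Fintype.card_fin]
        have h2 : κ ∈ (insert v τ).image col := by rw [h1]; exact Finset.mem_univ _
        rw [Finset.image_insert, Finset.mem_insert] at h2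
        rcases h2 with h2 | h2
        · exact h2.symm
        · exact absurd h2 hκ
      have key : ∀ v ∈ Finset.univ \ τ, ∀ w : V → ZMod N,
          c (insert v τ) (mkQ col (w - Pi.single v 1) 0) =
            c (insert v τ) (mkQ col w (Pi.single κ 1)) := by
        intro v hv w
        have hvτ : v ∉ τ := (Finset.mem_sdiff.1 hv).2
        by_cases hcl : insert v τ ∈ cliq G
        · have hk := hcolv v hvτ hcl
          have h1 := hI2 (insert v τ) v (Finset.mem_insert_self _ _)
            (mkQ col w (Pi.single κ 1))
          rw [mul_genQ col w (Pi.single κ 1) v (by rw [hk, Pi.single_eq_same]), hk,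
            single_add_self] at h1
          exact h1
        · rw [hI1 _ (fun hh => hcl hh.1)]; rfl
      have step : ∀ v ∈ Finset.univ \ τ, MvPolynomial.X v * z (insert v τ) =
          ∑ w : V → ZMod N, MvPolynomial.monomial (expo w)
            (c (insert v τ) (mkQ col w (Pi.single κ 1))) := by
        intro v hv
        simp only [hz]
        rw [Finset.mul_sum]
        have h1 : ∀ w : V → ZMod N, MvPolynomial.X v *
            MvPolynomial.monomial (expo w) (c (insert v τ) (mkQ col w 0)) =
            MvPolynomial.monomial (expo (w + Pi.single v 1))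
              (c (insert v τ) (mkQ col w 0)) := by
          intro w
          by_cases hw : w v = -1
          · rw [hb _ w ⟨v, hw⟩]; simp
          · rw [expo_add hN w v hw, MvPolynomial.X, MvPolynomial.monomial_mul, one_mul,
              add_comm]
        rw [Finset.sum_congr rfl (fun w _ => h1 w)]
        rw [← Equiv.sum_comp (Equiv.subRight (Pi.single v (1 : ZMod N)))]
        apply Finset.sum_congr rfl
        intro w _
        rw [Equiv.subRight_apply, sub_add_cancel, key v hv w]
      rw [Finset.sum_congr rfl step, Finset.sum_comm]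
      apply Finset.sum_eq_zero
      intro w _
      rw [← map_sum, hd' τ hτ, map_zero]
  have hα : ∀ σ, ∀ w : V → ZMod N, c σ (mkQ col w 0) = 0 := by
    intro σ w
    have h1 : MvPolynomial.coeff (expo w) (z σ) = 0 := by rw [hz0]; simp
    simp only [hz] at h1
    rw [MvPolynomial.coeff_sum, Finset.sum_eq_single w] at h1
    · rwa [MvPolynomial.coeff_monomial, if_pos rfl] at h1
    · intro w' _ hne
      rw [MvPolynomial.coeff_monomial, if_neg]
      intro he
      exact hne (expo_inj he)
    · intro hno
      exact absurd (Finset.mem_univ _) hno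
  funext σ x
  by_cases hσ : σ ∈ cliq G ∧ σ.card = M
  · have hall : ∀ n : ℕ, ∀ s : Fin M → ZMod 2, (Finset.univ.filter (fun κ => s κ = 1)).card = n →
        ∀ w : V → ZMod N, c σ (mkQ col w s) = 0 := by
      intro n
      induction n with
      | zero =>
        intro s hs w
        have hs0 : s = 0 := by
          funext κ
          rcases zmod2_cases (s κ) with h0 | h1
          · exact h0
          · exfalso
            have : κ ∈ Finset.univ.filter (fun κ => s κ = 1) := by simp [h1]
            rw [Finset.card_eq_zero] at hs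
            rw [hs] at this
            exact absurd this (Finset.notMem_empty _)
        rw [hs0]
        exact hα σ w
      | succ n ih =>
        intro s hs w
        obtain ⟨κ, hκ⟩ : (Finset.univ.filter (fun κ => s κ = 1)).Nonempty := by
          rw [← Finset.card_pos]; omega
        have hκ1 : s κ = 1 := (Finset.mem_filter.1 hκ).2
        have hinj := col_injOn G col hc σ hσ.1
        have himg : σ.image col = Finset.univ := by
          apply Finset.eq_univ_of_card
          rw [Finset.card_image_of_injOn hinj, hσ.2, Fintype.card_fin]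
        have hmem : κ ∈ σ.image col := by rw [himg]; exact Finset.mem_univ _
        obtain ⟨v, hvσ, hvκ⟩ := Finset.mem_image.1 hmem
        have h1 := hI2 σ v hvσ (mkQ col w s)
        rw [mul_genQ col w s v (by rw [hvκ, hκ1]), hvκ] at h1
        rw [← h1]
        apply ih
        have h2 : Finset.univ.filter (fun κ' => (s + Pi.single κ 1 : Fin M → ZMod 2) κ' = 1) =
            (Finset.univ.filter (fun κ' => s κ' = 1)).erase κ := by
          ext κ'
          simp only [Finset.mem_filter, Finset.mem_univ, true_and, Finset.mem_erase, Pi.add_apply]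
          by_cases hk : κ' = κ
          · subst hk
            rw [Pi.single_eq_same, hκ1]
            constructor
            · intro h3; exact absurd h3 (by decide)
            · intro h3; exact absurd rfl h3.1
          · rw [Pi.single_eq_of_ne hk, add_zero]
            exact ⟨fun h3 => ⟨hk, h3⟩, fun h3 => h3.2⟩
        rw [h2, Finset.card_erase_of_mem hκ, hs]
        rfl
    exact hall _ x.2 rfl x.1
  · rw [hI1 σ hσ]; rfl

end SingerRA
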