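import Mathlib
import Pool.Agent.Lib_MP_394d50_gt.TDefs

/-! Piece TGRP: elementary facts on the group `QG N col = (ℤ/N)^V ⋊ (ℤ/2)^M`, product
`(w, s) (w', s') = (w + ε(s) w', s + s')` (`mkQ_mul`, `sgq`), generators `genQ N col v = (e_v, δ_{col v})`.

* `genQ_sq`: `e_v + ε(δ_{col v}) e_v = e_v - e_v = 0`. `genQ_comm`: for `col u ≠ col v` the sign of
  `δ_{col u}` is trivial on `e_v`.
* `isPGroup_QG`: the order is `N^|V| 2^M` (`IsPGroup.of_card`).
* `ok_genQ`: the label homomorphism is `(w, s) ↦ w mod 2` (`ZMod.castHom (2 ∣ 2^(j+1)) (ZMod 2)`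
  coordinatewise; signs do not matter mod 2); it sends `genQ v` to the `v`-th basis vector. -/

namespace SingerRA

variable {V : Type} [DecidableEq V] {M : ℕ}

theorem genQ_sq (N : ℕ) (col : V → Fin M) (v : V) : genQ N col v * genQ N col v = 1 := by
  unfold genQ
  rw [mkQ_mul, two_add]
  refine Prod.ext ?_ rfl
  show (Pi.single v 1 : V → ZMod N) + sgq col (Pi.single (col v) 1) (Pi.single v 1) = 0
  funext u
  simp only [Pi.add_apply, sgq, Pi.zero_apply]
  by_cases h : u = v
  · subst h
    simp
  · simp [Pi.single_apply, h]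

theorem sgq_single_of_ne (N : ℕ) (col : V → Fin M) (u v : V) (h : col u ≠ col v) :
    sgq col (Pi.single (col u) 1) (Pi.single v 1 : V → ZMod N) = Pi.single v 1 := by
  funext x
  simp only [sgq]
  by_cases hx : x = v
  · subst hx
    simp [Pi.single_apply, Ne.symm h]
  · simp [Pi.single_apply, hx]

theorem genQ_comm (N : ℕ) (col : V → Fin M) (u v : V) (h : col u ≠ col v) :
    genQ N col u * genQ N col v = genQ N col v * genQ N col u := by
  unfold genQ
  rw [mkQ_mul, mkQ_mul, sgq_single_of_ne N col u v h, sgq_single_of_ne N col v u (Ne.symm h),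
    add_comm (Pi.single u 1 : V → ZMod N), add_comm (Pi.single (col u) 1 : Fin M → ZMod 2)]

instance instFiniteQG [Finite V] (N : ℕ) [NeZero N] (col : V → Fin M) : Finite (QG N col) :=
  inferInstanceAs (Finite ((V → ZMod N) × (Fin M → ZMod 2)))

theorem card_QG [Fintype V] (N : ℕ) [NeZero N] (col : V → Fin M) :
    Nat.card (QG N col) = N ^ Fintype.card V * 2 ^ M := by
  show Nat.card ((V → ZMod N) × (Fin M → ZMod 2)) = _
  classical
  rw [Nat.card_prod, Nat.card_fun, Nat.card_fun]
  simp

theorem isPGroup_QG [Fintype V] (j : ℕ) (col : V → Fin M) : IsPGroup 2 (QG (2 ^ j) col) := by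
  refine IsPGroup.of_card (n := j * Fintype.card V + M) ?_
  rw [card_QG, ← pow_mul, ← pow_add]

theorem ok_genQ (j : ℕ) (G : SimpleGraph V) (col : V → Fin M)
    (hc : ∀ u v, G.Adj u v → col u ≠ col v) : OK (genQ (2 ^ (j + 1)) col) (cliq G) := by
  have hd : (2 : ℕ) ∣ 2 ^ (j + 1) := dvd_pow_self 2 (Nat.succ_ne_zero j)
  refine ⟨?_, fun v => genQ_sq _ col v, ?_, ?_⟩
  · intro σ _ τ hτ ρ _ h2
    have hτ' : G.IsClique (τ : Set V) := hτ
    show G.IsClique (ρ : Set V)
    exact hτ'.subset (by exact_mod_cast h2)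
  · intro σ hσ u hu v hv
    by_cases huv : u = v
    · subst huv; rfl
    · exact genQ_comm _ col u v (hc u v (hσ (by exact_mod_cast hu) (by exact_mod_cast hv) huv))
  · let π : ZMod (2 ^ (j + 1)) →+* ZMod 2 := ZMod.castHom hd (ZMod 2)
    have hsg : ∀ (s : Fin M → ZMod 2) (w : V → ZMod (2 ^ (j + 1))) (u : V),
        π (sgq col s w u) = π (w u) := by
      intro s w u
      unfold sgq
      split_ifs
      · rfl
      · rw [map_neg]
        exact CharTwo.neg_eq _
    refine ⟨{ toFun := fun x => Multiplicative.ofAdd (fun u => π (x.1 u)), map_one' := ?_,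
              map_mul' := ?_ }, ?_⟩
    · show Multiplicative.ofAdd (fun u => π ((0 : V → ZMod (2 ^ (j + 1))) u)) = 1
      have : (fun u => π ((0 : V → ZMod (2 ^ (j + 1))) u)) = (0 : V → ZMod 2) := by
        funext u
        simp
      rw [this]
      rfl
    · intro x y
      show Multiplicative.ofAdd (fun u => π ((x.1 + sgq col x.2 y.1) u)) =
        Multiplicative.ofAdd ((fun u => π (x.1 u)) + (fun u => π (y.1 u)))
      congr 1
      funext u
      simp only [Pi.add_apply, map_add, hsg]
    · intro σ _ v _ u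
      show π ((Pi.single v 1 : V → ZMod (2 ^ (j + 1))) u) = _
      rw [Pi.single_apply]
      split_ifs
      · simp
      · simp

end SingerRA
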