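import Mathlib
import Pool.Agent.Lib_MP_394d50_gt.TDefs
import Pool.Agent.Lib_MP_394d50_gt.AOne
import Pool.Agent.Lib_MP_394d50_gt.TGrp
import Pool.Agent.Lib_MP_394d50_gt.TAlpha

/-! Piece TDIM: the bound for the top Betti number.

Proof: `bettiF = cdim - rk M - rk (M+1) ≤ cdim - rk M = dim Z`, `Z = ker d ⊓ IC` in degree `M`
(`aone_rk_add` in AOne.lean and `0 ≤ rk`). The linear map `Z → (Finset V × {w : V → ZMod N // ∃ v, w v = -1} →
ZMod 2)`, `c ↦ ((σ, w) ↦ c σ (mkQ col w 0))` is injective by `alpha_zero`. The number of `w` with a coordinate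
`-1` is ≤ `∑_v #{w : w v = -1} = |V| N^(|V|-1)`. -/

namespace SingerRA

open scoped Classical in
/-- The number of the functions `V → ZMod N` with a value `-1`. -/
theorem tdim_count (V : Type) [Fintype V] [DecidableEq V] (N : ℕ) [NeZero N] :
    Fintype.card {w : V → ZMod N // ∃ v, w v = -1} ≤
      Fintype.card V * N ^ (Fintype.card V - 1) := by
  have h1 : Fintype.card (Σ v : V, ({u : V // u ≠ v} → ZMod N)) =
      Fintype.card V * N ^ (Fintype.card V - 1) := by
    rw [Fintype.card_sigma]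
    have h2 : ∀ v : V, Fintype.card ({u : V // u ≠ v} → ZMod N) = N ^ (Fintype.card V - 1) := by
      intro v
      rw [Fintype.card_fun, ZMod.card]
      congr 1
      rw [Fintype.card_subtype_compl, Fintype.card_subtype_eq]
    rw [Finset.sum_congr rfl (fun v _ => h2 v)]
    simp
  rw [← h1]
  refine Fintype.card_le_of_surjective
    (fun p : (Σ v : V, ({u : V // u ≠ v} → ZMod N)) =>
      (⟨fun u => if h : u ≠ p.1 then p.2 ⟨u, h⟩ else -1, p.1, by simp⟩ :
        {w : V → ZMod N // ∃ v, w v = -1})) ?_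
  rintro ⟨w, v, hv⟩
  refine ⟨⟨v, fun u => w u.1⟩, ?_⟩
  apply Subtype.ext
  funext u
  by_cases h : u = v
  · subst h
    simp [hv]
  · simp [h]

/-- The restriction of the chains to the points `(w, 0)`, `w` with a coordinate `-1`. -/
def tdimRes {V : Type} {M : ℕ} (N : ℕ) (col : V → Fin M) :
    (Finset V → QG N col → ZMod 2) →ₗ[ZMod 2]
      (Finset V × {w : V → ZMod N // ∃ v, w v = -1} → ZMod 2) where
  toFun c := fun p => c p.1 (mkQ col p.2.1 0)
  map_add' _ _ := rfl
  map_smul' _ _ := rfl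

theorem betti_top_le {V : Type} [Fintype V] [DecidableEq V] (G : SimpleGraph V) (M : ℕ)
    (col : V → Fin M) (hc : ∀ u v, G.Adj u v → col u ≠ col v) (N : ℕ) [NeZero N] (hN : 2 ≤ N)
    (h : ∀ z : Finset V → MvPolynomial V (ZMod 2),
      (∀ σ, ¬ (σ ∈ cliq G ∧ σ.card = M) → z σ = 0) →
      (∀ τ ∈ cliq G, τ.card + 1 = M → ∑ v ∈ Finset.univ \ τ, z (insert v τ) = 0) →
      (∀ τ ∈ cliq G, τ.card + 1 = M →
        ∑ v ∈ Finset.univ \ τ, MvPolynomial.X v * z (insert v τ) = 0) → z = 0) :
    bettiF (genQ N col) (cliq G) M ≤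
      2 ^ Fintype.card V * (Fintype.card V * N ^ (Fintype.card V - 1)) := by
  classical
  have e1 := aone_rk_add (genQ N col) (cliq G) M
  have e2 : (0 : ℤ) ≤ rk (genQ N col) (cliq G) (M + 1) := by
    unfold rk
    exact Int.natCast_nonneg _
  set Z : Submodule (ZMod 2) (Finset V → QG N col → ZMod 2) :=
    IC (genQ N col) (cliq G) M ⊓ LinearMap.ker (dT (QG N col) (cliq G)) with hZ
  have hinj : Function.Injective ((tdimRes N col).domRestrict Z) := by
    rw [← LinearMap.ker_eq_bot, LinearMap.ker_eq_bot']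
    rintro ⟨c, hc1, hc2⟩ hc3
    apply Subtype.ext
    refine alpha_zero G M col hc N hN h c hc1 (LinearMap.mem_ker.1 hc2) ?_
    intro σ w hw
    have := congrFun hc3 (σ, ⟨w, hw⟩)
    exact this
  have e3 := LinearMap.finrank_le_finrank_of_injective hinj
  rw [Module.finrank_fintype_fun_eq_card, Fintype.card_prod, Fintype.card_finset] at e3
  have e4 : Module.finrank (ZMod 2) Z ≤
      2 ^ Fintype.card V * (Fintype.card V * N ^ (Fintype.card V - 1)) :=
    e3.trans (Nat.mul_le_mul_left _ (tdim_count V N))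
  have e5 : (Module.finrank (ZMod 2) Z : ℤ) ≤
      2 ^ Fintype.card V * (Fintype.card V * N ^ (Fintype.card V - 1)) := by
    exact_mod_cast e4
  unfold bettiF
  linarith

end SingerRA
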