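import Mathlib
import Pool.Agent.Lib_MP_394d50_gt.TDefs
import Pool.Agent.Lib_MP_394d50_gt.BStd
import Pool.Agent.Lib_MP_394d50_gt.ACover
import Pool.Agent.Lib_MP_394d50_gt.ASmall
import Pool.Agent.Lib_MP_394d50_gt.TGrp
import Pool.Agent.Lib_MP_394d50_gt.TDim

/-! Piece TSMALL: assembly.

Proof: given `ε`, take `N = 2^(j+1)` with `j` large, `Q = QG N col`, `q = genQ N col`:
`isPGroup_QG`, `genQ_sq`, `genQ_comm`. With `A = Q × Multiplicative (V → ZMod 2)`, `π = MonoidHom.fst`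
(surjective, kernel of order `2^|V|`), `bettiF_cover_real` (ASmall.lean) gives `bettiF (stdA q) ≤ 2^|V| *
bettiF q` (`ok_genQ`, `isPGroup_std`, `stdMk`, `OK_of_Mk` for the commutation), and `betti_top_le`, `card_QG`: the
quotient by `|Q| = N^|V| 2^M` is `≤ 4^|V| |V| / N → 0`. -/

namespace SingerRA

theorem SmallGrad.of_generic {V : Type} [Fintype V] [DecidableEq V] (G : SimpleGraph V) (M : ℕ)
    (col : V → Fin M) (hc : ∀ u v, G.Adj u v → col u ≠ col v)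
    (h : ∀ z : Finset V → MvPolynomial V (ZMod 2),
      (∀ σ, ¬ (σ ∈ cliq G ∧ σ.card = M) → z σ = 0) →
      (∀ τ ∈ cliq G, τ.card + 1 = M → ∑ v ∈ Finset.univ \ τ, z (insert v τ) = 0) →
      (∀ τ ∈ cliq G, τ.card + 1 = M →
        ∑ v ∈ Finset.univ \ τ, MvPolynomial.X v * z (insert v τ) = 0) → z = 0) :
    SmallGrad M G := by
  rename_i iF iD
  intro i1 i2 ε hε
  obtain rfl : i1 = iF := Subsingleton.elim _ _
  obtain rfl : i2 = iD := Subsingleton.elim _ _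
  set c := Fintype.card V with hcdef
  obtain ⟨j, hj⟩ := pow_unbounded_of_one_lt ((4 : ℝ) ^ c * c / ε) (one_lt_two : (1 : ℝ) < 2)
  have hj' : (4 : ℝ) ^ c * c ≤ ε * 2 ^ (j + 1) := by
    rw [div_lt_iff₀ hε] at hj
    have h2 : (0 : ℝ) < 2 ^ j := by positivity
    rw [pow_succ]
    nlinarith
  have : NeZero (2 ^ (j + 1)) := ⟨by positivity⟩
  have hsq : ∀ v, genQ (2 ^ (j + 1)) col v * genQ (2 ^ (j + 1)) col v = 1 := fun v =>
    genQ_sq (2 ^ (j + 1)) col v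
  have hcomm : ∀ u v, G.Adj u v → genQ (2 ^ (j + 1)) col u * genQ (2 ^ (j + 1)) col v =
      genQ (2 ^ (j + 1)) col v * genQ (2 ^ (j + 1)) col u := fun u v huv =>
    genQ_comm (2 ^ (j + 1)) col u v (hc u v huv)
  have : Finite (Multiplicative (V → ZMod 2)) := inferInstanceAs (Finite (V → ZMod 2))
  refine ⟨QG (2 ^ (j + 1)) col, inferInstance, inferInstance, genQ (2 ^ (j + 1)) col,
    isPGroup_QG (j + 1) col, hsq, hcomm, ?_⟩
  have hP := isPGroup_std (V := V) (isPGroup_QG (j + 1) col)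
  have hOK : OK (stdA (genQ (2 ^ (j + 1)) col)) (cliq G) :=
    OK_of_Mk (stdMk G (genQ (2 ^ (j + 1)) col) hsq hcomm)
  have h1 := bettiF_cover_real hP
    (MonoidHom.fst (QG (2 ^ (j + 1)) col) (Multiplicative (V → ZMod 2))) Prod.fst_surjective
    (stdA (genQ (2 ^ (j + 1)) col)) (cliq G) (ok_genQ j G col hc) hOK.sq hOK.comm M
  have h2 : bettiF (genQ (2 ^ (j + 1)) col) (cliq G) M ≤
      2 ^ c * (c * (2 ^ (j + 1)) ^ (c - 1)) := by
    have h3 := betti_top_le G M col hc (2 ^ (j + 1)) (by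
      have : 2 ^ 1 ≤ 2 ^ (j + 1) := Nat.pow_le_pow_right (by norm_num) (by omega)
      simpa using this) h
    rw [← hcdef] at h3
    exact_mod_cast h3
  have hcardA : Nat.card (QG (2 ^ (j + 1)) col × Multiplicative (V → ZMod 2)) =
      Nat.card (QG (2 ^ (j + 1)) col) * 2 ^ c := by
    rw [Nat.card_prod]
    congr 1
    rw [show Nat.card (Multiplicative (V → ZMod 2)) = Nat.card (V → ZMod 2) from rfl,
      Nat.card_fun, Nat.card_zmod, Nat.card_eq_fintype_card]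
  have hQ : Nat.card (QG (2 ^ (j + 1)) col) = (2 ^ (j + 1)) ^ c * 2 ^ M := card_QG _ col
  have hQpos : (0 : ℝ) < Nat.card (QG (2 ^ (j + 1)) col) := by
    rw [hQ]; push_cast; positivity
  have hratio : (Nat.card (QG (2 ^ (j + 1)) col × Multiplicative (V → ZMod 2)) /
      Nat.card (QG (2 ^ (j + 1)) col) : ℝ) = 2 ^ c := by
    rw [hcardA]
    push_cast
    field_simp
  rw [hratio] at h1
  have h2' : (bettiF (genQ (2 ^ (j + 1)) col) (cliq G) M : ℝ) ≤
      2 ^ c * (c * (2 ^ (j + 1)) ^ (c - 1)) := by exact_mod_cast h2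
  have h4 : (bettiF (stdA (genQ (2 ^ (j + 1)) col)) (cliq G) M : ℝ) ≤
      2 ^ c * (2 ^ c * (c * (2 ^ (j + 1)) ^ (c - 1))) :=
    h1.trans (mul_le_mul_of_nonneg_left h2' (by positivity))
  refine h4.trans ?_
  rw [hQ]
  push_cast
  rcases Nat.eq_zero_or_pos c with h0 | hpos
  · rw [h0]
    simp only [Nat.cast_zero, zero_mul, mul_zero]
    positivity
  · have e1 : ((2 : ℝ) ^ (j + 1)) ^ c = (2 ^ (j + 1)) ^ (c - 1) * 2 ^ (j + 1) := by
      rw [← pow_succ]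
      congr 1
      omega
    have hM : (1 : ℝ) ≤ 2 ^ M := one_le_pow₀ (by norm_num)
    have e2 : (2 : ℝ) ^ c * (2 ^ c * (c * (2 ^ (j + 1)) ^ (c - 1))) =
        (4 ^ c * c) * (2 ^ (j + 1)) ^ (c - 1) := by
      rw [show (4 : ℝ) = 2 * 2 by norm_num, mul_pow]
      ring
    rw [e1, e2]
    have hX : (0 : ℝ) < (2 ^ (j + 1)) ^ (c - 1) := by positivity
    calc (4 ^ c * c : ℝ) * (2 ^ (j + 1)) ^ (c - 1)
        ≤ (ε * 2 ^ (j + 1)) * (2 ^ (j + 1)) ^ (c - 1) := mul_le_mul_of_nonneg_right hj' hX.le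
      _ ≤ (ε * 2 ^ (j + 1)) * (2 ^ (j + 1)) ^ (c - 1) * 2 ^ M :=
          le_mul_of_one_le_right (by positivity) hM
      _ = _ := by ring

end SingerRA
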